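import Mathlib

set_option autoImplicit false

namespace Pool.Agent.Lib.AO.Alg66

open Set Metric Filter Topology MvPolynomial

/-- the boundary of a plane convex body is connected -/
theorem front_conn {K : Set (ℝ × ℝ)} (hK : IsCompact K) (hc : Convex ℝ K)
    (hi : (interior K).Nonempty) : IsConnected (frontier K) := by
  obtain ⟨h, -, -, e⟩ := exists_homeomorph_image_interior_closure_frontier_eq_unitBall hc hi
    hK.isBounded
  have r : 1 < Module.rank ℝ (ℝ × ℝ) := by
    rw [← Module.finrank_eq_rank]; simp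
  rw [← h.isConnected_image, e]
  exact isConnected_sphere r 0 zero_le_one

/-- an irreducible factor with the same hypotheses -/
theorem irr {C : Set (ℝ × ℝ)} (hC : IsConnected C) (P : MvPolynomial (Fin 2) ℝ)
    (h0 : ∀ z ∈ C, eval ![z.1, z.2] P = 0)
    (h1 : ∀ z ∈ C, ∃ i, eval ![z.1, z.2] (pderiv i P) ≠ 0) :
    ∃ Q : MvPolynomial (Fin 2) ℝ, Irreducible Q ∧ (∀ z ∈ C, eval ![z.1, z.2] Q = 0) ∧
      ∀ z ∈ C, ∃ i, eval ![z.1, z.2] (pderiv i Q) ≠ 0 := by
  obtain ⟨z0, hz0⟩ := hC.nonempty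
  have cl : ∀ R : MvPolynomial (Fin 2) ℝ, IsClosed {z : ℝ × ℝ | eval ![z.1, z.2] R = 0} := fun R =>
    isClosed_eq ((continuous_eval R).comp (by fun_prop)) continuous_const
  induction P using WfDvdMonoid.induction_on_irreducible with
  | zero => simpa using h1 z0 hz0
  | unit u hu => exact absurd (h0 z0 hz0) (hu.map (eval ![z0.1, z0.2])).ne_zero
  | mul a i _ hi ih =>
    have pd : ∀ (z : ℝ × ℝ) (j : Fin 2), eval ![z.1, z.2] (pderiv j (i * a)) =
        eval ![z.1, z.2] (pderiv j i) * eval ![z.1, z.2] a +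
          eval ![z.1, z.2] i * eval ![z.1, z.2] (pderiv j a) := fun z j => by
      rw [pderiv_mul, map_add, map_mul, map_mul]
    have := (isPreconnected_iff_subset_of_disjoint_closed.1 hC.isPreconnected) _ _ (cl i) (cl a)
      (fun z hz => by simpa using h0 z hz) (eq_empty_of_forall_notMem fun z hz => by
        obtain ⟨j, hj⟩ := h1 z hz.1
        have e1 : eval ![z.1, z.2] i = 0 := hz.2.1
        have e2 : eval ![z.1, z.2] a = 0 := hz.2.2
        exact hj (by rw [pd, e1, e2]; ring))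
    rcases this with h | h
    · refine ⟨i, hi, h, fun z hz => ?_⟩
      obtain ⟨j, hj⟩ := h1 z hz
      have e1 : eval ![z.1, z.2] i = 0 := h hz
      exact ⟨j, fun e => hj (by rw [pd, e1, e]; ring)⟩
    · refine ih h fun z hz => ?_
      obtain ⟨j, hj⟩ := h1 z hz
      have e1 : eval ![z.1, z.2] a = 0 := h hz
      exact ⟨j, fun e => hj (by rw [pd, e1, e]; ring)⟩

theorem hom_eval {φ : MvPolynomial (Fin 2) ℂ} {k : ℕ} (h : φ.IsHomogeneous k) (x : ℂ)
    (w : Fin 2 → ℂ) : eval (x • w) φ = x ^ k * eval w φ := by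
  rw [eval_eq', eval_eq', Finset.mul_sum]
  refine Finset.sum_congr rfl fun d hd => ?_
  have e : d 0 + d 1 = k := by
    by_contra hne
    refine mem_support_iff.1 hd (h.coeff_eq_zero ?_)
    rwa [Finsupp.degree_eq_sum, Fin.sum_univ_two]
  simp only [Fin.prod_univ_two, Pi.smul_apply, smul_eq_mul, mul_pow, ← e]
  ring

theorem hom_fin {φ : MvPolynomial (Fin 2) ℂ} {k : ℕ} (h : φ.IsHomogeneous k) (h0 : φ ≠ 0) :
    {t : ℝ | eval ![1, (t : ℂ)] φ = 0}.Finite := by
  set g : Polynomial ℂ := aeval ![1, Polynomial.X] φ with hg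
  have ev : ∀ t : ℂ, g.eval t = eval ![1, t] φ := by
    intro t
    have : (Polynomial.aeval t).comp (aeval ![1, Polynomial.X]) = aeval (R := ℂ) ![1, t] :=
      algHom_ext fun i => by fin_cases i <;> simp
    have := congrArg (fun f => f φ) this
    simpa [Polynomial.coe_aeval_eq_eval, aeval_eq_eval] using this
  have g0 : g ≠ 0 := by
    intro e
    have : X 0 * φ = 0 := by
      refine MvPolynomial.funext fun w => ?_
      by_cases hw : w 0 = 0
      · simp [hw]
      · have : w = w 0 • ![1, w 1 / w 0] := by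
          ext i; fin_cases i
          · simp
          · simp; field_simp
        rw [map_mul, this, hom_eval h, ← ev, e]
        simp
    exact h0 ((mul_eq_zero.1 this).resolve_left (X_ne_zero 0))
  refine ((g.roots.toFinset.finite_toSet).preimage Complex.ofReal_injective.injOn).subset ?_
  intro t ht
  simpa [g0, ev] using ht

theorem near_ne {I : Finset ℕ} {d : ℕ} (hd : d ∈ I) {e : ℕ → ℕ} (he : ∀ k ∈ I, k ≠ d → e k ≠ 0)
    (e0 : e d = 0) {c : ℕ → ℂ → ℂ} (hc : ∀ k, Continuous (c k)) (c0 : c d 0 ≠ 0) :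
    ∃ ε > 0, ∀ s v : ℂ, ‖s‖ < ε → ‖v‖ < ε → ∑ k ∈ I, s ^ e k * c k v ≠ 0 := by
  have ct : Continuous fun q : ℂ × ℂ => ∑ k ∈ I, q.1 ^ e k * c k q.2 := by fun_prop
  have n0 : (fun q : ℂ × ℂ => ∑ k ∈ I, q.1 ^ e k * c k q.2) 0 ≠ 0 := by
    show ∑ k ∈ I, (0 : ℂ) ^ e k * c k 0 ≠ 0
    rw [Finset.sum_eq_single_of_mem d hd fun k hk hne => by rw [zero_pow (he k hk hne), zero_mul]]
    simpa [e0] using c0
  obtain ⟨ε, ε0, h⟩ := Metric.eventually_nhds_iff.1 (ct.continuousAt.eventually_ne n0)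
  exact ⟨ε, ε0, fun s v hs hv => h (y := (s, v)) (by simpa [Prod.dist_eq] using ⟨hs, hv⟩)⟩

/-- behaviour at infinity and at the origin in a generic direction -/
theorem cones {R : MvPolynomial (Fin 2) ℂ} (hR : R ≠ 0) : ∃ S : Set ℝ, S.Finite ∧ ∀ t ∉ S,
    ∀ n : Fin 2 → ℂ,
      (∃ C : ℝ, ∀ x y : ℂ, eval (x • ![1, (t : ℂ)] + y • n) R = 0 → ‖x‖ ≤ C * (1 + ‖y‖)) ∧
      ∃ C ε : ℝ, 0 < ε ∧ ∀ x y : ℂ, ‖x‖ < ε → eval (x • ![1, (t : ℂ)] + y • n) R = 0 →
        ‖x‖ ≤ C * ‖y‖ := by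
  classical
  set I := (Finset.range (R.totalDegree + 1)).filter fun k => homogeneousComponent k R ≠ 0 with hI
  have sm : ∑ k ∈ I, homogeneousComponent k R = R := by
    rw [hI, Finset.sum_filter_ne_zero, sum_homogeneousComponent]
  have ne : I.Nonempty := by
    rw [Finset.nonempty_iff_ne_empty]
    intro e
    rw [e, Finset.sum_empty] at sm
    exact hR sm.symm
  have hd := I.max'_mem ne
  have hm := I.min'_mem ne
  refine ⟨_, (hom_fin (homogeneousComponent_isHomogeneous _ _) (Finset.mem_filter.1 hd).2).union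
    (hom_fin (homogeneousComponent_isHomogeneous _ _) (Finset.mem_filter.1 hm).2), fun t ht n => ?_⟩
  rw [mem_union, not_or] at ht
  set c : ℕ → ℂ → ℂ := fun k v => eval (![1, (t : ℂ)] + v • n) (homogeneousComponent k R) with hc
  have cc : ∀ k, Continuous (c k) := fun k => (continuous_eval _).comp (by fun_prop)
  have ex : ∀ x y : ℂ, x ≠ 0 →
      eval (x • ![1, (t : ℂ)] + y • n) R = ∑ k ∈ I, x ^ k * c k (y / x) := by
    intro x y hx
    have : x • ![1, (t : ℂ)] + y • n = x • (![1, (t : ℂ)] + (y / x) • n) := by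
      rw [smul_add, smul_smul, mul_div_cancel₀ _ hx]
    rw [this]
    conv_lhs => rw [← sm]
    rw [map_sum]
    exact Finset.sum_congr rfl fun k _ => hom_eval (homogeneousComponent_isHomogeneous _ _) _ _
  constructor
  · obtain ⟨ε, ε0, h⟩ := near_ne hd (e := fun k => I.max' ne - k)
      (fun k hk hne => by have := I.le_max' k hk; omega) (by simp) cc
      (by simpa [hc] using ht.1)
    refine ⟨2 / ε, fun x y hp => ?_⟩
    by_contra hlt
    rw [not_le, div_mul_eq_mul_div, div_lt_iff₀ ε0] at hlt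
    have ny := norm_nonneg y
    have nx : 0 < ‖x‖ := by nlinarith [norm_nonneg x]
    have hx : x ≠ 0 := norm_pos_iff.1 nx
    refine h x⁻¹ (y / x) ?_ ?_ ?_
    · rw [norm_inv, inv_lt_iff_one_lt_mul₀ nx]; linarith
    · rw [norm_div, div_lt_iff₀ nx]; linarith
    · refine mul_left_cancel₀ (pow_ne_zero (I.max' ne) hx) ?_
      rw [mul_zero, ← hp, ex x y hx, Finset.mul_sum]
      refine Finset.sum_congr rfl fun k hk => ?_
      rw [← mul_assoc, inv_pow, ← pow_sub₀ _ hx (Nat.sub_le _ _),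
        Nat.sub_sub_self (I.le_max' k hk)]
  · obtain ⟨ε, ε0, h⟩ := near_ne hm (e := fun k => k - I.min' ne)
      (fun k hk hne => by have := I.min'_le k hk; omega) (by simp) cc
      (by simpa [hc] using ht.2)
    refine ⟨1 / ε, ε, ε0, fun x y hxε hp => ?_⟩
    by_contra hlt
    rw [not_le, div_mul_eq_mul_div, div_lt_iff₀ ε0] at hlt
    have ny := norm_nonneg y
    have nx : 0 < ‖x‖ := by nlinarith [norm_nonneg x]
    have hx : x ≠ 0 := norm_pos_iff.1 nx
    refine h x (y / x) hxε ?_ ?_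
    · rw [norm_div, div_lt_iff₀ nx]; linarith
    · refine mul_left_cancel₀ (pow_ne_zero (I.min' ne) hx) ?_
      rw [mul_zero, ← hp, ex x y hx, Finset.mul_sum]
      refine Finset.sum_congr rfl fun k hk => ?_
      rw [← mul_assoc, ← pow_add, Nat.add_sub_cancel' (I.min'_le k hk)]

/-- chain rule along a complex line -/
theorem chain (Q : MvPolynomial (Fin 2) ℝ) {f g : ℂ → ℂ} {f' g' x : ℂ} (hf : HasDerivAt f f' x)
    (hg : HasDerivAt g g' x) : HasDerivAt (fun x => aeval ![f x, g x] Q)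
      (aeval ![f x, g x] (pderiv 0 Q) * f' + aeval ![f x, g x] (pderiv 1 Q) * g') x := by
  induction Q using MvPolynomial.induction_on with
  | C a => simpa using hasDerivAt_const x (a : ℂ)
  | add p q hp hq =>
    simp only [map_add]
    exact (hp.add hq).congr_deriv (by ring)
  | mul_X p i hp =>
    simp only [map_mul, aeval_X, pderiv_mul, map_add]
    fin_cases i
    · exact (hp.mul hf).congr_deriv (by simp; ring)
    · exact (hp.mul hg).congr_deriv (by simp; ring)

/-- Bezout relation between an irreducible polynomial and its derivative -/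
theorem bezout {p : Polynomial (Polynomial ℝ)} (hp : Irreducible p) (hn : p.natDegree ≠ 0) :
    ∃ c : Polynomial ℝ, c ≠ 0 ∧ ∃ a b, p * a + Polynomial.derivative p * b = Polynomial.C c := by
  have inj := IsFractionRing.injective (Polynomial ℝ) (FractionRing (Polynomial ℝ))
  have hi := ((hp.isPrimitive hn).irreducible_iff_irreducible_map_fraction_map
    (K := FractionRing (Polynomial ℝ))).1 hp
  have co : IsCoprime (p.map (algebraMap _ (FractionRing (Polynomial ℝ))))
      (Polynomial.derivative (p.map (algebraMap _ (FractionRing (Polynomial ℝ))))) := hi.separable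
  have r := Polynomial.resultant_ne_zero _ _ co
  rw [Polynomial.derivative_map, Polynomial.natDegree_map_eq_of_injective inj,
    Polynomial.natDegree_map_eq_of_injective inj, Polynomial.resultant_map_map] at r
  obtain ⟨a, b, -, -, e⟩ := Polynomial.exists_mul_add_mul_eq_C_resultant p
    (Polynomial.derivative p) le_rfl le_rfl (Or.inl hn)
  exact ⟨_, fun h => r (by rw [h, map_zero]), a, b, e⟩

/-- the polynomial in `x` over `ℝ[y]` obtained by the linear substitution -/
theorem subst {Q : MvPolynomial (Fin 2) ℝ} (hQ : Irreducible Q) {t n1 n2 : ℝ}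
    (hn : n2 - t * n1 ≠ 0) : ∃ p : Polynomial (Polynomial ℝ), Irreducible p ∧ ∀ x y : ℂ,
      (p.map (Polynomial.aeval y : Polynomial ℝ →ₐ[ℝ] ℂ).toRingHom).eval x =
        aeval ![x + y * n1, x * t + y * n2] Q := by
  let f : MvPolynomial (Fin 2) ℝ →ₐ[ℝ] MvPolynomial (Fin 2) ℝ :=
    aeval ![X 1 + X 0 * C n1, X 1 * C t + X 0 * C n2]
  let g : MvPolynomial (Fin 2) ℝ →ₐ[ℝ] MvPolynomial (Fin 2) ℝ :=
    aeval ![(X 1 - X 0 * C t) * C (n2 - t * n1)⁻¹, (X 0 * C n2 - X 1 * C n1) * C (n2 - t * n1)⁻¹]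
  have one : (C n2 - C t * C n1) * C (n2 - t * n1)⁻¹ = (1 : MvPolynomial (Fin 2) ℝ) := by
    rw [← map_mul, ← map_sub, ← map_mul, mul_inv_cancel₀ hn, map_one]
  have fg : f.comp g = AlgHom.id ℝ _ := algHom_ext fun i => by
    fin_cases i
    · simp only [f, g, AlgHom.comp_apply, AlgHom.id_apply, aeval_X, Fin.zero_eta,
        Matrix.cons_val_zero, Matrix.cons_val_one, map_mul, map_sub, aeval_C, algebraMap_eq]
      linear_combination X 0 * one
    · simp only [f, g, AlgHom.comp_apply, AlgHom.id_apply, aeval_X, Fin.mk_one,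
        Matrix.cons_val_zero, Matrix.cons_val_one, map_mul, map_sub, aeval_C, algebraMap_eq]
      linear_combination X 1 * one
  have gf : g.comp f = AlgHom.id ℝ _ := algHom_ext fun i => by
    fin_cases i
    · simp only [f, g, AlgHom.comp_apply, AlgHom.id_apply, aeval_X, Fin.zero_eta,
        Matrix.cons_val_zero, Matrix.cons_val_one, map_mul, map_add, aeval_C, algebraMap_eq]
      linear_combination X 0 * one
    · simp only [f, g, AlgHom.comp_apply, AlgHom.id_apply, aeval_X, Fin.mk_one,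
        Matrix.cons_val_zero, Matrix.cons_val_one, map_mul, map_add, aeval_C, algebraMap_eq]
      linear_combination X 1 * one
  let e := (AlgEquiv.ofAlgHom f g fg gf).trans (Polynomial.Bivariate.equivMvPolynomial ℝ).symm
  refine ⟨e Q, (MulEquiv.irreducible_iff e).2 hQ, fun x y => ?_⟩
  have key : ∀ R : MvPolynomial (Fin 2) ℝ,
      (((Polynomial.Bivariate.equivMvPolynomial ℝ).symm R).map
        (Polynomial.aeval y : Polynomial ℝ →ₐ[ℝ] ℂ).toRingHom).eval x = aeval ![y, x] R := by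
    intro R
    induction R using MvPolynomial.induction_on with
    | C a => simp
    | add p q hp hq => simp only [map_add, Polynomial.map_add, Polynomial.eval_add, hp, hq]
    | mul_X p i hp =>
      simp only [map_mul, Polynomial.map_mul, Polynomial.eval_mul, hp]
      fin_cases i <;> simp
  show (((Polynomial.Bivariate.equivMvPolynomial ℝ).symm (f Q)).map _).eval x = _
  rw [key]
  have : (aeval ![y, x]).comp f = aeval (R := ℝ) ![x + y * n1, x * t + y * n2] :=
    algHom_ext fun i => by fin_cases i <;> simp [f]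
  exact congrArg (fun k => k Q) this

/-- finitely many roots on each height, finitely many bad heights -/
theorem heights {Q : MvPolynomial (Fin 2) ℝ} (hQ : Irreducible Q) {t n1 n2 : ℝ}
    (hn : n2 - t * n1 ≠ 0) {C : ℝ}
    (hC : ∀ x y : ℂ, aeval ![x + y * n1, x * t + y * n2] Q = 0 → ‖x‖ ≤ C * (1 + ‖y‖)) :
    (∀ y : ℂ, {x : ℂ | aeval ![x + y * n1, x * t + y * n2] Q = 0}.Finite) ∧
      {y : ℂ | ∃ x : ℂ, aeval ![x + y * n1, x * t + y * n2] Q = 0 ∧
        deriv (fun x : ℂ => aeval ![x + y * n1, x * t + y * n2] Q) x = 0}.Finite := by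
  classical
  obtain ⟨p, hp, ev⟩ := subst hQ hn
  have nz : ∀ y : ℂ, p.map (Polynomial.aeval y : Polynomial ℝ →ₐ[ℝ] ℂ).toRingHom ≠ 0 := by
    intro y e
    have := hC ((C * (1 + ‖y‖) + 1 : ℝ) : ℂ) y (by rw [← ev, e, Polynomial.eval_zero])
    rw [Complex.norm_real] at this
    linarith [Real.le_norm_self (C * (1 + ‖y‖) + 1)]
  refine ⟨fun y => (Polynomial.finite_setOfPred_isRoot (nz y)).subset fun x hx => ?_, ?_⟩
  · exact (ev x y).trans hx
  by_cases h0 : p.natDegree = 0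
  · refine finite_empty.subset ?_
    rintro y ⟨x, hx, -⟩
    refine nz y ?_
    rw [← ev, Polynomial.eq_C_of_natDegree_eq_zero h0, Polynomial.map_C, Polynomial.eval_C] at hx
    rw [Polynomial.eq_C_of_natDegree_eq_zero h0, Polynomial.map_C, hx, map_zero]
  obtain ⟨c, c0, a, b, e⟩ := bezout hp h0
  refine (c.rootSet_finite ℂ).subset ?_
  rintro y ⟨x, hx, hd⟩
  refine Polynomial.mem_rootSet.2 ⟨c0, ?_⟩
  have := congrArg (fun q : Polynomial (Polynomial ℝ) =>
    (q.map (Polynomial.aeval y : Polynomial ℝ →ₐ[ℝ] ℂ).toRingHom).eval x) e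
  simp only [← ev, Polynomial.deriv] at hd
  rw [← ev] at hx
  simp only [Polynomial.map_add, Polynomial.map_mul, Polynomial.eval_add, Polynomial.eval_mul,
    ← Polynomial.derivative_map, hx, hd, Polynomial.map_C, Polynomial.eval_C] at this
  simpa using this.symm

theorem shift {Q : MvPolynomial (Fin 2) ℝ} (hQ : Q ≠ 0) (s : Fin 2 → ℂ) :
    ∃ R : MvPolynomial (Fin 2) ℂ, R ≠ 0 ∧ ∀ z, eval z R = aeval (s + z) Q := by
  have ev : ∀ z : Fin 2 → ℂ,
      eval z (aeval (fun i => C (s i) + X i : Fin 2 → MvPolynomial (Fin 2) ℂ) Q) =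
        aeval (s + z) Q := by
    intro z
    clear hQ
    induction Q using MvPolynomial.induction_on with
    | C a => simp [MvPolynomial.algebraMap_apply]
    | add p q hp hq => simp only [map_add, hp, hq]
    | mul_X p i hp => simp only [map_mul, hp, aeval_X, map_add, eval_C, eval_X, Pi.add_apply]
  refine ⟨_, fun e => hQ ?_, ev⟩
  refine map_injective (algebraMap ℝ ℂ) (algebraMap ℝ ℂ).injective ?_
  rw [map_zero]
  refine MvPolynomial.funext fun z => ?_
  rw [eval_map, ← aeval_def, ← add_sub_cancel s z, ← ev, e, map_zero, map_zero]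

theorem vec (t n1 n2 : ℝ) (x y : ℂ) :
    x • ![1, (t : ℂ)] + y • ![(n1 : ℂ), (n2 : ℂ)] = ![x + y * n1, x * t + y * n2] := by
  ext i; fin_cases i <;> simp

theorem deriv_x (Q : MvPolynomial (Fin 2) ℝ) (t n1 n2 : ℝ) (x y : ℂ) :
    HasDerivAt (fun x : ℂ => aeval ![x + y * n1, x * t + y * n2] Q)
      (aeval ![x + y * n1, x * t + y * n2] (pderiv 0 Q) * 1 +
        aeval ![x + y * n1, x * t + y * n2] (pderiv 1 Q) * (1 * t)) x :=
  chain Q ((hasDerivAt_id' x).add_const _) (((hasDerivAt_id' x).mul_const _).add_const _)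

theorem deriv_y (Q : MvPolynomial (Fin 2) ℝ) (t n1 n2 : ℝ) (x y : ℂ) :
    HasDerivAt (fun y : ℂ => aeval ![x + y * n1, x * t + y * n2] Q)
      (aeval ![x + y * n1, x * t + y * n2] (pderiv 0 Q) * (1 * n1) +
        aeval ![x + y * n1, x * t + y * n2] (pderiv 1 Q) * (1 * n2)) y :=
  chain Q (((hasDerivAt_id' y).mul_const _).const_add _)
    (((hasDerivAt_id' y).mul_const _).const_add _)

theorem growth {Q : MvPolynomial (Fin 2) ℝ} (hQ : Q ≠ 0) : ∃ S : Set ℝ, S.Finite ∧ ∀ t ∉ S,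
    ∀ n1 n2 : ℝ, ∃ C : ℝ, ∀ x y : ℂ,
      aeval ![x + y * n1, x * t + y * n2] Q = 0 → ‖x‖ ≤ C * (1 + ‖y‖) := by
  obtain ⟨R, R0, ev⟩ := shift hQ 0
  obtain ⟨S, hS, h⟩ := cones R0
  refine ⟨S, hS, fun t ht n1 n2 => ?_⟩
  obtain ⟨C, hC⟩ := (h t ht ![n1, n2]).1
  exact ⟨C, fun x y e => hC x y (by rw [ev, zero_add, vec, e])⟩

/-- the complex singular points of an irreducible real plane curve are finitely many -/
theorem sing_finite {Q : MvPolynomial (Fin 2) ℝ} (hQ : Irreducible Q) :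
    {z : Fin 2 → ℂ | aeval z Q = 0 ∧ aeval z (pderiv 0 Q) = 0 ∧ aeval z (pderiv 1 Q) = 0}.Finite := by
  obtain ⟨S, hS, h⟩ := growth hQ.ne_zero
  obtain ⟨t, ht⟩ := hS.exists_notMem
  obtain ⟨C, hC⟩ := h t ht 0 1
  obtain ⟨f1, f2⟩ := heights hQ (by simp) hC
  refine (f2.biUnion fun y _ => (f1 y).image
    fun x : ℂ => ![x + y * (0 : ℝ), x * t + y * (1 : ℝ)]).subset ?_
  rintro z ⟨a, b, c⟩
  have e : ![z 0 + (z 1 - z 0 * t) * (0 : ℝ), z 0 * t + (z 1 - z 0 * t) * (1 : ℝ)] = z := by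
    ext i; fin_cases i <;> simp
  refine mem_iUnion₂.2 ⟨z 1 - z 0 * t, ⟨z 0, by rw [e, a], ?_⟩, z 0, ?_, e⟩
  · rw [(deriv_x Q t 0 1 _ _).deriv, e, b, c]; ring
  · show aeval _ Q = 0
    rw [e, a]

/-- the algebraic part of the genericity conditions -/
theorem gen {Q : MvPolynomial (Fin 2) ℝ} (hQ : Irreducible Q) : ∃ S : Set ℝ, S.Finite ∧ ∀ t ∉ S,
    ∀ n1 n2 : ℝ, n2 - t * n1 ≠ 0 → ∀ p : ℂ → ℂ → ℂ,
      (∀ x y, p x y = aeval ![x + y * n1, x * t + y * n2] Q) →
      (∃ C : ℝ, ∀ x y, p x y = 0 → ‖x‖ ≤ C * (1 + ‖y‖)) ∧ (∀ y, {x | p x y = 0}.Finite) ∧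
      {y | ∃ x, p x y = 0 ∧ deriv (fun x => p x y) x = 0}.Finite ∧
      ∀ a y0, p a y0 = 0 → deriv (fun x => p x y0) a = 0 → deriv (p a) y0 = 0 →
        ∃ C ε : ℝ, 0 < ε ∧ ∀ x y, ‖x - a‖ < ε → p x y = 0 → ‖x - a‖ ≤ C * ‖y - y0‖ := by
  obtain ⟨S, hS, h⟩ := growth hQ.ne_zero
  choose R R0 ev using shift hQ.ne_zero
  choose T hT k using fun s => cones (R0 s)
  refine ⟨_, hS.union ((sing_finite hQ).biUnion fun s _ => hT s), fun t ht n1 n2 hn p hp => ?_⟩
  obtain rfl : p = fun x y : ℂ => aeval ![x + y * n1, x * t + y * n2] Q :=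
    funext fun x => funext fun y => hp x y
  rw [mem_union, not_or] at ht
  obtain ⟨C, hC⟩ := h t ht.1 n1 n2
  obtain ⟨f1, f2⟩ := heights hQ hn hC
  refine ⟨⟨C, hC⟩, f1, f2, fun a y0 e0 e1 e2 => ?_⟩
  rw [(deriv_x Q t n1 n2 a y0).deriv] at e1
  rw [(deriv_y Q t n1 n2 a y0).deriv] at e2
  have hn' : ((n2 : ℂ) - t * n1) ≠ 0 := by exact_mod_cast hn
  have s0 : aeval ![a + y0 * n1, a * t + y0 * n2] (pderiv 0 Q) = 0 :=
    mul_left_cancel₀ hn' (by linear_combination n2 * e1 - t * e2)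
  have s1 : aeval ![a + y0 * n1, a * t + y0 * n2] (pderiv 1 Q) = 0 :=
    mul_left_cancel₀ hn' (by linear_combination e2 - n1 * e1)
  obtain ⟨D, ε, ε0, hD⟩ := (k ![a + y0 * n1, a * t + y0 * n2] t
    (fun hm => ht.2 (mem_iUnion₂.2 ⟨_, ⟨e0, s0, s1⟩, hm⟩)) ![n1, n2]).2
  refine ⟨D, ε, ε0, fun x y hx e => hD _ _ hx ?_⟩
  rw [ev, vec, ← e]
  congr 2
  ext i; fin_cases i <;> simp <;> ring

end Pool.Agent.Lib.AO.Alg66
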