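import Pool.Agent.Lib.AO.Blue
import Pool.Agent.Lib.AO.Alg66

set_option autoImplicit false

namespace Pool.Agent.AO

open Set Metric Filter Topology ComplexConjugate Pool.Agent.Lib.AO

theorem ga_dx (d : Dat) (x y : ℂ) : HasDerivAt (fun x => d.p (x, y)) (d.px (x, y)) x := by
  simpa using d.dp (hasDerivAt_id' x) (hasDerivAt_const x y)

theorem ga_dy (d : Dat) (x y : ℂ) : HasDerivAt (fun y => d.p (x, y)) (d.py (x, y)) y := by
  simpa using d.dp (hasDerivAt_const y x) (hasDerivAt_id' y)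

theorem st_MIN : St_MIN := by
  intro K P hK hc hi hP
  obtain ⟨Q, hQ, h0, h1⟩ := Alg66.irr (Alg66.front_conn hK hc hi) P (fun z hz => (hP z hz).1)
    fun z hz => (hP z hz).2
  exact ⟨Q, hQ, fun z hz => ⟨h0 z hz, h1 z hz⟩⟩

theorem st_GA : St_GA := by
  intro Q d0 hQ h0
  constructor
  · refine ((Alg66.sing_finite hQ).image fun z => (z 0, z 1)).subset ?_
    rintro ⟨x, y⟩ ⟨a, b, c⟩
    have e1 := (Alg66.chain Q (hasDerivAt_id' x) (hasDerivAt_const x y)).unique
      ((ga_dx d0 x y).congr_of_eventuallyEq (.of_forall fun x => (h0 x y).symm))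
    have e2 := (Alg66.chain Q (hasDerivAt_const y x) (hasDerivAt_id' y)).unique
      ((ga_dy d0 x y).congr_of_eventuallyEq (.of_forall fun y => (h0 x y).symm))
    refine ⟨![x, y], ⟨(h0 x y).symm.trans a, ?_, ?_⟩, rfl⟩
    · linear_combination e1 + b
    · linear_combination e2 + c
  obtain ⟨N, hN, h⟩ := Alg66.gen hQ
  refine ⟨N, hN, fun t ht d hd => ?_⟩
  obtain ⟨⟨C, hC⟩, g2, g3, g4⟩ := h t ht 0 1 (by simp) (fun x y => d.p (x, y)) fun x y => by
    rw [hd, h0, ev]
    simp [mul_comm]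
  refine ⟨⟨|C|, abs_nonneg _, fun x y e => (hC x y e).trans
    (mul_le_mul_of_nonneg_right (le_abs_self _) (by positivity))⟩, g2, g3.subset ?_, ?_⟩
  · rintro y ⟨x, a, b⟩
    exact ⟨x, a, (ga_dx d x y).deriv.trans b⟩
  · intro a y e0 e1 e2
    obtain ⟨D, ε, ε0, hD⟩ := g4 a y e0 ((ga_dx d a y).deriv.trans e1) ((ga_dy d a y).deriv.trans e2)
    exact ⟨D, ε, ε0, fun x z e hx _ => hD x z hx e⟩

theorem st_GT : St_GT := by
  intro d d' n k hk h hG
  have hk' : (k : ℂ) ≠ 0 := Complex.ofReal_ne_zero.2 hk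
  have kp : 0 < |k| := abs_pos.2 hk
  have nk : ∀ y : ℂ, ‖(k : ℂ) * y‖ = |k| * ‖y‖ := fun y => by simp
  have nn : ∀ y : ℂ, ‖(n : ℂ) * y‖ = |n| * ‖y‖ := fun y => by simp
  have hx : ∀ x y, d'.px (x, y) = d.px (x + n * y, k * y) := by
    intro x y
    have := d.dp ((hasDerivAt_id' x).add_const (n * y)) (hasDerivAt_const x (k * y))
    simpa using (ga_dx d' x y).unique (this.congr_of_eventuallyEq (.of_forall fun x => h x y))
  have hy : ∀ x y, d'.py (x, y) = d.px (x + n * y, k * y) * n + d.py (x + n * y, k * y) * k := by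
    intro x y
    have := d.dp (((hasDerivAt_id' y).const_mul (n : ℂ)).const_add x)
      ((hasDerivAt_id' y).const_mul (k : ℂ))
    simpa using (ga_dy d' x y).unique (this.congr_of_eventuallyEq (.of_forall fun y => h x y))
  have hE : ∀ (d : Dat) (a y : ℂ), HasDerivAt (fun x => d.px (x, y)) (2 * d.E (a, a, y)) a := by
    intro d a y
    have h1 := d.dD (fun x => x) (fun _ => a) (fun _ => y) 1 0 0 a (hasDerivAt_id' a)
      (hasDerivAt_const a a) (hasDerivAt_const a y)
    have h2 : DifferentiableAt ℂ (fun x => d.E (x, a, y)) a :=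
      ((d.cE.differentiable one_ne_zero) _).comp a (by fun_prop)
    have h3 := h1.add (((hasDerivAt_id' a).sub_const a).mul h2.hasDerivAt)
    refine (h3.congr_of_eventuallyEq (.of_forall fun x => d.hE x a y)).congr_deriv ?_
    ring
  refine ⟨?_, fun y => ?_, ?_, fun a b y e1 e2 e3 e4 => ?_, fun a y e1 e2 e3 => ?_,
    fun a y e1 e2 e3 => ?_⟩
  · obtain ⟨C, C0, hC⟩ := hG.g1
    refine ⟨C * (1 + |k|) + |n|, by positivity, fun x y e => ?_⟩
    have a := hC _ _ ((h x y).symm.trans e)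
    have b := norm_sub_le (x + n * y) (n * y)
    rw [add_sub_cancel_right, nn] at b
    rw [nk] at a
    have := norm_nonneg y
    have := abs_nonneg n
    nlinarith [mul_nonneg C0 kp.le, mul_nonneg C0 (norm_nonneg y)]
  · refine ((hG.fin (k * y)).image fun x => x - n * y).subset fun x e => ?_
    exact ⟨x + n * y, (h x y).symm.trans e, by ring⟩
  · refine (hG.g2.image fun y : ℂ => y / k).subset ?_
    rintro y ⟨x, a, b⟩
    exact ⟨k * y, ⟨x + n * y, (h x y).symm.trans a, (hx x y).symm.trans b⟩, by field_simp⟩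
  · rw [h] at e1 e3
    rw [hx] at e2 e4
    exact add_right_cancel (hG.g3 _ _ _ e1 e2 e3 e4)
  · rw [h] at e1
    rw [hx] at e2
    rw [hy, e2, zero_mul, zero_add] at e3
    have a1 := hG.g4 _ _ e1 e2 (left_ne_zero_of_mul e3)
    have a2 := (hE d (a + n * y) (k * y)).comp_add_const a (n * y)
    have a3 := (hE d' a y).unique (a2.congr_of_eventuallyEq (.of_forall fun x => hx x y))
    intro e
    exact a1 (by linear_combination e - a3 / 2)
  · rw [h] at e1
    rw [hx] at e2
    rw [hy, e2, zero_mul, zero_add] at e3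
    obtain ⟨C, δ, δ0, hC⟩ := hG.g5 _ _ e1 e2 ((mul_eq_zero.1 e3).resolve_right hk')
    have n0 := abs_nonneg n
    refine ⟨C * |k| + |n|, δ / (1 + |n| + |k|), by positivity, fun x z e h1 h2 => ?_⟩
    rw [lt_div_iff₀ (by positivity)] at h1 h2
    have b1 : x + n * z - (a + n * y) = x - a + n * (z - y) := by ring
    have b2 : ‖(k : ℂ) * z - k * y‖ = |k| * ‖z - y‖ := by rw [← mul_sub, nk]
    have p1 := norm_nonneg (x - a)
    have p2 := norm_nonneg (z - y)
    have b3 := norm_add_le (x - a) (n * (z - y))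
    rw [nn] at b3
    have b4 : ‖x - a‖ + |n| * ‖z - y‖ < δ := by
      rcases le_total ‖x - a‖ ‖z - y‖ with l | l <;> nlinarith
    have a1 := hC _ _ ((h x z).symm.trans e) (by rw [b1]; linarith) (by rw [b2]; nlinarith)
    have b5 := norm_sub_le (x - a + n * (z - y)) (n * (z - y))
    rw [add_sub_cancel_right, nn] at b5
    rw [b1, b2] at a1
    linarith

end Pool.Agent.AO
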