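import Pool.Agent.Lib.AO.Blue3
import Pool.Agent.Lib.AO.B_GA

set_option autoImplicit false

namespace Pool.Agent.Lib.AO.Alg66b

open Set Metric Filter Topology MvPolynomial
open Pool.Agent.Lib.AO.Alg66 (cones shift growth chain deriv_x deriv_y vec)

theorem bezout {p : Polynomial (Polynomial ℝ)} (hp : Squarefree p) (hn : p.natDegree ≠ 0) :
    ∃ c : Polynomial ℝ, c ≠ 0 ∧ ∃ a b, p * a + Polynomial.derivative p * b = Polynomial.C c := by
  classical
  have inj := IsFractionRing.injective (Polynomial ℝ) (FractionRing (Polynomial ℝ))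
  have p0 : p.map (algebraMap _ (FractionRing (Polynomial ℝ))) ≠ 0 :=
    (Polynomial.map_ne_zero_iff inj).2 hp.ne_zero
  have sq : Squarefree (p.map (algebraMap _ (FractionRing (Polynomial ℝ)))) := by
    rw [squarefree_iff_irreducible_sq_not_dvd_of_ne_zero p0]
    intro g hg hd
    obtain ⟨c, c0, hc⟩ := IsLocalization.integerNormalization_spec
      (nonZeroDivisors (Polynomial ℝ)) g
    let N : NormalizedGCDMonoid (Polynomial ℝ) := Nonempty.some inferInstance
    set k := IsLocalization.integerNormalization (nonZeroDivisors (Polynomial ℝ)) g with hk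
    have k0 : k ≠ 0 := fun e => hg.ne_zero (IsFractionRing.integerNormalization_eq_zero_iff.1 e)
    have d1 : k.primPart.map (algebraMap _ (FractionRing (Polynomial ℝ))) ∣ g := by
      have a : k.primPart.map (algebraMap _ (FractionRing (Polynomial ℝ))) ∣ c • g :=
        hc ▸ Polynomial.map_dvd _ k.primPart_dvd
      rw [Algebra.smul_def, Polynomial.algebraMap_apply] at a
      exact (IsUnit.dvd_mul_left (Polynomial.isUnit_C.2 (isUnit_iff_ne_zero.2
        ((map_ne_zero_iff _ inj).2 (nonZeroDivisors.ne_zero c0))))).1 a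
    have d2 : k.primPart * k.primPart ∣ p :=
      (k.isPrimitive_primPart.mul k.isPrimitive_primPart).dvd_of_fraction_map_dvd_fraction_map
        (K := FractionRing (Polynomial ℝ))
        (by rw [Polynomial.map_mul]; exact (mul_dvd_mul d1 d1).trans hd)
    exact hg.not_isUnit (Polynomial.isUnit_or_eq_zero_of_isUnit_integerNormalization_primPart
      hg.ne_zero (hp _ d2))
  have co : IsCoprime (p.map (algebraMap _ (FractionRing (Polynomial ℝ))))
      (Polynomial.derivative (p.map (algebraMap _ (FractionRing (Polynomial ℝ))))) :=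
    PerfectField.separable_iff_squarefree.2 sq
  have r := Polynomial.resultant_ne_zero _ _ co
  rw [Polynomial.derivative_map, Polynomial.natDegree_map_eq_of_injective inj,
    Polynomial.natDegree_map_eq_of_injective inj, Polynomial.resultant_map_map] at r
  obtain ⟨a, b, -, -, e⟩ := Polynomial.exists_mul_add_mul_eq_C_resultant p
    (Polynomial.derivative p) le_rfl le_rfl (Or.inl hn)
  exact ⟨_, fun h => r (by rw [h, map_zero]), a, b, e⟩

theorem subst {Q : MvPolynomial (Fin 2) ℝ} (hQ : Squarefree Q) {t n1 n2 : ℝ}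
    (hn : n2 - t * n1 ≠ 0) : ∃ p : Polynomial (Polynomial ℝ), Squarefree p ∧ ∀ x y : ℂ,
      (p.map (Polynomial.aeval y : Polynomial ℝ →ₐ[ℝ] ℂ).toRingHom).eval x =
        aeval ![x + y * n1, x * t + y * n2] Q := by
  let f : MvPolynomial (Fin 2) ℝ →ₐ[ℝ] MvPolynomial (Fin 2) ℝ :=
    aeval ![X 1 + X 0 * C n1, X 1 * C t + X 0 * C n2]
  let g : MvPolynomial (Fin 2) ℝ →ₐ[ℝ] MvPolynomial (Fin 2) ℝ :=
    aeval ![(X 1 - X 0 * C t) * C (n2 - t * n1)⁻¹, (X 0 * C n2 - X 1 * C n1) * C (n2 - t * n1)⁻¹]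
  have one : (C n2 - C t * C n1) * C (n2 - t * n1)⁻¹ = (1 : MvPolynomial (Fin 2) ℝ) := by
    rw [← map_mul, ← map_sub, ← map_mul, mul_inv_cancel₀ hn, map_one]
  have fg : f.comp g = AlgHom.id ℝ _ := algHom_ext fun i => by
    fin_cases i
    · simp only [f, g, AlgHom.comp_apply, AlgHom.id_apply, aeval_X, Fin.zero_eta,
        Matrix.cons_val_zero, Matrix.cons_val_one, map_mul, map_sub, aeval_C, algebraMap_eq]
      linear_combination X 0 * one
    · simp only [f, g, AlgHom.comp_apply, AlgHom.id_apply, aeval_X, Fin.mk_one,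
        Matrix.cons_val_zero, Matrix.cons_val_one, map_mul, map_sub, aeval_C, algebraMap_eq]
      linear_combination X 1 * one
  have gf : g.comp f = AlgHom.id ℝ _ := algHom_ext fun i => by
    fin_cases i
    · simp only [f, g, AlgHom.comp_apply, AlgHom.id_apply, aeval_X, Fin.zero_eta,
        Matrix.cons_val_zero, Matrix.cons_val_one, map_mul, map_add, aeval_C, algebraMap_eq]
      linear_combination X 0 * one
    · simp only [f, g, AlgHom.comp_apply, AlgHom.id_apply, aeval_X, Fin.mk_one,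
        Matrix.cons_val_zero, Matrix.cons_val_one, map_mul, map_add, aeval_C, algebraMap_eq]
      linear_combination X 1 * one
  let e := (AlgEquiv.ofAlgHom f g fg gf).trans (Polynomial.Bivariate.equivMvPolynomial ℝ).symm
  refine ⟨e Q, fun z hz => ?_, fun x y => ?_⟩
  · have := map_dvd e.symm hz
    rw [map_mul, e.symm_apply_apply] at this
    simpa using (hQ _ this).map e
  have key : ∀ R : MvPolynomial (Fin 2) ℝ,
      (((Polynomial.Bivariate.equivMvPolynomial ℝ).symm R).map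
        (Polynomial.aeval y : Polynomial ℝ →ₐ[ℝ] ℂ).toRingHom).eval x = aeval ![y, x] R := by
    intro R
    induction R using MvPolynomial.induction_on with
    | C a => simp
    | add p q hp hq => simp only [map_add, Polynomial.map_add, Polynomial.eval_add, hp, hq]
    | mul_X p i hp =>
      simp only [map_mul, Polynomial.map_mul, Polynomial.eval_mul, hp]
      fin_cases i <;> simp
  show (((Polynomial.Bivariate.equivMvPolynomial ℝ).symm (f Q)).map _).eval x = _
  rw [key]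
  have : (aeval ![y, x]).comp f = aeval (R := ℝ) ![x + y * n1, x * t + y * n2] :=
    algHom_ext fun i => by fin_cases i <;> simp [f]
  exact congrArg (fun k => k Q) this

theorem heights {Q : MvPolynomial (Fin 2) ℝ} (hQ : Squarefree Q) {t n1 n2 : ℝ}
    (hn : n2 - t * n1 ≠ 0) {C : ℝ}
    (hC : ∀ x y : ℂ, aeval ![x + y * n1, x * t + y * n2] Q = 0 → ‖x‖ ≤ C * (1 + ‖y‖)) :
    (∀ y : ℂ, {x : ℂ | aeval ![x + y * n1, x * t + y * n2] Q = 0}.Finite) ∧
      {y : ℂ | ∃ x : ℂ, aeval ![x + y * n1, x * t + y * n2] Q = 0 ∧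
        deriv (fun x : ℂ => aeval ![x + y * n1, x * t + y * n2] Q) x = 0}.Finite := by
  classical
  obtain ⟨p, hp, ev⟩ := subst hQ hn
  have nz : ∀ y : ℂ, p.map (Polynomial.aeval y : Polynomial ℝ →ₐ[ℝ] ℂ).toRingHom ≠ 0 := by
    intro y e
    have := hC ((C * (1 + ‖y‖) + 1 : ℝ) : ℂ) y (by rw [← ev, e, Polynomial.eval_zero])
    rw [Complex.norm_real] at this
    linarith [Real.le_norm_self (C * (1 + ‖y‖) + 1)]
  refine ⟨fun y => (Polynomial.finite_setOfPred_isRoot (nz y)).subset fun x hx => ?_, ?_⟩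
  · exact (ev x y).trans hx
  by_cases h0 : p.natDegree = 0
  · refine finite_empty.subset ?_
    rintro y ⟨x, hx, -⟩
    refine nz y ?_
    rw [← ev, Polynomial.eq_C_of_natDegree_eq_zero h0, Polynomial.map_C, Polynomial.eval_C] at hx
    rw [Polynomial.eq_C_of_natDegree_eq_zero h0, Polynomial.map_C, hx, map_zero]
  obtain ⟨c, c0, a, b, e⟩ := bezout hp h0
  refine (c.rootSet_finite ℂ).subset ?_
  rintro y ⟨x, hx, hd⟩
  refine Polynomial.mem_rootSet.2 ⟨c0, ?_⟩
  have := congrArg (fun q : Polynomial (Polynomial ℝ) =>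
    (q.map (Polynomial.aeval y : Polynomial ℝ →ₐ[ℝ] ℂ).toRingHom).eval x) e
  simp only [← ev, Polynomial.deriv] at hd
  rw [← ev] at hx
  simp only [Polynomial.map_add, Polynomial.map_mul, Polynomial.eval_add, Polynomial.eval_mul,
    ← Polynomial.derivative_map, hx, hd, Polynomial.map_C, Polynomial.eval_C] at this
  simpa using this.symm

theorem sing_finite {Q : MvPolynomial (Fin 2) ℝ} (hQ : Squarefree Q) :
    {z : Fin 2 → ℂ | aeval z Q = 0 ∧ aeval z (pderiv 0 Q) = 0 ∧ aeval z (pderiv 1 Q) = 0}.Finite := by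
  obtain ⟨S, hS, h⟩ := growth hQ.ne_zero
  obtain ⟨t, ht⟩ := hS.exists_notMem
  obtain ⟨C, hC⟩ := h t ht 0 1
  obtain ⟨f1, f2⟩ := heights hQ (by simp) hC
  refine (f2.biUnion fun y _ => (f1 y).image
    fun x : ℂ => ![x + y * (0 : ℝ), x * t + y * (1 : ℝ)]).subset ?_
  rintro z ⟨a, b, c⟩
  have e : ![z 0 + (z 1 - z 0 * t) * (0 : ℝ), z 0 * t + (z 1 - z 0 * t) * (1 : ℝ)] = z := by
    ext i; fin_cases i <;> simp
  refine mem_iUnion₂.2 ⟨z 1 - z 0 * t, ⟨z 0, by rw [e, a], ?_⟩, z 0, ?_, e⟩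
  · rw [(deriv_x Q t 0 1 _ _).deriv, e, b, c]; ring
  · show aeval _ Q = 0
    rw [e, a]

theorem gen {Q : MvPolynomial (Fin 2) ℝ} (hQ : Squarefree Q) : ∃ S : Set ℝ, S.Finite ∧ ∀ t ∉ S,
    ∀ n1 n2 : ℝ, n2 - t * n1 ≠ 0 → ∀ p : ℂ → ℂ → ℂ,
      (∀ x y, p x y = aeval ![x + y * n1, x * t + y * n2] Q) →
      (∃ C : ℝ, ∀ x y, p x y = 0 → ‖x‖ ≤ C * (1 + ‖y‖)) ∧ (∀ y, {x | p x y = 0}.Finite) ∧
      {y | ∃ x, p x y = 0 ∧ deriv (fun x => p x y) x = 0}.Finite ∧
      ∀ a y0, p a y0 = 0 → deriv (fun x => p x y0) a = 0 → deriv (p a) y0 = 0 →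
        ∃ C ε : ℝ, 0 < ε ∧ ∀ x y, ‖x - a‖ < ε → p x y = 0 → ‖x - a‖ ≤ C * ‖y - y0‖ := by
  obtain ⟨S, hS, h⟩ := growth hQ.ne_zero
  choose R R0 ev using shift hQ.ne_zero
  choose T hT k using fun s => cones (R0 s)
  refine ⟨_, hS.union ((sing_finite hQ).biUnion fun s _ => hT s), fun t ht n1 n2 hn p hp => ?_⟩
  obtain rfl : p = fun x y : ℂ => aeval ![x + y * n1, x * t + y * n2] Q :=
    funext fun x => funext fun y => hp x y
  rw [mem_union, not_or] at ht
  obtain ⟨C, hC⟩ := h t ht.1 n1 n2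
  obtain ⟨f1, f2⟩ := heights hQ hn hC
  refine ⟨⟨C, hC⟩, f1, f2, fun a y0 e0 e1 e2 => ?_⟩
  rw [(deriv_x Q t n1 n2 a y0).deriv] at e1
  rw [(deriv_y Q t n1 n2 a y0).deriv] at e2
  have hn' : ((n2 : ℂ) - t * n1) ≠ 0 := by exact_mod_cast hn
  have s0 : aeval ![a + y0 * n1, a * t + y0 * n2] (pderiv 0 Q) = 0 :=
    mul_left_cancel₀ hn' (by linear_combination n2 * e1 - t * e2)
  have s1 : aeval ![a + y0 * n1, a * t + y0 * n2] (pderiv 1 Q) = 0 :=
    mul_left_cancel₀ hn' (by linear_combination e2 - n1 * e1)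
  obtain ⟨D, ε, ε0, hD⟩ := (k ![a + y0 * n1, a * t + y0 * n2] t
    (fun hm => ht.2 (mem_iUnion₂.2 ⟨_, ⟨e0, s0, s1⟩, hm⟩)) ![n1, n2]).2
  refine ⟨D, ε, ε0, fun x y hx e => hD _ _ hx ?_⟩
  rw [ev, vec, ← e]
  congr 2
  ext i; fin_cases i <;> simp <;> ring

end Pool.Agent.Lib.AO.Alg66b

namespace Pool.Agent.AO

open Set Metric Filter Topology ComplexConjugate Pool.Agent.Lib.AO

theorem st_SQF : St_SQF := by
  intro C P P0 h
  obtain ⟨Q, n, hQ, -, k, hk⟩ := exists_squarefree_dvd_pow_of_ne_zero P0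
  refine ⟨Q, hQ, fun x hx => ?_⟩
  have := congrArg (MvPolynomial.eval ![x.1, x.2]) hk
  rw [map_pow, map_mul, h x hx, zero_mul] at this
  exact eq_zero_of_pow_eq_zero this

theorem st_GA2 : St_GA2 := by
  intro Q d0 hQ h0
  constructor
  · refine ((Alg66b.sing_finite hQ).image fun z => (z 0, z 1)).subset ?_
    rintro ⟨x, y⟩ ⟨a, b, c⟩
    have e1 := (Alg66.chain Q (hasDerivAt_id' x) (hasDerivAt_const x y)).unique
      ((ga_dx d0 x y).congr_of_eventuallyEq (.of_forall fun x => (h0 x y).symm))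
    have e2 := (Alg66.chain Q (hasDerivAt_const y x) (hasDerivAt_id' y)).unique
      ((ga_dy d0 x y).congr_of_eventuallyEq (.of_forall fun y => (h0 x y).symm))
    refine ⟨![x, y], ⟨(h0 x y).symm.trans a, ?_, ?_⟩, rfl⟩
    · linear_combination e1 + b
    · linear_combination e2 + c
  obtain ⟨N, hN, h⟩ := Alg66b.gen hQ
  refine ⟨N, hN, fun t ht d hd => ?_⟩
  obtain ⟨⟨C, hC⟩, g2, g3, g4⟩ := h t ht 0 1 (by simp) (fun x y => d.p (x, y)) fun x y => by
    rw [hd, h0, ev]
    simp [mul_comm]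
  refine ⟨⟨|C|, abs_nonneg _, fun x y e => (hC x y e).trans
    (mul_le_mul_of_nonneg_right (le_abs_self _) (by positivity))⟩, g2, g3.subset ?_, ?_⟩
  · rintro y ⟨x, a, b⟩
    exact ⟨x, a, (ga_dx d x y).deriv.trans b⟩
  · intro a y e0 e1 e2
    obtain ⟨D, ε, ε0, hD⟩ := g4 a y e0 ((ga_dx d a y).deriv.trans e1) ((ga_dy d a y).deriv.trans e2)
    exact ⟨D, ε, ε0, fun x z e hx _ => hD x z hx e⟩

end Pool.Agent.AO
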