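import Pool.Agent.Lib.AO.Blue

set_option autoImplicit false

namespace Pool.Agent.AO

open Set Metric Filter Topology ComplexConjugate MvPolynomial

theorem alg_cd {n : ℕ} {F : Type} [NormedAddCommGroup F] [NormedSpace ℂ F]
    (R : MvPolynomial (Fin n) ℝ) {v : F → Fin n → ℂ} (hv : ∀ i, ContDiff ℂ 1 fun q => v q i) :
    ContDiff ℂ 1 fun q => aeval (v q) R := by
  induction R using MvPolynomial.induction_on with
  | C a => simpa using contDiff_const
  | add p q hp hq => simp only [map_add]; exact hp.add hq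
  | mul_X p i hp => simp only [map_mul, aeval_X]; exact hp.mul (hv i)

theorem alg_cj {n : ℕ} (R : MvPolynomial (Fin n) ℝ) {v w : Fin n → ℂ} (h : ∀ i, w i = conj (v i)) :
    aeval w R = conj (aeval v R) := by
  induction R using MvPolynomial.induction_on with
  | C a => simp
  | add p q hp hq => simp only [map_add, hp, hq]
  | mul_X p i hp => simp only [map_mul, aeval_X, hp, h]

theorem alg_chain {n : ℕ} (R : MvPolynomial (Fin n) ℝ) {v : ℂ → Fin n → ℂ} {v' : Fin n → ℂ} {t : ℂ}
    (hv : ∀ i, HasDerivAt (fun s => v s i) (v' i) t) :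
    HasDerivAt (fun s => aeval (v s) R) (∑ i, aeval (v t) (pderiv i R) * v' i) t := by
  induction R using MvPolynomial.induction_on with
  | C a => simpa using hasDerivAt_const t (a : ℂ)
  | add p q hp hq =>
    simp only [map_add, add_mul, Finset.sum_add_distrib]
    exact hp.add hq
  | mul_X p i hp =>
    simp only [map_mul, aeval_X, pderiv_mul, map_add, add_mul, Finset.sum_add_distrib]
    refine (hp.mul (hv i)).congr_deriv ?_
    rw [Finset.sum_mul]
    congr 1
    · exact Finset.sum_congr rfl fun j _ => by ring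
    · rw [Finset.sum_eq_single i (fun j _ hj => by rw [pderiv_X_of_ne hj.symm]; simp) (by simp)]
      simp

theorem alg_c2 (R : MvPolynomial (Fin 2) ℝ) {f g : ℂ → ℂ} {f' g' t : ℂ} (hf : HasDerivAt f f' t)
    (hg : HasDerivAt g g' t) : HasDerivAt (fun s => aeval ![f s, g s] R)
      (aeval ![f t, g t] (pderiv 0 R) * f' + aeval ![f t, g t] (pderiv 1 R) * g') t := by
  have := alg_chain R (v := fun s => ![f s, g s]) (v' := ![f', g']) (t := t)
    fun i => by fin_cases i; exacts [hf, hg]
  rwa [Fin.sum_univ_two] at this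

theorem alg_c3 (R : MvPolynomial (Fin 3) ℝ) {f g k : ℂ → ℂ} {f' g' k' t : ℂ}
    (hf : HasDerivAt f f' t) (hg : HasDerivAt g g' t) (hk : HasDerivAt k k' t) :
    HasDerivAt (fun s => aeval ![f s, g s, k s] R)
      (aeval ![f t, g t, k t] (pderiv 0 R) * f' + aeval ![f t, g t, k t] (pderiv 1 R) * g' +
        aeval ![f t, g t, k t] (pderiv 2 R) * k') t := by
  have := alg_chain R (v := fun s => ![f s, g s, k s]) (v' := ![f', g', k']) (t := t)
    fun i => by fin_cases i; exacts [hf, hg, hk]
  rwa [Fin.sum_univ_three] at this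

theorem alg_dd (P : MvPolynomial (Fin 2) ℝ) : ∃ D : MvPolynomial (Fin 3) ℝ, ∀ a b y : ℂ,
    aeval ![a, y] P - aeval ![b, y] P = (a - b) * aeval ![a, b, y] D := by
  induction P using MvPolynomial.induction_on with
  | C a => exact ⟨0, by simp⟩
  | add p q hp hq =>
    obtain ⟨D, hD⟩ := hp
    obtain ⟨E, hE⟩ := hq
    exact ⟨D + E, fun a b y => by simp only [map_add]; linear_combination hD a b y + hE a b y⟩
  | mul_X p i hp =>
    obtain ⟨D, hD⟩ := hp
    fin_cases i
    · refine ⟨D * X 0 + rename ![1, 2] p, fun a b y => ?_⟩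
      have e : (![a, b, y] ∘ ![1, 2] : Fin 2 → ℂ) = ![b, y] := by ext i; fin_cases i <;> rfl
      simp only [map_add, map_mul, aeval_X, aeval_rename, e, Fin.zero_eta, Matrix.cons_val_zero]
      linear_combination a * hD a b y
    · refine ⟨D * X 2, fun a b y => ?_⟩
      simp only [map_mul, aeval_X, Fin.mk_one, Matrix.cons_val_one, Matrix.cons_val_zero,
        Matrix.cons_val]
      linear_combination y * hD a b y

theorem alg_dj (P : MvPolynomial (Fin 2) ℝ) : ∃ J : MvPolynomial (Fin 3) ℝ, ∀ a y z : ℂ,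
    aeval ![a, y] P - aeval ![a, z] P = (y - z) * aeval ![a, y, z] J := by
  obtain ⟨D, hD⟩ := alg_dd (rename ![1, 0] P)
  refine ⟨rename ![1, 2, 0] D, fun a y z => ?_⟩
  have e1 : ∀ y : ℂ, (![y, a] ∘ ![1, 0] : Fin 2 → ℂ) = ![a, y] := fun y => by
    ext i; fin_cases i <;> rfl
  have e2 : (![a, y, z] ∘ ![1, 2, 0] : Fin 3 → ℂ) = ![y, z, a] := by ext i; fin_cases i <;> rfl
  have := hD y z a
  rwa [aeval_rename, aeval_rename, e1, e1, ← e2, ← aeval_rename] at this

theorem st_ALG : St_ALG := by
  intro P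
  obtain ⟨D, hD⟩ := alg_dd P
  obtain ⟨J, hJ⟩ := alg_dj P
  have c2 : ∀ R : MvPolynomial (Fin 2) ℝ, ContDiff ℂ 1 fun q : ℂ × ℂ => aeval ![q.1, q.2] R :=
    fun R => alg_cd R fun i => by fin_cases i; exacts [contDiff_fst, contDiff_snd]
  have c3 : ∀ R : MvPolynomial (Fin 3) ℝ,
      ContDiff ℂ 1 fun q : S3 => aeval ![q.1, q.2.1, q.2.2] R :=
    fun R => alg_cd R fun i => by
      fin_cases i; exacts [contDiff_fst, contDiff_snd.fst, contDiff_snd.snd]
  have j2 : ∀ (R : MvPolynomial (Fin 2) ℝ) (a y : ℂ),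
      aeval ![conj a, conj y] R = conj (aeval ![a, y] R) :=
    fun R a y => alg_cj R fun i => by fin_cases i <;> rfl
  have j3 : ∀ (R : MvPolynomial (Fin 3) ℝ) (a b y : ℂ),
      aeval ![conj a, conj b, conj y] R = conj (aeval ![a, b, y] R) :=
    fun R a b y => alg_cj R fun i => by fin_cases i <;> rfl
  have Ds : ∀ a b y : ℂ, aeval ![a, b, y] D = aeval ![b, a, y] D := by
    intro a b y
    by_cases h : a = b
    · rw [h]
    · exact mul_left_cancel₀ (sub_ne_zero.2 h) (by linear_combination -hD a b y - hD b a y)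
  have hE : ∀ a b y : ℂ, aeval ![a, y] (pderiv 0 P) =
      aeval ![a, b, y] D + (a - b) * aeval ![a, b, y] (pderiv 0 D) := by
    intro a b y
    have h1 := (alg_c2 P (hasDerivAt_id' a) (hasDerivAt_const a y)).sub_const (aeval ![b, y] P)
    have h2 := ((hasDerivAt_id' a).sub_const b).mul
      (alg_c3 D (hasDerivAt_id' a) (hasDerivAt_const a b) (hasDerivAt_const a y))
    have := h1.unique (h2.congr_of_eventuallyEq (.of_forall fun a => hD a b y))
    linear_combination this
  have hS : ∀ a b y : ℂ, aeval ![a, b, y] (pderiv 1 D) = aeval ![b, a, y] (pderiv 0 D) := by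
    intro a b y
    have h1 := alg_c3 D (hasDerivAt_const b a) (hasDerivAt_id' b) (hasDerivAt_const b y)
    have h2 := alg_c3 D (hasDerivAt_id' b) (hasDerivAt_const b a) (hasDerivAt_const b y)
    have := h1.unique (h2.congr_of_eventuallyEq (.of_forall fun b => Ds a b y))
    linear_combination this
  refine ⟨{
    p := fun q => aeval ![q.1, q.2] P
    px := fun q => aeval ![q.1, q.2] (pderiv 0 P)
    py := fun q => aeval ![q.1, q.2] (pderiv 1 P)
    D := fun q => aeval ![q.1, q.2.1, q.2.2] D
    E := fun q => aeval ![q.1, q.2.1, q.2.2] (pderiv 0 D)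
    Dy := fun q => aeval ![q.1, q.2.1, q.2.2] (pderiv 2 D)
    J := fun q => aeval ![q.1, q.2.1, q.2.2] J
    cp := c2 _
    cpx := c2 _
    cpy := c2 _
    cD := c3 _
    cE := c3 _
    cJ := c3 _
    fp := fun q => ?_
    dD := fun A B Y A' B' Y' t hA hB hY => (alg_c3 D hA hB hY).congr_deriv (by rw [hS])
    hD := hD
    hJ := hJ
    Dd := fun a y => by rw [hE a a y]; ring
    Jd := fun a y => ?_
    Ds := Ds
    hE := hE
    hDy := fun a b y => ?_
    jp := j2 _
    jpx := j2 _
    jpy := j2 _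
    jD := j3 _
    jE := j3 _ }, fun x y => ⟨rfl, rfl, rfl⟩⟩
  · have hf := (((c2 P).differentiable one_ne_zero) q).hasFDerivAt
    refine hf.congr_fderiv (ContinuousLinearMap.ext fun v => ?_)
    have l : HasDerivAt (fun s : ℂ => q + s • v) v 0 := by
      simpa using ((hasDerivAt_id' (0 : ℂ)).smul_const v).const_add q
    have h1 := hf.comp_hasDerivAt_of_eq (0 : ℂ) l (by simp)
    have h2 := alg_c2 P (((hasDerivAt_id' (0 : ℂ)).mul_const v.1).const_add q.1)
      (((hasDerivAt_id' (0 : ℂ)).mul_const v.2).const_add q.2)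
    simpa using h1.unique h2
  · have h1 := (alg_c2 P (hasDerivAt_const y a) (hasDerivAt_id' y)).sub_const (aeval ![a, y] P)
    have h2 := ((hasDerivAt_id' y).sub_const y).mul
      (alg_c3 J (hasDerivAt_const y a) (hasDerivAt_id' y) (hasDerivAt_const y y))
    have := h1.unique (h2.congr_of_eventuallyEq (.of_forall fun s => hJ a s y))
    linear_combination -this
  · have h1 := (alg_c2 P (hasDerivAt_const y a) (hasDerivAt_id' y)).sub
      (alg_c2 P (hasDerivAt_const y b) (hasDerivAt_id' y))
    have h2 := (alg_c3 D (hasDerivAt_const y a) (hasDerivAt_const y b)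
      (hasDerivAt_id' y)).const_mul (a - b)
    have := h1.unique (h2.congr_of_eventuallyEq (.of_forall fun s => hD a b s))
    linear_combination this

end Pool.Agent.AO
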