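import Pool.Agent.Lib.AO.Kit23

/-! The closing step: the left end is a holomorphic function of the height. -/

open scoped Topology
open Set Filter Metric Complex

namespace Pool.Agent.Lib.AO.C23

/-- Estimate of Cauchy on a smaller ball. -/
theorem cauchy {u : ℂ → ℂ} {z : ℂ} {R M : ℝ} (hu : DifferentiableOn ℂ u (ball z R))
    (hM : ∀ x ∈ ball z R, ‖u x‖ ≤ M) {x : ℂ} (hx : x ∈ ball z (R / 2)) :
    ‖deriv u x‖ ≤ M / (R / 4) := by
  have hR : 0 < R / 2 := nonempty_ball.1 ⟨x, hx⟩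
  have hs : closedBall x (R / 4) ⊆ ball z R :=
    closedBall_subset_ball' (by linarith [mem_ball.1 hx])
  exact norm_deriv_le_of_forall_mem_sphere_norm_le (by linarith)
    (hu.diffContOnCl_ball hs) fun w hw => hM w (hs (sphere_subset_closedBall hw))

/-- The closing relation determines the left end as a function of the height. -/
theorem zeta {Ψ : ℂ → ℂ} {y₀ b₀ : ℂ} {r γ δ : ℝ} (hr : 0 < r) (hγ : 0 < γ) (hδ : δ ≤ γ / 8)
    (hΨ : DifferentiableOn ℂ Ψ (ball (y₀ - r * b₀) (γ * r)))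
    (hb : ∀ c ∈ ball (y₀ - r * b₀) (γ * r), ‖Ψ c - c - 2 * r * b₀‖ ≤ δ * r) :
    ∃ ζ : ℂ → ℂ, DifferentiableOn ℂ ζ (ball y₀ (γ * r / 8)) ∧ ∀ y ∈ ball y₀ (γ * r / 8),
      ‖ζ y - b₀‖ ≤ δ / 2 ∧ ∀ B : ℂ, y - r * B ∈ ball (y₀ - r * b₀) (γ * r / 2) →
        Ψ (y - r * B) = y + r * B → B = ζ y := by
  have r0 : (r : ℂ) ≠ 0 := ofReal_ne_zero.2 hr.ne'
  have g0 : 0 < γ * r := mul_pos hγ hr
  have hs : ball (y₀ - r * b₀) (γ * r / 2) ⊆ ball (y₀ - r * b₀) (γ * r) :=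
    ball_subset_ball (by linarith)
  have hu : DifferentiableOn ℂ (fun c => Ψ c - c - 2 * r * b₀) (ball (y₀ - r * b₀) (γ * r)) :=
    (hΨ.sub differentiableOn_id).sub_const _
  obtain ⟨g, g1, g2⟩ := K23.solve (P := ℂ) (Ω := ball y₀ (γ * r / 8)) isOpen_ball
    (Φ := fun p => (p.2 + Ψ p.2) / 2 - p.1) (z := y₀ - r * b₀) (l := 1) (R := γ * r / 2) one_ne_zero
    (by
      have h1 : DifferentiableOn ℂ (fun p : ℂ × ℂ => Ψ p.2)
          (ball y₀ (γ * r / 8) ×ˢ ball (y₀ - r * b₀) (γ * r / 2)) :=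
        hΨ.comp differentiableOn_snd fun p hp => hs hp.2
      simp only [div_eq_mul_inv]
      exact ((differentiableOn_snd.fun_add h1).mul_const _).fun_sub differentiableOn_fst)
    (fun y _ c hc => by
      have h1 := (hΨ.differentiableAt (isOpen_ball.mem_nhds (hs hc))).hasDerivAt
      have h2 := cauchy hu hb hc
      rw [((h1.fun_sub (hasDerivAt_id' c)).sub_const _).deriv] at h2
      rw [((((hasDerivAt_id' c).fun_add h1).div_const 2).sub_const y).deriv,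
        show (1 + deriv Ψ c) / 2 - 1 = (deriv Ψ c - 1) / 2 by ring, norm_div, norm_one]
      have h3 : δ * r / (γ * r / 4) ≤ 1 := by
        rw [div_le_one (by linarith)]; nlinarith
      rw [Complex.norm_ofNat]
      linarith)
    (fun y hy => by
      have h1 := hb _ (mem_ball_self g0)
      have h2 := mem_ball_iff_norm.1 hy
      have h3 := norm_sub_le ((Ψ (y₀ - r * b₀) - (y₀ - r * b₀) - 2 * r * b₀) / 2) (y - y₀)
      rw [norm_div, Complex.norm_ofNat] at h3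
      simp only [norm_one]
      rw [show (y₀ - r * b₀ + Ψ (y₀ - r * b₀)) / 2 - y =
        (Ψ (y₀ - r * b₀) - (y₀ - r * b₀) - 2 * r * b₀) / 2 - (y - y₀) by ring]
      nlinarith)
  refine ⟨fun y => (y - g y) / r, (differentiableOn_id.sub g1).div_const _, fun y hy => ⟨?_, ?_⟩⟩
  · obtain ⟨h1, h2, -⟩ := g2 y hy
    have h3 := hb _ (hs h1)
    have e : (y - g y) / r - b₀ = (Ψ (g y) - g y - 2 * r * b₀) / 2 / r := by
      field_simp
      linear_combination -2 * h2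
    rw [e, norm_div, norm_div, Complex.norm_ofNat, norm_real, Real.norm_of_nonneg hr.le,
      div_le_iff₀ hr]
    linarith
  · intro B hB hP
    have h1 := (g2 y hy).2.2 _ hB
    simp only [hP, norm_one] at h1
    rw [show (y - r * B + (y + r * B)) / 2 - y = 0 by ring, norm_zero] at h1
    have h2 : y - r * B - g y = 0 := norm_le_zero_iff.1 (by linarith)
    field_simp
    linear_combination -h2

/-- A solution of an autonomous scalar equation with almost constant speed extends. -/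
theorem ext {V Y : ℂ → ℂ} {y₀ w₀ o : ℂ} {R : ℝ} (hw : w₀ ≠ 0)
    (hV : DifferentiableOn ℂ V (ball y₀ R)) (hb : ∀ y ∈ ball y₀ R, ‖V y - w₀‖ ≤ ‖w₀‖ / 4)
    {O : Set ℂ} (hO : IsOpen O) (hc : IsPreconnected O) (ho : o ∈ O)
    (hs : O ⊆ ball o (R / (4 * ‖w₀‖)))
    (hY : ∀ τ ∈ O, HasDerivAt Y (V (Y τ)) τ ∧ Y τ ∈ ball y₀ R) (h0 : ‖Y o - y₀‖ ≤ R / 8) :
    ∃ Z : ℂ → ℂ, DifferentiableOn ℂ Z (ball o (R / (4 * ‖w₀‖))) ∧
      MapsTo Z (ball o (R / (4 * ‖w₀‖))) (ball y₀ R) ∧ EqOn Z Y O := by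
  have w0 : 0 < ‖w₀‖ := norm_pos_iff.2 hw
  have hR : 0 < R := nonempty_ball.1 ⟨_, (hY o ho).2⟩
  have hn : ∀ y ∈ ball y₀ R, 3 / 4 * ‖w₀‖ ≤ ‖V y‖ := fun y hy => by
    have := norm_sub_le (V y) (V y - w₀)
    rw [sub_sub_cancel] at this
    linarith [hb y hy]
  have hne : ∀ y ∈ ball y₀ R, V y ≠ 0 := fun y hy => norm_pos_iff.1 (by linarith [hn y hy])
  obtain ⟨t, t0, ht⟩ := (hV.fun_inv hne).isExactOn_ball.with_val_at (Y o) o
  have td : DifferentiableOn ℂ t (ball y₀ R) := fun y hy =>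
    (ht y hy).differentiableAt.differentiableWithinAt
  have tl : ∀ y ∈ ball y₀ R, ‖deriv t y - w₀⁻¹‖ ≤ ‖w₀⁻¹‖ / 2 := fun y hy => by
    have h1 := hne y hy
    have h2 := hn y hy
    have h3 := hb y hy
    rw [(ht y hy).deriv, show (V y)⁻¹ - w₀⁻¹ = -((V y - w₀) / V y * w₀⁻¹) by field_simp; ring,
      norm_neg, norm_mul, norm_div]
    have h4 : ‖V y - w₀‖ / ‖V y‖ ≤ 1 / 2 := by
      rw [div_le_iff₀ (by linarith)]; linarith
    nlinarith [norm_nonneg w₀⁻¹]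
  have e1 : ∀ τ ∈ O, t (Y τ) = τ := fun τ hτ => by
    have h1 : ∀ τ ∈ O, HasDerivAt (fun τ => t (Y τ) - τ) 0 τ := fun τ hτ => by
      have h2 := ((ht _ (hY τ hτ).2).comp τ (hY τ hτ).1).fun_sub (hasDerivAt_id' τ)
      rwa [inv_mul_cancel₀ (hne _ (hY τ hτ).2), sub_self] at h2
    have h3 := hO.is_const_of_deriv_eq_zero hc
      (fun τ hτ => (h1 τ hτ).differentiableAt.differentiableWithinAt)
      (fun τ hτ => (h1 τ hτ).deriv) hτ ho
    simp only [t0, sub_self] at h3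
    exact sub_eq_zero.1 h3
  obtain ⟨g, g1, g2⟩ := K23.solve (P := ℂ) (Ω := ball o (R / (4 * ‖w₀‖))) isOpen_ball
    (Φ := fun p => t p.2 - p.1) (z := y₀) (l := w₀⁻¹) (R := R) (inv_ne_zero hw)
    ((td.comp differentiableOn_snd fun p hp => hp.2).sub differentiableOn_fst)
    (fun τ _ y hy => by
      simp only [deriv_sub_const]
      exact tl y hy)
    (fun τ hτ => by
      have h1 := (K23.expand td tl (hY o ho).2 (mem_ball_self hR)).1
      have h2 := mem_ball_iff_norm.1 hτ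
      have h3 := norm_add_le (t y₀ - t (Y o) - w₀⁻¹ * (y₀ - Y o)) (w₀⁻¹ * (y₀ - Y o))
      rw [sub_add_cancel, norm_mul, t0] at h3
      have h4 := norm_sub_le (t y₀ - o) (τ - o)
      rw [sub_sub_sub_cancel_right] at h4
      rw [norm_sub_rev] at h0
      rw [t0] at h1
      have h5 : R / (4 * ‖w₀‖) = ‖w₀⁻¹‖ * R / 4 := by rw [norm_inv]; field_simp
      have h6 : 0 < ‖w₀⁻¹‖ := norm_pos_iff.2 (inv_ne_zero hw)
      have h7 := mul_le_mul_of_nonneg_left h0 h6.le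
      nlinarith)
  refine ⟨g, g1, fun τ hτ => (g2 τ hτ).1, fun τ hτ => ?_⟩
  have h1 := (g2 τ (hs hτ)).2.2 _ (hY τ hτ).2
  simp only [e1 τ hτ, sub_self, norm_zero] at h1
  have h6 : 0 < ‖w₀⁻¹‖ := norm_pos_iff.2 (inv_ne_zero hw)
  have h2 : Y τ - g τ = 0 := norm_le_zero_iff.1 (by nlinarith [norm_nonneg (Y τ - g τ)])
  exact (sub_eq_zero.1 h2).symm

end Pool.Agent.Lib.AO.C23
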