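import Pool.Agent.Lib.AO.Blue
import Pool.Agent.Lib.AO.Cls23

set_option autoImplicit false

namespace Pool.Agent.AO

open Set Metric Filter Topology

theorem st_CLS : St_CLS := by
  intro A B Y ξ Ψ τ1 y0 a0 b0 r ρ γ e hr hρ hγ hab h hξ hξb hΨ hΨb he1 he2
  have hw : a0 - b0 ≠ 0 := sub_ne_zero.2 hab
  have w0 : 0 < ‖a0 - b0‖ := norm_pos_iff.2 hw
  have e1 : γ / r * r = γ := div_mul_cancel₀ _ hr.ne'
  have e2 : e / r * r = e := div_mul_cancel₀ _ hr.ne'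
  obtain ⟨ζ, z1, z2⟩ := Pool.Agent.Lib.AO.C23.zeta (Ψ := Ψ) (y₀ := y0) (b₀ := b0) (r := r)
    (γ := γ / r) (δ := e / r) hr (div_pos hγ hr)
    (by rw [div_right_comm]; exact div_le_div_of_nonneg_right he1 hr.le)
    (by rw [e1]; exact hΨ) (by rw [e1, e2]; exact hΨb)
  rw [e1] at z1 z2
  have hs : ball y0 (γ / 8) ⊆ ball y0 γ := ball_subset_ball (by linarith)
  have hY : ∀ τ ∈ ball τ1 ρ, Y τ ∈ ball y0 (γ / 8) := fun τ hτ =>
    mem_ball_iff_norm.2 (by linarith [(h τ hτ).2.2.1])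
  have hB : ∀ τ ∈ ball τ1 ρ, B τ = ζ (Y τ) := fun τ hτ => by
    obtain ⟨-, -, h3, h4, h5⟩ := h τ hτ
    refine (z2 _ (hY τ hτ)).2 _ (mem_ball_iff_norm.2 ?_) h5
    have h6 := norm_sub_le (Y τ - y0) (r * (B τ - b0))
    rw [norm_mul, Complex.norm_real, Real.norm_of_nonneg hr.le,
      show Y τ - y0 - r * (B τ - b0) = Y τ - r * B τ - (y0 - r * b0) by ring] at h6
    linarith
  have e3 : γ / 8 / (4 * ‖a0 - b0‖) = γ / (32 * ‖a0 - b0‖) := by field_simp; norm_num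
  have p0 : 0 < γ / (32 * ‖a0 - b0‖) := by positivity
  obtain ⟨Z, Z1, Z2, Z3⟩ := Pool.Agent.Lib.AO.C23.ext (V := fun y => ξ y - ζ y) (Y := Y) (y₀ := y0)
    (o := τ1) (R := γ / 8) hw ((hξ.mono hs).sub z1) (fun y hy => by
      have h1 := hξb y (hs hy)
      have h2 := (z2 y hy).1
      have h3 : e / r ≤ ‖a0 - b0‖ / 4 := by rw [div_le_iff₀ hr]; linarith
      have h4 := norm_sub_le (ξ y - a0) (ζ y - b0)
      rw [show ξ y - a0 - (ζ y - b0) = ξ y - ζ y - (a0 - b0) by ring] at h4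
      linarith)
    (O := ball τ1 ρ ∩ ball τ1 (γ / (32 * ‖a0 - b0‖))) (isOpen_ball.inter isOpen_ball)
    ((convex_ball _ _).inter (convex_ball _ _)).isPreconnected
    ⟨mem_ball_self hρ, mem_ball_self p0⟩ (by rw [e3]; exact inter_subset_right)
    (fun τ hτ => ⟨by
      have := (h τ hτ.1).1
      rwa [(h τ hτ.1).2.1, hB τ hτ.1] at this, hY τ hτ.1⟩)
    (by linarith [(h τ1 (mem_ball_self hρ)).2.2.1])
  rw [e3] at Z1 Z2
  refine ⟨fun τ => (ξ (Z τ), ζ (Z τ), Z τ),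
    ((hξ.mono hs).comp Z1 Z2).prodMk ((z1.comp Z1 Z2).prodMk Z1), fun τ h1 h2 => ?_⟩
  simp only [Z3 ⟨h1, h2⟩, (h τ h1).2.1, hB τ h1]

end Pool.Agent.AO
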