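import Pool.Agent.Lib.AO.Blue
import Pool.Agent.Lib.AO.Cls23

set_option autoImplicit false

namespace Pool.Agent.AO

open Set Metric Filter Topology Pool.Agent.Lib.AO

theorem st_SOLVE : St_SOLVE := by
  intro F _ _ f z0 l R W hW hl hd h1 h2
  obtain ⟨g, g1, g2⟩ := K23.solve (P := F) hW (Φ := fun p => f (p.2, p.1)) (z := z0) (l := l)
    (R := R) hl (hd.comp (by fun_prop) fun p hp => ⟨hp.2, hp.1⟩) h1
    (fun p hp => by linarith [h2 p hp])
  refine ⟨g, g1, fun p hp => ⟨(g2 p hp).1, (g2 p hp).2.1, fun z hz => ?_⟩⟩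
  have := (g2 p hp).2.2 z hz
  rw [norm_sub_rev] at this
  linarith

theorem st_SOLVE0 : St_SOLVE0 := by
  intro F _ _ f z0 l p0 hf h0 hl l0 R0 hR0
  have ln : 0 < ‖l‖ := norm_pos_iff.2 l0
  have hc : ContinuousAt (fun q => fderiv ℂ f q (1, 0)) (z0, p0) :=
    (hf.continuousAt_fderiv one_ne_zero).clm_apply continuousAt_const
  have hD : ∀ q : ℂ × F, DifferentiableAt ℂ f q →
      HasDerivAt (fun s => f (s, q.2)) (fderiv ℂ f q (1, 0)) q.1 := fun q hq =>
    hq.hasFDerivAt.comp_hasDerivAt q.1 ((hasDerivAt_id q.1).prodMk (hasDerivAt_const q.1 q.2))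
  have e0 : fderiv ℂ f (z0, p0) (1, 0) = l :=
    (hD (z0, p0) (hf.differentiableAt one_ne_zero)).unique hl
  have h1 : ∀ᶠ q in 𝓝 (z0, p0), DifferentiableAt ℂ f q ∧ ‖fderiv ℂ f q (1, 0) - l‖ ≤ ‖l‖ / 2 := by
    refine ((hf.eventually (by simp)).mono fun q hq => hq.differentiableAt one_ne_zero).and ?_
    have := hc.eventually (closedBall_mem_nhds _ (half_pos ln))
    simp only [e0] at this
    exact this.mono fun q hq => mem_closedBall_iff_norm.1 hq
  obtain ⟨R1, R1p, h2⟩ := Metric.eventually_nhds_iff_ball.1 h1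
  set R := min R0 R1 with hR
  have Rp : 0 < R := lt_min hR0 R1p
  have h3 : ∀ᶠ p in 𝓝 p0, ‖f (z0, p)‖ < ‖l‖ * R / 2 := by
    have hc2 : ContinuousAt (fun p => ‖f (z0, p)‖) p0 :=
      (ContinuousAt.comp (f := fun p => (z0, p)) hf.continuousAt (by fun_prop)).norm
    exact hc2.eventually (gt_mem_nhds (by simp only [h0, norm_zero]; positivity))
  obtain ⟨ρ1, ρ1p, h4⟩ := Metric.eventually_nhds_iff_ball.1 h3
  have hm : ∀ z ∈ ball z0 R, ∀ p ∈ ball p0 (min ρ1 R1), (z, p) ∈ ball (z0, p0) R1 :=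
    fun z hz p hp => by
      rw [← ball_prod_same]
      exact ⟨ball_subset_ball (min_le_right _ _) hz, ball_subset_ball (min_le_right _ _) hp⟩
  obtain ⟨g, g1, g2⟩ := st_SOLVE F f z0 l R (ball p0 (min ρ1 R1)) isOpen_ball l0
    (fun q hq => (h2 _ (hm q.1 hq.1 q.2 hq.2)).1.differentiableWithinAt)
    (fun p hp z hz => by
      rw [(hD (z, p) (h2 _ (hm z hz p hp)).1).deriv]
      exact (h2 _ (hm z hz p hp)).2)
    (fun p hp => h4 p (ball_subset_ball (min_le_left _ _) hp))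
  exact ⟨R, min ρ1 R1, Rp, min_le_left _ _, lt_min ρ1p R1p, g, g1, g2⟩

theorem st_SCH : St_SCH := by
  intro φ ρ M hd hM h1 r hr
  have hn : ∀ s ∈ ball (0 : ℂ) ρ, -s ∈ ball (0 : ℂ) ρ := fun s hs => by simpa using hs
  have hb : ∀ s ∈ ball (0 : ℂ) ρ, ‖φ s - φ 0 - s‖ ≤ M + ρ := fun s hs => by
    linarith [norm_sub_le (φ s - φ 0) s, hM s hs, mem_ball_zero_iff.1 hs]
  refine ⟨K23.schw2 (u := fun s => φ s - φ 0 - s) ((hd.sub_const _).sub differentiableOn_id)
    (by simp) (by simpa using (h1.sub_const (φ 0)).fun_sub (hasDerivAt_id (0 : ℂ))) hb hr, ?_⟩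
  have h2 : HasDerivAt (fun s => φ (-s)) (-1) 0 := by
    have h3 : HasDerivAt φ 1 (-0) := by rwa [neg_zero]
    exact (h3.comp (0 : ℂ) (hasDerivAt_neg' (0 : ℂ))).congr_deriv (by norm_num)
  refine K23.schw3 (u := fun s => φ s - φ (-s) - 2 * s)
    ((hd.sub (hd.comp (by fun_prop) hn)).sub (by fun_prop)) (fun s _ => by simp only [neg_neg]; ring)
    (((h1.fun_sub h2).fun_sub ((hasDerivAt_id (0 : ℂ)).const_mul 2)).congr_deriv (by norm_num))
    (fun s hs => ?_) hr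
  have h4 := norm_sub_le (φ s - φ 0 - s) (φ (-s) - φ 0 - -s)
  rw [show φ s - φ 0 - s - (φ (-s) - φ 0 - -s) = φ s - φ (-s) - 2 * s by ring] at h4
  linarith [hb s hs, hb _ (hn s hs)]

theorem st_INT : St_INT := by
  intro Y A z0 w0 a0 R e hw hR hY hA h1 h2
  have wp : 0 < ‖w0‖ := norm_pos_iff.2 hw
  have hO : IsOpen (intW Y A z0 w0 R e) := by
    unfold intW
    exact (isOpen_lt (by fun_prop) continuous_const).and (isOpen_lt (by fun_prop) continuous_const)
  have hs : ball z0 (R / 2) ⊆ ball z0 R := ball_subset_ball (by linarith)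
  obtain ⟨g, g1, g2⟩ := st_SOLVE (ℂ × ℂ) (fun q => Y q.1 - q.2.2 * A q.1 - q.2.1) z0 w0 (R / 2) _
    hO hw (((hY.comp differentiableOn_fst fun q hq => hs hq.1).sub ((by fun_prop :
      DifferentiableOn ℂ (fun q : ℂ × ℂ × ℂ => q.2.2) _).mul
        (hA.comp differentiableOn_fst fun q hq => hs hq.1))).sub (by fun_prop))
    (fun p hp z hz => by
      have a1 := (hY.differentiableAt (isOpen_ball.mem_nhds (hs hz))).hasDerivAt
      have a2 := (hA.differentiableAt (isOpen_ball.mem_nhds (hs hz))).hasDerivAt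
      have a3 := C23.cauchy (hA.sub_const a0) h2 hz
      rw [deriv_sub_const] at a3
      rw [((a1.fun_sub (a2.const_mul p.2)).sub_const p.1).deriv]
      have a4 := norm_sub_le (deriv Y z - w0) (p.2 * deriv A z)
      rw [show deriv Y z - w0 - p.2 * deriv A z = deriv Y z - p.2 * deriv A z - w0 by ring,
        norm_mul] at a4
      have a5 : ‖p.2‖ * (e / (R / 4)) ≤ ‖w0‖ / 4 := by
        rw [← mul_div_assoc, div_le_iff₀ (by linarith)]
        linarith [hp.1]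
      linarith [h1 z (hs hz), mul_le_mul_of_nonneg_left a3 (norm_nonneg p.2)])
    (fun p hp => by linarith [hp.2])
  exact ⟨hO, g, g1, fun p hp => ⟨(g2 p hp).1, sub_eq_zero.1 (g2 p hp).2.1, (g2 p hp).2.2⟩⟩

theorem st_GLUE : St_GLUE := by
  intro U I Φ ρ hU hc hne hΦ hI h
  choose! Ψ Ψ1 Ψ2 using h
  obtain ⟨g, g1, g2, -⟩ := K23.glue (ι := I) hU hc hΦ (fun i => i.1) (fun i => ρ i.1)
    (fun i => Ψ i.1) (fun i => hI i.2) (fun i => Ψ1 _ i.2) fun i => Ψ2 _ i.2
  rw [biUnion_eq_iUnion]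
  refine ⟨g, g1, g2, ?_⟩
  obtain ⟨x, hx⟩ := hne
  refine isPreconnected_of_forall x fun y hy => ?_
  rcases hy with hy | hy
  · exact ⟨U, subset_union_left, hx, hy, hc.isPreconnected⟩
  · obtain ⟨i, hi⟩ := mem_iUnion.1 hy
    obtain ⟨u, u1, u2⟩ := mem_closure_iff.1 (hI i.2) _ isOpen_ball
      (mem_ball_self (nonempty_ball.1 ⟨y, hi⟩))
    exact ⟨U ∪ ball i.1 (ρ i.1), union_subset_union_right _ (subset_iUnion
      (fun i : I => ball i.1 (ρ i.1)) i), Or.inl hx, Or.inr hi,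
      hc.isPreconnected.union u u2 u1 (convex_ball _ _).isPreconnected⟩

theorem st_UNION : St_UNION := by
  intro ι V Ψ U0 Φ hU hne h
  classical
  obtain ⟨x, hx⟩ := hne
  have key : ∀ i j, EqOn (Ψ i) (Ψ j) (V i ∩ V j) := fun i j => by
    obtain ⟨a1, a2, a3, a4, a5⟩ := h i
    obtain ⟨b1, b2, b3, b4, b5⟩ := h j
    refine ((a4.mono inter_subset_left).analyticOnNhd
      (a1.inter b1)).eqOn_of_preconnected_of_eventuallyEq ((b4.mono inter_subset_right).analyticOnNhd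
      (a1.inter b1)) (a2.inter b2).isPreconnected ⟨a3 hx, b3 hx⟩ ?_
    filter_upwards [hU.mem_nhds hx] with z hz
    rw [a5 hz, b5 hz]
  have e : ∀ i, EqOn (fun z => if hz : ∃ j, z ∈ V j then Ψ hz.choose z else 0) (Ψ i) (V i) :=
    fun i z hz => by
      have hz' : ∃ j, z ∈ V j := ⟨i, hz⟩
      simp only [dif_pos hz']
      exact key _ _ ⟨hz'.choose_spec, hz⟩
  refine ⟨_, fun z hz => ?_, e⟩
  obtain ⟨i, hi⟩ := mem_iUnion.1 hz
  have hn := (h i).1.mem_nhds hi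
  exact (((h i).2.2.2.1.differentiableAt hn).congr_of_eventuallyEq
    (mem_of_superset hn (e i))).differentiableWithinAt

theorem st_DIR : St_DIR := by
  intro Λ
  obtain ⟨c, hc, h⟩ := K23.dir Λ.finite_toSet
  refine ⟨min c 1, lt_min hc one_pos, min_le_right _ _, fun M => ?_⟩
  obtain ⟨m, m1, m2⟩ := h M
  refine ⟨m, m1, fun l hl => ?_⟩
  by_cases h1 : ∃ n : ℤ, l = n
  · exact Or.inl h1
  · exact Or.inr fun n => (min_le_left _ _).trans (m2 l hl (not_exists.1 h1) n)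

end Pool.Agent.AO
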