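import Mathlib

set_option autoImplicit false

namespace Pool.Agent.Lib.AO.L62

open Set Filter Topology

variable {E : Type*} [NormedAddCommGroup E] [NormedSpace ℝ E]

/-- strict monotonicity of `f` along short segments of direction `v` near `x` -/
theorem mono_line {f : E → ℝ} {f' : E →L[ℝ] ℝ} {x v : E} (hf : HasStrictFDerivAt f f' x)
    (hv : 0 < f' v) : ∃ δ : ℝ, 0 < δ ∧ δ ≤ 1 ∧ ∀ᶠ z in 𝓝 x, ∀ s t : ℝ, |s| ≤ δ → |t| ≤ δ → s < t →
      f (z + s • v) < f (z + t • v) := by
  have v0 : 0 < ‖v‖ := by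
    rw [norm_pos_iff]
    rintro rfl
    simp at hv
  have hc : 0 < f' v / (2 * ‖v‖) := by positivity
  have h1 := (Asymptotics.isLittleO_iff.1 hf.isLittleO) hc
  obtain ⟨r, r0, hr⟩ := Metric.eventually_nhds_iff.1 h1
  refine ⟨min 1 (r / (4 * ‖v‖)), by positivity, min_le_left _ _, ?_⟩
  have hb : ∀ᶠ z in 𝓝 x, dist z x < r / 2 := Metric.ball_mem_nhds x (by positivity)
  filter_upwards [hb] with z hz s t hs ht hst
  have near : ∀ u : ℝ, |u| ≤ min 1 (r / (4 * ‖v‖)) → dist (z + u • v) x < r := by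
    intro u hu
    have a1 : |u| ≤ r / (4 * ‖v‖) := hu.trans (min_le_right _ _)
    have a2 : ‖u • v‖ ≤ r / 4 := by
      rw [norm_smul, Real.norm_eq_abs]
      calc |u| * ‖v‖ ≤ r / (4 * ‖v‖) * ‖v‖ := by gcongr
        _ = r / 4 := by field_simp
    have a3 : dist (z + u • v) z = ‖u • v‖ := by rw [dist_eq_norm]; simp
    calc dist (z + u • v) x ≤ dist (z + u • v) z + dist z x := dist_triangle _ _ _
      _ < r := by rw [a3]; linarith
  have hd : dist (z + t • v, z + s • v) (x, x) < r := by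
    rw [Prod.dist_eq]
    exact max_lt (near t ht) (near s hs)
  have h2 := hr hd
  have e1 : z + t • v - (z + s • v) = (t - s) • v := by rw [sub_smul]; abel
  simp only [e1, map_smul, smul_eq_mul, norm_smul, Real.norm_eq_abs] at h2
  have p : 0 < t - s := by linarith
  rw [abs_of_pos p] at h2
  have e2 : f' v / (2 * ‖v‖) * ((t - s) * ‖v‖) = (t - s) * f' v / 2 := by field_simp
  rw [e2] at h2
  have h3 := (abs_le.1 h2).1
  have h4 : 0 < (t - s) * f' v := mul_pos p hv
  linarith

/-- local description of a closed convex set whose frontier lies in `{f = 0}` -/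
theorem local_desc {K : Set E} (hc : IsClosed K) (hK : Convex ℝ K) {f : E → ℝ} {f' : E →L[ℝ] ℝ}
    {x v : E} (hf : HasStrictFDerivAt f f' x) (hx : x ∈ frontier K) (hv : 0 < f' v)
    (hi : x - v ∈ interior K) (h0 : ∀ᶠ z in 𝓝 x, z ∈ frontier K → f z = 0) :
    ∀ᶠ z in 𝓝 x, (z ∈ K ↔ f z ≤ 0) ∧ (f z = 0 → z ∈ frontier K) := by
  obtain ⟨δ0, d0, d1, hm⟩ := mono_line hf hv
  obtain ⟨r, r0, hr⟩ := Metric.eventually_nhds_iff.1 h0
  have v0 : 0 < ‖v‖ := by
    rw [norm_pos_iff]
    rintro rfl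
    simp at hv
  obtain ⟨δ, dp, dd, dr⟩ : ∃ δ : ℝ, 0 < δ ∧ δ ≤ δ0 ∧ δ * ‖v‖ ≤ r / 4 := by
    refine ⟨min δ0 (r / (4 * ‖v‖)), by positivity, min_le_left _ _, ?_⟩
    calc min δ0 (r / (4 * ‖v‖)) * ‖v‖ ≤ r / (4 * ‖v‖) * ‖v‖ := by gcongr; exact min_le_right _ _
      _ = r / 4 := by field_simp
  have xK : x ∈ K := hc.frontier_subset hx
  have seg : ∀ (a b : E) (t : ℝ), a ∈ interior K → b ∈ K → 0 < t → t ≤ 1 →
      t • a + (1 - t) • b ∈ interior K := fun a b t ha hb t0 t1 =>
    hK.combo_interior_self_mem_interior ha hb t0 (by linarith) (by ring)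
  have lo : x + (-δ) • v ∈ interior K := by
    have := seg (x - v) x δ hi xK dp (dd.trans d1)
    have e : δ • (x - v) + (1 - δ) • x = x + (-δ) • v := by module
    rwa [e] at this
  have up : x + δ • v ∉ K := by
    intro h
    have := seg _ _ (1 / 2) lo h (by norm_num) (by norm_num)
    have e : (1 / 2 : ℝ) • (x + (-δ) • v) + (1 - 1 / 2 : ℝ) • (x + δ • v) = x := by module
    rw [e] at this
    exact hx.2 this
  have c1 : ∀ᶠ z in 𝓝 x, z + (-δ) • v ∈ interior K :=
    (continuous_id.add continuous_const).continuousAt.eventually_mem (isOpen_interior.mem_nhds lo)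
  have c2 : ∀ᶠ z in 𝓝 x, z + δ • v ∈ Kᶜ :=
    (continuous_id.add continuous_const).continuousAt.eventually_mem
      (hc.isOpen_compl.mem_nhds up)
  have hb : ∀ᶠ z in 𝓝 x, dist z x < r / 2 := Metric.ball_mem_nhds x (by positivity)
  filter_upwards [hm, c1, c2, hb] with z hz z1 z2 zb
  -- a frontier point on the segment
  obtain ⟨t, ht, tf⟩ : ∃ t ∈ Icc (-δ) δ, z + t • v ∈ frontier K := by
    by_contra hn
    push Not at hn
    have pc : IsPreconnected ((fun t : ℝ => z + t • v) '' Icc (-δ) δ) :=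
      isPreconnected_Icc.image _ (by fun_prop)
    have sub : (fun t : ℝ => z + t • v) '' Icc (-δ) δ ⊆ interior K ∪ Kᶜ := by
      rintro _ ⟨t, ht, rfl⟩
      by_cases h : z + t • v ∈ K
      · left
        by_contra h'
        exact hn t ht ⟨subset_closure h, h'⟩
      · exact Or.inr h
    have := pc.subset_left_of_subset_union isOpen_interior hc.isOpen_compl
      (disjoint_compl_right.mono_left interior_subset) sub
      ⟨_, ⟨-δ, ⟨le_rfl, by linarith⟩, rfl⟩, z1⟩
    exact z2 (interior_subset (this ⟨δ, ⟨by linarith, le_rfl⟩, rfl⟩))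
  have ta : |t| ≤ δ := abs_le.2 ht
  have tz : f (z + t • v) = 0 := by
    refine hr ?_ tf
    have a2 : ‖t • v‖ ≤ r / 4 := by
      rw [norm_smul, Real.norm_eq_abs]
      exact le_trans (by gcongr) dr
    have a3 : dist (z + t • v) z = ‖t • v‖ := by rw [dist_eq_norm]; simp
    calc dist (z + t • v) x ≤ dist (z + t • v) z + dist z x := dist_triangle _ _ _
      _ < r := by rw [a3]; linarith
  have z0 : |(0 : ℝ)| ≤ δ0 := by simpa using d0.le
  have m1 : t < 0 → 0 < f z := fun h => by
    have := hz t 0 (ta.trans dd) z0 h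
    rw [tz] at this
    simpa using this
  have m2 : 0 < t → f z < 0 := fun h => by
    have := hz 0 t z0 (ta.trans dd) h
    rw [tz] at this
    simpa using this
  have tK : z + t • v ∈ K := hc.frontier_subset tf
  refine ⟨⟨fun h => ?_, fun h => ?_⟩, fun h => ?_⟩
  · by_contra hn
    push Not at hn
    have t0 : t < 0 := by
      rcases lt_trichotomy t 0 with a | a | a
      · exact a
      · rw [a] at tz
        simp only [zero_smul, add_zero] at tz
        linarith
      · linarith [m2 a]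
    have := seg _ _ (-t / δ) z1 h (div_pos (by linarith) dp)
      (by rw [div_le_one dp]; linarith [ht.1])
    have e : (-t / δ) • (z + (-δ) • v) + (1 - -t / δ) • z = z + t • v := by
      have : t = (-t / δ) * (-δ) := by field_simp
      conv_rhs => rw [this]
      module
    rw [e] at this
    exact tf.2 this
  · have t0 : 0 ≤ t := by
      by_contra a
      push Not at a
      linarith [m1 a]
    have p : 0 < t + δ := by linarith
    have := hK (interior_subset z1) tK (a := t / (t + δ)) (b := δ / (t + δ)) (by positivity)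
      (by positivity) (by field_simp)
    have e : (t / (t + δ)) • (z + (-δ) • v) + (δ / (t + δ)) • (z + t • v) = z := by
      have a1 : δ / (t + δ) = 1 - t / (t + δ) := by field_simp; ring
      have a2 : t / (t + δ) * (-δ) + δ / (t + δ) * t = 0 := by ring
      calc (t / (t + δ)) • (z + (-δ) • v) + (δ / (t + δ)) • (z + t • v)
          = (t / (t + δ) + δ / (t + δ)) • z + (t / (t + δ) * (-δ) + δ / (t + δ) * t) • v := by
            module
        _ = z := by rw [a2, a1]; simp
    rwa [e] at this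
  · have t0 : t = 0 := by
      rcases lt_trichotomy t 0 with a | a | a
      · linarith [m1 a]
      · exact a
      · linarith [m2 a]
    rw [t0] at tf
    simpa using tf

/-- the same without a chosen direction: a sign `s` appears -/
theorem loc {K : Set E} (hc : IsClosed K) (hK : Convex ℝ K) (hi : (interior K).Nonempty)
    {f : E → ℝ} {f' : E →L[ℝ] ℝ} {x : E} (hf : HasStrictFDerivAt f f' x) (hx : x ∈ frontier K)
    (h' : f' ≠ 0) (h0 : ∀ᶠ z in 𝓝 x, z ∈ frontier K → f z = 0) :
    ∃ s : ℝ, (s = 1 ∨ s = -1) ∧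
      ∀ᶠ z in 𝓝 x, (z ∈ K ↔ s * f z ≤ 0) ∧ (f z = 0 → z ∈ frontier K) := by
  obtain ⟨v, hi', hv⟩ : ∃ v : E, x - v ∈ interior K ∧ f' v ≠ 0 := by
    obtain ⟨o, ho⟩ := hi
    by_cases h : f' (x - o) = 0
    · obtain ⟨u, hu⟩ : ∃ u, f' u ≠ 0 := by
        by_contra hn
        push Not at hn
        exact h' (ContinuousLinearMap.ext hn)
      have c : ContinuousAt (fun t : ℝ => x - (x - o + t • u)) 0 := by fun_prop
      have e : ∀ᶠ t in 𝓝 (0 : ℝ), x - (x - o + t • u) ∈ interior K :=
        c.eventually_mem (isOpen_interior.mem_nhds (by simpa using ho))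
      obtain ⟨t, t1, t2⟩ := ((e.filter_mono (nhdsWithin_le_nhds (s := {0}ᶜ))).and
        self_mem_nhdsWithin).exists
      refine ⟨_, t1, ?_⟩
      rw [map_add, h, map_smul, zero_add, smul_eq_mul]
      exact mul_ne_zero t2 hu
    · exact ⟨x - o, by simpa using ho, h⟩
  rcases lt_or_gt_of_ne hv with a | a
  · have h1 : 0 < (-f') v := by simpa using a
    have := local_desc hc hK hf.neg hx h1 hi' (h0.mono fun z hz h => by simp [hz h])
    refine ⟨-1, Or.inr rfl, this.mono fun z hz => ⟨?_, fun h => hz.2 (by simp [h])⟩⟩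
    simpa using hz.1
  · exact ⟨1, Or.inl rfl, (local_desc hc hK hf hx a hi' h0).mono fun z hz => by simpa using hz⟩

/-- the frontier is open in the zero set -/
theorem front_of_zero {K : Set E} (hc : IsClosed K) (hK : Convex ℝ K)
    (hi : (interior K).Nonempty) {f : E → ℝ} {f' : E →L[ℝ] ℝ} {x : E}
    (hf : HasStrictFDerivAt f f' x) (hx : x ∈ frontier K) (h' : f' ≠ 0)
    (h0 : ∀ᶠ z in 𝓝 x, z ∈ frontier K → f z = 0) : ∀ᶠ z in 𝓝 x, f z = 0 → z ∈ frontier K := by
  obtain ⟨_, _, h⟩ := loc hc hK hi hf hx h' h0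
  exact h.mono fun z hz => hz.2

/-- a direction that points into the interior is not tangent -/
theorem ne_of_interior {K : Set E} (hc : IsClosed K) (hK : Convex ℝ K) {f : E → ℝ}
    {f' : E →L[ℝ] ℝ} {x w : E} (hf : HasStrictFDerivAt f f' x) (hx : x ∈ frontier K)
    (h' : f' ≠ 0) (h0 : ∀ᶠ z in 𝓝 x, z ∈ frontier K → f z = 0) (hw : x + w ∈ interior K) :
    f' w ≠ 0 := by
  intro hz
  obtain ⟨s, hs, h⟩ := loc hc hK ⟨_, hw⟩ hf hx h' h0
  obtain ⟨u, hu⟩ : ∃ u, 0 < s * f' u := by
    obtain ⟨u, hu⟩ : ∃ u, f' u ≠ 0 := by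
      by_contra hn
      push Not at hn
      exact h' (ContinuousLinearMap.ext hn)
    have s0 : s ≠ 0 := by rcases hs with a | a <;> rw [a] <;> norm_num
    rcases lt_or_gt_of_ne (mul_ne_zero s0 hu) with a | a
    · exact ⟨-u, by rw [map_neg]; linarith⟩
    · exact ⟨u, a⟩
  have c : ContinuousAt (fun t : ℝ => x + (w + t • u)) 0 := by fun_prop
  have e : ∀ᶠ t in 𝓝 (0 : ℝ), x + (w + t • u) ∈ interior K :=
    c.eventually_mem (isOpen_interior.mem_nhds (by simpa using hw))
  obtain ⟨t, t1, t2⟩ := ((e.filter_mono (nhdsWithin_le_nhds (s := Ioi 0))).and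
    self_mem_nhdsWithin).exists
  have t3 : (0 : ℝ) < t := t2
  have pos : 0 < (s • f') (w + t • u) := by
    simp only [smul_apply, map_add, map_smul, hz, smul_eq_mul]
    have := mul_pos t3 hu
    linarith
  obtain ⟨δ, d0, d1, hm⟩ := mono_line (hf.const_smul s) pos
  have hm0 := hm.self_of_nhds
  have c2 : ContinuousAt (fun r : ℝ => x + r • (w + t • u)) 0 := by fun_prop
  have e2 : ∀ᶠ r in 𝓝 (0 : ℝ), x + r • (w + t • u) ∈ K → s * f (x + r • (w + t • u)) ≤ 0 := by
    have h2 : ∀ᶠ z in 𝓝 (x + (0 : ℝ) • (w + t • u)), z ∈ K → s * f z ≤ 0 := by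
      simpa using h.mono fun z hz => hz.1.1
    exact c2.eventually h2
  have e3 : ∀ᶠ r in 𝓝 (0 : ℝ), r < δ := gt_mem_nhds d0
  obtain ⟨r, ⟨r1, r2⟩, r3⟩ := (((e2.and e3).filter_mono (nhdsWithin_le_nhds (s := Ioi 0))).and
    self_mem_nhdsWithin).exists
  have r4 : (0 : ℝ) < r := r3
  have xK : x ∈ K := hc.frontier_subset hx
  have mem : x + r • (w + t • u) ∈ K := by
    have := hK (interior_subset t1) xK (a := r) (b := 1 - r) r4.le (by linarith) (by ring)
    have e : r • (x + (w + t • u)) + (1 - r) • x = x + r • (w + t • u) := by module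
    rwa [e] at this
  have h3 := hm0 0 r (by simpa using d0.le) (by rw [abs_of_pos r4]; exact r2.le) r4
  have h4 := r1 mem
  have h5 : f x = 0 := h0.self_of_nhds hx
  simp only [zero_smul, add_zero, Pi.smul_apply, smul_eq_mul, h5, mul_zero] at h3
  linarith

/-- a tangent line meets a strictly convex set in the point of contact only -/
theorem tangent {K : Set E} (hc : IsClosed K) (hK : StrictConvex ℝ K) {f : E → ℝ}
    {f' : E →L[ℝ] ℝ} {x w : E} (hf : HasStrictFDerivAt f f' x) (hx : x ∈ frontier K)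
    (h' : f' ≠ 0) (h0 : ∀ᶠ z in 𝓝 x, z ∈ frontier K → f z = 0) (hw : f' w = 0)
    (hm : x + w ∈ K) : w = 0 := by
  by_contra w0
  have xK : x ∈ K := hc.frontier_subset hx
  have ne : x ≠ x + w := fun h => w0 (by simpa using h)
  have := hK xK hm ne (a := 1 / 2) (b := 1 / 2) (by norm_num) (by norm_num) (by norm_num)
  have e : (1 / 2 : ℝ) • x + (1 / 2 : ℝ) • (x + w) = x + (1 / 2 : ℝ) • w := by module
  rw [e] at this
  exact ne_of_interior hc hK.convex hf hx h' h0 this (by rw [map_smul, hw, smul_zero])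

end Pool.Agent.Lib.AO.L62
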