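import Pool.Agent.Lib.AO.Blue
import Pool.Agent.Lib.AO.Loc62

set_option autoImplicit false

noncomputable section

namespace Pool.Agent.AO

open Set Metric Filter Topology ComplexConjugate Pool.Agent.Lib.AO

namespace C62

theorem real_of {z : ℂ} (h : z = conj z) : ((z.re : ℝ) : ℂ) = z := Complex.conj_eq_iff_re.1 h.symm

theorem p_re (d : Dat) (q : ℝ × ℝ) : (((d.p (rc q)).re : ℝ) : ℂ) = d.p (rc q) :=
  real_of (by simpa [rc] using d.jp q.1 q.2)

theorem px_re (d : Dat) (q : ℝ × ℝ) : (((d.px (rc q)).re : ℝ) : ℂ) = d.px (rc q) :=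
  real_of (by simpa [rc] using d.jpx q.1 q.2)

theorem py_re (d : Dat) (q : ℝ × ℝ) : (((d.py (rc q)).re : ℝ) : ℂ) = d.py (rc q) :=
  real_of (by simpa [rc] using d.jpy q.1 q.2)

theorem strict (d : Dat) (q : ℝ × ℝ) : ∃ f' : ℝ × ℝ →L[ℝ] ℝ,
    HasStrictFDerivAt (fun q : ℝ × ℝ => (d.p (rc q)).re) f' q ∧
      ∀ v, f' v = (d.px (rc q)).re * v.1 + (d.py (rc q)).re * v.2 := by
  have h1 := (d.cp.contDiffAt.hasStrictFDerivAt' (d.fp (rc q)) one_ne_zero).restrictScalars ℝ
  have h2 : HasStrictFDerivAt rc (Complex.ofRealCLM.prodMap Complex.ofRealCLM) q :=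
    (Complex.ofRealCLM.prodMap Complex.ofRealCLM).hasStrictFDerivAt
  refine ⟨_, Complex.reCLM.hasStrictFDerivAt.comp q (h1.comp q h2), fun v => ?_⟩
  simp

theorem cast62 (d : Dat) (q v : ℝ × ℝ) :
    (((d.px (rc q)).re * v.1 + (d.py (rc q)).re * v.2 : ℝ) : ℂ) =
      d.px (rc q) * v.1 + d.py (rc q) * v.2 := by
  push_cast
  rw [px_re, py_re]

theorem mid {K : Set (ℝ × ℝ)} (hs : StrictConvex ℝ K) {q v : ℝ × ℝ} (hv : v ≠ 0) {a b c : ℝ}
    (ab : a < b) (bc : b < c) (ha : q + a • v ∈ K) (hc : q + c • v ∈ K) :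
    q + b • v ∈ interior K := by
  have p : 0 < c - a := by linarith
  have ne : q + a • v ≠ q + c • v := by
    intro h
    have := smul_left_injective ℝ hv (add_left_cancel h)
    linarith
  have := hs ha hc ne (a := (c - b) / (c - a)) (b := (b - a) / (c - a))
    (div_pos (by linarith) p) (div_pos (by linarith) p) (by field_simp; ring)
  have e : ((c - b) / (c - a)) • (q + a • v) + ((b - a) / (c - a)) • (q + c • v) = q + b • v := by
    have a1 : (c - b) / (c - a) + (b - a) / (c - a) = 1 := by field_simp; ring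
    have a2 : (c - b) / (c - a) * a + (b - a) / (c - a) * c = b := by field_simp; ring
    calc ((c - b) / (c - a)) • (q + a • v) + ((b - a) / (c - a)) • (q + c • v)
        = ((c - b) / (c - a) + (b - a) / (c - a)) • q +
          ((c - b) / (c - a) * a + (b - a) / (c - a) * c) • v := by module
      _ = q + b • v := by rw [a1, a2, one_smul]
  rwa [e] at this

end C62

open C62 in
theorem st_CVX : St_CVX := by
  rintro d K ⟨hK, hs, hi, ho⟩
  have hc := hK.isClosed
  have h0 : ∀ q : ℝ × ℝ, ∀ᶠ z in 𝓝 q, z ∈ frontier K → (d.p (rc z)).re = 0 := fun q =>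
    Eventually.of_forall fun z hz => by rw [(ho z hz).1, Complex.zero_re]
  have st : ∀ q ∈ frontier K, ∃ f' : ℝ × ℝ →L[ℝ] ℝ,
      HasStrictFDerivAt (fun q : ℝ × ℝ => (d.p (rc q)).re) f' q ∧ f' ≠ 0 ∧
      ∀ v, f' v = (d.px (rc q)).re * v.1 + (d.py (rc q)).re * v.2 := by
    intro q hq
    obtain ⟨f', h1, h2⟩ := strict d q
    refine ⟨f', h1, fun h => ?_, h2⟩
    have a := h2 (1, 0)
    have b := h2 (0, 1)
    rw [h] at a b
    simp only [zero_apply, mul_one, mul_zero, add_zero, zero_add] at a b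
    rcases (ho q hq).2 with e | e
    · exact e (by rw [← px_re, ← a]; simp)
    · exact e (by rw [← py_re, ← b]; simp)
  have tr : ∀ q ∈ frontier K, ∀ v : ℝ × ℝ, v ≠ 0 → q + v ∈ K →
      d.px (rc q) * v.1 + d.py (rc q) * v.2 ≠ 0 := by
    intro q hq v hv hm h
    obtain ⟨f', h1, h2, h3⟩ := st q hq
    refine hv (L62.tangent hc hs h1 hq h2 (h0 q) ?_ hm)
    rw [← cast62] at h
    rw [h3]
    exact_mod_cast h
  refine ⟨⟨hK, hs, hi, ho⟩, tr, fun q hq => ?_, fun q hq v s t hv s0 t0 h1 h2 => ?_, ?_,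
    fun q hq hx => ?_⟩
  · obtain ⟨f', h1, h2, _⟩ := st q hq
    filter_upwards [L62.front_of_zero hc hs.convex hi h1 hq h2 (h0 q)] with z hz e
    exact hz (by rw [e, Complex.zero_re])
  · have z0 : q + (0 : ℝ) • v ∈ frontier K := by simpa using hq
    have key : ∀ a b c : ℝ, a < b → b < c → q + a • v ∈ frontier K → q + b • v ∈ frontier K →
        q + c • v ∈ frontier K → False := fun a b c ab bc ha hb hc' =>
      hb.2 (mid hs hv ab bc (hc.frontier_subset ha) (hc.frontier_subset hc'))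
    by_contra ne
    rcases lt_or_gt_of_ne ne with a | a <;> rcases lt_or_gt_of_ne s0 with b | b <;>
      rcases lt_or_gt_of_ne t0 with c | c
    · exact key _ _ _ a c h1 h2 z0
    · exact key _ _ _ b c h1 z0 h2
    · linarith
    · exact key _ _ _ b a z0 h1 h2
    · exact key _ _ _ a b h2 h1 z0
    · linarith
    · exact key _ _ _ c b h2 z0 h1
    · exact key _ _ _ c a z0 h2 h1
  · obtain ⟨q, qK, hq⟩ := hK.exists_isMaxOn (hi.mono interior_subset) continuous_snd.continuousOn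
    have up : ∀ v : ℝ × ℝ, 0 < v.2 → ∀ r : ℝ, 0 < r → q + r • v ∉ K := by
      intro v hv r r0 h
      have : (q + r • v).2 ≤ q.2 := hq h
      simp only [Prod.snd_add, Prod.smul_snd, smul_eq_mul] at this
      linarith [mul_pos r0 hv]
    have ev : ∀ (v : ℝ × ℝ) (P : ℝ × ℝ → Prop), (∀ᶠ z in 𝓝 q, P z) → ∀ δ : ℝ, 0 < δ →
        ∃ r : ℝ, 0 < r ∧ r < δ ∧ P (q + r • v) := by
      intro v P hP δ d0
      have c : Tendsto (fun r : ℝ => q + r • v) (𝓝 0) (𝓝 q) :=
        Continuous.tendsto' (by fun_prop) _ _ (by simp)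
      obtain ⟨r, ⟨r1, r2⟩, r3⟩ := ((((c.eventually hP).and (gt_mem_nhds d0)).filter_mono
        (nhdsWithin_le_nhds (s := Ioi 0))).and self_mem_nhdsWithin).exists
      exact ⟨r, r3, r2, r1⟩
    have qf : q ∈ frontier K := by
      refine ⟨subset_closure qK, fun h => ?_⟩
      obtain ⟨r, r0, _, hr⟩ := ev (0, 1) (· ∈ K) (mem_interior_iff_mem_nhds.1 h) 1 one_pos
      exact up (0, 1) one_pos r r0 hr
    refine ⟨q, qf, fun q' h => hq h, ?_⟩
    by_contra hx
    have x0 : (d.px (rc q)).re ≠ 0 := fun h => hx (by rw [← px_re, h]; simp)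
    obtain ⟨f', h1, h2, h3⟩ := st q qf
    obtain ⟨s, s1, hl⟩ := L62.loc hc hs.convex hi h1 qf h2 (h0 q)
    have pos : 0 < ((-s) • f') ((-s - (d.py (rc q)).re) / (d.px (rc q)).re, 1) := by
      rw [smul_apply, h3, smul_eq_mul, mul_div_cancel₀ _ x0]
      rcases s1 with a | a <;> rw [a] <;> norm_num
    obtain ⟨δ, d0, _, hm⟩ := L62.mono_line (h1.const_smul (-s)) pos
    obtain ⟨r, r0, r1, hr⟩ := ev ((-s - (d.py (rc q)).re) / (d.px (rc q)).re, 1) _ hl δ d0
    have h4 := hm.self_of_nhds 0 r (by simpa using d0.le) (by rw [abs_of_pos r0]; exact r1.le) r0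
    have h5 : (d.p (rc q)).re = 0 := (h0 q).self_of_nhds qf
    simp only [zero_smul, add_zero, Pi.smul_apply, smul_eq_mul, h5, mul_zero] at h4
    exact up _ one_pos r r0 (hr.1.2 (by linarith))
  · by_contra hn
    push Not at hn
    obtain ⟨⟨a, aK, ha⟩, b, bK, hb⟩ := hn
    have p : 0 < a.2 - b.2 := by linarith
    have ne : a - b ≠ 0 := fun h => by
      have := congrArg Prod.snd h
      simp only [Prod.snd_sub, Prod.snd_zero] at this
      linarith
    have m := mid hs (q := b) ne (a := 0) (b := (q.2 - b.2) / (a.2 - b.2)) (c := 1)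
      (div_pos (by linarith) p) (by rw [div_lt_one p]; linarith) (by simpa using bK)
      (by simpa using aK)
    obtain ⟨z, hz⟩ : ∃ z, z = b + ((q.2 - b.2) / (a.2 - b.2)) • (a - b) := ⟨_, rfl⟩
    rw [← hz] at m
    have z2 : (z - q).2 = 0 := by
      rw [hz]
      simp only [Prod.snd_sub, Prod.snd_add, Prod.smul_snd, smul_eq_mul]
      field_simp
      ring
    refine tr q hq (z - q) (fun h => hq.2 ?_) (by simpa using interior_subset m) ?_
    · rwa [sub_eq_zero.1 h] at m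
    · rw [hx, z2]
      simp

end Pool.Agent.AO
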