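import Mathlib

set_option autoImplicit false

namespace Pool.Agent.Lib.AO.Ent66

open Complex Metric Set Filter Topology

/-- division of an entire function by an entire function with simple zeros -/
theorem exists_div {f s : ℂ → ℂ} (hf : Differentiable ℂ f) (hs : Differentiable ℂ s)
    (h0 : ∀ z, s z = 0 → f z = 0) (h1 : ∀ z, s z = 0 → deriv s z ≠ 0) :
    ∃ g : ℂ → ℂ, Differentiable ℂ g ∧ ∀ z, f z = g z * s z := by
  classical
  refine ⟨fun z => if s z = 0 then deriv f z / deriv s z else f z / s z, fun c => ?_, fun z => ?_⟩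
  · by_cases hc : s c = 0
    · have df : Differentiable ℂ (dslope f c) := by
        rw [← differentiableOn_univ] at hf ⊢
        exact (differentiableOn_dslope univ_mem).2 hf
      have ds : Differentiable ℂ (dslope s c) := by
        rw [← differentiableOn_univ] at hs ⊢
        exact (differentiableOn_dslope univ_mem).2 hs
      have n0 : dslope s c c ≠ 0 := by rw [dslope_same]; exact h1 c hc
      refine ((df c).div (ds c) n0).congr_of_eventuallyEq ?_
      filter_upwards [ds.continuous.continuousAt.eventually_ne n0] with z hz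
      by_cases hzc : z = c
      · subst hzc
        simp [hc, dslope_same]
      · have e1 : s z = (z - c) * dslope s c z := by
          have := sub_smul_dslope s c z
          rw [hc, sub_zero, smul_eq_mul] at this
          exact this.symm
        have e2 : f z = (z - c) * dslope f c z := by
          have := sub_smul_dslope f c z
          rw [h0 c hc, sub_zero, smul_eq_mul] at this
          exact this.symm
        have zc : z - c ≠ 0 := sub_ne_zero.2 hzc
        have sz : s z ≠ 0 := by rw [e1]; exact mul_ne_zero zc hz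
        simp only [sz, if_false, Pi.div_apply]
        rw [e1, e2, mul_div_mul_left _ _ zc]
    · refine ((hf c).div (hs c) hc).congr_of_eventuallyEq ?_
      filter_upwards [hs.continuous.continuousAt.eventually_ne hc] with z hz
      simp [hz]
  · by_cases hz : s z = 0
    · simp [hz, h0 z hz]
    · simp [hz]

/-- a continuous function with a real period is bounded on a horizontal strip -/
theorem bdd_strip {g : ℂ → ℂ} (hg : Continuous g) {T : ℝ} (hT : 0 < T)
    (hp : ∀ z, g (z + T) = g z) (h : ℝ) : ∃ M : ℝ, ∀ z : ℂ, |z.im| ≤ h → ‖g z‖ ≤ M := by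
  obtain ⟨M, hM⟩ := (isCompact_closedBall (0 : ℂ) (T + h)).exists_bound_of_continuousOn
    hg.continuousOn
  refine ⟨M, fun z hz => ?_⟩
  have per : Function.Periodic g (T : ℂ) := hp
  have e := per.sub_int_mul_eq (x := z) ⌊z.re / T⌋
  rw [← e]
  refine hM _ (mem_closedBall_zero_iff.2 ((norm_le_abs_re_add_abs_im _).trans (add_le_add ?_ ?_)))
  · have a := Int.floor_le (z.re / T)
    have b := Int.lt_floor_add_one (z.re / T)
    rw [le_div_iff₀ hT] at a
    rw [div_lt_iff₀ hT] at b
    have : (z - (⌊z.re / T⌋ : ℂ) * T).re = z.re - ⌊z.re / T⌋ * T := by simp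
    rw [this, abs_le]
    constructor <;> nlinarith
  · simpa using hz

/-- two independent periods -/
theorem const_of_two_periods {g : ℂ → ℂ} (hg : Differentiable ℂ g) {T : ℝ} (hT : 0 < T) {p : ℂ}
    (hp : ∀ z, g (z + T) = g z) (hq : ∀ z, g (z + p) = g z) (hi : p.im ≠ 0) (z w : ℂ) :
    g z = g w := by
  obtain ⟨M, hM⟩ := bdd_strip hg.continuous hT hp |p.im|
  refine hg.apply_eq_apply_of_bounded (isBounded_iff_forall_norm_le.2 ⟨M, ?_⟩) z w
  rintro _ ⟨x, rfl⟩
  have per : Function.Periodic g p := hq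
  rw [← per.sub_int_mul_eq (x := x) ⌊x.im / p.im⌋]
  refine hM _ ?_
  have a := Int.fract_nonneg (x.im / p.im)
  have b := (Int.fract_lt_one (x.im / p.im)).le
  have : (x - (⌊x.im / p.im⌋ : ℂ) * p).im = Int.fract (x.im / p.im) * p.im := by
    rw [Int.fract, sub_mul, div_mul_cancel₀ _ hi]; simp
  rw [this, abs_mul, abs_of_nonneg a]
  exact mul_le_of_le_one_left (abs_nonneg _) b

/-- zero free entire functions of exponential type have constant logarithmic derivative -/
theorem logDeriv_const {g : ℂ → ℂ} (hg : Differentiable ℂ g) (h0 : ∀ z, g z ≠ 0) {C : ℝ}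
    (hC : 0 < C) (hb : ∀ z, ‖g z‖ ≤ Real.exp (C * (1 + ‖z‖))) (z w : ℂ) :
    deriv g z / g z = deriv g w / g w := by
  have hd : Differentiable ℂ fun z => deriv g z / g z := hg.deriv.div hg h0
  obtain ⟨h, hh⟩ := hd.isExactOn_univ
  have hh' : ∀ z, HasDerivAt h (deriv g z / g z) z := fun z => hh z (mem_univ _)
  have dh : Differentiable ℂ h := fun z => (hh' z).differentiableAt
  refine hd.apply_eq_apply_of_bounded (isBounded_iff_forall_norm_le.2 ⟨8 * C, ?_⟩) z w
  rintro _ ⟨c, rfl⟩
  have k : ∀ x, g x * exp (-h x) = g c * exp (-h c) := by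
    intro x
    refine is_const_of_deriv_eq_zero (f := fun x => g x * exp (-h x)) (by fun_prop) (fun y => ?_) x c
    have := ((hg y).hasDerivAt.mul (hh' y).neg.cexp).deriv
    refine this.trans ?_
    have := h0 y
    simp only [Pi.neg_apply]
    field_simp
    ring
  have re : ∀ x, (h x - h c).re ≤ C * (1 + ‖x‖) - Real.log ‖g c‖ := by
    intro x
    have e : g x = g c * exp (h x - h c) := by
      have := k x
      rw [sub_eq_add_neg, exp_add]
      calc g x = g x * exp (-h x) * exp (h x) := by rw [mul_assoc, ← exp_add]; simp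
        _ = _ := by rw [this]; ring
    have n := hb x
    rw [e, norm_mul, norm_exp] at n
    have p : 0 < ‖g c‖ := norm_pos_iff.2 (h0 c)
    have := Real.log_le_log (by positivity) n
    rw [Real.log_mul p.ne' (Real.exp_pos _).ne', Real.log_exp, Real.log_exp] at this
    linarith
  set R : ℝ := (C * (1 + ‖c‖) + |Real.log ‖g c‖|) / C with hR
  have R0 : 0 < R := by positivity
  have RC : C * R = C * (1 + ‖c‖) + |Real.log ‖g c‖| := by rw [hR]; field_simp
  have bc : ∀ y ∈ sphere c (R / 2), ‖h y - h c‖ ≤ 4 * C * R := by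
    intro y hy
    have ny : ‖y - c‖ = R / 2 := by simpa [dist_eq_norm] using hy
    have := borelCaratheodory_zero (f := fun u => h (u + c) - h c) (M := 2 * C * R) (R := R)
      (z := y - c) (by positivity) (by fun_prop) (fun u hu => ?_) R0
      (mem_ball_zero_iff.2 (by rw [ny]; linarith)) (by simp)
    · simp only [sub_add_cancel] at this
      refine this.trans (le_of_eq ?_)
      rw [ny]
      field_simp
      ring
    · have a := re (u + c)
      have b := norm_add_le u c
      have d := (mem_ball_zero_iff.1 hu).le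
      have e := neg_abs_le (Real.log ‖g c‖)
      show (h (u + c) - h c).re ≤ _
      nlinarith
  have := norm_deriv_le_of_forall_mem_sphere_norm_le (f := fun y => h y - h c) (half_pos R0)
    (Differentiable.diffContOnCl (by fun_prop)) bc
  rw [deriv_sub_const, (hh' c).deriv] at this
  refine this.trans (le_of_eq ?_)
  field_simp
  ring

/-- an even zero free entire function of exponential type is constant -/
theorem const_of_even {g : ℂ → ℂ} (hg : Differentiable ℂ g) (h0 : ∀ z, g z ≠ 0) {C : ℝ}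
    (hC : 0 < C) (hb : ∀ z, ‖g z‖ ≤ Real.exp (C * (1 + ‖z‖))) (he : ∀ z, g (-z) = g z) (z : ℂ) :
    g z = g 0 := by
  have d0 : deriv g 0 = 0 := by
    have a : deriv (fun z => g (-z)) 0 = -deriv g (-0) := deriv_comp_neg g 0
    rw [funext he, neg_zero] at a
    have : (2 : ℂ) * deriv g 0 = 0 := by linear_combination a
    simpa using this
  refine is_const_of_deriv_eq_zero hg (fun y => ?_) z 0
  have := logDeriv_const hg h0 hC hb y 0
  rw [d0, zero_div, div_eq_zero_iff] at this
  exact this.resolve_right (h0 y)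

theorem abs_im_le_norm_sin (z : ℂ) : |z.im| ≤ ‖sin z‖ := by
  have e : sin z = (exp (-z * I) - exp (z * I)) * I / 2 := rfl
  have a := abs_norm_sub_norm_le (exp (-z * I)) (exp (z * I))
  rw [norm_exp, norm_exp] at a
  have r1 : (-z * I).re = z.im := by simp
  have r2 : (z * I).re = -z.im := by simp
  rw [r1, r2] at a
  have n : ‖sin z‖ = ‖exp (-z * I) - exp (z * I)‖ / 2 := by rw [e]; simp
  have s : Real.exp z.im - Real.exp (-z.im) = 2 * Real.sinh z.im := by rw [Real.sinh_eq]; ring
  rw [s, abs_mul, abs_two, Real.abs_sinh] at a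
  have := Real.self_le_sinh_iff.2 (abs_nonneg z.im)
  linarith

theorem norm_cos_le (z : ℂ) : ‖cos z‖ ≤ 1 + ‖sin z‖ := by
  have e : cos z ^ 2 = 1 - sin z ^ 2 := cos_sq' z
  have a := norm_sub_le (1 : ℂ) (sin z ^ 2)
  rw [← e, norm_pow, norm_pow, norm_one] at a
  refine abs_le_of_sq_le_sq' ?_ (by positivity) |>.2
  nlinarith [norm_nonneg (sin z)]

/-- Gronwall along rays -/
theorem growth {Y w : ℂ → ℂ} (hY : ∀ z, HasDerivAt Y (w z) z) {C : ℝ} (hC : 0 < C)
    (hb : ∀ z, ‖w z‖ ≤ C * (1 + ‖Y z‖)) (z : ℂ) :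
    1 + ‖Y z‖ ≤ (1 + ‖Y 0‖) * Real.exp (C * ‖z‖) := by
  by_cases hz : z = 0
  · simp [hz]
  have nz : 0 < ‖z‖ := norm_pos_iff.2 hz
  have hd : ∀ t : ℝ, HasDerivAt (fun t : ℝ => Y (t * z)) (w (t * z) * z) t := by
    intro t
    have a : HasDerivAt (fun u : ℂ => Y (u * z)) (w (t * z) * z) (t : ℂ) := by
      have := (hY (t * z)).comp (t : ℂ) ((hasDerivAt_id' (t : ℂ)).mul_const z)
      rw [one_mul] at this
      exact this
    exact a.comp_ofReal
  have := norm_le_gronwallBound_of_norm_deriv_right_le (f := fun t : ℝ => Y (t * z))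
    (f' := fun t : ℝ => w (t * z) * z) (δ := ‖Y 0‖) (K := C * ‖z‖) (ε := C * ‖z‖) (a := 0) (b := 1)
    (fun t _ => (hd t).continuousAt.continuousWithinAt)
    (fun t _ => (hd t).hasDerivWithinAt) (by simp)
    (fun t _ => by
      rw [norm_mul]
      have := mul_le_mul_of_nonneg_right (hb (t * z)) nz.le
      linarith) 1 ⟨zero_le_one, le_rfl⟩
  rw [gronwallBound_of_K_ne_0 (by positivity), div_self (by positivity)] at this
  simp only [ofReal_one, one_mul, sub_zero, mul_one] at this
  linarith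

/-- quotient by `sin (om z)` of a periodic entire function vanishing at the half periods -/
theorem exists_div_sin {f : ℂ → ℂ} (hf : Differentiable ℂ f) {T : ℝ} (hT : 0 < T)
    (hp : ∀ z, f (z + T) = f z) (h0 : f 0 = 0) (h1 : f (T / 2) = 0) :
    ∃ g : ℂ → ℂ, Differentiable ℂ g ∧ (∀ z, f z = g z * sin (2 * Real.pi / T * z)) ∧
      (∀ z, g (z + T) = g z) ∧ ∀ e : ℂ, (∀ z, f (-z) = -e * f z) → ∀ z, g (-z) = e * g z := by
  have T0 : (T : ℂ) ≠ 0 := ofReal_ne_zero.2 hT.ne'
  have pi0 : (Real.pi : ℂ) ≠ 0 := ofReal_ne_zero.2 Real.pi_ne_zero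
  have hs : Differentiable ℂ fun z : ℂ => sin (2 * Real.pi / T * z) := by fun_prop
  have per : Function.Periodic f (T : ℂ) := hp
  have s1 : ∀ z : ℂ, sin (2 * Real.pi / T * z) = 0 → f z = 0 := by
    intro z hz
    obtain ⟨k, hk⟩ := sin_eq_zero_iff.1 hz
    have ez : z = k * (T / 2) := by
      field_simp at hk ⊢
      linear_combination hk
    obtain ⟨j, hj | hj⟩ := Int.even_or_odd' k
    · rw [ez, hj, show (((2 * j : ℤ) : ℂ) * (T / 2)) = 0 + j * T by push_cast; ring,
        per.int_mul j, h0]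
    · rw [ez, hj, show (((2 * j + 1 : ℤ) : ℂ) * (T / 2)) = T / 2 + j * T by push_cast; ring,
        per.int_mul j, h1]
  have s2 : ∀ z : ℂ, sin (2 * Real.pi / T * z) = 0 →
      deriv (fun z : ℂ => sin (2 * Real.pi / T * z)) z ≠ 0 := by
    intro z hz
    have d : HasDerivAt (fun z : ℂ => sin (2 * Real.pi / T * z))
        (cos (2 * Real.pi / T * z) * (2 * Real.pi / T * 1)) z :=
      ((hasDerivAt_id' z).const_mul _).csin
    rw [d.deriv]
    refine mul_ne_zero (fun hc => ?_) (by simp [T0])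
    have := sin_sq_add_cos_sq (2 * Real.pi / T * z)
    rw [hz, hc] at this
    simp at this
  obtain ⟨g, hg, e⟩ := exists_div hf hs s1 s2
  · have can : ∀ k : ℂ → ℂ, Differentiable ℂ k → (∀ z, k z * sin (2 * Real.pi / T * z) = 0) →
        ∀ z, k z = 0 := by
      intro k hk hz z
      have := AnalyticOnNhd.eq_zero_or_eq_zero_of_mul_eq_zero (U := univ)
        (hk.differentiableOn.analyticOnNhd isOpen_univ)
        (hs.differentiableOn.analyticOnNhd isOpen_univ) (fun z _ => hz z) isPreconnected_univ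
      refine this.elim (fun h => h z (mem_univ _)) fun h => ?_
      have a := h (T / 4) (mem_univ _)
      rw [show (2 * Real.pi / T * (T / 4) : ℂ) = Real.pi / 2 by field_simp; ring, sin_pi_div_two] at a
      exact absurd a one_ne_zero
    refine ⟨g, hg, e, fun z => sub_eq_zero.1 (can (fun z => g (z + T) - g z) (by fun_prop)
      (fun z => ?_) z), fun c hc z => sub_eq_zero.1 (can (fun z => g (-z) - c * g z) (by fun_prop)
      (fun z => ?_) z)⟩
    · have a := e (z + T)
      rw [hp, show (2 * Real.pi / T * (z + T) : ℂ) = 2 * Real.pi / T * z + 2 * Real.pi by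
        field_simp, sin_add_two_pi] at a
      linear_combination e z - a
    · have a := e (-z)
      rw [hc, mul_neg, sin_neg, e z] at a
      linear_combination a

theorem le_norm_sin {T : ℝ} (hT : 0 < T) {z : ℂ} (hz : T ≤ |z.im|) :
    1 ≤ ‖sin (2 * Real.pi / T * z)‖ := by
  refine le_trans ?_ (abs_im_le_norm_sin _)
  have : (2 * Real.pi / T * z : ℂ).im = 2 * Real.pi / T * z.im := by
    rw [show (2 * Real.pi / T : ℂ) = ((2 * Real.pi / T : ℝ) : ℂ) by push_cast; rfl, im_ofReal_mul]
  rw [this, abs_mul, abs_of_pos (by positivity), div_mul_eq_mul_div, le_div_iff₀ hT]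
  nlinarith [Real.pi_gt_three]

/-- the entire case: the flow is trigonometric -/
theorem trig {A B Y : ℂ → ℂ} {T C : ℝ} (hT : 0 < T) (hA : Differentiable ℂ A)
    (hB : Differentiable ℂ B) (hY : ∀ z, HasDerivAt Y (A z - B z) z)
    (gA : ∀ z, ‖A z‖ ≤ C * (1 + ‖Y z‖)) (gB : ∀ z, ‖B z‖ ≤ C * (1 + ‖Y z‖))
    (sym : ∀ z, A (-z) = B z) (pA : ∀ z, A (z + T) = A z) (pB : ∀ z, B (z + T) = B z)
    (half : A (T / 2) = B (T / 2)) (zero : ∀ z, A z = B z → ∃ k : ℤ, z = k * (T / 2))
    (simple : ∀ z, A z = B z → deriv A z ≠ deriv B z) :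
    ∃ c al be y0 : ℂ, c ≠ 0 ∧ ∀ z, A z - B z = c * sin (2 * Real.pi / T * z) ∧
      A z + B z = al + be * cos (2 * Real.pi / T * z) ∧
      Y z = y0 - c / (2 * Real.pi / T) * cos (2 * Real.pi / T * z) := by
  have T0 : (T : ℂ) ≠ 0 := ofReal_ne_zero.2 hT.ne'
  have pi0 : (Real.pi : ℂ) ≠ 0 := ofReal_ne_zero.2 Real.pi_ne_zero
  have sym' : ∀ z, B (-z) = A z := fun z => by rw [← sym, neg_neg]
  have z0 : A 0 = B 0 := by simpa using sym 0
  have C1 : 0 < |C| + 1 := by positivity
  have up : ∀ z, C * (1 + ‖Y z‖) ≤ (|C| + 1) * (1 + ‖Y z‖) := fun z =>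
    mul_le_mul_of_nonneg_right (by linarith [le_abs_self C]) (by positivity)
  obtain ⟨g, hg, e, gp, ge⟩ := exists_div_sin (f := fun z => A z - B z) (hA.sub hB) hT
    (fun z => by simp only [pA, pB]) (sub_eq_zero.2 z0) (sub_eq_zero.2 half)
  have gev : ∀ z, g (-z) = g z := fun z => by
    simpa using ge 1 (fun z => by simp only [sym, sym']; ring) z
  have g0 : ∀ z, g z ≠ 0 := by
    intro z hz
    have wz : A z = B z := sub_eq_zero.1 (by rw [e z, hz, zero_mul])
    obtain ⟨k, hk⟩ := zero z wz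
    have sz : sin (2 * Real.pi / T * z) = 0 :=
      sin_eq_zero_iff.2 ⟨k, by rw [hk]; field_simp⟩
    refine simple z wz (sub_eq_zero.1 ?_)
    have hs : DifferentiableAt ℂ (fun z : ℂ => sin (2 * Real.pi / T * z)) z := by fun_prop
    rw [← deriv_fun_sub (hA z) (hB z), funext e, deriv_fun_mul (hg z) hs, hz, sz]
    ring
  have wb : ∀ z, ‖A z - B z‖ ≤ 2 * (|C| + 1) * (1 + ‖Y z‖) := fun z => by
    linarith [norm_sub_le (A z) (B z), gA z, gB z, up z]
  obtain ⟨M, hM⟩ := bdd_strip hg.continuous hT gp T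
  have gc : ∀ z, g z = g 0 := by
    set K : ℝ := 2 * (|C| + 1) * (1 + ‖Y 0‖) + |M| with hK
    have K0 : 2 * (|C| + 1) ≤ K := by nlinarith [norm_nonneg (Y 0), abs_nonneg M]
    refine const_of_even hg g0 (C := K) (by linarith) (fun z => ?_) gev
    have k1 : K ≤ Real.exp K := by linarith [Real.add_one_le_exp K]
    have k2 : Real.exp (2 * (|C| + 1) * ‖z‖) ≤ Real.exp (K * ‖z‖) := by gcongr
    have k3 : 1 ≤ Real.exp (K * ‖z‖) := Real.one_le_exp (mul_nonneg (by linarith) (norm_nonneg _))
    rw [mul_add, mul_one, Real.exp_add]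
    refine le_trans ?_ (mul_le_mul_of_nonneg_right k1 (by positivity))
    rcases le_total |z.im| T with h | h
    · have : M ≤ K := by nlinarith [norm_nonneg (Y 0), le_abs_self M]
      nlinarith [hM z h]
    · have a := growth hY (by positivity) wb z
      have b := le_norm_sin hT h
      have d := wb z
      rw [e z, norm_mul] at d
      calc ‖g z‖ ≤ ‖g z‖ * ‖sin (2 * Real.pi / T * z)‖ := le_mul_of_one_le_right (norm_nonneg _) b
        _ ≤ 2 * (|C| + 1) * ((1 + ‖Y 0‖) * Real.exp (2 * (|C| + 1) * ‖z‖)) :=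
          d.trans (mul_le_mul_of_nonneg_left a (by positivity))
        _ = 2 * (|C| + 1) * (1 + ‖Y 0‖) * Real.exp (2 * (|C| + 1) * ‖z‖) := by ring
        _ ≤ K * Real.exp (K * ‖z‖) := by
          exact mul_le_mul (by linarith [abs_nonneg M]) k2 (by positivity) (by linarith)
  set c := g 0
  have ew : ∀ z, A z - B z = c * sin (2 * Real.pi / T * z) := fun z => by rw [← gc z]; exact e z
  set y0 := Y 0 + c / (2 * Real.pi / T) with hy0
  have eY : ∀ z, Y z = y0 - c / (2 * Real.pi / T) * cos (2 * Real.pi / T * z) := by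
    intro z
    have d : ∀ z, HasDerivAt (fun z => Y z + c / (2 * Real.pi / T) * cos (2 * Real.pi / T * z))
        (A z - B z + c / (2 * Real.pi / T) * (-sin (2 * Real.pi / T * z) * (2 * Real.pi / T * 1)))
        z := fun z => (hY z).add (((hasDerivAt_id' z).const_mul _).ccos.const_mul _)
    have := is_const_of_deriv_eq_zero (fun z => (d z).differentiableAt) (fun z => by
      rw [(d z).deriv, ew]; field_simp; ring) z 0
    simp only [mul_zero, cos_zero, mul_one] at this
    rw [hy0, ← this]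
    ring
  set al := (A 0 + B 0 + (A (T / 2) + B (T / 2))) / 2 with hal
  set be := (A 0 + B 0 - (A (T / 2) + B (T / 2))) / 2 with hbe
  obtain ⟨k, hk, ek, kp, ke⟩ := exists_div_sin
    (f := fun z => A z + B z - (al + be * cos (2 * Real.pi / T * z))) (by fun_prop) hT
    (fun z => by
      simp only [pA, pB]
      rw [show (2 * Real.pi / T * (z + T) : ℂ) = 2 * Real.pi / T * z + 2 * Real.pi by
        field_simp, cos_add_two_pi])
    (by simp only [mul_zero, cos_zero]; rw [hal, hbe]; ring)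
    (by
      rw [show (2 * Real.pi / T * (T / 2) : ℂ) = Real.pi by field_simp, cos_pi, hal, hbe]; ring)
  have k0 : k 0 = 0 := by
    have := ke (-1) (fun z => by simp only [sym, sym', mul_neg, cos_neg]; ring) 0
    rw [neg_zero] at this
    linear_combination this / 2
  obtain ⟨N, hN⟩ := bdd_strip hk.continuous hT kp T
  set P : ℝ := 2 * (|C| + 1) * (1 + ‖y0‖) + ‖al‖ with hP
  set Q : ℝ := 2 * (|C| + 1) * ‖c / (2 * Real.pi / T)‖ + ‖be‖ with hQ
  have kc : ∀ z, k z = k 0 := by
    refine fun z => hk.apply_eq_apply_of_bounded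
      (isBounded_iff_forall_norm_le.2 ⟨max N (P + 2 * Q), ?_⟩) z 0
    rintro _ ⟨z, rfl⟩
    rcases le_total |z.im| T with h | h
    · exact (hN z h).trans (le_max_left _ _)
    refine le_trans ?_ (le_max_right _ _)
    have b := le_norm_sin hT h
    have cb := norm_cos_le (2 * Real.pi / T * z)
    have y1 : ‖Y z‖ ≤ ‖y0‖ + ‖c / (2 * Real.pi / T)‖ * ‖cos (2 * Real.pi / T * z)‖ := by
      rw [eY z, ← norm_mul]; exact norm_sub_le _ _
    have f1 : ‖k z‖ * ‖sin (2 * Real.pi / T * z)‖ ≤ P + Q * ‖cos (2 * Real.pi / T * z)‖ := by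
      rw [← norm_mul, ← ek z]
      have a1 := norm_sub_le (A z + B z) (al + be * cos (2 * Real.pi / T * z))
      have a2 := norm_add_le (A z) (B z)
      have a3 := norm_add_le al (be * cos (2 * Real.pi / T * z))
      rw [norm_mul] at a3
      have a4 := mul_le_mul_of_nonneg_left y1 C1.le
      have a5 := gA z
      have a6 := gB z
      have a7 := up z
      rw [hP, hQ]
      linarith
    have P0 : 0 ≤ P := by positivity
    have Q0 : 0 ≤ Q := by positivity
    refine le_of_mul_le_mul_right (f1.trans ?_) (lt_of_lt_of_le one_pos b)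
    have := mul_le_mul_of_nonneg_left cb Q0
    nlinarith
  refine ⟨c, al, be, y0, g0 0, fun z => ⟨ew z, ?_, eY z⟩⟩
  have := ek z
  rw [kc z, k0, zero_mul] at this
  exact sub_eq_zero.1 this

/-- the zeros of `A - B` when every zero is a centre of the swap symmetry -/
theorem zeros {A B : ℂ → ℂ} {T : ℝ} (hT : 0 < T) (hA : Differentiable ℂ A)
    (hB : Differentiable ℂ B) (cen : ∀ z, A z = B z → ∀ u, A (z + u) = B (z - u))
    (z0 : A 0 = B 0) (half : A (T / 2) = B (T / 2))
    (first : ∀ t : ℝ, 0 < t → t < T / 2 → A t ≠ B t) :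
    (∀ z, A (-z) = B z) ∧ (∀ z, A (z + T) = A z) ∧ (∀ z, B (z + T) = B z) ∧
      ∀ z, A z = B z → ∃ k : ℤ, z = k * (T / 2) := by
  have sym : ∀ z, A (-z) = B z := fun z => by simpa using cen 0 z0 (-z)
  have sym' : ∀ z, B (-z) = A z := fun z => by rw [← sym, neg_neg]
  have qA : ∀ z, A z = B z → ∀ u, A (u + 2 * z) = A u := fun z hz u => by
    rw [show u + 2 * z = z + (u + z) by ring, cen z hz, show z - (u + z) = -u by ring, sym']
  have qB : ∀ z, A z = B z → ∀ u, B (u + 2 * z) = B u := fun z hz u => by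
    rw [← sym, ← qA z hz, show -(u + 2 * z) + 2 * z = -u by ring, sym]
  have pA : ∀ z, A (z + T) = A z := fun z => by
    rw [← qA _ half z]; congr 1; ring
  have pB : ∀ z, B (z + T) = B z := fun z => by
    rw [← qB _ half z]; congr 1; ring
  refine ⟨sym, pA, pB, fun z hz => ?_⟩
  have re : z.im = 0 := by
    by_contra hi
    have := const_of_two_periods (g := fun z => A z - B z) (hA.sub hB) hT (p := 2 * z)
      (fun u => by simp only [pA, pB]) (fun u => by simp only [qA z hz, qB z hz])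
      (by simpa using hi) ((T / 4 : ℝ) : ℂ) 0
    rw [z0, sub_self] at this
    exact first (T / 4) (by linarith) (by linarith) (sub_eq_zero.1 this)
  obtain ⟨x, rfl⟩ : ∃ x : ℝ, z = x := ⟨z.re, Complex.ext (by simp) (by simpa using re)⟩
  have perA : Function.Periodic A (T : ℂ) := pA
  have perB : Function.Periodic B (T : ℂ) := pB
  set k := ⌊x / T⌋
  have a : k * T ≤ x := (le_div_iff₀ hT).1 (Int.floor_le _)
  have b : x < (k + 1) * T := (div_lt_iff₀ hT).1 (Int.lt_floor_add_one _)
  have e : A ((x - k * T : ℝ) : ℂ) = B ((x - k * T : ℝ) : ℂ) := by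
    push_cast
    rw [perA.sub_int_mul_eq, perB.sub_int_mul_eq, hz]
  rcases a.eq_or_lt with a | a
  · exact ⟨2 * k, by rw [← a]; push_cast; ring⟩
  rcases lt_trichotomy (x - k * T) (T / 2) with c | c | c
  · exact absurd e (first _ (by linarith) c)
  · exact ⟨2 * k + 1, by rw [show x = k * T + T / 2 by linarith]; push_cast; ring⟩
  · refine absurd ?_ (first (T - (x - k * T)) (by linarith) (by linarith))
    rw [show ((T - (x - k * T) : ℝ) : ℂ) = -((x - k * T : ℝ) : ℂ) + T by push_cast; ring, pA, pB,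
      sym, sym', e]

/-- the entire case: the real trace of the flow is an ellipse -/
theorem ellipse {A B Y : ℂ → ℂ} {T C : ℝ} (hT : 0 < T) (hA : Differentiable ℂ A)
    (hB : Differentiable ℂ B) (hY : ∀ z, HasDerivAt Y (A z - B z) z)
    (gA : ∀ z, ‖A z‖ ≤ C * (1 + ‖Y z‖)) (gB : ∀ z, ‖B z‖ ≤ C * (1 + ‖Y z‖))
    (cen : ∀ z, A z = B z → ∀ u, A (z + u) = B (z - u))
    (z0 : A 0 = B 0) (half : A (T / 2) = B (T / 2))
    (first : ∀ t : ℝ, 0 < t → t < T / 2 → A t ≠ B t)
    (simple : ∀ z, A z = B z → deriv A z ≠ deriv B z)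
    (rA : ∀ t : ℝ, (A t).im = 0) :
    ∃ L : (ℝ × ℝ) ≃ᵃ[ℝ] (ℝ × ℝ), range (fun t : ℝ => ((A t).re, (Y t).re)) =
      L '' {p : ℝ × ℝ | p.1 ^ 2 + p.2 ^ 2 = 1} := by
  obtain ⟨sym, pA, pB, zero⟩ := zeros hT hA hB cen z0 half first
  obtain ⟨c, al, be, y0, c0, h⟩ := trig hT hA hB hY gA gB sym pA pB half zero simple
  have T0 : (T : ℂ) ≠ 0 := ofReal_ne_zero.2 hT.ne'
  have rB : ∀ t : ℝ, (B t).im = 0 := fun t => by rw [← sym, ← ofReal_neg, rA]
  set om : ℝ := 2 * Real.pi / T with hom
  have om0 : 0 < om := by positivity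
  have eo : (2 * Real.pi / T : ℂ) = om := by rw [hom]; push_cast; rfl
  simp only [eo] at h
  have ci : c.im = 0 := by
    have := congrArg im (h ((T / 4 : ℝ) : ℂ)).1
    rw [show (om * ((T / 4 : ℝ) : ℂ) : ℂ) = Real.pi / 2 by
      rw [← eo]; push_cast; field_simp; ring, sin_pi_div_two, mul_one, sub_im, rA, rB] at this
    linarith
  obtain ⟨d, rfl⟩ : ∃ d : ℝ, c = d := ⟨c.re, Complex.ext (by simp) (by simpa using ci)⟩
  have d0 : d ≠ 0 := ofReal_ne_zero.1 c0
  have eA : ∀ t : ℝ, (A t).re = al.re / 2 + (be.re / 2 * Real.cos (om * t) +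
      d / 2 * Real.sin (om * t)) := by
    intro t
    have a := congrArg re (h t).1
    have b := congrArg re (h t).2.1
    rw [← ofReal_mul, ← ofReal_sin, ← ofReal_mul, ofReal_re, sub_re] at a
    rw [← ofReal_mul, ← ofReal_cos, add_re, add_re, re_mul_ofReal] at b
    linarith
  have eY : ∀ t : ℝ, (Y t).re = y0.re - d / om * Real.cos (om * t) := by
    intro t
    have a := congrArg re (h t).2.2
    rwa [← ofReal_mul, ← ofReal_cos, ← ofReal_div, ← ofReal_mul, sub_re, ofReal_re] at a
  let M : (ℝ × ℝ) ≃ₗ[ℝ] (ℝ × ℝ) :=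
    { toFun := fun p => (be.re / 2 * p.1 + d / 2 * p.2, -(d / om) * p.1)
      invFun := fun q => (-(om / d) * q.2, 2 / d * (q.1 + be.re / 2 * (om / d) * q.2))
      map_add' := fun p q => Prod.ext (by simp; ring) (by simp; ring)
      map_smul' := fun r p => Prod.ext (by simp; ring) (by simp; ring)
      left_inv := fun p => Prod.ext (by simp only []; field_simp) (by simp only []; field_simp; ring)
      right_inv := fun p => Prod.ext (by simp only []; field_simp; ring) (by simp only []; field_simp) }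
  have hM : ∀ p : ℝ × ℝ, M p = (be.re / 2 * p.1 + d / 2 * p.2, -(d / om) * p.1) := fun _ => rfl
  refine ⟨M.toAffineEquiv.trans (AffineEquiv.constVAdd ℝ (ℝ × ℝ) (al.re / 2, y0.re)), ?_⟩
  ext q
  simp only [mem_range, mem_image, mem_ofPred_eq, AffineEquiv.trans_apply,
    LinearEquiv.coe_toAffineEquiv, AffineEquiv.constVAdd_apply, vadd_eq_add, hM, eA, eY,
    Prod.mk_add_mk]
  constructor
  · rintro ⟨t, rfl⟩
    exact ⟨(Real.cos (om * t), Real.sin (om * t)), Real.cos_sq_add_sin_sq _,
      Prod.ext rfl (by simp only []; ring)⟩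
  · rintro ⟨p, hp, rfl⟩
    have n : ‖(⟨p.1, p.2⟩ : ℂ)‖ = 1 := by
      rw [norm_eq_sqrt_sq_add_sq, hp, Real.sqrt_one]
    have n0 : (⟨p.1, p.2⟩ : ℂ) ≠ 0 := by rw [← norm_ne_zero_iff, n]; exact one_ne_zero
    refine ⟨arg ⟨p.1, p.2⟩ / om, ?_⟩
    rw [mul_div_cancel₀ _ om0.ne', cos_arg n0, sin_arg, n, div_one, div_one]
    exact Prod.ext rfl (by simp only []; ring)

end Pool.Agent.Lib.AO.Ent66
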