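import Pool.Agent.Lib.AO.Blue
import Pool.Agent.Lib.AO.Ent66

set_option autoImplicit false

namespace Pool.Agent.AO

open Set Metric Filter Topology ComplexConjugate

theorem st_ENT (hLIM : St_LIM) (hUNI : St_UNI) (hSYM : St_SYM) : St_ENT := by
  intro d T Φ C hG hP hR
  have hT := hP.Tp
  have df : Differentiable ℂ Φ := differentiableOn_univ.1 hP.sol.df
  obtain ⟨c, -, hc⟩ := hG.g1
  have first : ∀ t : ℝ, 0 < t → t < T / 2 → fA Φ t ≠ fB Φ t := by
    intro t h0 h1 e
    obtain ⟨k, hk⟩ := (hP.zer t).1 e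
    have a : (0 : ℝ) < k := by
      by_contra h
      nlinarith [not_lt.1 h]
    have b : (k : ℝ) < 1 := by
      by_contra h
      nlinarith [not_lt.1 h]
    have a' : 0 < k := by exact_mod_cast a
    have b' : k < 1 := by exact_mod_cast b
    omega
  have nz : NZ univ Φ := ⟨((T / 4 : ℝ) : ℂ), mem_univ _, first _ (by linarith) (by linarith)⟩
  have fix : ∀ z, fA Φ z = fB Φ z → sw (Φ z) = Φ z := fun z e =>
    Prod.ext e.symm (Prod.ext e rfl)
  have reg : ∀ z, fA Φ z = fB Φ z → Reg d (Φ z) ∧ d.py (fA Φ z, fY Φ z) ≠ 0 := by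
    intro z e
    obtain ⟨σ, h1, -, h2, -⟩ := hLIM d univ Φ hG hP.sol convex_univ nz z (by simp)
    rw [nhdsWithin_univ] at h1
    obtain rfl : σ = Φ z := tendsto_nhds_unique h1 (df z).continuousAt
    exact h2 e
  obtain ⟨L, hL⟩ := Pool.Agent.Lib.AO.Ent66.ellipse (A := fA Φ) (B := fB Φ) (Y := fY Φ) (C := c) hT
    df.fst df.snd.fst (fun z => hP.sol.dY z (mem_univ _))
    (fun z => hc _ _ (hP.sol.pA z (mem_univ _))) (fun z => hc _ _ (hP.sol.pB z (mem_univ _)))
    (fun z e u => by
      have s : Sol d univ fun τ => sw (Φ (2 * z - τ)) :=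
        (hSYM d univ Φ hP.sol).2.2.1 (2 * z)
      have := hUNI d univ Φ _ z hP.sol s isPreconnected_univ (mem_univ _)
        (by rw [show 2 * z - z = z by ring, fix z e]) (reg z e).1 (mem_univ (z + u))
      simp only [show 2 * z - (z + u) = z - u by ring] at this
      exact congrArg Prod.fst this)
    (by simpa using (hP.zer 0).2 ⟨0, by simp⟩) (by simpa using (hP.zer (T / 2)).2 ⟨1, by simp⟩)
    first
    (fun z e h => by
      have a := hP.sol.dA z (mem_univ _)
      have b := hP.sol.dB z (mem_univ _)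
      rw [fix z e, ← h, a, ← e] at b
      exact (reg z e).2 (by linear_combination -b / 2))
    (fun t => by
      have := congrArg Prod.fst (hP.cnj t (mem_univ _))
      rw [Complex.conj_ofReal] at this
      exact Complex.conj_eq_iff_im.1 this.symm)
  refine ⟨L, hL ▸ Subset.antisymm (fun q hq => ?_) ?_⟩
  · obtain ⟨t, ht⟩ := hR.2 q hq
    exact ⟨t, ht.symm⟩
  · rintro _ ⟨t, rfl⟩
    exact (hR.1 t).1

end Pool.Agent.AO
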