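import Pool.Agent.Lib.AO.Blue

set_option autoImplicit false

noncomputable section

namespace Pool.Agent.AO

open Set Metric Filter Topology

namespace FAR

variable {d : Dat} {D : Set ℂ} {Φ : ℂ → S3}

/-- The equation of a chord near the diagonal. -/
def K (d : Dat) (Φ : ℂ → S3) (x : ℂ × ℂ × ℂ) : ℂ :=
  d.D (fA Φ x.1, fB Φ x.2.1, fY Φ x.2.1) +
    x.2.2 * d.J (fA Φ x.1, fY Φ x.2.1 + x.2.2 * (fA Φ x.1 - fB Φ x.2.1), fY Φ x.2.1)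

theorem mulK (τ μ r : ℂ) : (fA Φ μ - fB Φ τ) * K d Φ (μ, τ, r) =
    d.p (fA Φ μ, fY Φ τ + r * (fA Φ μ - fB Φ τ)) - d.p (fB Φ τ, fY Φ τ) := by
  have h1 := d.hD (fA Φ μ) (fB Φ τ) (fY Φ τ)
  have h2 := d.hJ (fA Φ μ) (fY Φ τ + r * (fA Φ μ - fB Φ τ)) (fY Φ τ)
  simp only [K]
  linear_combination -h1 - h2

theorem Kdiag {τ μ : ℂ} (r : ℂ) (e : fA Φ μ = fB Φ τ) :
    K d Φ (μ, τ, r) = d.px (fB Φ τ, fY Φ τ) + r * d.py (fB Φ τ, fY Φ τ) := by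
  simp only [K, e, sub_self, mul_zero, add_zero, d.Dd, d.Jd]

theorem K_of_rel (hs : Sol d D Φ) {τ μ r : ℂ} (hτ : τ ∈ D) (hμ : μ ∈ D) (h : Rel d Φ τ μ r) :
    K d Φ (μ, τ, r) = 0 := by
  by_cases e : fA Φ μ = fB Φ τ
  · rw [Kdiag r e]; exact h.2 e
  · have h1 := mulK (d := d) (Φ := Φ) τ μ r
    have h2 : fY Φ τ + r * (fA Φ μ - fB Φ τ) = fY Φ μ := by linear_combination -h.1
    rw [h2, hs.pA μ hμ, hs.pB τ hτ, sub_self] at h1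
    exact (mul_eq_zero.1 h1).resolve_left (sub_ne_zero.2 e)

theorem rel_of_K (hs : Sol d D Φ) {τ μ r : ℂ} (hτ : τ ∈ D) (hμ : μ ∈ D)
    (h : K d Φ (μ, τ, r) = 0)
    (hJ : d.J (fA Φ μ, fY Φ τ + r * (fA Φ μ - fB Φ τ), fY Φ μ) ≠ 0) : Rel d Φ τ μ r := by
  refine ⟨?_, fun e => by rw [← Kdiag r e]; exact h⟩
  have h1 := mulK (d := d) (Φ := Φ) τ μ r
  rw [h, hs.pB τ hτ, mul_zero, sub_zero] at h1
  have h2 := d.hJ (fA Φ μ) (fY Φ τ + r * (fA Φ μ - fB Φ τ)) (fY Φ μ)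
  rw [← h1, hs.pA μ hμ, sub_self] at h2
  have h3 := (mul_eq_zero.1 h2.symm).resolve_right hJ
  linear_combination -h3

theorem rel_self (hs : Sol d D Φ) {τ : ℂ} (hτ : τ ∈ D) : Rel d Φ τ τ 0 := by
  refine ⟨by simp, fun e => ?_⟩
  have h := hs.pD τ hτ
  have h2 : Φ τ = (fB Φ τ, fB Φ τ, fY Φ τ) := by rw [← e]; nth_rewrite 2 [e]; rfl
  rw [h2, d.Dd] at h
  simpa using h

theorem cd (hs : Sol d D Φ) {τ : ℂ} (hτ : τ ∈ D) : ContDiffAt ℂ 1 Φ τ :=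
  (hs.df.analyticAt (hs.op.mem_nhds hτ)).contDiffAt

theorem cA (hs : Sol d D Φ) {τ : ℂ} (hτ : τ ∈ D) : ContDiffAt ℂ 1 (fA Φ) τ := (cd hs hτ).fst
theorem cB (hs : Sol d D Φ) {τ : ℂ} (hτ : τ ∈ D) : ContDiffAt ℂ 1 (fB Φ) τ := (cd hs hτ).snd.fst
theorem cY (hs : Sol d D Φ) {τ : ℂ} (hτ : τ ∈ D) : ContDiffAt ℂ 1 (fY Φ) τ := (cd hs hτ).snd.snd
theorem dfA (hs : Sol d D Φ) {τ : ℂ} (hτ : τ ∈ D) : DifferentiableAt ℂ (fA Φ) τ :=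
  (cA hs hτ).differentiableAt one_ne_zero
theorem dfB (hs : Sol d D Φ) {τ : ℂ} (hτ : τ ∈ D) : DifferentiableAt ℂ (fB Φ) τ :=
  (cB hs hτ).differentiableAt one_ne_zero
theorem dfY (hs : Sol d D Φ) {τ : ℂ} (hτ : τ ∈ D) : DifferentiableAt ℂ (fY Φ) τ :=
  (cY hs hτ).differentiableAt one_ne_zero

theorem dDA (hs : Sol d D Φ) {τ : ℂ} (hτ : τ ∈ D) {φ : ℂ → ℂ} {φ' t : ℂ} (h0 : φ t = τ)
    (hφ : HasDerivAt φ φ' t) :
    HasDerivAt (fun s => d.D (fA Φ (φ s), fB Φ τ, fY Φ τ)) (-d.py (fA Φ τ, fY Φ τ) * φ') t := by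
  have h1 : HasDerivAt (fun s => fA Φ (φ s)) (deriv (fA Φ) τ * φ') t :=
    (h0 ▸ (dfA hs hτ).hasDerivAt : HasDerivAt (fA Φ) (deriv (fA Φ) τ) (φ t)).comp t hφ
  have h2 := d.dD _ _ _ _ _ _ t h1 (hasDerivAt_const t (fB Φ τ)) (hasDerivAt_const t (fY Φ τ))
  refine h2.congr_deriv ?_
  have h3 : d.E (fA Φ τ, fB Φ τ, fY Φ τ) * deriv (fA Φ) τ = _ := hs.dA τ hτ
  simp only [h0]
  linear_combination φ' * h3

theorem der_one (hs : Sol d D Φ) {τ : ℂ} (hτ : τ ∈ D)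
    (hd : fA Φ τ = fB Φ τ → d.py (fA Φ τ, fY Φ τ) ≠ 0) {φ : ℂ → ℂ} (h0 : φ 0 = τ)
    (hφ : DifferentiableAt ℂ φ 0) (hr : ∀ᶠ r in 𝓝 (0 : ℂ), Rel d Φ τ (φ r) r) :
    HasDerivAt φ 1 0 := by
  have hφ' := hφ.hasDerivAt
  have hA : DifferentiableAt ℂ (fun s => fA Φ (φ s)) 0 :=
    DifferentiableAt.comp (g := fA Φ) (f := φ) 0 (h0 ▸ dfA hs hτ) hφ
  suffices h : deriv φ 0 = 1 by rwa [h] at hφ'
  by_cases e : fA Φ τ = fB Φ τ
  · have hD : ∀ᶠ r in 𝓝 (0 : ℂ), φ r ∈ D :=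
      hφ.continuousAt.eventually (by rw [h0]; exact hs.op.mem_nhds hτ)
    have hJ : DifferentiableAt ℂ (fun s => d.J (fA Φ (φ s),
        fY Φ τ + s * (fA Φ (φ s) - fB Φ τ), fY Φ τ)) 0 :=
      (d.cJ.differentiable one_ne_zero _).comp 0 (by fun_prop)
    have h1 := (dDA hs hτ h0 hφ').add ((hasDerivAt_id (0 : ℂ)).mul hJ.hasDerivAt)
    have h2 : HasDerivAt (fun s => K d Φ (φ s, τ, s)) 0 0 :=
      (hasDerivAt_const (0 : ℂ) (0 : ℂ)).congr_of_eventuallyEq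
        ((hr.and hD).mono fun s h => K_of_rel hs hτ h.2 h.1)
    have h3 := h1.unique h2
    simp only [h0, id, zero_mul, add_zero, one_mul, d.Jd] at h3
    refine mul_left_cancel₀ (hd e) ?_
    linear_combination -h3
  · have h1 : HasDerivAt (fun s => fY Φ (φ s) - fY Φ τ) ((fA Φ τ - fB Φ τ) * deriv φ 0) 0 :=
      ((h0 ▸ hs.dY τ hτ : HasDerivAt (fY Φ) (fA Φ τ - fB Φ τ) (φ 0)).comp 0 hφ').sub_const _
    have h2 := (hasDerivAt_id (0 : ℂ)).mul (hA.hasDerivAt.sub_const (fB Φ τ))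
    have h3 := (h2.congr_of_eventuallyEq (hr.mono fun s h => h.1)).unique h1
    simp only [h0, id, zero_mul, add_zero, one_mul] at h3
    refine mul_left_cancel₀ (sub_ne_zero.2 e) ?_
    linear_combination -h3

/-- A local holomorphic half step. -/
def G (d : Dat) (D : Set ℂ) (Φ : ℂ → S3) (z : ℂ) (ρ σ : ℝ) : Prop :=
  ball z ρ ⊆ D ∧ ∃ g : ℂ × ℂ → ℂ, DifferentiableOn ℂ g (ball z ρ ×ˢ ball 0 ρ) ∧
    ∀ τ ∈ ball z ρ, ∀ r ∈ ball (0 : ℂ) ρ, g (τ, r) ∈ ball z σ ∧ Rel d Φ τ (g (τ, r)) r ∧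
      ∀ μ ∈ ball z ρ, Rel d Φ τ μ r → μ = g (τ, r)

theorem G.mono {z z' : ℂ} {ρ σ ρ' σ' : ℝ} (h : G d D Φ z ρ σ) (h1 : ball z' ρ' ⊆ ball z ρ)
    (h2 : ρ' ≤ ρ) (h3 : ball z σ ⊆ ball z' σ') : G d D Φ z' ρ' σ' := by
  obtain ⟨hD, g, hg, H⟩ := h
  refine ⟨h1.trans hD, g, hg.mono (prod_mono h1 (ball_subset_ball h2)), fun τ hτ r hr => ?_⟩
  obtain ⟨a, b, c⟩ := H τ (h1 hτ) r (ball_subset_ball h2 hr)
  exact ⟨h3 a, b, fun μ hμ => c μ (h1 hμ)⟩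

/-- The conclusion of the row. -/
def F (d : Dat) (Φ : ℂ → S3) (C : ℝ) (z : ℂ) (e : ℝ) : Prop :=
  ∃ g : ℂ × ℂ → ℂ, DifferentiableOn ℂ g (ball z (e / C) ×ˢ ball 0 (e / C)) ∧
    ∀ τ ∈ ball z (e / C), ∀ r ∈ ball (0 : ℂ) (e / C), Rel d Φ τ (g (τ, r)) r ∧
      (∀ μ ∈ ball z (3 * (e / C)), Rel d Φ τ μ r → μ = g (τ, r)) ∧
      ‖g (τ, r) - τ - r‖ ≤ C * ‖r‖ ^ 2 / e ∧
      ‖g (τ, r) - g (τ, -r) - 2 * r‖ ≤ C * ‖r‖ ^ 3 / e ^ 2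

theorem F.mono {z : ℂ} {C e C' e' : ℝ} (h : F d Φ C z e) (hC : 0 < C) (h1 : C ≤ C') (he : 0 < e')
    (h2 : e' ≤ e) : F d Φ C' z e' := by
  obtain ⟨g, hg, H⟩ := h
  have h3 : e' / C' ≤ e / C := by gcongr; linarith
  have hC' : 0 ≤ C' := by linarith
  refine ⟨g, hg.mono (prod_mono (ball_subset_ball h3) (ball_subset_ball h3)), fun τ hτ r hr => ?_⟩
  obtain ⟨a, b, c, f⟩ := H τ (ball_subset_ball h3 hτ) r (ball_subset_ball h3 hr)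
  refine ⟨a, fun μ hμ => b μ (ball_subset_ball (by linarith) hμ), c.trans ?_, f.trans ?_⟩
  · gcongr
  · gcongr

theorem G.toF (hS : St_SCH) (hs : Sol d D Φ)
    (hd : ∀ τ ∈ D, fA Φ τ = fB Φ τ → d.py (fA Φ τ, fY Φ τ) ≠ 0) {z : ℂ} {ρ σ C e : ℝ}
    (h : G d D Φ z ρ σ) (hρ : 0 < ρ) (h1 : 3 * (e / C) ≤ ρ)
    (h2 : (σ + 2 * ρ) / ρ ^ 2 ≤ C / e) (h3 : 2 * (σ + 2 * ρ) / ρ ^ 3 ≤ C / e ^ 2) :
    F d Φ C z e := by
  obtain ⟨hD, g, hg, H⟩ := h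
  have h4 : e / C ≤ ρ := by linarith
  refine ⟨g, hg.mono (prod_mono (ball_subset_ball h4) (ball_subset_ball h4)), fun τ hτ r hr => ?_⟩
  have hτ' := ball_subset_ball h4 hτ
  have hr' := ball_subset_ball h4 hr
  have hg0 : g (τ, 0) = τ :=
    ((H τ hτ' 0 (mem_ball_self hρ)).2.2 τ hτ' (rel_self hs (hD hτ'))).symm
  have hφ : DifferentiableOn ℂ (fun r => g (τ, r)) (ball 0 ρ) :=
    hg.comp (by fun_prop) fun r hr => ⟨hτ', hr⟩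
  have hb : ball (0 : ℂ) ρ ∈ 𝓝 (0 : ℂ) := ball_mem_nhds _ hρ
  have hder := der_one hs (hD hτ') (hd τ (hD hτ')) hg0 (hφ.differentiableAt hb)
    (mem_of_superset hb fun r hr => (H τ hτ' r hr).2.1)
  obtain ⟨a, b⟩ := hS (fun r => g (τ, r)) ρ (σ + ρ) hφ (fun r hr => by
    have h5 := (H τ hτ' r hr).1
    rw [mem_ball, dist_eq_norm] at h5 hτ'
    have h6 : g (τ, r) - g (τ, 0) = (g (τ, r) - z) - (τ - z) := by rw [hg0]; ring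
    rw [h6]
    exact (norm_sub_le _ _).trans (by linarith)) hder r hr'
  simp only [hg0] at a
  refine ⟨(H τ hτ' r hr').2.1, fun μ hμ => (H τ hτ' r hr').2.2 μ (ball_subset_ball h1 hμ),
    a.trans ?_, b.trans ?_⟩
  · calc (σ + ρ + ρ) * (‖r‖ / ρ) ^ 2 = (σ + 2 * ρ) / ρ ^ 2 * ‖r‖ ^ 2 := by ring
      _ ≤ C / e * ‖r‖ ^ 2 := by gcongr
      _ = _ := by ring
  · calc 2 * (σ + ρ + ρ) * (‖r‖ / ρ) ^ 3 = 2 * (σ + 2 * ρ) / ρ ^ 3 * ‖r‖ ^ 3 := by ring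
      _ ≤ C / e ^ 2 * ‖r‖ ^ 3 := by gcongr
      _ = _ := by ring

/-- The branch in which the two ends stay apart. -/
theorem G_ne (hI : St_INT) (hs : Sol d D Φ) {z a0 b0 : ℂ} {ρ : ℝ} (hρ : 0 < ρ)
    (hD : ball z ρ ⊆ D) (hw : a0 ≠ b0)
    (hA : ∀ τ ∈ ball z ρ, ‖fA Φ τ - a0‖ ≤ ‖a0 - b0‖ / 16)
    (hB : ∀ τ ∈ ball z ρ, ‖fB Φ τ - b0‖ ≤ ‖a0 - b0‖ / 16) : G d D Φ z (ρ / 10) ρ := by
  have hw0 : 0 < ‖a0 - b0‖ := norm_pos_iff.2 (sub_ne_zero.2 hw)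
  have hAB : ∀ μ ∈ ball z ρ, ∀ τ ∈ ball z ρ,
      ‖fA Φ μ - fB Φ τ - (a0 - b0)‖ ≤ ‖a0 - b0‖ / 8 := fun μ hμ τ hτ => by
    have : fA Φ μ - fB Φ τ - (a0 - b0) = (fA Φ μ - a0) - (fB Φ τ - b0) := by ring
    rw [this]
    exact (norm_sub_le _ _).trans (by linarith [hA μ hμ, hB τ hτ])
  have hAB' : ∀ μ ∈ ball z ρ, ∀ τ ∈ ball z ρ,
      ‖fA Φ μ - fB Φ τ‖ ≤ 9 / 8 * ‖a0 - b0‖ := fun μ hμ τ hτ => by
    have := norm_add_le (fA Φ μ - fB Φ τ - (a0 - b0)) (a0 - b0)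
    rw [sub_add_cancel] at this
    linarith [hAB μ hμ τ hτ]
  have dY : DifferentiableOn ℂ (fY Φ) (ball z ρ) :=
    fun τ hτ => (dfY hs (hD hτ)).differentiableWithinAt
  have dB : DifferentiableOn ℂ (fB Φ) (ball z ρ) :=
    fun τ hτ => (dfB hs (hD hτ)).differentiableWithinAt
  obtain ⟨-, g, hg, H⟩ := hI (fY Φ) (fA Φ) z (a0 - b0) a0 ρ (‖a0 - b0‖ / 16) (sub_ne_zero.2 hw) hρ
    dY (fun τ hτ => (dfA hs (hD hτ)).differentiableWithinAt)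
    (fun τ hτ => by
      rw [(hs.dY τ (hD hτ)).deriv]
      linarith [hAB τ hτ τ hτ]) hA
  have hsub : ball z (ρ / 10) ⊆ ball z ρ := ball_subset_ball (by linarith)
  have hz : z ∈ ball z ρ := mem_ball_self hρ
  have hm : ∀ τ ∈ ball z (ρ / 10), ∀ r ∈ ball (0 : ℂ) (ρ / 10),
      (fY Φ τ - r * fB Φ τ, r) ∈ intW (fY Φ) (fA Φ) z (a0 - b0) ρ (‖a0 - b0‖ / 16) := by
    intro τ hτ r hr
    have h1 : ‖fY Φ z - fY Φ τ‖ ≤ 9 / 8 * ‖a0 - b0‖ * ‖z - τ‖ :=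
      (convex_ball z ρ).norm_image_sub_le_of_norm_hasDerivWithin_le
        (fun x hx => (hs.dY x (hD hx)).hasDerivWithinAt) (fun x hx => hAB' x hx x hx) (hsub hτ) hz
    have h2 := hAB' z hz τ (hsub hτ)
    rw [mem_ball_zero_iff] at hr
    rw [mem_ball', dist_eq_norm] at hτ
    refine ⟨by simp only; nlinarith [norm_nonneg r], ?_⟩
    have h3 : fY Φ z - r * fA Φ z - (fY Φ τ - r * fB Φ τ)
        = (fY Φ z - fY Φ τ) - r * (fA Φ z - fB Φ τ) := by ring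
    have h4 := norm_sub_le (fY Φ z - fY Φ τ) (r * (fA Φ z - fB Φ τ))
    rw [norm_mul] at h4
    have h5 : ‖r‖ * ‖fA Φ z - fB Φ τ‖ ≤ ρ / 10 * (9 / 8 * ‖a0 - b0‖) := by gcongr
    have h6 : 9 / 8 * ‖a0 - b0‖ * ‖z - τ‖ ≤ 9 / 8 * ‖a0 - b0‖ * (ρ / 10) := by gcongr
    simp only [h3]
    nlinarith [mul_pos hw0 hρ]
  refine ⟨hsub.trans hD, fun p => g (fY Φ p.1 - p.2 * fB Φ p.1, p.2), ?_, fun τ hτ r hr => ?_⟩
  · refine hg.comp (DifferentiableOn.prodMk (DifferentiableOn.sub ?_ (DifferentiableOn.mul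
      differentiableOn_snd ?_)) differentiableOn_snd) fun p hp => hm p.1 hp.1 p.2 hp.2
    · exact dY.comp differentiableOn_fst fun p hp => hsub hp.1
    · exact dB.comp differentiableOn_fst fun p hp => hsub hp.1
  obtain ⟨a, b, c⟩ := H _ (hm τ hτ r hr)
  have a' := ball_subset_ball (show ρ / 2 ≤ ρ by linarith) a
  simp only at a b c a' ⊢
  refine ⟨a', ⟨by linear_combination b, fun e => ?_⟩, fun μ hμ h => ?_⟩
  · have := hAB _ a' τ (hsub hτ)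
    rw [e, sub_self, zero_sub, norm_neg] at this
    linarith
  · have h1 := c μ (ball_subset_ball (by linarith) hμ)
    have h2 : fY Φ μ - r * fA Φ μ - (fY Φ τ - r * fB Φ τ) = 0 := by linear_combination h.1
    rw [h2, norm_zero, mul_zero] at h1
    have h3 := norm_eq_zero.1 (le_antisymm (nonpos_of_mul_nonpos_right h1 hw0) (norm_nonneg _))
    exact (sub_eq_zero.1 h3).symm

/-- The branch through a diagonal state. -/
theorem G_eq (hS : St_SOLVE0) (hs : Sol d D Φ) {z : ℂ} (hz : z ∈ D)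
    (hp : d.py (fA Φ z, fY Φ z) ≠ 0) : ∃ ρ σ : ℝ, 0 < ρ ∧ G d D Φ z ρ σ := by
  have a1 : ContDiffAt ℂ 1 (fun x : ℂ × ℂ × ℂ => fA Φ x.1) (z, z, 0) :=
    ContDiffAt.comp (g := fA Φ) (f := Prod.fst) (z, z, 0) (cA hs hz) contDiffAt_fst
  have a2 : ContDiffAt ℂ 1 (fun x : ℂ × ℂ × ℂ => fB Φ x.2.1) (z, z, 0) :=
    ContDiffAt.comp (g := fB Φ) (f := fun x : ℂ × ℂ × ℂ => x.2.1) (z, z, 0) (cB hs hz)
      contDiffAt_snd.fst
  have a3 : ContDiffAt ℂ 1 (fun x : ℂ × ℂ × ℂ => fY Φ x.2.1) (z, z, 0) :=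
    ContDiffAt.comp (g := fY Φ) (f := fun x : ℂ × ℂ × ℂ => x.2.1) (z, z, 0) (cY hs hz)
      contDiffAt_snd.fst
  have a4 : ContDiffAt ℂ 1 (fun x : ℂ × ℂ × ℂ => fY Φ x.1) (z, z, 0) :=
    ContDiffAt.comp (g := fY Φ) (f := Prod.fst) (z, z, 0) (cY hs hz) contDiffAt_fst
  have a5 : ContDiffAt ℂ 1 (fun x : ℂ × ℂ × ℂ => x.2.2) (z, z, 0) := contDiffAt_snd.snd
  have a6 := a3.add (a5.mul (a1.sub a2))
  have hK : ContDiffAt ℂ 1 (K d Φ) (z, z, 0) :=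
    (d.cD.contDiffAt.comp _ (a1.prodMk (a2.prodMk a3))).add
      (a5.mul (d.cJ.contDiffAt.comp _ (a1.prodMk (a6.prodMk a3))))
  have hJ : ContinuousAt (fun x : ℂ × ℂ × ℂ => d.J (fA Φ x.1,
      fY Φ x.2.1 + x.2.2 * (fA Φ x.1 - fB Φ x.2.1), fY Φ x.1)) (z, z, 0) :=
    (d.cJ.contDiffAt.comp _ (a1.prodMk (a6.prodMk a4))).continuousAt
  obtain ⟨R1, hR1, H1⟩ := Metric.eventually_nhds_iff_ball.1
    (hJ.eventually_ne (y := 0) (by simpa [d.Jd] using hp))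
  obtain ⟨R2, hR2, H2⟩ := Metric.isOpen_iff.1 hs.op z hz
  obtain ⟨R, ρ, hR, hR0, hρ, g, hg, H⟩ := hS (ℂ × ℂ) (K d Φ) z (-d.py (fA Φ z, fY Φ z)) (z, 0) hK
    (by simp only [K, zero_mul, add_zero]; exact hs.pD z hz)
    (by simpa [K] using dDA hs hz rfl (hasDerivAt_id z)) (neg_ne_zero.2 hp) (min R1 R2)
    (lt_min hR1 hR2)
  have b1 : R ≤ R1 := hR0.trans (min_le_left _ _)
  have b2 : R ≤ R2 := hR0.trans (min_le_right _ _)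
  have b3 : ball z R ⊆ D := (ball_subset_ball b2).trans H2
  have b4 : ball z (min ρ R) ⊆ ball z R := ball_subset_ball (min_le_right _ _)
  have b5 : ball z (min ρ R) ×ˢ ball (0 : ℂ) (min ρ R) ⊆ ball (z, 0) ρ := by
    rw [ball_prod_same]; exact ball_subset_ball (min_le_left _ _)
  refine ⟨min ρ R, R, lt_min hρ hR, b4.trans b3, g, hg.mono b5, fun τ hτ r hr => ?_⟩
  obtain ⟨a, b, c⟩ := H (τ, r) (b5 ⟨hτ, hr⟩)
  refine ⟨a, rel_of_K hs (b3 (b4 hτ)) (b3 a) b (H1 (g (τ, r), τ, r) ?_), fun μ hμ h => ?_⟩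
  · rw [← ball_prod_same, ← ball_prod_same]
    exact ⟨ball_subset_ball b1 a, ball_subset_ball b1 (b4 hτ),
      ball_subset_ball ((min_le_right _ _).trans b1) hr⟩
  · have h1 := c μ (b4 hμ)
    rw [K_of_rel hs (b3 (b4 hτ)) (b3 (b4 hμ)) h, norm_zero, mul_zero] at h1
    have h3 := norm_eq_zero.1 (le_antisymm (nonpos_of_mul_nonpos_right h1
      (norm_pos_iff.2 (neg_ne_zero.2 hp))) (norm_nonneg _))
    exact (sub_eq_zero.1 h3).symm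

theorem G_any (hI : St_INT) (hS : St_SOLVE0) (hs : Sol d D Φ) {z : ℂ} (hz : z ∈ D)
    (hd : fA Φ z = fB Φ z → d.py (fA Φ z, fY Φ z) ≠ 0) : ∃ ρ σ : ℝ, 0 < ρ ∧ G d D Φ z ρ σ := by
  by_cases e : fA Φ z = fB Φ z
  · exact G_eq hS hs hz (hd e)
  have hw : 0 < ‖fA Φ z - fB Φ z‖ / 16 := div_pos (norm_pos_iff.2 (sub_ne_zero.2 e)) (by norm_num)
  have h1 := (dfA hs hz).continuousAt.eventually (closedBall_mem_nhds _ hw)
  have h2 := (dfB hs hz).continuousAt.eventually (closedBall_mem_nhds _ hw)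
  obtain ⟨ρ, hρ, H⟩ := Metric.eventually_nhds_iff_ball.1 ((h1.and h2).and (hs.op.mem_nhds hz))
  exact ⟨ρ / 10, ρ, by linarith, G_ne hI hs hρ (fun τ hτ => (H τ hτ).2) e
    (fun τ hτ => by simpa [dist_eq_norm] using (H τ hτ).1.1)
    (fun τ hτ => by simpa [dist_eq_norm] using (H τ hτ).1.2)⟩

theorem F_cpt (hI : St_INT) (hS : St_SOLVE0) (hH : St_SCH) (hs : Sol d D Φ)
    (hd : ∀ τ ∈ D, fA Φ τ = fB Φ τ → d.py (fA Φ τ, fY Φ τ) ≠ 0) {Q : Set ℂ} (hQ : IsCompact Q)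
    (hD : Q ⊆ D) : ∃ C : ℝ, 1 ≤ C ∧ ∀ z ∈ Q, F d Φ C z 1 := by
  refine hQ.induction_on (p := fun s => ∃ C : ℝ, 1 ≤ C ∧ ∀ z ∈ s, F d Φ C z 1)
    ⟨1, le_rfl, by simp⟩ (fun s t hst ⟨C, h1, h2⟩ => ⟨C, h1, fun z hz => h2 z (hst hz)⟩) ?_ ?_
  · rintro s t ⟨C, h1, h2⟩ ⟨C', h1', h2'⟩
    refine ⟨max C C', le_max_of_le_left h1, fun z hz => hz.elim (fun h => ?_) fun h => ?_⟩
    · exact (h2 z h).mono (by linarith) (le_max_left _ _) one_pos le_rfl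
    · exact (h2' z h).mono (by linarith) (le_max_right _ _) one_pos le_rfl
  intro z0 hz0
  obtain ⟨ρ, σ, hρ, hG⟩ := G_any hI hS hs (hD hz0) (hd z0 (hD hz0))
  set C := max (max 1 (6 / ρ)) (max ((σ + ρ / 2 + 2 * (ρ / 2)) / (ρ / 2) ^ 2)
    (2 * (σ + ρ / 2 + 2 * (ρ / 2)) / (ρ / 2) ^ 3)) with hC
  have c1 : 1 ≤ C := le_max_of_le_left (le_max_left _ _)
  have c2 : 6 / ρ ≤ C := le_max_of_le_left (le_max_right _ _)
  refine ⟨ball z0 (ρ / 2), mem_nhdsWithin_of_mem_nhds (ball_mem_nhds _ (by linarith)), C, c1,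
    fun z hz => ?_⟩
  have hz' : dist z z0 < ρ / 2 := hz
  have hG' : G d D Φ z (ρ / 2) (σ + ρ / 2) :=
    hG.mono (ball_subset_ball' (by linarith)) (by linarith)
      (ball_subset_ball' (by rw [dist_comm]; linarith))
  refine hG'.toF hH hs hd (by linarith) ?_ ?_ ?_
  · rw [div_le_iff₀ hρ] at c2
    rw [mul_one_div, div_le_iff₀ (by linarith)]
    linarith
  · rw [div_one]; exact le_max_of_le_right (le_max_left _ _)
  · rw [one_pow, div_one]; exact le_max_of_le_right (le_max_right _ _)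

end FAR

open FAR in
theorem st_FAR (hI : St_INT) (hS : St_SOLVE0) (hH : St_SCH) : St_FAR := by
  classical
  intro d h R κ S D Φ hs
  have hd : ∀ τ ∈ D, fA Φ τ = fB Φ τ → d.py (fA Φ τ, fY Φ τ) ≠ 0 :=
    fun τ hτ e => (hs.diag τ hτ e).2
  have hκ := hs.kp
  have hκ1 := hs.k1
  have hev : ∀ᶠ δ in 𝓝[>] (0 : ℝ), ∀ b ∈ S, ∃ σ : S3, σ.1 ≠ σ.2.1 ∧
      Xp D Φ b σ (‖σ.1 - σ.2.1‖ / 16) (2 * δ) := by
    refine (S.eventually_all).2 fun b hb => ?_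
    obtain ⟨σ, h1, h2⟩ := hs.xp b hb
    obtain ⟨δ, h3, h4⟩ := h2 (‖σ.1 - σ.2.1‖ / 16)
      (div_pos (norm_pos_iff.2 (sub_ne_zero.2 h1)) (by norm_num))
    filter_upwards [Ioo_mem_nhdsGT (half_pos h3)] with x hx
    exact ⟨σ, h1, fun τ hτ h5 => h4 τ hτ (by linarith [hx.2])⟩
  obtain ⟨δ, hX, hδ⟩ := (hev.and self_mem_nhdsWithin).exists
  have hδ : 0 < δ := hδ
  let Q : Set ℂ := closedBall 0 R ∩ ({z | -h / 2 ≤ z.im} ∩ {z | z.im ≤ h + κ} ∩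
    ⋂ b ∈ S, ({z | δ ≤ ‖z - b‖} ∩ {z | z.im ≤ h + κ * ‖z - b‖}))
  have hQ : IsCompact Q := (isCompact_closedBall 0 R).inter_right
    (((isClosed_le (by fun_prop) (by fun_prop)).inter
      (isClosed_le (by fun_prop) (by fun_prop))).inter
      (isClosed_biInter fun b _ => (isClosed_le (by fun_prop) (by fun_prop)).inter
        (isClosed_le (by fun_prop) (by fun_prop))))
  have hQD : Q ⊆ D := by
    rintro z ⟨h1, ⟨h2, h3⟩, h4⟩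
    simp only [mem_iInter, mem_inter_iff, mem_ofPred_eq] at h2 h3 h4
    obtain ⟨e, he, hmin⟩ := Finset.exists_min_image (insert 1 (S.image fun b => ‖z - b‖)) id
      (Finset.insert_nonempty _ _)
    have h5 : 0 < e ∧ z.im ≤ h + κ * e := by
      rcases Finset.mem_insert.1 he with rfl | he
      · exact ⟨one_pos, by linarith⟩
      · obtain ⟨b, hb, rfl⟩ := Finset.mem_image.1 he
        exact ⟨hδ.trans_le (h4 b hb).1, (h4 b hb).2⟩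
    exact hs.adm z e ⟨by simpa using h1, h2, h5.2, h5.1, hmin 1 (Finset.mem_insert_self _ _),
      fun b hb => hmin _ (Finset.mem_insert_of_mem (Finset.mem_image_of_mem _ hb))⟩
      (mem_ball_self (mul_pos hκ h5.1))
  obtain ⟨C, hC, HC⟩ := F_cpt hI hS hH hs.sol hd hQ hQD
  refine ⟨max C (2400 / κ ^ 2), le_max_of_le_left hC, fun z e ha => ?_⟩
  obtain ⟨a1, a2, a3, a4, a5, a6⟩ := id ha
  by_cases hn : ∀ b ∈ S, δ ≤ ‖z - b‖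
  · refine (HC z ⟨by simpa using a1, ⟨a2, ?_⟩, ?_⟩).mono (by linarith) (le_max_left _ _) a4 a5
    · show z.im ≤ h + κ
      nlinarith
    · simp only [mem_iInter, mem_inter_iff, mem_ofPred_eq]
      exact fun b hb => ⟨hn b hb, by nlinarith [a6 b hb]⟩
  push Not at hn
  obtain ⟨b, hb, hzb⟩ := hn
  obtain ⟨σ, h1, h2⟩ := hX b hb
  have hD := hs.adm z e ha
  have hκe : 0 < κ * e := mul_pos hκ a4
  have hnear : ∀ τ ∈ ball z (κ * e), ‖τ - b‖ < 2 * δ := fun τ hτ => by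
    rw [mem_ball, dist_eq_norm] at hτ
    have := norm_add_le (τ - z) (z - b)
    rw [sub_add_sub_cancel] at this
    nlinarith [a6 b hb]
  have hG := G_ne hI hs.sol hκe hD h1 (fun τ hτ => (h2 τ (hD hτ) (hnear τ hτ)).1)
    (fun τ hτ => (h2 τ (hD hτ) (hnear τ hτ)).2.1)
  have hF : F d Φ (2400 / κ ^ 2) z e := by
    refine hG.toF hH hs.sol hd (by positivity) ?_ ?_ (le_of_eq ?_)
    · have : 3 * (e / (2400 / κ ^ 2)) = κ * (κ * e) / 800 := by field_simp; norm_num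
      rw [this]; nlinarith
    · have e1 : (κ * e + 2 * (κ * e / 10)) / (κ * e / 10) ^ 2 = 120 * κ / κ ^ 2 / e := by
        field_simp; norm_num
      rw [e1]; gcongr; linarith
    · field_simp; norm_num
  exact hF.mono (by positivity) (le_max_right _ _) a4 le_rfl

end Pool.Agent.AO
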