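import Mathlib

/-! Small tools of complex analysis for the chord flow. -/

open scoped Topology NNReal
open Set Filter Metric Complex Asymptotics

namespace Pool.Agent.Lib.AO.K23

/-- Large odd multiples stay away from the integers. -/
theorem dir {S : Set ℝ} (hS : S.Finite) : ∃ c > 0, ∀ N : ℕ, ∃ m : ℕ, N ≤ m ∧
    ∀ l ∈ S, (∀ n : ℤ, l ≠ n) → ∀ n : ℤ, c ≤ |(2 * m + 1) * l - n| := by
  classical
  have := hS.fintype
  obtain ⟨c, hc, hl⟩ : ∃ c > 0, ∀ l ∈ S, (∀ n : ℤ, l ≠ n) → 2 * c ≤ ‖(l : UnitAddCircle)‖ := by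
    have h1 : ∀ l ∈ S, ∀ᶠ c : ℝ in 𝓝[>] 0, (∀ n : ℤ, l ≠ n) → 2 * c ≤ ‖(l : UnitAddCircle)‖ := by
      intro l _
      by_cases h : ∀ n : ℤ, l ≠ n
      · have h2 : 0 < ‖(l : UnitAddCircle)‖ := norm_pos_iff.2 fun h0 => by
          obtain ⟨n, hn⟩ := (AddCircle.coe_eq_zero_iff (1 : ℝ)).1 h0
          exact h n (by simpa using hn.symm)
        filter_upwards [Ioo_mem_nhdsGT (half_pos h2)] with c hc _
        linarith [hc.2]
      · exact Eventually.of_forall fun c h' => absurd h' h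
    obtain ⟨c, h2, h3⟩ := (((eventually_all_finite hS).2 h1).and self_mem_nhdsWithin).exists
    exact ⟨c, h3, h2⟩
  refine ⟨c, hc, fun N => ?_⟩
  have h1 := mapClusterPt_zero_atTop_nsmul (fun l : S => ((2 * l.1 : ℝ) : UnitAddCircle))
  obtain ⟨m, h2, h3⟩ := ((h1.frequently (ball_mem_nhds _ hc)).and_eventually
    (eventually_ge_atTop N)).exists
  refine ⟨m, h3, fun l hlS hn n => ?_⟩
  have h4 : ‖((m * (2 * l) : ℝ) : UnitAddCircle)‖ < c := by
    have := (norm_le_pi_norm _ (⟨l, hlS⟩ : S)).trans_lt (mem_ball_zero_iff.1 h2)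
    rwa [Pi.smul_apply, ← AddCircle.coe_nsmul, nsmul_eq_mul] at this
  have h5 : (l : UnitAddCircle) = (((2 * m + 1) * l - n : ℝ) : UnitAddCircle) -
      ((m * (2 * l) : ℝ) : UnitAddCircle) := by
    rw [← AddCircle.coe_sub, ← sub_eq_zero, ← AddCircle.coe_sub, AddCircle.coe_eq_zero_iff]
    exact ⟨n, by simp; ring⟩
  have h6 : ‖(((2 * m + 1) * l - n : ℝ) : UnitAddCircle)‖ ≤ |(2 * m + 1) * l - n| :=
    QuotientAddGroup.norm_mk_le_norm
  have h7 := hl l hlS hn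
  rw [h5] at h7
  linarith [norm_sub_le (((2 * m + 1) * l - n : ℝ) : UnitAddCircle)
    ((m * (2 * l) : ℝ) : UnitAddCircle)]

/-- Growth along segments. -/
theorem gron {Y Y' : ℂ → ℂ} {U : Set ℂ} (hU : Convex ℝ U) {C : ℝ}
    (hY : ∀ z ∈ U, HasDerivAt Y (Y' z) z) (hb : ∀ z ∈ U, ‖Y' z‖ ≤ C * (1 + ‖Y z‖)) {a z : ℂ}
    (ha : a ∈ U) (hz : z ∈ U) : 1 + ‖Y z‖ ≤ (1 + ‖Y a‖) * Real.exp (C * ‖z - a‖) := by
  have hm : ∀ t ∈ Icc (0 : ℝ) 1, a + (t : ℂ) * (z - a) ∈ U := fun t ht => by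
    have := hU.add_smul_sub_mem ha hz ht
    simpa using this
  have hd : ∀ t ∈ Icc (0 : ℝ) 1, HasDerivAt (fun t : ℝ => Y (a + (t : ℂ) * (z - a)))
      (Y' (a + (t : ℂ) * (z - a)) * (z - a)) t := fun t ht => by
    have h1 : HasDerivAt (fun u : ℂ => a + u * (z - a)) (z - a) (t : ℂ) := by
      simpa using ((hasDerivAt_id (t : ℂ)).mul_const (z - a)).const_add a
    exact ((hY _ (hm t ht)).comp (t : ℂ) h1).comp_ofReal
  have h := norm_le_gronwallBound_of_norm_deriv_right_le (δ := ‖Y a‖) (K := C * ‖z - a‖)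
    (ε := C * ‖z - a‖) (a := 0) (b := 1)
    (fun t ht => (hd t ht).continuousAt.continuousWithinAt)
    (fun t ht => (hd t (Ico_subset_Icc_self ht)).hasDerivWithinAt) (by simp)
    (fun t ht => by
      rw [norm_mul]
      have := mul_le_mul_of_nonneg_right (hb _ (hm t (Ico_subset_Icc_self ht))) (norm_nonneg (z - a))
      linarith) 1 ⟨zero_le_one, le_rfl⟩
  simp only [ofReal_one, one_mul, add_sub_cancel, sub_zero] at h
  by_cases hK : C * ‖z - a‖ = 0
  · rw [hK, gronwallBound_K0] at h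
    rw [hK, Real.exp_zero]
    simp only [zero_mul, add_zero] at h
    linarith
  · rw [gronwallBound_of_K_ne_0 hK] at h
    simp only [mul_one, div_self hK, one_mul] at h
    linarith

/-- Functions on balls with centres in the closure of a convex set glue. -/
theorem glue {F ι : Type*} [NormedAddCommGroup F] [NormedSpace ℂ F] [CompleteSpace F] {U : Set ℂ}
    (hU : IsOpen U) (hc : Convex ℝ U) {f₀ : ℂ → F} (h₀ : DifferentiableOn ℂ f₀ U) (c : ι → ℂ)
    (ρ : ι → ℝ) (f : ι → ℂ → F) (hm : ∀ i, c i ∈ closure U)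
    (hf : ∀ i, DifferentiableOn ℂ (f i) (ball (c i) (ρ i)))
    (he : ∀ i, EqOn (f i) f₀ (ball (c i) (ρ i) ∩ U)) :
    ∃ g : ℂ → F, DifferentiableOn ℂ g (U ∪ ⋃ i, ball (c i) (ρ i)) ∧ EqOn g f₀ U ∧
      ∀ i, EqOn g (f i) (ball (c i) (ρ i)) := by
  classical
  have key : ∀ i j, EqOn (f i) (f j) (ball (c i) (ρ i) ∩ ball (c j) (ρ j)) := by
    intro i j z hz
    have hi : 0 < ρ i := nonempty_ball.1 ⟨z, hz.1⟩
    have hj : 0 < ρ j := nonempty_ball.1 ⟨z, hz.2⟩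
    have hd : ‖c j - c i‖ < ρ i + ρ j := by
      have := dist_triangle_left (c j) (c i) z
      rw [dist_eq_norm] at this
      linarith [mem_ball.1 hz.1, mem_ball.1 hz.2]
    set t := ρ i / (ρ i + ρ j) with ht
    have t0 : 0 < t := by positivity
    have t1 : 1 - t = ρ j / (ρ i + ρ j) := by rw [ht]; field_simp; ring
    have t2 : 0 < 1 - t := by rw [t1]; positivity
    have hy : c i + t • (c j - c i) ∈ closure U :=
      hc.closure.add_smul_sub_mem (hm i) (hm j) ⟨t0.le, by linarith⟩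
    have ho : IsOpen (ball (c i) (ρ i) ∩ ball (c j) (ρ j)) := isOpen_ball.inter isOpen_ball
    have hy' : c i + t • (c j - c i) ∈ ball (c i) (ρ i) ∩ ball (c j) (ρ j) := by
      constructor
      · rw [mem_ball_iff_norm, add_sub_cancel_left, norm_smul, Real.norm_of_nonneg t0.le]
        calc t * ‖c j - c i‖ < t * (ρ i + ρ j) := by gcongr
          _ = ρ i := by rw [ht]; field_simp
      · rw [mem_ball_iff_norm, show c i + t • (c j - c i) - c j = -((1 - t) • (c j - c i)) by module,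
          norm_neg, norm_smul, Real.norm_of_nonneg t2.le]
        calc (1 - t) * ‖c j - c i‖ < (1 - t) * (ρ i + ρ j) := by gcongr
          _ = ρ j := by rw [t1]; field_simp
    obtain ⟨y, hy1, hy2⟩ := mem_closure_iff.1 hy _ ho hy'
    refine (((hf i).mono inter_subset_left).analyticOnNhd ho).eqOn_of_preconnected_of_eventuallyEq
      (((hf j).mono inter_subset_right).analyticOnNhd ho)
      ((convex_ball _ _).inter (convex_ball _ _)).isPreconnected hy1 ?_ hz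
    filter_upwards [(ho.inter hU).mem_nhds ⟨hy1, hy2⟩] with w hw
    rw [he i ⟨hw.1.1, hw.2⟩, he j ⟨hw.1.2, hw.2⟩]
  let g : ℂ → F := fun z => if h : ∃ i, z ∈ ball (c i) (ρ i) then f h.choose z else f₀ z
  have g1 : ∀ i, EqOn g (f i) (ball (c i) (ρ i)) := fun i z hz => by
    have h : ∃ i, z ∈ ball (c i) (ρ i) := ⟨i, hz⟩
    simp only [g, dif_pos h]
    exact key _ _ ⟨h.choose_spec, hz⟩
  have g0 : EqOn g f₀ U := fun z hz => by
    by_cases h : ∃ i, z ∈ ball (c i) (ρ i)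
    · obtain ⟨i, hi⟩ := h
      rw [g1 i hi, he i ⟨hi, hz⟩]
    · simp only [g, dif_neg h]
  refine ⟨g, fun z hz => DifferentiableAt.differentiableWithinAt ?_, g0, g1⟩
  rcases hz with hz | hz
  · exact (h₀.differentiableAt (hU.mem_nhds hz)).congr_of_eventuallyEq
      (g0.eventuallyEq_of_mem (hU.mem_nhds hz))
  · obtain ⟨i, hi⟩ := mem_iUnion.1 hz
    exact ((hf i).differentiableAt (isOpen_ball.mem_nhds hi)).congr_of_eventuallyEq
      ((g1 i).eventuallyEq_of_mem (isOpen_ball.mem_nhds hi))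

/-- A bounded function on a convex set with finitely many cluster values has a limit. -/
theorem clus {X : Type*} [TopologicalSpace X] [T2Space X] {U : Set ℂ} (hc : Convex ℝ U) {b : ℂ}
    (hb : b ∈ closure U) {A : ℂ → X} (hA : ContinuousOn A U) {K S : Set X} (hK : IsCompact K)
    (hm : ∀ᶠ z in 𝓝[U] b, A z ∈ K) (hS : S.Finite) (h : ∀ x, MapClusterPt x (𝓝[U] b) A → x ∈ S) :
    ∃ a ∈ S, Tendsto A (𝓝[U] b) (𝓝 a) := by
  have : (𝓝[U] b).NeBot := mem_closure_iff_nhdsWithin_neBot.1 hb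
  obtain ⟨a, -, ha⟩ := hK.exists_mapClusterPt_of_frequently hm.frequently
  refine ⟨a, h a ha, hK.tendsto_nhds_of_unique_mapClusterPt hm fun x _ hx => ?_⟩
  by_contra hne
  obtain ⟨v, u, hv, hu, h1, h2, h3⟩ := (hS.subset (sdiff_subset (t := {a}))).isCompact.separation_of_notMem
    (x := a) (by simp)
  have h4 : ∀ᶠ z in 𝓝[U] b, A z ∈ u ∪ v :=
    hK.tendsto_nhdsSet_of_mapClusterPt hm (fun y _ hy => h y hy) ((hu.union hv).mem_nhdsSet.2
      fun y hy => by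
        by_cases e : y = a
        · exact Or.inl (e ▸ h2)
        · exact Or.inr (h1 ⟨hy, e⟩))
  obtain ⟨ε, hε, h5⟩ := mem_nhdsWithin_iff.1 h4
  have h6 : ball b ε ∩ U ∈ 𝓝[U] b := mem_nhdsWithin_iff.2 ⟨ε, hε, Subset.rfl⟩
  obtain ⟨z, hz1, hz2⟩ := ((ha.frequently (hu.mem_nhds h2)).and_eventually h6).exists
  obtain ⟨w, hw1, hw2⟩ := ((hx.frequently (hv.mem_nhds (h1 ⟨h x hx, hne⟩))).and_eventually h6).exists
  have h7 : A '' (ball b ε ∩ U) ⊆ u :=
    (((convex_ball _ _).inter hc).isPreconnected.image A (hA.mono inter_subset_right)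
      ).subset_left_of_subset_union hu hv h3.symm (by rintro _ ⟨y, hy, rfl⟩; exact h5 hy)
      ⟨A z, ⟨z, hz2, rfl⟩, hz1⟩
  exact disjoint_left.1 h3 hw1 (h7 ⟨w, hw2, rfl⟩)

/-- Schwarz estimate of order two. -/
theorem schw2 {u : ℂ → ℂ} {ρ M : ℝ} (hu : DifferentiableOn ℂ u (ball 0 ρ)) (h0 : u 0 = 0)
    (h1 : HasDerivAt u 0 0) (hM : ∀ r ∈ ball (0 : ℂ) ρ, ‖u r‖ ≤ M) {r : ℂ} (hr : r ∈ ball (0 : ℂ) ρ) :
    ‖u r‖ ≤ M * (‖r‖ / ρ) ^ 2 := by
  have := dist_le_mul_div_pow_of_mapsTo_ball_of_isLittleO (n := 1) (R₂ := M) hu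
    (fun w hw => by rw [h0]; exact mem_closedBall_zero_iff.2 (hM w hw))
    (by simpa using h1.isLittleO.norm_right) hr
  simpa [h0] using this

/-- Schwarz estimate of order three for an odd function. -/
theorem schw3 {u : ℂ → ℂ} {ρ M : ℝ} (hu : DifferentiableOn ℂ u (ball 0 ρ))
    (ho : ∀ r ∈ ball (0 : ℂ) ρ, u (-r) = -u r) (h1 : HasDerivAt u 0 0)
    (hM : ∀ r ∈ ball (0 : ℂ) ρ, ‖u r‖ ≤ M) {r : ℂ} (hr : r ∈ ball (0 : ℂ) ρ) :
    ‖u r‖ ≤ M * (‖r‖ / ρ) ^ 3 := by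
  have hρ : 0 < ρ := nonempty_ball.1 ⟨r, hr⟩
  have hb : ball (0 : ℂ) ρ ∈ 𝓝 (0 : ℂ) := ball_mem_nhds _ hρ
  have h0 : u 0 = 0 := by
    have := ho 0 (mem_ball_self hρ)
    rw [neg_zero] at this
    linear_combination this / 2
  have e : ∀ w, u w = w * dslope u 0 w := fun w => by
    have := sub_smul_dslope u 0 w
    rw [h0, sub_zero, sub_zero, smul_eq_mul] at this
    exact this.symm
  have hd : DifferentiableAt ℂ (dslope u 0) 0 :=
    ((differentiableOn_dslope hb).2 hu).differentiableAt hb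
  have d0 : dslope u 0 0 = 0 := by rw [dslope_same, h1.deriv]
  have ev : (fun w => dslope u 0 (-w)) =ᶠ[𝓝 0] dslope u 0 := by
    filter_upwards [hb] with w hw
    by_cases hw0 : w = 0
    · rw [hw0, neg_zero]
    · have h2 := ho w hw
      rw [e (-w), e w] at h2
      exact mul_left_cancel₀ hw0 (by linear_combination -h2)
  have d1 : deriv (dslope u 0) 0 = 0 := by
    have h2 : deriv (fun w => dslope u 0 (-w)) 0 = -deriv (dslope u 0) (-0) := deriv_comp_neg _ 0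
    rw [ev.deriv_eq, neg_zero] at h2
    linear_combination h2 / 2
  have l1 : dslope u 0 =o[𝓝 0] fun w : ℂ => w := by
    have := hd.hasDerivAt.isLittleO
    rw [d0, d1] at this
    simpa using this
  have l2 : (fun w => u w - u 0) =o[𝓝 0] fun w : ℂ => ‖w - 0‖ ^ 2 := by
    have := ((isBigO_refl (fun w : ℂ => w) (𝓝 0)).mul_isLittleO l1).norm_right
    refine this.congr (fun w => ?_) fun w => ?_
    · rw [h0, sub_zero, ← e]
    · rw [norm_mul, sub_zero, sq]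
  have := dist_le_mul_div_pow_of_mapsTo_ball_of_isLittleO (n := 2) (R₂ := M) hu
    (fun w hw => by rw [h0]; exact mem_closedBall_zero_iff.2 (hM w hw)) l2 hr
  simpa [h0] using this

/-- A function with derivative near a constant expands distances. -/
theorem expand {φ : ℂ → ℂ} {z l : ℂ} {R : ℝ} (hd : DifferentiableOn ℂ φ (ball z R))
    (hl : ∀ μ ∈ ball z R, ‖deriv φ μ - l‖ ≤ ‖l‖ / 2) {a b : ℂ} (ha : a ∈ ball z R)
    (hb : b ∈ ball z R) : ‖φ b - φ a - l * (b - a)‖ ≤ ‖l‖ / 2 * ‖b - a‖ ∧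
      ‖l‖ / 2 * ‖b - a‖ ≤ ‖φ b - φ a‖ := by
  have h1 := (convex_ball z R).norm_image_sub_le_of_norm_hasDerivWithin_le
    (f := fun μ => φ μ - l * μ) (f' := fun μ => deriv φ μ - l) (C := ‖l‖ / 2) (fun μ hμ => by
      have := ((hd.differentiableAt (isOpen_ball.mem_nhds hμ)).hasDerivAt.fun_sub
        ((hasDerivAt_id μ).const_mul l)).hasDerivWithinAt (s := ball z R)
      simpa using this) hl ha hb
  rw [show φ b - l * b - (φ a - l * a) = φ b - φ a - l * (b - a) by ring] at h1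
  refine ⟨h1, ?_⟩
  have h2 := norm_sub_le (φ b - φ a) (φ b - φ a - l * (b - a))
  rw [sub_sub_cancel, norm_mul] at h2
  linarith

/-- One root. -/
theorem root {φ : ℂ → ℂ} {z l : ℂ} {R : ℝ} (h0 : l ≠ 0) (hd : DifferentiableOn ℂ φ (ball z R))
    (hl : ∀ μ ∈ ball z R, ‖deriv φ μ - l‖ ≤ ‖l‖ / 2) (hz : ‖φ z‖ < ‖l‖ / 2 * R) :
    ∃ μ ∈ ball z R, φ μ = 0 := by
  have l0 : 0 < ‖l‖ := norm_pos_iff.2 h0
  set ρ := 2 * ‖φ z‖ / ‖l‖ with hρ
  have ρ0 : 0 ≤ ρ := by positivity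
  have ρ1 : ρ < R := by rw [hρ, div_lt_iff₀ l0]; linarith
  have hs : closedBall z ρ ⊆ ball z R := closedBall_subset_ball ρ1
  have hT : ∀ a ∈ closedBall z ρ, ∀ b ∈ closedBall z ρ,
      ‖b - φ b / l - (a - φ a / l)‖ ≤ 1 / 2 * ‖b - a‖ := fun a ha b hb => by
    rw [show b - φ b / l - (a - φ a / l) = -((φ b - φ a - l * (b - a)) / l) by field_simp; ring,
      norm_neg, norm_div, div_le_iff₀ l0]
    linarith [(expand hd hl (hs ha) (hs hb)).1]
  have hm : MapsTo (fun a => a - φ a / l) (closedBall z ρ) (closedBall z ρ) := fun b hb => by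
    have h1 := hT z (mem_closedBall_self ρ0) b hb
    have h2 := mem_closedBall_iff_norm.1 hb
    have h3 := norm_sub_le (b - φ b / l - (z - φ z / l)) (φ z / l)
    rw [norm_div, show ‖φ z‖ / ‖l‖ = ρ / 2 by rw [hρ]; ring,
      show b - φ b / l - (z - φ z / l) - φ z / l = b - φ b / l - z by ring] at h3
    exact mem_closedBall_iff_norm.2 (by linarith)
  obtain ⟨y, hy, hf, -⟩ := ContractingWith.exists_fixedPoint' (K := 1 / 2)
    isClosed_closedBall.isComplete hm ⟨by norm_num, LipschitzWith.of_dist_le_mul fun a b => by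
      have := hT b.1 b.2 a.1 a.2
      simpa [Subtype.dist_eq, dist_eq_norm] using this⟩ (mem_closedBall_self ρ0) (edist_ne_top _ _)
  refine ⟨y, hs hy, ?_⟩
  have h1 : y - φ y / l = y := hf
  have h2 : φ y / l = 0 := by linear_combination -h1
  exact (div_eq_zero_iff.1 h2).resolve_right h0

/-- Holomorphic solution of an equation with parameters. -/
theorem solve {P : Type*} [NormedAddCommGroup P] [NormedSpace ℂ P] {Ω : Set P} (hΩ : IsOpen Ω)
    {Φ : P × ℂ → ℂ} {z l : ℂ} {R : ℝ} (h0 : l ≠ 0) (hd : DifferentiableOn ℂ Φ (Ω ×ˢ ball z R))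
    (hl : ∀ p ∈ Ω, ∀ μ ∈ ball z R, ‖deriv (fun μ => Φ (p, μ)) μ - l‖ ≤ ‖l‖ / 2)
    (hz : ∀ p ∈ Ω, ‖Φ (p, z)‖ < ‖l‖ / 2 * R) :
    ∃ g : P → ℂ, DifferentiableOn ℂ g Ω ∧ ∀ p ∈ Ω, g p ∈ ball z R ∧ Φ (p, g p) = 0 ∧
      ∀ μ ∈ ball z R, ‖l‖ / 2 * ‖μ - g p‖ ≤ ‖Φ (p, μ)‖ := by
  have l0 : 0 < ‖l‖ := norm_pos_iff.2 h0
  have hs : ∀ p ∈ Ω, DifferentiableOn ℂ (fun μ => Φ (p, μ)) (ball z R) := fun p hp =>
    hd.comp (by fun_prop) fun μ hμ => ⟨hp, hμ⟩
  choose! g g1 g2 using fun p hp => root h0 (hs p hp) (hl p hp) (hz p hp)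
  have g3 : ∀ p ∈ Ω, ∀ μ ∈ ball z R, ‖l‖ / 2 * ‖μ - g p‖ ≤ ‖Φ (p, μ)‖ := fun p hp μ hμ => by
    have := (expand (hs p hp) (hl p hp) (g1 p hp) hμ).2
    rwa [g2 p hp, sub_zero] at this
  refine ⟨g, fun p hp => DifferentiableAt.differentiableWithinAt ?_,
    fun p hp => ⟨g1 p hp, g2 p hp, g3 p hp⟩⟩
  have hΦ := (hd.differentiableAt (x := (p, g p))
    ((hΩ.prod isOpen_ball).mem_nhds ⟨hp, g1 p hp⟩)).hasFDerivAt
  set L := fderiv ℂ Φ (p, g p) with hL
  have ha : L (0, 1) ≠ 0 := by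
    have h1 : HasDerivAt (fun μ : ℂ => (p, μ)) ((0 : P), (1 : ℂ)) (g p) :=
      (hasDerivAt_const _ p).prodMk (hasDerivAt_id _)
    have h2 : deriv (fun μ => Φ (p, μ)) (g p) = L (0, 1) := (hΦ.comp_hasDerivAt (g p) h1).deriv
    have h3 := hl p hp _ (g1 p hp)
    intro h4
    rw [h2, h4, zero_sub, norm_neg] at h3
    linarith
  have b1 : (fun q => g q - g p) =O[𝓝 p] fun q => q - p := by
    have h1 : DifferentiableAt ℂ (fun q => Φ (q, g p)) p :=
      hΦ.differentiableAt.comp p (by fun_prop)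
    refine IsBigO.trans (IsBigO.of_bound (2 / ‖l‖) ?_) h1.isBigO_sub
    filter_upwards [hΩ.mem_nhds hp] with q hq
    have h2 := g3 q hq _ (g1 p hp)
    rw [g2 p hp, sub_zero, norm_sub_rev, div_mul_eq_mul_div, le_div_iff₀ l0]
    linarith
  have b2 : (fun q => (q, g q) - (p, g p)) =O[𝓝 p] fun q => q - p :=
    (isBigO_refl _ _).prod_left b1
  have b3 : Tendsto (fun q => (q, g q)) (𝓝 p) (𝓝 (p, g p)) :=
    tendsto_sub_nhds_zero_iff.1 (b2.trans_tendsto (tendsto_sub_nhds_zero_iff.2 tendsto_id))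
  have b4 := ((hΦ.isLittleO.comp_tendsto b3).trans_isBigO b2).const_mul_left (-(L (0, 1))⁻¹)
  refine HasFDerivAt.differentiableAt (f' := -(L (0, 1))⁻¹ • L.comp (ContinuousLinearMap.inl ℂ P ℂ))
    (HasFDerivAt.of_isLittleO (b4.congr' ?_ EventuallyEq.rfl))
  filter_upwards [hΩ.mem_nhds hp] with q hq
  have e : L ((q, g q) - (p, g p)) = L (q - p, 0) + (g q - g p) * L (0, 1) := by
    rw [← smul_eq_mul, ← map_smul, ← map_add]
    simp
  simp only [Function.comp_apply, g2 p hp, g2 q hq, e, smul_apply, ContinuousLinearMap.comp_apply,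
    ContinuousLinearMap.inl_apply, smul_eq_mul]
  field_simp
  ring

end Pool.Agent.Lib.AO.K23
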