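import Pool.Agent.Lib.HS85.Frob

/-! Holomorphic ordinary differential equations: local existence and uniqueness. -/

open scoped Topology
open Set Filter Metric

namespace Pool.Agent.Lib.AO.O23

variable {F : Type*} [NormedAddCommGroup F] [NormedSpace ℂ F] [FiniteDimensional ℂ F]

/-- Local existence with a radius that is uniform near the initial point. -/
theorem loc (V : F → F) (y : F) (hV : ∀ᶠ q in 𝓝 y, DifferentiableAt ℂ V q) {N : Set F}
    (hN : N ∈ 𝓝 y) : ∃ ρ > 0, ∀ x ∈ ball y ρ, ∃ f : ℂ → F, f 0 = x ∧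
      ∀ z ∈ ball (0 : ℂ) ρ, HasDerivAt f (V (f z)) z ∧ f z ∈ N := by
  let L : F →L[ℂ] (ℂ →L[ℂ] F) := ContinuousLinearMap.smulRightL ℂ ℂ F (1 : ℂ →L[ℂ] ℂ)
  have hL : ∀ (a : F) (c : ℂ), L a c = c • a := fun a c => by simp [L]
  have h2 : Tendsto (fun q : ℂ × F => q.2) (𝓝 (0, y)) (𝓝 y) := continuous_snd.tendsto _
  obtain ⟨v, hv⟩ := Pool.Agent.HS85.frob (E := ℂ) (F := F) (fun q => L (V q.2)) 0 y (by
    filter_upwards [h2.eventually hV] with q hq
    have hd : HasFDerivAt (fun q : ℂ × F => L (V q.2))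
        (L.comp ((fderiv ℂ V q.2).comp (ContinuousLinearMap.snd ℂ ℂ F))) q :=
      L.hasFDerivAt.comp q (hq.hasFDerivAt.comp q hasFDerivAt_snd)
    refine ⟨hd.differentiableAt, fun ξ η => ?_⟩
    rw [hd.fderiv]
    simp only [ContinuousLinearMap.comp_apply, ContinuousLinearMap.coe_snd', hL, map_smul,
      smul_apply, smul_smul, mul_comm])
  have h0 := hv.self_of_nhds
  have hc : Tendsto v (𝓝 (0, y)) (𝓝 y) := by
    have := h0.1.continuousAt.tendsto
    rwa [show v (0, y) = y from h0.2.1] at this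
  obtain ⟨ρ, hρ, hb⟩ := Metric.eventually_nhds_iff_ball.1 (hv.and (hc.eventually hN))
  have hm : ∀ x ∈ ball y ρ, ∀ z ∈ ball (0 : ℂ) ρ, (z, x) ∈ ball ((0 : ℂ), y) ρ := fun x hx z hz => by
    rw [← ball_prod_same]; exact ⟨hz, hx⟩
  refine ⟨ρ, hρ, fun x hx => ⟨fun z => v (z, x), (hb _ (hm x hx 0 (mem_ball_self hρ))).1.2.1,
    fun z hz => ⟨?_, (hb _ (hm x hx z hz)).2⟩⟩⟩
  have h := (hb _ (hm x hx z hz)).1
  have h1 : HasDerivAt (fun z : ℂ => (z, x)) ((1 : ℂ), (0 : F)) z :=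
    (hasDerivAt_id z).prodMk (hasDerivAt_const z x)
  have h3 := h.1.hasFDerivAt.comp_hasDerivAt z h1
  rw [h.2.2 1, hL, one_smul] at h3
  exact h3

/-- Local uniqueness. -/
theorem uni_loc (V : F → F) {f g : ℂ → F} {a : ℂ} (hV : ∀ᶠ q in 𝓝 (f a), DifferentiableAt ℂ V q)
    (hf : ∀ᶠ z in 𝓝 a, HasDerivAt f (V (f z)) z) (hg : ∀ᶠ z in 𝓝 a, HasDerivAt g (V (g z)) z)
    (h : f a = g a) : f =ᶠ[𝓝 a] g := by
  have : CompleteSpace F := FiniteDimensional.complete ℂ F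
  have hV1 : ContDiffAt ℂ 1 V (f a) := Pool.Agent.Lib.SV.H85.contDiffAt_nat (k := 1) hV
  obtain ⟨K, t, ht, hK⟩ := hV1.exists_lipschitzOnWith
  have fa : AnalyticAt ℂ f a :=
    Complex.analyticAt_iff_eventually_differentiableAt.2 (hf.mono fun z hz => hz.differentiableAt)
  have ga : AnalyticAt ℂ g a :=
    Complex.analyticAt_iff_eventually_differentiableAt.2 (hg.mono fun z hz => hz.differentiableAt)
  have hT : Tendsto (fun s : ℝ => a + (s : ℂ)) (𝓝 0) (𝓝 a) :=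
    Continuous.tendsto' (by fun_prop) _ _ (by simp)
  have key : ∀ u : ℂ → F, u a = f a → (∀ᶠ z in 𝓝 a, HasDerivAt u (V (u z)) z) →
      ∀ᶠ s : ℝ in 𝓝 0, HasDerivAt (fun s : ℝ => u (a + s)) (V (u (a + s))) s ∧ u (a + s) ∈ t := by
    intro u hu hd
    have hc : ∀ᶠ z in 𝓝 a, u z ∈ t :=
      hd.self_of_nhds.continuousAt.eventually (by rw [hu]; exact ht)
    filter_upwards [hT.eventually hd, hT.eventually hc] with s h1 h2
    refine ⟨?_, h2⟩
    have h3 : HasDerivAt (fun z : ℂ => u (a + z)) (V (u (a + s))) (s : ℂ) :=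
      HasDerivAt.comp_const_add a (s : ℂ) h1
    have h4 := (h3.hasFDerivAt.restrictScalars ℝ).comp_hasDerivAt s Complex.ofRealCLM.hasDerivAt
    simpa [Function.comp_def] using h4
  have hr : (fun s : ℝ => f (a + s)) =ᶠ[𝓝 0] fun s : ℝ => g (a + s) :=
    ODE_solution_unique_of_eventually (v := fun _ => V) (s := fun _ => t) (K := K)
      (Eventually.of_forall fun _ => hK) (key f rfl hf) (key g h.symm hg) (by simpa using h)
  have hT' : Tendsto (fun s : ℝ => a + (s : ℂ)) (𝓝[≠] 0) (𝓝[≠] a) := by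
    refine tendsto_nhdsWithin_iff.2 ⟨hT.mono_left nhdsWithin_le_nhds, ?_⟩
    filter_upwards [self_mem_nhdsWithin] with s hs
    simpa using hs
  exact (fa.frequently_eq_iff_eventually_eq ga).1
    (hT'.frequently (hr.filter_mono nhdsWithin_le_nhds).frequently)

/-- Uniqueness on a connected open set. -/
theorem uni (V : F → F) {f g : ℂ → F} {U : Set ℂ} (hU : IsOpen U) (hc : IsPreconnected U) {a : ℂ}
    (ha : a ∈ U) (fd : DifferentiableOn ℂ f U) (gd : DifferentiableOn ℂ g U)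
    (hV : ∀ᶠ q in 𝓝 (f a), DifferentiableAt ℂ V q)
    (hf : ∀ᶠ z in 𝓝 a, HasDerivAt f (V (f z)) z) (hg : ∀ᶠ z in 𝓝 a, HasDerivAt g (V (g z)) z)
    (h : f a = g a) : EqOn f g U := by
  have : CompleteSpace F := FiniteDimensional.complete ℂ F
  exact (fd.analyticOnNhd hU).eqOn_of_preconnected_of_eventuallyEq (gd.analyticOnNhd hU) hc ha
    (uni_loc V hV hf hg h)

end Pool.Agent.Lib.AO.O23
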