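import Pool.Agent.Lib.AO.Blue
import Pool.Agent.Lib.AO.Kit23
import Pool.Agent.Lib.AO.Ode23

set_option autoImplicit false

noncomputable section

namespace Pool.Agent.AO

open Set Metric Filter Topology ComplexConjugate Pool.Agent.Lib.AO

namespace F23

theorem dA {Φ : ℂ → S3} {τ : ℂ} {v : S3} (h : HasDerivAt Φ v τ) : HasDerivAt (fA Φ) v.1 τ :=
  (ContinuousLinearMap.fst ℂ ℂ (ℂ × ℂ)).hasFDerivAt.comp_hasDerivAt τ h

theorem dS {Φ : ℂ → S3} {τ : ℂ} {v : S3} (h : HasDerivAt Φ v τ) :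
    HasDerivAt (fun s => (Φ s).2) v.2 τ :=
  (ContinuousLinearMap.snd ℂ ℂ (ℂ × ℂ)).hasFDerivAt.comp_hasDerivAt τ h

theorem dB {Φ : ℂ → S3} {τ : ℂ} {v : S3} (h : HasDerivAt Φ v τ) : HasDerivAt (fB Φ) v.2.1 τ :=
  (ContinuousLinearMap.fst ℂ ℂ ℂ).hasFDerivAt.comp_hasDerivAt τ (dS h)

theorem dY {Φ : ℂ → S3} {τ : ℂ} {v : S3} (h : HasDerivAt Φ v τ) : HasDerivAt (fY Φ) v.2.2 τ :=
  (ContinuousLinearMap.snd ℂ ℂ ℂ).hasFDerivAt.comp_hasDerivAt τ (dS h)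

theorem sA {d : Dat} {U : Set ℂ} {Φ : ℂ → S3} (h : Sol d U Φ) {τ : ℂ} (hτ : τ ∈ U) :
    HasDerivAt (fA Φ) (deriv (fA Φ) τ) τ :=
  (dA (h.df.differentiableAt (h.op.mem_nhds hτ)).hasDerivAt).differentiableAt.hasDerivAt

theorem sB {d : Dat} {U : Set ℂ} {Φ : ℂ → S3} (h : Sol d U Φ) {τ : ℂ} (hτ : τ ∈ U) :
    HasDerivAt (fB Φ) (deriv (fB Φ) τ) τ :=
  (dB (h.df.differentiableAt (h.op.mem_nhds hτ)).hasDerivAt).differentiableAt.hasDerivAt

theorem mk {d : Dat} {U : Set ℂ} {Φ : ℂ → S3} (hU : IsOpen U)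
    (h : ∀ τ ∈ U, ∃ a b : ℂ, HasDerivAt (fA Φ) a τ ∧ HasDerivAt (fB Φ) b τ ∧
      HasDerivAt (fY Φ) (fA Φ τ - fB Φ τ) τ ∧ d.p (fA Φ τ, fY Φ τ) = 0 ∧
      d.p (fB Φ τ, fY Φ τ) = 0 ∧ d.D (Φ τ) = 0 ∧ d.E (Φ τ) * a = -d.py (fA Φ τ, fY Φ τ) ∧
      d.E (sw (Φ τ)) * b = d.py (fB Φ τ, fY Φ τ)) : Sol d U Φ := by
  choose! a b h1 h2 h3 h4 h5 h6 h7 h8 using h
  exact ⟨hU, fun τ hτ => ((h1 τ hτ).prodMk
    ((h2 τ hτ).prodMk (h3 τ hτ))).differentiableAt.differentiableWithinAt, h4, h5, h6, h3,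
    fun τ hτ => by rw [(h1 τ hτ).deriv]; exact h7 τ hτ,
    fun τ hτ => by rw [(h2 τ hτ).deriv]; exact h8 τ hτ⟩

/-- The vector field. -/
def V (d : Dat) (σ : S3) : S3 :=
  (-d.py (σ.1, σ.2.2) / d.E σ, d.py (σ.2.1, σ.2.2) / d.E (sw σ), σ.1 - σ.2.1)

theorem reg_open (d : Dat) : IsOpen {σ | Reg d σ} :=
  (isOpen_ne_fun d.cE.continuous continuous_const).and
    (isOpen_ne_fun (d.cE.continuous.comp (by unfold sw; fun_prop)) continuous_const)

theorem V_diff (d : Dat) {σ : S3} (h : Reg d σ) : ∀ᶠ q in 𝓝 σ, DifferentiableAt ℂ (V d) q := by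
  have h1 := d.cpy.differentiable one_ne_zero
  have h2 := d.cE.differentiable one_ne_zero
  filter_upwards [(reg_open d).mem_nhds h] with q hq
  have h3 := hq.1
  have h4 := hq.2
  unfold V
  unfold sw at *
  fun_prop (disch := assumption)

theorem idn {U U0 : Set ℂ} (hU : IsOpen U) (hc : IsPreconnected U) (h0 : IsOpen U0)
    (hne : U0.Nonempty) (hs : U0 ⊆ U) {u v : ℂ → ℂ} (hu : DifferentiableOn ℂ u U)
    (hv : DifferentiableOn ℂ v U) (h : ∀ τ ∈ U0, u τ = v τ) : ∀ τ ∈ U, u τ = v τ := by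
  obtain ⟨x, hx⟩ := hne
  exact (hu.analyticOnNhd hU).eqOn_of_preconnected_of_eventuallyEq (hv.analyticOnNhd hU) hc (hs hx)
    (mem_of_superset (h0.mem_nhds hx) h)

end F23

open F23

theorem st_LOC : St_LOC := by
  intro d σ0 h
  obtain ⟨ρ, hρ, h1⟩ := O23.loc (V d) σ0 (V_diff d h) ((reg_open d).mem_nhds h)
  refine ⟨ρ, hρ, fun σ hσ hS c => ?_⟩
  obtain ⟨f, f0, hf⟩ := h1 σ hσ
  set Φ : ℂ → S3 := fun τ => f (τ - c) with hΦ
  have e0 : Φ c = σ := by simp only [hΦ, sub_self, f0]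
  have h2 : ∀ τ ∈ ball c ρ, HasDerivAt Φ (V d (Φ τ)) τ ∧ Reg d (Φ τ) := fun τ hτ => by
    have := hf (τ - c) (mem_ball_zero_iff.2 (mem_ball_iff_norm.1 hτ))
    exact ⟨this.1.comp_sub_const τ c, this.2⟩
  have eA : ∀ τ ∈ ball c ρ, d.E (Φ τ) * (V d (Φ τ)).1 = -d.py (fA Φ τ, fY Φ τ) :=
    fun τ hτ => mul_div_cancel₀ _ (h2 τ hτ).2.1
  have eB : ∀ τ ∈ ball c ρ, d.E (sw (Φ τ)) * (V d (Φ τ)).2.1 = d.py (fB Φ τ, fY Φ τ) :=
    fun τ hτ => mul_div_cancel₀ _ (h2 τ hτ).2.2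
  have cst : ∀ u : ℂ → ℂ, (∀ τ ∈ ball c ρ, HasDerivAt u 0 τ) → ∀ τ ∈ ball c ρ, u τ = u c :=
    fun u hu τ hτ => isOpen_ball.is_const_of_deriv_eq_zero (convex_ball c ρ).isPreconnected
      (fun z hz => (hu z hz).differentiableAt.differentiableWithinAt) (fun z hz => (hu z hz).deriv)
      hτ (mem_ball_self hρ)
  have hD : ∀ τ ∈ ball c ρ, d.D (Φ τ) = 0 := fun τ hτ => by
    refine (cst (fun s => d.D (fA Φ s, fB Φ s, fY Φ s)) (fun z hz => ?_) τ hτ).trans ?_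
    · refine (d.dD _ _ _ _ _ _ z (dA (h2 z hz).1) (dB (h2 z hz).1)
        (dY (h2 z hz).1)).congr_deriv ?_
      have a1 := eA z hz
      have a2 := eB z hz
      have a3 := d.hDy (fA Φ z) (fB Φ z) (fY Φ z)
      change d.E (Φ z) * _ + d.E (sw (Φ z)) * _ + _ * (fA Φ z - fB Φ z) = 0
      linear_combination a1 + a2 - a3
    · change d.D (Φ c) = 0
      rw [e0]
      exact hS.2.2
  have hp : ∀ τ ∈ ball c ρ, d.p (fA Φ τ, fY Φ τ) = 0 := fun τ hτ => by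
    refine (cst (fun s => d.p (fA Φ s, fY Φ s)) (fun z hz => ?_) τ hτ).trans ?_
    · refine (d.dp (dA (h2 z hz).1) (dY (h2 z hz).1)).congr_deriv ?_
      have a1 := eA z hz
      have a2 : d.px (fA Φ z, fY Φ z) = d.D (Φ z) + (fA Φ z - fB Φ z) * d.E (Φ z) :=
        d.hE (fA Φ z) (fB Φ z) (fY Φ z)
      rw [hD z hz] at a2
      change _ + _ * (fA Φ z - fB Φ z) = 0
      linear_combination (fA Φ z - fB Φ z) * a1 + (V d (Φ z)).1 * a2
    · simp only [fA, fY, e0]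
      exact hS.1
  refine ⟨Φ, mk isOpen_ball fun τ hτ => ⟨_, _, dA (h2 τ hτ).1, dB (h2 τ hτ).1, dY (h2 τ hτ).1,
    hp τ hτ, ?_, hD τ hτ, eA τ hτ, eB τ hτ⟩, e0⟩
  have a1 : _ = (fA Φ τ - fB Φ τ) * d.D (Φ τ) := d.hD (fA Φ τ) (fB Φ τ) (fY Φ τ)
  rw [hp τ hτ, hD τ hτ] at a1
  linear_combination -a1

theorem st_UNI : St_UNI := by
  intro d U Φ Ψ c hΦ hΨ hc hm e hr
  have key : ∀ Ω : ℂ → S3, Sol d U Ω → Reg d (Ω c) → ∀ᶠ z in 𝓝 c, HasDerivAt Ω (V d (Ω z)) z :=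
    fun Ω hΩ h => by
      have hn := hΩ.op.mem_nhds hm
      filter_upwards [hn, (hΩ.df.differentiableAt hn).continuousAt.eventually
        ((reg_open d).mem_nhds h)] with z hz h1
      exact ((sA hΩ hz).congr_deriv (eq_div_of_mul_eq h1.1 (by
        rw [mul_comm]; exact hΩ.dA z hz))).prodMk (((sB hΩ hz).congr_deriv
          (eq_div_of_mul_eq h1.2 (by rw [mul_comm]; exact hΩ.dB z hz))).prodMk (hΩ.dY z hz))
  exact O23.uni (V d) hΦ.op hc hm hΦ.df hΨ.df (V_diff d hr) (key Φ hΦ hr) (key Ψ hΨ (e ▸ hr)) e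

theorem st_EXT : St_EXT := by
  intro d U U0 Φ Ψ h hne hs hU hc hd he
  have hA : DifferentiableOn ℂ (fA Ψ) U := hd.fst
  have hB : DifferentiableOn ℂ (fB Ψ) U := hd.snd.fst
  have hY : DifferentiableOn ℂ (fY Ψ) U := hd.snd.snd
  have p1 := d.cp.differentiable one_ne_zero
  have p2 := d.cpy.differentiable one_ne_zero
  have p3 := d.cD.differentiable one_ne_zero
  have p4 := d.cE.differentiable one_ne_zero
  have ev : ∀ τ ∈ U0, Ψ =ᶠ[𝓝 τ] Φ := fun τ hτ => mem_of_superset (h.op.mem_nhds hτ) he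
  have eA : ∀ τ ∈ U0, deriv (fA Ψ) τ = deriv (fA Φ) τ := fun τ hτ =>
    ((ev τ hτ).fun_comp Prod.fst).deriv_eq
  have eB : ∀ τ ∈ U0, deriv (fB Ψ) τ = deriv (fB Φ) τ := fun τ hτ =>
    ((ev τ hτ).fun_comp fun σ : S3 => σ.2.1).deriv_eq
  have eY : ∀ τ ∈ U0, deriv (fY Ψ) τ = deriv (fY Φ) τ := fun τ hτ =>
    ((ev τ hτ).fun_comp fun σ : S3 => σ.2.2).deriv_eq
  have I := @idn U U0 hU hc h.op hne hs
  refine ⟨hU, hd, I (p1.comp_differentiableOn (hA.prodMk hY)) (differentiableOn_const 0)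
      fun τ hτ => ?_, I (p1.comp_differentiableOn (hB.prodMk hY)) (differentiableOn_const 0)
      fun τ hτ => ?_, I (p3.comp_differentiableOn hd) (differentiableOn_const 0) fun τ hτ => ?_,
    fun τ hτ => (hY.differentiableAt (hU.mem_nhds hτ)).hasDerivAt.congr_deriv
      (I (hY.deriv hU) (hA.sub hB) (fun τ hτ => ?_) τ hτ),
    I ((p4.comp_differentiableOn hd).mul (hA.deriv hU))
      (p2.comp_differentiableOn (hA.prodMk hY)).neg fun τ hτ => ?_,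
    I ((p4.comp_differentiableOn (hB.prodMk (hA.prodMk hY))).mul (hB.deriv hU))
      (p2.comp_differentiableOn (hB.prodMk hY)) fun τ hτ => ?_⟩
  · simpa only [Function.comp, fA, fY, he hτ] using h.pA τ hτ
  · simpa only [Function.comp, fB, fY, he hτ] using h.pB τ hτ
  · simpa only [Function.comp, he hτ] using h.pD τ hτ
  · rw [eY τ hτ, (h.dY τ hτ).deriv]
    simp only [Pi.sub_apply, fA, fB, he hτ]
  · have := h.dA τ hτ
    rw [← eA τ hτ] at this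
    simpa only [Function.comp, Pi.mul_apply, Pi.neg_apply, fA, fY, he hτ] using this
  · have := h.dB τ hτ
    rw [← eB τ hτ] at this
    simpa only [Function.comp, Pi.mul_apply, fA, fB, fY, sw, he hτ] using this

theorem st_SYM : St_SYM := by
  intro d U Φ h
  refine ⟨fun W hW hs => ⟨hW, h.df.mono hs, fun τ hτ => h.pA τ (hs hτ), fun τ hτ => h.pB τ (hs hτ),
    fun τ hτ => h.pD τ (hs hτ), fun τ hτ => h.dY τ (hs hτ), fun τ hτ => h.dA τ (hs hτ),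
    fun τ hτ => h.dB τ (hs hτ)⟩, fun c => mk (h.op.preimage (by fun_prop)) fun τ hτ =>
      ⟨_, _, (sA h hτ).comp_add_const τ c, (sB h hτ).comp_add_const τ c,
        (h.dY _ hτ).comp_add_const τ c, h.pA _ hτ, h.pB _ hτ, h.pD _ hτ, h.dA _ hτ, h.dB _ hτ⟩,
    fun c => mk (h.op.preimage (by fun_prop)) fun τ hτ =>
      ⟨_, _, (sB h hτ).comp_const_sub c τ, (sA h hτ).comp_const_sub c τ,
        ((h.dY _ hτ).comp_const_sub c τ).congr_deriv (neg_sub _ _), h.pB _ hτ, h.pA _ hτ,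
        (d.Ds _ _ _).trans (h.pD _ hτ), ?_, ?_⟩,
    mk (h.op.preimage Complex.continuous_conj) fun τ hτ => ?_,
    mk h.op fun τ hτ => ⟨_, _, (sB h hτ).neg, (sA h hτ).neg, (h.dY τ hτ).congr_deriv ?_,
      ?_, ?_, ?_, ?_, ?_⟩⟩
  · exact (mul_neg _ _).trans (congrArg Neg.neg (h.dB _ hτ))
  · exact (mul_neg _ _).trans ((congrArg Neg.neg (h.dA _ hτ)).trans (neg_neg _))
  · have cc : ∀ (u : ℂ → ℂ) (u' : ℂ), HasDerivAt u u' (conj τ) →
        HasDerivAt (fun s => conj (u (conj s))) (conj u') τ := fun u u' hu => by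
      have := hu.conj_conj
      rwa [Complex.conj_conj] at this
    refine ⟨_, _, cc _ _ (sA h hτ), cc _ _ (sB h hτ),
      (cc _ _ (h.dY _ hτ)).congr_deriv (map_sub _ _ _), (d.jp _ _).trans ?_, (d.jp _ _).trans ?_,
      (d.jD _ _ _).trans ?_, ?_, ?_⟩
    · exact (congrArg conj (h.pA _ hτ)).trans (map_zero _)
    · exact (congrArg conj (h.pB _ hτ)).trans (map_zero _)
    · exact (congrArg conj (h.pD _ hτ)).trans (map_zero _)
    · have := congrArg conj (h.dA _ hτ)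
      rw [map_mul, map_neg, ← d.jpy] at this
      exact (congrArg (· * _) (d.jE _ _ _)).trans this
    · have := congrArg conj (h.dB _ hτ)
      rw [map_mul, ← d.jpy] at this
      exact (congrArg (· * _) (d.jE _ _ _)).trans this
  · simp only [fA, fB, flp]; ring
  · simpa only [Dat.flip, fA, fB, fY, flp, neg_neg] using h.pB τ hτ
  · simpa only [Dat.flip, fA, fB, fY, flp, neg_neg] using h.pA τ hτ
  · simp only [Dat.flip, flp, neg_neg, neg_eq_zero]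
    exact (d.Ds _ _ _).trans (h.pD τ hτ)
  · simp only [Dat.flip, fA, fY, flp, neg_neg]
    exact (mul_neg _ _).trans (congrArg Neg.neg (h.dB _ hτ))
  · simp only [Dat.flip, fB, fY, flp, sw, neg_neg]
    exact (mul_neg _ _).trans ((congrArg Neg.neg (h.dA _ hτ)).trans (neg_neg _))

theorem st_GRON : St_GRON := by
  intro d hg
  obtain ⟨C, C0, hC⟩ := hg.g1
  refine ⟨C, C0, fun U Φ h hU τ hτ => ⟨hC _ _ (h.pA τ hτ), hC _ _ (h.pB τ hτ), fun τ' hτ' =>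
    K23.gron hU h.dY (fun z hz => ?_) hτ' hτ⟩⟩
  linarith [norm_sub_le (fA Φ z) (fB Φ z), hC _ _ (h.pA z hz), hC _ _ (h.pB z hz)]

theorem st_CLU : St_CLU := by
  intro d hg y0 ε hε
  obtain ⟨C, C0, hC⟩ := hg.g1
  set S := {x | d.p (x, y0) = 0} with hS
  have fS : S.Finite := hg.fin y0
  obtain ⟨η, ⟨η0, η1⟩, η2⟩ : ∃ η : ℝ, (0 < η ∧ η < ε / 2) ∧
      ∀ a ∈ S, ∀ a' ∈ S, a ≠ a' → η + η ≤ dist a a' := by
    refine (Eventually.and (Ioo_mem_nhdsGT (half_pos hε)) ((eventually_all_finite fS).2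
      fun a _ => (eventually_all_finite fS).2 fun a' _ => ?_)).exists
    by_cases e : a = a'
    · exact Eventually.of_forall fun _ h => absurd e h
    · filter_upwards [Ioo_mem_nhdsGT (half_pos (dist_pos.2 e))] with η hη _
      linarith [hη.2]
  have hO : IsOpen (⋃ a ∈ S, ball a η) := isOpen_biUnion fun _ _ => isOpen_ball
  have hK : IsCompact ((closedBall (0 : ℂ) (C * (2 + ‖y0‖)) ×ˢ closedBall y0 1) ∩
      ({q | d.p q = 0} ∩ Prod.fst ⁻¹' (⋃ a ∈ S, ball a η)ᶜ)) :=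
    ((isCompact_closedBall _ _).prod (isCompact_closedBall _ _)).inter_right
      ((isClosed_eq d.cp.continuous continuous_const).inter
        (hO.isClosed_compl.preimage continuous_fst))
  obtain ⟨δ, δ0, hδ⟩ := hK.exists_forall_le' (f := fun q => ‖q.2 - y0‖) (a := 0) (by fun_prop)
    fun q hq => norm_pos_iff.2 fun e => hq.2.2 (mem_biUnion (x := q.1) (by
      have := hq.2.1
      rwa [hS, mem_ofPred_eq, ← sub_eq_zero.1 e]) (mem_ball_self η0))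
  refine ⟨min δ 1, lt_min δ0 one_pos, fun W X Y hW hX h τ hτ τ' hτ' => ?_⟩
  have h1 : ∀ s ∈ W, X s ∈ ⋃ a ∈ S, ball a η := fun s hs => by
    by_contra hn
    obtain ⟨a1, a2⟩ := h s hs
    obtain ⟨a3, a4⟩ := lt_min_iff.1 a2
    refine (hδ (X s, Y s) ⟨⟨mem_closedBall_zero_iff.2 ((hC _ _ a1).trans
      (mul_le_mul_of_nonneg_left ?_ C0)), mem_closedBall_iff_norm.2 a4.le⟩, a1, hn⟩).not_gt a3
    linarith [norm_sub_norm_le (Y s) y0]
  obtain ⟨a, ha, h2⟩ := mem_iUnion₂.1 (h1 τ hτ)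
  have h3 : X τ' ∈ ball a η := (hW.image X hX).subset_left_of_subset_union (u := ball a η)
    (v := ⋃ a' ∈ S \ {a}, ball a' η) isOpen_ball (isOpen_biUnion fun _ _ => isOpen_ball)
    (disjoint_iUnion₂_right.2 fun a' h' => ball_disjoint_ball (η2 a ha a' h'.1 (Ne.symm h'.2)))
    (by
      rintro _ ⟨s, hs, rfl⟩
      obtain ⟨a', ha', h4⟩ := mem_iUnion₂.1 (h1 s hs)
      by_cases e : a' = a
      · exact Or.inl (e ▸ h4)
      · exact Or.inr (mem_biUnion (x := a') (mem_sdiff_of_mem ha' e) h4))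
    ⟨_, mem_image_of_mem X hτ, h2⟩ (mem_image_of_mem X hτ')
  rw [← dist_eq_norm]
  linarith [dist_triangle_right (X τ) (X τ') a, mem_ball.1 h2, mem_ball.1 h3]

end Pool.Agent.AO
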