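import Pool.Agent.Lib.AO.Blue

set_option autoImplicit false

noncomputable section

namespace Pool.Agent.AO

open Set Metric Filter Topology ComplexConjugate

theorem lim_res {d : Dat} {U V : Set ℂ} {Φ : ℂ → S3} (h : Sol d U Φ) (hV : IsOpen V)
    (hVU : V ⊆ U) : Sol d V Φ :=
  ⟨hV, h.df.mono hVU, fun τ t => h.pA τ (hVU t), fun τ t => h.pB τ (hVU t),
    fun τ t => h.pD τ (hVU t), fun τ t => h.dY τ (hVU t), fun τ t => h.dA τ (hVU t),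
    fun τ t => h.dB τ (hVU t)⟩

theorem lim_ball {U : Set ℂ} {b : ℂ} {P : ℂ → Prop} (h : ∀ᶠ τ in 𝓝[U] b, P τ) :
    ∃ ρ : ℝ, 0 < ρ ∧ ∀ τ ∈ U ∩ ball b ρ, P τ := by
  obtain ⟨ρ, hρ, H⟩ := Metric.mem_nhdsWithin_iff.1 h
  exact ⟨ρ, hρ, fun τ t => H ⟨t.2, t.1⟩⟩

theorem lim_ev {U : Set ℂ} {b : ℂ} {ρ : ℝ} (hρ : 0 < ρ) : ∀ᶠ τ in 𝓝[U] b, τ ∈ U ∩ ball b ρ :=
  inter_mem_nhdsWithin U (ball_mem_nhds b hρ)

theorem lim_cauchy {U : Set ℂ} {b : ℂ} (hb : b ∈ closure U) {X : ℂ → ℂ}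
    (h : ∀ ε : ℝ, 0 < ε → ∃ ρ : ℝ, 0 < ρ ∧ ∀ τ ∈ U ∩ ball b ρ, ∀ τ' ∈ U ∩ ball b ρ,
      ‖X τ - X τ'‖ ≤ ε) : ∃ a, Tendsto X (𝓝[U] b) (𝓝 a) := by
  have : (𝓝[U] b).NeBot := mem_closure_iff_nhdsWithin_neBot.1 hb
  refine cauchy_map_iff_exists_tendsto.1 (Metric.cauchy_iff.2 ⟨inferInstance, fun ε hε => ?_⟩)
  obtain ⟨ρ, hρ, H⟩ := h (ε / 2) (by positivity)
  refine ⟨X '' (U ∩ ball b ρ), image_mem_map (lim_ev hρ), ?_⟩
  rintro _ ⟨τ, t, rfl⟩ _ ⟨τ', t', rfl⟩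
  rw [dist_eq_norm]
  linarith [H τ t τ' t']

theorem lim_lip {d : Dat} {U : Set ℂ} {Φ : ℂ → S3} (h : Sol d U Φ) (hc : Convex ℝ U) {b : ℂ}
    {ρ M : ℝ} (hM : ∀ τ ∈ U ∩ ball b ρ, ‖fA Φ τ - fB Φ τ‖ ≤ M) :
    ∀ τ ∈ U ∩ ball b ρ, ∀ τ' ∈ U ∩ ball b ρ, ‖fY Φ τ - fY Φ τ'‖ ≤ M * (2 * ρ) := by
  intro τ t τ' t'
  have h1 := (hc.inter (convex_ball b ρ)).norm_image_sub_le_of_norm_hasDerivWithin_le
    (f := fY Φ) (f' := fun τ => fA Φ τ - fB Φ τ) (C := M)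
    (fun x hx => (h.dY x hx.1).hasDerivWithinAt) hM t' t
  have h0 : 0 ≤ M := (norm_nonneg _).trans (hM τ t)
  refine h1.trans (mul_le_mul_of_nonneg_left ?_ h0)
  have h2 := mem_ball_iff_norm.1 t.2
  have h3 := mem_ball_iff_norm.1 t'.2
  have h4 : τ - τ' = (τ - b) - (τ' - b) := by ring
  rw [h4]
  linarith [norm_sub_le (τ - b) (τ' - b)]

theorem lim_Y (hG : St_GRON) {d : Dat} {U : Set ℂ} {Φ : ℂ → S3} (g : Gen d) (h : Sol d U Φ)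
    (hc : Convex ℝ U) {b : ℂ} (hb : b ∈ closure U) : ∃ y, Tendsto (fY Φ) (𝓝[U] b) (𝓝 y) := by
  obtain ⟨C, C0, H⟩ := hG d g
  obtain ⟨τ0, t0⟩ := closure_nonempty_iff.1 ⟨b, hb⟩
  set M := (1 + ‖fY Φ τ0‖) * Real.exp (2 * C * (1 + ‖b - τ0‖)) with hM
  have M0 : 0 < M := by positivity
  have hw : ∀ τ ∈ U ∩ ball b 1, ‖fA Φ τ - fB Φ τ‖ ≤ 2 * C * M := by
    intro τ t
    obtain ⟨h1, h2, h3⟩ := H U Φ h hc τ t.1
    have h4 : ‖τ - τ0‖ ≤ 1 + ‖b - τ0‖ := by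
      have h5 := mem_ball_iff_norm.1 t.2
      have h6 : τ - τ0 = (τ - b) + (b - τ0) := by ring
      rw [h6]
      linarith [norm_add_le (τ - b) (b - τ0)]
    have h5 : 1 + ‖fY Φ τ‖ ≤ M := (h3 τ0 t0).trans (mul_le_mul_of_nonneg_left
      (Real.exp_le_exp.2 (mul_le_mul_of_nonneg_left h4 (by positivity))) (by positivity))
    have h6 := mul_le_mul_of_nonneg_left h5 C0
    linarith [norm_sub_le (fA Φ τ) (fB Φ τ)]
  refine lim_cauchy hb fun ε hε => ?_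
  set ρ := min 1 (ε / (4 * C * M + 1)) with hρ
  have hp : 0 < 4 * C * M + 1 := by positivity
  have ρ0 : 0 < ρ := lt_min one_pos (by positivity)
  refine ⟨ρ, ρ0, fun τ t τ' t' => (lim_lip h hc (M := 2 * C * M) (fun x hx => hw x
    ⟨hx.1, ball_subset_ball (min_le_left _ _) hx.2⟩) τ t τ' t').trans ?_⟩
  have h1 : ρ * (4 * C * M + 1) ≤ ε := (le_div_iff₀ hp).1 (min_le_right _ _)
  nlinarith

theorem lim_X (hC : St_CLU) {d : Dat} {U : Set ℂ} (g : Gen d) (hc : Convex ℝ U) {b y : ℂ}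
    (hb : b ∈ closure U) {X Y : ℂ → ℂ} (hX : ContinuousOn X U)
    (hp : ∀ τ ∈ U, d.p (X τ, Y τ) = 0) (hY : Tendsto Y (𝓝[U] b) (𝓝 y)) :
    ∃ a, Tendsto X (𝓝[U] b) (𝓝 a) := by
  refine lim_cauchy hb fun ε hε => ?_
  obtain ⟨δ, δ0, H⟩ := hC d g y ε hε
  obtain ⟨ρ, ρ0, hρ⟩ := lim_ball (hY.eventually (ball_mem_nhds y δ0))
  exact ⟨ρ, ρ0, H _ X Y (hc.inter (convex_ball b ρ)).isPreconnected (hX.mono inter_subset_left)
    fun τ t => ⟨hp τ t.1, mem_ball_iff_norm.1 (hρ τ t)⟩⟩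

theorem lim_cone {d : Dat} {U : Set ℂ} {Φ : ℂ → S3} (h : Sol d U Φ) (hc : Convex ℝ U)
    (hn : NZ U Φ) {b y : ℂ} (hb : b ∈ closure U) (hY : Tendsto (fY Φ) (𝓝[U] b) (𝓝 y)) {C : ℝ}
    (hw : ∀ᶠ τ in 𝓝[U] b, ‖fA Φ τ - fB Φ τ‖ ≤ C * ‖fY Φ τ - y‖) : False := by
  have : (𝓝[U] b).NeBot := mem_closure_iff_nhdsWithin_neBot.1 hb
  obtain ⟨ρ1, ρ0, H⟩ := lim_ball (hw.and (hY.eventually (ball_mem_nhds y one_pos)))
  set ρ := min ρ1 (1 / (4 * |C| + 1)) with hρ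
  have hp : 0 < 4 * |C| + 1 := by positivity
  have ρp : 0 < ρ := lt_min ρ0 (by positivity)
  have hρ2 : ρ * (4 * |C| + 1) ≤ 1 := (le_div_iff₀ hp).1 (min_le_right _ _)
  have H1 : ∀ τ ∈ U ∩ ball b ρ, ‖fA Φ τ - fB Φ τ‖ ≤ |C| * ‖fY Φ τ - y‖ ∧ ‖fY Φ τ - y‖ ≤ 1 := by
    intro τ t
    obtain ⟨h1, h2⟩ := H τ ⟨t.1, ball_subset_ball (min_le_left _ _) t.2⟩
    exact ⟨h1.trans (mul_le_mul_of_nonneg_right (le_abs_self C) (norm_nonneg _)),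
      (mem_ball_iff_norm.1 h2).le⟩
  have H2 : ∀ n : ℕ, ∀ τ ∈ U ∩ ball b ρ, ‖fY Φ τ - y‖ ≤ (1 / 2 : ℝ) ^ n := by
    intro n
    induction n with
    | zero => exact fun τ t => by simpa using (H1 τ t).2
    | succ n ih =>
      intro τ t
      have h1 := lim_lip h hc (M := |C| * (1 / 2 : ℝ) ^ n) (fun x hx => (H1 x hx).1.trans
        (mul_le_mul_of_nonneg_left (ih x hx) (abs_nonneg C))) τ t
      have h2 : ‖fY Φ τ - y‖ ≤ |C| * (1 / 2 : ℝ) ^ n * (2 * ρ) :=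
        le_of_tendsto ((tendsto_const_nhds.sub hY).norm) ((lim_ev ρp).mono h1)
      have h3 : (0 : ℝ) < (1 / 2) ^ n := by positivity
      rw [pow_succ]
      nlinarith [mul_le_mul_of_nonneg_left hρ2 h3.le, mul_pos h3 ρp]
  have H3 : ∀ τ ∈ U ∩ ball b ρ, fA Φ τ - fB Φ τ = 0 := by
    intro τ t
    have h1 : ‖fY Φ τ - y‖ ≤ 0 := ge_of_tendsto'
      (tendsto_pow_atTop_nhds_zero_of_lt_one (by norm_num) (by norm_num)) fun n => H2 n τ t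
    have h2 := (H1 τ t).1.trans (mul_le_mul_of_nonneg_left h1 (abs_nonneg C))
    rw [mul_zero] at h2
    exact norm_le_zero_iff.1 h2
  obtain ⟨c, hcU⟩ := (lim_ev (U := U) (b := b) ρp).exists
  have an : AnalyticOnNhd ℂ (fun τ => fA Φ τ - fB Φ τ) U :=
    (h.df.fst.sub h.df.snd.fst).analyticOnNhd h.op
  have h0 := an.eqOn_zero_of_preconnected_of_eventuallyEq_zero hc.isPreconnected hcU.1
    (Filter.eventually_of_mem ((h.op.inter isOpen_ball).mem_nhds hcU) H3)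
  obtain ⟨τ, t, ne⟩ := hn
  exact ne (sub_eq_zero.1 (h0 t))

theorem lim_sw : Continuous sw := by unfold sw; fun_prop

theorem lim_ext (hL : St_LOC) (hU : St_UNI) {d : Dat} {U : Set ℂ} {Φ : ℂ → S3} (h : Sol d U Φ)
    (hc : Convex ℝ U) {b : ℂ} (hb : b ∈ closure U) {σ : S3} (hσ : Tendsto Φ (𝓝[U] b) (𝓝 σ))
    (hr : Reg d σ) : Ext U Φ b := by
  have : (𝓝[U] b).NeBot := mem_closure_iff_nhdsWithin_neBot.1 hb
  obtain ⟨ρ, ρ0, H⟩ := hL d σ hr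
  have e1 := hσ.eventually (ball_mem_nhds σ ρ0)
  have e2 := hσ.eventually (d.cE.continuous.continuousAt.eventually_ne hr.1)
  have e3 := hσ.eventually ((d.cE.continuous.comp lim_sw).continuousAt.eventually_ne hr.2)
  obtain ⟨c, h1, h2, h3, h4⟩ := (e1.and (e2.and (e3.and
    (lim_ev (U := U) (b := b) (half_pos ρ0))))).exists
  obtain ⟨Ψ, hΨ, hΨc⟩ := H (Φ c) h1 ⟨h.pA c h4.1, h.pB c h4.1, h.pD c h4.1⟩ c
  have ho : IsOpen (U ∩ ball c ρ) := h.op.inter isOpen_ball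
  have he := hU d _ Φ Ψ c (lim_res h ho inter_subset_left) (lim_res hΨ ho inter_subset_right)
    (hc.inter (convex_ball c ρ)).isPreconnected ⟨h4.1, mem_ball_self ρ0⟩ hΨc.symm ⟨h2, h3⟩
  have hs : ball b (ρ / 2) ⊆ ball c ρ := by
    refine ball_subset_ball' ?_
    have := mem_ball'.1 h4.2
    linarith
  exact ⟨ρ / 2, half_pos ρ0, Ψ, hΨ.df.mono hs, fun τ t => (he ⟨t.2, hs t.1⟩).symm⟩

theorem st_LIM (hL : St_LOC) (hU : St_UNI) (hG : St_GRON) (hC : St_CLU) : St_LIM := by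
  intro d U Φ g h hc hn b hb
  have : (𝓝[U] b).NeBot := mem_closure_iff_nhdsWithin_neBot.1 hb
  obtain ⟨y, hY⟩ := lim_Y hG g h hc hb
  obtain ⟨a, hA⟩ := lim_X hC g hc hb (X := fA Φ) h.df.continuousOn.fst h.pA hY
  obtain ⟨a', hB⟩ := lim_X hC g hc hb (X := fB Φ) h.df.continuousOn.snd.fst h.pB hY
  have hσ : Tendsto Φ (𝓝[U] b) (𝓝 (a, a', y)) := hA.prodMk_nhds (hB.prodMk_nhds hY)
  have z : ∀ {f : ℂ → ℂ} {v : ℂ}, Tendsto f (𝓝[U] b) (𝓝 v) → (∀ τ ∈ U, f τ = 0) → v = 0 :=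
    fun hf h0 => tendsto_nhds_unique hf (tendsto_const_nhds.congr'
      (Filter.eventually_of_mem self_mem_nhdsWithin fun τ t => (h0 τ t).symm))
  have p1 : d.p (a, y) = 0 :=
    z ((d.cp.continuous.tendsto _).comp (hA.prodMk_nhds hY)) h.pA
  have p2 : d.p (a', y) = 0 :=
    z ((d.cp.continuous.tendsto _).comp (hB.prodMk_nhds hY)) h.pB
  have p3 : d.D (a, a', y) = 0 := z ((d.cD.continuous.tendsto _).comp hσ) h.pD
  refine ⟨(a, a', y), hσ, ⟨p1, p2, p3⟩, fun e => ?_, lim_ext hL hU h hc hb hσ, fun x1 x2 => ?_⟩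
  · have e' : a = a' := e
    subst e'
    have px0 : d.px (a, y) = 0 := by rw [← d.Dd]; exact p3
    have hy : d.py (a, y) ≠ 0 := by
      intro py0
      obtain ⟨C, δ, δ0, H⟩ := g.g5 a y p1 px0 py0
      refine lim_cone h hc hn hb hY (C := 2 * C) ?_
      filter_upwards [self_mem_nhdsWithin, hA.eventually (ball_mem_nhds a δ0),
        hB.eventually (ball_mem_nhds a δ0), hY.eventually (ball_mem_nhds y δ0)] with τ t t1 t2 t3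
      have h1 := H _ _ (h.pA τ t) (mem_ball_iff_norm.1 t1) (mem_ball_iff_norm.1 t3)
      have h2 := H _ _ (h.pB τ t) (mem_ball_iff_norm.1 t2) (mem_ball_iff_norm.1 t3)
      have h3 : fA Φ τ - fB Φ τ = (fA Φ τ - a) - (fB Φ τ - a) := by ring
      rw [h3]
      linarith [norm_sub_le (fA Φ τ - a) (fB Φ τ - a)]
    exact ⟨⟨g.g4 a y p1 px0 hy, g.g4 a y p1 px0 hy⟩, hy⟩
  · refine ⟨fun e => x1 ?_, fun e => x2 ?_⟩
    · have e' : d.E (a, a', y) = 0 := e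
      show d.px (a, y) = 0
      rw [d.hE a a' y, p3, e']; ring
    · have e' : d.E (a', a, y) = 0 := e
      show d.px (a', y) = 0
      rw [d.hE a' a y, d.Ds a' a y, p3, e']; ring

end Pool.Agent.AO
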