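import Pool.Agent.Lib.AO.Blue

set_option autoImplicit false

noncomputable section

namespace Pool.Agent.AO

open Set Metric Filter Topology ComplexConjugate

namespace K62

theorem ex_chd (C : Set (ℝ × ℝ)) {u : ℝ × ℝ} (hu : u ≠ 0) : ∃ σ : C → C, Chd C u σ := by
  have : ∀ x : C, ∃ y : C, (∃ t : ℝ, (y : ℝ × ℝ) = x + t • u) ∧
      (y = x → ∀ t : ℝ, (x : ℝ × ℝ) + t • u ∈ C → t = 0) := by
    intro x
    by_cases h : ∀ t : ℝ, (x : ℝ × ℝ) + t • u ∈ C → t = 0
    · exact ⟨x, ⟨0, by simp⟩, fun _ => h⟩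
    · push Not at h
      obtain ⟨t, h1, h2⟩ := h
      refine ⟨⟨_, h1⟩, ⟨t, rfl⟩, fun e => ?_⟩
      have e2 : (x : ℝ × ℝ) + t • u = x := congrArg Subtype.val e
      exact absurd ((smul_eq_zero.1 (add_eq_left.1 e2)).resolve_right hu) h2
  choose σ hσ using this
  exact ⟨σ, hσ⟩

theorem chord_eq {d : Dat} {K : Set (ℝ × ℝ)} (cv : CV d K) {u : ℝ × ℝ} (hu : u ≠ 0)
    {σ : frontier K → frontier K} (hσ : Chd (frontier K) u σ) (x y : frontier K) (c : ℝ)
    (e : (y : ℝ × ℝ) = x + c • u)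
    (h : c = 0 → d.px (rc x) * u.1 + d.py (rc x) * u.2 = 0) : σ x = y := by
  obtain ⟨⟨t, ht⟩, h2⟩ := hσ x
  have m : (x : ℝ × ℝ) + t • u ∈ frontier K := ht ▸ (σ x).2
  refine Subtype.ext ?_
  rw [ht, e]
  by_cases c0 : c = 0
  · have t0 : t = 0 := by
      by_contra t0
      refine cv.tr x x.2 (t • u) (smul_ne_zero t0 hu) (cv.ov.1.isClosed.frontier_subset m) ?_
      simp only [Prod.smul_fst, Prod.smul_snd, smul_eq_mul]
      push_cast
      linear_combination (t : ℂ) * h c0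
    rw [c0, t0]
  · have t0 : t ≠ 0 := by
      rintro rfl
      exact c0 (h2 (Subtype.ext (by simpa using ht)) c (e ▸ y.2))
    rw [cv.two x x.2 u t c hu t0 c0 m (e ▸ y.2)]

theorem reals {d : Dat} {h T : ℝ} {Φ : ℂ → S3} (hh : 0 < h) (ps : PSol d (strip h) T Φ) (t : ℝ) :
    (((fA Φ t).re : ℝ) : ℂ) = fA Φ t ∧ (((fB Φ t).re : ℝ) : ℂ) = fB Φ t ∧
      (((fY Φ t).re : ℝ) : ℂ) = fY Φ t := by
  have := ps.cnj t (by simpa [strip] using hh)
  rw [Complex.conj_ofReal] at this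
  exact ⟨Complex.conj_eq_iff_re.1 (congrArg (fun σ : S3 => σ.1) this).symm,
    Complex.conj_eq_iff_re.1 (congrArg (fun σ : S3 => σ.2.1) this).symm,
    Complex.conj_eq_iff_re.1 (congrArg (fun σ : S3 => σ.2.2) this).symm⟩

end K62

open K62 in
theorem st_LINK : St_LINK := by
  rintro d K h T Φ cv hh ps rp ⟨δ, d0, H⟩
  refine ⟨δ, d0, fun r r0 r1 q => ?_⟩
  have u1 : ((1, 0) : ℝ × ℝ) + r • ((0, 1) : ℝ × ℝ) ≠ 0 := fun e => by
    simpa using congrArg Prod.fst e
  have u2 : ((1, 0) : ℝ × ℝ) - r • ((0, 1) : ℝ × ℝ) ≠ 0 := fun e => by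
    simpa using congrArg Prod.fst e
  obtain ⟨σ₁, s1⟩ := ex_chd (frontier K) u1
  obtain ⟨σ₂, s2⟩ := ex_chd (frontier K) u2
  let LA : ℝ → frontier K := fun t => ⟨_, (rp.1 t).1⟩
  let LB : ℝ → frontier K := fun t => ⟨_, (rp.1 t).2⟩
  have ca : ∀ t : ℝ, rc (LA t) = (fA Φ t, fY Φ t) := fun t =>
    Prod.ext (reals hh ps t).1 (reals hh ps t).2.2
  have cb : ∀ t : ℝ, rc (LB t) = (fB Φ t, fY Φ t) := fun t =>
    Prod.ext (reals hh ps t).2.1 (reals hh ps t).2.2
  have one : ∀ τ μ : ℝ, Rel d Φ τ μ r → σ₁ (LB τ) = LA μ := by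
    rintro τ μ ⟨e1, e2⟩
    refine chord_eq cv u1 s1 _ _ ((fA Φ μ).re - (fB Φ τ).re) (Prod.ext ?_ ?_) fun c0 => ?_
    · simp [LA, LB]
    · have := congrArg Complex.re e1
      simp only [Complex.sub_re, Complex.re_ofReal_mul] at this
      simp only [LA, LB, Prod.snd_add, Prod.smul_snd, smul_eq_mul]
      linear_combination this
    · have := e2 (by rw [← (reals hh ps μ).1, ← (reals hh ps τ).2.1, sub_eq_zero.1 c0])
      rw [cb]
      simp only [Prod.fst_add, Prod.snd_add, Prod.smul_fst, Prod.smul_snd, smul_eq_mul]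
      push_cast
      linear_combination this
  have two : ∀ τ μ : ℝ, Rel d Φ τ μ (-r) → σ₂ (LA μ) = LB τ := by
    rintro τ μ ⟨e1, e2⟩
    refine chord_eq cv u2 s2 _ _ ((fB Φ τ).re - (fA Φ μ).re) (Prod.ext ?_ ?_) fun c0 => ?_
    · simp [LA, LB]
    · have := congrArg Complex.re e1
      simp only [Complex.sub_re, neg_mul, Complex.neg_re, Complex.re_ofReal_mul] at this
      simp only [LA, LB, Prod.snd_add, Prod.snd_sub, Prod.smul_snd, smul_eq_mul]
      linear_combination -this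
    · have e3 : fA Φ μ = fB Φ τ := by
        rw [← (reals hh ps μ).1, ← (reals hh ps τ).2.1, sub_eq_zero.1 c0]
      have e4 : fY Φ μ = fY Φ τ := by
        rw [e3] at e1
        linear_combination e1
      have := e2 e3
      rw [ca, e3, e4]
      simp only [Prod.fst_sub, Prod.snd_sub, Prod.smul_fst, Prod.smul_snd, smul_eq_mul]
      push_cast
      linear_combination this
  have ch : ∀ t t' : ℝ, Chain d Φ r q t t' → (σ₂ ∘ σ₁)^[q] (LB t) = LB t' := by
    rintro t t' ⟨τ, μ, e0, e1, hk⟩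
    have : ∀ k ≤ q, (σ₂ ∘ σ₁)^[k] (LB t) = LB (τ k) := by
      intro k
      induction k with
      | zero => intro _; simp [e0]
      | succ k ih =>
        intro hk'
        rw [Function.iterate_succ_apply', ih (by omega), Function.comp_apply,
          one _ _ (hk k (by omega)).1, two _ _ (hk k (by omega)).2]
    rw [this q le_rfl, e1]
  have same : ∀ t t' : ℝ, SameL Φ t' t ↔ LB t' = LB t := by
    intro t t'
    constructor
    · rintro ⟨a, b⟩
      exact Subtype.ext (Prod.ext (congrArg Complex.re a) (congrArg Complex.re b))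
    · intro e
      have := cb t'
      rw [e, cb] at this
      exact ⟨(congrArg Prod.fst this).symm, (congrArg Prod.snd this).symm⟩
  rintro ⟨t0, t0', c0, sm⟩ t t' c
  have fix := H r r0 r1 σ₁ σ₂ s1 s2 q (LB t0) (by rw [ch _ _ c0, (same _ _).1 sm]) (LB t)
  rw [ch _ _ c] at fix
  exact (same _ _).2 fix

end Pool.Agent.AO
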