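import Mathlib

set_option autoImplicit false

namespace Pool.Agent.Lib.AO.G62

open Set Filter Topology

/-- a function that is locally constant on a subset of a second countable space takes countably
many values there -/
theorem cnt {X Y : Type*} [TopologicalSpace X] [SecondCountableTopology X] {Z : Set X} {g : X → Y}
    (h : ∀ w0 ∈ Z, ∀ᶠ w in 𝓝[Z] w0, g w = g w0) : (g '' Z).Countable := by
  obtain ⟨S, _, hc, hU⟩ := TopologicalSpace.countable_cover_nhdsWithin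
    (f := fun w0 => {w | g w = g w0}) (s := Z) h
  refine (hc.image g).mono ?_
  rintro _ ⟨w, hw, rfl⟩
  obtain ⟨w0, h0, e⟩ := mem_iUnion₂.1 (hU hw)
  exact ⟨w0, h0, e.symm⟩

/-- analytic implicit function, second variable in terms of the first -/
theorem graph {F : ℂ × ℂ → ℂ} {z0 : ℂ × ℂ} (cd : ContDiffAt ℂ 2 F z0) (h0 : F z0 = 0)
    (h2 : fderiv ℂ F z0 (0, 1) ≠ 0) :
    ∃ η : ℂ → ℂ, AnalyticAt ℂ η z0.1 ∧ η z0.1 = z0.2 ∧ ∀ᶠ z in 𝓝 z0, (F z = 0 ↔ η z.1 = z.2) := by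
  have inv : (fderiv ℂ F z0 ∘L ContinuousLinearMap.inr ℂ ℂ ℂ).IsInvertible := by
    refine ⟨ContinuousLinearEquiv.unitsEquivAut ℂ (Units.mk0 _ h2), ?_⟩
    ext
    simp
  refine ⟨cd.implicitFunction (by simp) inv, ?_, cd.implicitFunction_apply_self _ _, ?_⟩
  · exact Complex.analyticAt_iff_eventually_differentiableAt.2
      (((cd.contDiffAt_implicitFunction (by simp) inv).eventually (by simp)).mono
        fun x hx => hx.differentiableAt (by simp))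
  · have := cd.eventually_apply_eq_iff_implicitFunction (by simp) inv
    rwa [h0] at this

theorem d1 {F : ℂ × ℂ → ℂ} (hF : ContDiff ℂ 2 F) (z : ℂ × ℂ) : DifferentiableAt ℂ F z :=
  hF.differentiable (by simp) z

theorem d2 {F : ℂ × ℂ → ℂ} (hF : ContDiff ℂ 2 F) (z : ℂ × ℂ) :
    DifferentiableAt ℂ (fderiv ℂ F) z :=
  (hF.fderiv_right (m := 1) le_rfl).differentiable one_ne_zero z

theorem split (L : ℂ × ℂ →L[ℂ] ℂ) (a b : ℂ) : L (a, b) = a * L (1, 0) + b * L (0, 1) := by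
  have e : ((a, b) : ℂ × ℂ) = a • ((1, 0) : ℂ × ℂ) + b • ((0, 1) : ℂ × ℂ) := by simp
  rw [e, map_add, map_smul, map_smul, smul_eq_mul, smul_eq_mul]

theorem line_deriv {F : ℂ × ℂ → ℂ} (hF : ContDiff ℂ 2 F) (z u : ℂ × ℂ) (s : ℂ) :
    HasDerivAt (fun s : ℂ => F (z + s • u)) (fderiv ℂ F (z + s • u) u) s := by
  have h1 : HasDerivAt (fun s : ℂ => z + s • u) u s := by
    simpa using ((hasDerivAt_id s).smul_const u).const_add z
  exact (d1 hF _).hasFDerivAt.comp_hasDerivAt s h1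

theorem clm2 {D : ℂ × ℂ → (ℂ × ℂ →L[ℂ] ℂ)} {γ δ : ℂ → ℂ × ℂ} {x : ℂ} {g d : ℂ × ℂ}
    (hD : DifferentiableAt ℂ D (γ x)) (h1 : HasDerivAt γ g x) (h2 : HasDerivAt δ d x) :
    HasDerivAt (fun s => D (γ s) (δ s)) (fderiv ℂ D (γ x) g (δ x) + D (γ x) d) x := by
  have h3 : HasDerivAt (fun s => D (γ s)) (fderiv ℂ D (γ x) g) x :=
    hD.hasFDerivAt.comp_hasDerivAt x h1
  exact h3.clm_apply h2

theorem line_deriv2 {F : ℂ × ℂ → ℂ} (hF : ContDiff ℂ 2 F) (z u : ℂ × ℂ) :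
    deriv (deriv fun s : ℂ => F (z + s • u)) 0 = fderiv ℂ (fderiv ℂ F) z u u := by
  have e : (deriv fun s : ℂ => F (z + s • u)) = fun s : ℂ => fderiv ℂ F (z + s • u) u :=
    funext fun s => (line_deriv hF z u s).deriv
  have h1 : HasDerivAt (fun s : ℂ => z + s • u) u 0 := by
    simpa using ((hasDerivAt_id (0 : ℂ)).smul_const u).const_add z
  have h3 := clm2 (D := fderiv ℂ F) (d2 hF _) h1 (hasDerivAt_const (0 : ℂ) u)
  rw [e, h3.deriv, zero_smul, add_zero, map_zero, add_zero]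

theorem first {F : ℂ × ℂ → ℂ} (hF : ContDiff ℂ 2 F) {η : ℂ → ℂ} {x : ℂ}
    (hη : AnalyticAt ℂ η x) (h0 : ∀ᶠ x' in 𝓝 x, F (x', η x') = 0) :
    fderiv ℂ F (x, η x) (1, deriv η x) = 0 := by
  have h1 : HasDerivAt (fun x' : ℂ => ((x', η x') : ℂ × ℂ)) (1, deriv η x) x :=
    (hasDerivAt_id x).prodMk hη.differentiableAt.hasDerivAt
  have h2 := (d1 hF (x, η x)).hasFDerivAt.comp_hasDerivAt x h1
  have h3 : HasDerivAt (F ∘ fun x' : ℂ => ((x', η x') : ℂ × ℂ)) 0 x :=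
    (hasDerivAt_const x (0 : ℂ)).congr_of_eventuallyEq h0
  exact h2.unique h3

theorem second {F : ℂ × ℂ → ℂ} (hF : ContDiff ℂ 2 F) {η : ℂ → ℂ} {x : ℂ}
    (hη : AnalyticAt ℂ η x) (h0 : ∀ᶠ x' in 𝓝 x, F (x', η x') = 0) :
    fderiv ℂ (fderiv ℂ F) (x, η x) (1, deriv η x) (1, deriv η x) +
      deriv (deriv η) x * fderiv ℂ F (x, η x) (0, 1) = 0 := by
  have h1 : HasDerivAt (fun x' : ℂ => ((x', η x') : ℂ × ℂ)) (1, deriv η x) x :=
    (hasDerivAt_id x).prodMk hη.differentiableAt.hasDerivAt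
  have h2 : HasDerivAt (fun x' : ℂ => ((1, deriv η x') : ℂ × ℂ)) (0, deriv (deriv η) x) x :=
    (hasDerivAt_const x (1 : ℂ)).prodMk hη.deriv.differentiableAt.hasDerivAt
  have h3 := clm2 (D := fderiv ℂ F) (d2 hF _) h1 h2
  have h4 : ∀ᶠ x' in 𝓝 x, fderiv ℂ F (x', η x') (1, deriv η x') = 0 := by
    filter_upwards [hη.eventually_analyticAt, h0.eventually_nhds] with x' a b
    exact first hF a b
  have h5 := h3.unique ((hasDerivAt_const x (0 : ℂ)).congr_of_eventuallyEq h4)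
  rw [split (fderiv ℂ F (x, η x)) 0, zero_mul, zero_add] at h5
  exact h5

/-- local structure of critical pairs near a smooth critical pair -/
theorem crit {F : ℂ × ℂ → ℂ} (hF : ContDiff ℂ 2 F) {z0 : ℂ × ℂ} {t0 : ℂ} (h0 : F z0 = 0)
    (h1 : fderiv ℂ F z0 ≠ 0) (h2 : fderiv ℂ F z0 (1, t0) = 0) :
    ∃ η : ℂ → ℂ, AnalyticAt ℂ η z0.1 ∧ ∀ᶠ z in 𝓝 z0, F z = 0 → η z.1 = z.2 ∧
      ∀ t, fderiv ℂ F z (1, t) = 0 → t = deriv η z.1 ∧
        (fderiv ℂ (fderiv ℂ F) z (1, t) (1, t) = 0 ↔ deriv (deriv η) z.1 = 0) := by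
  have h3 : fderiv ℂ F z0 (0, 1) ≠ 0 := by
    intro h
    rw [split, h] at h2
    apply h1
    refine ContinuousLinearMap.ext fun v => ?_
    have := split (fderiv ℂ F z0) v.1 v.2
    rw [h] at this
    simp only [one_mul, mul_zero, add_zero] at h2
    simpa [h2] using this
  obtain ⟨η, a1, a2, a3⟩ := graph hF.contDiffAt h0 h3
  refine ⟨η, a1, ?_⟩
  have c1 : ContinuousAt (fun x : ℂ => ((x, η x) : ℂ × ℂ)) z0.1 :=
    continuousAt_id.prodMk a1.continuousAt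
  have b1 : ∀ᶠ x in 𝓝 z0.1, F (x, η x) = 0 := by
    have a4 : ∀ᶠ z in 𝓝 ((z0.1, η z0.1) : ℂ × ℂ), (F z = 0 ↔ η z.1 = z.2) := by
      rw [a2]
      exact a3
    exact (c1.eventually a4).mono fun x hx => hx.2 rfl
  have b2 : ∀ᶠ z in 𝓝 z0, fderiv ℂ F z (0, 1) ≠ 0 :=
    (((d2 hF z0).continuousAt.clm_apply continuousAt_const)).eventually_ne h3
  have c2 : ContinuousAt (Prod.fst : ℂ × ℂ → ℂ) z0 := continuousAt_fst
  filter_upwards [a3, b2, c2.eventually a1.eventually_analyticAt,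
    c2.eventually b1.eventually_nhds] with z z1 z2 z3 z4 hz
  have e := z1.1 hz
  refine ⟨e, fun t ht => ?_⟩
  have f1 := first hF z3 z4
  have f2 := second hF z3 z4
  have ez : ((z.1, η z.1) : ℂ × ℂ) = z := by rw [e]
  rw [ez] at f1 f2
  have et : t = deriv η z.1 := by
    rw [split] at f1 ht
    refine mul_right_cancel₀ z2 ?_
    linear_combination ht - f1
  refine ⟨et, ?_⟩
  rw [et]
  constructor
  · intro h
    rw [h, zero_add] at f2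
    exact (mul_eq_zero.1 f2).resolve_right z2
  · intro h
    rw [h, zero_mul, add_zero] at f2
    exact f2

/-- G4a: countably many slopes of flex tangents -/
theorem flex_countable {F : ℂ × ℂ → ℂ} (hF : ContDiff ℂ 2 F) :
    {t : ℂ | ∃ z, F z = 0 ∧ fderiv ℂ F z ≠ 0 ∧ fderiv ℂ F z (1, t) = 0 ∧
      fderiv ℂ (fderiv ℂ F) z (1, t) (1, t) = 0}.Countable := by
  have key := cnt (Z := {e : (ℂ × ℂ) × ℂ | F e.1 = 0 ∧ fderiv ℂ F e.1 ≠ 0 ∧
    fderiv ℂ F e.1 (1, e.2) = 0 ∧ fderiv ℂ (fderiv ℂ F) e.1 (1, e.2) (1, e.2) = 0})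
    (g := Prod.snd) ?_
  · refine key.mono ?_
    rintro t ⟨z, hz⟩
    exact ⟨(z, t), hz, rfl⟩
  rintro ⟨z0, t0⟩ ⟨h0, h1, h2, h3⟩
  obtain ⟨η, a1, a2⟩ := crit hF h0 h1 h2
  have b0 := ((a2.self_of_nhds h0).2 t0 h2).1
  have loc : ∀ᶠ x in 𝓝 z0.1, deriv (deriv η) x = 0 → deriv η x = deriv η z0.1 := by
    rcases a1.deriv.deriv.eventually_eq_zero_or_eventually_ne_zero with c | c
    · obtain ⟨r, r0, hr⟩ := Metric.eventually_nhds_iff_ball.1 (c.and a1.deriv.eventually_analyticAt)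
      filter_upwards [Metric.ball_mem_nhds z0.1 r0] with x hx _
      exact Metric.isOpen_ball.is_const_of_deriv_eq_zero (convex_ball _ _).isPreconnected
        (fun y hy => (hr y hy).2.differentiableAt.differentiableWithinAt)
        (fun y hy => (hr y hy).1) hx (Metric.mem_ball_self r0)
    · filter_upwards [eventually_nhdsWithin_iff.1 c] with x hx h
      by_contra hn
      exact hx (fun e => hn (by rw [mem_singleton_iff.1 e])) h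
  have c1 : ContinuousAt (Prod.fst : (ℂ × ℂ) × ℂ → ℂ × ℂ) (z0, t0) := continuousAt_fst
  have c2 : ContinuousAt (fun e : (ℂ × ℂ) × ℂ => e.1.1) (z0, t0) := by fun_prop
  filter_upwards [mem_nhdsWithin_of_mem_nhds (c1.eventually a2),
    mem_nhdsWithin_of_mem_nhds (c2.eventually loc), self_mem_nhdsWithin] with e e1 e2 e3
  obtain ⟨f1, f2⟩ := (e1 e3.1).2 e.2 e3.2.2.1
  rw [f1, e2 (f2.1 e3.2.2.2)]
  exact b0.symm

/-- envelope estimate on a set of pairs (point, slope) -/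
theorem env_smooth {F : ℂ × ℂ → ℂ} (hF : ContDiff ℂ 2 F) {z0 : ℂ × ℂ} {t0 : ℂ}
    (h0 : F z0 = 0) (h1 : fderiv ℂ F z0 ≠ 0) (h2 : fderiv ℂ F z0 (1, t0) = 0)
    (h3 : fderiv ℂ (fderiv ℂ F) z0 (1, t0) (1, t0) ≠ 0) {ε : ℝ} (hε : 0 < ε) :
    ∀ᶠ z in 𝓝 z0, ∀ t, F z = 0 → fderiv ℂ F z (1, t) = 0 →
      ‖(z.2 - t * z.1) - (z0.2 - t0 * z0.1) + (t - t0) * z0.1‖ ≤ ε * ‖t - t0‖ := by
  obtain ⟨η, a1, a2⟩ := crit hF h0 h1 h2
  obtain ⟨b0, b1⟩ := a2.self_of_nhds h0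
  obtain ⟨b2, b3⟩ := b1 t0 h2
  have b4 : deriv (deriv η) z0.1 ≠ 0 := fun h => h3 (b3.2 h)
  have d1 := a1.differentiableAt.hasDerivAt
  have d2 := a1.deriv.differentiableAt.hasDerivAt
  have d3 : HasDerivAt (fun x => η x - η z0.1 - deriv η x * (x - z0.1)) 0 z0.1 := by
    have := (d1.sub_const (η z0.1)).fun_sub (d2.fun_mul ((hasDerivAt_id' z0.1).sub_const z0.1))
    refine this.congr_deriv ?_
    ring
  have o1 : (fun x => η x - η z0.1 - deriv η x * (x - z0.1)) =o[𝓝 z0.1] fun x => x - z0.1 := by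
    simpa using d3.isLittleO
  have o2 : (fun x => x - z0.1) =O[𝓝 z0.1] fun x => deriv η x - deriv η z0.1 :=
    (HasDerivAtFilter.isTheta_sub d2 b4).symm.isBigO.comp_tendsto (k := fun x => (x, z0.1))
      (tendsto_id.prodMk tendsto_const_pure)
  have o3 := (Asymptotics.isLittleO_iff.1 (o1.trans_isBigO o2)) hε
  have c2 : ContinuousAt (Prod.fst : ℂ × ℂ → ℂ) z0 := continuousAt_fst
  filter_upwards [a2, c2.eventually o3] with z z1 z2 t hz ht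
  obtain ⟨f0, f1⟩ := z1 hz
  have f2 := (f1 t ht).1
  rw [← f2, ← b2, f0, b0] at z2
  have e : (z.2 - t * z.1) - (z0.2 - t0 * z0.1) + (t - t0) * z0.1 =
      z.2 - z0.2 - t * (z.1 - z0.1) := by ring
  rwa [e]

/-- two families with the envelope estimate share a line at two different points for countably
many slopes only -/
theorem pair_countable {N N' : Set ((ℂ × ℂ) × ℂ)}
    (hN : ∀ e0 ∈ N, ∀ ε : ℝ, 0 < ε → ∀ᶠ e in 𝓝 e0, e ∈ N →
      ‖(e.1.2 - e.2 * e.1.1) - (e0.1.2 - e0.2 * e0.1.1) + (e.2 - e0.2) * e0.1.1‖ ≤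
        ε * ‖e.2 - e0.2‖)
    (hN' : ∀ e0 ∈ N', ∀ ε : ℝ, 0 < ε → ∀ᶠ e in 𝓝 e0, e ∈ N' →
      ‖(e.1.2 - e.2 * e.1.1) - (e0.1.2 - e0.2 * e0.1.1) + (e.2 - e0.2) * e0.1.1‖ ≤
        ε * ‖e.2 - e0.2‖) :
    {t : ℂ | ∃ (z : ℂ × ℂ) (s : ℂ), s ≠ 0 ∧ (z, t) ∈ N ∧
      (z + s • ((1, t) : ℂ × ℂ), t) ∈ N'}.Countable := by
  have key := cnt (Z := {e : (ℂ × ℂ) × ℂ × ℂ | e.2.1 ≠ 0 ∧ (e.1, e.2.2) ∈ N ∧
    (e.1 + e.2.1 • ((1, e.2.2) : ℂ × ℂ), e.2.2) ∈ N'}) (g := fun e => e.2.2) ?_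
  · refine key.mono ?_
    rintro t ⟨z, s, hz⟩
    exact ⟨(z, s, t), hz, rfl⟩
  rintro ⟨z0, s0, t0⟩ ⟨h0, h1, h2⟩
  have p : 0 < ‖s0‖ / 3 := by
    have : 0 < ‖s0‖ := norm_pos_iff.2 h0
    positivity
  have c1 : ContinuousAt (fun e : (ℂ × ℂ) × ℂ × ℂ => ((e.1, e.2.2) : (ℂ × ℂ) × ℂ))
      (z0, s0, t0) := by fun_prop
  have c2 : ContinuousAt (fun e : (ℂ × ℂ) × ℂ × ℂ =>
      ((e.1 + e.2.1 • ((1, e.2.2) : ℂ × ℂ), e.2.2) : (ℂ × ℂ) × ℂ)) (z0, s0, t0) := by fun_prop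
  filter_upwards [mem_nhdsWithin_of_mem_nhds (c1.eventually (hN _ h1 _ p)),
    mem_nhdsWithin_of_mem_nhds (c2.eventually (hN' _ h2 _ p)), self_mem_nhdsWithin] with e e1 e2 e3
  obtain ⟨z, s, t⟩ := e
  have f1 := e1 e3.2.1
  have f2 := e2 e3.2.2
  simp only [Prod.fst_add, Prod.snd_add, Prod.smul_mk, smul_eq_mul, mul_one] at f1 f2
  show t = t0
  by_contra hn
  have q : 0 < ‖t - t0‖ := norm_pos_iff.2 (sub_ne_zero.2 hn)
  have f3 := (norm_sub_le _ _).trans (add_le_add f2 f1)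
  have e : z.2 + s * t - t * (z.1 + s) - (z0.2 + s0 * t0 - t0 * (z0.1 + s0)) +
      (t - t0) * (z0.1 + s0) - (z.2 - t * z.1 - (z0.2 - t0 * z0.1) + (t - t0) * z0.1) =
      (t - t0) * s0 := by ring
  rw [e, norm_mul] at f3
  nlinarith [mul_pos q p]

/-- G3: countably many slopes with two critical points on one line -/
theorem bitangent_countable {F : ℂ × ℂ → ℂ} (hF : ContDiff ℂ 2 F)
    (hs : {z | F z = 0 ∧ fderiv ℂ F z = 0}.Countable) :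
    {t : ℂ | ∃ (z : ℂ × ℂ) (s : ℂ), s ≠ 0 ∧ F z = 0 ∧ fderiv ℂ F z (1, t) = 0 ∧
      F (z + s • ((1, t) : ℂ × ℂ)) = 0 ∧
      fderiv ℂ F (z + s • ((1, t) : ℂ × ℂ)) (1, t) = 0}.Countable := by
  let N : Option (ℂ × ℂ) → Set ((ℂ × ℂ) × ℂ) := fun i => match i with
    | none => {e | F e.1 = 0 ∧ fderiv ℂ F e.1 ≠ 0 ∧ fderiv ℂ F e.1 (1, e.2) = 0 ∧
        fderiv ℂ (fderiv ℂ F) e.1 (1, e.2) (1, e.2) ≠ 0}
    | some p => {e | e.1 = p}
  have hN : ∀ i, ∀ e0 ∈ N i, ∀ ε : ℝ, 0 < ε → ∀ᶠ e in 𝓝 e0, e ∈ N i →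
      ‖(e.1.2 - e.2 * e.1.1) - (e0.1.2 - e0.2 * e0.1.1) + (e.2 - e0.2) * e0.1.1‖ ≤
        ε * ‖e.2 - e0.2‖ := by
    rintro (_ | p) e0 h ε hε
    · have c1 : ContinuousAt (Prod.fst : (ℂ × ℂ) × ℂ → ℂ × ℂ) e0 := continuousAt_fst
      filter_upwards [c1.eventually (env_smooth hF h.1 h.2.1 h.2.2.1 h.2.2.2 hε)] with e he h'
      exact he e.2 h'.1 h'.2.2.1
    · refine Eventually.of_forall fun e h' => ?_
      have e1 : e.1 = e0.1 := (h' : e.1 = p).trans (h : e0.1 = p).symm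
      have e2 : (e.1.2 - e.2 * e.1.1) - (e0.1.2 - e0.2 * e0.1.1) + (e.2 - e0.2) * e0.1.1 = 0 := by
        rw [e1]
        ring
      rw [e2, norm_zero]
      positivity
  have hI : (insert none (some '' {z | F z = 0 ∧ fderiv ℂ F z = 0})).Countable :=
    (hs.image _).insert _
  have cls : ∀ (z : ℂ × ℂ) (t : ℂ), F z = 0 → fderiv ℂ F z (1, t) = 0 →
      (fderiv ℂ F z ≠ 0 → fderiv ℂ (fderiv ℂ F) z (1, t) (1, t) ≠ 0) →
      ∃ i ∈ insert none (some '' {z | F z = 0 ∧ fderiv ℂ F z = 0}), (z, t) ∈ N i := by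
    intro z t a b c
    by_cases h : fderiv ℂ F z = 0
    · exact ⟨some z, Or.inr ⟨z, ⟨a, h⟩, rfl⟩, rfl⟩
    · exact ⟨none, Or.inl rfl, a, h, b, c h⟩
  refine ((flex_countable hF).union
    (hI.biUnion fun i _ => hI.biUnion fun j _ => pair_countable (hN i) (hN j))).mono ?_
  rintro t ⟨z, s, s0, a1, a2, a3, a4⟩
  by_cases h : t ∈ {t : ℂ | ∃ z, F z = 0 ∧ fderiv ℂ F z ≠ 0 ∧ fderiv ℂ F z (1, t) = 0 ∧
      fderiv ℂ (fderiv ℂ F) z (1, t) (1, t) = 0}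
  · exact Or.inl h
  · obtain ⟨i, i1, i2⟩ := cls z t a1 a2 fun b c => h ⟨z, a1, b, a2, c⟩
    obtain ⟨j, j1, j2⟩ := cls _ t a3 a4 fun b c => h ⟨_, a3, b, a4, c⟩
    exact Or.inr (mem_iUnion₂.2 ⟨i, i1, mem_iUnion₂.2 ⟨j, j1, z, s, s0, i2, j2⟩⟩)

end Pool.Agent.Lib.AO.G62
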