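import Pool.Agent.Lib.AO.Blue
import Pool.Agent.Lib.AO.Gen62

set_option autoImplicit false

noncomputable section

namespace Pool.Agent.AO

open Set Metric Filter Topology ComplexConjugate Pool.Agent.Lib.AO

namespace B62

theorem fd (d : Dat) (z : ℂ × ℂ) (a b : ℂ) :
    fderiv ℂ d.p z (a, b) = d.px z * a + d.py z * b := by
  rw [(d.fp z).fderiv]
  simp

theorem c2 (d : Dat) : ContDiff ℂ 2 d.p := by
  have e : fderiv ℂ d.p = fun q => d.px q • ContinuousLinearMap.fst ℂ ℂ ℂ +
      d.py q • ContinuousLinearMap.snd ℂ ℂ ℂ := funext fun q => (d.fp q).fderiv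
  refine (contDiff_succ_iff_fderiv (n := 1)).2 ⟨d.cp.differentiable one_ne_zero, by simp, ?_⟩
  rw [e]
  exact (d.cpx.smul contDiff_const).add (d.cpy.smul contDiff_const)

theorem dx (d : Dat) (a y : ℂ) : HasDerivAt (fun s => d.p (s, y)) (d.px (a, y)) a := by
  simpa using d.dp (hasDerivAt_id' a) (hasDerivAt_const a y)

theorem dy (d : Dat) (a y : ℂ) : HasDerivAt (fun s => d.p (a, s)) (d.py (a, y)) y := by
  simpa using d.dp (hasDerivAt_const y a) (hasDerivAt_id' y)

theorem dxx (d : Dat) (a y : ℂ) : HasDerivAt (fun s => d.px (s, y)) (2 * d.E (a, a, y)) a := by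
  have h1 := d.dD (fun s => s) (fun _ => a) (fun _ => y) 1 0 0 a (hasDerivAt_id' a)
    (hasDerivAt_const a a) (hasDerivAt_const a y)
  have h2 : DifferentiableAt ℂ (fun s => d.E (s, a, y)) a :=
    (d.cE.differentiable one_ne_zero _).comp a (by fun_prop)
  have h3 := h1.fun_add (((hasDerivAt_id' a).sub_const a).fun_mul h2.hasDerivAt)
  have e : (fun s => d.px (s, y)) = fun s => d.D (s, a, y) + (s - a) * d.E (s, a, y) :=
    funext fun s => d.hE s a y
  rw [e]
  refine h3.congr_deriv ?_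
  ring

theorem shx {d0 d : Dat} {t : ℝ} (h : Shear d0 d t) (a y : ℂ) :
    d.px (a, y) = fderiv ℂ d0.p (a, t * a + y) (1, t) := by
  have h1 := d0.dp (hasDerivAt_id' a) (((hasDerivAt_id' a).const_mul (t : ℂ)).add_const y)
  have e : (fun s => d.p (s, y)) = fun s => d0.p (s, t * s + y) := funext fun s => h s y
  have h2 := dx d a y
  rw [e] at h2
  rw [h2.unique h1, fd, mul_one (t : ℂ)]

theorem shy {d0 d : Dat} {t : ℝ} (h : Shear d0 d t) (a y : ℂ) :
    d.py (a, y) = fderiv ℂ d0.p (a, t * a + y) (0, 1) := by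
  have h1 := d0.dp (hasDerivAt_const y a) ((hasDerivAt_id' y).const_add ((t : ℂ) * a))
  have e : (fun s => d.p (a, s)) = fun s => d0.p (a, t * a + s) := funext fun s => h a s
  have h2 := dy d a y
  rw [e] at h2
  rw [h2.unique h1, fd]

theorem shxx {d0 d : Dat} {t : ℝ} (h : Shear d0 d t) (a y : ℂ) :
    fderiv ℂ (fderiv ℂ d0.p) (a, t * a + y) (1, t) (1, t) = 2 * d.E (a, a, y) := by
  rw [← G62.line_deriv2 (c2 d0)]
  have e : (fun s : ℂ => d0.p ((a, t * a + y) + s • ((1, t) : ℂ × ℂ))) =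
      fun s => d.p (a + s, y) := by
    funext s
    rw [h]
    simp only [Prod.smul_mk, Prod.mk_add_mk, smul_eq_mul, mul_one]
    ring_nf
  have e2 : (deriv fun s => d.p (a + s, y)) = fun s => d.px (a + s, y) :=
    funext fun s => ((dx d (a + s) y).comp_const_add a s).deriv
  have h3 : HasDerivAt (fun s => d.px (s, y)) (2 * d.E (a, a, y)) (a + 0) := by
    rw [add_zero]
    exact dxx d a y
  rw [e, e2, (h3.comp_const_add a 0).deriv]

end B62

open B62 in
theorem st_GB : St_GB := by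
  intro d0 hs
  have hs' : {z | d0.p z = 0 ∧ fderiv ℂ d0.p z = 0}.Countable := by
    refine hs.countable.mono ?_
    rintro z ⟨h1, h2⟩
    have a := fd d0 z 1 0
    have b := fd d0 z 0 1
    rw [h2] at a b
    exact ⟨h1, by simpa using a.symm, by simpa using b.symm⟩
  refine ⟨_, ((G62.flex_countable (c2 d0)).union (G62.bitangent_countable (c2 d0) hs')).preimage
    Complex.ofReal_injective, fun t ht d h => ⟨fun a b y h1 h2 h3 h4 => ?_, fun a y h1 h2 h3 h4 => ?_⟩⟩
  · by_contra ne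
    have e : ((a, t * a + y) : ℂ × ℂ) + (b - a) • ((1, t) : ℂ × ℂ) = (b, t * b + y) := by
      simp only [Prod.smul_mk, Prod.mk_add_mk, smul_eq_mul, mul_one]
      exact Prod.ext (by ring) (by ring)
    refine ht (Or.inr ⟨(a, t * a + y), b - a, sub_ne_zero.2 (Ne.symm ne), ?_, ?_, ?_, ?_⟩)
    · rw [← h, h1]
    · rw [← shx h, h2]
    · rw [e, ← h, h3]
    · rw [e, ← shx h, h4]
  · refine ht (Or.inl ⟨(a, t * a + y), ?_, fun h0 => h3 ?_, ?_, ?_⟩)
    · rw [← h, h1]
    · rw [shy h, h0]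
      rfl
    · rw [← shx h, h2]
    · rw [shxx h, h4, mul_zero]

end Pool.Agent.AO
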