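import Pool.Agent.Lib.AO.Blue

set_option autoImplicit false

noncomputable section

namespace Pool.Agent.AO

open Set Metric Filter Topology ComplexConjugate

/-- A countable projection of an affine variety to a line is finite. -/
def St_CHEV : Prop :=
  ∀ (n : ℕ) (I : Set (MvPolynomial (Option (Fin n)) ℂ)),
    {t : ℂ | ∃ z : Fin n → ℂ, ∀ f ∈ I,
      MvPolynomial.eval (fun o : Option (Fin n) => o.elim t z) f = 0}.Countable →
    {t : ℂ | ∃ z : Fin n → ℂ, ∀ f ∈ I,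
      MvPolynomial.eval (fun o : Option (Fin n) => o.elim t z) f = 0}.Finite

def St_GBF : Prop :=
  ∀ (Q : MvPolynomial (Fin 2) ℝ) (d0 : Dat), (∀ x y, d0.p (x, y) = ev Q x y) →
    {q | d0.p q = 0 ∧ d0.px q = 0 ∧ d0.py q = 0}.Finite →
    ∃ N : Set ℝ, N.Finite ∧ ∀ t ∉ N, ∀ d, Shear d0 d t →
      (∀ a b y, d.p (a, y) = 0 → d.px (a, y) = 0 → d.p (b, y) = 0 → d.px (b, y) = 0 → a = b) ∧
      ∀ a y, d.p (a, y) = 0 → d.px (a, y) = 0 → d.py (a, y) ≠ 0 → d.E (a, a, y) ≠ 0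

def St_MAINF : Prop :=
  ∀ (K : Set (ℝ × ℝ)) (P : MvPolynomial (Fin 2) ℝ) (U : Set ℝ), IsCompact K →
    StrictConvex ℝ K → (interior K).Nonempty → Alg P (frontier K) → U.Infinite →
    (∀ t ∈ U, ∃ n : ℝ × ℝ, n.2 - t * n.1 ≠ 0 ∧ HypK (frontier K) (1, t) n) → Ell (frontier K)

end Pool.Agent.AO
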