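import Pool.Agent.Lib.AO.Out
import Pool.Agent.Lib.AO.B_GB
import Pool.Agent.Lib.AO.Blue2

set_option autoImplicit false

noncomputable section

namespace Pool.Agent.AO

open Set Metric Filter Topology MvPolynomial Pool.Agent.Lib.AO

/-- The closed point of the affine line at `t`. -/
def finPt (t : ℂ) : PrimeSpectrum (Polynomial ℂ) :=
  ⟨RingHom.ker (Polynomial.evalRingHom t), RingHom.ker_isPrime _⟩

theorem fin_cons {T : Set (PrimeSpectrum (Polynomial ℂ))} (hT : IsConstructible T) :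
    (finPt ⁻¹' T).Finite ∨ (finPt ⁻¹' T)ᶜ.Finite := by
  induction hT using IsConstructible.empty_union_induction with
  | open_retrocompact U hU _ =>
    obtain ⟨s, hs⟩ := (PrimeSpectrum.isOpen_iff U).1 hU
    by_cases h0 : ∃ g ∈ s, g ≠ 0
    · obtain ⟨g, gs, g0⟩ := h0
      refine Or.inr ((g.roots.toFinset.finite_toSet).subset fun t ht => ?_)
      have h1 : finPt t ∈ PrimeSpectrum.zeroLocus s := hs ▸ ht
      have h2 : g ∈ (finPt t).asIdeal := (PrimeSpectrum.mem_zeroLocus _ _).1 h1 gs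
      have h3 : g.eval t = 0 := h2
      simpa [g0] using h3
    · push Not at h0
      refine Or.inl (finite_empty.subset fun t ht => ?_)
      have h1 : finPt t ∈ Uᶜ := by
        rw [hs, PrimeSpectrum.mem_zeroLocus]
        intro g hg
        rw [h0 g hg]
        exact (finPt t).asIdeal.zero_mem
      exact h1 ht
  | union s _ t _ hs ht =>
    rw [preimage_union, compl_union]
    rcases hs with hs | hs
    · rcases ht with ht | ht
      · exact Or.inl (hs.union ht)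
      · exact Or.inr (ht.subset inter_subset_right)
    · exact Or.inr (hs.subset inter_subset_left)
  | compl s _ hs =>
    rw [preimage_compl, compl_compl]
    exact hs.symm

theorem fin_proj {σ : Type} [Finite σ] (i0 : σ) (F : Set (MvPolynomial σ ℂ))
    (hc : {t : ℂ | ∃ x : σ → ℂ, x i0 = t ∧ ∀ f ∈ F, aeval x f = 0}.Countable) :
    {t : ℂ | ∃ x : σ → ℂ, x i0 = t ∧ ∀ f ∈ F, aeval x f = 0}.Finite := by
  let φ : Polynomial ℂ →ₐ[ℂ] MvPolynomial σ ℂ := Polynomial.aeval (X i0)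
  have ft : φ.toRingHom.FiniteType := by
    refine RingHom.FiniteType.of_comp_finiteType (f := algebraMap ℂ (Polynomial ℂ)) ?_
    have e : φ.toRingHom.comp (algebraMap ℂ (Polynomial ℂ)) = algebraMap ℂ (MvPolynomial σ ℂ) :=
      RingHom.ext fun c => φ.commutes c
    rw [e]
    exact RingHom.finiteType_algebraMap.2 inferInstance
  have fp : φ.toRingHom.FinitePresentation := RingHom.FinitePresentation.of_finiteType.1 ft
  have cz : IsConstructible (PrimeSpectrum.zeroLocus F) := by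
    refine IsConstructible.of_compl (IsCompact.isConstructible ?_ ?_)
    · exact TopologicalSpace.NoetherianSpace.isCompact _
    · exact (PrimeSpectrum.isClosed_zeroLocus F).isOpen_compl
  have cs := fin_cons (PrimeSpectrum.isConstructible_comap_image fp cz)
  have ev1 : ∀ (x : σ → ℂ) (g : Polynomial ℂ), aeval x (φ g) = g.eval (x i0) := by
    intro x g
    simp only [φ]
    rw [← Polynomial.aeval_algHom_apply, aeval_X, Polynomial.coe_aeval_eq_eval]
  have eq : finPt ⁻¹' (PrimeSpectrum.comap φ.toRingHom '' PrimeSpectrum.zeroLocus F) =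
      {t : ℂ | ∃ x : σ → ℂ, x i0 = t ∧ ∀ f ∈ F, aeval x f = 0} := by
    ext t
    constructor
    · rintro ⟨P, hP, hPt⟩
      obtain ⟨m, hm, hPm⟩ := Ideal.exists_le_maximal P.asIdeal P.2.ne_top
      obtain ⟨x, rfl⟩ := (isMaximal_iff_eq_vanishingIdeal_singleton (K := ℂ)).1 hm
      refine ⟨x, ?_, fun f hf => (mem_vanishingIdeal_singleton_iff x f).1
        (hPm ((PrimeSpectrum.mem_zeroLocus _ _).1 hP hf))⟩
      have h1 : Polynomial.X - Polynomial.C t ∈ (finPt t).asIdeal := by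
        show Polynomial.eval t _ = 0
        simp
      rw [← hPt] at h1
      have h2 := (mem_vanishingIdeal_singleton_iff x _).1 (hPm h1)
      have h3 := (ev1 x (Polynomial.X - Polynomial.C t)).symm.trans h2
      simpa [sub_eq_zero] using h3
    · rintro ⟨x, rfl, hx⟩
      refine ⟨⟨vanishingIdeal ℂ {x}, inferInstance⟩, ?_, ?_⟩
      · exact (PrimeSpectrum.mem_zeroLocus _ _).2 fun f hf =>
          (mem_vanishingIdeal_singleton_iff x f).2 (hx f hf)
      · refine PrimeSpectrum.ext (Ideal.ext fun g => ?_)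
        refine (mem_vanishingIdeal_singleton_iff x (φ g)).trans ?_
        rw [ev1]
        exact Iff.rfl
  rw [eq] at cs
  refine cs.resolve_right fun h => ?_
  have := hc.union h.countable
  rw [union_compl_self] at this
  exact not_countable_complex this

/-- Polynomial functions. -/
def FinP {σ : Type} (g : (σ → ℂ) → ℂ) : Prop := ∃ f : MvPolynomial σ ℂ, ∀ x, aeval x f = g x

theorem FinP.const {σ : Type} (c : ℂ) : FinP fun _ : σ → ℂ => c := ⟨C c, fun _ => by simp⟩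

theorem FinP.var {σ : Type} (i : σ) : FinP fun x : σ → ℂ => x i := ⟨X i, fun _ => by simp⟩

theorem FinP.add {σ : Type} {g h : (σ → ℂ) → ℂ} (a : FinP g) (b : FinP h) :
    FinP fun x => g x + h x := by
  obtain ⟨f, hf⟩ := a
  obtain ⟨k, hk⟩ := b
  exact ⟨f + k, fun x => by rw [map_add, hf, hk]⟩

theorem FinP.mul {σ : Type} {g h : (σ → ℂ) → ℂ} (a : FinP g) (b : FinP h) :
    FinP fun x => g x * h x := by
  obtain ⟨f, hf⟩ := a
  obtain ⟨k, hk⟩ := b
  exact ⟨f * k, fun x => by rw [map_mul, hf, hk]⟩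

theorem FinP.ev {σ : Type} {g h : (σ → ℂ) → ℂ} (Q : MvPolynomial (Fin 2) ℝ) (a : FinP g)
    (b : FinP h) : FinP fun x => ev Q (g x) (h x) := by
  unfold Pool.Agent.AO.ev
  induction Q using MvPolynomial.induction_on with
  | C c => simpa using FinP.const (σ := σ) (c : ℂ)
  | add p q hp hq => simpa only [map_add] using hp.add hq
  | mul_X p i hp =>
    simp only [map_mul, aeval_X]
    fin_cases i
    · exact hp.mul a
    · exact hp.mul b

theorem fin_proj' {σ : Type} [Finite σ] (i0 : σ) (G : Set ((σ → ℂ) → ℂ)) (hG : ∀ g ∈ G, FinP g)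
    (hc : {t : ℂ | ∃ x : σ → ℂ, x i0 = t ∧ ∀ g ∈ G, g x = 0}.Countable) :
    {t : ℂ | ∃ x : σ → ℂ, x i0 = t ∧ ∀ g ∈ G, g x = 0}.Finite := by
  have e : {t : ℂ | ∃ x : σ → ℂ, x i0 = t ∧ ∀ g ∈ G, g x = 0} = {t : ℂ | ∃ x : σ → ℂ, x i0 = t ∧
      ∀ f ∈ {f : MvPolynomial σ ℂ | (fun x => aeval x f) ∈ G}, aeval x f = 0} := by
    ext t
    refine exists_congr fun x => and_congr_right fun _ => ⟨fun h f hf => h _ hf, fun h g hg => ?_⟩
    obtain ⟨f, hf⟩ := hG g hg
    rw [← hf]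
    exact h f (by rw [mem_ofPred_eq, funext hf]; exact hg)
  rw [e] at hc ⊢
  exact fin_proj i0 _ hc

theorem fin_fd2 {d0 d1 d2 : Dat} (h1 : d0.px = d1.p) (h2 : d0.py = d2.p) (z : ℂ × ℂ) (t : ℂ) :
    fderiv ℂ (fderiv ℂ d0.p) z (1, t) (1, t) =
      (d1.px z * 1 + d1.py z * t) * 1 + (d2.px z * 1 + d2.py z * t) * t := by
  rw [← G62.line_deriv2 (B62.c2 d0)]
  have e : (deriv fun s : ℂ => d0.p (z + s • ((1, t) : ℂ × ℂ))) = fun s : ℂ =>
      d1.p (z + s • ((1, t) : ℂ × ℂ)) * 1 + d2.p (z + s • ((1, t) : ℂ × ℂ)) * t :=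
    funext fun s => by rw [(G62.line_deriv (B62.c2 d0) z (1, t) s).deriv, B62.fd, h1, h2]
  have h := ((G62.line_deriv (B62.c2 d1) z (1, t) 0).mul_const 1).fun_add
    ((G62.line_deriv (B62.c2 d2) z (1, t) 0).mul_const t)
  rw [e, h.deriv, zero_smul, add_zero, B62.fd, B62.fd]

open B62 in
theorem fin_gb (hALG : St_ALG) (Q : MvPolynomial (Fin 2) ℝ) (d0 : Dat)
    (h0 : ∀ x y, d0.p (x, y) = ev Q x y ∧ d0.px (x, y) = ev (pderiv 0 Q) x y ∧
      d0.py (x, y) = ev (pderiv 1 Q) x y)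
    (hs : {q | d0.p q = 0 ∧ d0.px q = 0 ∧ d0.py q = 0}.Finite) :
    ∃ N : Set ℝ, N.Finite ∧ ∀ t ∉ N, ∀ d, Shear d0 d t →
      (∀ a b y, d.p (a, y) = 0 → d.px (a, y) = 0 → d.p (b, y) = 0 → d.px (b, y) = 0 → a = b) ∧
      ∀ a y, d.p (a, y) = 0 → d.px (a, y) = 0 → d.py (a, y) ≠ 0 → d.E (a, a, y) ≠ 0 := by
  have hs' : {z | d0.p z = 0 ∧ fderiv ℂ d0.p z = 0}.Countable := by
    refine hs.countable.mono ?_
    rintro z ⟨h1, h2⟩
    have a := fd d0 z 1 0
    have b := fd d0 z 0 1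
    rw [h2] at a b
    exact ⟨h1, by simpa using a.symm, by simpa using b.symm⟩
  obtain ⟨d1, h1⟩ := hALG (pderiv 0 Q)
  obtain ⟨d2, h2⟩ := hALG (pderiv 1 Q)
  have e1 : d0.px = d1.p := funext fun z => ((h0 z.1 z.2).2.1).trans (h1 z.1 z.2).1.symm
  have e2 : d0.py = d2.p := funext fun z => ((h0 z.1 z.2).2.2).trans (h2 z.1 z.2).1.symm
  have pP : ∀ {g h : (Fin 5 → ℂ) → ℂ}, FinP g → FinP h → FinP fun x => d0.p (g x, h x) :=
    fun a b => by simpa only [(h0 _ _).1] using FinP.ev Q a b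
  have pY : ∀ {g h : (Fin 5 → ℂ) → ℂ}, FinP g → FinP h → FinP fun x => d0.py (g x, h x) :=
    fun a b => by simpa only [(h0 _ _).2.2] using FinP.ev (pderiv 1 Q) a b
  have pD : ∀ {g h k : (Fin 5 → ℂ) → ℂ}, FinP g → FinP h → FinP k →
      FinP fun x => fderiv ℂ d0.p (g x, h x) (1, k x) := fun a b c => by
    simpa only [fd, (h0 _ _).2.1, (h0 _ _).2.2] using
      ((FinP.ev (pderiv 0 Q) a b).mul (FinP.const 1)).add ((FinP.ev (pderiv 1 Q) a b).mul c)
  have pH : ∀ {g h k : (Fin 5 → ℂ) → ℂ}, FinP g → FinP h → FinP k →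
      FinP fun x => fderiv ℂ (fderiv ℂ d0.p) (g x, h x) (1, k x) (1, k x) := fun a b c => by
    simpa only [fin_fd2 e1 e2, (h1 _ _).2.1, (h1 _ _).2.2, (h2 _ _).2.1, (h2 _ _).2.2] using
      ((((FinP.ev _ a b).mul (FinP.const 1)).add ((FinP.ev _ a b).mul c)).mul (FinP.const 1)).add
        ((((FinP.ev _ a b).mul (FinP.const 1)).add ((FinP.ev _ a b).mul c)).mul c)
  have v := FinP.var (σ := Fin 5)
  have f1 := fin_proj' (0 : Fin 5) {fun x => d0.p (x 1, x 2), fun x => x 3 * d0.py (x 1, x 2) + -1,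
      fun x => fderiv ℂ d0.p (x 1, x 2) (1, x 0),
      fun x => fderiv ℂ (fderiv ℂ d0.p) (x 1, x 2) (1, x 0) (1, x 0)} (by
      rintro g (rfl | rfl | rfl | rfl)
      · exact pP (v 1) (v 2)
      · exact ((v 3).mul (pY (v 1) (v 2))).add (FinP.const _)
      · exact pD (v 1) (v 2) (v 0)
      · exact pH (v 1) (v 2) (v 0)) (by
      refine (G62.flex_countable (c2 d0)).mono ?_
      rintro _ ⟨x, rfl, hx⟩
      simp only [mem_insert_iff, mem_singleton_iff, forall_eq_or_imp, forall_eq] at hx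
      refine ⟨(x 1, x 2), hx.1, fun h => ?_, hx.2.2.1, hx.2.2.2⟩
      have b := fd d0 (x 1, x 2) 0 1
      rw [h] at b
      have b' : d0.py (x 1, x 2) = 0 := by simpa using b.symm
      have := hx.2.1
      rw [b'] at this
      simp at this)
  have f2 := fin_proj' (0 : Fin 5) {fun x => x 4 * x 3 + -1, fun x => d0.p (x 1, x 2),
      fun x => fderiv ℂ d0.p (x 1, x 2) (1, x 0),
      fun x => d0.p (x 1 + x 3, x 2 + x 3 * x 0),
      fun x => fderiv ℂ d0.p (x 1 + x 3, x 2 + x 3 * x 0) (1, x 0)} (by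
      rintro g (rfl | rfl | rfl | rfl | rfl)
      · exact ((v 4).mul (v 3)).add (FinP.const _)
      · exact pP (v 1) (v 2)
      · exact pD (v 1) (v 2) (v 0)
      · exact pP ((v 1).add (v 3)) ((v 2).add ((v 3).mul (v 0)))
      · exact pD ((v 1).add (v 3)) ((v 2).add ((v 3).mul (v 0))) (v 0)) (by
      refine (G62.bitangent_countable (c2 d0) hs').mono ?_
      rintro _ ⟨x, rfl, hx⟩
      simp only [mem_insert_iff, mem_singleton_iff, forall_eq_or_imp, forall_eq] at hx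
      have e : ((x 1, x 2) : ℂ × ℂ) + x 3 • ((1, x 0) : ℂ × ℂ) = (x 1 + x 3, x 2 + x 3 * x 0) := by
        simp
      refine ⟨(x 1, x 2), x 3, fun h => ?_, hx.2.1, hx.2.2.1, e ▸ hx.2.2.2.1, e ▸ hx.2.2.2.2⟩
      have := hx.1
      rw [h] at this
      simp at this)
  refine ⟨_, (f1.union f2).preimage Complex.ofReal_injective.injOn, fun t ht d h =>
    ⟨fun a b y k1 k2 k3 k4 => ?_, fun a y k1 k2 k3 k4 => ?_⟩⟩
  · by_contra ne
    have ne' : b - a ≠ 0 := sub_ne_zero.2 (Ne.symm ne)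
    refine ht (Or.inr ⟨![t, a, t * a + y, b - a, (b - a)⁻¹], rfl, ?_⟩)
    have u1 : a + (b - a) = b := by ring
    have u2 : (t : ℂ) * a + y + (b - a) * t = t * b + y := by ring
    rintro g (rfl | rfl | rfl | rfl | rfl)
    · show (b - a)⁻¹ * (b - a) + -1 = 0
      rw [inv_mul_cancel₀ ne']; ring
    · show d0.p (a, t * a + y) = 0
      rw [← h, k1]
    · show fderiv ℂ d0.p (a, t * a + y) (1, (t : ℂ)) = 0
      rw [← shx h, k2]
    · show d0.p (a + (b - a), t * a + y + (b - a) * t) = 0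
      rw [u1, u2, ← h, k3]
    · show fderiv ℂ d0.p (a + (b - a), t * a + y + (b - a) * t) (1, (t : ℂ)) = 0
      rw [u1, u2, ← shx h, k4]
  · have w : d0.py (a, t * a + y) = d.py (a, y) := by rw [shy h, fd]; ring
    refine ht (Or.inl ⟨![t, a, t * a + y, (d.py (a, y))⁻¹, 0], rfl, ?_⟩)
    rintro g (rfl | rfl | rfl | rfl)
    · show d0.p (a, t * a + y) = 0
      rw [← h, k1]
    · show (d.py (a, y))⁻¹ * d0.py (a, t * a + y) + -1 = 0
      rw [w, inv_mul_cancel₀ k3]; ring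
    · show fderiv ℂ d0.p (a, t * a + y) (1, (t : ℂ)) = 0
      rw [← shx h, k2]
    · show fderiv ℂ (fderiv ℂ d0.p) (a, t * a + y) (1, (t : ℂ)) (1, (t : ℂ)) = 0
      rw [shxx h, k4, mul_zero]

theorem st_MAINF (hMIN : St_MIN) (hALG : St_ALG) (hGA : St_GA) (hGT : St_GT)
    (hCORE : St_CORE) : St_MAINF := by
  intro K P U hK hs hi hP hU h
  obtain ⟨Q, hQ, aQ⟩ := hMIN K P hK hs.convex hi hP
  obtain ⟨d0, h0⟩ := hALG Q
  obtain ⟨hfin, N1, f1, g1⟩ := hGA Q d0 hQ fun x y => (h0 x y).1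
  obtain ⟨N2, f2, g2⟩ := fin_gb hALG Q d0 h0 hfin
  obtain ⟨t, tU, tN⟩ : ∃ t ∈ U, t ∉ N1 ∪ N2 := by
    by_contra hc
    push Not at hc
    exact hU ((f1.union f2).subset hc)
  obtain ⟨n, hn, hH⟩ := h t tU
  obtain ⟨d, hd⟩ := hALG (aeval ![C 1 * X 0 + C 0 * X 1, C t * X 0 + C 1 * X 1] Q)
  obtain ⟨d', hd'⟩ := hALG (aeval ![C 1 * X 0 + C n.1 * X 1, C t * X 0 + C n.2 * X 1] Q)
  have sh : Shear d0 d t := fun x y => by
    rw [(hd x y).1, out_ev_lin, (h0 _ _).1]
    simp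
  have e' : ∀ x y, d'.p (x, y) = d0.p (x + n.1 * y, t * x + n.2 * y) := fun x y => by
    rw [(hd' x y).1, out_ev_lin, (h0 _ _).1]
    simp
  obtain ⟨a1, a2, a3, a4⟩ := g1 t (fun x => tN (Or.inl x)) d sh
  obtain ⟨a5, a6⟩ := g2 t (fun x => tN (Or.inr x)) d sh
  have G' : Gen d' := hGT d d' n.1 (n.2 - t * n.1) hn (fun x y => by
    rw [e', sh]
    congr 2
    push_cast
    ring) ⟨a1, a2, a3, a5, a6, a4⟩
  let L := outL t n hn
  have fr : frontier (L ⁻¹' K) = L ⁻¹' frontier K := (L.toHomeomorph.preimage_frontier K).symm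
  have ov : Ov d' (L ⁻¹' K) := by
    refine ⟨L.toHomeomorph.isCompact_preimage.2 hK,
      hs.linear_preimage L.toLinearEquiv.toLinearMap L.continuous L.injective, ?_, ?_⟩
    · obtain ⟨z, hz⟩ := hi
      refine ⟨L.symm z, ?_⟩
      have : interior (L ⁻¹' K) = L ⁻¹' interior K := (L.toHomeomorph.preimage_interior K).symm
      rw [this]
      simpa using hz
    · intro q hq
      rw [fr] at hq
      obtain ⟨z0, i, hi⟩ := aQ _ hq
      have c1 : (q.1 : ℂ) + n.1 * q.2 = ((L q).1 : ℝ) := by simp [L, outL_apply]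
      have c2 : (t : ℂ) * q.1 + n.2 * q.2 = ((L q).2 : ℝ) := by simp [L, outL_apply]
      refine ⟨by rw [rc, e', c1, c2, (h0 _ _).1, out_ev_real, z0]; simp, ?_⟩
      by_contra hc
      push Not at hc
      have u1 := (d'.dp (hasDerivAt_id (q.1 : ℂ)) (hasDerivAt_const _ (q.2 : ℂ))).unique
        ((d0.dp ((hasDerivAt_id (q.1 : ℂ)).add_const ((n.1 : ℂ) * q.2))
          (((hasDerivAt_id (q.1 : ℂ)).const_mul (t : ℂ)).add_const ((n.2 : ℂ) * q.2))).congr_of_eventuallyEq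
            (Eventually.of_forall fun s => e' s q.2))
      have u2 := (d'.dp (hasDerivAt_const _ (q.1 : ℂ)) (hasDerivAt_id (q.2 : ℂ))).unique
        ((d0.dp (((hasDerivAt_id (q.2 : ℂ)).const_mul (n.1 : ℂ)).const_add (q.1 : ℂ))
          (((hasDerivAt_id (q.2 : ℂ)).const_mul (n.2 : ℂ)).const_add ((t : ℂ) * q.1))).congr_of_eventuallyEq
            (Eventually.of_forall fun s => e' q.1 s))
      simp only [id, c1, c2] at u1 u2
      rw [show ((q.1 : ℂ), (q.2 : ℂ)) = rc q from rfl, hc.1, hc.2] at u1 u2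
      have k0 : ((n.2 : ℂ) - t * n.1) ≠ 0 := by exact_mod_cast hn
      have y0 : d0.py (((L q).1 : ℝ), ((L q).2 : ℝ)) = 0 := by
        apply mul_left_cancel₀ k0
        linear_combination n.1 * u1 - u2
      have x0 : d0.px (((L q).1 : ℝ), ((L q).2 : ℝ)) = 0 := by
        linear_combination -u1 - t * y0
      rw [(h0 _ _).2.2, out_ev_real] at y0
      rw [(h0 _ _).2.1, out_ev_real] at x0
      fin_cases i
      · exact hi (by exact_mod_cast x0)
      · exact hi (by exact_mod_cast y0)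
  refine out_ell L ?_
  rw [← fr]
  refine hCORE d' _ G' ov ?_
  rw [fr]
  refine out_hyp L ?_
  have l1 : L (1, 0) = (1, t) := by simp [L, outL_apply]
  have l2 : L (0, 1) = n := by simp [L, outL_apply]
  rw [l1, l2]
  exact hH

end Pool.Agent.AO
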