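import Mathlib

set_option autoImplicit false

namespace Pool.Agent.Lib.AO.Z62

open Set Filter Topology

theorem neg_false {y w G : ℝ → ℝ} (hy : ∀ t, HasDerivAt y (w t) t) (hw : ∀ t, HasDerivAt w (G t) t)
    (hG : Continuous G) {m M : ℝ} (m0 : 0 < m) (hm : ∀ t, m ≤ |w t| + |G t|)
    (hM : ∀ t, |y t| ≤ M) (hn : ∀ t, 0 < t → w t < 0) : False := by
  have wc : Continuous w := continuous_iff_continuousAt.2 fun t => (hw t).continuousAt
  have yc : Continuous y := continuous_iff_continuousAt.2 fun t => (hy t).continuousAt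
  have wd : Differentiable ℝ w := fun t => (hw t).differentiableAt
  have yd : Differentiable ℝ y := fun t => (hy t).differentiableAt
  have big : ∀ t, 0 < t → -(m / 2) < w t → m / 2 < |G t| := fun t t0 h => by
    have := hm t
    rw [abs_of_neg (hn t t0)] at this
    linarith
  have A : ∀ t0, 0 < t0 → -(m / 2) < w t0 → G t0 < 0 := by
    intro t0 p0 h0
    by_contra hp
    have g0 : 0 < G t0 := by
      have := big t0 p0 h0
      rw [abs_of_nonneg (not_lt.1 hp)] at this
      linarith
    have mono : ∀ b, t0 ≤ b → (∀ t, t0 < t → t < b → 0 ≤ G t) → w t0 ≤ w b := by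
      intro b hb h
      refine monotoneOn_of_deriv_nonneg (convex_Icc t0 b) wc.continuousOn wd.differentiableOn
        (fun t ht => ?_) ⟨le_rfl, hb⟩ ⟨hb, le_rfl⟩ hb
      rw [interior_Icc] at ht
      rw [(hw t).deriv]
      exact h t ht.1 ht.2
    have all : ∀ t, t0 ≤ t → 0 < G t := by
      by_contra hn'
      push Not at hn'
      have cl : IsClosed {t | t0 ≤ t ∧ G t ≤ 0} :=
        (isClosed_le continuous_const continuous_id).inter (isClosed_le hG continuous_const)
      have bd : BddBelow {t | t0 ≤ t ∧ G t ≤ 0} := ⟨t0, fun t ht => ht.1⟩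
      obtain ⟨s1, s2⟩ := cl.csInf_mem hn' bd
      have h1 := mono _ s1 fun t a b => by
        by_contra c
        exact absurd (csInf_le bd ⟨a.le, (not_le.1 c).le⟩) (not_le.2 b)
      have h2 := big _ (p0.trans_le s1) (h0.trans_le h1)
      obtain ⟨t, ht, e⟩ := intermediate_value_Icc' s1 hG.continuousOn ⟨s2, g0.le⟩
      have h3 := le_antisymm ht.2 (csInf_le bd ⟨ht.1, e.le⟩)
      rw [← h3, e, abs_zero] at h2
      linarith
    have h4 := (convex_Icc t0 (t0 + 1)).mul_sub_le_image_sub_of_le_deriv wc.continuousOn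
      wd.differentiableOn (C := m / 2) (fun t ht => by
        rw [interior_Icc] at ht
        have := big t (p0.trans ht.1) (h0.trans_le (mono t ht.1.le fun s a _ => (all s a.le).le))
        rw [abs_of_pos (all t ht.1.le)] at this
        rw [(hw t).deriv]
        exact this.le) t0 ⟨le_rfl, by linarith⟩ (t0 + 1) ⟨by linarith, le_rfl⟩ (by linarith)
    have := hn (t0 + 1) (by linarith)
    linarith
  obtain ⟨c, c0, c1, c2⟩ : ∃ c : ℝ, 0 < c ∧ w 1 ≤ -c ∧ c < m / 2 :=
    ⟨min (-w 1) (m / 4), lt_min (by linarith [hn 1 one_pos]) (by linarith),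
      by linarith [min_le_left (-w 1) (m / 4)], by linarith [min_le_right (-w 1) (m / 4)]⟩
  have B : ∀ t, 1 ≤ t → w t ≤ -c := fun t ht =>
    image_le_of_deriv_right_lt_deriv_boundary (f := w) (f' := G) (a := 1) (b := t)
      wc.continuousOn (fun x _ => (hw x).hasDerivWithinAt) (B := fun _ => -c) (B' := fun _ => 0) c1
      (fun x => hasDerivAt_const x _)
      (fun x hx e => A x (by linarith [hx.1]) (by rw [e]; linarith)) ⟨ht, le_rfl⟩
  have M0 : 0 ≤ M := (abs_nonneg _).trans (hM 0)
  have L0 : 0 < (2 * M + 1) / c := by positivity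
  have h5 := (convex_Ici (1 : ℝ)).image_sub_le_mul_sub_of_deriv_le yc.continuousOn
    yd.differentiableOn (C := -c) (fun t ht => by
      rw [(hy t).deriv]
      exact B t (interior_subset ht)) 1 self_mem_Ici (1 + (2 * M + 1) / c)
      (by show (1 : ℝ) ≤ _; linarith) (by linarith)
  have e : -c * (1 + (2 * M + 1) / c - 1) = -(2 * M + 1) := by field_simp; ring
  rw [e] at h5
  linarith [abs_le.1 (hM 1), abs_le.1 (hM (1 + (2 * M + 1) / c))]

/-- first positive zero of the velocity of a bounded motion without rest points -/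
theorem first_zero {y w G : ℝ → ℝ} (hy : ∀ t, HasDerivAt y (w t) t)
    (hw : ∀ t, HasDerivAt w (G t) t) (hG : Continuous G) {m M : ℝ} (m0 : 0 < m)
    (hm : ∀ t, m ≤ |w t| + |G t|) (hM : ∀ t, |y t| ≤ M) (h0 : w 0 = 0) :
    ∃ t1, 0 < t1 ∧ w t1 = 0 ∧ ∀ t, 0 < t → t < t1 → w t ≠ 0 := by
  have wc : Continuous w := continuous_iff_continuousAt.2 fun t => (hw t).continuousAt
  obtain ⟨t2, p2, z2⟩ : ∃ t, 0 < t ∧ w t = 0 := by
    by_contra hn
    push Not at hn
    have sg : ∀ a b, 0 < a → 0 < b → w a < 0 → 0 < w b → False := by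
      intro a b a0 b0 ha hb
      obtain ⟨t, ht, e⟩ := isPreconnected_Ioi.intermediate_value a0 b0 wc.continuousOn
        ⟨ha.le, hb.le⟩
      exact hn t ht e
    rcases lt_or_gt_of_ne (hn 1 one_pos) with a | a
    · exact neg_false hy hw hG m0 hm hM fun t t0 =>
        (lt_or_gt_of_ne (hn t t0)).resolve_right fun b => sg 1 t one_pos t0 a b
    · refine neg_false (y := fun t => -y t) (w := fun t => -w t) (G := fun t => -G t)
        (fun t => (hy t).neg) (fun t => (hw t).neg) hG.neg m0 (fun t => by simpa using hm t)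
        (M := M) (fun t => by simpa using hM t) fun t t0 => ?_
      have := (lt_or_gt_of_ne (hn t t0)).resolve_left fun b => sg t 1 t0 one_pos b a
      linarith
  have g0 : G 0 ≠ 0 := fun e => by
    have := hm 0
    rw [h0, e] at this
    simp only [abs_zero, add_zero] at this
    linarith
  obtain ⟨ε, e0, he⟩ := Metric.eventually_nhds_iff.1
    (eventually_nhdsWithin_iff.1 ((hw 0).eventually_ne (c := 0) g0))
  have far : ∀ t, 0 < t → w t = 0 → ε ≤ t := fun t t0 z => by
    by_contra c
    exact he (by rw [Real.dist_eq, sub_zero, abs_of_pos t0]; exact not_le.1 c) t0.ne' z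
  have cl : IsClosed {t | ε ≤ t ∧ w t = 0} :=
    (isClosed_le continuous_const continuous_id).inter (isClosed_eq wc continuous_const)
  have bd : BddBelow {t | ε ≤ t ∧ w t = 0} := ⟨ε, fun t ht => ht.1⟩
  obtain ⟨s1, s2⟩ := cl.csInf_mem ⟨t2, far t2 p2 z2, z2⟩ bd
  exact ⟨_, e0.trans_le s1, s2, fun t t0 b z =>
    absurd (csInf_le bd ⟨far t t0 z, z⟩) (not_le.2 b)⟩

end Pool.Agent.Lib.AO.Z62
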