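import Pool.Agent.Lib.AO.Str62
import Pool.Agent.Lib.AO.Zero62

set_option autoImplicit false

noncomputable section

namespace Pool.Agent.AO

open Set Metric Filter Topology ComplexConjugate Pool.Agent.Lib.AO

namespace R62

/-- real states with both ends on the curve -/
def XS (d : Dat) (C : Set (ℝ × ℝ)) : Set S3 :=
  {σ | ∃ a b y : ℝ, σ = ((a : ℂ), (b : ℂ), (y : ℂ)) ∧ (a, y) ∈ C ∧ (b, y) ∈ C ∧ d.D σ = 0}

theorem xs_compact (d : Dat) {C : Set (ℝ × ℝ)} (hC : IsCompact C) : IsCompact (XS d C) := by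
  have c : Continuous fun q : (ℝ × ℝ) × ℝ × ℝ => (((q.1.1 : ℂ), (q.2.1 : ℂ), (q.1.2 : ℂ)) : S3) := by
    fun_prop
  have cl : IsClosed {q : (ℝ × ℝ) × ℝ × ℝ | q.1.2 = q.2.2 ∧
      d.D ((q.1.1 : ℂ), (q.2.1 : ℂ), (q.1.2 : ℂ)) = 0} :=
    (isClosed_eq (by fun_prop) (by fun_prop)).inter
      (isClosed_eq (d.cD.continuous.comp c) continuous_const)
  have e : XS d C = (fun q : (ℝ × ℝ) × ℝ × ℝ => (((q.1.1 : ℂ), (q.2.1 : ℂ), (q.1.2 : ℂ)) : S3)) ''
      (C ×ˢ C ∩ {q : (ℝ × ℝ) × ℝ × ℝ | q.1.2 = q.2.2 ∧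
        d.D ((q.1.1 : ℂ), (q.2.1 : ℂ), (q.1.2 : ℂ)) = 0}) := by
    ext σ
    constructor
    · rintro ⟨a, b, y, rfl, h1, h2, h3⟩
      exact ⟨((a, y), (b, y)), ⟨⟨h1, h2⟩, rfl, h3⟩, rfl⟩
    · rintro ⟨⟨⟨a, y⟩, b, z⟩, ⟨⟨h1, h2⟩, h3, h4⟩, rfl⟩
      have h5 : y = z := h3
      subst h5
      exact ⟨a, b, y, rfl, h1, h2, h4⟩
  rw [e]
  exact ((hC.prod hC).inter_right cl).image c

theorem px_ne {d : Dat} {K : Set (ℝ × ℝ)} (cv : CV d K) {a b y : ℝ} (ha : (a, y) ∈ frontier K)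
    (hb : (b, y) ∈ frontier K) (ne : a ≠ b) : d.px (a, y) ≠ 0 := by
  intro h
  refine cv.tr _ ha (b - a, 0) (fun e => ne ?_)
    (by simpa using cv.ov.1.isClosed.frontier_subset hb) ?_
  · have := congrArg Prod.fst e
    simp only [Prod.fst_zero] at this
    linarith
  · simp [rc, h]

theorem diag {d : Dat} {K : Set (ℝ × ℝ)} (g : Gen d) (cv : CV d K) {a y : ℝ}
    (ha : (a, y) ∈ frontier K) (h : d.D (a, a, y) = 0) :
    d.px (a, y) = 0 ∧ d.py (a, y) ≠ 0 ∧ d.E (a, a, y) ≠ 0 := by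
  rw [d.Dd] at h
  obtain ⟨h1, h2⟩ := cv.ov.2.2.2 _ ha
  have h3 : d.py (a, y) ≠ 0 := h2.resolve_left (not_not.2 h)
  exact ⟨h, h3, g.g4 _ _ h1 h h3⟩

theorem xs_reg {d : Dat} {K : Set (ℝ × ℝ)} (g : Gen d) (cv : CV d K) (σ : S3)
    (h : σ ∈ XS d (frontier K)) : Reg d σ ∧ OnS d σ := by
  obtain ⟨a, b, y, rfl, h1, h2, h3⟩ := h
  refine ⟨?_, (cv.ov.2.2.2 _ h1).1, (cv.ov.2.2.2 _ h2).1, h3⟩
  by_cases e : a = b
  · subst e
    exact ⟨(diag g cv h1 h3).2.2, (diag g cv h1 h3).2.2⟩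
  · refine ⟨fun z => px_ne cv h1 h2 e ?_, fun z => px_ne cv h2 h1 (Ne.symm e) ?_⟩
    · rw [d.hE a b y, h3, z, mul_zero, add_zero]
    · have z' : d.E (b, a, y) = 0 := z
      rw [d.hE b a y, d.Ds, h3, z', mul_zero, add_zero]

theorem re_of_cj {σ : S3} (h : σ = cj σ) :
    σ = (((σ.1.re : ℝ) : ℂ), ((σ.2.1.re : ℝ) : ℂ), ((σ.2.2.re : ℝ) : ℂ)) :=
  Prod.ext (Complex.conj_eq_iff_re.1 (congrArg (fun σ : S3 => σ.1) h).symm).symm (Prod.ext
    (Complex.conj_eq_iff_re.1 (congrArg (fun σ : S3 => σ.2.1) h).symm).symm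
    (Complex.conj_eq_iff_re.1 (congrArg (fun σ : S3 => σ.2.2) h).symm).symm)

theorem cj_xs {d : Dat} {C : Set (ℝ × ℝ)} {σ : S3} (h : σ ∈ XS d C) : cj σ = σ := by
  obtain ⟨a, b, y, rfl, _⟩ := h
  simp [cj]

theorem xs_inv (hUNI : St_UNI) (hSYM : St_SYM) {d : Dat} {K : Set (ℝ × ℝ)} (g : Gen d)
    (cv : CV d K) (r : ℝ) (Φ : ℂ → S3) (r0 : 0 < r) (s : Sol d (ball 0 r) Φ)
    (h0 : Φ 0 ∈ XS d (frontier K)) : ∀ᶠ t : ℝ in 𝓝 0, Φ t ∈ XS d (frontier K) := by
  have s2 := (hSYM d _ _ (hSYM d _ _ s).2.2.2.1).1 (ball 0 r) isOpen_ball fun z hz => by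
    simpa using hz
  have u := hUNI d _ _ _ 0 s s2 (convex_ball _ _).isPreconnected (mem_ball_self r0)
    (by simp [cj_xs h0]) (xs_reg g cv _ h0).1
  have c : ContinuousAt (fun t : ℝ => Φ t) 0 :=
    (s.df.differentiableAt (isOpen_ball.mem_nhds (by simpa using r0))).continuousAt.comp
      Complex.continuous_ofReal.continuousAt
  obtain ⟨a, b, y, e, h1, h2, _⟩ := h0
  have c1 : Tendsto (fun t : ℝ => (((Φ t).1.re, (Φ t).2.2.re) : ℝ × ℝ)) (𝓝 0) (𝓝 (a, y)) := by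
    have : ContinuousAt (fun t : ℝ => (((Φ t).1.re, (Φ t).2.2.re) : ℝ × ℝ)) 0 :=
      (show Continuous fun σ : S3 => ((σ.1.re, σ.2.2.re) : ℝ × ℝ) by fun_prop).continuousAt.comp c
    simpa [ContinuousAt, e] using this
  have c2 : Tendsto (fun t : ℝ => (((Φ t).2.1.re, (Φ t).2.2.re) : ℝ × ℝ)) (𝓝 0) (𝓝 (b, y)) := by
    have : ContinuousAt (fun t : ℝ => (((Φ t).2.1.re, (Φ t).2.2.re) : ℝ × ℝ)) 0 :=
      (show Continuous fun σ : S3 => ((σ.2.1.re, σ.2.2.re) : ℝ × ℝ) by fun_prop).continuousAt.comp c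
    simpa [ContinuousAt, e] using this
  have c3 : ∀ᶠ t : ℝ in 𝓝 0, (t : ℂ) ∈ ball (0 : ℂ) r :=
    Complex.continuous_ofReal.continuousAt.eventually_mem
      (isOpen_ball.mem_nhds (by simpa using r0))
  filter_upwards [c1.eventually (cv.op _ h1), c2.eventually (cv.op _ h2), c3] with t t1 t2 t3
  have e1 := u t3
  simp only [Complex.conj_ofReal] at e1
  have e2 := re_of_cj e1
  refine ⟨_, _, _, e2, t1 ?_, t2 ?_, s.pD _ t3⟩
  · have := s.pA _ t3
    rw [fA, fY, e2] at this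
    exact this
  · have := s.pB _ t3
    rw [fB, fY, e2] at this
    exact this

/-- acceleration as a function of the state -/
def acc (d : Dat) (σ : S3) : ℂ :=
  -d.py (σ.1, σ.2.2) / d.E σ - d.py (σ.2.1, σ.2.2) / d.E (sw σ)

theorem acc_cont {d : Dat} {X : Set S3} (h : ∀ σ ∈ X, Reg d σ) : ContinuousOn (acc d) X := by
  have c1 := d.cpy.continuous
  have c2 := d.cE.continuous
  have c3 : Continuous fun σ : S3 => d.E (sw σ) := c2.comp (by unfold sw; fun_prop)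
  exact (ContinuousOn.div (by fun_prop) c2.continuousOn fun σ m => (h σ m).1).sub
    (ContinuousOn.div (by fun_prop) c3.continuousOn fun σ m => (h σ m).2)

theorem acc_low {d : Dat} {K : Set (ℝ × ℝ)} (g : Gen d) (cv : CV d K) : ∃ m : ℝ, 0 < m ∧
    ∀ σ ∈ XS d (frontier K), m ≤ |(σ.1 - σ.2.1).re| + |(acc d σ).re| := by
  have hC : IsCompact (frontier K) :=
    cv.ov.1.of_isClosed_subset isClosed_frontier cv.ov.1.isClosed.frontier_subset
  have c := acc_cont (d := d) (X := XS d (frontier K)) fun σ m => (xs_reg g cv σ m).1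
  refine (xs_compact d hC).exists_forall_le' (f := fun σ => |(σ.1 - σ.2.1).re| + |(acc d σ).re|)
    (ContinuousOn.add (by fun_prop) (Complex.continuous_re.comp_continuousOn c).abs) ?_
  rintro _ ⟨a, b, y, rfl, h1, h2, h3⟩
  by_cases e : a = b
  · subst e
    obtain ⟨_, k2, k3⟩ := diag g cv h1 h3
    have r1 : d.py (a, y) = conj (d.py (a, y)) := by simpa using d.jpy a y
    have r2 : d.E (a, a, y) = conj (d.E (a, a, y)) := by simpa using d.jE a a y
    have e1 : acc d (a, a, y) = -2 * d.py (a, y) / d.E (a, a, y) := by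
      simp only [acc, sw]
      ring
    have r3 : conj (acc d (a, a, y)) = acc d (a, a, y) := by
      rw [e1, map_div₀, map_mul, ← r1, ← r2, map_neg, map_ofNat]
    have ne : (acc d (a, a, y)).re ≠ 0 := fun z => by
      have := Complex.conj_eq_iff_re.1 r3
      rw [z, e1] at this
      exact div_ne_zero (mul_ne_zero (by norm_num) k2) k3 (this.symm.trans Complex.ofReal_zero)
    exact add_pos_of_nonneg_of_pos (abs_nonneg _) (abs_pos.2 ne)
  · exact add_pos_of_pos_of_nonneg (abs_pos.2 (by simpa [sub_eq_zero] using e)) (abs_nonneg _)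

theorem acc_deriv {d : Dat} {U : Set ℂ} {Φ : ℂ → S3} (s : Sol d U Φ) {τ : ℂ} (m : τ ∈ U)
    (r : Reg d (Φ τ)) : HasDerivAt (fun z => fA Φ z - fB Φ z) (acc d (Φ τ)) τ := by
  have df := s.df.differentiableAt (s.op.mem_nhds m)
  have dA : DifferentiableAt ℂ (fA Φ) τ := df.fst
  have dB : DifferentiableAt ℂ (fB Φ) τ := df.snd.fst
  refine (dA.hasDerivAt.fun_sub dB.hasDerivAt).congr_deriv ?_
  rw [eq_div_of_mul_eq r.1 ((mul_comm _ _).trans (s.dA τ m)),
    eq_div_of_mul_eq r.2 ((mul_comm _ _).trans (s.dB τ m))]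
  rfl

end R62

open R62 in
theorem st_REAL (hLOC : St_LOC) (hUNI : St_UNI) (hSYM : St_SYM) : St_REAL := by
  intro d K g cv
  have hc := cv.ov.1.isClosed
  have hC : IsCompact (frontier K) := cv.ov.1.of_isClosed_subset isClosed_frontier hc.frontier_subset
  obtain ⟨⟨a0, y0⟩, q0, top, p0⟩ := cv.top
  have x0 : (((a0 : ℂ), (a0 : ℂ), (y0 : ℂ)) : S3) ∈ XS d (frontier K) :=
    ⟨a0, a0, y0, rfl, q0, q0, by rw [d.Dd]; exact p0⟩
  obtain ⟨h, h0, Φ, f0, s, hX⟩ := strip_sol hLOC hUNI hSYM (xs_compact d hC) (xs_reg g cv)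
    (xs_inv hUNI hSYM g cv) x0
  have mr : ∀ t : ℝ, (t : ℂ) ∈ strip h := fun t => by simpa [strip] using h0
  have pc := (strip_convex h).isPreconnected
  have reg : ∀ t : ℝ, Reg d (Φ t) := fun t => (xs_reg g cv _ (hX t)).1
  have xs : ∀ t : ℝ, Φ t = ((((fA Φ t).re : ℝ) : ℂ), (((fB Φ t).re : ℝ) : ℂ),
      (((fY Φ t).re : ℝ) : ℂ)) ∧ ((fA Φ t).re, (fY Φ t).re) ∈ frontier K ∧
      ((fB Φ t).re, (fY Φ t).re) ∈ frontier K := by
    intro t
    obtain ⟨a, b, y, e, h1, h2, _⟩ := hX t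
    simp only [fA, fB, fY, e, Complex.ofReal_re]
    exact ⟨trivial, h1, h2⟩
  have zero_iff : ∀ t : ℝ, (fA Φ t - fB Φ t).re = 0 ↔ fA Φ t = fB Φ t := by
    intro t
    refine ⟨fun z => ?_, fun z => by rw [z, sub_self, Complex.zero_re]⟩
    have e1 : fA Φ t = (((fA Φ t).re : ℝ) : ℂ) := congrArg (fun σ : S3 => σ.1) (xs t).1
    have e2 : fB Φ t = (((fB Φ t).re : ℝ) : ℂ) := congrArg (fun σ : S3 => σ.2.1) (xs t).1
    rw [e1, e2, sub_eq_zero.1 ((Complex.sub_re _ _).symm.trans z)]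
  have refl : ∀ t : ℝ, fA Φ t = fB Φ t → ∀ τ ∈ strip h, Φ τ = sw (Φ (2 * t - τ)) := by
    intro t z
    have s2 := (hSYM d _ _ ((hSYM d _ _ s).2.2.1 (2 * t))).1 (strip h) s.op fun τ hτ => by
      simpa [strip] using hτ
    refine hUNI d _ _ _ t s s2 pc (mr t) ?_ (reg t)
    have e : (2 * t - t : ℂ) = t := by ring
    simp only [e]
    exact Prod.ext z (Prod.ext z.symm rfl)
  have z0 : fA Φ (0 : ℝ) = fB Φ (0 : ℝ) := by simp [fA, fB, f0]
  have neg : ∀ τ ∈ strip h, Φ (-τ) = sw (Φ τ) := fun τ hτ => by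
    simpa using refl 0 z0 (-τ) (by simpa [strip] using hτ)
  have hy : ∀ t : ℝ, HasDerivAt (fun t : ℝ => (fY Φ t).re) (fA Φ t - fB Φ t).re t := fun t =>
    (s.dY t (mr t)).real_of_complex
  have cΦ : Continuous fun t : ℝ => Φ t := continuous_iff_continuousAt.2 fun t =>
    (s.df.differentiableAt (s.op.mem_nhds (mr t))).continuousAt.comp
      Complex.continuous_ofReal.continuousAt
  obtain ⟨m, m0, hm⟩ := acc_low g cv
  obtain ⟨M, hM⟩ := hC.isBounded.exists_norm_le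
  obtain ⟨t1, p1, z1, nz⟩ := Z62.first_zero hy
    (fun t => (acc_deriv s (mr t) (reg t)).real_of_complex)
    (Complex.continuous_re.comp
      ((acc_cont fun σ m => (xs_reg g cv σ m).1).comp_continuous cΦ hX)) m0
    (fun t => hm _ (hX t)) (M := M)
    (fun t => (norm_snd_le (((fA Φ t).re, (fY Φ t).re) : ℝ × ℝ)).trans (hM _ (xs t).2.1))
    ((zero_iff 0).2 z0)
  have z2 := (zero_iff t1).1 z1
  have per : ∀ τ ∈ strip h, Φ (τ + ((2 * t1 : ℝ) : ℂ)) = Φ τ := fun τ hτ => by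
    have e : (2 * t1 - (τ + ((2 * t1 : ℝ) : ℂ)) : ℂ) = -τ := by
      push_cast
      ring
    rw [refl t1 z2 _ (by simpa [strip] using hτ), e, neg τ hτ]
    rfl
  have pr : Function.Periodic (fun t : ℝ => Φ t) (2 * t1) := fun t => by
    simpa using per t (mr t)
  have zneg : ∀ t : ℝ, fA Φ t = fB Φ t → fA Φ (-t : ℝ) = fB Φ (-t : ℝ) := fun t z => by
    simp only [fA, fB, Complex.ofReal_neg, neg t (mr t)]
    exact z.symm
  have y00 : (fY Φ (0 : ℝ)).re = y0 := by simp [fY, f0]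
  refine ⟨h, 2 * t1, Φ, h0, ⟨s, by linarith, per, neg, fun τ hτ => ?_, fun t => ?_⟩,
    fun t => (xs t).2, fun q hq => ?_⟩
  · have s2 := (hSYM d _ _ (hSYM d _ _ s).2.2.2.1).1 (strip h) s.op fun τ hτ => by
      simpa [strip] using hτ
    have := hUNI d _ _ _ (0 : ℝ) s s2 pc (mr 0) (by simp [f0, cj]) (reg 0) (x := conj τ)
      (by simpa [strip] using hτ)
    simpa using this
  · have e2 : 2 * t1 / 2 = t1 := by ring
    rw [e2]
    have shift : ∀ (u : ℝ) (n : ℤ), fA Φ u = fB Φ u →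
        fA Φ (u - n * (2 * t1) : ℝ) = fB Φ (u - n * (2 * t1) : ℝ) := fun u n z => by
      have := pr.sub_int_mul_eq (x := u) n
      simp only [fA, fB, this]
      exact z
    constructor
    · intro z
      obtain ⟨n, hn⟩ : ∃ n : ℤ, n = ⌊(t + t1) / (2 * t1)⌋ := ⟨_, rfl⟩
      have p2 : 0 < 2 * t1 := by linarith
      have b1 : n * (2 * t1) ≤ t + t1 := (le_div_iff₀ p2).1 (hn ▸ Int.floor_le _)
      have b2 : t + t1 < (n + 1) * (2 * t1) := (div_lt_iff₀ p2).1 (hn ▸ Int.lt_floor_add_one _)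
      have z3 := shift t n z
      rcases lt_trichotomy (t - n * (2 * t1)) 0 with c | c | c
      · rcases (show -t1 ≤ t - n * (2 * t1) by linarith).eq_or_lt with c2 | c2
        · exact ⟨2 * n - 1, by push_cast; linarith⟩
        · exact absurd ((zero_iff _).2 (zneg _ z3)) (nz _ (by linarith) (by linarith))
      · exact ⟨2 * n, by push_cast; linarith⟩
      · exact absurd ((zero_iff _).2 z3) (nz _ c (by linarith))
    · rintro ⟨k, rfl⟩
      obtain ⟨n, hn | hn⟩ := Int.even_or_odd' k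
      · have e : (k : ℝ) * t1 = 0 - ((-n : ℤ) : ℝ) * (2 * t1) := by
          rw [hn]
          push_cast
          ring
        rw [e]
        exact shift 0 (-n) z0
      · have e : (k : ℝ) * t1 = t1 - ((-n : ℤ) : ℝ) * (2 * t1) := by
          rw [hn]
          push_cast
          ring
        rw [e]
        exact shift t1 (-n) z2
  · have yc : Continuous fun t : ℝ => (fY Φ t).re :=
      continuous_iff_continuousAt.2 fun t => (hy t).continuousAt
    have dg : ∀ t : ℝ, fA Φ t = fB Φ t → d.px (rc ((fA Φ t).re, (fY Φ t).re)) = 0 := by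
      intro t z
      have := s.pD t (mr t)
      rw [(xs t).1, ← z, d.Dd] at this
      exact this
    have bot : (fY Φ t1).re ≤ q.2 := by
      rcases cv.ex _ (xs t1).2.1 (dg t1 z2) with c | c
      · have e : (fY Φ (0 : ℝ)).re = (fY Φ t1).re := by
          rw [y00]
          exact le_antisymm (c _ (hc.frontier_subset q0)) (top _ (hc.frontier_subset (xs t1).2.1))
        obtain ⟨t, ht, z⟩ := exists_hasDerivAt_eq_zero p1 yc.continuousOn e fun t _ => hy t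
        exact absurd z (nz t ht.1 ht.2)
      · exact c q (hc.frontier_subset hq)
    obtain ⟨t, _, e⟩ := intermediate_value_Icc' p1.le yc.continuousOn
      (show q.2 ∈ Icc (fY Φ t1).re (fY Φ (0 : ℝ)).re from
        ⟨bot, by rw [y00]; exact top q (hc.frontier_subset hq)⟩)
    have e : (fY Φ t).re = q.2 := e
    obtain ⟨x, y⟩ := q
    by_cases c1 : x = (fA Φ t).re
    · exact ⟨t, Prod.ext c1 e.symm⟩
    by_cases c2 : x = (fB Φ t).re
    · refine ⟨-t, ?_⟩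
      simp only [fA, fY, Complex.ofReal_neg, neg t (mr t)]
      exact Prod.ext c2 e.symm
    exfalso
    have m1 := (xs t).2.1
    have m2 := (xs t).2.2
    rw [e] at m1 m2
    have e3 := cv.two _ hq (1, 0) ((fA Φ t).re - x) ((fB Φ t).re - x) (by simp)
      (sub_ne_zero.2 (Ne.symm c1)) (sub_ne_zero.2 (Ne.symm c2)) (by simpa using m1)
      (by simpa using m2)
    have z := dg t ((zero_iff t).1 (by rw [Complex.sub_re]; linarith))
    rw [e] at z
    exact px_ne cv m1 hq (Ne.symm c1) z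

end Pool.Agent.AO
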