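import Pool.Agent.Lib.AO.Blue

set_option autoImplicit false

noncomputable section

namespace Pool.Agent.AO

open Set Metric Filter Topology ComplexConjugate

theorem str_id {U U0 : Set ℂ} {f g : ℂ → S3} (hU : IsOpen U) (hc : IsPreconnected U)
    (h0 : IsOpen U0) (hn : U0.Nonempty) (hs : U0 ⊆ U) (hf : DifferentiableOn ℂ f U)
    (hg : DifferentiableOn ℂ g U) (e : EqOn f g U0) : EqOn f g U := by
  obtain ⟨z, hz⟩ := hn
  exact (hf.analyticOnNhd hU).eqOn_of_preconnected_of_eventuallyEq (hg.analyticOnNhd hU) hc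
    (hs hz) (e.eventuallyEq_of_mem (h0.mem_nhds hz))

theorem str_unif {U K : Set ℂ} {Φ : ℂ → S3} (hK : IsCompact K) (h : ∀ b ∈ K, Ext U Φ b) :
    ∃ δ : ℝ, 0 < δ ∧ ∀ x ∈ K, ∃ Ψ : ℂ → S3, DifferentiableOn ℂ Ψ (ball x δ) ∧
      EqOn Ψ Φ (ball x δ ∩ U) := by
  choose ρ hρ Ψ hd he using h
  obtain ⟨δ, hδ, hx⟩ := lebesgue_number_lemma_of_metric hK
    (c := fun b : K => ball (b : ℂ) (ρ b b.2)) (fun _ => isOpen_ball)
    (fun x hx => mem_iUnion.2 ⟨⟨x, hx⟩, mem_ball_self (hρ x hx)⟩)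
  refine ⟨δ, hδ, fun x hxK => ?_⟩
  obtain ⟨b, hb⟩ := hx x hxK
  exact ⟨Ψ b b.2, (hd b b.2).mono hb, (he b b.2).mono (inter_subset_inter_left _ hb)⟩

theorem st_MAXB (hL : St_LIM) (hG : St_GLUE) (hU : St_UNION) (hE : St_EXT) : St_MAXB := by
  intro d Φ c ρ0 R H hg h0 hR hs hnz hH hreg hin
  let G : Set ℝ := {ρ | ρ0 ≤ ρ ∧ ρ ≤ R ∧ ∃ Ψ : ℂ → S3, DifferentiableOn ℂ Ψ (ball c ρ) ∧
    EqOn Ψ Φ (ball c ρ0)}
  have g0 : ρ0 ∈ G := ⟨le_rfl, hR, Φ, hs.df, fun _ _ => rfl⟩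
  have gb : BddAbove G := ⟨R, fun ρ h => h.2.1⟩
  have l0 : ρ0 ≤ sSup G := le_csSup gb g0
  have l1 : sSup G ≤ R := csSup_le ⟨_, g0⟩ fun ρ h => h.2.1
  have ne0 : (ball c ρ0).Nonempty := nonempty_ball.2 h0
  obtain ⟨Ω, hΩ, eΩ⟩ := hU G (fun ρ => ball c ρ) (fun ρ => ρ.2.2.2.choose) (ball c ρ0) Φ
    isOpen_ball ne0 fun ρ => ⟨isOpen_ball, convex_ball _ _, ball_subset_ball ρ.2.1,
      ρ.2.2.2.choose_spec.1, ρ.2.2.2.choose_spec.2⟩
  have sub : ball c (sSup G) ⊆ ⋃ ρ : G, ball c ρ := by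
    intro z hz
    obtain ⟨ρ, hρ, hlt⟩ := exists_lt_of_lt_csSup ⟨_, g0⟩ (mem_ball.1 hz)
    exact mem_iUnion.2 ⟨⟨ρ, hρ⟩, hlt⟩
  have e0 : EqOn Ω Φ (ball c ρ0) := fun z hz =>
    (eΩ ⟨ρ0, g0⟩ hz).trans (g0.2.2.choose_spec.2 hz)
  have sΩ : Sol d (ball c (sSup G)) Ω := hE d _ _ Φ Ω hs ne0 (ball_subset_ball l0) isOpen_ball
    (convex_ball _ _).isPreconnected (hΩ.mono sub) e0
  rcases l1.eq_or_lt with h1 | h1
  · exact ⟨Ω, h1 ▸ sΩ, e0⟩
  exfalso
  have hp : 0 < sSup G := h0.trans_le l0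
  have cl : sphere c (sSup G) ⊆ closure (ball c (sSup G)) := by
    rw [closure_ball c hp.ne']
    exact sphere_subset_closedBall
  have nz : NZ (ball c (sSup G)) Ω := by
    obtain ⟨τ, hτ, hne⟩ := hnz
    refine ⟨τ, ball_subset_ball l0 hτ, ?_⟩
    simpa only [fA, fB, e0 hτ] using hne
  have ex : ∀ b ∈ sphere c (sSup G), Ext (ball c (sSup G)) Ω b := by
    intro b hb
    obtain ⟨σ, ht, hS, -, h4, h5⟩ := hL d _ Ω hg sΩ (convex_ball _ _) nz b (cl hb)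
    have := mem_closure_iff_nhdsWithin_neBot.1 (cl hb)
    have hy : σ.2.2 ∈ H := hH.mem_of_tendsto
      ((continuous_snd.snd.tendsto σ).comp ht)
      (eventually_mem_nhdsWithin.mono fun τ hτ => hin _ Ω l0 l1 sΩ e0 τ hτ)
    exact h4 (h5 (hreg _ hy _ hS.1) (hreg _ hy _ hS.2.1))
  obtain ⟨δ, hδ, hx⟩ := str_unif (isCompact_sphere c (sSup G)) ex
  obtain ⟨Ψ, hΨ, eΨ, -⟩ := hG (ball c (sSup G)) (sphere c (sSup G)) Ω (fun _ => δ) isOpen_ball
    (convex_ball _ _) (nonempty_ball.2 hp) sΩ.df cl hx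
  have sub2 : ball c (sSup G + δ) ⊆ ball c (sSup G) ∪ ⋃ x ∈ sphere c (sSup G), ball x δ := by
    intro z hz
    by_cases hz1 : z ∈ ball c (sSup G)
    · exact Or.inl hz1
    right
    rw [mem_ball, not_lt, dist_eq_norm] at hz1
    rw [mem_ball, dist_eq_norm] at hz
    have hn : 0 < ‖z - c‖ := hp.trans_le hz1
    refine mem_iUnion₂.2 ⟨c + (sSup G / ‖z - c‖) • (z - c), ?_, ?_⟩
    · rw [mem_sphere, dist_eq_norm, add_sub_cancel_left, norm_smul, Real.norm_eq_abs,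
        abs_of_pos (div_pos hp hn), div_mul_cancel₀ _ hn.ne']
    · have e : z - (c + (sSup G / ‖z - c‖) • (z - c)) = (1 - sSup G / ‖z - c‖) • (z - c) := by
        rw [sub_smul, one_smul]; abel
      have h2 : 0 ≤ 1 - sSup G / ‖z - c‖ := sub_nonneg.2 ((div_le_one hn).2 hz1)
      rw [mem_ball, dist_eq_norm, e, norm_smul, Real.norm_eq_abs, abs_of_nonneg h2, sub_mul,
        one_mul, div_mul_cancel₀ _ hn.ne']
      linarith
  have gm : min R (sSup G + δ) ∈ G :=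
    ⟨le_min hR (by linarith), min_le_left _ _, Ψ,
      hΨ.mono ((ball_subset_ball (min_le_right _ _)).trans sub2),
      fun z hz => (eΨ (ball_subset_ball l0 hz)).trans (e0 hz)⟩
  have := le_csSup gb gm
  rcases min_le_iff.1 this with h | h <;> linarith

theorem str_open (h : ℝ) : IsOpen (strip h) :=
  isOpen_lt (continuous_abs.comp Complex.continuous_im) continuous_const

theorem str_eq (h : ℝ) : strip h = Complex.im ⁻¹' Ioo (-h) h := by
  ext τ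
  simp only [strip, mem_ofPred_eq, mem_preimage, mem_Ioo, abs_lt]

theorem str_cvx (h : ℝ) : Convex ℝ (strip h) := by
  rw [str_eq]
  exact (convex_Ioo (-h) h).linear_preimage Complex.imLm

theorem str_cl {h : ℝ} (hh : 0 < h) {b : ℂ} (hb : |b.im| = h) : b ∈ closure (strip h) := by
  rw [str_eq, Complex.closure_preimage_im, closure_Ioo (by linarith)]
  exact abs_le.1 hb.le

theorem str_real {h : ℝ} (hh : 0 < h) (t : ℝ) : (t : ℂ) ∈ strip h := by
  simpa [strip] using hh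

theorem str_mono {h k : ℝ} (hk : h ≤ k) : strip h ⊆ strip k := fun _ hτ => lt_of_lt_of_le hτ hk

theorem str_sw : Differentiable ℂ sw := by
  unfold sw
  fun_prop

theorem str_cjd {f : ℂ → S3} {z : ℂ} (hf : DifferentiableAt ℂ f (conj z)) :
    DifferentiableAt ℂ (fun τ => cj (f (conj τ))) z := by
  have := hf.star_star
  rw [Complex.star_def, Complex.conj_conj] at this
  exact this

theorem str_cjcj (σ : S3) : cj (cj σ) = σ := by simp [cj]

theorem str_swsw (σ : S3) : sw (sw σ) = σ := rfl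

theorem str_psol (hE : St_EXT) {d : Dat} {h0 T : ℝ} {Φ Ψ : ℂ → S3} {U : Set ℂ} (hh : 0 < h0)
    (hP : PSol d (strip h0) T Φ) (hU : IsOpen U) (hc : IsPreconnected U) (hs : strip h0 ⊆ U)
    (hT : ∀ τ ∈ U, τ + T ∈ U) (hn : ∀ τ ∈ U, -τ ∈ U) (hj : ∀ τ ∈ U, conj τ ∈ U)
    (hd : DifferentiableOn ℂ Ψ U) (e : EqOn Ψ Φ (strip h0)) : PSol d U T Ψ := by
  have ne0 : (strip h0).Nonempty := ⟨_, str_real hh 0⟩
  have da : ∀ τ ∈ U, DifferentiableAt ℂ Ψ τ := fun τ hτ => hd.differentiableAt (hU.mem_nhds hτ)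
  refine ⟨hE d U _ Φ Ψ hP.sol ne0 hs hU hc hd e, hP.Tp, ?_, ?_, ?_, fun t => ?_⟩
  · refine str_id (f := fun τ => Ψ (τ + T)) hU hc (str_open h0) ne0 hs (fun τ hτ => ?_) hd
      fun τ hτ => ?_
    · exact ((da _ (hT τ hτ)).comp τ (by fun_prop)).differentiableWithinAt
    · have h1 : τ + T ∈ strip h0 := by simpa [strip] using hτ
      simp only [e h1, e hτ, hP.per τ hτ]
  · refine str_id (f := fun τ => Ψ (-τ)) (g := fun τ => sw (Ψ τ)) hU hc (str_open h0) ne0 hs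
      (fun τ hτ => ?_) (str_sw.comp_differentiableOn hd) fun τ hτ => ?_
    · exact ((da _ (hn τ hτ)).comp τ (by fun_prop)).differentiableWithinAt
    · have h1 : -τ ∈ strip h0 := by simpa [strip] using hτ
      simp only [e h1, e hτ, hP.neg τ hτ]
  · have := str_id (f := fun τ => cj (Ψ (conj τ))) hU hc (str_open h0) ne0 hs
      (fun τ hτ => (str_cjd (da _ (hj τ hτ))).differentiableWithinAt) hd fun τ hτ => by
        have h1 : conj τ ∈ strip h0 := by simpa [strip] using hτ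
        simp only [e h1, e hτ, hP.cnj τ hτ, str_cjcj]
    intro τ hτ
    rw [← this hτ, str_cjcj]
  · simpa only [fA, fB, e (str_real hh t)] using hP.zer t

theorem str_perz {d : Dat} {h T : ℝ} {Φ : ℂ → S3} (hP : PSol d (strip h) T Φ) (k : ℤ) :
    ∀ τ ∈ strip h, Φ (τ + k * T) = Φ τ := by
  induction k using Int.induction_on with
  | zero => intro τ _; simp
  | succ k ih =>
    intro τ hτ
    have h1 : τ + ((k : ℤ) : ℂ) * T ∈ strip h := by simpa [strip] using hτ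
    rw [← ih τ hτ, ← hP.per _ h1]
    congr 1
    push_cast
    ring
  | pred k ih =>
    intro τ hτ
    have h1 : τ + ((-(k : ℤ) - 1 : ℤ) : ℂ) * T ∈ strip h := by simpa [strip] using hτ
    rw [← ih τ hτ, ← hP.per _ h1]
    congr 1
    push_cast
    ring

theorem str_grow (hG : St_GLUE) {d : Dat} {h T : ℝ} {Φ : ℂ → S3} (hh : 0 < h)
    (hP : PSol d (strip h) T Φ) (ex : ∀ b : ℂ, b.im = h → Ext (strip h) Φ b) :
    ∃ δ : ℝ, 0 < δ ∧ ∃ Ψ : ℂ → S3, DifferentiableOn ℂ Ψ (strip (h + δ)) ∧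
      EqOn Ψ Φ (strip h) := by
  have hK : IsCompact ((fun t : ℝ => (t : ℂ) + h * Complex.I) '' Icc 0 T) :=
    isCompact_Icc.image (by fun_prop)
  obtain ⟨δ, hδ, hx⟩ := str_unif (U := strip h) (Φ := Φ) hK (by
    rintro _ ⟨t, -, rfl⟩
    exact ex _ (by simp))
  have up : ∀ x : ℂ, x.im = h → ∃ Ψ : ℂ → S3, DifferentiableOn ℂ Ψ (ball x δ) ∧
      EqOn Ψ Φ (ball x δ ∩ strip h) := by
    intro x hx0
    have hT := hP.Tp
    obtain ⟨k, hk⟩ : ∃ k : ℤ, x.re + k * T ∈ Icc 0 T := by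
      refine ⟨-⌊x.re / T⌋, ?_, ?_⟩
      · have := (le_div_iff₀ hT).1 (Int.floor_le (x.re / T))
        push_cast
        linarith
      · have := (div_lt_iff₀ hT).1 (Int.lt_floor_add_one (x.re / T))
        push_cast
        linarith
    obtain ⟨Ψ, hd, he⟩ := hx (x + k * T) ⟨_, hk, by
      apply Complex.ext <;> simp [hx0]⟩
    have mp : ∀ τ ∈ ball x δ, τ + k * T ∈ ball (x + k * T) δ := fun τ hτ => by
      simpa only [mem_ball, dist_add_right] using hτ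
    refine ⟨fun τ => Ψ (τ + k * T), hd.comp (by fun_prop) mp, fun τ hτ => ?_⟩
    have h1 : τ + k * T ∈ strip h := by simpa [strip] using hτ.2
    exact (he ⟨mp τ hτ.1, h1⟩).trans (str_perz hP k τ hτ.2)
  obtain ⟨Ψ, hΨ, eΨ, -⟩ := hG (strip h) {x | |x.im| = h} Φ (fun _ => δ) (str_open h) (str_cvx h)
    ⟨_, str_real hh 0⟩ hP.sol.df (fun x hx => str_cl hh hx) (by
      intro x hx0
      rcases (abs_eq hh.le).1 hx0 with h1 | h1
      · exact up x h1
      obtain ⟨Ψ, hd, he⟩ := up (-x) (by simp [h1])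
      have mp : ∀ τ ∈ ball x δ, -τ ∈ ball (-x) δ := fun τ hτ => by
        simpa only [mem_ball, dist_neg_neg] using hτ
      refine ⟨fun τ => sw (Ψ (-τ)),
        str_sw.comp_differentiableOn (hd.comp (by fun_prop) mp), fun τ hτ => ?_⟩
      have h2 : -τ ∈ strip h := by simpa [strip] using hτ.2
      simp only [he ⟨mp τ hτ.1, h2⟩, hP.neg τ hτ.2, str_swsw])
  refine ⟨δ, hδ, Ψ, hΨ.mono fun z hz => ?_, eΨ⟩
  by_cases hz1 : z ∈ strip h
  · exact Or.inl hz1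
  right
  have hz2 : |z.im| < h + δ := hz
  have hz3 : h ≤ |z.im| := not_lt.1 hz1
  have key : ∀ s : ℝ, |s| = h → |z.im - s| < δ → z ∈ ⋃ x ∈ {x : ℂ | |x.im| = h}, ball x δ := by
    intro s hs hlt
    refine mem_iUnion₂.2 ⟨z.re + s * Complex.I, by simpa using hs, ?_⟩
    have e : z - (z.re + s * Complex.I) = ((z.im - s : ℝ) : ℂ) * Complex.I := by
      apply Complex.ext <;> simp
    rw [mem_ball, dist_eq_norm, e, norm_mul, Complex.norm_I, mul_one, Complex.norm_real]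
    exact hlt
  rcases le_total 0 z.im with h1 | h1
  · rw [abs_of_nonneg h1] at hz2 hz3
    exact key h (abs_of_pos hh) (abs_lt.2 ⟨by linarith, by linarith⟩)
  · rw [abs_of_nonpos h1] at hz2 hz3
    exact key (-h) (by rw [abs_neg, abs_of_pos hh]) (abs_lt.2 ⟨by linarith, by linarith⟩)

theorem st_STRIP (hL : St_LIM) (hG : St_GLUE) (hU : St_UNION) (hE : St_EXT) : St_STRIP := by
  intro d h0 T Φ0 hg hh hP
  let G : Set ℝ := {h | h0 ≤ h ∧ ∃ Ψ : ℂ → S3, DifferentiableOn ℂ Ψ (strip h) ∧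
    EqOn Ψ Φ0 (strip h0)}
  have g0 : h0 ∈ G := ⟨le_rfl, Φ0, hP.sol.df, fun _ _ => rfl⟩
  obtain ⟨Φ, hΦ, eΦ⟩ := hU G (fun h => strip h) (fun h => h.2.2.choose) (strip h0) Φ0
    (str_open h0) ⟨_, str_real hh 0⟩ fun h => ⟨str_open _, str_cvx _, str_mono h.2.1,
      h.2.2.choose_spec.1, h.2.2.choose_spec.2⟩
  have e0 : EqOn Φ Φ0 (strip h0) := fun z hz =>
    (eΦ ⟨h0, g0⟩ hz).trans (g0.2.choose_spec.2 hz)
  have er : ∀ t : ℝ, Φ t = Φ0 t := fun t => e0 (str_real hh t)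
  by_cases gb : BddAbove G
  swap
  · refine Or.inl ⟨Φ, str_psol hE hh hP isOpen_univ isPreconnected_univ (subset_univ _)
      (fun _ _ => mem_univ _) (fun _ _ => mem_univ _) (fun _ _ => mem_univ _)
      (hΦ.mono fun z _ => ?_) e0, er⟩
    obtain ⟨h, hh1, hlt⟩ := not_bddAbove_iff.1 gb |z.im|
    exact mem_iUnion.2 ⟨⟨h, hh1⟩, hlt⟩
  right
  have l0 : h0 ≤ sSup G := le_csSup gb g0
  have hp : 0 < sSup G := hh.trans_le l0
  have hQ : PSol d (strip (sSup G)) T Φ := by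
    refine str_psol hE hh hP (str_open _) (str_cvx _).isPreconnected (str_mono l0)
      (fun τ hτ => by simpa [strip] using hτ) (fun τ hτ => by simpa [strip] using hτ)
      (fun τ hτ => by simpa [strip] using hτ) (hΦ.mono fun z hz => ?_) e0
    obtain ⟨h, hh1, hlt⟩ := exists_lt_of_lt_csSup ⟨_, g0⟩ (show |z.im| < sSup G from hz)
    exact mem_iUnion.2 ⟨⟨h, hh1⟩, hlt⟩
  obtain ⟨b, hb, hne⟩ : ∃ b : ℂ, b.im = sSup G ∧ ¬Ext (strip (sSup G)) Φ b := by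
    by_contra hc
    push Not at hc
    obtain ⟨δ, hδ, Ψ, hd, he⟩ := str_grow hG hp hQ hc
    have : sSup G + δ ∈ G :=
      ⟨by linarith, Ψ, hd, fun z hz => (he (str_mono l0 hz)).trans (e0 hz)⟩
    linarith [le_csSup gb this]
  generalize sSup G = h at *
  have nz : NZ (strip h) Φ := by
    refine ⟨((T / 4 : ℝ) : ℂ), str_real hp _, fun e => ?_⟩
    obtain ⟨k, hk⟩ := (hQ.zer _).1 e
    have h1 : ((2 * k - 1 : ℤ) : ℝ) * T = 0 := by push_cast; linarith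
    have h2 : (2 * k - 1 : ℤ) = 0 := by
      exact_mod_cast (mul_eq_zero.1 h1).resolve_right hQ.Tp.ne'
    omega
  obtain ⟨σ, ht, hS, h3, h4, -⟩ := hL d _ Φ hg hQ.sol (str_cvx h) nz b
    (str_cl hp (by rw [hb, abs_of_pos hp]))
  by_cases hx : d.px (σ.1, σ.2.2) = 0
  swap
  · exact ⟨h, Φ, b, σ, hp, hQ, er, hb, hne, ht, hS, hx⟩
  have hy : d.px (σ.2.1, σ.2.2) ≠ 0 := fun hy =>
    hne (h4 (h3 (hg.g3 _ _ _ hS.1 hx hS.2.1 hy)).1)
  have mS : ∀ τ ∈ strip h, -conj τ ∈ strip h := fun τ hτ => by simpa [strip] using hτ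
  have mΦ : ∀ τ ∈ strip h, sw (cj (Φ (-conj τ))) = Φ τ := fun τ hτ => by
    have h1 : conj τ ∈ strip h := by simpa [strip] using hτ
    rw [hQ.neg _ h1, hQ.cnj τ hτ]
    simp [sw, cj]
  refine ⟨h, Φ, -conj b, sw (cj σ), hp, hQ, er, by simp [hb], ?_, ?_, ?_, ?_⟩
  · rintro ⟨ρ, hρ, Ψ, hd, he⟩
    have mp : ∀ τ ∈ ball b ρ, -conj τ ∈ ball (-conj b) ρ := fun τ hτ => by
      simpa only [mem_ball, dist_neg_neg, Complex.dist_conj_conj] using hτ
    refine hne ⟨ρ, hρ, fun τ => sw (cj (Ψ (-conj τ))), fun τ hτ => ?_, fun τ hτ => ?_⟩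
    · have h1 : DifferentiableAt ℂ (fun s => Ψ (-s)) (conj τ) :=
        (hd.differentiableAt (isOpen_ball.mem_nhds (mp τ hτ))).comp (conj τ) (by fun_prop)
      exact ((str_sw _).comp τ (str_cjd h1)).differentiableWithinAt
    · simp only [he ⟨mp τ hτ.1, mS τ hτ.2⟩, mΦ τ hτ.2]
  · have c1 : Continuous fun s : S3 => sw (cj s) := by
      unfold sw cj
      fun_prop
    have c2 : Tendsto (fun τ : ℂ => -conj τ) (𝓝[strip h] (-conj b)) (𝓝[strip h] b) := by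
      refine tendsto_nhdsWithin_iff.2 ⟨?_, eventually_mem_nhdsWithin.mono mS⟩
      have c3 : Continuous fun τ : ℂ => -conj τ := by fun_prop
      simpa using (c3.tendsto (-conj b)).mono_left nhdsWithin_le_nhds
    exact ((c1.tendsto σ).comp (ht.comp c2)).congr' (eventually_mem_nhdsWithin.mono mΦ)
  · refine ⟨?_, ?_, ?_⟩
    · simp only [sw, cj, d.jp, hS.2.1, map_zero]
    · simp only [sw, cj, d.jp, hS.1, map_zero]
    · have h1 : d.D (σ.1, σ.2.1, σ.2.2) = 0 := hS.2.2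
      simp only [sw, cj, d.jD, d.Ds σ.2.1 σ.1, h1, map_zero]
  · simpa only [sw, cj, d.jpx, map_ne_zero] using hy

end Pool.Agent.AO
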