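import Pool.Agent.Lib.AO.Blue

set_option autoImplicit false

noncomputable section

namespace Pool.Agent.AO

open Set Metric Filter Topology ComplexConjugate

namespace UPA

theorem adkD {d : Dat} {h R κ : ℝ} {S : Finset ℂ} {D : Set ℂ} {Φ : ℂ → S3}
    (hS : Sec d h R κ S D Φ) {z : ℂ} {a : ℝ} (ha : Adk h R κ S z a) : z ∈ D := by
  obtain ⟨_, e, _, he⟩ := ha
  exact hS.adm z e he (mem_ball_self (mul_pos hS.kp he.2.2.2.1))

theorem sl {F : ℂ × ℂ → ℂ} {u s : ℂ} (h : DifferentiableAt ℂ F (u, s)) :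
    DifferentiableAt ℂ (fun v => F (v, s)) u :=
  DifferentiableAt.comp (g := F) (f := fun v => (v, s)) u h
    (differentiableAt_id.prodMk (differentiableAt_const s))

theorem wrap (hI : St_INT) {Y A : ℂ → ℂ} {z0 w0 a0 : ℂ} {R e : ℝ} (hw : w0 ≠ 0) (hR : 0 < R)
    (hY : DifferentiableOn ℂ Y (ball z0 R)) (hA : DifferentiableOn ℂ A (ball z0 R))
    (h1 : ∀ z ∈ ball z0 R, ‖deriv Y z - w0‖ ≤ ‖w0‖ / 4) (h2 : ∀ z ∈ ball z0 R, ‖A z - a0‖ ≤ e)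
    (s : ℂ) (hs : 16 * ‖s‖ * e < ‖w0‖ * R) :
    ∃ G : ℂ → ℂ, ∀ c, 4 * ‖Y z0 - s * A z0 - c‖ < ‖w0‖ * R → DifferentiableAt ℂ G c ∧
      G c ∈ ball z0 (R / 2) ∧ Y (G c) - s * A (G c) = c ∧
      ∀ z ∈ ball z0 (R / 2), ‖w0‖ * ‖G c - z‖ ≤ 2 * ‖Y z - s * A z - c‖ := by
  obtain ⟨ho, g, hg, hp⟩ := hI Y A z0 w0 a0 R e hw hR hY hA h1 h2
  refine ⟨fun c => g (c, s), fun c hc => ?_⟩
  have hm : (c, s) ∈ intW Y A z0 w0 R e := ⟨hs, hc⟩
  exact ⟨sl (hg.differentiableAt (ho.mem_nhds hm)), hp _ hm⟩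

theorem n2 {x u v : ℂ} {p q : ℝ} (e : x = u + v) (hu : ‖u‖ ≤ p) (hv : ‖v‖ ≤ q) :
    ‖x‖ ≤ p + q := e ▸ (norm_add_le u v).trans (add_le_add hu hv)

theorem n2s {x u v : ℂ} {p q : ℝ} (e : x = u - v) (hu : ‖u‖ ≤ p) (hv : ‖v‖ ≤ q) :
    ‖x‖ ≤ p + q := e ▸ (norm_sub_le u v).trans (add_le_add hu hv)

theorem nm {w u : ℂ} {p : ℝ} (hu : ‖u‖ ≤ p) : ‖w * u‖ ≤ ‖w‖ * p := by
  rw [norm_mul]; exact mul_le_mul_of_nonneg_left hu (norm_nonneg _)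

theorem xp {D : Set ℂ} {Φ : ℂ → S3} {b a0 b0 y0 : ℂ} {e r : ℝ}
    (hX : Xp D Φ b (a0, b0, y0) e (5 * r))
    (hr : 0 < r) (he : 0 ≤ e) {τ : ℂ} (hτ : τ ∈ D) (hd : ‖τ - b‖ ≤ 2 * r) (s : ℂ) (hs : ‖s‖ = r) :
    ‖fY Φ τ - s * fA Φ τ - (y0 + (a0 - b0) * (τ - b) - s * a0)‖ ≤ 3 * (e * r) ∧
    ‖fY Φ τ - s * fB Φ τ - (y0 + (a0 - b0) * (τ - b) - s * b0)‖ ≤ 3 * (e * r) := by
  obtain ⟨h1, h2, h3⟩ := hX τ hτ (by linarith)
  have h4 : ‖fY Φ τ - y0 - (a0 - b0) * (τ - b)‖ ≤ e * (2 * r) :=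
    h3.trans (mul_le_mul_of_nonneg_left hd he)
  constructor
  · have := n2s (x := fY Φ τ - s * fA Φ τ - (y0 + (a0 - b0) * (τ - b) - s * a0))
      (by ring) h4 (nm (w := s) h1)
    rw [hs] at this
    linarith
  · have := n2s (x := fY Φ τ - s * fB Φ τ - (y0 + (a0 - b0) * (τ - b) - s * b0))
      (by ring) h4 (nm (w := s) h2)
    rw [hs] at this
    linarith

theorem dAt {d : Dat} {D : Set ℂ} {Φ : ℂ → S3} (h : Sol d D Φ) {τ : ℂ} (hτ : τ ∈ D) :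
    DifferentiableAt ℂ (fA Φ) τ ∧ DifferentiableAt ℂ (fB Φ) τ ∧ DifferentiableAt ℂ (fY Φ) τ := by
  have := h.df.differentiableAt (h.op.mem_nhds hτ)
  exact ⟨this.fst, this.snd.fst, this.snd.snd⟩

/-- Solving `Y - s X = c` near a point of the curve, for `X = A` or `X = B`. -/
theorem near (hI : St_INT) {d : Dat} {D : Set ℂ} {Φ : ℂ → S3} (h : Sol d D Φ)
    {b a0 b0 y0 z0 x0 : ℂ} {e r ρ : ℝ} (hX : Xp D Φ b (a0, b0, y0) e (5 * r)) (hw : a0 ≠ b0)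
    (hρ : 0 < ρ) (hD : ball z0 ρ ⊆ D) (hz : ‖z0 - b‖ + ρ ≤ 5 * r) (he : 8 * e ≤ ‖a0 - b0‖)
    {X : ℂ → ℂ} (hx : (X = fA Φ ∧ x0 = a0) ∨ (X = fB Φ ∧ x0 = b0))
    (s : ℂ) (hs : 16 * ‖s‖ * e < ‖a0 - b0‖ * ρ) :
    ∃ G : ℂ → ℂ, ∀ c, 4 * ‖fY Φ z0 - s * X z0 - c‖ < ‖a0 - b0‖ * ρ → DifferentiableAt ℂ G c ∧
      G c ∈ ball z0 (ρ / 2) ∧ fY Φ (G c) - s * X (G c) = c ∧
      ∀ z ∈ ball z0 (ρ / 2), ‖a0 - b0‖ * ‖G c - z‖ ≤ 2 * ‖fY Φ z - s * X z - c‖ := by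
  have hb : ∀ z ∈ ball z0 ρ, ‖fA Φ z - a0‖ ≤ e ∧ ‖fB Φ z - b0‖ ≤ e := fun z hz' => by
    have h1 : ‖z - z0‖ < ρ := by simpa [dist_eq_norm] using hz'
    have h2 := n2 (x := z - b) (u := z - z0) (v := z0 - b) (by ring) le_rfl le_rfl
    obtain ⟨k1, k2, _⟩ := hX z (hD hz') (by linarith)
    exact ⟨k1, k2⟩
  refine wrap hI (a0 := x0) (sub_ne_zero.2 hw) hρ
    (fun z hz' => (dAt h (hD hz')).2.2.differentiableWithinAt) ?_ (fun z hz' => ?_) ?_ s hs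
  · rcases hx with ⟨rfl, _⟩ | ⟨rfl, _⟩
    · exact fun z hz' => (dAt h (hD hz')).1.differentiableWithinAt
    · exact fun z hz' => (dAt h (hD hz')).2.1.differentiableWithinAt
  · rw [(h.dY z (hD hz')).deriv]
    have := n2s (x := fA Φ z - fB Φ z - (a0 - b0)) (by ring) (hb z hz').1 (hb z hz').2
    linarith
  · rcases hx with ⟨rfl, rfl⟩ | ⟨rfl, rfl⟩
    · exact fun z hz' => (hb z hz').1
    · exact fun z hz' => (hb z hz').2

section orbit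

variable {d : Dat} {h R κ L ε η r a : ℝ} {S : Finset ℂ} {Φ : ℂ → S3} {b : ℂ} {P : ℕ → Prop}

theorem one (hC : Ctx d h R κ S Φ L ε η r)
    (hA : ∀ j : ℕ, P j → ∀ z : ℂ, ‖z - (b + j * r)‖ ≤ a → Adk h R κ S z (ε * r))
    {u : ℂ} {j : ℕ} (h0 : P j) (h1 : P (j + 1)) (hu : ‖u - (b + j * r)‖ ≤ a) :
    Stp d Φ η u r (η * r / 2) ∧ Stp d.flip (flp Φ) η u r (η * r / 2) := by
  refine hC.one u (hA j h0 u hu) (hA (j + 1) h1 _ ?_)
  have : u + r - (b + ((j + 1 : ℕ) : ℂ) * r) = u - (b + j * r) := by push_cast; ring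
  rwa [this]

theorem orb (hC : Ctx d h R κ S Φ L ε η r)
    (hA : ∀ j : ℕ, P j → ∀ z : ℂ, ‖z - (b + j * r)‖ ≤ a → Adk h R κ S z (ε * r))
    {u : ℂ} {j n : ℕ} (hn : n * r ≤ L) (h0 : ∀ i ≤ 2 * n, P (j + i))
    (hu : ‖u - (b + j * r)‖ + 2 * η * r ≤ a) :
    DifferentiableAt ℂ ((dbl d Φ η r)^[n]) u ∧
      ‖(dbl d Φ η r)^[n] u - (u + 2 * n * r)‖ ≤ η * r := by
  have hT : Tube h R κ S ε η r u (2 * n) := fun i hi z hz => by
    refine hA (j + i) (h0 i hi) z ?_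
    have := n2 (x := z - (b + ((j + i : ℕ) : ℂ) * r)) (v := u - (b + j * r))
      (by push_cast; ring) hz le_rfl
    linarith
  exact ⟨sl (hC.dif u n hn hT), hC.orb u n hn hT n le_rfl⟩

/-- The true chain inside a tube. -/
theorem chain (hC : Ctx d h R κ S Φ L ε η r) (hη : 0 < η) (hr : 0 < r) {τ : ℂ} {q : ℕ}
    (hq : q * r ≤ L) (hT : Tube h R κ S ε η r τ (2 * q)) {k : ℕ} (hk : k < q) {t μ : ℂ}
    (ht : t = (dbl d Φ η r)^[k] τ) (hμ : μ = th d Φ η (t, r)) :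
    ‖μ - (τ + (2 * k + 1) * r)‖ ≤ 2 * (η * r) ∧ Adk h R κ S μ (ε * r) ∧
    fY Φ μ - r * fA Φ μ = fY Φ t - r * fB Φ t ∧
    fY Φ μ + r * fA Φ μ = fY Φ (dbl d Φ η r t) + r * fB Φ (dbl d Φ η r t) := by
  have hβ : 0 < η * r := mul_pos hη hr
  have h0 : ‖t - (τ + ((2 * k : ℕ) : ℂ) * r)‖ ≤ η * r := by
    have := hC.orb τ q hq hT k hk.le
    rw [← ht] at this
    push_cast
    exact this
  have hA : ∀ j : ℕ, j ≤ 2 * q → ∀ z : ℂ, ‖z - (τ + j * r)‖ ≤ 2 * η * r →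
      Adk h R κ S z (ε * r) := hT
  have s1 := (one (P := fun j => j ≤ 2 * q) hC hA (u := t) (j := 2 * k) (by omega) (by omega)
    (by linarith)).1
  have e1 := s1.est
  rw [← hμ] at e1
  have h1 : ‖μ - (τ + ((2 * k + 1 : ℕ) : ℂ) * r)‖ ≤ η * r / 2 + η * r :=
    n2 (by push_cast; ring) e1 h0
  have s2 := (one (P := fun j => j ≤ 2 * q) hC hA (u := μ) (j := 2 * k + 1) (by omega) (by omega)
    (by linarith)).2
  refine ⟨?_, hA (2 * k + 1) (by omega) μ (by linarith), ?_, ?_⟩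
  · push_cast at h1
    linarith
  · have := s1.rel.1
    rw [← hμ] at this
    linear_combination this
  · have := ((rel_flip d Φ _ μ r).1 s2.rel).1
    have e2 : dbl d Φ η r t = th d.flip (flp Φ) η (μ, r) := by rw [hμ]; rfl
    rw [e2]
    linear_combination this

end orbit

theorem can {W x k : ℝ} (hW : 0 < W) (h : W * x ≤ W * k) : x ≤ k := le_of_mul_le_mul_left h hW

theorem zer {W : ℝ} {u v x : ℂ} (hW : 0 < W) (h : W * ‖u - v‖ ≤ 2 * ‖x‖) (hx : x = 0) :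
    u = v := by
  rw [hx, norm_zero] at h
  exact sub_eq_zero.1 (norm_le_zero_iff.1 (can hW (by linarith)))

/-- Passing the middle vertex in the variable `y`. -/
theorem mid (hI : St_INT) {d : Dat} {D : Set ℂ} {Φ : ℂ → S3} (h : Sol d D Φ)
    {b a0 b0 y0 z0 : ℂ} {e r η ν δ : ℝ} {ξ : ℂ → ℂ} (hX : Xp D Φ b (a0, b0, y0) e (5 * r))
    (hw : a0 ≠ b0) (hη : 0 < η) (hr : 0 < r) (hην : 20 * η ≤ ν) (hν : ν ≤ 1 / 100) (he : 0 ≤ e)
    (heW : 100 * e ≤ η * ‖a0 - b0‖) (hz : ‖z0 - (b + r)‖ ≤ η * r)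
    (hD : ball z0 (8 * ν * r) ⊆ D) (hξ : DifferentiableOn ℂ ξ (ball y0 δ))
    (hξe : ∀ y ∈ ball y0 δ, ‖ξ y - a0‖ ≤ e) (hδ : 100 * r * (‖a0‖ + ‖b0‖ + e) < δ)
    (hAξ : ∀ τ ∈ D, ‖τ - b‖ < 5 * r → fA Φ τ = ξ (fY Φ τ)) :
    ∃ F : ℂ → ℂ, ∀ t ∈ D, ‖t + 2 * r - z0‖ ≤ ν * r + 2 * (η * r) → DifferentiableAt ℂ F t ∧
      ‖F t - (t + 2 * r)‖ ≤ η * r / 2 ∧ ∀ μ ∈ D, ∀ t' : ℂ, ‖μ - b‖ ≤ r → ‖t' - z0‖ ≤ ν * r →
        fY Φ μ - r * fA Φ μ = fY Φ t - r * fB Φ t →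
        fY Φ μ + r * fA Φ μ = fY Φ t' + r * fB Φ t' → F t = t' := by
  have hW : 0 < ‖a0 - b0‖ := norm_pos_iff.2 (sub_ne_zero.2 hw)
  have hWle : ‖a0 - b0‖ ≤ ‖a0‖ + ‖b0‖ := norm_sub_le _ _
  have hnr : ‖(r : ℂ)‖ = r := by simp [abs_of_pos hr]
  have hnr' : ‖-(r : ℂ)‖ = r := by rw [norm_neg, hnr]
  have hβ : 0 < η * r := mul_pos hη hr
  have hE0 : 0 ≤ e * r := mul_nonneg he hr.le
  have hE : 100 * (e * r) ≤ ‖a0 - b0‖ * (η * r) := by nlinarith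
  have h20 : 20 * (η * r) ≤ ν * r := by nlinarith
  have hα : ν * r ≤ r / 100 := by nlinarith
  have hWβ : 0 < ‖a0 - b0‖ * (η * r) := mul_pos hW hβ
  have hWα : 20 * (‖a0 - b0‖ * (η * r)) ≤ ‖a0 - b0‖ * (ν * r) := by nlinarith
  have hWr : 0 < ‖a0 - b0‖ * r := mul_pos hW hr
  have hδ' : 100 * (‖a0 - b0‖ * r) + 100 * (e * r) < δ := by nlinarith
  have hδ0 : 0 < δ := by linarith
  have hzb : ‖z0 - b‖ ≤ η * r + r := n2 (by ring) hz hnr.le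
  obtain ⟨G2, hG2⟩ := wrap hI (Y := fun z => z) (A := ξ) (z0 := y0) (w0 := 1) (a0 := a0)
    (R := δ) (e := e) one_ne_zero hδ0 differentiableOn_id hξ (by simp) hξe r
    (by rw [hnr, norm_one]; linarith)
  obtain ⟨G3, hG3⟩ := near hI h hX hw (z0 := z0) (ρ := 8 * ν * r) (by linarith) hD (by linarith)
    (by nlinarith) (Or.inr ⟨rfl, rfl⟩) (-(r : ℂ)) (by rw [hnr']; linarith)
  refine ⟨fun t => G3 (G2 (fY Φ t - r * fB Φ t) + r * ξ (G2 (fY Φ t - r * fB Φ t))),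
    fun t ht htz => ?_⟩
  have t1 : ‖t - b + r‖ ≤ ν * r + 2 * (η * r) + η * r := n2 (by ring) htz hz
  have t2 : ‖t - b‖ ≤ ν * r + 2 * (η * r) + η * r + r := n2s (by ring) t1 hnr.le
  have x1 := (xp hX hr he ht (by linarith) r hnr).2
  have dc : DifferentiableAt ℂ (fun t => fY Φ t - r * fB Φ t) t :=
    (dAt h ht).2.2.sub ((dAt h ht).2.1.const_mul _)
  obtain ⟨c1, hc1⟩ : ∃ c1, c1 = fY Φ t - r * fB Φ t := ⟨_, rfl⟩
  rw [← hc1] at x1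
  have k1 : ‖y0 - r * ξ y0 - c1‖ ≤ ‖a0 - b0‖ * r + ‖(r : ℂ)‖ * e + 3 * (e * r) := by
    have u1 := nm (w := -(a0 - b0)) (t1.trans (by linarith : _ ≤ r))
    rw [norm_neg] at u1
    exact n2s (by ring) (n2s rfl u1 (nm (w := r) (hξe y0 (mem_ball_self hδ0)))) x1
  rw [hnr] at k1
  obtain ⟨d2, m2, e2, u2⟩ := hG2 c1 (by rw [norm_one]; linarith)
  have m2' : G2 c1 ∈ ball y0 δ := ball_subset_ball (by linarith) m2
  have dξ : DifferentiableAt ℂ ξ (G2 c1) := hξ.differentiableAt (isOpen_ball.mem_nhds m2')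
  obtain ⟨c2, hc2⟩ : ∃ c2, c2 = G2 c1 + r * ξ (G2 c1) := ⟨_, rfl⟩
  have k2 : ∀ z ∈ D, ‖z - b‖ ≤ 2 * r → ∀ p : ℝ, ‖z - t - 2 * r‖ ≤ p →
      ‖fY Φ z - -(r : ℂ) * fB Φ z - c2‖ ≤ ‖a0 - b0‖ * p + 8 * (e * r) := fun z hz1 hz2 p hp => by
    have x2 := (xp hX hr he hz1 hz2 (-(r : ℂ)) hnr').2
    have x3 := nm (w := r) (hξe _ m2')
    have := n2s (x := fY Φ z - -(r : ℂ) * fB Φ z - c2) (by rw [hc2]; linear_combination -e2)
      (n2s rfl (n2s rfl (n2 rfl (nm (w := a0 - b0) hp) x2) x1) x3) x3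
    rw [hnr] at this
    linarith
  have k3 := k2 z0 (hD (mem_ball_self (by linarith))) (by linarith) (ν * r + 2 * (η * r))
    (by rw [← norm_neg]; exact le_of_eq_of_le (congrArg _ (by ring)) htz)
  obtain ⟨d3, _, _, u3⟩ := hG3 c2 (by linarith)
  have m3 : t + 2 * r ∈ ball z0 (8 * ν * r / 2) := by
    rw [mem_ball, dist_eq_norm]; linarith
  have k4 := k2 (t + 2 * r) (hD (ball_subset_ball (by linarith) m3))
    ((n2 (x := t + 2 * r - b) (by ring) t1 hnr.le).trans (by linarith)) 0 (by simp)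
  refine ⟨?_, ?_, fun μ hμ t' hμb ht' q1 q2 => ?_⟩
  · have a1 : DifferentiableAt ℂ (fun t => G2 (fY Φ t - r * fB Φ t)) t :=
      DifferentiableAt.comp (g := G2) t (hc1 ▸ d2) dc
    have a2 : DifferentiableAt ℂ (fun t => ξ (G2 (fY Φ t - r * fB Φ t))) t :=
      DifferentiableAt.comp (g := ξ) t (hc1 ▸ dξ) a1
    exact DifferentiableAt.comp (g := G3) t (hc1 ▸ hc2 ▸ d3) (a1.add (a2.const_mul _))
  · have := u3 _ m3
    simp only [← hc1, ← hc2]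
    exact can hW (by linarith)
  · have q3 := hAξ μ hμ (by linarith)
    have q4 : ‖fY Φ μ - y0‖ ≤ e * r + ‖a0 - b0‖ * r :=
      n2 (by ring) ((hX μ hμ (by linarith)).2.2.trans (mul_le_mul_of_nonneg_left hμb he))
        (nm (w := a0 - b0) hμb)
    have q5 : G2 c1 = fY Φ μ := zer (W := ‖(1 : ℂ)‖) (by simp)
      (u2 (fY Φ μ) (by rw [mem_ball, dist_eq_norm]; linarith))
      (by rw [← q3, hc1]; linear_combination q1)
    simp only [← hc1, ← hc2]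
    exact zer hW (u3 t' (by rw [mem_ball, dist_eq_norm]; linarith))
      (by rw [hc2, q5, ← q3]; linear_combination -q2)

end UPA

open UPA in
theorem st_UPA (hI : St_INT) : St_UPA := by
  rintro d h R κ T S D Φ b ⟨a0, b0, y0⟩ ξ ε η ν r δ e m hS hC hw hη hr hr1 hm hην hν he heW hT hA
    hD1 hD2 X0 X1 X2 hξ hξe hδ hAξ
  dsimp only at hw heW hξ hξe hδ ⊢
  obtain ⟨n, rfl⟩ : ∃ n, m = n + 1 := ⟨m - 1, by omega⟩
  have hW : 0 < ‖a0 - b0‖ := norm_pos_iff.2 (sub_ne_zero.2 hw)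
  have hnr : ‖(r : ℂ)‖ = r := by simp [abs_of_pos hr]
  have hnr' : ‖-(r : ℂ)‖ = r := by rw [norm_neg, hnr]
  have hβ : 0 < η * r := mul_pos hη hr
  have hE0 : 0 ≤ e * r := mul_nonneg he hr.le
  have hE : 100 * (e * r) ≤ ‖a0 - b0‖ * (η * r) := by nlinarith
  have h20 : 20 * (η * r) ≤ ν * r := by nlinarith
  have hα : ν * r ≤ r / 100 := by nlinarith
  have hWβ : 0 < ‖a0 - b0‖ * (η * r) := mul_pos hW hβ
  have hWα : 20 * (‖a0 - b0‖ * (η * r)) ≤ ‖a0 - b0‖ * (ν * r) := by nlinarith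
  have hθ : ‖(2 * (n : ℂ) + 3) * r - T‖ ≤ η * r := by
    have : (2 * (n : ℂ) + 3) * r - T = (((2 * ((n + 1 : ℕ) : ℝ) + 1) * r - T : ℝ) : ℂ) := by
      push_cast; ring
    rw [this, Complex.norm_real]
    exact hT
  have hL : (2 * (n : ℝ) + 3) * r ≤ T + 1 := by
    have := (abs_le.1 hT).2
    push_cast at this
    linarith
  have hnL : (n : ℝ) * r ≤ T + 1 := by
    have : 0 ≤ (n : ℝ) * r := by positivity
    linarith
  have hA' : ∀ j : ℕ, (1 ≤ j ∧ j ≤ 4 * n + 5 ∧ j ≠ 2 * n + 3) → ∀ z : ℂ,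
      ‖z - (b + j * r)‖ ≤ 3 * ν * r → Adk h R κ S z (ε * r) :=
    fun j hj => hA j hj.1 (by omega) (by omega)
  have hb1 : ‖b + r - b‖ ≤ r := by simpa using hnr.le
  obtain ⟨G, hG⟩ := near hI hS.sol X0 hw (z0 := b + r) (ρ := 8 * ν * r) (by linarith) hD1
    (by linarith) (by nlinarith) (Or.inl ⟨rfl, rfl⟩) (r : ℂ) (by rw [hnr]; linarith)
  obtain ⟨z0, hz0⟩ : ∃ z0 : ℂ, z0 = b + (2 * ((n + 1 : ℕ) : ℂ) + 2) * r := ⟨_, rfl⟩
  rw [← hz0] at hD2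
  push_cast at hz0
  obtain ⟨F, hF⟩ := mid hI hS.sol X1 hw hη hr hην hν he heW (z0 := z0)
    (le_of_eq_of_le (congrArg _ (by rw [hz0]; ring)) hθ) hD2 hξ hξe hδ hAξ
  have x0 := (xp X0 hr he (hD1 (mem_ball_self (by linarith))) (by linarith) r hnr).1
  have k0 : ∀ c ∈ ball (y0 - r * b0) (‖a0 - b0‖ * ν * r / 2),
      ‖fY Φ (b + r) - r * fA Φ (b + r) - c‖ ≤ 3 * (e * r) + ‖a0 - b0‖ * ν * r / 2 :=
    fun c hc => n2s (v := c - (y0 - r * b0)) (by ring) x0 (mem_ball_iff_norm.1 hc).le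
  obtain ⟨F1, hF1⟩ : ∃ F1 : ℂ → ℂ,
    F1 = fun c => (dbl d Φ η r)^[n] (th d.flip (flp Φ) η (G c, r)) := ⟨_, rfl⟩
  obtain ⟨F3, hF3⟩ : ∃ F3 : ℂ → ℂ,
    F3 = fun t => th d Φ η ((dbl d Φ η r)^[n] t, r) := ⟨_, rfl⟩
  have key : ∀ c ∈ ball (y0 - r * b0) (‖a0 - b0‖ * ν * r / 2),
      DifferentiableAt ℂ (fun c => fY Φ (F3 (F (F1 c))) + r * fA Φ (F3 (F (F1 c)))) c ∧
      ‖fY Φ (F3 (F (F1 c))) + r * fA Φ (F3 (F (F1 c))) - c - 2 * r * b0‖ ≤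
        20 * η * r * ‖a0 - b0‖ ∧ F1 c ∈ D ∧ ‖F1 c + 2 * r - z0‖ ≤ ν * r + 2 * (η * r) := by
    intro c hc
    have k1 := k0 c hc
    obtain ⟨d1, m1, e1, u1⟩ := hG c (by linarith)
    have g1 : ‖G c - (b + r)‖ ≤ ν * r + η * r / 10 := by
      have := u1 (b + r) (mem_ball_self (by linarith))
      exact can hW (by linarith)
    have g1' : ‖G c - (b + ((1 : ℕ) : ℂ) * r)‖ ≤ ν * r + η * r / 10 := by simpa using g1
    have gD : G c ∈ D := hD1 (ball_subset_ball (by linarith) m1)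
    have s2 := (one hC hA' (u := G c) (j := 1) (by omega) (by omega)
      (g1'.trans (by linarith))).2
    have g2 : ‖th d.flip (flp Φ) η (G c, r) - (b + ((2 : ℕ) : ℂ) * r)‖ ≤
        η * r / 2 + (ν * r + η * r / 10) := n2 (by push_cast; ring) s2.est g1
    obtain ⟨d3, o3⟩ := orb hC hA' (j := 2) (n := n) hnL (fun i hi => by omega)
      ((add_le_add g2 le_rfl).trans (by linarith))
    have dF1 : DifferentiableAt ℂ F1 c := by
      rw [hF1]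
      exact DifferentiableAt.comp (g := (dbl d Φ η r)^[n]) c d3
        (DifferentiableAt.comp (g := fun v => th d.flip (flp Φ) η (v, r)) c (sl s2.dif) d1)
    have g3 : ‖F1 c - (G c + (2 * n + 1) * r)‖ ≤ η * r + η * r / 2 := by
      rw [hF1]
      exact n2 (by ring) o3 s2.est
    have g4 : ‖F1 c + 2 * r - z0‖ ≤ η * r + η * r / 2 + (ν * r + η * r / 10) :=
      n2 (by rw [hz0]; ring) g3 g1
    have tD : F1 c ∈ D := adkD hS (hA' (2 * n + 2) (by omega) _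
      (le_trans (le_of_eq_of_le (congrArg _ (by rw [hz0]; push_cast; ring)) g4) (by linarith)))
    obtain ⟨dF, g5, _⟩ := hF (F1 c) tD (by linarith)
    have g6 : ‖F (F1 c) - (b + ((2 * n + 4 : ℕ) : ℂ) * r)‖ ≤
        η * r / 2 + (η * r + η * r / 2 + (ν * r + η * r / 10)) :=
      n2 (by rw [hz0]; push_cast; ring) g5 g4
    obtain ⟨d7, o7⟩ := orb hC hA' (j := 2 * n + 4) (n := n) hnL (fun i hi => by omega)
      ((add_le_add g6 le_rfl).trans (by linarith))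
    have g7 : ‖(dbl d Φ η r)^[n] (F (F1 c)) - (b + ((4 * n + 4 : ℕ) : ℂ) * r)‖ ≤ η * r +
        (η * r / 2 + (η * r + η * r / 2 + (ν * r + η * r / 10))) :=
      n2 (by push_cast; ring) o7 g6
    have s8 := (one hC hA' (u := (dbl d Φ η r)^[n] (F (F1 c))) (j := 4 * n + 4) (by omega)
      (by omega) (g7.trans (by linarith))).1
    have dF3 : DifferentiableAt ℂ F3 (F (F1 c)) := by
      rw [hF3]
      exact DifferentiableAt.comp (g := fun v => th d Φ η (v, r)) _ (sl s8.dif) d7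
    have g8 : ‖F3 (F (F1 c)) - (F (F1 c) + (2 * n + 1) * r)‖ ≤ η * r / 2 + η * r := by
      rw [hF3]
      exact n2 (by ring) s8.est o7
    obtain ⟨μ, hμ⟩ : ∃ μ, μ = F3 (F (F1 c)) := ⟨_, rfl⟩
    rw [← hμ] at g8
    have g9 : ‖μ - (b + ((4 * n + 5 : ℕ) : ℂ) * r)‖ ≤ η * r / 2 + η * r +
        (η * r / 2 + (η * r + η * r / 2 + (ν * r + η * r / 10))) :=
      n2 (by push_cast; ring) g8 g6
    have μD : μ ∈ D := adkD hS (hA' (4 * n + 5) (by omega) _ (g9.trans (by linarith)))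
    have g10 : ‖μ - (b + 2 * T)‖ ≤ 2 * r :=
      (n2s (x := μ - (b + 2 * T)) (by push_cast; ring) (n2 rfl (n2 rfl g9 hθ) hθ) hnr.le).trans
        (by linarith)
    have x1 := (xp X2 hr he μD g10 (-(r : ℂ)) hnr').1
    have x2 := (xp X0 hr he gD
      ((n2 (x := G c - b) (by ring) g1 hnr.le).trans (by linarith)) r hnr).1
    have g11 : ‖μ - G c - 2 * T + 2 * r‖ ≤ 6 * (η * r) :=
      (n2 (x := μ - G c - 2 * T + 2 * r) (by ring)
        (n2 rfl (n2 rfl (n2 rfl g8 g5) g3) hθ) hθ).trans (by linarith)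
    refine ⟨?_, ?_, tD, by linarith⟩
    · have a1 : DifferentiableAt ℂ (fun c => F3 (F (F1 c))) c :=
        DifferentiableAt.comp (g := F3) c dF3 (DifferentiableAt.comp (g := F) c dF dF1)
      exact (DifferentiableAt.comp (g := fY Φ) c (hμ ▸ (dAt hS.sol μD).2.2) a1).add
        ((DifferentiableAt.comp (g := fA Φ) c (hμ ▸ (dAt hS.sol μD).1) a1).const_mul _)
    · rw [← hμ]
      have := n2s (x := fY Φ μ + r * fA Φ μ - c - 2 * r * b0) (by linear_combination e1)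
        (n2 rfl (nm (w := a0 - b0) g11) x1) x2
      linarith
  refine ⟨fun c => fY Φ (F3 (F (F1 c))) + r * fA Φ (F3 (F (F1 c))),
    fun c hc => (key c hc).1.differentiableWithinAt, fun c hc => (key c hc).2.1,
    fun τ hτ hTu hSL => ?_⟩
  have hq : ((2 * (n + 1) + 1 : ℕ) : ℝ) * r ≤ T + 1 := by push_cast; linarith
  have τD : τ ∈ D := adkD hS (hTu 0 (by omega) τ (by simp; positivity))
  have x1 := (xp X0 hr he τD (by linarith) r hnr).2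
  obtain ⟨c, hc⟩ : ∃ c, c = fY Φ τ - r * fB Φ τ := ⟨_, rfl⟩
  rw [← hc] at x1 ⊢
  have cB : c ∈ ball (y0 - r * b0) (‖a0 - b0‖ * ν * r / 2) := by
    rw [mem_ball, dist_eq_norm]
    have := n2 (x := c - (y0 - r * b0)) (by ring) x1 (nm (w := a0 - b0) hτ)
    linarith
  have k1 := k0 c cB
  obtain ⟨_, _, _, u1⟩ := hG c (by linarith)
  obtain ⟨c1, _, c2, _⟩ := chain hC hη hr hq hTu (k := 0) (by omega) (t := τ) rfl rfl
  have q1 : G c = th d Φ η (τ, r) := by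
    refine zer hW (u1 _ ?_) (by rw [hc]; linear_combination c2)
    rw [mem_ball, dist_eq_norm]
    have := n2 (x := th d Φ η (τ, r) - (b + r)) (by push_cast; ring) c1 hτ
    linarith
  have q2 : F1 c = (dbl d Φ η r)^[n + 1] τ := by
    rw [hF1]
    simp only [q1]
    rfl
  obtain ⟨c3, c4, c5, c6⟩ := chain hC hη hr hq hTu (k := n + 1) (by omega) q2 rfl
  have c7 := hC.orb τ _ hq hTu (n + 1 + 1) (by omega)
  rw [Function.iterate_succ_apply', ← q2] at c7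
  have q3 : F (F1 c) = dbl d Φ η r (F1 c) := by
    refine (hF (F1 c) (key c cB).2.2.1 (key c cB).2.2.2).2.2 _ (adkD hS c4) _ ?_ ?_ c5 c6
    · exact (n2 (x := th d Φ η (F1 c, r) - (b + T)) (by push_cast; ring)
        (n2 rfl c3 hτ) hθ).trans (by linarith)
    · exact (n2 (x := dbl d Φ η r (F1 c) - z0) (by rw [hz0]; push_cast; ring) c7 hτ).trans
        (by linarith)
  have q4 : (dbl d Φ η r)^[n] (F (F1 c)) = (dbl d Φ η r)^[2 * (n + 1)] τ := by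
    rw [q3, q2, ← Function.iterate_succ_apply' (dbl d Φ η r), ← Function.iterate_add_apply]
    exact congrArg (fun k => (dbl d Φ η r)^[k] τ) (by omega)
  obtain ⟨_, _, _, c8⟩ := chain hC hη hr hq hTu (k := 2 * (n + 1)) (by omega) q4 rfl
  rw [Function.iterate_succ_apply', ← q4] at hSL
  rw [hF3]
  simp only []
  rw [c8, hSL.1, hSL.2]

end Pool.Agent.AO
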