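import Pool.Agent.Lib.AO.Blue

set_option autoImplicit false

noncomputable section

namespace Pool.Agent.AO

open Set Metric Filter Topology ComplexConjugate

theorem UPB_mono {D : Set ℂ} {Φ : ℂ → S3} {b : ℂ} {σ : S3} {e e' δ δ' : ℝ}
    (h : Xp D Φ b σ e δ) (he : e ≤ e') (hδ : δ' ≤ δ) : Xp D Φ b σ e' δ' := by
  intro τ hτ hl
  obtain ⟨h1, h2, h3⟩ := h τ hτ (hl.trans_le hδ)
  exact ⟨h1.trans he, h2.trans he, h3.trans (mul_le_mul_of_nonneg_right he (norm_nonneg _))⟩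

theorem UPB_open (h : ℝ) : IsOpen (strip h) :=
  isOpen_lt Complex.continuous_im.abs continuous_const

theorem UPB_convex (h : ℝ) : Convex ℝ (strip h) := by
  have e : strip h = {τ : ℂ | -h < τ.im} ∩ {τ : ℂ | τ.im < h} := by
    ext τ
    simp [strip, abs_lt]
  rw [e]
  exact (convex_halfSpace_im_gt _).inter (convex_halfSpace_im_lt _)

theorem UPB_neBot {h : ℝ} (hp : 0 < h) {b : ℂ} (hb : b.im = h) : (𝓝[strip h] b).NeBot := by
  rw [← mem_closure_iff_nhdsWithin_neBot, Metric.mem_closure_iff]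
  intro ε hε
  have h1 : 0 < min (ε / 2) h := lt_min (by linarith) hp
  have h2 : min (ε / 2) h ≤ ε / 2 := min_le_left _ _
  have h3 : min (ε / 2) h ≤ h := min_le_right _ _
  refine ⟨b - (min (ε / 2) h : ℝ) * Complex.I, ?_, ?_⟩
  · have : (b - (min (ε / 2) h : ℝ) * Complex.I).im = h - min (ε / 2) h := by
      rw [Complex.sub_im, Complex.mul_im, Complex.ofReal_re, Complex.ofReal_im, Complex.I_im,
        Complex.I_re, hb]
      ring
    show |(b - (min (ε / 2) h : ℝ) * Complex.I).im| < h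
    rw [this, abs_lt]
    constructor <;> linarith
  · rw [dist_eq_norm, sub_sub_cancel, norm_mul, Complex.norm_I, Complex.norm_real,
      Real.norm_eq_abs, abs_of_pos h1]
    linarith

theorem UPB_normY {D : Set ℂ} {Φ : ℂ → S3} {b : ℂ} {σ : S3} {e δ : ℝ}
    (hX : Xp D Φ b σ e δ) {τ : ℂ} (hτ : τ ∈ D) (hl : ‖τ - b‖ < δ) :
    ‖fY Φ τ - σ.2.2‖ ≤ (‖σ.1 - σ.2.1‖ + e) * ‖τ - b‖ := by
  obtain ⟨-, -, h3⟩ := hX τ hτ hl
  have e1 : fY Φ τ - σ.2.2 = (fY Φ τ - σ.2.2 - (σ.1 - σ.2.1) * (τ - b)) +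
      (σ.1 - σ.2.1) * (τ - b) := by ring
  have h4 := norm_add_le (fY Φ τ - σ.2.2 - (σ.1 - σ.2.1) * (τ - b)) ((σ.1 - σ.2.1) * (τ - b))
  rw [← e1, norm_mul] at h4
  linarith

theorem UPB_lim {h : ℝ} {D : Set ℂ} {Φ : ℂ → S3} {b : ℂ} {σ σ' : S3} (hp : 0 < h)
    (hb : b.im = h) (hD : strip h ⊆ D) (ht : Tendsto Φ (𝓝[strip h] b) (𝓝 σ))
    (hx : ∀ ε : ℝ, 0 < ε → ∃ δ : ℝ, 0 < δ ∧ Xp D Φ b σ' ε δ) : σ' = σ := by
  have := UPB_neBot hp hb
  refine tendsto_nhds_unique ?_ ht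
  rw [Metric.tendsto_nhdsWithin_nhds]
  intro ε hε
  obtain ⟨δ, hδ, hX⟩ := hx (ε / 2) (by linarith)
  have hw : 0 < ‖σ'.1 - σ'.2.1‖ + ε / 2 := by positivity
  refine ⟨min δ (ε / (‖σ'.1 - σ'.2.1‖ + ε / 2)), lt_min hδ (by positivity), fun τ hτ hd => ?_⟩
  rw [dist_eq_norm, lt_min_iff] at hd
  obtain ⟨h1, h2, -⟩ := hX τ (hD hτ) hd.1
  have h3 := UPB_normY hX (hD hτ) hd.1
  have h4 : (‖σ'.1 - σ'.2.1‖ + ε / 2) * ‖τ - b‖ < ε := by
    have := hd.2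
    rw [lt_div_iff₀ hw] at this
    linarith
  rw [Prod.dist_eq, Prod.dist_eq, max_lt_iff, max_lt_iff, dist_eq_norm, dist_eq_norm,
    dist_eq_norm]
  exact ⟨h1.trans_lt (by linarith), h2.trans_lt (by linarith), h3.trans_lt h4⟩

theorem UPB_shift {h T : ℝ} {Φ : ℂ → S3} {b : ℂ} {σ : S3}
    (hper : ∀ τ ∈ strip h, Φ (τ + T) = Φ τ) (ht : Tendsto Φ (𝓝[strip h] b) (𝓝 σ)) :
    Tendsto Φ (𝓝[strip h] (b + T)) (𝓝 σ) := by
  rw [Metric.tendsto_nhdsWithin_nhds] at ht ⊢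
  intro ε hε
  obtain ⟨δ, hδ, hX⟩ := ht ε hε
  refine ⟨δ, hδ, fun τ hτ hd => ?_⟩
  have h1 : τ - T ∈ strip h := by
    have : |τ.im| < h := hτ
    show |(τ - T).im| < h
    simpa using this
  have h2 := hper _ h1
  rw [sub_add_cancel] at h2
  rw [h2]
  refine hX h1 ?_
  rw [dist_eq_norm] at hd ⊢
  rwa [sub_sub, add_comm (T : ℂ) b]

theorem UPB_sep {S : Finset ℂ} {b : ℂ} {T c η r : ℝ} {m j : ℕ} (hT : 0 < T) (hc : 0 < c)
    (hc1 : c ≤ 1) (hr : 0 < r) (hη : 0 < η) (hηc : η ≤ c / 8)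
    (hq : |(2 * m + 1) * r - T| ≤ η * r)
    (hd : ∀ b' ∈ S, (∃ n : ℤ, (b'.re - b.re) / T = n) ∨
      ∀ n : ℤ, c ≤ |(2 * m + 1) * ((b'.re - b.re) / T) - n|)
    (hj1 : 1 ≤ j) (hj2 : j ≤ 4 * m + 1) (hj3 : j ≠ 2 * m + 1) :
    ∀ b' ∈ S, c * r / 2 ≤ ‖b + j * r - b'‖ := by
  intro b' hb'
  obtain ⟨l, hl⟩ : ∃ l : ℝ, l = (b'.re - b.re) / T := ⟨_, rfl⟩
  have hl' : b'.re - b.re = l * T := by rw [hl]; field_simp
  have h0 := hd b' hb'
  rw [← hl] at h0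
  have h1 : c ≤ |(2 * m + 1) * l - j| := by
    rcases h0 with ⟨n, hn⟩ | h0
    · have hne : (2 * (m : ℤ) + 1) * n - j ≠ 0 := by
        intro h
        have hj1' : (1 : ℤ) ≤ j := by exact_mod_cast hj1
        have hj2' : (j : ℤ) ≤ 4 * m + 1 := by exact_mod_cast hj2
        have hj3' : (j : ℤ) ≠ 2 * m + 1 := by exact_mod_cast hj3
        have hm : (0 : ℤ) ≤ m := Int.natCast_nonneg m
        rcases lt_trichotomy n 1 with h' | h' | h'
        · nlinarith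
        · rw [h'] at h
          exact hj3' (by linarith)
        · nlinarith
      have h2 : (1 : ℤ) ≤ |(2 * (m : ℤ) + 1) * n - j| := Int.one_le_abs hne
      have h3 : (1 : ℝ) ≤ |(2 * (m : ℝ) + 1) * n - j| := by exact_mod_cast h2
      rw [hn]
      linarith
    · exact_mod_cast h0 j
  have hre : (b + j * r - b').re = j * r - l * T := by
    rw [← hl']
    simp
    ring
  refine le_trans ?_ (Complex.abs_re_le_norm _)
  rw [hre]
  have hm : (0 : ℝ) ≤ m := Nat.cast_nonneg m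
  have hjr : (j : ℝ) ≤ 4 * m + 1 := by exact_mod_cast hj2
  have hj0 : (0 : ℝ) ≤ j := Nat.cast_nonneg j
  have hqp : (0 : ℝ) < 2 * m + 1 := by linarith
  have e1 : T * ((2 * m + 1) * l - j) =
      j * ((2 * m + 1) * r - T) - (2 * m + 1) * (j * r - l * T) := by ring
  have h4 : T * c ≤ j * (η * r) + (2 * m + 1) * |j * r - l * T| := by
    calc T * c ≤ T * |(2 * m + 1) * l - j| := mul_le_mul_of_nonneg_left h1 hT.le
      _ = |T * ((2 * m + 1) * l - j)| := by rw [abs_mul, abs_of_pos hT]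
      _ ≤ |j * ((2 * m + 1) * r - T)| + |(2 * m + 1) * (j * r - l * T)| := by
        rw [e1]; exact abs_sub _ _
      _ = j * |(2 * m + 1) * r - T| + (2 * m + 1) * |j * r - l * T| := by
        rw [abs_mul, abs_mul, abs_of_nonneg hj0, abs_of_pos hqp]
      _ ≤ _ := by gcongr
  have h5 : (2 * m + 1) * r - η * r ≤ T := by
    have := (abs_le.1 hq).2
    linarith
  have hcr : 0 < c * r := mul_pos hc hr
  have h6 : η * r ≤ c * r / 8 := by nlinarith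
  have h7 : ((2 * m + 1) * r - η * r) * c ≤ T * c := mul_le_mul_of_nonneg_right h5 hc.le
  have h8 : j * (η * r) ≤ (4 * m + 2) * (c * r / 8) :=
    mul_le_mul (by linarith) h6 (by positivity) (by linarith)
  have h9 : η * r * c ≤ (2 * m + 1) * (c * r / 8) := by
    have : η * r * c ≤ c * r / 8 := by nlinarith
    nlinarith
  refine le_of_mul_le_mul_left ?_ hqp
  nlinarith

theorem UPB_adm {S : Finset ℂ} {b z : ℂ} {h R κ T c η ν r : ℝ} {m j : ℕ} (hp : 0 < h)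
    (hb : b.im = h) (hR : ‖b‖ + h + 2 * T + 3 ≤ R) (hκ : 0 < κ) (hκ1 : κ ≤ 1) (hc : 0 < c)
    (hc1 : c ≤ 1) (hν : ν = κ * c / 100) (hr : 0 < r) (hr1 : r ≤ 1) (hrh : r ≤ h) (hη1 : η ≤ 1 / 4)
    (hq : |(2 * m + 1) * r - T| ≤ η * r) (hj2 : j ≤ 4 * m + 1)
    (hs : ∀ b' ∈ S, c * r / 2 ≤ ‖b + j * r - b'‖) (hz : ‖z - (b + j * r)‖ ≤ 3 * ν * r) :
    Adm h R κ S z (c * r / 4) := by
  have hcr : 0 < c * r := mul_pos hc hr
  have hcr1 : c * r ≤ r := by nlinarith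
  have hn : 3 * ν * r = 3 / 100 * (κ * (c * r)) := by rw [hν]; ring
  have hk : κ * (c * r) ≤ c * r := by nlinarith
  have hk0 : 0 < κ * (c * r) := mul_pos hκ hcr
  have him : |z.im - h| ≤ 3 * ν * r := by
    refine le_trans (le_of_eq ?_) ((Complex.abs_im_le_norm _).trans hz)
    simp [hb]
  have him' := abs_le.1 him
  have hjr : (j : ℝ) ≤ 4 * m + 1 := by exact_mod_cast hj2
  refine ⟨?_, by linarith, by linarith, by linarith, by linarith, fun b' hb' => ?_⟩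
  · have h1 : ‖z‖ ≤ ‖z - (b + j * r)‖ + ‖b + j * r‖ := norm_le_norm_sub_add _ _
    have h2 : ‖b + j * r‖ ≤ ‖b‖ + j * r := by
      refine (norm_add_le _ _).trans (le_of_eq ?_)
      rw [norm_mul, Complex.norm_natCast, Complex.norm_real, Real.norm_eq_abs, abs_of_pos hr]
    have h3 := (abs_le.1 hq).2
    have h4 : (j : ℝ) * r ≤ (4 * m + 2) * r := mul_le_mul_of_nonneg_right (by linarith) hr.le
    have h5 : η * r ≤ 1 / 4 := by nlinarith
    nlinarith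
  · have h1 := hs b' hb'
    have h2 : ‖b + j * r - b'‖ ≤ ‖z - (b + j * r)‖ + ‖z - b'‖ := by
      have e : b + j * r - b' = -(z - (b + j * r)) + (z - b') := by ring
      rw [e]
      refine (norm_add_le _ _).trans (le_of_eq ?_)
      rw [norm_neg]
    linarith

theorem UPB_ext {h ρ ρ' s : ℝ} {Φ Ψ : ℂ → S3} {b τ1 : ℂ} (hΦ : DifferentiableOn ℂ Φ (strip h))
    (hΨ : DifferentiableOn ℂ Ψ (ball τ1 ρ')) (hρ : 0 < ρ) (h1 : τ1 ∈ strip h)
    (hs : ‖b - τ1‖ ≤ s) (hs' : s < ρ')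
    (he : ∀ τ ∈ ball τ1 ρ, τ ∈ ball τ1 ρ' → Ψ τ = Φ τ) : Ext (strip h) Φ b := by
  have hρ' : 0 < ρ' := (norm_nonneg _).trans_lt (hs.trans_lt hs')
  have hsub : ball b (ρ' - s) ⊆ ball τ1 ρ' := by
    refine ball_subset_ball' ?_
    rw [dist_eq_norm]
    linarith
  have hV : IsOpen (ball τ1 ρ' ∩ strip h) := isOpen_ball.inter (UPB_open h)
  have hE : EqOn Ψ Φ (ball τ1 ρ' ∩ strip h) := by
    refine AnalyticOnNhd.eqOn_of_preconnected_of_eventuallyEq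
      ((hΨ.mono inter_subset_left).analyticOnNhd hV)
      ((hΦ.mono inter_subset_right).analyticOnNhd hV)
      ((convex_ball τ1 ρ').inter (UPB_convex h)).isPreconnected
      (z₀ := τ1) ⟨mem_ball_self hρ', h1⟩ ?_
    filter_upwards [ball_mem_nhds τ1 hρ, ball_mem_nhds τ1 hρ'] with τ a1 a2 using he τ a1 a2
  exact ⟨ρ' - s, by linarith, Ψ, hΨ.mono hsub, fun τ hτ => hE ⟨hsub hτ.1, hτ.2⟩⟩

theorem st_UPB (hCTX : St_CTX) (hLOW : St_LOW) (hDIR : St_DIR) (hUPA : St_UPA) (hCLS : St_CLS)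
    (hS0 : St_SOLVE0) : St_UPB := by
  intro d h R κ T S D Φ b σ hS hP hD hH hb hR hb0 hb1 hb2 ht hO hpx
  have hp := hS.hp
  have hκ := hS.kp
  have hκ1 := hS.k1
  have hT := hP.Tp
  have ht1 := UPB_shift hP.per ht
  have ht2 : Tendsto Φ (𝓝[strip h] (b + 2 * T)) (𝓝 σ) := by
    have := UPB_shift hP.per ht1
    rwa [add_assoc, ← two_mul] at this
  obtain ⟨σ0, hw, hx0⟩ := hS.xp b hb0
  obtain ⟨σ1, -, hx1⟩ := hS.xp _ hb1
  obtain ⟨σ2, -, hx2⟩ := hS.xp _ hb2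
  obtain rfl : σ = σ0 := (UPB_lim hp hb hD ht hx0).symm
  obtain rfl : σ = σ1 := (UPB_lim hp (by simp [hb]) hD ht1 hx1).symm
  obtain rfl : σ = σ2 := (UPB_lim hp (by simp [hb]) hD ht2 hx2).symm
  obtain ⟨W, hW⟩ : ∃ W : ℝ, W = ‖σ.1 - σ.2.1‖ := ⟨_, rfl⟩
  have hW0 : 0 < W := by rw [hW]; exact norm_pos_iff.2 (sub_ne_zero.2 hw)
  have hWle : W ≤ ‖σ.1‖ + ‖σ.2.1‖ := by rw [hW]; exact norm_sub_le _ _
  obtain ⟨c, hc, hc1, hdir⟩ := hDIR (S.image fun b' => (b'.re - b.re) / T)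
  obtain ⟨ν, hν⟩ : ∃ ν : ℝ, ν = κ * c / 100 := ⟨_, rfl⟩
  have hκc : κ * c ≤ c := by nlinarith
  have hν0 : 0 < ν := by rw [hν]; positivity
  have hνc : ν ≤ c / 100 := by rw [hν]; linarith
  obtain ⟨ε, hε⟩ : ∃ ε : ℝ, ε = ν / 2000 := ⟨_, rfl⟩
  have hε0 : 0 < ε := by rw [hε]; positivity
  obtain ⟨η, hη⟩ : ∃ η : ℝ, η = κ * ε / 4 := ⟨_, rfl⟩
  have hη0 : 0 < η := by rw [hη]; positivity
  have hηε : η ≤ ε / 4 := by rw [hη]; nlinarith
  have hη1 : η ≤ 1 / 4 := by linarith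
  have hder : HasDerivAt (fun s => d.p (s, σ.2.2)) (d.px (σ.1, σ.2.2)) σ.1 := by
    have := d.dp (hasDerivAt_id' σ.1) (hasDerivAt_const σ.1 σ.2.2)
    simpa using this
  obtain ⟨e, δ, he0, he1, hδ, ξ, hξ, hξ'⟩ := hS0 ℂ d.p σ.1 _ σ.2.2 d.cp.contDiffAt hO.1 hder hpx
    (η * W / 100) (by positivity)
  obtain ⟨δ0, hδ0, hX0⟩ := hx0 (e / 2) (by linarith)
  obtain ⟨δ1, hδ1, hX1⟩ := hx1 (e / 2) (by linarith)
  obtain ⟨δ2, hδ2, hX2⟩ := hx2 (e / 2) (by linarith)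
  obtain ⟨r1, hr1, hC⟩ := hCTX d h R κ S D Φ hS (T + 1) ε η hε0 hη0 hη.le hη1
  obtain ⟨N, hN⟩ : ∃ N : ℝ, N = ‖σ.1‖ + ‖σ.2.1‖ + e := ⟨_, rfl⟩
  have hN0 : 0 < N := by rw [hN]; positivity
  obtain ⟨r0, hr0, a1, a2, a3, a4, a5, a6, a7⟩ : ∃ r0 : ℝ, 0 < r0 ∧ r0 ≤ r1 ∧ r0 ≤ 1 ∧ r0 ≤ h ∧
      r0 ≤ δ0 / 5 ∧ r0 ≤ δ1 / 5 ∧ r0 ≤ δ2 / 5 ∧ r0 ≤ δ / (100 * N) := by
    refine ⟨min (min (min r1 1) (min h (δ0 / 5))) (min (min (δ1 / 5) (δ2 / 5)) (δ / (100 * N))),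
      by positivity, ?_, ?_, ?_, ?_, ?_, ?_, ?_⟩ <;> simp
  obtain ⟨q0, hq0⟩ := hLOW d h R κ T S D Φ b.re ε η r0 hS hP hD hH
    (by linarith [Complex.abs_re_le_norm b]) hε0 hη0 hηε hη1 hr0
    fun r h1 h2 => hC r h1 (h2.trans_le a1)
  obtain ⟨m, hm, hdm⟩ := hdir (q0 + 2)
  obtain ⟨r, hr, hrr, hq, hlow⟩ := hq0 (2 * m + 1) (by omega)
  have hq' : |(2 * m + 1) * r - T| ≤ η * r := by exact_mod_cast hq
  have hrδ : 100 * r * N < δ := by
    have := hrr.trans_le a7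
    rw [lt_div_iff₀ (by positivity)] at this
    linarith
  have hadm : ∀ j : ℕ, 1 ≤ j → j ≤ 4 * m + 1 → j ≠ 2 * m + 1 → ∀ z : ℂ,
      ‖z - (b + j * r)‖ ≤ 3 * ν * r → Adm h R κ S z (c * r / 4) := by
    intro j j1 j2 j3 z hz
    exact UPB_adm hp hb hR hκ hκ1 hc hc1 hν hr (by linarith) (by linarith) hη1 hq' j2
      (UPB_sep hT hc hc1 hr hη0 (by linarith) hq'
        (fun b' hb' => hdm _ (Finset.mem_image_of_mem _ hb')) j1 j2 j3) hz
  have hball : ∀ j : ℕ, 1 ≤ j → j ≤ 4 * m + 1 → j ≠ 2 * m + 1 →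
      ball (b + j * r) (8 * ν * r) ⊆ D := by
    intro j j1 j2 j3
    refine (ball_subset_ball ?_).trans (hS.adm _ _ (hadm j j1 j2 j3 _ ?_))
    · have : 0 < κ * c * r := by positivity
      rw [hν]
      nlinarith
    · rw [sub_self, norm_zero]
      positivity
  have hAξ : ∀ (b' : ℂ) (δ' : ℝ), Xp D Φ b' σ (e / 2) δ' → 5 * r ≤ δ' → ∀ τ ∈ D,
      ‖τ - b'‖ < 5 * r → fA Φ τ = ξ (fY Φ τ) := by
    intro b' δ' hX h5 τ hτ hl
    have h1 := (hX τ hτ (hl.trans_le h5)).1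
    have h2 := UPB_normY hX hτ (hl.trans_le h5)
    have h3 : fY Φ τ ∈ ball σ.2.2 δ := by
      rw [mem_ball, dist_eq_norm]
      have h4 : (‖σ.1 - σ.2.1‖ + e / 2) * ‖τ - b'‖ ≤ N * (5 * r) :=
        mul_le_mul (by linarith) hl.le (norm_nonneg _) hN0.le
      have h5 : 0 < r * N := mul_pos hr hN0
      linarith
    have h4 := (hξ' _ h3).2.2 (fA Φ τ) (by rw [mem_ball, dist_eq_norm]; linarith)
    rw [hS.sol.pA τ hτ, norm_zero, mul_zero] at h4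
    have h6 : ‖ξ (fY Φ τ) - fA Φ τ‖ ≤ 0 :=
      le_of_mul_le_mul_left (by simpa using h4) (norm_pos_iff.2 hpx)
    exact (sub_eq_zero.1 (norm_le_zero_iff.1 h6)).symm
  have hξe : ∀ y ∈ ball σ.2.2 δ, ‖ξ y - σ.1‖ ≤ e := fun y hy => by
    have := (hξ' y hy).1
    rw [mem_ball, dist_eq_norm] at this
    exact this.le
  obtain ⟨Ψ, hΨ, hΨe, hΨc⟩ := hUPA d h R κ T S D Φ b σ ξ ε η ν r δ e m hS
    (hC r hr (hrr.trans_le a1)) hw hη0 hr (by linarith) (by omega) (by linarith) (by linarith)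
    he0.le (by rw [← hW]; linarith) hq'
    (fun j j1 j2 j3 z hz => ⟨by positivity, c * r / 4, by nlinarith, hadm j j1 j2 j3 z hz⟩)
    (by simpa using hball 1 le_rfl (by omega) (by omega))
    (by exact_mod_cast hball (2 * m + 2) (by omega) (by omega) (by omega))
    (UPB_mono hX0 (by linarith) (by linarith)) (UPB_mono hX1 (by linarith) (by linarith))
    (UPB_mono hX2 (by linarith) (by linarith)) hξ hξe (by rw [← hN]; exact hrδ)
    (hAξ _ _ hX1 (by linarith))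
  rw [← hW] at hΨ hΨe
  obtain ⟨τ1, hτ1⟩ : ∃ τ1 : ℂ, τ1 = b - (3 * ε * r : ℝ) * Complex.I := ⟨_, rfl⟩
  have hεr : 0 < ε * r := mul_pos hε0 hr
  have hηr : 0 < η * r := mul_pos hη0 hr
  have hηεr : η * r ≤ ε * r / 4 := by nlinarith
  have hεν : ν * r = 2000 * (ε * r) := by rw [hε]; ring
  have hνr : ν * r ≤ r / 100 := by nlinarith
  have hbτ : ‖b - τ1‖ = 3 * (ε * r) := by
    rw [hτ1, sub_sub_cancel, norm_mul, Complex.norm_I, Complex.norm_real, Real.norm_eq_abs,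
      abs_of_pos (by positivity)]
    ring
  have hre : τ1.re = b.re := by rw [hτ1]; simp
  have him : τ1.im = h - 3 * (ε * r) := by
    rw [hτ1, Complex.sub_im, Complex.mul_im, Complex.ofReal_re, Complex.ofReal_im, Complex.I_im,
      Complex.I_re, hb]
    ring
  have hO1 : ∀ τ ∈ ball τ1 (η * r), |τ.re - b.re| < η * r ∧ 0 < τ.im ∧ τ.im < h - 2 * ε * r ∧
      ‖τ - b‖ ≤ 4 * (ε * r) := by
    intro τ hτ
    rw [mem_ball, dist_eq_norm] at hτ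
    have h1 := (Complex.abs_re_le_norm _).trans_lt hτ
    have h2 := abs_lt.1 ((Complex.abs_im_le_norm _).trans_lt hτ)
    rw [Complex.sub_re, hre] at h1
    rw [Complex.sub_im, him] at h2
    have h3 : ‖τ - b‖ ≤ ‖τ - τ1‖ + ‖τ1 - b‖ := norm_sub_le_norm_sub_add_norm_sub _ _ _
    rw [norm_sub_rev τ1 b, hbτ] at h3
    exact ⟨h1, by linarith, by linarith, by linarith⟩
  have hO2 : ∀ τ ∈ ball τ1 (η * r), τ ∈ strip h := by
    intro τ hτ
    obtain ⟨-, h2, h3, -⟩ := hO1 τ hτ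
    show |τ.im| < h
    rw [abs_of_pos h2]
    linarith
  have hWr : 0 < W * (ε * r) := mul_pos hW0 hεr
  have hγ : W * ν * r / 2 = 1000 * (W * (ε * r)) := by rw [hε]; ring
  have heW : e ≤ W / 400 := by nlinarith
  have hWη : η * r * W ≤ W * (ε * r) / 4 := by nlinarith
  have hWε : W * (ε * r) ≤ r * W / 200000 := by nlinarith
  have hγδ : W * ν * r / 2 ≤ δ := by
    have h1 : r * W ≤ r * N := mul_le_mul_of_nonneg_left (by linarith) hr.le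
    have h2 : 0 < r * N := mul_pos hr hN0
    linarith
  obtain ⟨Ω, hΩ, hΩe⟩ := hCLS (fA Φ) (fB Φ) (fY Φ) ξ Ψ τ1 σ.2.2 σ.1 σ.2.1 r (η * r)
    (W * ν * r / 2) (20 * η * r * W) hr hηr (by positivity) hw
    (fun τ hτ => by
      obtain ⟨h1, h2, h3, h4⟩ := hO1 τ hτ
      have hτD := hD (hO2 τ hτ)
      have h5 : ‖τ - b‖ < 5 * r := by linarith
      have h6 : ‖τ - b‖ < δ0 := by linarith
      obtain ⟨h7, h8⟩ := hlow τ h1 (by linarith) h3
      refine ⟨hS.sol.dY τ hτD, hAξ _ _ hX0 (by linarith) τ hτD h5, ?_, ?_,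
        hΨc τ (by linarith) h7 h8⟩
      · have h9 := UPB_normY hX0 hτD h6
        rw [← hW] at h9
        have h10 : (W + e / 2) * ‖τ - b‖ ≤ (2 * W) * (4 * (ε * r)) :=
          mul_le_mul (by linarith) h4 (norm_nonneg _) (by linarith)
        linarith
      · have h9 := (hX0 τ hτD h6).2.1
        have h10 : r * ‖fB Φ τ - σ.2.1‖ ≤ r * (η * W / 100) :=
          mul_le_mul_of_nonneg_left (by linarith) hr.le
        linarith)
    (hξ.mono (ball_subset_ball hγδ))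
    (fun y hy => (hξe y (ball_subset_ball hγδ hy)).trans (by rw [← hW]; linarith))
    hΨ hΨe (by linarith) (by rw [← hW]; linarith)
  rw [← hW] at hΩ hΩe
  refine UPB_ext hP.sol.df hΩ hηr (hO2 _ (mem_ball_self hηr)) hbτ.le ?_ hΩe
  rw [lt_div_iff₀ (by positivity)]
  linarith

end Pool.Agent.AO
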