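import Pool.Agent.Lib.AO.Blue

set_option autoImplicit false

noncomputable section

namespace Pool.Agent.AO

open Set Metric Filter Topology ComplexConjugate

theorem low_tube {h R κ T x0 ε η r : ℝ} {S : Finset ℂ} {τ : ℂ} {q : ℕ} (hκ : 0 < κ)
    (him : ∀ b ∈ S, |b.im| = h) (hR : |x0| + h + 2 * T + 3 ≤ R) (hε : 0 < ε) (hη : 0 < η)
    (hηε : η ≤ ε / 4) (hη4 : η ≤ 1 / 4) (hr : 0 < r) (_hr1 : r ≤ 1) (hre : ε * r ≤ 1)
    (hrh : 4 * (ε * r) ≤ h) (hq : q * r ≤ T + η * r) (h1 : |τ.re - x0| < η * r)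
    (h2 : -(η * r) < τ.im) (h3 : τ.im < h - 2 * ε * r) : Tube h R κ S ε η r τ (2 * q) := by
  intro j hj z hz
  have her : 0 < ε * r := mul_pos hε hr
  have hηr : 0 < η * r := mul_pos hη hr
  have hηer : η * r ≤ ε * r / 4 := by nlinarith
  have hη1 : η * r ≤ 1 / 4 := by nlinarith
  have hjr : (j : ℝ) * r ≤ 2 * (q * r) := by
    have : (j : ℝ) ≤ 2 * q := by exact_mod_cast hj
    nlinarith
  have hj0 : 0 ≤ (j : ℝ) * r := by positivity
  have hre' : |z.re - (τ.re + j * r)| ≤ 2 * η * r := by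
    have := (Complex.abs_re_le_norm (z - (τ + j * r))).trans hz
    simpa using this
  have him' : |z.im - τ.im| ≤ 2 * η * r := by
    have := (Complex.abs_im_le_norm (z - (τ + j * r))).trans hz
    simpa using this
  obtain ⟨a1, a2⟩ := abs_le.1 hre'
  obtain ⟨b1, b2⟩ := abs_le.1 him'
  obtain ⟨c1, c2⟩ := abs_lt.1 h1
  have e1 := le_abs_self x0
  have e2 := neg_abs_le x0
  refine ⟨her, ε * r, le_rfl, ?_, by linarith, ?_, her, hre, fun b hb => ?_⟩
  · have n1 := Complex.norm_le_abs_re_add_abs_im z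
    have n2 : |z.re| ≤ |x0| + 2 * T + 2 := abs_le.2 ⟨by linarith, by linarith⟩
    have n3 : |z.im| ≤ h + 1 := abs_le.2 ⟨by linarith, by linarith⟩
    linarith
  · have : 0 < κ * (ε * r) := mul_pos hκ her
    linarith
  · have n1 := Complex.abs_im_le_norm (z - b)
    rw [Complex.sub_im] at n1
    have n2 := le_abs_self (z.im - b.im)
    have n3 := neg_abs_le (z.im - b.im)
    rcases abs_eq (by linarith : (0 : ℝ) ≤ h) |>.1 (him b hb) with e | e
    · linarith
    · linarith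

theorem low_rel_conj {d : Dat} {h T : ℝ} {Φ : ℂ → S3} (hP : PSol d (strip h) T Φ) {τ μ : ℂ}
    {r : ℂ} (hr : conj r = r) (hτ : τ ∈ strip h) (hμ : μ ∈ strip h) (hR : Rel d Φ τ μ r) :
    Rel d Φ (conj τ) (conj μ) r := by
  obtain ⟨h1, h2⟩ := hR
  have a := hP.cnj τ hτ
  have b := hP.cnj μ hμ
  simp only [Rel, fA, fB, fY, a, b, cj] at h1 h2 ⊢
  refine ⟨?_, fun e => ?_⟩
  · have := congrArg conj h1
    simpa [hr] using this
  · have e' : (Φ μ).1 = (Φ τ).2.1 := by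
      have := congrArg conj e
      simpa using this
    have := congrArg conj (h2 e')
    rw [d.jpx, d.jpy]
    simpa [hr] using this

theorem low_step {d : Dat} {h R κ T L ε η r : ℝ} {S : Finset ℂ} {Φ : ℂ → S3}
    (hP : PSol d (strip h) T Φ) (hC : Ctx d h R κ S Φ L ε η r) (hηr : 0 < η * r)
    (hh : η * r < h) {τ : ℂ} (hτ : τ.im = 0)
    (a1 : Adk h R κ S τ (ε * r)) (a2 : Adk h R κ S (τ + r) (ε * r))
    (a3 : ∀ z : ℂ, ‖z - τ - r‖ ≤ η * r / 2 →
      Adk h R κ S z (ε * r) ∧ Adk h R κ S (z + r) (ε * r)) :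
    (th d Φ η (τ, r)).im = 0 ∧ (dbl d Φ η r τ).im = 0 ∧ Rel d Φ τ (th d Φ η (τ, r)) r ∧
      Rel d Φ (dbl d Φ η r τ) (th d Φ η (τ, r)) (-r) := by
  have s1 := (hC.one τ a1 a2).1
  have key : ∀ x y : ℂ, x.im = 0 → ‖y - x - r‖ ≤ η * r / 2 →
      x ∈ strip h ∧ y ∈ strip h ∧ conj x = x ∧ conj y ∈ ball (x + r) (η * r) := by
    intro x y hx hy
    have cx : conj x = x := Complex.conj_eq_iff_im.2 hx
    refine ⟨?_, ?_, cx, ?_⟩
    · show |x.im| < h
      rw [hx, abs_zero]; linarith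
    · show |y.im| < h
      have := (Complex.abs_im_le_norm (y - x - r)).trans hy
      simp only [Complex.sub_im, hx, Complex.ofReal_im, sub_zero] at this
      linarith
    · rw [mem_ball, dist_eq_norm]
      have : conj y - (x + r) = conj (y - x - r) := by
        simp only [map_sub, cx, Complex.conj_ofReal]; ring
      rw [this, Complex.norm_conj]
      linarith
  obtain ⟨k1, k2, k3, k4⟩ := key τ _ hτ s1.est
  have m1 : (th d Φ η (τ, r)).im = 0 := by
    have := low_rel_conj hP (Complex.conj_ofReal r) k1 k2 s1.rel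
    rw [k3] at this
    exact Complex.conj_eq_iff_im.1 (s1.uni _ k4 this)
  obtain ⟨b1, b2⟩ := a3 _ s1.est
  have s2 := (hC.one _ b1 b2).2
  obtain ⟨l1, l2, l3, l4⟩ := key _ _ m1 s2.est
  have r2 : Rel d Φ (dbl d Φ η r τ) (th d Φ η (τ, r)) (-r) := (rel_flip d Φ _ _ _).1 s2.rel
  refine ⟨m1, ?_, s1.rel, r2⟩
  have := low_rel_conj hP (r := -(r : ℂ)) (by simp) l2 l1 r2
  rw [l3] at this
  exact Complex.conj_eq_iff_im.1 (s2.uni _ l4 ((rel_flip d Φ _ _ _).2 this))

theorem low_chain {d : Dat} {h R κ T L ε η r : ℝ} {S : Finset ℂ} {Φ : ℂ → S3}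
    (hP : PSol d (strip h) T Φ) (hC : Ctx d h R κ S Φ L ε η r) (hηr : 0 < η * r)
    (hh : η * r < h) {t : ℝ} {q : ℕ} (hq : q * r ≤ L) (hT : Tube h R κ S ε η r t (2 * q)) :
    ((dbl d Φ η r)^[q] t).im = 0 ∧ Chain d Φ r q t ((dbl d Φ η r)^[q] t).re := by
  have orb := hC.orb t q hq hT
  have st : ∀ k < q, ((dbl d Φ η r)^[k] t).im = 0 →
      (th d Φ η ((dbl d Φ η r)^[k] t, r)).im = 0 ∧ ((dbl d Φ η r)^[k + 1] t).im = 0 ∧
      Rel d Φ ((dbl d Φ η r)^[k] t) (th d Φ η ((dbl d Φ η r)^[k] t, r)) r ∧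
      Rel d Φ ((dbl d Φ η r)^[k + 1] t) (th d Φ η ((dbl d Φ η r)^[k] t, r)) (-r) := by
    intro k hk hk0
    rw [Function.iterate_succ_apply']
    have o := orb k hk.le
    generalize (dbl d Φ η r)^[k] t = x at hk0 o ⊢
    refine low_step hP hC hηr hh hk0 ?_ ?_ fun z hz => ?_
    · refine hT (2 * k) (by omega) x ?_
      push_cast
      linarith
    · refine hT (2 * k + 1) (by omega) _ ?_
      have : x + r - (t + ((2 * k + 1 : ℕ) : ℂ) * r) = x - (t + 2 * k * r) := by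
        push_cast; ring
      rw [this]; linarith
    · have n : ‖z - x - r + (x - (t + 2 * k * r))‖ ≤ 2 * η * r :=
        (norm_add_le _ _).trans (by linarith)
      constructor
      · refine hT (2 * k + 1) (by omega) _ ?_
        have : z - (t + ((2 * k + 1 : ℕ) : ℂ) * r) = z - x - r + (x - (t + 2 * k * r)) := by
          push_cast; ring
        rw [this]; exact n
      · refine hT (2 * k + 2) (by omega) _ ?_
        have : z + r - (t + ((2 * k + 2 : ℕ) : ℂ) * r) = z - x - r + (x - (t + 2 * k * r)) := by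
          push_cast; ring
        rw [this]; exact n
  have re : ∀ k ≤ q, ((dbl d Φ η r)^[k] t).im = 0 := by
    intro k
    induction k with
    | zero => intro _; simp
    | succ k ih => intro hk; exact (st k hk (ih (by omega))).2.1
  have cast : ∀ x : ℂ, x.im = 0 → ((x.re : ℝ) : ℂ) = x := fun x hx =>
    Complex.ext (by simp) (by simp [hx])
  refine ⟨re q le_rfl, fun k => ((dbl d Φ η r)^[k] t).re,
    fun k => (th d Φ η ((dbl d Φ η r)^[k] t, r)).re, by simp, rfl, fun k hk => ?_⟩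
  obtain ⟨u1, u2, u3, u4⟩ := st k hk (re k hk.le)
  beta_reduce
  rw [cast _ u1, cast _ u2, cast _ (re k hk.le)]
  exact ⟨u3, u4⟩

theorem low_memD {d : Dat} {h R κ a : ℝ} {S : Finset ℂ} {D : Set ℂ} {Φ : ℂ → S3}
    (hS : Sec d h R κ S D Φ) {z : ℂ} (hz : Adk h R κ S z a) : DifferentiableAt ℂ Φ z := by
  obtain ⟨-, e, -, he⟩ := hz
  have : z ∈ D := hS.adm z e he (mem_ball_self (mul_pos hS.kp he.2.2.2.1))
  exact hS.sol.df.differentiableAt (hS.sol.op.mem_nhds this)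

theorem low_ident {F G : ℂ → ℂ × ℂ} {x0 a b : ℝ} (ha : 0 < a) (hb : 0 < b)
    (hF : ∀ τ : ℂ, |τ.re - x0| < a → -a < τ.im → τ.im < b →
      DifferentiableAt ℂ F τ ∧ DifferentiableAt ℂ G τ)
    (hE : ∀ t : ℝ, |t - x0| < a → F t = G t) :
    ∀ τ : ℂ, |τ.re - x0| < a → -a < τ.im → τ.im < b → F τ = G τ := by
  let Q : Set ℂ := ({τ | x0 - a < τ.re} ∩ {τ | τ.re < x0 + a}) ∩ ({τ | -a < τ.im} ∩ {τ | τ.im < b})
  have mem : ∀ τ : ℂ, τ ∈ Q ↔ |τ.re - x0| < a ∧ -a < τ.im ∧ τ.im < b := by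
    intro τ
    simp only [Q, mem_inter_iff, mem_ofPred_eq, abs_lt]
    constructor
    · rintro ⟨⟨h1, h2⟩, h3, h4⟩
      exact ⟨⟨by linarith, by linarith⟩, h3, h4⟩
    · rintro ⟨⟨h1, h2⟩, h3, h4⟩
      exact ⟨⟨by linarith, by linarith⟩, h3, h4⟩
  have op : IsOpen Q :=
    ((isOpen_lt continuous_const Complex.continuous_re).inter
      (isOpen_lt Complex.continuous_re continuous_const)).inter
    ((isOpen_lt continuous_const Complex.continuous_im).inter
      (isOpen_lt Complex.continuous_im continuous_const))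
  have cv : Convex ℝ Q :=
    ((convex_halfSpace_re_gt _).inter (convex_halfSpace_re_lt _)).inter
      ((convex_halfSpace_im_gt _).inter (convex_halfSpace_im_lt _))
  have aF : AnalyticOnNhd ℂ F Q := DifferentiableOn.analyticOnNhd (fun τ hτ =>
    (hF τ ((mem τ).1 hτ).1 ((mem τ).1 hτ).2.1 ((mem τ).1 hτ).2.2).1.differentiableWithinAt) op
  have aG : AnalyticOnNhd ℂ G Q := DifferentiableOn.analyticOnNhd (fun τ hτ =>
    (hF τ ((mem τ).1 hτ).1 ((mem τ).1 hτ).2.1 ((mem τ).1 hτ).2.2).2.differentiableWithinAt) op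
  have x0Q : (x0 : ℂ) ∈ Q := (mem _).2 ⟨by simpa using ha, by simpa using ha, by simpa using hb⟩
  have td : Tendsto (fun t : ℝ => (t : ℂ)) (𝓝[≠] x0) (𝓝[≠] (x0 : ℂ)) := by
    refine tendsto_nhdsWithin_iff.2 ⟨?_, ?_⟩
    · exact (Complex.continuous_ofReal.tendsto x0).mono_left nhdsWithin_le_nhds
    · filter_upwards [self_mem_nhdsWithin] with t ht
      simpa using ht
  have ev : ∀ᶠ t : ℝ in 𝓝[≠] x0, F t = G t := by
    have : ball x0 a ∈ 𝓝 x0 := ball_mem_nhds _ ha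
    filter_upwards [mem_nhdsWithin_of_mem_nhds this] with t ht
    exact hE t (by simpa [Real.dist_eq] using ht)
  have fr : ∃ᶠ z in 𝓝[≠] (x0 : ℂ), F z = G z := td.frequently ev.frequently
  have := aF.eqOn_of_preconnected_of_frequently_eq aG cv.isPreconnected x0Q fr
  exact fun τ h1 h2 h3 => this ((mem τ).2 ⟨h1, h2, h3⟩)

theorem st_LOW : St_LOW := by
  intro d h R κ T S D Φ x0 ε η r0 hS hP _ hH hR hε hη hηε hη4 hr0 hC
  obtain ⟨δ, hδ, hH⟩ := hH
  have hh := hS.hp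
  have hT := hP.Tp
  obtain ⟨ρ, hρ, ρ1, ρ2, ρ3, ρ4, ρ5⟩ : ∃ ρ : ℝ, 0 < ρ ∧ ρ ≤ r0 ∧ ρ ≤ δ ∧ ρ ≤ 1 ∧ ρ ≤ 1 / ε ∧
      ρ ≤ h / (4 * ε) :=
    ⟨min r0 (min δ (min 1 (min (1 / ε) (h / (4 * ε))))), by positivity, min_le_left _ _,
      (min_le_right _ _).trans (min_le_left _ _),
      (min_le_right _ _).trans ((min_le_right _ _).trans (min_le_left _ _)),
      (min_le_right _ _).trans ((min_le_right _ _).trans ((min_le_right _ _).trans
        (min_le_left _ _))),
      (min_le_right _ _).trans ((min_le_right _ _).trans ((min_le_right _ _).trans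
        (min_le_right _ _)))⟩
  obtain ⟨q0, hq0⟩ := exists_nat_gt (T / ρ + 1)
  refine ⟨q0, fun q hq => ?_⟩
  have hq' : T / ρ + 1 < q := hq0.trans_le (by exact_mod_cast hq)
  have hTρ : 0 < T / ρ := by positivity
  have qm : 0 < (q : ℝ) - η := by linarith
  have qp : 0 < (q : ℝ) + η := by linarith
  have i12 : T / (q + η) ≤ T / (q - η) := div_le_div_of_nonneg_left hT.le qm (by linarith)
  have facts : ∀ r ∈ Icc (T / (q + η)) (T / (q - η)), 0 < r ∧ r < ρ ∧ T ≤ q * r + η * r ∧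
      q * r ≤ T + η * r := by
    intro r hr
    have a1 : T ≤ r * (q + η) := (div_le_iff₀ qp).1 hr.1
    have a2 : r * (q - η) ≤ T := (le_div_iff₀ qm).1 hr.2
    have a3 : 0 < r := lt_of_lt_of_le (by positivity) hr.1
    have a4 : T < (q - η) * ρ := (div_lt_iff₀ hρ).1 (by linarith)
    refine ⟨a3, ?_, by linarith, by linarith⟩
    by_contra hc
    push Not at hc
    nlinarith
  have small : ∀ r : ℝ, 0 < r → r < ρ → r ≤ 1 ∧ ε * r ≤ 1 ∧ 4 * (ε * r) ≤ h ∧ η * r ≤ 1 ∧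
      η * r < h ∧ 0 < h - 2 * ε * r := by
    intro r a b
    have c1 : r * ε ≤ 1 := (le_div_iff₀ hε).1 (b.le.trans ρ4)
    have c2 : r * (4 * ε) ≤ h := (le_div_iff₀ (by positivity)).1 (b.le.trans ρ5)
    have c3 : r ≤ 1 := b.le.trans ρ3
    have c4 : η * r ≤ ε * r / 4 := by nlinarith
    have c5 : 0 < ε * r := mul_pos hε a
    exact ⟨c3, by linarith, by linarith, by linarith, by linarith, by linarith⟩
  have tube : ∀ r ∈ Icc (T / (q + η)) (T / (q - η)), ∀ τ : ℂ, |τ.re - x0| < η * r →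
      -(η * r) < τ.im → τ.im < h - 2 * ε * r → Tube h R κ S ε η r τ (2 * q) := by
    intro r hr τ h1 h2 h3
    obtain ⟨a, b, -, c⟩ := facts r hr
    obtain ⟨s1, s2, s3, -, -, -⟩ := small r a b
    exact low_tube hS.kp hS.im hR hε hη hηε hη4 a s1 s2 s3 c h1 h2 h3
  have tubeR : ∀ r ∈ Icc (T / (q + η)) (T / (q - η)), ∀ t : ℝ, |t - x0| < η * r →
      Tube h R κ S ε η r t (2 * q) := by
    intro r hr t h1
    obtain ⟨a, b, -, -⟩ := facts r hr
    obtain ⟨-, -, -, -, -, s6⟩ := small r a b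
    exact tube r hr t (by simpa using h1) (by simpa using mul_pos hη a) (by simpa using s6)
  have ctx : ∀ r ∈ Icc (T / (q + η)) (T / (q - η)),
      Ctx d h R κ S Φ (T + 1) ε η r ∧ q * r ≤ T + 1 := by
    intro r hr
    obtain ⟨a, b, -, c⟩ := facts r hr
    obtain ⟨-, -, -, s4, -, -⟩ := small r a b
    exact ⟨hC r a (b.trans_le ρ1), by linarith⟩
  have x0in : ∀ r ∈ Icc (T / (q + η)) (T / (q - η)), |x0 - x0| < η * r := by
    intro r hr
    simpa using mul_pos hη (facts r hr).1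
  have cont : ContinuousOn (fun r : ℝ => ((dbl d Φ η r)^[q] x0).re)
      (Icc (T / (q + η)) (T / (q - η))) := by
    intro r hr
    have c1 := ((ctx r hr).1.dif x0 q (ctx r hr).2 (tubeR r hr x0 (x0in r hr))).continuousAt
    have c2 : ContinuousAt (fun s : ℝ => ((x0 : ℂ), (s : ℂ))) r := by fun_prop
    have c3 := ContinuousAt.comp (f := fun s : ℝ => ((x0 : ℂ), (s : ℂ))) c1 c2
    exact (Complex.continuous_re.continuousAt.comp c3).continuousWithinAt
  have est : ∀ r ∈ Icc (T / (q + η)) (T / (q - η)),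
      |((dbl d Φ η r)^[q] x0).re - (x0 + 2 * (q * r))| ≤ η * r := by
    intro r hr
    have o := (ctx r hr).1.orb x0 q (ctx r hr).2 (tubeR r hr x0 (x0in r hr)) q le_rfl
    have := (Complex.abs_re_le_norm _).trans o
    simpa [mul_assoc] using this
  have mid : x0 + 2 * T ∈ Icc ((fun r : ℝ => ((dbl d Φ η r)^[q] x0).re) (T / (q + η)))
      ((fun r : ℝ => ((dbl d Φ η r)^[q] x0).re) (T / (q - η))) := by
    have m1 := left_mem_Icc.2 i12
    have m2 := right_mem_Icc.2 i12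
    have e1 : q * (T / (q + η)) + η * (T / (q + η)) = T := by field_simp
    have e2 : q * (T / (q - η)) - η * (T / (q - η)) = T := by field_simp
    have p1 := mul_pos hη (facts _ m1).1
    have p2 := mul_pos hη (facts _ m2).1
    have o1 := (abs_le.1 (est _ m1)).2
    have o2 := (abs_le.1 (est _ m2)).1
    constructor
    · beta_reduce; linarith
    · beta_reduce; linarith
  obtain ⟨r, hr, hrv⟩ := intermediate_value_Icc i12 cont mid
  beta_reduce at hrv
  obtain ⟨a, b, c, e⟩ := facts r hr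
  obtain ⟨s1, s2, s3, s4, s5, s6⟩ := small r a b
  have hηr := mul_pos hη a
  have ch := fun (t : ℝ) (ht : |t - x0| < η * r) =>
    low_chain hP (ctx r hr).1 hηr s5 (ctx r hr).2 (tubeR r hr t ht)
  have per : SameL Φ ((x0 + 2 * T : ℝ) : ℂ) x0 := by
    have u1 := hP.per x0 (by show |(x0 : ℂ).im| < h; simpa using hh)
    have u2 := hP.per (x0 + T) (by show |((x0 : ℂ) + T).im| < h; simpa using hh)
    have u3 : ((x0 + 2 * T : ℝ) : ℂ) = x0 + T + T := by push_cast; ring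
    simp only [SameL, fB, fY, u3, u2, u1, and_self]
  have all := hH r a (b.trans_le ρ2) q ⟨x0, x0 + 2 * T, hrv ▸ (ch x0 (x0in r hr)).2, per⟩
  refine ⟨r, a, b.trans_le ρ1, abs_le.2 ⟨by linarith, by linarith⟩, fun τ h1 h2 h3 =>
    ⟨tube r hr τ h1 h2 h3, ?_⟩⟩
  have idn := low_ident (F := fun z => (Φ ((dbl d Φ η r)^[q] z)).2) (G := fun z => (Φ z).2)
    (x0 := x0) hηr s6 ?_ ?_ τ h1 h2 h3
  · exact ⟨congrArg Prod.fst idn, congrArg Prod.snd idn⟩
  · intro z z1 z2 z3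
    have tb := tube r hr z z1 z2 z3
    have d1 := (ctx r hr).1.dif z q (ctx r hr).2 tb
    have d2 : DifferentiableAt ℂ (fun s : ℂ => (s, (r : ℂ))) z := by fun_prop
    have d3 : DifferentiableAt ℂ (fun s : ℂ => (dbl d Φ η r)^[q] s) z :=
      DifferentiableAt.comp (f := fun s : ℂ => (s, (r : ℂ))) z d1 d2
    have o := (ctx r hr).1.orb z q (ctx r hr).2 tb q le_rfl
    have d4 : DifferentiableAt ℂ Φ ((dbl d Φ η r)^[q] z) :=
      low_memD hS (tb (2 * q) le_rfl _ (by push_cast; linarith))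
    have d5 : DifferentiableAt ℂ Φ z := low_memD hS (tb 0 (by omega) z (by simp; positivity))
    exact ⟨(d4.comp z d3).snd, d5.snd⟩
  · intro t ht
    obtain ⟨u1, u2⟩ := ch t ht
    have u3 := all t _ u2
    have u4 : ((((dbl d Φ η r)^[q] t).re : ℝ) : ℂ) = (dbl d Φ η r)^[q] t :=
      Complex.ext (by simp) (by simp [u1])
    rw [u4] at u3
    exact Prod.ext u3.1 u3.2

end Pool.Agent.AO
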