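import Pool.Agent.Lib.AO.Blue

set_option autoImplicit false

noncomputable section

namespace Pool.Agent.AO

open Set Metric Filter Topology

/-- Extension to the ball of radius `ρ` about `c`. -/
def sectX (U : Set ℂ) (Φ : ℂ → S3) (c : ℂ) (ρ : ℝ) : Prop :=
  ∃ Ψ : ℂ → S3, DifferentiableOn ℂ Ψ (ball c ρ) ∧ EqOn Ψ Φ (ball c ρ ∩ U)

theorem sect_mono {U : Set ℂ} {Φ : ℂ → S3} {c c' : ℂ} {ρ ρ' : ℝ} (h : sectX U Φ c ρ)
    (hs : ball c' ρ' ⊆ ball c ρ) : sectX U Φ c' ρ' := by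
  obtain ⟨Ψ, h1, h2⟩ := h
  exact ⟨Ψ, h1.mono hs, h2.mono (inter_subset_inter_left _ hs)⟩

theorem sect_ident {F : Type} [NormedAddCommGroup F] [NormedSpace ℂ F] [CompleteSpace F]
    {V : Set ℂ} {f g : ℂ → F} (hV : IsOpen V) (hc : IsPreconnected V)
    (hf : DifferentiableOn ℂ f V) (hg : DifferentiableOn ℂ g V) {c : ℂ} (hcV : c ∈ V) {ρ : ℝ}
    (hρ : 0 < ρ) (he : EqOn f g (ball c ρ)) : EqOn f g V :=
  (hf.analyticOnNhd hV).eqOn_of_preconnected_of_eventuallyEq (hg.analyticOnNhd hV) hc hcV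
    (eventually_of_mem (ball_mem_nhds c hρ) he)

theorem sect_mv {W : Set ℂ} {Y w : ℂ → ℂ} {w0 : ℂ} {L : ℝ} (hW : Convex ℝ W)
    (hY : ∀ τ ∈ W, HasDerivAt Y (w τ) τ) (hw : ∀ τ ∈ W, ‖w τ - w0‖ ≤ L) {τ τ' : ℂ}
    (h1 : τ ∈ W) (h2 : τ' ∈ W) : ‖Y τ - Y τ' - w0 * (τ - τ')‖ ≤ L * ‖τ - τ'‖ := by
  have h := hW.norm_image_sub_le_of_norm_hasDerivWithin_le (𝕜 := ℂ)
    (f := fun s => Y s - w0 * s) (f' := fun s => w s - w0) (C := L)
    (fun s hs => by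
      have := (hY s hs).sub ((hasDerivAt_id s).const_mul w0)
      rw [mul_one] at this
      exact this.hasDerivWithinAt) hw h2 h1
  have e : Y τ - Y τ' - w0 * (τ - τ') = (Y τ - w0 * τ) - (Y τ' - w0 * τ') := by ring
  rw [e]
  exact h

theorem sect_w {a b a0 b0 : ℂ} {ε : ℝ} (h1 : ‖a - a0‖ ≤ ε) (h2 : ‖b - b0‖ ≤ ε) :
    ‖a - b - (a0 - b0)‖ ≤ 2 * ε := by
  have e : a - b - (a0 - b0) = (a - a0) - (b - b0) := by ring
  rw [e]
  have := norm_sub_le (a - a0) (b - b0)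
  linarith

/-- Expansion at a boundary point, inside the convex set. -/
theorem sect_exp {d : Dat} {U : Set ℂ} {Φ : ℂ → S3} {b : ℂ} {σ : S3} (hs : Sol d U Φ)
    (hU : Convex ℝ U) (hb : b ∈ closure U) (ht : Tendsto Φ (𝓝[U] b) (𝓝 σ)) {ε : ℝ}
    (hε : 0 < ε) : ∃ δ : ℝ, 0 < δ ∧ ∀ τ ∈ U, ‖τ - b‖ < δ → ‖fA Φ τ - σ.1‖ ≤ ε ∧
      ‖fB Φ τ - σ.2.1‖ ≤ ε ∧
      ‖fY Φ τ - σ.2.2 - (σ.1 - σ.2.1) * (τ - b)‖ ≤ 2 * ε * ‖τ - b‖ := by
  obtain ⟨δ, hδ, h⟩ := Metric.tendsto_nhdsWithin_nhds.1 ht ε hε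
  have hAB : ∀ τ ∈ U, ‖τ - b‖ < δ → ‖fA Φ τ - σ.1‖ ≤ ε ∧ ‖fB Φ τ - σ.2.1‖ ≤ ε := by
    intro τ hτ hd
    have h1 := h hτ (by rwa [dist_eq_norm])
    rw [dist_eq_norm] at h1
    exact ⟨(norm_fst_le (Φ τ - σ)).trans h1.le,
      ((norm_fst_le (Φ τ - σ).2).trans (norm_snd_le (Φ τ - σ))).trans h1.le⟩
  refine ⟨δ, hδ, fun τ hτ hd => ⟨(hAB τ hτ hd).1, (hAB τ hτ hd).2, ?_⟩⟩
  have hne : (𝓝[U] b).NeBot := mem_closure_iff_nhdsWithin_neBot.1 hb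
  have hY : Tendsto (fY Φ) (𝓝[U] b) (𝓝 σ.2.2) :=
    ((continuous_snd.comp continuous_snd).tendsto σ).comp ht
  have hid : Tendsto (fun s : ℂ => s) (𝓝[U] b) (𝓝 b) := tendsto_id.mono_left nhdsWithin_le_nhds
  have t1 : Tendsto (fun s => ‖fY Φ τ - fY Φ s - (σ.1 - σ.2.1) * (τ - s)‖) (𝓝[U] b)
      (𝓝 ‖fY Φ τ - σ.2.2 - (σ.1 - σ.2.1) * (τ - b)‖) :=
    ((tendsto_const_nhds.sub hY).sub ((tendsto_const_nhds.sub hid).const_mul _)).norm
  have t2 : Tendsto (fun s : ℂ => 2 * ε * ‖τ - s‖) (𝓝[U] b) (𝓝 (2 * ε * ‖τ - b‖)) :=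
    ((tendsto_const_nhds.sub hid).norm).const_mul _
  refine le_of_tendsto_of_tendsto t1 t2 ?_
  filter_upwards [self_mem_nhdsWithin, mem_nhdsWithin_of_mem_nhds (ball_mem_nhds b hδ)]
    with s hsU hsb
  refine sect_mv (W := U ∩ ball b δ) (w := fun s => fA Φ s - fB Φ s)
    (hU.inter (convex_ball b δ)) (fun u hu => hs.dY u hu.1) (fun u hu => ?_)
    ⟨hτ, by rwa [mem_ball, dist_eq_norm]⟩ ⟨hsU, hsb⟩
  have := hAB u hu.1 (by rw [← dist_eq_norm]; exact hu.2)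
  exact sect_w this.1 this.2

/-- Uniform Lipschitz bound for the height on balls of radius at most one. -/
theorem sect_lip (hG : St_GRON) {d : Dat} (hd : Gen d) (Ym : ℝ) : ∃ M : ℝ, 0 < M ∧
    ∀ (c : ℂ) (ρ : ℝ) (Ψ : ℂ → S3), ρ ≤ 1 → Sol d (ball c ρ) Ψ → ‖fY Ψ c‖ ≤ Ym →
      ∀ τ ∈ ball c ρ, ‖fY Ψ τ - fY Ψ c‖ ≤ M * ‖τ - c‖ := by
  obtain ⟨C, hC, h⟩ := hG d hd
  refine ⟨2 * (C * ((1 + |Ym|) * Real.exp (2 * C))) + 1, by positivity, ?_⟩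
  intro c ρ Ψ hρ hs hY τ hτ
  have hc : c ∈ ball c ρ := mem_ball_self (pos_of_mem_ball hτ)
  have := sect_mv (w0 := 0) (w := fun s => fA Ψ s - fB Ψ s)
    (L := 2 * (C * ((1 + |Ym|) * Real.exp (2 * C))) + 1) (convex_ball c ρ) hs.dY
    (fun u hu => ?_) hτ hc
  · simpa using this
  obtain ⟨h1, h2, h3⟩ := h _ Ψ hs (convex_ball c ρ) u hu
  have h4 := h3 c hc
  have h5 : ‖u - c‖ ≤ 1 := by
    rw [mem_ball, dist_eq_norm] at hu
    linarith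
  have h6 : Real.exp (2 * C * ‖u - c‖) ≤ Real.exp (2 * C) :=
    Real.exp_le_exp.2 (mul_le_of_le_one_right (by positivity) h5)
  have h7 : 1 + ‖fY Ψ u‖ ≤ (1 + |Ym|) * Real.exp (2 * C) :=
    h4.trans (mul_le_mul (by linarith [le_abs_self Ym]) h6 (Real.exp_pos _).le (by positivity))
  have h8 := mul_le_mul_of_nonneg_left h7 hC
  have h9 := norm_sub_le (fA Ψ u) (fB Ψ u)
  rw [sub_zero]
  linarith

theorem sect_punct {B : Set ℂ} (hB : B.Finite) (y0 : ℂ) :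
    ∃ β : ℝ, 0 < β ∧ ∀ y, 0 < ‖y - y0‖ → ‖y - y0‖ ≤ β → y ∉ B := by
  have h1 : IsOpen (B \ {y0})ᶜ := (hB.subset sdiff_subset).isClosed.isOpen_compl
  obtain ⟨β, hβ, h⟩ := Metric.isOpen_iff.1 h1 y0 (fun h => h.2 rfl)
  refine ⟨β / 2, by positivity, fun y h1 h2 hy => ?_⟩
  refine h (a := y) (by rw [mem_ball, dist_eq_norm]; linarith) ⟨hy, fun e => ?_⟩
  rw [mem_singleton_iff.1 e, sub_self, norm_zero] at h1
  exact lt_irrefl _ h1

/-- Near a limit state with distinct ends the solution extends to balls of radius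
proportional to the distance. -/
theorem sect_near (hM : St_MAXB) (hG : St_GRON) (hS : St_SYM) {d : Dat} {U : Set ℂ}
    {Φ : ℂ → S3} {b : ℂ} {σ : S3} (hd : Gen d) (hs : Sol d U Φ) (hU : Convex ℝ U)
    (hb : b ∈ closure U) (ht : Tendsto Φ (𝓝[U] b) (𝓝 σ)) (hw : σ.1 ≠ σ.2.1) :
    ∃ δ κ : ℝ, 0 < δ ∧ 0 < κ ∧ ∀ c ∈ U, ‖c - b‖ < δ → ∀ e : ℝ, 0 < e → e ≤ 1 → e ≤ ‖c - b‖ →
      sectX U Φ c (κ * e) := by
  have hw0 : 0 < ‖σ.1 - σ.2.1‖ := norm_pos_iff.2 (sub_ne_zero.2 hw)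
  obtain ⟨β, hβ, hbad⟩ := sect_punct hd.g2 σ.2.2
  obtain ⟨M, hMp, hlip⟩ := sect_lip hG hd (‖σ.2.2‖ + β)
  obtain ⟨δ, hδ, hexp⟩ := sect_exp hs hU hb ht (ε := ‖σ.1 - σ.2.1‖ / 4) (by positivity)
  set w := ‖σ.1 - σ.2.1‖ with hwdef
  refine ⟨min δ (β / (2 * w)), min 1 (w / (4 * M)), by positivity, by positivity, ?_⟩
  intro c hc hcb e he he1 hec
  set κ := min 1 (w / (4 * M)) with hκ
  have hκp : 0 < κ := by positivity
  have hκ1 : κ ≤ 1 := min_le_left _ _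
  have hκ2 : M * κ ≤ w / 4 := by
    have : κ ≤ w / (4 * M) := min_le_right _ _
    rw [le_div_iff₀ (by positivity)] at this
    linarith
  obtain ⟨hA, hB, hY⟩ := hexp c hc (hcb.trans_le (min_le_left _ _))
  have hcβ : 2 * w * ‖c - b‖ ≤ β := by
    have := (hcb.trans_le (min_le_right _ _)).le
    rw [le_div_iff₀ (by positivity)] at this
    linarith
  have hn : ‖(σ.1 - σ.2.1) * (c - b)‖ = w * ‖c - b‖ := norm_mul _ _
  have hwc : 0 < w * ‖c - b‖ := mul_pos hw0 (he.trans_le hec)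
  have hup : ‖fY Φ c - σ.2.2‖ ≤ 3 / 2 * (w * ‖c - b‖) := by
    have := norm_le_norm_add_norm_sub' (fY Φ c - σ.2.2) ((σ.1 - σ.2.1) * (c - b))
    linarith
  have hlo : 1 / 2 * (w * ‖c - b‖) ≤ ‖fY Φ c - σ.2.2‖ := by
    have := norm_le_norm_add_norm_sub (fY Φ c - σ.2.2) ((σ.1 - σ.2.1) * (c - b))
    linarith
  have hYc : ‖fY Φ c‖ ≤ ‖σ.2.2‖ + β := by
    have := norm_le_norm_add_norm_sub' (fY Φ c) σ.2.2
    linarith
  obtain ⟨ρ1, hρ1, hsub⟩ := Metric.isOpen_iff.1 hs.op c hc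
  have hR : 0 < κ * e := mul_pos hκp he
  have hR1 : κ * e ≤ 1 := mul_le_one₀ hκ1 he.le he1
  have hρ0 : 0 < min ρ1 (κ * e) := lt_min hρ1 hR
  have hsub0 : ball c (min ρ1 (κ * e)) ⊆ U := (ball_subset_ball (min_le_left _ _)).trans hsub
  have hnz : fA Φ c ≠ fB Φ c := by
    intro e0
    have := sect_w hA hB
    rw [e0, sub_self, zero_sub, norm_neg] at this
    linarith
  have hcn : Continuous fun y : ℂ => ‖y - σ.2.2‖ := by fun_prop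
  obtain ⟨Ψ, hΨ, heq⟩ := hM d Φ c (min ρ1 (κ * e)) (κ * e)
    {y | 1 / 4 * (w * ‖c - b‖) ≤ ‖y - σ.2.2‖ ∧ ‖y - σ.2.2‖ ≤ β} hd hρ0 (min_le_right _ _)
    ((hS d U Φ hs).1 _ isOpen_ball hsub0) ⟨c, mem_ball_self hρ0, hnz⟩
    ((isClosed_le continuous_const hcn).and (isClosed_le hcn continuous_const))
    (fun y hy x h1 h2 => hbad y (lt_of_lt_of_le (by positivity) hy.1) hy.2 ⟨x, h1, h2⟩)
    (fun ρ Ψ h1 h2 h3 h4 τ hτ => by
      have e0 : fY Ψ c = fY Φ c := by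
        unfold fY
        rw [h4 (mem_ball_self hρ0)]
      have h5 := hlip c ρ Ψ (h2.trans hR1) h3 (by rw [e0]; exact hYc) τ hτ
      rw [e0] at h5
      have h6 : ‖τ - c‖ ≤ κ * ‖c - b‖ := by
        rw [mem_ball, dist_eq_norm] at hτ
        exact (hτ.le.trans h2).trans (mul_le_mul_of_nonneg_left hec hκp.le)
      have h7 : M * ‖τ - c‖ ≤ 1 / 4 * (w * ‖c - b‖) := by
        have a1 := mul_le_mul_of_nonneg_left h6 hMp.le
        have a2 := mul_le_mul_of_nonneg_right hκ2 (norm_nonneg (c - b))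
        linarith
      have h8 := norm_sub_le_norm_sub_add_norm_sub (fY Ψ τ) (fY Φ c) σ.2.2
      have h9 := norm_sub_le_norm_sub_add_norm_sub (fY Φ c) (fY Ψ τ) σ.2.2
      rw [norm_sub_rev (fY Φ c) (fY Ψ τ)] at h9
      exact ⟨by linarith, by linarith⟩)
  refine ⟨Ψ, hΨ.df, ?_⟩
  exact sect_ident (isOpen_ball.inter hs.op) ((convex_ball _ _).inter hU).isPreconnected
    (hΨ.df.mono inter_subset_left) (hs.df.mono inter_subset_right) ⟨mem_ball_self hR, hc⟩ hρ0 heq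

theorem sect_loc (hL : St_LIM) (hM : St_MAXB) (hG : St_GRON) (hS : St_SYM) {d : Dat} {U : Set ℂ}
    {Φ : ℂ → S3} (hd : Gen d) (hs : Sol d U Φ) (hU : Convex ℝ U) (hz : NZ U Φ) {x : ℂ}
    (hx : x ∈ closure U) : ∃ δ κ : ℝ, 0 < δ ∧ 0 < κ ∧ ∀ c ∈ U, ‖c - x‖ < δ → ∀ e : ℝ, 0 < e →
      e ≤ 1 → (¬Ext U Φ x → e ≤ ‖c - x‖) → sectX U Φ c (κ * e) := by
  by_cases hE : Ext U Φ x
  · obtain ⟨ρ, hρ, hX⟩ := hE
    refine ⟨ρ / 2, ρ / 2, by positivity, by positivity, fun c _ hcx e he he1 _ => ?_⟩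
    refine sect_mono (c := x) (ρ := ρ) hX (ball_subset_ball' ?_)
    rw [dist_eq_norm]
    have := mul_le_of_le_one_right (by positivity : 0 ≤ ρ / 2) he1
    linarith
  · obtain ⟨σ, ht, -, h1, h2, -⟩ := hL d U Φ hd hs hU hz x hx
    obtain ⟨δ, κ, hδ, hκ, h⟩ := sect_near hM hG hS hd hs hU hx ht fun e => hE (h2 (h1 e).1)
    exact ⟨δ, κ, hδ, hκ, fun c hc hcx e he he1 h3 => h c hc hcx e he he1 (h3 hE)⟩

/-- Finite exceptional set and uniform constant on a compact window. -/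
theorem sect_cov (hL : St_LIM) (hM : St_MAXB) (hG : St_GRON) (hS : St_SYM) {d : Dat} {U : Set ℂ}
    {Φ : ℂ → S3} (hd : Gen d) (hs : Sol d U Φ) (hU : Convex ℝ U) (hz : NZ U Φ) (R : ℝ) :
    ∃ (S : Finset ℂ) (k : ℝ), 0 < k ∧ k ≤ 1 / 2 ∧ (∀ b ∈ S, b ∈ closure U ∧ ¬Ext U Φ b) ∧
      (∀ b ∈ closure U, ‖b‖ ≤ R → ¬Ext U Φ b → b ∈ S) ∧
      ∀ c ∈ U, ‖c‖ ≤ R → ∀ e : ℝ, 0 < e → e ≤ 1 → (∀ b ∈ S, e ≤ ‖c - b‖) →
        sectX U Φ c (k * e) := by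
  classical
  have hK : IsCompact (closedBall (0 : ℂ) R ∩ closure U) :=
    (isCompact_closedBall 0 R).inter_right isClosed_closure
  have h0 : ∀ x : ℂ, ∃ δ κ : ℝ, 0 < δ ∧ 0 < κ ∧ (x ∈ closure U → ∀ c ∈ U, ‖c - x‖ < δ →
      ∀ e : ℝ, 0 < e → e ≤ 1 → (¬Ext U Φ x → e ≤ ‖c - x‖) → sectX U Φ c (κ * e)) := by
    intro x
    by_cases hx : x ∈ closure U
    · obtain ⟨δ, κ, h1, h2, h3⟩ := sect_loc hL hM hG hS hd hs hU hz hx
      exact ⟨δ, κ, h1, h2, fun _ => h3⟩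
    · exact ⟨1, 1, one_pos, one_pos, fun h => absurd h hx⟩
  choose δ κ hδ hκ h using h0
  obtain ⟨t, ht, hcov⟩ := hK.elim_nhds_subcover (fun x => ball x (δ x))
    fun x _ => ball_mem_nhds x (hδ x)
  have hcov' : ∀ z ∈ closure U, ‖z‖ ≤ R → ∃ x ∈ t, ‖z - x‖ < δ x := by
    intro z hz1 hz2
    have := hcov ⟨mem_closedBall_zero_iff.2 hz2, hz1⟩
    simp only [mem_iUnion, mem_ball, dist_eq_norm, exists_prop] at this
    exact this
  have hk := fun c => (Finset.le_fold_min (s := t) (f := κ) (b := (1 / 2 : ℝ)) (c := c))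
  have hk1 := (hk _).1 le_rfl
  have hkp : 0 < t.fold min (1 / 2 : ℝ) κ :=
    (Finset.lt_fold_min _).2 ⟨by norm_num, fun x _ => hκ x⟩
  refine ⟨t.filter fun x => ¬Ext U Φ x, t.fold min (1 / 2) κ, hkp, hk1.1, fun b hb => ?_,
    fun b hb hbR hE => ?_, fun c hc hcR e he he1 hec => ?_⟩
  · rw [Finset.mem_filter] at hb
    exact ⟨(ht b hb.1).2, hb.2⟩
  · obtain ⟨x, hx, hbx⟩ := hcov' b hb hbR
    by_contra hn
    have hbx0 : ∃ e : ℝ, 0 < e ∧ e ≤ 1 ∧ (¬Ext U Φ x → 2 * e ≤ ‖b - x‖) := by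
      by_cases hEx : Ext U Φ x
      · exact ⟨1, one_pos, le_rfl, fun h => absurd hEx h⟩
      · have hne : b ≠ x := fun e => hn (Finset.mem_filter.2 ⟨e ▸ hx, hE⟩)
        have hp : 0 < ‖b - x‖ := norm_pos_iff.2 (sub_ne_zero.2 hne)
        refine ⟨min 1 (‖b - x‖ / 2), by positivity, min_le_left _ _, fun _ => ?_⟩
        have := min_le_right 1 (‖b - x‖ / 2)
        linarith
    obtain ⟨e, he, he1, he2⟩ := hbx0
    have hκe : 0 < κ x * e := mul_pos (hκ x) he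
    obtain ⟨c, hc, hcb⟩ := Metric.mem_closure_iff.1 hb
      (min (δ x - ‖b - x‖) (min e (κ x * e / 2))) (lt_min (by linarith) (by positivity))
    rw [dist_eq_norm, lt_min_iff, lt_min_iff] at hcb
    have t1 := norm_sub_le_norm_sub_add_norm_sub c b x
    have t2 := norm_sub_le_norm_sub_add_norm_sub b c x
    rw [norm_sub_rev c b] at t1
    have hX := h x (ht x hx).2 c hc (by linarith [hcb.1]) e he he1
      fun h' => by linarith [he2 h', hcb.2.1]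
    refine hE ⟨κ x * e / 2, by positivity, sect_mono hX (ball_subset_ball' ?_)⟩
    rw [dist_eq_norm]
    linarith [hcb.2.2]
  · obtain ⟨x, hx, hcx⟩ := hcov' c (subset_closure hc) hcR
    refine sect_mono (h x (ht x hx).2 c hc hcx e he he1
      fun h' => hec x (Finset.mem_filter.2 ⟨hx, h'⟩)) (ball_subset_ball ?_)
    exact mul_le_mul_of_nonneg_right (hk1.2 x hx) he.le

/-- Expansion on the added balls. -/
theorem sect_xp (hG : St_GRON) (hC : St_CLU) (hS : St_SYM) {d : Dat} {U D : Set ℂ}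
    {Φ Ψ : ℂ → S3} {b : ℂ} {σ : S3} (hd : Gen d) (hs : Sol d U Φ) (hU : Convex ℝ U)
    (hb : b ∈ closure U) (ht : Tendsto Φ (𝓝[U] b) (𝓝 σ)) (hD : Sol d D Ψ) (heq : EqOn Ψ Φ U)
    (hcov : ∀ τ ∈ D, ∃ c ∈ U, ∃ ρ : ℝ, τ ∈ ball c ρ ∧ ball c ρ ⊆ D ∧ ρ ≤ 1 ∧ 2 * ρ ≤ ‖c - b‖)
    {ε : ℝ} (hε : 0 < ε) : ∃ δ : ℝ, 0 < δ ∧ Xp D Ψ b σ ε δ := by
  obtain ⟨δ1, hδ1, hexp⟩ := sect_exp hs hU hb ht (ε := ε / 8) (by positivity)
  obtain ⟨δ2, hδ2, hclu⟩ := hC d hd σ.2.2 (ε / 8) (by positivity)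
  obtain ⟨M, hMp, hlip⟩ := sect_lip hG hd (‖σ.2.2‖ + δ2)
  set N := ‖σ.1 - σ.2.1‖ + ε + M with hN
  have hNp : 0 < N := by positivity
  refine ⟨min δ1 (δ2 / N) / 2, by positivity, fun τ hτ hτb => ?_⟩
  obtain ⟨c, hc, ρ, hτc, hsub, hρ1, hρ2⟩ := hcov τ hτ
  have hcc : c ∈ ball c ρ := mem_ball_self (pos_of_mem_ball hτc)
  have hin : ∀ u ∈ ball c ρ, 2 * ‖u - c‖ ≤ ‖c - b‖ := by
    intro u hu
    rw [mem_ball, dist_eq_norm] at hu
    linarith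
  have hcb : ‖c - b‖ ≤ 2 * ‖τ - b‖ := by
    have t1 := norm_sub_le_norm_sub_add_norm_sub c τ b
    rw [norm_sub_rev c τ] at t1
    linarith [hin τ hτc]
  have hc1 : ‖c - b‖ < δ1 := by linarith [min_le_left δ1 (δ2 / N)]
  have hc2 : N * ‖c - b‖ < δ2 := by
    have : ‖c - b‖ < δ2 / N := by linarith [min_le_right δ1 (δ2 / N)]
    rw [lt_div_iff₀ hNp] at this
    linarith
  obtain ⟨hA, hB, hY⟩ := hexp c hc hc1
  have eA : fA Φ c = fA Ψ c := by unfold fA; rw [heq hc]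
  have eB : fB Φ c = fB Ψ c := by unfold fB; rw [heq hc]
  have eY : fY Φ c = fY Ψ c := by unfold fY; rw [heq hc]
  rw [eA] at hA
  rw [eB] at hB
  rw [eY] at hY
  have hW : Sol d (ball c ρ) Ψ := (hS d D Ψ hD).1 _ isOpen_ball hsub
  have hn : ‖(σ.1 - σ.2.1) * (c - b)‖ = ‖σ.1 - σ.2.1‖ * ‖c - b‖ := norm_mul _ _
  have p1 : 0 ≤ ε * ‖c - b‖ := by positivity
  have p2 : 0 ≤ M * ‖c - b‖ := by positivity
  have hup : ‖fY Ψ c - σ.2.2‖ ≤ ‖σ.1 - σ.2.1‖ * ‖c - b‖ + ε * ‖c - b‖ := by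
    have := norm_le_norm_add_norm_sub' (fY Ψ c - σ.2.2) ((σ.1 - σ.2.1) * (c - b))
    linarith
  have hN' : N * ‖c - b‖ = ‖σ.1 - σ.2.1‖ * ‖c - b‖ + ε * ‖c - b‖ + M * ‖c - b‖ := by
    rw [hN]; ring
  have hYc : ‖fY Ψ c‖ ≤ ‖σ.2.2‖ + δ2 := by
    have := norm_le_norm_add_norm_sub' (fY Ψ c) σ.2.2
    linarith
  have hYu : ∀ u ∈ ball c ρ, ‖fY Ψ u - σ.2.2‖ < δ2 := by
    intro u hu
    have h1 := hlip c ρ Ψ hρ1 hW hYc u hu
    have h2 := mul_le_mul_of_nonneg_left (hin u hu) hMp.le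
    have h3 := norm_sub_le_norm_sub_add_norm_sub (fY Ψ u) (fY Ψ c) σ.2.2
    linarith
  have hco := hW.df.continuousOn
  have hAu : ∀ u ∈ ball c ρ, ‖fA Ψ u - σ.1‖ ≤ ε / 4 := by
    intro u hu
    have h1 := hclu (ball c ρ) (fA Ψ) (fY Ψ) (convex_ball c ρ).isPreconnected hco.fst
      (fun v hv => ⟨hW.pA v hv, hYu v hv⟩) u hu c hcc
    have h3 := norm_sub_le_norm_sub_add_norm_sub (fA Ψ u) (fA Ψ c) σ.1
    linarith
  have hBu : ∀ u ∈ ball c ρ, ‖fB Ψ u - σ.2.1‖ ≤ ε / 4 := by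
    intro u hu
    have h1 := hclu (ball c ρ) (fB Ψ) (fY Ψ) (convex_ball c ρ).isPreconnected hco.snd.fst
      (fun v hv => ⟨hW.pB v hv, hYu v hv⟩) u hu c hcc
    have h3 := norm_sub_le_norm_sub_add_norm_sub (fB Ψ u) (fB Ψ c) σ.2.1
    linarith
  refine ⟨by linarith [hAu τ hτc], by linarith [hBu τ hτc], ?_⟩
  have h1 := sect_mv (w := fun s => fA Ψ s - fB Ψ s) (convex_ball c ρ) hW.dY
    (fun u hu => sect_w (hAu u hu) (hBu u hu)) hτc hcc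
  have e : fY Ψ τ - σ.2.2 - (σ.1 - σ.2.1) * (τ - b) =
      (fY Ψ τ - fY Ψ c - (σ.1 - σ.2.1) * (τ - c)) +
        (fY Ψ c - σ.2.2 - (σ.1 - σ.2.1) * (c - b)) := by ring
  rw [e]
  have h2 := mul_le_mul_of_nonneg_left (hin τ hτc) hε.le
  have h3 := mul_le_mul_of_nonneg_left hcb hε.le
  refine (norm_add_le _ _).trans ?_
  linarith

theorem sect_diag (hL : St_LIM) (hS : St_SYM) {d : Dat} {D : Set ℂ} {Ψ : ℂ → S3} (hd : Gen d)
    (hD : Sol d D Ψ) (hc : IsPreconnected D) (hz : NZ D Ψ) {τ : ℂ} (hτ : τ ∈ D)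
    (he : fA Ψ τ = fB Ψ τ) : Reg d (Ψ τ) ∧ d.py (fA Ψ τ, fY Ψ τ) ≠ 0 := by
  obtain ⟨ρ, hρ, hsub⟩ := Metric.isOpen_iff.1 hD.op τ hτ
  have hz' : NZ (ball τ ρ) Ψ := by
    by_contra hn
    obtain ⟨u, hu, hne⟩ := hz
    refine hne (sect_ident (f := fA Ψ) (g := fB Ψ) hD.op hc hD.df.fst hD.df.snd.fst hτ hρ
      (fun v hv => ?_) hu)
    by_contra h'
    exact hn ⟨v, hv, h'⟩
  have hcl : τ ∈ closure (ball τ ρ) := subset_closure (mem_ball_self hρ)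
  obtain ⟨σ, ht, -, h1, -⟩ := hL d _ Ψ hd ((hS d D Ψ hD).1 _ isOpen_ball hsub)
    (convex_ball τ ρ) hz' τ hcl
  have hne : (𝓝[ball τ ρ] τ).NeBot := mem_closure_iff_nhdsWithin_neBot.1 hcl
  have e : σ = Ψ τ := tendsto_nhds_unique ht
    ((hD.df.continuousOn τ hτ).mono hsub).tendsto
  subst e
  exact h1 he

theorem sect_conv (h : ℝ) : Convex ℝ (strip h) := by
  have e : strip h = {τ : ℂ | -h < τ.im} ∩ {τ : ℂ | τ.im < h} := by
    ext τ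
    exact (abs_lt : |τ.im| < h ↔ _)
  rw [e]
  exact (convex_halfSpace_im_gt _).inter (convex_halfSpace_im_lt _)

theorem sect_clo {h : ℝ} (hh : 0 < h) {b : ℂ} (hb : |b.im| ≤ h) : b ∈ closure (strip h) := by
  refine Metric.mem_closure_iff.2 fun η hη => ?_
  have hs : 0 < min 1 (η / (‖b‖ + 1)) := by positivity
  have hs1 := min_le_left 1 (η / (‖b‖ + 1))
  have hs2 := min_le_right 1 (η / (‖b‖ + 1))
  set s := min 1 (η / (‖b‖ + 1))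
  rw [le_div_iff₀ (by positivity)] at hs2
  refine ⟨(1 - s) • b, ?_, ?_⟩
  · show |((1 - s) • b).im| < h
    rw [Complex.smul_im, smul_eq_mul, abs_mul, abs_of_nonneg (by linarith : 0 ≤ 1 - s)]
    have := mul_le_mul_of_nonneg_left hb (by linarith : 0 ≤ 1 - s)
    have := mul_pos hs hh
    linarith
  · have e : b - (1 - s) • b = s • b := by rw [sub_smul, one_smul]; ring
    rw [dist_eq_norm, e, norm_smul, Real.norm_eq_abs, abs_of_pos hs]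
    linarith

theorem sect_proj {h t : ℝ} (hh : 0 < h) (ht : 0 < t) {z : ℂ} (h1 : -h / 2 ≤ z.im)
    (h2 : z.im ≤ h + t) : ∃ c ∈ strip h, ‖z - c‖ ≤ 2 * t := by
  by_cases h3 : z.im < h
  · exact ⟨z, abs_lt.2 ⟨by linarith, h3⟩, by rw [sub_self, norm_zero]; positivity⟩
  · have a1 := min_le_left t h
    have a2 := min_le_right t h
    have a3 : 0 < min t h := lt_min ht hh
    refine ⟨z - ((z.im - h + min t h : ℝ) : ℂ) * Complex.I, ?_, ?_⟩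
    · show |(z - ((z.im - h + min t h : ℝ) : ℂ) * Complex.I).im| < h
      rw [Complex.sub_im, Complex.mul_I_im, Complex.ofReal_re, abs_lt]
      constructor <;> linarith
    · rw [sub_sub_cancel, norm_mul, Complex.norm_I, mul_one, Complex.norm_real, Real.norm_eq_abs,
        abs_le]
      constructor <;> linarith

theorem st_SECT (hL : St_LIM) (hM : St_MAXB) (hG : St_GRON) (hC : St_CLU) (hGl : St_GLUE)
    (hE : St_EXT) (hS : St_SYM) : St_SECT := by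
  intro d h T R Φ hd hh hP
  have hs := hP.sol
  have hU := sect_conv h
  have hre : ∀ t : ℝ, (t : ℂ) ∈ strip h := fun t => by
    show |(t : ℂ).im| < h
    rw [Complex.ofReal_im, abs_zero]
    exact hh
  have hz0 : fA Φ ((T / 4 : ℝ) : ℂ) ≠ fB Φ ((T / 4 : ℝ) : ℂ) := by
    intro e
    obtain ⟨k, hk⟩ := (hP.zer _).1 e
    have h1 : (1 : ℝ) = 2 * k := mul_left_cancel₀ hP.Tp.ne' (by linarith)
    have h2 : (1 : ℤ) = 2 * k := by exact_mod_cast h1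
    omega
  have hz : NZ (strip h) Φ := ⟨_, hre _, hz0⟩
  obtain ⟨S, k, hk, hk2, hS1, hS2, hS3⟩ := sect_cov hL hM hG hS hd hs hU hz (R + 1)
  have hSU : ∀ c ∈ strip h, ∀ b ∈ S, 0 < ‖c - b‖ := by
    intro c hc b hb
    refine norm_pos_iff.2 (sub_ne_zero.2 fun e => (hS1 b hb).2 ?_)
    obtain ⟨ρ, hρ, hsub⟩ := Metric.isOpen_iff.1 hs.op c hc
    exact e ▸ ⟨ρ, hρ, Φ, hs.df.mono hsub, fun _ _ => rfl⟩
  have hm := fun (c : ℂ) (e : ℝ) =>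
    (Finset.le_fold_min (s := S) (f := fun b => ‖c - b‖) (b := (1 : ℝ)) (c := e))
  set m : ℂ → ℝ := fun c => S.fold min 1 fun b => ‖c - b‖ with hmdef
  have hm1 : ∀ c, m c ≤ 1 ∧ ∀ b ∈ S, m c ≤ ‖c - b‖ := fun c => (hm c _).1 le_rfl
  have hmp : ∀ c ∈ strip h, 0 < m c := fun c hc =>
    (Finset.lt_fold_min _).2 ⟨one_pos, hSU c hc⟩
  obtain ⟨Ψ, hΨ, heq, hcon⟩ := hGl (strip h) (strip h ∩ {c | ‖c‖ ≤ R + 1}) Φ (fun c => k * m c)
    hs.op hU ⟨_, hre 0⟩ hs.df (inter_subset_left.trans subset_closure)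
    fun c hc => hS3 c hc.1 hc.2 _ (hmp c hc.1) (hm1 c).1 (hm1 c).2
  set D := strip h ∪ ⋃ c ∈ strip h ∩ {c | ‖c‖ ≤ R + 1}, ball c (k * m c) with hDdef
  have hball : ∀ c ∈ strip h, ‖c‖ ≤ R + 1 → ball c (k * m c) ⊆ D := fun c h1 h2 =>
    (subset_biUnion_of_mem (u := fun c => ball c (k * m c))
      (show c ∈ strip h ∩ {c | ‖c‖ ≤ R + 1} from ⟨h1, h2⟩)).trans subset_union_right
  have hDo : IsOpen D := hs.op.union (isOpen_biUnion fun _ _ => isOpen_ball)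
  have hD : Sol d D Ψ := hE d D (strip h) Φ Ψ hs ⟨_, hre 0⟩ subset_union_left hDo hcon hΨ heq
  refine ⟨k / 8, S, D, Ψ, ⟨hD, hh, by positivity, by linarith, fun b hb => ?_, ?_, fun b hb => ?_,
    fun τ hτ => sect_diag hL hS hd hD hcon ?_ hτ⟩, subset_union_left, heq,
    fun b h1 h2 h3 => hS2 b (sect_clo hh h1.le) (by linarith) h3⟩
  · have h1 : |b.im| ≤ h :=
      closure_minimal (s := strip h) (t := {τ : ℂ | |τ.im| ≤ h})
        (fun τ (hτ : |τ.im| < h) => le_of_lt hτ)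
        (isClosed_le (by fun_prop) continuous_const) (hS1 b hb).1
    refine h1.antisymm (not_lt.1 fun h2 => ?_)
    have := hSU b h2 b hb
    rw [sub_self, norm_zero] at this
    exact lt_irrefl _ this
  · rintro z e ⟨a1, a2, a3, a4, a5, a6⟩
    have hke : 0 < k / 8 * e := by positivity
    have hke2 : k * e ≤ 1 / 2 * e := mul_le_mul_of_nonneg_right hk2 a4.le
    obtain ⟨c, hc, hzc⟩ := sect_proj hh hke a2 a3
    have hcR : ‖c‖ ≤ R + 1 := by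
      have := norm_le_norm_add_norm_sub z c
      linarith
    refine (ball_subset_ball' ?_).trans (hball c hc hcR)
    have h1 : e / 2 ≤ m c := (hm c _).2 ⟨by linarith, fun b hb => by
      have := norm_sub_le_norm_sub_add_norm_sub z c b
      linarith [a6 b hb]⟩
    have h2 := mul_le_mul_of_nonneg_left h1 hk.le
    rw [dist_eq_norm]
    linarith
  · obtain ⟨σ, ht, -, h1, h2, -⟩ := hL d _ Φ hd hs hU hz b (hS1 b hb).1
    refine ⟨σ, fun e => (hS1 b hb).2 (h2 (h1 e).1), fun ε hε => ?_⟩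
    refine sect_xp hG hC hS hd hs hU (hS1 b hb).1 ht hD heq (fun τ hτ => ?_) hε
    rcases hτ with hτ | hτ
    · obtain ⟨ρ, hρ, hsub⟩ := Metric.isOpen_iff.1 hs.op τ hτ
      have hp := hmp τ hτ
      have b1 := min_le_right ρ (m τ / 2)
      refine ⟨τ, hτ, min ρ (m τ / 2), mem_ball_self (by positivity),
        ((ball_subset_ball (min_le_left _ _)).trans hsub).trans subset_union_left, ?_, ?_⟩
      · linarith [(hm1 τ).1]
      · linarith [(hm1 τ).2 b hb]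
    · simp only [mem_iUnion, exists_prop] at hτ
      obtain ⟨c, hc, hτ⟩ := hτ
      have b1 := mul_le_mul_of_nonneg_right hk2 (hmp c hc.1).le
      exact ⟨c, hc.1, _, hτ, hball c hc.1 hc.2, by linarith [(hm1 c).1],
        by linarith [(hm1 c).2 b hb]⟩
  · refine ⟨_, Or.inl (hre (T / 4)), ?_⟩
    unfold fA fB
    rw [heq (hre _)]
    exact hz0

end Pool.Agent.AO
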