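import Pool.Agent.Lib.AO.Core
import Pool.Agent.Lib.AO.B_MAINF
import Pool.Agent.Lib.AO.B_CPX
import Pool.Agent.Lib.AO.B_CLS
import Pool.Agent.Lib.AO.B_FLOW
import Pool.Agent.Lib.AO.B_LIM
import Pool.Agent.Lib.AO.B_STR
import Pool.Agent.Lib.AO.Sect75
import Pool.Agent.Lib.AO.B_ENT
import Pool.Agent.Lib.AO.B_CVX
import Pool.Agent.Lib.AO.B_LINK
import Pool.Agent.Lib.AO.B_REAL
import Pool.Agent.Lib.AO.B_FAR
import Pool.Agent.Lib.AO.B_STEP
import Pool.Agent.Lib.AO.B_CTX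
import Pool.Agent.Lib.AO.Low4
import Pool.Agent.Lib.AO.B_UPA
import Pool.Agent.Lib.AO.B_UPB
import Pool.Agent.Lib.AO.B_ALG
import Pool.Agent.Lib.AO.B_GA

set_option autoImplicit false

namespace Pool.Agent.AO

theorem all_LIM : St_LIM := st_LIM st_LOC st_UNI st_GRON st_CLU

theorem all_CORE : St_CORE :=
  st_CORE st_CVX (st_REAL st_LOC st_UNI st_SYM) st_LINK
    (st_STRIP all_LIM st_GLUE st_UNION st_EXT) (st_ENT all_LIM st_UNI st_SYM)
    (st_SECT all_LIM (st_MAXB all_LIM st_GLUE st_UNION st_EXT) st_GRON st_CLU st_GLUE st_EXT st_SYM)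
    st_SYM
    (st_UPB (st_CTX (st_STEP (st_FAR st_INT st_SOLVE0 st_SCH) st_INT) st_SYM) st_LOW st_DIR
      (st_UPA st_INT) st_CLS st_SOLVE0)

theorem all_MAINF : St_MAINF := st_MAINF st_MIN st_ALG st_GA st_GT all_CORE

end Pool.Agent.AO
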