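import Pool.Agent.Lib.AO.Blue

set_option autoImplicit false

noncomputable section

namespace Pool.Agent.AO

open Set Metric Filter Topology ComplexConjugate

theorem core_mem_strip {h : ℝ} (hp : 0 < h) (t : ℝ) : (t : ℂ) ∈ strip h := by
  simpa [strip] using hp

theorem core_realP {C : Set (ℝ × ℝ)} {Φ Ψ : ℂ → S3} (e : ∀ t : ℝ, Ψ t = Φ t) (h : RealP C Φ) :
    RealP C Ψ := by
  simpa only [RealP, fA, fB, fY, e] using h

theorem core_hyp {d : Dat} {Φ Ψ : ℂ → S3} (e : ∀ t : ℝ, Ψ t = Φ t) (h : Hyp d Φ) : Hyp d Ψ := by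
  simpa only [Hyp, Chain, Rel, SameL, fA, fB, fY, e] using h

theorem core_psol {d : Dat} {h T : ℝ} {Φ Ψ : ℂ → S3} (hp : 0 < h) (hP : PSol d (strip h) T Φ)
    (hS : Sol d (strip h) Ψ) (e : EqOn Ψ Φ (strip h)) : PSol d (strip h) T Ψ where
  sol := hS
  Tp := hP.Tp
  per τ hτ := by rw [e hτ, e (by simpa [strip] using hτ), hP.per τ hτ]
  neg τ hτ := by rw [e hτ, e (by simpa [strip] using hτ), hP.neg τ hτ]
  cnj τ hτ := by rw [e hτ, e (by simpa [strip] using hτ), hP.cnj τ hτ]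
  zer t := by simpa only [fA, fB, e (core_mem_strip hp t)] using hP.zer t

/-- `Ext` is invariant under the period. -/
theorem core_ext_back {d : Dat} {h T : ℝ} {Φ : ℂ → S3} (hP : PSol d (strip h) T Φ) {b : ℂ}
    (hb : Ext (strip h) Φ (b + T)) : Ext (strip h) Φ b := by
  obtain ⟨ρ, hρ, Ψ, hd, he⟩ := hb
  have hm : ∀ τ ∈ ball b ρ, τ + T ∈ ball (b + T) ρ := fun τ hτ => by
    simpa [mem_ball] using hτ
  refine ⟨ρ, hρ, fun τ => Ψ (τ + T), hd.comp (by fun_prop) hm, fun τ hτ => ?_⟩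
  have h2 : τ + T ∈ strip h := by simpa [strip] using hτ.2
  show Ψ (τ + T) = Φ τ
  rw [he ⟨hm τ hτ.1, h2⟩, hP.per τ hτ.2]

theorem st_CORE (hCVX : St_CVX) (hREAL : St_REAL) (hLINK : St_LINK) (hSTRIP : St_STRIP)
    (hENT : St_ENT) (hSECT : St_SECT) (hSYM : St_SYM) (hUPB : St_UPB) : St_CORE := by
  intro d K hG hO hK
  have hC := hCVX d K hO
  obtain ⟨h0, T, Φ0, hp0, hP0, hR0⟩ := hREAL d K hG hC
  have hH0 := hLINK d K h0 T Φ0 hC hp0 hP0 hR0 hK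
  rcases hSTRIP d h0 T Φ0 hG hp0 hP0 with ⟨Φ, hP, e⟩ | ⟨h, Φ, b, σ, hp, hP, e, hb, hn, ht, hs, hx⟩
  · exact hENT d T Φ _ hG hP (core_realP e hR0)
  exfalso
  obtain ⟨κ, S, D, Ψ, hS, hD, eq, hm⟩ := hSECT d h T (‖b‖ + h + 2 * T + 3) Φ hG hp hP
  have hT := hP.Tp
  have hPΨ := core_psol hp hP ((hSYM d D Ψ hS.sol).1 _ hP.sol.op hD) eq
  have hH : Hyp d Ψ := core_hyp (fun t => (eq (core_mem_strip hp t)).trans (e t)) hH0
  have nT : ‖(T : ℂ)‖ = T := by rw [Complex.norm_real, Real.norm_of_nonneg hT.le]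
  have n1 : ‖b + T‖ ≤ ‖b‖ + T := (norm_add_le _ _).trans_eq (by rw [nT])
  have n2 : ‖b + T + T‖ ≤ ‖b‖ + T + T := (norm_add_le _ _).trans (by rw [nT]; linarith)
  have m0 : b ∈ S := hm b (by rw [hb, abs_of_pos hp]) (by linarith) hn
  have m1 : b + T ∈ S := hm _ (by simp [hb, abs_of_pos hp]) (by linarith)
    fun x => hn (core_ext_back hP x)
  have m2 : b + T + T ∈ S := hm _ (by simp [hb, abs_of_pos hp]) (by linarith)
    fun x => hn (core_ext_back hP (core_ext_back hP x))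
  have ht' : Tendsto Ψ (𝓝[strip h] b) (𝓝 σ) :=
    ht.congr' (eventually_of_mem self_mem_nhdsWithin fun τ hτ => (eq hτ).symm)
  obtain ⟨ρ, hρ, Ω, hd, he⟩ := hUPB d h _ κ T S D Ψ b σ hS hPΨ hD hH hb le_rfl m0 m1
    (by rw [two_mul, ← add_assoc]; exact m2) ht' hs hx
  exact hn ⟨ρ, hρ, Ω, hd, fun τ hτ => (he hτ).trans (eq hτ.2)⟩

end Pool.Agent.AO
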