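import Pool.Agent.Lib.AO.Blue3
import Pool.Agent.Lib.AO.Core
import Pool.Agent.Lib.AO.B_MAINF

set_option autoImplicit false

noncomputable section

namespace Pool.Agent.AO

open Set Metric Filter Topology ComplexConjugate MvPolynomial Pool.Agent.Lib.AO

theorem c3_hyp {d : Dat} {Φ Ψ : ℂ → S3} (e : ∀ t : ℝ, Ψ t = Φ t) (h : Hyp2 d Φ) : Hyp2 d Ψ := by
  simpa only [Hyp2, Chain2, Rel, SameL, fA, fB, fY, e] using h

theorem c3_good {d : Dat} {Φ Ψ : ℂ → S3} (e : ∀ t : ℝ, Ψ t = Φ t) (c : ℝ) :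
    Good d Ψ c ↔ Good d Φ c := by
  simp only [Good, e]

theorem c3_rf {d : Dat} {T : ℝ} {Φ Ψ : ℂ → S3} (hR : RF d T Φ) (e : ∀ t : ℝ, Ψ t = Φ t) :
    RF d T Ψ := by
  refine ⟨hR.Tp, fun t => ?_, fun t => ?_, fun t => by rw [e, hR.re], fun t => ?_, ?_,
    fun t => by rw [e]; exact hR.ons t, fun t => ?_, fun R => ?_, fun t => ?_⟩
  · rw [← Complex.ofReal_add, e, e, Complex.ofReal_add, hR.per]
  · rw [← Complex.ofReal_neg, e, e, Complex.ofReal_neg, hR.neg]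
  · simpa only [fA, fB, e] using hR.zer t
  · simpa only [e] using hR.ct
  · simpa only [fA, fB, fY, e] using hR.dY t
  · simpa only [c3_good e] using hR.fin R
  · simpa only [fA, fB, fY, e, c3_good e] using hR.dg t

theorem c3_back (hS : St_SYM) {d : Dat} {T : ℝ} {Φ : ℂ → S3} (hR : RF d T Φ) {b : ℝ}
    (h : Good d Φ (b + T)) : Good d Φ b := by
  obtain ⟨ρ, hρ, Ψ, h1, h2⟩ := h
  refine ⟨ρ, hρ, fun τ => Ψ (τ + T), (hS d _ _ ((hS d _ _ h1).2.1 T)).1 _ isOpen_ball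
    fun τ hτ => by simpa [mem_ball] using hτ, fun t ht => ?_⟩
  show Ψ (t + T) = Φ t
  rw [← hR.per t, ← Complex.ofReal_add]
  exact h2 _ (by rwa [add_sub_add_right_eq_sub])

theorem c3_neg (hS : St_SYM) {d : Dat} {T : ℝ} {Φ : ℂ → S3} (hR : RF d T Φ) {b : ℝ}
    (h : Good d Φ (-b)) : Good d Φ b := by
  obtain ⟨ρ, hρ, Ψ, h1, h2⟩ := h
  refine ⟨ρ, hρ, fun τ => sw (Ψ (0 - τ)), (hS d _ _ ((hS d _ _ h1).2.2.1 0)).1 _ isOpen_ball
    fun τ hτ => by simpa [mem_ball] using hτ, fun t ht => ?_⟩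
  show sw (Ψ (0 - t)) = Φ t
  rw [zero_sub, ← Complex.ofReal_neg, h2 _ (by rwa [neg_sub_neg, abs_sub_comm]),
    Complex.ofReal_neg, hR.neg]
  rfl

/-- Every real time is good. -/
theorem c3_all (hS : St_SYM) (hRS : St_RSEC) (hU : St_UPR) {d : Dat} {T : ℝ} {Φ : ℂ → S3}
    (hG : Gen d) (hR : RF d T Φ) (hH : Hyp2 d Φ) (c : ℝ) : Good d Φ c := by
  by_contra hc
  obtain ⟨b, hb, hx⟩ : ∃ b : ℝ, ¬Good d Φ b ∧ d.px (fA Φ b, fY Φ b) ≠ 0 := by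
    by_cases h1 : d.px (fA Φ c, fY Φ c) = 0
    · refine ⟨-c, fun h => hc (c3_neg hS hR h), fun h2 => hc (hR.dg c ?_).1⟩
      rw [Complex.ofReal_neg, fA, fY, hR.neg] at h2
      exact hG.g3 _ _ _ (hR.ons c).1 h1 (hR.ons c).2.1 h2
    · exact ⟨c, hc, h1⟩
  obtain ⟨κ, S, D, Ψ, hSec, e, hcj, hm⟩ := hRS d T (|b| + 2 * T + 3) Φ hG hR
  have hT := hR.Tp
  have n1 : |b + T| ≤ |b| + T := (abs_add_le _ _).trans_eq (by rw [abs_of_pos hT])
  have n2 : |b + T + T| ≤ |b| + T + T := (abs_add_le _ _).trans (by rw [abs_of_pos hT]; linarith)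
  have m1 := hm (b + T) (by linarith) fun x => hb (c3_back hS hR x)
  have m2 := hm (b + T + T) (by linarith) fun x => hb (c3_back hS hR (c3_back hS hR x))
  refine hb ((c3_good e b).1 (hU d _ κ T S D Ψ b hSec (c3_rf hR e) hcj (c3_hyp e hH) le_rfl
    (hm b (by linarith) hb) (by exact_mod_cast m1) ?_ (by simpa only [fA, fY, e] using hx)))
  rw [two_mul, ← add_assoc]
  exact_mod_cast m2

theorem st_CORE2 (hGEO : St_GEO) (hTOP : St_TOP) (hRF : St_RF) (hLINK : St_LINK2)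
    (hRS : St_RSEC) (hU : St_UPR) (hPS : St_PS) (hSTRIP : St_STRIP)
    (hENT : St_ENT) (hSECT : St_SECT) (hSYM : St_SYM) (hUPB : St_UPB2) : St_CORE2 := by
  intro d K hG hO hK
  obtain ⟨lo, hi, a, β, hg⟩ := hGEO K hO.1 hO.2.1 hO.2.2.1
  obtain ⟨⟨t1, t2⟩, t3, t4⟩ := hTOP d K lo hi a β hG hO hg hK
  obtain ⟨T, Φ1, hR1, hP1⟩ := hRF d K lo hi a β hG hO hg t1 t2 t3 t4
  have hH1 := hLINK d K T Φ1 hO hR1 hP1 hK
  obtain ⟨h0, Φ0, hp0, hP0, e0⟩ := hPS d T Φ1 hR1 (c3_all hSYM hRS hU hG hR1 hH1)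
  have hR0 := core_realP e0 hP1
  have hH0 := c3_hyp e0 hH1
  rcases hSTRIP d h0 T Φ0 hG hp0 hP0 with ⟨Φ, hP, e⟩ | ⟨h, Φ, b, σ, hp, hP, e, hb, hn, ht, hs, hx⟩
  · exact hENT d T Φ _ hG hP (core_realP e hR0)
  exfalso
  obtain ⟨κ, S, D, Ψ, hS, hD, eq, hm⟩ := hSECT d h T (‖b‖ + h + 2 * T + 3) Φ hG hp hP
  have hT := hP.Tp
  have hPΨ := core_psol hp hP ((hSYM d D Ψ hS.sol).1 _ hP.sol.op hD) eq
  have hH : Hyp2 d Ψ := c3_hyp (fun t => (eq (core_mem_strip hp t)).trans (e t)) hH0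
  have nT : ‖(T : ℂ)‖ = T := by rw [Complex.norm_real, Real.norm_of_nonneg hT.le]
  have n1 : ‖b + T‖ ≤ ‖b‖ + T := (norm_add_le _ _).trans_eq (by rw [nT])
  have n2 : ‖b + T + T‖ ≤ ‖b‖ + T + T := (norm_add_le _ _).trans (by rw [nT]; linarith)
  have m0 : b ∈ S := hm b (by rw [hb, abs_of_pos hp]) (by linarith) hn
  have m1 : b + T ∈ S := hm _ (by simp [hb, abs_of_pos hp]) (by linarith)
    fun x => hn (core_ext_back hP x)
  have m2 : b + T + T ∈ S := hm _ (by simp [hb, abs_of_pos hp]) (by linarith)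
    fun x => hn (core_ext_back hP (core_ext_back hP x))
  have ht' : Tendsto Ψ (𝓝[strip h] b) (𝓝 σ) :=
    ht.congr' (eventually_of_mem self_mem_nhdsWithin fun τ hτ => (eq hτ).symm)
  obtain ⟨ρ, hρ, Ω, hd, he⟩ := hUPB d h _ κ T S D Ψ b σ hS hPΨ hD hH hb le_rfl m0 m1
    (by rw [two_mul, ← add_assoc]; exact m2) ht' hs hx
  exact hn ⟨ρ, hρ, Ω, hd, fun τ hτ => (he hτ).trans (eq hτ.2)⟩

theorem st_MAIN2 (hSQF : St_SQF) (hALG : St_ALG) (hGA : St_GA2) (hGT : St_GT)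
    (hCORE : St_CORE2) : St_MAIN2 := by
  intro K P U hK hs hi P0 hP hU h
  obtain ⟨Q, hQ, aQ⟩ := hSQF _ P P0 hP
  obtain ⟨d0, h0⟩ := hALG Q
  obtain ⟨hfin, N1, f1, g1⟩ := hGA Q d0 hQ fun x y => (h0 x y).1
  obtain ⟨N2, f2, g2⟩ := fin_gb hALG Q d0 h0 hfin
  obtain ⟨t, tU, tN⟩ : ∃ t ∈ U, t ∉ N1 ∪ N2 := by
    by_contra hc
    push Not at hc
    exact hU ((f1.union f2).subset hc)
  obtain ⟨n, hn, hH⟩ := h t tU
  obtain ⟨d, hd⟩ := hALG (aeval ![C 1 * X 0 + C 0 * X 1, C t * X 0 + C 1 * X 1] Q)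
  obtain ⟨d', hd'⟩ := hALG (aeval ![C 1 * X 0 + C n.1 * X 1, C t * X 0 + C n.2 * X 1] Q)
  have sh : Shear d0 d t := fun x y => by
    rw [(hd x y).1, out_ev_lin, (h0 _ _).1]
    simp
  have e' : ∀ x y, d'.p (x, y) = d0.p (x + n.1 * y, t * x + n.2 * y) := fun x y => by
    rw [(hd' x y).1, out_ev_lin, (h0 _ _).1]
    simp
  obtain ⟨a1, a2, a3, a4⟩ := g1 t (fun x => tN (Or.inl x)) d sh
  obtain ⟨a5, a6⟩ := g2 t (fun x => tN (Or.inr x)) d sh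
  have G' : Gen d' := hGT d d' n.1 (n.2 - t * n.1) hn (fun x y => by
    rw [e', sh]
    congr 2
    push_cast
    ring) ⟨a1, a2, a3, a5, a6, a4⟩
  let L := outL t n hn
  have fr : frontier (L ⁻¹' K) = L ⁻¹' frontier K := (L.toHomeomorph.preimage_frontier K).symm
  have ov : OvZ d' (L ⁻¹' K) := by
    refine ⟨L.toHomeomorph.isCompact_preimage.2 hK,
      hs.linear_preimage L.toLinearEquiv.toLinearMap L.continuous L.injective, ?_, ?_⟩
    · obtain ⟨z, hz⟩ := hi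
      refine ⟨L.symm z, ?_⟩
      have : interior (L ⁻¹' K) = L ⁻¹' interior K := (L.toHomeomorph.preimage_interior K).symm
      rw [this]
      simpa using hz
    · intro q hq
      rw [fr] at hq
      have c1 : (q.1 : ℂ) + n.1 * q.2 = ((L q).1 : ℝ) := by simp [L, outL_apply]
      have c2 : (t : ℂ) * q.1 + n.2 * q.2 = ((L q).2 : ℝ) := by simp [L, outL_apply]
      rw [rc, e', c1, c2, (h0 _ _).1, out_ev_real, aQ _ hq]
      simp
  refine out_ell L ?_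
  rw [← fr]
  refine hCORE d' _ G' ov ?_
  rw [fr]
  refine out_hyp L ?_
  have l1 : L (1, 0) = (1, t) := by simp [L, outL_apply]
  have l2 : L (0, 1) = n := by simp [L, outL_apply]
  rw [l1, l2]
  exact hH

end Pool.Agent.AO
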