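import Pool.Agent.Lib.AO.Blue3
import Pool.Agent.Lib.AO.B_CVX

set_option autoImplicit false

noncomputable section

namespace Pool.Agent.AO

open Set Metric Filter Topology

theorem geo_nb {K : Set (ℝ × ℝ)} {x y : ℝ} (h : (x, y) ∈ interior K) : ∃ ε : ℝ, 0 < ε ∧
    (x + ε, y) ∈ K ∧ (x - ε, y) ∈ K ∧ (x, y + ε) ∈ K ∧ (x, y - ε) ∈ K := by
  have hn : K ∈ 𝓝 (x, y) := mem_interior_iff_mem_nhds.1 h
  have k : ∀ f : ℝ → ℝ × ℝ, Continuous f → f 0 = (x, y) → ∀ᶠ e in 𝓝 (0 : ℝ), f e ∈ K :=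
    fun f hf e => hf.continuousAt.eventually_mem (e ▸ hn)
  have a := ((k (fun e => (x + e, y)) (by fun_prop) (by simp)).and
    ((k (fun e => (x - e, y)) (by fun_prop) (by simp)).and
      ((k (fun e => (x, y + e)) (by fun_prop) (by simp)).and
        (k (fun e => (x, y - e)) (by fun_prop) (by simp))))).filter_mono
    (nhdsWithin_le_nhds (s := Ioi 0))
  obtain ⟨e, h1, h2⟩ := (a.and self_mem_nhdsWithin).exists
  exact ⟨e, h2, h1⟩

theorem geo_mid {K : Set (ℝ × ℝ)} (hs : StrictConvex ℝ K) {u v x y : ℝ} (hu : (u, y) ∈ K)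
    (hv : (v, y) ∈ K) (h1 : u < x) (h2 : x < v) : (x, y) ∈ interior K := by
  have := C62.mid hs (q := (0, y)) (v := (1, 0)) (by simp) h1 h2 (by simpa using hu)
    (by simpa using hv)
  simpa using this

/-- Heights near `y` of points of `K` avoid a closed set that the slice at `y` avoids. -/
theorem geo_usc {K F : Set (ℝ × ℝ)} (hK : IsCompact K) (hF : IsClosed F) {y : ℝ}
    (h : ∀ x, (x, y) ∈ K → (x, y) ∉ F) : ∀ᶠ z in 𝓝 y, ∀ x, (x, z) ∈ K → (x, z) ∉ F := by
  have c : IsClosed (Prod.snd '' (K ∩ F)) := ((hK.inter_right hF).image continuous_snd).isClosed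
  have n : y ∉ Prod.snd '' (K ∩ F) := by
    rintro ⟨⟨x, z⟩, ⟨a, b⟩, rfl⟩
    exact h x a b
  filter_upwards [c.isOpen_compl.mem_nhds n] with z hz x a b
  exact hz ⟨(x, z), ⟨a, b⟩, rfl⟩

theorem st_GEO : St_GEO := by
  intro K hK hs hi
  have hne : K.Nonempty := hi.mono interior_subset
  obtain ⟨p, pK, hp⟩ := hK.exists_isMinOn hne continuous_snd.continuousOn
  obtain ⟨q, qK, hq⟩ := hK.exists_isMaxOn hne continuous_snd.continuousOn
  have hr : ∀ z ∈ K, z.2 ∈ Icc p.2 q.2 := fun z hz => ⟨hp hz, hq hz⟩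
  have hin : ∀ x y, (x, y) ∈ interior K → y ∈ Ioo p.2 q.2 := by
    intro x y h
    obtain ⟨ε, e0, -, -, a, b⟩ := geo_nb h
    have a1 : y + ε ≤ q.2 := (hr _ a).2
    have b1 : p.2 ≤ y - ε := (hr _ b).1
    exact ⟨by linarith, by linarith⟩
  have lt : p.2 < q.2 := by
    obtain ⟨⟨x, y⟩, h⟩ := hi
    exact (hin x y h).1.trans (hin x y h).2
  have seg : ∀ y ∈ Ioo p.2 q.2, ∃ x, (x, y) ∈ interior K := by
    intro y hy
    have d0 : 0 < q.2 - p.2 := by linarith
    have ne : q - p ≠ 0 := fun h => by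
      rw [sub_eq_zero.1 h] at lt
      exact lt_irrefl _ lt
    have m := C62.mid hs (q := p) ne (a := 0) (b := (y - p.2) / (q.2 - p.2)) (c := 1)
      (div_pos (by linarith [hy.1]) d0) (by rw [div_lt_one d0]; linarith [hy.2])
      (by simpa using pK) (by simpa using qK)
    refine ⟨(p + ((y - p.2) / (q.2 - p.2)) • (q - p)).1, ?_⟩
    have e : y = (p + ((y - p.2) / (q.2 - p.2)) • (q - p)).2 := by
      simp only [Prod.snd_add, Prod.smul_snd, Prod.snd_sub, smul_eq_mul]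
      rw [div_mul_cancel₀ _ d0.ne']
      ring
    exact (congrArg (fun t => (_, t) ∈ interior K) e).mpr m
  have sc : ∀ y, IsCompact {x : ℝ | (x, y) ∈ K} := fun y =>
    (hK.image continuous_fst).of_isClosed_subset
      (hK.isClosed.preimage (by fun_prop : Continuous fun x : ℝ => (x, y)))
      fun x hx => ⟨(x, y), hx, rfl⟩
  have sn : ∀ y ∈ Icc p.2 q.2, {x : ℝ | (x, y) ∈ K}.Nonempty := by
    intro y hy
    rcases hy.1.eq_or_lt with h | h
    · exact ⟨p.1, by rw [← h]; exact pK⟩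
    rcases hy.2.eq_or_lt with h' | h'
    · exact ⟨q.1, by rw [h']; exact qK⟩
    obtain ⟨x, hx⟩ := seg y ⟨h, h'⟩
    exact ⟨x, interior_subset (s := K) hx⟩
  obtain ⟨a, aK, aU⟩ : ∃ a : ℝ → ℝ, (∀ y ∈ Icc p.2 q.2, (a y, y) ∈ K) ∧
      ∀ x y, (x, y) ∈ K → x ≤ a y :=
    ⟨fun y => sSup {x : ℝ | (x, y) ∈ K}, fun y hy => (sc y).sSup_mem (sn y hy),
      fun x y h => le_csSup (sc y).bddAbove h⟩
  obtain ⟨β, bK, bL⟩ : ∃ β : ℝ → ℝ, (∀ y ∈ Icc p.2 q.2, (β y, y) ∈ K) ∧
      ∀ x y, (x, y) ∈ K → β y ≤ x :=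
    ⟨fun y => sInf {x : ℝ | (x, y) ∈ K}, fun y hy => (sc y).sInf_mem (sn y hy),
      fun x y h => csInf_le (sc y).bddBelow h⟩
  have le : ∀ y ∈ Icc p.2 q.2, β y ≤ a y := fun y hy => bL _ y (aK y hy)
  have strict : ∀ x y, (x, y) ∈ interior K → β y < x ∧ x < a y := by
    intro x y h
    obtain ⟨ε, e0, u, v, -, -⟩ := geo_nb h
    exact ⟨by linarith [bL _ _ v], by linarith [aU _ _ u]⟩
  have mid : ∀ y ∈ Icc p.2 q.2, ∀ x, β y < x → x < a y → (x, y) ∈ interior K :=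
    fun y hy x => geo_mid hs (bK y hy) (aK y hy)
  have ends : ∀ y ∈ Icc p.2 q.2, y ∉ Ioo p.2 q.2 → β y = a y := by
    intro y hy hn
    by_contra ne
    have := lt_of_le_of_ne (le y hy) ne
    exact hn (hin _ y (mid y hy ((β y + a y) / 2) (by linarith) (by linarith)))
  have up : ∀ y c, a y < c → ∀ᶠ z in 𝓝[Icc p.2 q.2] y, β z ≤ a z ∧ a z < c := by
    intro y c h
    have := geo_usc (F := {w | c ≤ w.1}) hK (isClosed_le continuous_const continuous_fst)
      (y := y) fun x hx (b : c ≤ x) => by linarith [aU x y hx]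
    filter_upwards [mem_nhdsWithin_of_mem_nhds this, self_mem_nhdsWithin] with z h1 h2
    exact ⟨le z h2, not_le.1 (h1 _ (aK z h2))⟩
  have dn : ∀ y c, c < β y → ∀ᶠ z in 𝓝[Icc p.2 q.2] y, β z ≤ a z ∧ c < β z := by
    intro y c h
    have := geo_usc (F := {w | w.1 ≤ c}) hK (isClosed_le continuous_fst continuous_const)
      (y := y) fun x hx (b : x ≤ c) => by linarith [bL x y hx]
    filter_upwards [mem_nhdsWithin_of_mem_nhds this, self_mem_nhdsWithin] with z h1 h2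
    exact ⟨le z h2, not_le.1 (h1 _ (bK z h2))⟩
  have inn : ∀ y ∈ Icc p.2 q.2, ∀ x, β y < x → x < a y →
      ∀ᶠ z in 𝓝[Icc p.2 q.2] y, β z < x ∧ x < a z := by
    intro y hy x h1 h2
    have := (by fun_prop : Continuous fun z : ℝ => (x, z)).continuousAt.eventually_mem
      (isOpen_interior.mem_nhds (mid y hy x h1 h2))
    filter_upwards [mem_nhdsWithin_of_mem_nhds this] with z hz
    exact strict x z hz
  refine ⟨p.2, q.2, a, β, lt, fun y hy => tendsto_order.2 ⟨fun c h => ?_, fun c h => ?_⟩,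
    fun y hy => tendsto_order.2 ⟨fun c h => ?_, fun c h => ?_⟩,
    fun y hy => ⟨subset_closure (aK y hy), fun h => lt_irrefl _ (strict _ _ h).2⟩,
    fun y hy => ⟨subset_closure (bK y hy), fun h => lt_irrefl _ (strict _ _ h).1⟩,
    fun y hy => ?_, ends _ ⟨le_rfl, lt.le⟩ fun h => lt_irrefl _ h.1,
    ends _ ⟨lt.le, le_rfl⟩ fun h => lt_irrefl _ h.2,
    fun z hz => ⟨hr z hz, bL z.1 z.2 hz, aU z.1 z.2 hz⟩, fun z hz => ?_⟩
  · by_cases hc : c < β y
    · exact (dn y c hc).mono fun z hz => hz.2.trans_le hz.1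
    · exact (inn y hy ((c + a y) / 2) (by linarith) (by linarith)).mono fun z hz => by
        linarith [hz.2]
  · exact (up y c h).mono fun z hz => hz.2
  · exact (dn y c h).mono fun z hz => hz.2
  · by_cases hc : a y < c
    · exact (up y c hc).mono fun z hz => hz.1.trans_lt hz.2
    · exact (inn y hy ((c + β y) / 2) (by linarith) (by linarith)).mono fun z hz => by
        linarith [hz.1]
  · obtain ⟨x, hx⟩ := seg y hy
    exact (strict x y hx).1.trans (strict x y hx).2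
  · have zK : z ∈ K := hK.isClosed.frontier_subset hz
    by_contra hn
    rw [not_or] at hn
    exact hz.2 (mid z.2 (hr z zK) z.1 (lt_of_le_of_ne (bL z.1 z.2 zK) (Ne.symm hn.2))
      (lt_of_le_of_ne (aU z.1 z.2 zK) hn.1))

end Pool.Agent.AO
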