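import Pool.Agent.Lib.AO.Blue

set_option autoImplicit false

noncomputable section

namespace Pool.Agent.AO.R62

open Set Metric Filter Topology ComplexConjugate

/-- being a solution is a local property -/
theorem sol_local {d : Dat} {U : Set ℂ} {Φ : ℂ → S3} (hU : IsOpen U)
    (h : ∀ z ∈ U, ∃ W Ψ, Sol d W Ψ ∧ z ∈ W ∧ Φ =ᶠ[𝓝 z] Ψ) : Sol d U Φ := by
  have eA : ∀ {Ψ : ℂ → S3} {z : ℂ}, Φ =ᶠ[𝓝 z] Ψ → fA Φ =ᶠ[𝓝 z] fA Ψ := fun e =>
    e.mono fun τ a => congrArg (fun σ : S3 => σ.1) a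
  have eB : ∀ {Ψ : ℂ → S3} {z : ℂ}, Φ =ᶠ[𝓝 z] Ψ → fB Φ =ᶠ[𝓝 z] fB Ψ := fun e =>
    e.mono fun τ a => congrArg (fun σ : S3 => σ.2.1) a
  have eY : ∀ {Ψ : ℂ → S3} {z : ℂ}, Φ =ᶠ[𝓝 z] Ψ → fY Φ =ᶠ[𝓝 z] fY Ψ := fun e =>
    e.mono fun τ a => congrArg (fun σ : S3 => σ.2.2) a
  refine ⟨hU, fun z hz => ?_, fun z hz => ?_, fun z hz => ?_, fun z hz => ?_, fun z hz => ?_,
    fun z hz => ?_, fun z hz => ?_⟩ <;> obtain ⟨W, Ψ, s, m, e⟩ := h z hz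
  · exact ((s.df.differentiableAt (s.op.mem_nhds m)).congr_of_eventuallyEq e).differentiableWithinAt
  · rw [(eA e).self_of_nhds, (eY e).self_of_nhds]
    exact s.pA z m
  · rw [(eB e).self_of_nhds, (eY e).self_of_nhds]
    exact s.pB z m
  · rw [e.self_of_nhds]
    exact s.pD z m
  · rw [(eA e).self_of_nhds, (eB e).self_of_nhds]
    exact (s.dY z m).congr_of_eventuallyEq (eY e)
  · rw [(eA e).self_of_nhds, (eY e).self_of_nhds, (eA e).deriv_eq, e.self_of_nhds]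
    exact s.dA z m
  · rw [(eB e).self_of_nhds, (eY e).self_of_nhds, (eB e).deriv_eq, e.self_of_nhds]
    exact s.dB z m

theorem unif (hLOC : St_LOC) (hSYM : St_SYM) {d : Dat} {X : Set S3} (hX : IsCompact X)
    (hR : ∀ x ∈ X, Reg d x ∧ OnS d x) :
    ∃ ρ > 0, ∀ x ∈ X, ∃ Φ, Sol d (ball 0 ρ) Φ ∧ Φ 0 = x := by
  have key : ∃ ρ > 0, ∀ x ∈ X, OnS d x → ∃ Φ, Sol d (ball 0 ρ) Φ ∧ Φ 0 = x := by
    refine hX.induction_on
      (p := fun s => ∃ ρ > 0, ∀ x ∈ s, OnS d x → ∃ Φ, Sol d (ball 0 ρ) Φ ∧ Φ 0 = x) ?_ ?_ ?_ ?_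
    · exact ⟨1, one_pos, fun x hx => hx.elim⟩
    · rintro s t hst ⟨ρ, h0, h⟩
      exact ⟨ρ, h0, fun x hx => h x (hst hx)⟩
    · rintro s t ⟨ρ, h0, h⟩ ⟨ρ', h0', h'⟩
      refine ⟨min ρ ρ', lt_min h0 h0', ?_⟩
      rintro x (hx | hx) ho
      · obtain ⟨f, hf, f0⟩ := h x hx ho
        exact ⟨f, (hSYM d _ f hf).1 _ isOpen_ball (ball_subset_ball (min_le_left _ _)), f0⟩
      · obtain ⟨f, hf, f0⟩ := h' x hx ho
        exact ⟨f, (hSYM d _ f hf).1 _ isOpen_ball (ball_subset_ball (min_le_right _ _)), f0⟩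
    · intro y hy
      obtain ⟨ρ, h0, h⟩ := hLOC d y (hR y hy).1
      exact ⟨ball y ρ, mem_nhdsWithin_of_mem_nhds (ball_mem_nhds y h0), ρ, h0,
        fun x hx ho => h x hx ho 0⟩
  obtain ⟨ρ, h0, h⟩ := key
  exact ⟨ρ, h0, fun x hx => h x hx (hR x hx).2⟩

theorem stay (hSYM : St_SYM) {d : Dat} {X : Set S3} (hX : IsClosed X)
    (hinv : ∀ (r : ℝ) (Φ : ℂ → S3), 0 < r → Sol d (ball 0 r) Φ → Φ 0 ∈ X →
      ∀ᶠ t : ℝ in 𝓝 0, Φ t ∈ X) {f : ℂ → S3} {ρ : ℝ} (f0 : f 0 ∈ X) (hf : Sol d (ball 0 ρ) f)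
    {t : ℝ} (ht : |t| < ρ) : f t ∈ X := by
  have mem : ∀ s ∈ Ioo (-ρ) ρ, ((s : ℝ) : ℂ) ∈ ball (0 : ℂ) ρ := fun s hs => by
    rw [mem_ball_zero_iff, Complex.norm_real, Real.norm_eq_abs]
    exact abs_lt.2 hs
  have step : ∀ s ∈ Ioo (-ρ) ρ, f s ∈ X → ∀ᶠ r : ℝ in 𝓝 s, f r ∈ X := by
    intro s hs h
    have h2 := (hSYM d _ f hf).2.1 s
    obtain ⟨r, r0, hr⟩ := Metric.isOpen_iff.1 h2.op 0 (by simpa using mem s hs)
    have h1 := hinv r _ r0 ((hSYM d _ _ h2).1 _ isOpen_ball hr) (by simpa using h)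
    have c2 : Tendsto (fun r : ℝ => r - s) (𝓝 s) (𝓝 0) :=
      Continuous.tendsto' (by fun_prop) _ _ (by simp)
    filter_upwards [c2.eventually h1] with r hr
    simpa using hr
  have ρ0 : 0 < ρ := (abs_nonneg t).trans_lt ht
  have z0 : (0 : ℝ) ∈ Ioo (-ρ) ρ := ⟨by linarith, ρ0⟩
  have key : Ioo (-ρ) ρ ⊆ {s : ℝ | ∀ᶠ r : ℝ in 𝓝 s, f r ∈ X} := by
    refine isPreconnected_Ioo.subset_of_closure_inter_subset isOpen_setOfPred_eventually_nhds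
      ⟨0, z0, step 0 z0 (by simpa using f0)⟩ ?_
    rintro s ⟨s1, s2⟩
    refine step s s2 ?_
    have c : ContinuousAt (fun r : ℝ => f r) s :=
      (hf.df.differentiableAt (isOpen_ball.mem_nhds (mem s s2))).continuousAt.comp
        Complex.continuous_ofReal.continuousAt
    exact hX.closure_subset (c.continuousWithinAt.mem_closure s1 fun r hr => hr.self_of_nhds)
  exact (key (abs_lt.1 ht)).self_of_nhds

theorem strip_open (h : ℝ) : IsOpen (strip h) :=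
  isOpen_lt (by fun_prop) continuous_const

theorem strip_convex (h : ℝ) : Convex ℝ (strip h) := by
  have e : strip h = {τ : ℂ | -h < τ.im} ∩ {τ : ℂ | τ.im < h} := 
    Set.ext fun τ => abs_lt (a := τ.im) (b := h)
  rw [e]
  exact (convex_halfSpace_im_gt _).inter (convex_halfSpace_im_lt _)

/-- a solution on a horizontal strip whose real times stay in `X` -/
theorem strip_sol (hLOC : St_LOC) (hUNI : St_UNI) (hSYM : St_SYM) {d : Dat} {X : Set S3}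
    (hX : IsCompact X) (hR : ∀ x ∈ X, Reg d x ∧ OnS d x)
    (hinv : ∀ (r : ℝ) (Φ : ℂ → S3), 0 < r → Sol d (ball 0 r) Φ → Φ 0 ∈ X →
      ∀ᶠ t : ℝ in 𝓝 0, Φ t ∈ X) {x0 : S3} (h0 : x0 ∈ X) :
    ∃ h > 0, ∃ f : ℂ → S3, f 0 = x0 ∧ Sol d (strip h) f ∧ ∀ t : ℝ, f t ∈ X := by
  obtain ⟨ρ, ρ0, hρ⟩ := unif hLOC hSYM hX hR
  choose! Φ p1 p0 using hρ
  have st : ∀ x ∈ X, ∀ t : ℝ, |t| < ρ → Φ x t ∈ X := fun x hx t ht =>
    stay hSYM hX.isClosed hinv (by rw [p0 x hx]; exact hx) (p1 x hx) ht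
  have semi : ∀ x ∈ X, ∀ t : ℝ, |t| < ρ → ∀ w : ℂ, ‖w‖ < ρ → ‖(t : ℂ) + w‖ < ρ →
      Φ (Φ x t) w = Φ x (t + w) := by
    intro x hx t ht w w1 w2
    have hy := st x hx t ht
    have mem : ball (0 : ℂ) ρ ∩ ball (-(t : ℂ)) ρ ⊆ {z | z + (t : ℂ) ∈ ball (0 : ℂ) ρ} := by
      intro z hz
      have := hz.2
      rw [mem_ball, dist_eq_norm, sub_neg_eq_add] at this
      exact mem_ball_zero_iff.2 this
    have z0 : (0 : ℂ) ∈ ball (0 : ℂ) ρ ∩ ball (-(t : ℂ)) ρ :=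
      ⟨mem_ball_self ρ0, by simpa using ht⟩
    have op : IsOpen (ball (0 : ℂ) ρ ∩ ball (-(t : ℂ)) ρ) := isOpen_ball.inter isOpen_ball
    have := hUNI d _ (Φ (Φ x t)) (fun w => Φ x (w + t)) 0
      ((hSYM d _ _ (p1 _ hy)).1 _ op inter_subset_left)
      ((hSYM d _ _ ((hSYM d _ _ (p1 x hx)).2.1 t)).1 _ op mem)
      ((convex_ball _ _).inter (convex_ball _ _)).isPreconnected z0 (by simp [p0 _ hy])
      (by rw [p0 _ hy]; exact (hR _ hy).1)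
      (x := w) ⟨mem_ball_zero_iff.2 w1, by
        rw [mem_ball, dist_eq_norm, sub_neg_eq_add, add_comm]
        exact w2⟩
    rw [this, add_comm]
  obtain ⟨δ, δ0, hδ⟩ : ∃ δ : ℝ, 0 < δ ∧ ρ = 4 * δ := ⟨ρ / 4, by positivity, by ring⟩
  have a1 : |δ| < ρ := by rw [abs_of_pos δ0]; linarith
  have a2 : |(-δ)| < ρ := by rwa [abs_neg]
  let e : Equiv.Perm X :=
    { toFun := fun x => ⟨Φ x δ, st _ x.2 _ a1⟩
      invFun := fun x => ⟨Φ x ((-δ : ℝ) : ℂ), st _ x.2 _ a2⟩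
      left_inv := fun x => Subtype.ext (by
        have := semi _ x.2 δ a1 ((-δ : ℝ) : ℂ) (by simpa using a1) (by simpa using ρ0)
        simpa [p0 _ x.2] using this)
      right_inv := fun x => Subtype.ext (by
        have := semi _ x.2 (-δ) a2 (δ : ℂ) (by simpa using a1) (by simpa using ρ0)
        simpa [p0 _ x.2] using this) }
  obtain ⟨x, x1, x2, x3⟩ : ∃ x : ℤ → S3, (∀ n, x n ∈ X) ∧ x 0 = x0 ∧
      ∀ n, x n = Φ (x (n - 1)) δ := by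
    refine ⟨fun n => ((e ^ n) ⟨x0, h0⟩ : X), fun n => Subtype.prop _, by simp, fun n => ?_⟩
    have : e ^ n = e * e ^ (n - 1) := by rw [← zpow_one_add]; simp
    show (((e ^ n) ⟨x0, h0⟩ : X) : S3) = _
    rw [this, Equiv.Perm.mul_apply]
    rfl
  have nrm : ∀ (z : ℂ) (c r : ℝ), |z.im| < δ → |z.re - c| ≤ r → ‖z - c‖ < r + δ := by
    intro z c r h1 h2
    have := Complex.norm_le_abs_re_add_abs_im (z - c)
    simp only [Complex.sub_re, Complex.ofReal_re, Complex.sub_im, Complex.ofReal_im,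
      sub_zero] at this
    linarith
  have fl : ∀ s : ℝ, (⌊s / δ⌋ : ℝ) * δ ≤ s ∧ s < (⌊s / δ⌋ + 1) * δ := fun s =>
    ⟨(le_div_iff₀ δ0).1 (Int.floor_le _), (div_lt_iff₀ δ0).1 (Int.lt_floor_add_one _)⟩
  refine ⟨δ, δ0, fun z => Φ (x ⌊z.re / δ⌋) (z - ((⌊z.re / δ⌋ * δ : ℝ) : ℂ)),
    by simp [x2, p0 _ h0], sol_local (strip_open δ) fun z hz => ?_, fun t => ?_⟩
  · have hz : |z.im| < δ := hz
    obtain ⟨n, hn⟩ : ∃ n, n = ⌊z.re / δ⌋ := ⟨_, rfl⟩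
    have b1 := fl z.re
    rw [← hn] at b1
    have m : z + -((n * δ : ℝ) : ℂ) ∈ ball (0 : ℂ) ρ := by
      rw [mem_ball_zero_iff, ← sub_eq_add_neg]
      have := nrm z (n * δ) δ hz (abs_le.2 ⟨by linarith [b1.1], by linarith [b1.2]⟩)
      linarith
    refine ⟨_, _, (hSYM d _ _ (p1 _ (x1 n))).2.1 (-((n * δ : ℝ) : ℂ)), m, ?_⟩
    have c1 : ∀ᶠ w : ℂ in 𝓝 z, |w.im| < δ :=
      ContinuousAt.eventually_lt (by fun_prop) continuousAt_const hz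
    have c2 : ∀ᶠ w : ℂ in 𝓝 z, w.re < (n + 1) * δ :=
      ContinuousAt.eventually_lt (by fun_prop) continuousAt_const b1.2
    have c3 : ∀ᶠ w : ℂ in 𝓝 z, (n - 1) * δ < w.re :=
      ContinuousAt.eventually_lt continuousAt_const (by fun_prop) (by linarith [b1.1])
    filter_upwards [c1, c2, c3] with w w1 w2 w3
    rw [← sub_eq_add_neg]
    by_cases hw : n * δ ≤ w.re
    · have : ⌊w.re / δ⌋ = n :=
        Int.floor_eq_iff.2 ⟨(le_div_iff₀ δ0).2 hw, (div_lt_iff₀ δ0).2 w2⟩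
      rw [this]
    · push Not at hw
      have : ⌊w.re / δ⌋ = n - 1 := by
        refine Int.floor_eq_iff.2 ⟨(le_div_iff₀ δ0).2 ?_, (div_lt_iff₀ δ0).2 ?_⟩
        · push_cast
          exact w3.le
        · push_cast
          linarith
      have e1 : (δ : ℂ) + (w - ((n * δ : ℝ) : ℂ)) = w - ((((n - 1 : ℤ) : ℝ) * δ : ℝ) : ℂ) := by
        push_cast
        ring
      have n1 := nrm w (n * δ) δ w1 (abs_le.2 ⟨by linarith, by linarith⟩)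
      have n2 := nrm w (((n - 1 : ℤ) : ℝ) * δ) δ w1
        (abs_le.2 ⟨by push_cast; linarith, by push_cast; linarith⟩)
      rw [this, x3 n, semi _ (x1 _) δ a1 _ (by linarith) (by rw [e1]; linarith), e1]
  · have b1 := fl t
    have := st _ (x1 ⌊t / δ⌋) (t - ⌊t / δ⌋ * δ) (abs_lt.2 ⟨by linarith [b1.1], by linarith [b1.2]⟩)
    simpa using this

end Pool.Agent.AO.R62
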