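import Pool.Agent.Lib.AO.Blue3
import Pool.Agent.Lib.AO.B_FLOW
import Pool.Agent.Lib.AO.B_STR
import Pool.Agent.Lib.AO.Str62

/-! Discs centred on the real axis: gluing, the closing step, the passage to a strip. -/

set_option autoImplicit false

noncomputable section

namespace Pool.Agent.AO

open Set Metric Filter Topology ComplexConjugate Pool.Agent.Lib.AO

namespace R23

/-- Identity theorem from real points. -/
theorem id_real {F : Type} [NormedAddCommGroup F] [NormedSpace ℂ F] [CompleteSpace F]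
    {f g : ℂ → F} {U : Set ℂ} (hU : IsOpen U) (hc : IsPreconnected U)
    (hf : DifferentiableOn ℂ f U) (hg : DifferentiableOn ℂ g U) {x : ℝ} (hx : (x : ℂ) ∈ U)
    (h : ∀ᶠ t : ℝ in 𝓝 x, f t = g t) : EqOn f g U := by
  have td : Tendsto (fun t : ℝ => (t : ℂ)) (𝓝[≠] x) (𝓝[≠] (x : ℂ)) := by
    refine tendsto_nhdsWithin_iff.2 ⟨?_, ?_⟩
    · exact (Complex.continuous_ofReal.tendsto x).mono_left nhdsWithin_le_nhds
    · filter_upwards [self_mem_nhdsWithin] with t ht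
      simpa using ht
  exact (hf.analyticOnNhd hU).eqOn_of_preconnected_of_frequently_eq (hg.analyticOnNhd hU) hc hx
    (td.frequently (h.filter_mono nhdsWithin_le_nhds).frequently)

theorem mem_re {c t ρ : ℝ} : (t : ℂ) ∈ ball (c : ℂ) ρ ↔ |t - c| < ρ := by
  rw [mem_ball, dist_eq_norm, ← Complex.ofReal_sub, Complex.norm_real, Real.norm_eq_abs]

theorem re_mem {c ρ : ℝ} {z : ℂ} (h : z ∈ ball (c : ℂ) ρ) : |z.re - c| < ρ := by
  rw [mem_ball, dist_eq_norm] at h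
  simpa using (Complex.abs_re_le_norm _).trans_lt h

theorem ev_lt {c x ρ : ℝ} (h : |x - c| < ρ) : ∀ᶠ t : ℝ in 𝓝 x, |t - c| < ρ :=
  (by fun_prop : Continuous fun t : ℝ => |t - c|).continuousAt.eventually_lt continuousAt_const h

/-- At a good time the real flow is real-analytic. -/
theorem good_an {d : Dat} {Φ : ℂ → S3} {c : ℝ} (h : Good d Φ c) :
    AnalyticAt ℝ (fun t : ℝ => Φ t) c := by
  obtain ⟨ρ, hρ, Ψ, s, e⟩ := h
  have a1 : AnalyticAt ℂ Ψ (c : ℂ) := s.df.analyticOnNhd isOpen_ball _ (mem_ball_self hρ)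
  have a2 : AnalyticAt ℝ (fun t : ℝ => Ψ t) c :=
    AnalyticAt.comp (g := Ψ) (f := fun t : ℝ => (t : ℂ)) a1.restrictScalars
      (Complex.ofRealCLM.analyticAt c)
  refine a2.congr ?_
  filter_upwards [ev_lt (c := c) (x := c) (by simpa using hρ)] with t ht using e t ht

theorem good_shift {d : Dat} {Φ : ℂ → S3} {c T : ℝ} (hp : ∀ t : ℝ, Φ (t + T) = Φ t)
    {ρ : ℝ} {Ψ : ℂ → S3} (s : Sol d (ball (c : ℂ) ρ) Ψ) (e : ∀ t : ℝ, |t - c| < ρ → Ψ t = Φ t)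
    (k : ℤ) : ∃ Ω, Sol d (ball ((c + k * T : ℝ) : ℂ) ρ) Ω ∧
      ∀ t : ℝ, |t - (c + k * T)| < ρ → Ω t = Φ t := by
  have per : Function.Periodic (fun t : ℝ => Φ t) T := fun t => by simpa using hp t
  have s1 := (st_SYM d _ Ψ s).2.1 (-((k * T : ℝ) : ℂ))
  refine ⟨_, (st_SYM d _ _ s1).1 _ isOpen_ball fun τ hτ => ?_, fun t ht => ?_⟩
  · show τ + -((k * T : ℝ) : ℂ) ∈ ball (c : ℂ) ρ
    rw [mem_ball, dist_eq_norm] at hτ ⊢
    rwa [show τ + -((k * T : ℝ) : ℂ) - c = τ - ((c + k * T : ℝ) : ℂ) by push_cast; ring]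
  · have e1 : (t : ℂ) + -((k * T : ℝ) : ℂ) = ((t - k * T : ℝ) : ℂ) := by push_cast; ring
    show Ψ ((t : ℂ) + -((k * T : ℝ) : ℂ)) = Φ t
    rw [e1, e _ (by rwa [show t - k * T - c = t - (c + k * T) by ring])]
    exact (per.int_mul k).sub_eq t

end R23

open R23

theorem st_RGL : St_RGL := by
  classical
  intro I Φ ρ Ψ h
  have key : ∀ c ∈ I, ∀ c' ∈ I, ∀ z, z ∈ ball (c : ℂ) (ρ c) → z ∈ ball (c' : ℂ) (ρ c') →
      Ψ c z = Ψ c' z := by
    intro c hc c' hc' z h1 h2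
    refine id_real (isOpen_ball.inter isOpen_ball)
      ((convex_ball _ _).inter (convex_ball _ _)).isPreconnected
      ((h c hc).1.mono inter_subset_left) ((h c' hc').1.mono inter_subset_right) (x := z.re)
      ⟨mem_re.2 (re_mem h1), mem_re.2 (re_mem h2)⟩ ?_ ⟨h1, h2⟩
    filter_upwards [ev_lt (re_mem h1), ev_lt (re_mem h2)] with t a b
    rw [(h c hc).2 t a, (h c' hc').2 t b]
  refine ⟨fun z => if hz : ∃ c ∈ I, z ∈ ball (c : ℂ) (ρ c) then Ψ hz.choose z else Φ z,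
    fun c hc z hz => ?_, fun t => ?_⟩
  · have ex : ∃ c ∈ I, z ∈ ball (c : ℂ) (ρ c) := ⟨c, hc, hz⟩
    beta_reduce
    rw [dif_pos ex]
    exact key _ ex.choose_spec.1 c hc z ex.choose_spec.2 hz
  · beta_reduce
    split_ifs with ex
    · exact (h _ ex.choose_spec.1).2 t (mem_re.1 ex.choose_spec.2)
    · rfl

theorem st_CLR : St_CLR := by
  intro d T Φ b ρ s γ ξ ζ rf hs hsρ hG hξ hζ hA hB
  have hρ : 0 < ρ := hs.trans hsρ
  have an : ∀ t : ℝ, |t - b| < ρ → t ≠ b →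
      AnalyticAt ℝ (fun t : ℝ => fB Φ t - ζ (fY Φ t)) t := by
    intro t h1 h2
    have a := good_an (hG t h1 h2)
    have aB : AnalyticAt ℝ (fun t : ℝ => fB Φ t) t :=
      analyticAt_fst.comp (analyticAt_snd.comp a)
    have aY : AnalyticAt ℝ (fun t : ℝ => fY Φ t) t :=
      analyticAt_snd.comp (analyticAt_snd.comp a)
    have az : AnalyticAt ℂ ζ (fY Φ t) := hζ.analyticOnNhd isOpen_ball _ (hA t h1).1
    exact aB.sub (AnalyticAt.comp (g := ζ) (f := fun t : ℝ => fY Φ t) az.restrictScalars aY)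
  have side : ∀ u v x : ℝ, (∀ t ∈ Ioo u v, |t - b| < ρ ∧ t ≠ b) → x ∈ Ioo u v → s < |x - b| →
      ∀ t ∈ Ioo u v, fB Φ t = ζ (fY Φ t) := by
    intro u v x h1 h2 h3 t ht
    refine sub_eq_zero.1 (AnalyticOnNhd.eqOn_zero_of_preconnected_of_eventuallyEq_zero
      (f := fun t : ℝ => fB Φ t - ζ (fY Φ t)) (fun t ht => an t (h1 t ht).1 (h1 t ht).2)
      isPreconnected_Ioo h2 ?_ ht)
    have c : Continuous fun t : ℝ => |t - b| := by fun_prop
    filter_upwards [ev_lt (h1 x h2).1, continuousAt_const.eventually_lt c.continuousAt h3]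
      with t a1 a2
    exact sub_eq_zero.2 (hB t a2.le a1)
  have hne : ∀ t : ℝ, |t - b| < ρ → t ≠ b → fB Φ t = ζ (fY Φ t) := by
    intro t h1 h2
    obtain ⟨a1, a2⟩ := abs_lt.1 h1
    rcases lt_or_gt_of_ne h2 with h | h
    · refine side (b - ρ) b (b - (s + ρ) / 2) (fun t ht => ⟨abs_lt.2 ⟨?_, ?_⟩, ht.2.ne⟩)
        ⟨by linarith, by linarith⟩ ?_ t ⟨by linarith, h⟩
      · linarith [ht.1]
      · linarith [ht.2]
      · exact lt_abs.2 (Or.inr (by linarith))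
    · refine side b (b + ρ) (b + (s + ρ) / 2) (fun t ht => ⟨abs_lt.2 ⟨?_, ?_⟩, ht.1.ne'⟩)
        ⟨by linarith, by linarith⟩ ?_ t ⟨h, by linarith⟩
      · linarith [ht.1]
      · linarith [ht.2]
      · exact lt_abs.2 (Or.inl (by linarith))
  have hb0 : |b - b| < ρ := by simpa using hρ
  have hy := (hA b hb0).1
  have hN : ball (fY Φ b) γ ∈ 𝓝 (fY Φ b) := isOpen_ball.mem_nhds hy
  have cY : Continuous fun t : ℝ => fY Φ t := rf.ct.snd.snd
  have cB : Continuous fun t : ℝ => fB Φ t := rf.ct.snd.fst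
  have hall : ∀ t : ℝ, |t - b| < ρ → fB Φ t = ζ (fY Φ t) := by
    intro t h1
    by_cases h2 : t = b
    · subst h2
      have c2 : ContinuousAt (fun u : ℝ => ζ (fY Φ u)) t :=
        ContinuousAt.comp (g := ζ) (f := fun u : ℝ => fY Φ u)
          (hζ.differentiableAt hN).continuousAt cY.continuousAt
      refine tendsto_nhds_unique_of_eventuallyEq (l := 𝓝[≠] t)
        (cB.continuousAt.tendsto.mono_left nhdsWithin_le_nhds)
        (c2.tendsto.mono_left nhdsWithin_le_nhds) ?_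
      filter_upwards [(ev_lt h1).filter_mono nhdsWithin_le_nhds, self_mem_nhdsWithin] with u a1 a2
      exact hne u a1 a2
    · exact hne t h1 h2
  have hV : ∀ᶠ q in 𝓝 (fY Φ b), DifferentiableAt ℂ (fun y => ξ y - ζ y) q := by
    filter_upwards [hN] with q hq
    exact (hξ.differentiableAt (isOpen_ball.mem_nhds hq)).sub
      (hζ.differentiableAt (isOpen_ball.mem_nhds hq))
  obtain ⟨ρ1, hρ1, hZ⟩ := O23.loc (fun y => ξ y - ζ y) (fY Φ b) hV hN
  obtain ⟨Z, Z0, hZ⟩ := hZ _ (mem_ball_self hρ1)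
  have hZ' : ∀ τ ∈ ball (b : ℂ) ρ1, HasDerivAt (fun τ => Z (τ - b))
      (ξ (Z (τ - b)) - ζ (Z (τ - b))) τ ∧ Z (τ - b) ∈ ball (fY Φ b) γ := by
    intro τ hτ
    have m : τ - b ∈ ball (0 : ℂ) ρ1 := by simpa [dist_eq_norm] using hτ
    exact ⟨(hZ _ m).1.comp_sub_const τ b, (hZ _ m).2⟩
  have hV1 : ContDiffAt ℂ 1 (fun y => ξ y - ζ y) (fY Φ b) :=
    ((hξ.sub hζ).analyticOnNhd isOpen_ball _ hy).contDiffAt
  obtain ⟨K, N, hN1, hK⟩ := hV1.exists_lipschitzOnWith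
  have hb1 : |b - b| < ρ1 := by simpa using hρ1
  have cZ : ContinuousAt (fun t : ℝ => Z (t - b)) b :=
    (hZ' b (mem_ball_self hρ1)).1.comp_ofReal.continuousAt
  have Zb : Z ((b : ℂ) - b) = fY Φ b := by rw [sub_self, Z0]
  have un : (fun t : ℝ => Z (t - b)) =ᶠ[𝓝 b] fun t : ℝ => fY Φ t := by
    refine ODE_solution_unique_of_eventually (v := fun _ y => ξ y - ζ y) (s := fun _ => N)
      (K := K) (.of_forall fun _ => hK) ?_ ?_ Zb
    · filter_upwards [ev_lt hb1, cZ.tendsto.eventually (p := fun y => y ∈ N) (by rwa [Zb])]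
        with t a1 a2
      exact ⟨(hZ' t (mem_re.2 a1)).1.comp_ofReal, a2⟩
    · filter_upwards [ev_lt hb0, cY.continuousAt.tendsto.eventually (p := fun y => y ∈ N) hN1]
        with t a1 a2
      refine ⟨?_, a2⟩
      rw [← (hA t a1).2, ← hall t a1]
      exact rf.dY t
  obtain ⟨ρ2, hρ2, h2⟩ := Metric.eventually_nhds_iff.1 (un.and ((ev_lt hb0).and (ev_lt hb1)))
  obtain ⟨ρ3, hρ3, l1, l2⟩ : ∃ ρ3 : ℝ, 0 < ρ3 ∧ ρ3 ≤ ρ1 ∧ ρ3 ≤ ρ2 :=
    ⟨min ρ1 ρ2, lt_min hρ1 hρ2, min_le_left _ _, min_le_right _ _⟩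
  have dZ : DifferentiableOn ℂ (fun τ => Z (τ - b)) (ball (b : ℂ) ρ3) := fun τ hτ =>
    (hZ' τ (ball_subset_ball l1 hτ)).1.differentiableAt.differentiableWithinAt
  have mZ : MapsTo (fun τ => Z (τ - b)) (ball (b : ℂ) ρ3) (ball (fY Φ b) γ) := fun τ hτ =>
    (hZ' τ (ball_subset_ball l1 hτ)).2
  have dΨ : DifferentiableOn ℂ (fun τ => ((ξ (Z (τ - b)), ζ (Z (τ - b)), Z (τ - b)) : S3))
      (ball (b : ℂ) ρ3) := (hξ.comp dZ mZ).prodMk ((hζ.comp dZ mZ).prodMk dZ)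
  have eΨ : ∀ t : ℝ, |t - b| < ρ3 → ((ξ (Z (t - b)), ζ (Z (t - b)), Z (t - b)) : S3) = Φ t := by
    intro t ht
    obtain ⟨a1, a2, -⟩ := h2 (y := t) (by rw [Real.dist_eq]; linarith)
    rw [show Z (t - b) = fY Φ t from a1, ← (hA t a2).2, ← hall t a2]
    rfl
  have t1 : |b + ρ3 / 2 - b| < ρ3 := abs_lt.2 ⟨by linarith, by linarith⟩
  obtain ⟨ρ4, hρ4, Ω, sΩ, eΩ⟩ := hG (b + ρ3 / 2)
    (h2 (y := b + ρ3 / 2) (by rw [Real.dist_eq]; linarith)).2.1 (by linarith)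
  have m1 : ((b + ρ3 / 2 : ℝ) : ℂ) ∈ ball ((b + ρ3 / 2 : ℝ) : ℂ) ρ4 ∩ ball (b : ℂ) ρ3 :=
    ⟨mem_ball_self hρ4, mem_re.2 t1⟩
  have o1 : IsOpen (ball ((b + ρ3 / 2 : ℝ) : ℂ) ρ4 ∩ ball (b : ℂ) ρ3) :=
    isOpen_ball.inter isOpen_ball
  refine ⟨ρ3, hρ3, _, st_EXT d _ _ Ω _ ((st_SYM d _ Ω sΩ).1 _ o1 inter_subset_left) ⟨_, m1⟩
    inter_subset_right isOpen_ball (convex_ball _ _).isPreconnected dΨ ?_, eΨ⟩
  refine id_real o1 ((convex_ball _ _).inter (convex_ball _ _)).isPreconnected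
    (dΨ.mono inter_subset_right) (sΩ.df.mono inter_subset_left) m1 ?_
  filter_upwards [ev_lt t1, ev_lt (c := b + ρ3 / 2) (x := b + ρ3 / 2) (by simpa using hρ4)]
    with t a1 a2
  rw [eΨ t a1, eΩ t a2]

theorem st_PS : St_PS := by
  intro d T Φ rf hG
  have hT := rf.Tp
  obtain ⟨h0, hh, H⟩ : ∃ h0 : ℝ, 0 < h0 ∧ ∀ c ∈ Icc (0 : ℝ) T, ∃ Ψ, Sol d (ball (c : ℂ) h0) Ψ ∧
      ∀ t : ℝ, |t - c| < h0 → Ψ t = Φ t := by
    refine isCompact_Icc.induction_on (p := fun s => ∃ h0 : ℝ, 0 < h0 ∧ ∀ c ∈ s, ∃ Ψ,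
      Sol d (ball ((c : ℝ) : ℂ) h0) Ψ ∧ ∀ t : ℝ, |t - c| < h0 → Ψ t = Φ t)
      ⟨1, one_pos, fun x hx => hx.elim⟩ (fun s t hst ⟨ρ, h0, h⟩ => ⟨ρ, h0, fun x hx => h x (hst hx)⟩)
      ?_ fun x _ => ?_
    · rintro s t ⟨ρ, h0, h⟩ ⟨ρ', h0', h'⟩
      refine ⟨min ρ ρ', lt_min h0 h0', ?_⟩
      rintro x (hx | hx)
      · obtain ⟨f, hf, f0⟩ := h x hx
        exact ⟨f, (st_SYM d _ f hf).1 _ isOpen_ball (ball_subset_ball (min_le_left _ _)),
          fun t ht => f0 t (ht.trans_le (min_le_left _ _))⟩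
      · obtain ⟨f, hf, f0⟩ := h' x hx
        exact ⟨f, (st_SYM d _ f hf).1 _ isOpen_ball (ball_subset_ball (min_le_right _ _)),
          fun t ht => f0 t (ht.trans_le (min_le_right _ _))⟩
    · obtain ⟨ρ, hρ, f, hf, f0⟩ := hG x
      refine ⟨ball x (ρ / 2), mem_nhdsWithin_of_mem_nhds (ball_mem_nhds _ (half_pos hρ)), ρ / 2,
        half_pos hρ, fun c hc => ⟨f, (st_SYM d _ f hf).1 _ isOpen_ball (ball_subset_ball' ?_),
          fun t ht => f0 t ?_⟩⟩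
      · rw [Complex.dist_of_im_eq (by simp)]
        have : dist c x < ρ / 2 := hc
        simp only [Complex.ofReal_re]
        linarith
      · have : |c - x| < ρ / 2 := hc
        linarith [abs_sub_le t c x]
  have H2 : ∀ c : ℝ, ∃ Ψ, Sol d (ball (c : ℂ) h0) Ψ ∧ ∀ t : ℝ, |t - c| < h0 → Ψ t = Φ t := by
    intro c
    obtain ⟨f, hf, f0⟩ := H (c - ⌊c / T⌋ * T)
      ⟨by linarith [Int.sub_floor_div_mul_nonneg c hT], (Int.sub_floor_div_mul_lt c hT).le⟩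
    have := good_shift rf.per hf f0 ⌊c / T⌋
    rwa [sub_add_cancel] at this
  choose Ψ s e using H2
  obtain ⟨Ω, o1, o2⟩ := st_RGL univ Φ (fun _ => h0) Ψ fun c _ => ⟨(s c).df, e c⟩
  have mb : ∀ z ∈ strip h0, z ∈ ball ((z.re : ℝ) : ℂ) h0 := by
    intro z hz
    rw [mem_ball, Complex.dist_of_re_eq (by simp)]
    simpa [Real.dist_eq, strip] using hz
  have sΩ : Sol d (strip h0) Ω := R62.sol_local (str_open h0) fun z hz =>
    ⟨_, Ψ z.re, s z.re, mb z hz,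
      (o1 z.re trivial).eventuallyEq_of_mem (isOpen_ball.mem_nhds (mb z hz))⟩
  have idt : ∀ f g : ℂ → S3, DifferentiableOn ℂ f (strip h0) → DifferentiableOn ℂ g (strip h0) →
      (∀ t : ℝ, f t = g t) → EqOn f g (strip h0) := fun f g a b c =>
    id_real (str_open h0) (str_cvx h0).isPreconnected a b (str_real hh 0) (.of_forall c)
  refine ⟨h0, Ω, hh, ⟨sΩ, hT, ?_, ?_, ?_, fun t => ?_⟩, o2⟩
  · refine idt (fun τ => Ω (τ + T)) Ω (sΩ.df.comp (by fun_prop) fun τ hτ => ?_) sΩ.df fun t => ?_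
    · show |(τ + T).im| < h0
      simpa [strip] using hτ
    · have := o2 (t + T)
      push_cast at this
      rw [this, o2, rf.per]
  · refine idt (fun τ => Ω (-τ)) (fun τ => sw (Ω τ)) (sΩ.df.comp (by fun_prop) fun τ hτ => ?_)
      (str_sw.comp_differentiableOn sΩ.df) fun t => ?_
    · show |(-τ).im| < h0
      simpa [strip] using hτ
    · have := o2 (-t)
      push_cast at this
      rw [this, o2, rf.neg]
  · have cj1 : ∀ τ ∈ strip h0, conj τ ∈ strip h0 := fun τ hτ => by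
      show |(conj τ).im| < h0
      simpa [strip] using hτ
    have := idt (fun τ => cj (Ω (conj τ))) Ω (fun τ hτ =>
      (str_cjd (sΩ.df.differentiableAt ((str_open h0).mem_nhds (cj1 τ hτ)))).differentiableWithinAt)
      sΩ.df fun t => by
        rw [Complex.conj_ofReal, o2, rf.re]
    intro τ hτ
    rw [← this hτ, str_cjcj]
  · simp only [fA, fB, o2]
    exact rf.zer t

end Pool.Agent.AO
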