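import Pool.Agent.Lib.AO.Blue3
import Pool.Agent.Lib.AO.Low4
import Pool.Agent.Lib.AO.B_UPB

/-! The strip rows for chains with short steps. -/

set_option autoImplicit false

noncomputable section

namespace Pool.Agent.AO

open Set Metric Filter Topology ComplexConjugate

theorem l2_short {x y : ℂ} {η r : ℝ} (hr : 0 < r) (hη : η ≤ 1 / 4) (h : ‖y - x - r‖ ≤ η * r / 2) :
    |y.re - x.re| ≤ 2 * r := by
  have h1 := abs_le.1 ((Complex.abs_re_le_norm _).trans h)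
  simp only [Complex.sub_re, Complex.ofReal_re] at h1
  have h2 : η * r ≤ r / 4 := by nlinarith
  exact abs_le.2 ⟨by linarith [h1.1], by linarith [h1.2]⟩

theorem low_chain2 {d : Dat} {h R κ T L ε η r : ℝ} {S : Finset ℂ} {Φ : ℂ → S3}
    (hP : PSol d (strip h) T Φ) (hC : Ctx d h R κ S Φ L ε η r) (hηr : 0 < η * r)
    (hr : 0 < r) (hη : η ≤ 1 / 4)
    (hh : η * r < h) {t : ℝ} {q : ℕ} (hq : q * r ≤ L) (hT : Tube h R κ S ε η r t (2 * q)) :
    ((dbl d Φ η r)^[q] t).im = 0 ∧ Chain2 d Φ r q t ((dbl d Φ η r)^[q] t).re := by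
  have orb := hC.orb t q hq hT
  have st : ∀ k < q, ((dbl d Φ η r)^[k] t).im = 0 →
      (th d Φ η ((dbl d Φ η r)^[k] t, r)).im = 0 ∧ ((dbl d Φ η r)^[k + 1] t).im = 0 ∧
      Rel d Φ ((dbl d Φ η r)^[k] t) (th d Φ η ((dbl d Φ η r)^[k] t, r)) r ∧
      Rel d Φ ((dbl d Φ η r)^[k + 1] t) (th d Φ η ((dbl d Φ η r)^[k] t, r)) (-r) ∧
      |(th d Φ η ((dbl d Φ η r)^[k] t, r)).re - ((dbl d Φ η r)^[k] t).re| ≤ 2 * r ∧
      |((dbl d Φ η r)^[k + 1] t).re - (th d Φ η ((dbl d Φ η r)^[k] t, r)).re| ≤ 2 * r := by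
    intro k hk hk0
    rw [Function.iterate_succ_apply']
    have o := orb k hk.le
    generalize (dbl d Φ η r)^[k] t = x at hk0 o ⊢
    suffices H : Adk h R κ S x (ε * r) ∧ Adk h R κ S (x + r) (ε * r) ∧
        ∀ z : ℂ, ‖z - x - r‖ ≤ η * r / 2 →
          Adk h R κ S z (ε * r) ∧ Adk h R κ S (z + r) (ε * r) by
      obtain ⟨a1, a2, a3⟩ := H
      obtain ⟨u1, u2, u3, u4⟩ := low_step hP hC hηr hh hk0 a1 a2 a3
      have s1 := (hC.one x a1 a2).1.est
      exact ⟨u1, u2, u3, u4, l2_short hr hη s1,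
        l2_short hr hη (hC.one _ (a3 _ s1).1 (a3 _ s1).2).2.est⟩
    refine ⟨?_, ?_, fun z hz => ?_⟩
    · refine hT (2 * k) (by omega) x ?_
      push_cast
      linarith
    · refine hT (2 * k + 1) (by omega) _ ?_
      have : x + r - (t + ((2 * k + 1 : ℕ) : ℂ) * r) = x - (t + 2 * k * r) := by
        push_cast; ring
      rw [this]; linarith
    · have n : ‖z - x - r + (x - (t + 2 * k * r))‖ ≤ 2 * η * r :=
        (norm_add_le _ _).trans (by linarith)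
      constructor
      · refine hT (2 * k + 1) (by omega) _ ?_
        have : z - (t + ((2 * k + 1 : ℕ) : ℂ) * r) = z - x - r + (x - (t + 2 * k * r)) := by
          push_cast; ring
        rw [this]; exact n
      · refine hT (2 * k + 2) (by omega) _ ?_
        have : z + r - (t + ((2 * k + 2 : ℕ) : ℂ) * r) = z - x - r + (x - (t + 2 * k * r)) := by
          push_cast; ring
        rw [this]; exact n
  have re : ∀ k ≤ q, ((dbl d Φ η r)^[k] t).im = 0 := by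
    intro k
    induction k with
    | zero => intro _; simp
    | succ k ih => intro hk; exact (st k hk (ih (by omega))).2.1
  have cast : ∀ x : ℂ, x.im = 0 → ((x.re : ℝ) : ℂ) = x := fun x hx =>
    Complex.ext (by simp) (by simp [hx])
  refine ⟨re q le_rfl, fun k => ((dbl d Φ η r)^[k] t).re,
    fun k => (th d Φ η ((dbl d Φ η r)^[k] t, r)).re, by simp, rfl, fun k hk => ?_⟩
  obtain ⟨u1, u2, u3, u4, u5⟩ := st k hk (re k hk.le)
  beta_reduce
  rw [cast _ u1, cast _ u2, cast _ (re k hk.le)]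
  exact ⟨u3, u4, u5⟩

theorem st_LOW2 : St_LOW2 := by
  intro d h R κ T S D Φ x0 ε η r0 hS hP _ hH hR hε hη hηε hη4 hr0 hC
  obtain ⟨δ, hδ, hH⟩ := hH
  have hh := hS.hp
  have hT := hP.Tp
  obtain ⟨ρ, hρ, ρ1, ρ2, ρ3, ρ4, ρ5⟩ : ∃ ρ : ℝ, 0 < ρ ∧ ρ ≤ r0 ∧ ρ ≤ δ ∧ ρ ≤ 1 ∧ ρ ≤ 1 / ε ∧
      ρ ≤ h / (4 * ε) :=
    ⟨min r0 (min δ (min 1 (min (1 / ε) (h / (4 * ε))))), by positivity, min_le_left _ _,
      (min_le_right _ _).trans (min_le_left _ _),
      (min_le_right _ _).trans ((min_le_right _ _).trans (min_le_left _ _)),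
      (min_le_right _ _).trans ((min_le_right _ _).trans ((min_le_right _ _).trans
        (min_le_left _ _))),
      (min_le_right _ _).trans ((min_le_right _ _).trans ((min_le_right _ _).trans
        (min_le_right _ _)))⟩
  obtain ⟨q0, hq0⟩ := exists_nat_gt (T / ρ + 1)
  refine ⟨q0, fun q hq => ?_⟩
  have hq' : T / ρ + 1 < q := hq0.trans_le (by exact_mod_cast hq)
  have hTρ : 0 < T / ρ := by positivity
  have qm : 0 < (q : ℝ) - η := by linarith
  have qp : 0 < (q : ℝ) + η := by linarith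
  have i12 : T / (q + η) ≤ T / (q - η) := div_le_div_of_nonneg_left hT.le qm (by linarith)
  have facts : ∀ r ∈ Icc (T / (q + η)) (T / (q - η)), 0 < r ∧ r < ρ ∧ T ≤ q * r + η * r ∧
      q * r ≤ T + η * r := by
    intro r hr
    have a1 : T ≤ r * (q + η) := (div_le_iff₀ qp).1 hr.1
    have a2 : r * (q - η) ≤ T := (le_div_iff₀ qm).1 hr.2
    have a3 : 0 < r := lt_of_lt_of_le (by positivity) hr.1
    have a4 : T < (q - η) * ρ := (div_lt_iff₀ hρ).1 (by linarith)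
    refine ⟨a3, ?_, by linarith, by linarith⟩
    by_contra hc
    push Not at hc
    nlinarith
  have small : ∀ r : ℝ, 0 < r → r < ρ → r ≤ 1 ∧ ε * r ≤ 1 ∧ 4 * (ε * r) ≤ h ∧ η * r ≤ 1 ∧
      η * r < h ∧ 0 < h - 2 * ε * r := by
    intro r a b
    have c1 : r * ε ≤ 1 := (le_div_iff₀ hε).1 (b.le.trans ρ4)
    have c2 : r * (4 * ε) ≤ h := (le_div_iff₀ (by positivity)).1 (b.le.trans ρ5)
    have c3 : r ≤ 1 := b.le.trans ρ3
    have c4 : η * r ≤ ε * r / 4 := by nlinarith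
    have c5 : 0 < ε * r := mul_pos hε a
    exact ⟨c3, by linarith, by linarith, by linarith, by linarith, by linarith⟩
  have tube : ∀ r ∈ Icc (T / (q + η)) (T / (q - η)), ∀ τ : ℂ, |τ.re - x0| < η * r →
      -(η * r) < τ.im → τ.im < h - 2 * ε * r → Tube h R κ S ε η r τ (2 * q) := by
    intro r hr τ h1 h2 h3
    obtain ⟨a, b, -, c⟩ := facts r hr
    obtain ⟨s1, s2, s3, -, -, -⟩ := small r a b
    exact low_tube hS.kp hS.im hR hε hη hηε hη4 a s1 s2 s3 c h1 h2 h3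
  have tubeR : ∀ r ∈ Icc (T / (q + η)) (T / (q - η)), ∀ t : ℝ, |t - x0| < η * r →
      Tube h R κ S ε η r t (2 * q) := by
    intro r hr t h1
    obtain ⟨a, b, -, -⟩ := facts r hr
    obtain ⟨-, -, -, -, -, s6⟩ := small r a b
    exact tube r hr t (by simpa using h1) (by simpa using mul_pos hη a) (by simpa using s6)
  have ctx : ∀ r ∈ Icc (T / (q + η)) (T / (q - η)),
      Ctx d h R κ S Φ (T + 1) ε η r ∧ q * r ≤ T + 1 := by
    intro r hr
    obtain ⟨a, b, -, c⟩ := facts r hr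
    obtain ⟨-, -, -, s4, -, -⟩ := small r a b
    exact ⟨hC r a (b.trans_le ρ1), by linarith⟩
  have x0in : ∀ r ∈ Icc (T / (q + η)) (T / (q - η)), |x0 - x0| < η * r := by
    intro r hr
    simpa using mul_pos hη (facts r hr).1
  have cont : ContinuousOn (fun r : ℝ => ((dbl d Φ η r)^[q] x0).re)
      (Icc (T / (q + η)) (T / (q - η))) := by
    intro r hr
    have c1 := ((ctx r hr).1.dif x0 q (ctx r hr).2 (tubeR r hr x0 (x0in r hr))).continuousAt
    have c2 : ContinuousAt (fun s : ℝ => ((x0 : ℂ), (s : ℂ))) r := by fun_prop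
    have c3 := ContinuousAt.comp (f := fun s : ℝ => ((x0 : ℂ), (s : ℂ))) c1 c2
    exact (Complex.continuous_re.continuousAt.comp c3).continuousWithinAt
  have est : ∀ r ∈ Icc (T / (q + η)) (T / (q - η)),
      |((dbl d Φ η r)^[q] x0).re - (x0 + 2 * (q * r))| ≤ η * r := by
    intro r hr
    have o := (ctx r hr).1.orb x0 q (ctx r hr).2 (tubeR r hr x0 (x0in r hr)) q le_rfl
    have := (Complex.abs_re_le_norm _).trans o
    simpa [mul_assoc] using this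
  have mid : x0 + 2 * T ∈ Icc ((fun r : ℝ => ((dbl d Φ η r)^[q] x0).re) (T / (q + η)))
      ((fun r : ℝ => ((dbl d Φ η r)^[q] x0).re) (T / (q - η))) := by
    have m1 := left_mem_Icc.2 i12
    have m2 := right_mem_Icc.2 i12
    have e1 : q * (T / (q + η)) + η * (T / (q + η)) = T := by field_simp
    have e2 : q * (T / (q - η)) - η * (T / (q - η)) = T := by field_simp
    have p1 := mul_pos hη (facts _ m1).1
    have p2 := mul_pos hη (facts _ m2).1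
    have o1 := (abs_le.1 (est _ m1)).2
    have o2 := (abs_le.1 (est _ m2)).1
    constructor
    · beta_reduce; linarith
    · beta_reduce; linarith
  obtain ⟨r, hr, hrv⟩ := intermediate_value_Icc i12 cont mid
  beta_reduce at hrv
  obtain ⟨a, b, c, e⟩ := facts r hr
  obtain ⟨s1, s2, s3, s4, s5, s6⟩ := small r a b
  have hηr := mul_pos hη a
  have ch := fun (t : ℝ) (ht : |t - x0| < η * r) =>
    low_chain2 hP (ctx r hr).1 hηr a hη4 s5 (ctx r hr).2 (tubeR r hr t ht)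
  have per : SameL Φ ((x0 + 2 * T : ℝ) : ℂ) x0 := by
    have u1 := hP.per x0 (by show |(x0 : ℂ).im| < h; simpa using hh)
    have u2 := hP.per (x0 + T) (by show |((x0 : ℂ) + T).im| < h; simpa using hh)
    have u3 : ((x0 + 2 * T : ℝ) : ℂ) = x0 + T + T := by push_cast; ring
    simp only [SameL, fB, fY, u3, u2, u1, and_self]
  have all := hH r a (b.trans_le ρ2) q ⟨x0, x0 + 2 * T, hrv ▸ (ch x0 (x0in r hr)).2, per⟩
  refine ⟨r, a, b.trans_le ρ1, abs_le.2 ⟨by linarith, by linarith⟩, fun τ h1 h2 h3 =>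
    ⟨tube r hr τ h1 h2 h3, ?_⟩⟩
  have idn := low_ident (F := fun z => (Φ ((dbl d Φ η r)^[q] z)).2) (G := fun z => (Φ z).2)
    (x0 := x0) hηr s6 ?_ ?_ τ h1 h2 h3
  · exact ⟨congrArg Prod.fst idn, congrArg Prod.snd idn⟩
  · intro z z1 z2 z3
    have tb := tube r hr z z1 z2 z3
    have d1 := (ctx r hr).1.dif z q (ctx r hr).2 tb
    have d2 : DifferentiableAt ℂ (fun s : ℂ => (s, (r : ℂ))) z := by fun_prop
    have d3 : DifferentiableAt ℂ (fun s : ℂ => (dbl d Φ η r)^[q] s) z :=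
      DifferentiableAt.comp (f := fun s : ℂ => (s, (r : ℂ))) z d1 d2
    have o := (ctx r hr).1.orb z q (ctx r hr).2 tb q le_rfl
    have d4 : DifferentiableAt ℂ Φ ((dbl d Φ η r)^[q] z) :=
      low_memD hS (tb (2 * q) le_rfl _ (by push_cast; linarith))
    have d5 : DifferentiableAt ℂ Φ z := low_memD hS (tb 0 (by omega) z (by simp; positivity))
    exact ⟨(d4.comp z d3).snd, d5.snd⟩
  · intro t ht
    obtain ⟨u1, u2⟩ := ch t ht
    have u3 := all t _ u2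
    have u4 : ((((dbl d Φ η r)^[q] t).re : ℝ) : ℂ) = (dbl d Φ η r)^[q] t :=
      Complex.ext (by simp) (by simp [u1])
    rw [u4] at u3
    exact Prod.ext u3.1 u3.2

theorem st_UPB2 (hCTX : St_CTX) (hLOW : St_LOW2) (hDIR : St_DIR) (hUPA : St_UPA) (hCLS : St_CLS)
    (hS0 : St_SOLVE0) : St_UPB2 := by
  intro d h R κ T S D Φ b σ hS hP hD hH hb hR hb0 hb1 hb2 ht hO hpx
  have hp := hS.hp
  have hκ := hS.kp
  have hκ1 := hS.k1
  have hT := hP.Tp
  have ht1 := UPB_shift hP.per ht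
  have ht2 : Tendsto Φ (𝓝[strip h] (b + 2 * T)) (𝓝 σ) := by
    have := UPB_shift hP.per ht1
    rwa [add_assoc, ← two_mul] at this
  obtain ⟨σ0, hw, hx0⟩ := hS.xp b hb0
  obtain ⟨σ1, -, hx1⟩ := hS.xp _ hb1
  obtain ⟨σ2, -, hx2⟩ := hS.xp _ hb2
  obtain rfl : σ = σ0 := (UPB_lim hp hb hD ht hx0).symm
  obtain rfl : σ = σ1 := (UPB_lim hp (by simp [hb]) hD ht1 hx1).symm
  obtain rfl : σ = σ2 := (UPB_lim hp (by simp [hb]) hD ht2 hx2).symm
  obtain ⟨W, hW⟩ : ∃ W : ℝ, W = ‖σ.1 - σ.2.1‖ := ⟨_, rfl⟩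
  have hW0 : 0 < W := by rw [hW]; exact norm_pos_iff.2 (sub_ne_zero.2 hw)
  have hWle : W ≤ ‖σ.1‖ + ‖σ.2.1‖ := by rw [hW]; exact norm_sub_le _ _
  obtain ⟨c, hc, hc1, hdir⟩ := hDIR (S.image fun b' => (b'.re - b.re) / T)
  obtain ⟨ν, hν⟩ : ∃ ν : ℝ, ν = κ * c / 100 := ⟨_, rfl⟩
  have hκc : κ * c ≤ c := by nlinarith
  have hν0 : 0 < ν := by rw [hν]; positivity
  have hνc : ν ≤ c / 100 := by rw [hν]; linarith
  obtain ⟨ε, hε⟩ : ∃ ε : ℝ, ε = ν / 2000 := ⟨_, rfl⟩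
  have hε0 : 0 < ε := by rw [hε]; positivity
  obtain ⟨η, hη⟩ : ∃ η : ℝ, η = κ * ε / 4 := ⟨_, rfl⟩
  have hη0 : 0 < η := by rw [hη]; positivity
  have hηε : η ≤ ε / 4 := by rw [hη]; nlinarith
  have hη1 : η ≤ 1 / 4 := by linarith
  have hder : HasDerivAt (fun s => d.p (s, σ.2.2)) (d.px (σ.1, σ.2.2)) σ.1 := by
    have := d.dp (hasDerivAt_id' σ.1) (hasDerivAt_const σ.1 σ.2.2)
    simpa using this
  obtain ⟨e, δ, he0, he1, hδ, ξ, hξ, hξ'⟩ := hS0 ℂ d.p σ.1 _ σ.2.2 d.cp.contDiffAt hO.1 hder hpx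
    (η * W / 100) (by positivity)
  obtain ⟨δ0, hδ0, hX0⟩ := hx0 (e / 2) (by linarith)
  obtain ⟨δ1, hδ1, hX1⟩ := hx1 (e / 2) (by linarith)
  obtain ⟨δ2, hδ2, hX2⟩ := hx2 (e / 2) (by linarith)
  obtain ⟨r1, hr1, hC⟩ := hCTX d h R κ S D Φ hS (T + 1) ε η hε0 hη0 hη.le hη1
  obtain ⟨N, hN⟩ : ∃ N : ℝ, N = ‖σ.1‖ + ‖σ.2.1‖ + e := ⟨_, rfl⟩
  have hN0 : 0 < N := by rw [hN]; positivity
  obtain ⟨r0, hr0, a1, a2, a3, a4, a5, a6, a7⟩ : ∃ r0 : ℝ, 0 < r0 ∧ r0 ≤ r1 ∧ r0 ≤ 1 ∧ r0 ≤ h ∧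
      r0 ≤ δ0 / 5 ∧ r0 ≤ δ1 / 5 ∧ r0 ≤ δ2 / 5 ∧ r0 ≤ δ / (100 * N) := by
    refine ⟨min (min (min r1 1) (min h (δ0 / 5))) (min (min (δ1 / 5) (δ2 / 5)) (δ / (100 * N))),
      by positivity, ?_, ?_, ?_, ?_, ?_, ?_, ?_⟩ <;> simp
  obtain ⟨q0, hq0⟩ := hLOW d h R κ T S D Φ b.re ε η r0 hS hP hD hH
    (by linarith [Complex.abs_re_le_norm b]) hε0 hη0 hηε hη1 hr0
    fun r h1 h2 => hC r h1 (h2.trans_le a1)
  obtain ⟨m, hm, hdm⟩ := hdir (q0 + 2)
  obtain ⟨r, hr, hrr, hq, hlow⟩ := hq0 (2 * m + 1) (by omega)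
  have hq' : |(2 * m + 1) * r - T| ≤ η * r := by exact_mod_cast hq
  have hrδ : 100 * r * N < δ := by
    have := hrr.trans_le a7
    rw [lt_div_iff₀ (by positivity)] at this
    linarith
  have hadm : ∀ j : ℕ, 1 ≤ j → j ≤ 4 * m + 1 → j ≠ 2 * m + 1 → ∀ z : ℂ,
      ‖z - (b + j * r)‖ ≤ 3 * ν * r → Adm h R κ S z (c * r / 4) := by
    intro j j1 j2 j3 z hz
    exact UPB_adm hp hb hR hκ hκ1 hc hc1 hν hr (by linarith) (by linarith) hη1 hq' j2
      (UPB_sep hT hc hc1 hr hη0 (by linarith) hq'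
        (fun b' hb' => hdm _ (Finset.mem_image_of_mem _ hb')) j1 j2 j3) hz
  have hball : ∀ j : ℕ, 1 ≤ j → j ≤ 4 * m + 1 → j ≠ 2 * m + 1 →
      ball (b + j * r) (8 * ν * r) ⊆ D := by
    intro j j1 j2 j3
    refine (ball_subset_ball ?_).trans (hS.adm _ _ (hadm j j1 j2 j3 _ ?_))
    · have : 0 < κ * c * r := by positivity
      rw [hν]
      nlinarith
    · rw [sub_self, norm_zero]
      positivity
  have hAξ : ∀ (b' : ℂ) (δ' : ℝ), Xp D Φ b' σ (e / 2) δ' → 5 * r ≤ δ' → ∀ τ ∈ D,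
      ‖τ - b'‖ < 5 * r → fA Φ τ = ξ (fY Φ τ) := by
    intro b' δ' hX h5 τ hτ hl
    have h1 := (hX τ hτ (hl.trans_le h5)).1
    have h2 := UPB_normY hX hτ (hl.trans_le h5)
    have h3 : fY Φ τ ∈ ball σ.2.2 δ := by
      rw [mem_ball, dist_eq_norm]
      have h4 : (‖σ.1 - σ.2.1‖ + e / 2) * ‖τ - b'‖ ≤ N * (5 * r) :=
        mul_le_mul (by linarith) hl.le (norm_nonneg _) hN0.le
      have h5 : 0 < r * N := mul_pos hr hN0
      linarith
    have h4 := (hξ' _ h3).2.2 (fA Φ τ) (by rw [mem_ball, dist_eq_norm]; linarith)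
    rw [hS.sol.pA τ hτ, norm_zero, mul_zero] at h4
    have h6 : ‖ξ (fY Φ τ) - fA Φ τ‖ ≤ 0 :=
      le_of_mul_le_mul_left (by simpa using h4) (norm_pos_iff.2 hpx)
    exact (sub_eq_zero.1 (norm_le_zero_iff.1 h6)).symm
  have hξe : ∀ y ∈ ball σ.2.2 δ, ‖ξ y - σ.1‖ ≤ e := fun y hy => by
    have := (hξ' y hy).1
    rw [mem_ball, dist_eq_norm] at this
    exact this.le
  obtain ⟨Ψ, hΨ, hΨe, hΨc⟩ := hUPA d h R κ T S D Φ b σ ξ ε η ν r δ e m hS
    (hC r hr (hrr.trans_le a1)) hw hη0 hr (by linarith) (by omega) (by linarith) (by linarith)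
    he0.le (by rw [← hW]; linarith) hq'
    (fun j j1 j2 j3 z hz => ⟨by positivity, c * r / 4, by nlinarith, hadm j j1 j2 j3 z hz⟩)
    (by simpa using hball 1 le_rfl (by omega) (by omega))
    (by exact_mod_cast hball (2 * m + 2) (by omega) (by omega) (by omega))
    (UPB_mono hX0 (by linarith) (by linarith)) (UPB_mono hX1 (by linarith) (by linarith))
    (UPB_mono hX2 (by linarith) (by linarith)) hξ hξe (by rw [← hN]; exact hrδ)
    (hAξ _ _ hX1 (by linarith))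
  rw [← hW] at hΨ hΨe
  obtain ⟨τ1, hτ1⟩ : ∃ τ1 : ℂ, τ1 = b - (3 * ε * r : ℝ) * Complex.I := ⟨_, rfl⟩
  have hεr : 0 < ε * r := mul_pos hε0 hr
  have hηr : 0 < η * r := mul_pos hη0 hr
  have hηεr : η * r ≤ ε * r / 4 := by nlinarith
  have hεν : ν * r = 2000 * (ε * r) := by rw [hε]; ring
  have hνr : ν * r ≤ r / 100 := by nlinarith
  have hbτ : ‖b - τ1‖ = 3 * (ε * r) := by
    rw [hτ1, sub_sub_cancel, norm_mul, Complex.norm_I, Complex.norm_real, Real.norm_eq_abs,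
      abs_of_pos (by positivity)]
    ring
  have hre : τ1.re = b.re := by rw [hτ1]; simp
  have him : τ1.im = h - 3 * (ε * r) := by
    rw [hτ1, Complex.sub_im, Complex.mul_im, Complex.ofReal_re, Complex.ofReal_im, Complex.I_im,
      Complex.I_re, hb]
    ring
  have hO1 : ∀ τ ∈ ball τ1 (η * r), |τ.re - b.re| < η * r ∧ 0 < τ.im ∧ τ.im < h - 2 * ε * r ∧
      ‖τ - b‖ ≤ 4 * (ε * r) := by
    intro τ hτ
    rw [mem_ball, dist_eq_norm] at hτ
    have h1 := (Complex.abs_re_le_norm _).trans_lt hτ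
    have h2 := abs_lt.1 ((Complex.abs_im_le_norm _).trans_lt hτ)
    rw [Complex.sub_re, hre] at h1
    rw [Complex.sub_im, him] at h2
    have h3 : ‖τ - b‖ ≤ ‖τ - τ1‖ + ‖τ1 - b‖ := norm_sub_le_norm_sub_add_norm_sub _ _ _
    rw [norm_sub_rev τ1 b, hbτ] at h3
    exact ⟨h1, by linarith, by linarith, by linarith⟩
  have hO2 : ∀ τ ∈ ball τ1 (η * r), τ ∈ strip h := by
    intro τ hτ
    obtain ⟨-, h2, h3, -⟩ := hO1 τ hτ
    show |τ.im| < h
    rw [abs_of_pos h2]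
    linarith
  have hWr : 0 < W * (ε * r) := mul_pos hW0 hεr
  have hγ : W * ν * r / 2 = 1000 * (W * (ε * r)) := by rw [hε]; ring
  have heW : e ≤ W / 400 := by nlinarith
  have hWη : η * r * W ≤ W * (ε * r) / 4 := by nlinarith
  have hWε : W * (ε * r) ≤ r * W / 200000 := by nlinarith
  have hγδ : W * ν * r / 2 ≤ δ := by
    have h1 : r * W ≤ r * N := mul_le_mul_of_nonneg_left (by linarith) hr.le
    have h2 : 0 < r * N := mul_pos hr hN0
    linarith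
  obtain ⟨Ω, hΩ, hΩe⟩ := hCLS (fA Φ) (fB Φ) (fY Φ) ξ Ψ τ1 σ.2.2 σ.1 σ.2.1 r (η * r)
    (W * ν * r / 2) (20 * η * r * W) hr hηr (by positivity) hw
    (fun τ hτ => by
      obtain ⟨h1, h2, h3, h4⟩ := hO1 τ hτ
      have hτD := hD (hO2 τ hτ)
      have h5 : ‖τ - b‖ < 5 * r := by linarith
      have h6 : ‖τ - b‖ < δ0 := by linarith
      obtain ⟨h7, h8⟩ := hlow τ h1 (by linarith) h3
      refine ⟨hS.sol.dY τ hτD, hAξ _ _ hX0 (by linarith) τ hτD h5, ?_, ?_,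
        hΨc τ (by linarith) h7 h8⟩
      · have h9 := UPB_normY hX0 hτD h6
        rw [← hW] at h9
        have h10 : (W + e / 2) * ‖τ - b‖ ≤ (2 * W) * (4 * (ε * r)) :=
          mul_le_mul (by linarith) h4 (norm_nonneg _) (by linarith)
        linarith
      · have h9 := (hX0 τ hτD h6).2.1
        have h10 : r * ‖fB Φ τ - σ.2.1‖ ≤ r * (η * W / 100) :=
          mul_le_mul_of_nonneg_left (by linarith) hr.le
        linarith)
    (hξ.mono (ball_subset_ball hγδ))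
    (fun y hy => (hξe y (ball_subset_ball hγδ hy)).trans (by rw [← hW]; linarith))
    hΨ hΨe (by linarith) (by rw [← hW]; linarith)
  rw [← hW] at hΩ hΩe
  refine UPB_ext hP.sol.df hΩ hηr (hO2 _ (mem_ball_self hηr)) hbτ.le ?_ hΩe
  rw [lt_div_iff₀ (by positivity)]
  linarith

end Pool.Agent.AO
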