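import Pool.Agent.Lib.AO.R_RLOC
import Pool.Agent.Lib.AO.B_LINK

set_option autoImplicit false

noncomputable section

namespace Pool.Agent.AO

open Set Metric Filter Topology ComplexConjugate Pool.Agent.Lib.AO

namespace LK62

open C62 RL62

/-- a line meets the frontier of a strictly convex closed set in at most two points -/
theorem two {K : Set (ℝ × ℝ)} (hc : IsClosed K) (hs : StrictConvex ℝ K) {q v : ℝ × ℝ}
    (hq : q ∈ frontier K) {s t : ℝ} (hv : v ≠ 0) (s0 : s ≠ 0) (t0 : t ≠ 0)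
    (h1 : q + s • v ∈ frontier K) (h2 : q + t • v ∈ frontier K) : s = t := by
  have z0 : q + (0 : ℝ) • v ∈ frontier K := by simpa using hq
  have key : ∀ a b c : ℝ, a < b → b < c → q + a • v ∈ frontier K → q + b • v ∈ frontier K →
      q + c • v ∈ frontier K → False := fun a b c ab bc ha hb hc' =>
    hb.2 (mid hs hv ab bc (hc.frontier_subset ha) (hc.frontier_subset hc'))
  by_contra ne
  rcases lt_or_gt_of_ne ne with a | a <;> rcases lt_or_gt_of_ne s0 with b | b <;>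
    rcases lt_or_gt_of_ne t0 with c | c
  · exact key _ _ _ a c h1 h2 z0
  · exact key _ _ _ b c h1 z0 h2
  · linarith
  · exact key _ _ _ b a z0 h1 h2
  · exact key _ _ _ a b h2 h1 z0
  · linarith
  · exact key _ _ _ c b h2 z0 h1
  · exact key _ _ _ c a z0 h2 h1

theorem chord_eq {d : Dat} {K : Set (ℝ × ℝ)} (ov : OvZ d K) {u : ℝ × ℝ} (hu : u ≠ 0)
    {σ : frontier K → frontier K} (hσ : Chd (frontier K) u σ) (x y : frontier K) (c : ℝ)
    (e : (y : ℝ × ℝ) = x + c • u)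
    (h : c = 0 → d.py (rc x) ≠ 0 ∧ d.px (rc x) * u.1 + d.py (rc x) * u.2 = 0) : σ x = y := by
  obtain ⟨⟨t, ht⟩, h2⟩ := hσ x
  have m : (x : ℝ × ℝ) + t • u ∈ frontier K := ht ▸ (σ x).2
  refine Subtype.ext ?_
  rw [ht, e]
  by_cases c0 : c = 0
  · have t0 : t = 0 := by
      by_contra t0
      refine trv ov x.2 (Or.inr (h c0).1) (smul_ne_zero t0 hu)
        (ov.1.isClosed.frontier_subset m) ?_
      simp only [Prod.smul_fst, Prod.smul_snd, smul_eq_mul]
      push_cast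
      linear_combination (t : ℂ) * (h c0).2
    rw [c0, t0]
  · have t0 : t ≠ 0 := by
      rintro rfl
      exact c0 (h2 (Subtype.ext (by simpa using ht)) c (e ▸ y.2))
    rw [two ov.1.isClosed ov.2.1 x.2 hu t0 c0 m (e ▸ y.2)]

theorem reals {d : Dat} {T : ℝ} {Φ : ℂ → S3} (rf : RF d T Φ) (t : ℝ) :
    (((fA Φ t).re : ℝ) : ℂ) = fA Φ t ∧ (((fB Φ t).re : ℝ) : ℂ) = fB Φ t ∧
      (((fY Φ t).re : ℝ) : ℂ) = fY Φ t :=
  ⟨Complex.conj_eq_iff_re.1 (congrArg (fun σ : S3 => σ.1) (rf.re t)),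
    Complex.conj_eq_iff_re.1 (congrArg (fun σ : S3 => σ.2.1) (rf.re t)),
    Complex.conj_eq_iff_re.1 (congrArg (fun σ : S3 => σ.2.2) (rf.re t))⟩

/-- near the zeros of the width the left end is nonsingular -/
theorem near {d : Dat} {T : ℝ} {Φ : ℂ → S3} (rf : RF d T Φ) : ∃ δ : ℝ, 0 < δ ∧
    ∀ s τ : ℝ, fA Φ s = fB Φ s → |τ - s| < δ → d.py (fB Φ τ, fY Φ τ) ≠ 0 := by
  have c : Continuous fun t : ℝ => d.py (fB Φ t, fY Φ t) :=
    d.cpy.continuous.comp (rf.ct.snd.fst.prodMk rf.ct.snd.snd)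
  have loc : ∀ s : ℝ, fA Φ s = fB Φ s → ∃ δ : ℝ, 0 < δ ∧
      ∀ τ : ℝ, |τ - s| < δ → d.py (fB Φ τ, fY Φ τ) ≠ 0 := by
    intro s z
    have n0 : d.py (fB Φ s, fY Φ s) ≠ 0 := z ▸ (rf.dg s z).2
    have ev : ∀ᶠ τ : ℝ in 𝓝 s, d.py (fB Φ τ, fY Φ τ) ≠ 0 := c.continuousAt.eventually_ne n0
    obtain ⟨δ, p, h⟩ := Metric.eventually_nhds_iff.1 ev
    exact ⟨δ, p, fun τ hτ => h (by rwa [Real.dist_eq])⟩
  obtain ⟨δ1, p1, h1⟩ := loc 0 ((rf.zer 0).2 ⟨0, by simp⟩)
  obtain ⟨δ2, p2, h2⟩ := loc (T / 2) ((rf.zer _).2 ⟨1, by simp⟩)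
  have pr : Function.Periodic (fun t : ℝ => Φ t) T := fun t => by simpa using rf.per t
  refine ⟨min δ1 δ2, lt_min p1 p2, fun s τ z h => ?_⟩
  obtain ⟨k, rfl⟩ := (rf.zer s).1 z
  obtain ⟨n, hn⟩ := Int.even_or_odd' k
  have e : Φ ((τ - n * T : ℝ) : ℂ) = Φ τ := pr.sub_int_mul_eq (x := τ) n
  have key : d.py (fB Φ ((τ - n * T : ℝ) : ℂ), fY Φ ((τ - n * T : ℝ) : ℂ)) ≠ 0 := by
    rcases hn with hn | hn
    · refine h1 _ (lt_of_eq_of_lt ?_ (h.trans_le (min_le_left _ _)))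
      rw [hn]
      push_cast
      ring_nf
    · refine h2 _ (lt_of_eq_of_lt ?_ (h.trans_le (min_le_right _ _)))
      rw [hn]
      push_cast
      ring_nf
  simpa only [fB, fY, e] using key

/-- a degenerate short chord sits at a nonsingular point -/
theorem nsing {d : Dat} {T : ℝ} {Φ : ℂ → S3} (rf : RF d T Φ) : ∃ δ : ℝ, 0 < δ ∧
    ∀ τ μ : ℝ, |μ - τ| < δ → fA Φ μ = fB Φ τ → fY Φ μ = fY Φ τ →
      d.py (fB Φ τ, fY Φ τ) ≠ 0 := by
  obtain ⟨δ, p, h⟩ := near rf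
  refine ⟨δ, p, fun τ μ lt e1 e2 => ?_⟩
  have hy : ∀ t : ℝ, HasDerivAt (fun s : ℝ => (fY Φ s).re) (fA Φ t - fB Φ t).re t := fun t =>
    Complex.reCLM.hasFDerivAt.comp_hasDerivAt t (rf.dY t)
  have yc : Continuous fun s : ℝ => (fY Φ s).re :=
    continuous_iff_continuousAt.2 fun t => (hy t).continuousAt
  have zi : ∀ t : ℝ, (fA Φ t - fB Φ t).re = 0 → fA Φ t = fB Φ t := fun t z => by
    rw [← (reals rf t).1, ← (reals rf t).2.1, sub_eq_zero.1 ((Complex.sub_re _ _).symm.trans z)]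
  obtain ⟨l1, l2⟩ := abs_lt.1 lt
  rcases lt_trichotomy τ μ with c | c | c
  · obtain ⟨s, hs, z⟩ := exists_hasDerivAt_eq_zero c yc.continuousOn
      (congrArg Complex.re e2.symm) fun t _ => hy t
    exact h s τ (zi s z) (abs_lt.2 ⟨by linarith [hs.2], by linarith [hs.1]⟩)
  · subst c
    exact h τ τ e1 (by simpa using p)
  · obtain ⟨s, hs, z⟩ := exists_hasDerivAt_eq_zero c yc.continuousOn
      (congrArg Complex.re e2) fun t _ => hy t
    exact h s τ (zi s z) (abs_lt.2 ⟨by linarith [hs.2], by linarith [hs.1]⟩)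

end LK62

open LK62 in
theorem st_LINK2 : St_LINK2 := by
  rintro d K T Φ ov rf rp ⟨δ, d0, H⟩
  obtain ⟨δ1, p1, ns⟩ := nsing rf
  refine ⟨min δ (δ1 / 2), lt_min d0 (by linarith), fun r r0 r2 q => ?_⟩
  have r1 : r < δ := r2.trans_le (min_le_left _ _)
  have r3 : 2 * r < δ1 := by linarith [r2.trans_le (min_le_right _ _)]
  have u1 : ((1, 0) : ℝ × ℝ) + r • ((0, 1) : ℝ × ℝ) ≠ 0 := fun e => by
    simpa using congrArg Prod.fst e
  have u2 : ((1, 0) : ℝ × ℝ) - r • ((0, 1) : ℝ × ℝ) ≠ 0 := fun e => by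
    simpa using congrArg Prod.fst e
  obtain ⟨σ₁, s1⟩ := K62.ex_chd (frontier K) u1
  obtain ⟨σ₂, s2⟩ := K62.ex_chd (frontier K) u2
  let LA : ℝ → frontier K := fun t => ⟨_, (rp.1 t).1⟩
  let LB : ℝ → frontier K := fun t => ⟨_, (rp.1 t).2⟩
  have ca : ∀ t : ℝ, rc (LA t) = (fA Φ t, fY Φ t) := fun t =>
    Prod.ext (reals rf t).1 (reals rf t).2.2
  have cb : ∀ t : ℝ, rc (LB t) = (fB Φ t, fY Φ t) := fun t =>
    Prod.ext (reals rf t).2.1 (reals rf t).2.2
  have one : ∀ τ μ : ℝ, Rel d Φ τ μ r → |μ - τ| ≤ 2 * r → σ₁ (LB τ) = LA μ := by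
    rintro τ μ ⟨e1, e2⟩ sh
    refine chord_eq ov u1 s1 _ _ ((fA Φ μ).re - (fB Φ τ).re) (Prod.ext ?_ ?_) fun c0 => ?_
    · simp [LA, LB]
    · have := congrArg Complex.re e1
      simp only [Complex.sub_re, Complex.re_ofReal_mul] at this
      simp only [LA, LB, Prod.snd_add, Prod.smul_snd, smul_eq_mul]
      linear_combination this
    · have e3 : fA Φ μ = fB Φ τ := by
        rw [← (reals rf μ).1, ← (reals rf τ).2.1, sub_eq_zero.1 c0]
      have e4 : fY Φ μ = fY Φ τ := by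
        rw [e3] at e1
        linear_combination e1
      have := e2 e3
      rw [cb]
      refine ⟨ns τ μ (sh.trans_lt r3) e3 e4, ?_⟩
      simp only [Prod.fst_add, Prod.snd_add, Prod.smul_fst, Prod.smul_snd, smul_eq_mul]
      push_cast
      linear_combination this
  have two : ∀ τ μ : ℝ, Rel d Φ τ μ (-r) → |τ - μ| ≤ 2 * r → σ₂ (LA μ) = LB τ := by
    rintro τ μ ⟨e1, e2⟩ sh
    refine chord_eq ov u2 s2 _ _ ((fB Φ τ).re - (fA Φ μ).re) (Prod.ext ?_ ?_) fun c0 => ?_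
    · simp [LA, LB]
    · have := congrArg Complex.re e1
      simp only [Complex.sub_re, neg_mul, Complex.neg_re, Complex.re_ofReal_mul] at this
      simp only [LA, LB, Prod.snd_add, Prod.snd_sub, Prod.smul_snd, smul_eq_mul]
      linear_combination -this
    · have e3 : fA Φ μ = fB Φ τ := by
        rw [← (reals rf μ).1, ← (reals rf τ).2.1, sub_eq_zero.1 c0]
      have e4 : fY Φ μ = fY Φ τ := by
        rw [e3] at e1
        linear_combination e1
      have := e2 e3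
      rw [ca, e3, e4]
      refine ⟨ns τ μ (by rw [abs_sub_comm]; exact sh.trans_lt r3) e3 e4, ?_⟩
      simp only [Prod.fst_sub, Prod.snd_sub, Prod.smul_fst, Prod.smul_snd, smul_eq_mul]
      push_cast
      linear_combination this
  have ch : ∀ t t' : ℝ, Chain2 d Φ r q t t' → (σ₂ ∘ σ₁)^[q] (LB t) = LB t' := by
    rintro t t' ⟨τ, μ, e0, e1, hk⟩
    have : ∀ k ≤ q, (σ₂ ∘ σ₁)^[k] (LB t) = LB (τ k) := by
      intro k
      induction k with
      | zero => intro _; simp [e0]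
      | succ k ih =>
        intro hk'
        obtain ⟨k1, k2, k3, k4⟩ := hk k (by omega)
        rw [Function.iterate_succ_apply', ih (by omega), Function.comp_apply,
          one _ _ k1 k3, two _ _ k2 k4]
    rw [this q le_rfl, e1]
  have same : ∀ t t' : ℝ, SameL Φ t' t ↔ LB t' = LB t := by
    intro t t'
    constructor
    · rintro ⟨a, b⟩
      exact Subtype.ext (Prod.ext (congrArg Complex.re a) (congrArg Complex.re b))
    · intro e
      have := cb t'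
      rw [e, cb] at this
      exact ⟨(congrArg Prod.fst this).symm, (congrArg Prod.snd this).symm⟩
  rintro ⟨t0, t0', c0, sm⟩ t t' c
  have fix := H r r0 r1 σ₁ σ₂ s1 s2 q (LB t0) (by rw [ch _ _ c0, (same _ _).1 sm]) (LB t)
  rw [ch _ _ c] at fix
  exact (same _ _).2 fix

end Pool.Agent.AO
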