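import Pool.Agent.Lib.AO.R_L2

/-! Closed real orbits across the exceptional times. -/

set_option autoImplicit false

noncomputable section

namespace Pool.Agent.AO

open Set Metric Filter Topology ComplexConjugate

namespace Two

theorem lowr_conj {d : Dat} {D : Set ℂ} {Φ : ℂ → S3}
    (hc : ∀ τ ∈ D, conj τ ∈ D ∧ Φ (conj τ) = cj (Φ τ)) {τ μ : ℂ}
    {r : ℂ} (hr : conj r = r) (hτ : τ ∈ D) (hμ : μ ∈ D) (hR : Rel d Φ τ μ r) :
    Rel d Φ (conj τ) (conj μ) r := by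
  obtain ⟨h1, h2⟩ := hR
  have a := (hc τ hτ).2
  have b := (hc μ hμ).2
  simp only [Rel, fA, fB, fY, a, b, cj] at h1 h2 ⊢
  refine ⟨?_, fun e => ?_⟩
  · have := congrArg conj h1
    simpa [hr] using this
  · have e' : (Φ μ).1 = (Φ τ).2.1 := by
      have := congrArg conj e
      simpa using this
    have := congrArg conj (h2 e')
    rw [d.jpx, d.jpy]
    simpa [hr] using this

theorem lowr_mem {d : Dat} {h R κ a : ℝ} {S : Finset ℂ} {D : Set ℂ} {Φ : ℂ → S3}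
    (hS : Sec d h R κ S D Φ) {z : ℂ} (hz : Adk h R κ S z a) : z ∈ D := by
  obtain ⟨-, e, -, he⟩ := hz
  exact hS.adm z e he (mem_ball_self (mul_pos hS.kp he.2.2.2.1))

theorem lowr_step {d : Dat} {h R κ L ε η r : ℝ} {S : Finset ℂ} {D : Set ℂ} {Φ : ℂ → S3}
    (hS : Sec d h R κ S D Φ) (hc : ∀ τ ∈ D, conj τ ∈ D ∧ Φ (conj τ) = cj (Φ τ))
    (hC : Ctx d h R κ S Φ L ε η r) (hηr : 0 < η * r) (hr : 0 < r) (hη : η ≤ κ * ε / 4)
    {τ : ℂ} (hτ : τ.im = 0)
    (a1 : Adk h R κ S τ (ε * r)) (a2 : Adk h R κ S (τ + r) (ε * r))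
    (a3 : ∀ z : ℂ, ‖z - τ - r‖ ≤ η * r / 2 →
      Adk h R κ S z (ε * r) ∧ Adk h R κ S (z + r) (ε * r)) :
    (th d Φ η (τ, r)).im = 0 ∧ (dbl d Φ η r τ).im = 0 ∧ Rel d Φ τ (th d Φ η (τ, r)) r ∧
      Rel d Φ (dbl d Φ η r τ) (th d Φ η (τ, r)) (-r) := by
  have s1 := (hC.one τ a1 a2).1
  have key : ∀ x y : ℂ, x.im = 0 → ‖y - x - r‖ ≤ η * r / 2 → Adk h R κ S (x + r) (ε * r) →
      y ∈ D ∧ conj x = x ∧ conj y ∈ ball (x + r) (η * r) := by
    intro x y hx hy ha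
    have cx : conj x = x := Complex.conj_eq_iff_im.2 hx
    refine ⟨?_, cx, ?_⟩
    · obtain ⟨-, e, e1, e2⟩ := ha
      refine hS.adm _ e e2 ?_
      rw [mem_ball, dist_eq_norm, ← sub_sub]
      have h1 : η * r ≤ κ * ε / 4 * r := mul_le_mul_of_nonneg_right hη hr.le
      have h2 : κ * (ε * r) ≤ κ * e := mul_le_mul_of_nonneg_left e1 hS.kp.le
      linarith
    · rw [mem_ball, dist_eq_norm]
      have : conj y - (x + r) = conj (y - x - r) := by
        simp only [map_sub, cx, Complex.conj_ofReal]; ring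
      rw [this, Complex.norm_conj]
      linarith
  obtain ⟨k2, k3, k4⟩ := key τ _ hτ s1.est a2
  have m1 : (th d Φ η (τ, r)).im = 0 := by
    have := lowr_conj hc (Complex.conj_ofReal r) (lowr_mem hS a1) k2 s1.rel
    rw [k3] at this
    exact Complex.conj_eq_iff_im.1 (s1.uni _ k4 this)
  obtain ⟨b1, b2⟩ := a3 _ s1.est
  have s2 := (hC.one _ b1 b2).2
  obtain ⟨l2, l3, l4⟩ := key _ _ m1 s2.est b2
  have r2 : Rel d Φ (dbl d Φ η r τ) (th d Φ η (τ, r)) (-r) := (rel_flip d Φ _ _ _).1 s2.rel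
  refine ⟨m1, ?_, s1.rel, r2⟩
  have := lowr_conj hc (r := -(r : ℂ)) (by simp) l2 k2 r2
  rw [l3] at this
  exact Complex.conj_eq_iff_im.1 (s2.uni _ l4 ((rel_flip d Φ _ _ _).2 this))

theorem lowr_chain {d : Dat} {h R κ L ε η r : ℝ} {S : Finset ℂ} {D : Set ℂ} {Φ : ℂ → S3}
    (hS : Sec d h R κ S D Φ) (hc : ∀ τ ∈ D, conj τ ∈ D ∧ Φ (conj τ) = cj (Φ τ))
    (hC : Ctx d h R κ S Φ L ε η r) (hηr : 0 < η * r)
    (hr : 0 < r) (hη : η ≤ 1 / 4)
    (hh : η ≤ κ * ε / 4) {t : ℝ} {q : ℕ} (hq : q * r ≤ L) (hT : Tube h R κ S ε η r t (2 * q)) :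
    ((dbl d Φ η r)^[q] t).im = 0 ∧ Chain2 d Φ r q t ((dbl d Φ η r)^[q] t).re := by
  have orb := hC.orb t q hq hT
  have st : ∀ k < q, ((dbl d Φ η r)^[k] t).im = 0 →
      (th d Φ η ((dbl d Φ η r)^[k] t, r)).im = 0 ∧ ((dbl d Φ η r)^[k + 1] t).im = 0 ∧
      Rel d Φ ((dbl d Φ η r)^[k] t) (th d Φ η ((dbl d Φ η r)^[k] t, r)) r ∧
      Rel d Φ ((dbl d Φ η r)^[k + 1] t) (th d Φ η ((dbl d Φ η r)^[k] t, r)) (-r) ∧
      |(th d Φ η ((dbl d Φ η r)^[k] t, r)).re - ((dbl d Φ η r)^[k] t).re| ≤ 2 * r ∧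
      |((dbl d Φ η r)^[k + 1] t).re - (th d Φ η ((dbl d Φ η r)^[k] t, r)).re| ≤ 2 * r := by
    intro k hk hk0
    rw [Function.iterate_succ_apply']
    have o := orb k hk.le
    generalize (dbl d Φ η r)^[k] t = x at hk0 o ⊢
    suffices H : Adk h R κ S x (ε * r) ∧ Adk h R κ S (x + r) (ε * r) ∧
        ∀ z : ℂ, ‖z - x - r‖ ≤ η * r / 2 →
          Adk h R κ S z (ε * r) ∧ Adk h R κ S (z + r) (ε * r) by
      obtain ⟨a1, a2, a3⟩ := H
      obtain ⟨u1, u2, u3, u4⟩ := lowr_step hS hc hC hηr hr hh hk0 a1 a2 a3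
      have s1 := (hC.one x a1 a2).1.est
      exact ⟨u1, u2, u3, u4, l2_short hr hη s1,
        l2_short hr hη (hC.one _ (a3 _ s1).1 (a3 _ s1).2).2.est⟩
    refine ⟨?_, ?_, fun z hz => ?_⟩
    · refine hT (2 * k) (by omega) x ?_
      push_cast
      linarith
    · refine hT (2 * k + 1) (by omega) _ ?_
      have : x + r - (t + ((2 * k + 1 : ℕ) : ℂ) * r) = x - (t + 2 * k * r) := by
        push_cast; ring
      rw [this]; linarith
    · have n : ‖z - x - r + (x - (t + 2 * k * r))‖ ≤ 2 * η * r :=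
        (norm_add_le _ _).trans (by linarith)
      constructor
      · refine hT (2 * k + 1) (by omega) _ ?_
        have : z - (t + ((2 * k + 1 : ℕ) : ℂ) * r) = z - x - r + (x - (t + 2 * k * r)) := by
          push_cast; ring
        rw [this]; exact n
      · refine hT (2 * k + 2) (by omega) _ ?_
        have : z + r - (t + ((2 * k + 2 : ℕ) : ℂ) * r) = z - x - r + (x - (t + 2 * k * r)) := by
          push_cast; ring
        rw [this]; exact n
  have re : ∀ k ≤ q, ((dbl d Φ η r)^[k] t).im = 0 := by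
    intro k
    induction k with
    | zero => intro _; simp
    | succ k ih => intro hk; exact (st k hk (ih (by omega))).2.1
  have cast : ∀ x : ℂ, x.im = 0 → ((x.re : ℝ) : ℂ) = x := fun x hx =>
    Complex.ext (by simp) (by simp [hx])
  refine ⟨re q le_rfl, fun k => ((dbl d Φ η r)^[k] t).re,
    fun k => (th d Φ η ((dbl d Φ η r)^[k] t, r)).re, by simp, rfl, fun k hk => ?_⟩
  obtain ⟨u1, u2, u3, u4, u5⟩ := st k hk (re k hk.le)
  beta_reduce
  rw [cast _ u1, cast _ u2, cast _ (re k hk.le)]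
  exact ⟨u3, u4, u5⟩

end Two

open Two in
theorem st_LOWR : St_LOWR := by
  intro d R κ T S D Φ x0 s ε η r0 hS hP hc hH hε hη hηε hη4 hr0 hC
  obtain ⟨δ, hδ, hH⟩ := hH
  have hT := hP.Tp
  obtain ⟨ρ, hρ, ρ1, ρ2, ρ3⟩ : ∃ ρ : ℝ, 0 < ρ ∧ ρ ≤ r0 ∧ ρ ≤ δ ∧ ρ ≤ 1 :=
    ⟨min r0 (min δ 1), by positivity, min_le_left _ _,
      (min_le_right _ _).trans (min_le_left _ _), (min_le_right _ _).trans (min_le_right _ _)⟩
  obtain ⟨q0, hq0⟩ := exists_nat_gt (T / ρ + 1)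
  refine ⟨q0, fun q hq tube0 => ?_⟩
  have hq' : T / ρ + 1 < q := hq0.trans_le (by exact_mod_cast hq)
  have hTρ : 0 < T / ρ := by positivity
  have qm : 0 < (q : ℝ) - η := by linarith
  have qp : 0 < (q : ℝ) + η := by linarith
  have i12 : T / (q + η) ≤ T / (q - η) := div_le_div_of_nonneg_left hT.le qm (by linarith)
  have facts : ∀ r ∈ Icc (T / (q + η)) (T / (q - η)), 0 < r ∧ r < ρ ∧ T ≤ q * r + η * r ∧
      q * r ≤ T + η * r := by
    intro r hr
    have a1 : T ≤ r * (q + η) := (div_le_iff₀ qp).1 hr.1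
    have a2 : r * (q - η) ≤ T := (le_div_iff₀ qm).1 hr.2
    have a3 : 0 < r := lt_of_lt_of_le (by positivity) hr.1
    have a4 : T < (q - η) * ρ := (div_lt_iff₀ hρ).1 (by linarith)
    refine ⟨a3, ?_, by linarith, by linarith⟩
    by_contra hc
    push Not at hc
    nlinarith
  have tube : ∀ r ∈ Icc (T / (q + η)) (T / (q - η)),
      Two.Tube 0 R κ S ε η r ((x0 + s * r : ℝ) : ℂ) (2 * q) := by
    intro r hr
    obtain ⟨a, b, c, e⟩ := facts r hr
    exact tube0 r a (b.trans_le ρ1) (abs_le.2 ⟨by linarith, by linarith⟩)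
  have ctx : ∀ r ∈ Icc (T / (q + η)) (T / (q - η)),
      Two.Ctx d 0 R κ S Φ (T + 1) ε η r ∧ q * r ≤ T + 1 := by
    intro r hr
    obtain ⟨a, b, -, c⟩ := facts r hr
    have : η * r ≤ 1 := by nlinarith
    exact ⟨hC r a (b.trans_le ρ1), by linarith⟩
  have cont : ContinuousOn
      (fun r : ℝ => ((dbl d Φ η r)^[q] ((x0 + s * r : ℝ) : ℂ)).re - (x0 + s * r))
      (Icc (T / (q + η)) (T / (q - η))) := by
    intro r hr
    have c1 := ((ctx r hr).1.dif _ q (ctx r hr).2 (tube r hr)).continuousAt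
    have c2 : ContinuousAt (fun u : ℝ => (((x0 + s * u : ℝ) : ℂ), (u : ℂ))) r := by fun_prop
    have c3 := ContinuousAt.comp (f := fun u : ℝ => (((x0 + s * u : ℝ) : ℂ), (u : ℂ))) c1 c2
    exact ((Complex.continuous_re.continuousAt.comp c3).sub (by fun_prop)).continuousWithinAt
  have est : ∀ r ∈ Icc (T / (q + η)) (T / (q - η)),
      |((dbl d Φ η r)^[q] ((x0 + s * r : ℝ) : ℂ)).re - (x0 + s * r + 2 * (q * r))| ≤ η * r := by
    intro r hr
    have o := (ctx r hr).1.orb _ q (ctx r hr).2 (tube r hr) q le_rfl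
    have := (Complex.abs_re_le_norm _).trans o
    generalize x0 + s * r = x at this ⊢
    simpa [mul_assoc] using this
  have mid : 2 * T ∈ Icc
      ((fun r : ℝ => ((dbl d Φ η r)^[q] ((x0 + s * r : ℝ) : ℂ)).re - (x0 + s * r)) (T / (q + η)))
      ((fun r : ℝ => ((dbl d Φ η r)^[q] ((x0 + s * r : ℝ) : ℂ)).re - (x0 + s * r))
        (T / (q - η))) := by
    have m1 := left_mem_Icc.2 i12
    have m2 := right_mem_Icc.2 i12
    have e1 : q * (T / (q + η)) + η * (T / (q + η)) = T := by field_simp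
    have e2 : q * (T / (q - η)) - η * (T / (q - η)) = T := by field_simp
    have p1 := mul_pos hη (facts _ m1).1
    have p2 := mul_pos hη (facts _ m2).1
    have o1 := (abs_le.1 (est _ m1)).2
    have o2 := (abs_le.1 (est _ m2)).1
    constructor
    · beta_reduce; linarith
    · beta_reduce; linarith
  obtain ⟨r, hr, hrv⟩ := intermediate_value_Icc i12 cont mid
  beta_reduce at hrv
  obtain ⟨a, b, c, e⟩ := facts r hr
  have hηr := mul_pos hη a
  have ch := fun (t : ℝ) (ht : Two.Tube 0 R κ S ε η r t (2 * q)) =>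
    lowr_chain hS hc (ctx r hr).1 hηr a hη4 hηε (ctx r hr).2 ht
  have c0 := (ch _ (tube r hr)).2
  generalize x0 + s * r = x at hrv c0
  have per : SameL Φ ((x + 2 * T : ℝ) : ℂ) x := by
    have u1 := hP.per x
    have u2 := hP.per (x + T)
    have u3 : ((x + 2 * T : ℝ) : ℂ) = ((x + T : ℝ) : ℂ) + T := by push_cast; ring
    rw [Complex.ofReal_add x T, u1] at u2
    simp only [SameL, fB, fY, u3, Complex.ofReal_add x T, u2, and_self]
  have all := hH r a (b.trans_le ρ2) q ⟨x, x + 2 * T, by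
    rwa [show ((dbl d Φ η r)^[q] (x : ℂ)).re = x + 2 * T by linarith] at c0, per⟩
  refine ⟨r, a, b.trans_le ρ1, abs_le.2 ⟨by linarith, by linarith⟩, fun t ht => ?_⟩
  obtain ⟨u1, u2⟩ := ch t ht
  have u3 := all t _ u2
  have u4 : ((((dbl d Φ η r)^[q] t).re : ℝ) : ℂ) = (dbl d Φ η r)^[q] t :=
    Complex.ext (by simp) (by simp [u1])
  rwa [u4] at u3

end Pool.Agent.AO
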