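import Pool.Agent.Lib.AO.R_RF1

/-! The real flow, part two. -/

set_option autoImplicit false

noncomputable section

namespace Pool.Agent.AO

open Set Metric Filter Topology ComplexConjugate Pool.Agent.Lib.AO R23

namespace RF23

variable {d : Dat} {K : Set (ℝ × ℝ)} {lo hi : ℝ} {a β G : ℝ → ℝ}

theorem dec {T : ℝ} (hT : 0 < T) (t : ℝ) :
    ∃ u ∈ Icc 0 (T / 2), ∃ k : ℤ, t = u + k * T ∨ t = -u + k * T := by
  have m := toIcoMod_mem_Ico hT (-(T / 2)) t
  have e := toIcoMod_add_toIcoDiv_zsmul hT (-(T / 2)) t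
  rw [zsmul_eq_mul] at e
  generalize toIcoMod hT (-(T / 2)) t = u at m e
  rcases le_total 0 u with h | h
  · exact ⟨u, ⟨h, by linarith [m.2]⟩, _, Or.inl e.symm⟩
  · exact ⟨-u, ⟨by linarith, by linarith [m.1]⟩, _, Or.inr (by rw [neg_neg]; exact e.symm)⟩

theorem red {T : ℝ} (hT : 0 < T) {P : ℝ → Prop} (h0 : ∀ u ∈ Icc 0 (T / 2), P u)
    (hn : ∀ u, P u → P (-u)) (hs : ∀ u (k : ℤ), P u → P (u + k * T)) (t : ℝ) : P t := by
  obtain ⟨u, hu, k, e | e⟩ := dec hT t <;> rw [e]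
  · exact hs _ _ (h0 u hu)
  · exact hs _ _ (hn _ (h0 u hu))

theorem ext_per {T : ℝ} (hT : 0 < T) (φ : ℝ → S3) (h0 : sw (φ 0) = φ 0)
    (h1 : sw (φ (T / 2)) = φ (T / 2)) : ∃ Φ : ℂ → S3, (∀ t : ℝ, Φ (t + T) = Φ t) ∧
      (∀ t : ℝ, Φ (-t) = sw (Φ t)) ∧ ∀ u ∈ Icc 0 (T / 2), Φ (u : ℝ) = φ u := by
  obtain ⟨ψ, hψ⟩ : ∃ ψ : ℝ → S3, ψ = fun u => if 0 ≤ u then φ u else sw (φ (-u)) := ⟨_, rfl⟩
  have p1 : ∀ u, 0 ≤ u → ψ u = φ u := fun u hu => by rw [hψ]; exact if_pos hu
  have p2 : ∀ u, ψ (-u) = sw (ψ u) := fun u => by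
    rcases lt_trichotomy u 0 with h | h | h
    · rw [p1 _ (by linarith), hψ]
      simp only [if_neg h.not_ge, str_swsw]
    · rw [h, neg_zero, p1 _ le_rfl, h0]
    · rw [p1 _ h.le, hψ]
      simp only [if_neg (neg_lt_zero.2 h).not_ge, neg_neg]
  have val : ∀ u ∈ Icc (-(T / 2)) (T / 2), ∀ k : ℤ,
      ψ (toIcoMod hT (-(T / 2)) (u + k * T)) = ψ u := by
    intro u hu k
    rw [← zsmul_eq_mul, toIcoMod_add_zsmul]
    rcases hu.2.eq_or_lt with h | h
    · rw [h, show T / 2 = -(T / 2) + T by ring, show -(-(T / 2) + T) = -(T / 2) by ring,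
        toIcoMod_apply_right, p2, show -(T / 2) + T = T / 2 by ring, p1 _ (by linarith), h1]
    · rw [(toIcoMod_eq_self hT).2 ⟨hu.1, by linarith⟩]
  refine ⟨fun τ => ψ (toIcoMod hT (-(T / 2)) τ.re), fun t => ?_, fun t => ?_, fun u hu => ?_⟩
  · simp only [Complex.add_re, Complex.ofReal_re, toIcoMod_add_right]
  · have m := toIcoMod_mem_Ico hT (-(T / 2)) t
    have e := toIcoMod_add_toIcoDiv_zsmul hT (-(T / 2)) t
    rw [zsmul_eq_mul] at e
    simp only [Complex.neg_re, Complex.ofReal_re]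
    rw [← p2, ← val (-toIcoMod hT (-(T / 2)) t) ⟨by linarith [m.2], by linarith [m.1]⟩
      (-toIcoDiv hT (-(T / 2)) t)]
    congr 2
    push_cast
    linarith
  · have := val u ⟨by linarith [hu.1], hu.2⟩ 0
    rw [Int.cast_zero, zero_mul, add_zero, p1 u hu.1] at this
    exact this

theorem good_of {Φ Ψ : ℂ → S3} {c ρ : ℝ} (s : Sol d (ball 0 ρ) Ψ) (hρ : 0 < ρ)
    (h : ∀ᶠ t : ℝ in 𝓝 0, Ψ t = Φ (c + t : ℝ)) : Good d Φ c := by
  obtain ⟨r, r0, hr⟩ := Metric.eventually_nhds_iff.1 h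
  refine ⟨min ρ r, lt_min hρ r0, _, (st_SYM d _ _ ((st_SYM d _ Ψ s).2.1 (-(c : ℂ)))).1 _
    isOpen_ball fun τ hτ => ?_, fun t ht => ?_⟩
  · show τ + -(c : ℂ) ∈ ball (0 : ℂ) ρ
    rw [mem_ball, dist_eq_norm] at hτ ⊢
    rw [sub_zero, ← sub_eq_add_neg]
    exact hτ.trans_le (min_le_left _ _)
  · show Ψ ((t : ℂ) + -(c : ℂ)) = Φ t
    rw [← sub_eq_add_neg, ← Complex.ofReal_sub,
      hr (by simpa [Real.dist_eq] using ht.trans_le (min_le_right _ _)), add_sub_cancel]

theorem good_neg {Φ : ℂ → S3} (hn : ∀ t : ℝ, Φ (-t) = sw (Φ t)) {c : ℝ} (h : Good d Φ c) :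
    Good d Φ (-c) := by
  obtain ⟨ρ, hρ, Ψ, s, e⟩ := h
  refine ⟨ρ, hρ, _, (st_SYM d _ _ ((st_SYM d _ Ψ s).2.2.1 0)).1 _ isOpen_ball fun τ hτ => ?_,
    fun t ht => ?_⟩
  · show 0 - τ ∈ ball (c : ℂ) ρ
    rw [mem_ball, dist_eq_norm] at hτ ⊢
    rwa [show 0 - τ - c = -(τ - ((-c : ℝ) : ℂ)) by push_cast; ring, norm_neg]
  · show sw (Ψ (0 - (t : ℂ))) = Φ t
    rw [zero_sub, ← Complex.ofReal_neg, e _ (by rwa [show -t - c = -(t - -c) by ring, abs_neg]),
      Complex.ofReal_neg, hn, str_swsw]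

/-- Continuity and the equation for the height at one time. -/
def Loc (Φ : ℂ → S3) (c : ℝ) : Prop :=
  ContinuousAt (fun t : ℝ => Φ t) c ∧ HasDerivAt (fun s : ℝ => fY Φ s) (fA Φ c - fB Φ c) c

theorem good_loc {Φ : ℂ → S3} {c : ℝ} (h : Good d Φ c) : Loc Φ c := by
  refine ⟨(good_an h).continuousAt, ?_⟩
  obtain ⟨ρ, hρ, Ψ, s, e⟩ := h
  have h0 : |c - c| < ρ := by simpa using hρ
  have := (s.dY c (mem_ball_self hρ)).comp_ofReal
  simp only [fA, fB, e c h0] at this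
  refine this.congr_of_eventuallyEq ?_
  filter_upwards [ev_lt h0] with t ht
  simp only [fY, e t ht]

theorem cap_ev {y c s : ℝ} (h : Cap d lo hi a β G y c s) : ∃ Y : ℝ → ℝ,
    Tendsto Y (𝓝[>] 0) (𝓝 y) ∧ ∀ᶠ t in 𝓝[>] 0, Y t ∈ Ioo lo hi ∧ G (Y t) = c + s * t := by
  obtain ⟨ρ, hρ, Ψ, sl, e, -, h⟩ := h
  refine ⟨fun t => (fY Ψ (s * t : ℝ)).re, ?_, ?_⟩
  · have c1 : ContinuousAt (fY Ψ) 0 := (sl.dY 0 (mem_ball_self hρ)).continuousAt
    have c2 : Tendsto (fun t : ℝ => ((s * t : ℝ) : ℂ)) (𝓝 0) (𝓝 0) :=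
      Continuous.tendsto' (by fun_prop) _ _ (by simp)
    have c3 := (Complex.continuous_re.tendsto _).comp (c1.tendsto.comp c2)
    have e2 : (fY Ψ 0).re = y := by simp [fY, e, dn]
    rw [e2] at c3
    exact c3.mono_left nhdsWithin_le_nhds
  · filter_upwards [Ioo_mem_nhdsGT hρ] with t ht using ⟨(h t ht).1, (h t ht).2.2⟩

theorem anti (g : Geo K lo hi a β) (hG : ∀ y ∈ Ioo lo hi, HasDerivAt G (-1 / (a y - β y)) y) :
    StrictAntiOn G (Ioo lo hi) := by
  refine strictAntiOn_of_deriv_neg (convex_Ioo _ _)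
    (fun y hy => (hG y hy).continuousAt.continuousWithinAt) fun y hy => ?_
  rw [interior_Ioo] at hy
  rw [(hG y hy).deriv]
  exact div_neg_of_neg_of_pos (by norm_num) (sub_pos.2 (g.ne y hy))

theorem eta (g : Geo K lo hi a β) (hG : ∀ y ∈ Ioo lo hi, HasDerivAt G (-1 / (a y - β y)) y)
    {c c' : ℝ} (h1 : Cap d lo hi a β G hi c 1) (h2 : Cap d lo hi a β G lo c' (-1)) :
    (∀ y ∈ Ioo lo hi, G y - c ∈ Ioo 0 (c' - c)) ∧ ∃ η : ℝ → ℝ, η 0 = hi ∧ η (c' - c) = lo ∧
      ∀ u ∈ Ioo 0 (c' - c), η u ∈ Ioo lo hi ∧ G (η u) = c + u := by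
  classical
  have an := anti g hG
  obtain ⟨Y, y1, y2⟩ := cap_ev h1
  obtain ⟨Z, z1, z2⟩ := cap_ev h2
  have rg : ∀ y ∈ Ioo lo hi, G y - c ∈ Ioo 0 (c' - c) := by
    intro y hy
    obtain ⟨t, ⟨a1, a2, a3⟩, a4⟩ :=
      (((y1.eventually (lt_mem_nhds hy.2)).and y2).and self_mem_nhdsWithin).exists
    obtain ⟨u, ⟨b1, b2, b3⟩, b4⟩ :=
      (((z1.eventually (gt_mem_nhds hy.1)).and z2).and self_mem_nhdsWithin).exists
    have a5 : 0 < t := a4
    have b5 : 0 < u := b4
    exact ⟨by linarith [an hy a2 a1], by linarith [an b2 hy b1]⟩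
  have sj : ∀ u ∈ Ioo 0 (c' - c), ∃ y ∈ Ioo lo hi, G y = c + u := by
    intro u hu
    obtain ⟨t, ⟨a2, a3⟩, a4⟩ := (y2.and (Ioo_mem_nhdsGT hu.1)).exists
    obtain ⟨v, ⟨b2, b3⟩, b4⟩ := (z2.and (Ioo_mem_nhdsGT (sub_pos.2 hu.2))).exists
    exact isPreconnected_Ioo.intermediate_value a2 b2
      (fun y hy => (hG y hy).continuousAt.continuousWithinAt)
      ⟨by linarith [a4.2], by linarith [b4.2]⟩
  have L0 : 0 < c' - c := by
    have := rg ((lo + hi) / 2) ⟨by linarith [g.lt], by linarith [g.lt]⟩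
    exact this.1.trans this.2
  refine ⟨rg, fun u => if h : ∃ y ∈ Ioo lo hi, G y = c + u then h.choose else
    if u ≤ 0 then hi else lo, ?_, ?_, fun u hu => ?_⟩
  · beta_reduce
    rw [dif_neg, if_pos le_rfl]
    rintro ⟨y, hy, e⟩
    linarith [(rg y hy).1]
  · beta_reduce
    rw [dif_neg, if_neg L0.not_ge]
    rintro ⟨y, hy, e⟩
    linarith [(rg y hy).2]
  · beta_reduce
    rw [dif_pos (sj u hu)]
    exact (sj u hu).choose_spec

theorem eta_der (g : Geo K lo hi a β) (hG : ∀ y ∈ Ioo lo hi, HasDerivAt G (-1 / (a y - β y)) y)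
    {c L : ℝ} {η : ℝ → ℝ} (h : ∀ u ∈ Ioo 0 L, η u ∈ Ioo lo hi ∧ G (η u) = c + u) {u : ℝ}
    (hu : u ∈ Ioo 0 L) : HasDerivAt η (β (η u) - a (η u)) u := by
  have an := anti g hG
  obtain ⟨m, e⟩ := h u hu
  have ev := isOpen_Ioo.eventually_mem hu
  have ct : ContinuousAt η u := by
    refine tendsto_order.2 ⟨fun x hx => ?_, fun x hx => ?_⟩
    · have m1 : max x ((lo + η u) / 2) < η u := max_lt hx (by linarith [m.1])
      have m2 : max x ((lo + η u) / 2) ∈ Ioo lo hi :=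
        ⟨lt_max_of_lt_right (by linarith [m.1]), m1.trans m.2⟩
      filter_upwards [ev, gt_mem_nhds (show u < G (max x ((lo + η u) / 2)) - c by
        linarith [an m2 m m1])] with v a1 a2
      exact (le_max_left _ _).trans_lt
        ((an.lt_iff_gt (h v a1).1 m2).1 (by linarith [(h v a1).2]))
    · have m1 : η u < min x ((hi + η u) / 2) := lt_min hx (by linarith [m.2])
      have m2 : min x ((hi + η u) / 2) ∈ Ioo lo hi :=
        ⟨m.1.trans m1, min_lt_of_right_lt (by linarith [m.2])⟩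
      filter_upwards [ev, lt_mem_nhds (show G (min x ((hi + η u) / 2)) - c < u by
        linarith [an m m2 m1])] with v a1 a2
      exact ((an.lt_iff_gt m2 (h v a1).1).1 (by linarith [(h v a1).2])).trans_le (min_le_left _ _)
  have w := (sub_pos.2 (g.ne _ m)).ne'
  refine (HasDerivAt.of_local_left_inverse (f := fun y => G y - c) ct ((hG _ m).sub_const c)
    (div_ne_zero (by norm_num) w) (ev.mono fun v hv => by linarith [(h v hv).2])).congr_deriv ?_
  field_simp
  ring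

end RF23

open RF23 in
theorem st_RF : St_RF := by
  intro d K lo hi a β gen ov g h1 h2 h3 h4
  obtain ⟨G, hG⟩ := timeG g
  obtain ⟨c, c1⟩ := cap_hi gen ov g hG h1 h2
  obtain ⟨c', c2⟩ := cap_lo gen ov g hG h3 h4
  obtain ⟨rg, η, η0, η1, hη⟩ := eta g hG c1 c2
  obtain ⟨T, hT⟩ : ∃ T : ℝ, c' - c = T / 2 := ⟨2 * (c' - c), by ring⟩
  rw [hT] at rg η1 hη
  have T0 : 0 < T := by
    have := rg ((lo + hi) / 2) ⟨by linarith [g.lt], by linarith [g.lt]⟩
    linarith [this.1, this.2]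
  have inj := (anti g hG).injOn
  obtain ⟨Φ, per, neg, val⟩ := ext_per T0 (fun u => dn a β (η u))
    (by simp only [η0, dn, sw, g.e2]) (by simp only [η1, dn, sw, g.e1])
  have perz : ∀ (t : ℝ) (k : ℤ), Φ (t + k * T : ℝ) = Φ t := fun t k =>
    (Function.Periodic.int_mul (f := fun t : ℝ => Φ t) (fun t => by simpa using per t) k) t
  have negr : ∀ t : ℝ, Φ (-t : ℝ) = sw (Φ t) := fun t => by rw [Complex.ofReal_neg, neg]
  have gs : ∀ (u : ℝ) (k : ℤ), Good d Φ u → Good d Φ (u + k * T) := by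
    rintro u k ⟨ρ, hρ, Ψ, s, e⟩
    exact ⟨ρ, hρ, good_shift per s e k⟩
  have tri : ∀ u ∈ Icc 0 (T / 2), u = 0 ∨ u = T / 2 ∨ u ∈ Ioo 0 (T / 2) := fun u hu =>
    hu.1.eq_or_lt.elim (fun h => Or.inl h.symm) fun h =>
      Or.inr (hu.2.eq_or_lt.elim Or.inl fun h' => Or.inr ⟨h, h'⟩)
  have ηm : ∀ u ∈ Icc 0 (T / 2), η u ∈ Icc lo hi := by
    intro u hu
    rcases tri u hu with h | h | h
    · rw [h, η0]; exact right_mem_Icc.2 g.lt.le
    · rw [h, η1]; exact left_mem_Icc.2 g.lt.le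
    · exact Ioo_subset_Icc_self (hη u h).1
  have vi : ∀ u ∈ Ioo 0 (T / 2), ∀ y ∈ Ioo lo hi, G y = c + u → Φ u = dn a β y := by
    intro u hu y hy e
    rw [val u (Ioo_subset_Icc_self hu), inj (hη u hu).1 hy ((hη u hu).2.trans e.symm)]
  have T2 : 0 < T / 2 := half_pos T0
  have g0 : Good d Φ 0 := by
    obtain ⟨ρ, hρ, Ψ, s, e, n, h⟩ := c1
    have pos : ∀ t : ℝ, 0 < t → t < ρ → t < T / 2 → Ψ t = Φ t := fun t a1 a2 a3 => by
      have := h t ⟨a1, a2⟩
      simp only [one_mul] at this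
      rw [vi t ⟨a1, a3⟩ _ this.1 this.2.2]
      exact this.2.1
    refine good_of s hρ ?_
    filter_upwards [ev_lt (c := 0) (x := 0) (ρ := min ρ (T / 2)) (by simpa using ⟨hρ, T0⟩)]
      with t ht
    rw [sub_zero, lt_min_iff] at ht
    obtain ⟨a1, a2⟩ := abs_lt.1 ht.1
    obtain ⟨a3, a4⟩ := abs_lt.1 ht.2
    rw [zero_add]
    rcases lt_trichotomy t 0 with b | b | b
    · have := pos (-t) (by linarith) (by linarith) (by linarith)
      rw [negr, Complex.ofReal_neg, n t ht.1] at this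
      exact congrArg sw this
    · rw [b, val 0 (left_mem_Icc.2 T2.le), η0, Complex.ofReal_zero, e]
    · exact pos t b a2 a4
  have g1 : Good d Φ (T / 2) := by
    obtain ⟨ρ, hρ, Ψ, s, e, n, h⟩ := c2
    have pos : ∀ t : ℝ, 0 < t → t < ρ → t < T / 2 → Ψ (-t : ℝ) = Φ (T / 2 + -t : ℝ) :=
      fun t a1 a2 a3 => by
        have := h t ⟨a1, a2⟩
        simp only [neg_mul, one_mul] at this
        rw [vi (T / 2 + -t) ⟨by linarith, by linarith⟩ _ this.1 (by linarith [this.2.2])]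
        exact this.2.1
    refine good_of s hρ ?_
    filter_upwards [ev_lt (c := 0) (x := 0) (ρ := min ρ (T / 2)) (by simpa using ⟨hρ, T0⟩)]
      with t ht
    rw [sub_zero, lt_min_iff] at ht
    obtain ⟨a1, a2⟩ := abs_lt.1 ht.1
    obtain ⟨a3, a4⟩ := abs_lt.1 ht.2
    rcases lt_trichotomy t 0 with b | b | b
    · simpa only [neg_neg] using pos (-t) (by linarith) (by linarith) (by linarith)
    · rw [b, add_zero, val _ (right_mem_Icc.2 T2.le), η1, Complex.ofReal_zero, e]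
    · have := pos t b a2 a4
      rw [Complex.ofReal_neg, n t ht.1, show T / 2 + -t = -(T / 2 + t) + (1 : ℤ) * T by
        push_cast; ring, perz, negr] at this
      exact congrArg sw this
  have loc : ∀ t : ℝ, Loc Φ t := by
    refine red T0 (fun u hu => ?_) (fun u h => ?_) fun u k h => ?_
    · rcases tri u hu with h | h | h
      · rw [h]; exact good_loc g0
      · rw [h]; exact good_loc g1
      have de := eta_der g hG hη h
      have ev : (fun t : ℝ => Φ t) =ᶠ[𝓝 u] fun t => dn a β (η t) :=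
        (isOpen_Ioo.eventually_mem h).mono fun t ht => val t (Ioo_subset_Icc_self ht)
      have nb := Icc_mem_nhds (hη u h).1.1 (hη u h).1.2
      have ca := (g.ca.continuousAt nb).comp de.continuousAt
      have cb := (g.cb.continuousAt nb).comp de.continuousAt
      have cy := de.continuousAt
      have co := Complex.continuous_ofReal
      refine ⟨ContinuousAt.congr ((co.continuousAt.comp cb).prodMk
        ((co.continuousAt.comp ca).prodMk (co.continuousAt.comp cy))) ev.symm, ?_⟩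
      refine (de.ofReal_comp.congr_of_eventuallyEq (ev.mono fun t ht => ?_)).congr_deriv ?_
      · exact congrArg (fun σ : S3 => σ.2.2) ht
      · simp only [fA, fB, val u hu, dn, Complex.ofReal_sub]
    · have e : (fun t : ℝ => Φ t) = fun t : ℝ => sw (Φ (-t : ℝ)) := by
        funext t
        rw [negr, str_swsw]
      constructor
      · rw [e]
        refine str_sw.continuous.continuousAt.comp (ContinuousAt.comp
          (g := fun t : ℝ => Φ t) (f := fun t : ℝ => -t) (by rw [neg_neg]; exact h.1)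
          continuous_neg.continuousAt)
      · have := HasDerivAt.comp_const_sub (f := fun s : ℝ => fY Φ s) 0 (-u)
          (by rw [sub_neg_eq_add, zero_add]; exact h.2)
        simp only [zero_sub, fY, negr, sw] at this
        simp only [fA, fB, negr, sw]
        exact this.congr_deriv (by simp only [fA, fB, neg_sub])
    · have e : (fun t : ℝ => Φ t) = fun t : ℝ => Φ (t - k * T : ℝ) := by
        funext t
        rw [← perz (t - k * T) k, sub_add_cancel]
      constructor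
      · rw [e]
        exact ContinuousAt.comp (g := fun t : ℝ => Φ t) (f := fun t : ℝ => t - k * T)
          (by rw [add_sub_cancel_right]; exact h.1) (by fun_prop)
      · have := HasDerivAt.comp_sub_const (f := fun s : ℝ => fY Φ s) (u + k * T) (k * T)
          (by rw [add_sub_cancel_right]; exact h.2)
        simp only [fA, fB, perz]
        refine this.congr_of_eventuallyEq (.of_forall fun t => ?_)
        exact congrArg (fun σ : S3 => σ.2.2) (congrFun e t)
  have Dz : ∀ y ∈ Icc lo hi, d.D (β y, a y, y) = 0 := by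
    intro y hy
    rcases hy.1.eq_or_lt with h | h
    · rw [← h, g.e1, d.Dd, h3]
    rcases hy.2.eq_or_lt with h' | h'
    · rw [h', g.e2, d.Dd, h1]
    have e := d.hD (β y) (a y) y
    rw [show d.p (β y, y) = 0 from ov.2.2.2 _ (g.mb y hy),
      show d.p (a y, y) = 0 from ov.2.2.2 _ (g.ma y hy), sub_self] at e
    exact (mul_eq_zero.1 e.symm).resolve_left
      (sub_ne_zero.2 (Complex.ofReal_injective.ne (g.ne y ⟨h, h'⟩).ne))
  have gi : ∀ u ∈ Ioo 0 (T / 2), (¬∃ x, d.p (x, η u) = 0 ∧ d.px (x, η u) = 0) → Good d Φ u := by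
    intro u hu nb
    have m := (hη u hu).1
    have m' := Ioo_subset_Icc_self m
    have n1 : d.px (β (η u), η u) ≠ 0 := fun e => nb ⟨_, ov.2.2.2 _ (g.mb _ m'), e⟩
    have n2 : d.px (a (η u), η u) ≠ 0 := fun e => nb ⟨_, ov.2.2.2 _ (g.ma _ m'), e⟩
    obtain ⟨ρ, hρ, Ψ, s, e, o⟩ := rloc d K _ _ _ ov (g.mb _ m') (g.ma _ m') (Or.inl n1) (Or.inl n2)
      ⟨fun z => n1 (by rw [d.hE _ (a (η u)), Dz _ m', z, mul_zero, add_zero]), fun z => n2 (by
        have z' : d.E (a (η u), β (η u), η u) = 0 := z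
        rw [d.hE _ (β (η u)), d.Ds, Dz _ m', z', mul_zero, add_zero])⟩ (Dz _ m')
    have df := s.df.differentiableAt (s.op.mem_nhds (mem_ball_self hρ))
    have cw : ContinuousAt (fun t : ℝ => (fA Ψ t - fB Ψ t).re) 0 :=
      Complex.continuous_re.continuousAt.comp (ContinuousAt.comp (g := fun z => fA Ψ z - fB Ψ z)
        (f := fun t : ℝ => (t : ℂ)) (by
          rw [Complex.ofReal_zero]
          exact df.continuousAt.fst.sub df.continuousAt.snd.fst)
        Complex.continuous_ofReal.continuousAt)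
    have w0 : (fA Ψ ((0 : ℝ) : ℂ) - fB Ψ ((0 : ℝ) : ℂ)).re < 0 := by
      simpa [fA, fB, e] using g.ne _ m
    obtain ⟨r, r0, hr⟩ := Metric.eventually_nhds_iff.1
      ((cw.eventually_lt continuousAt_const w0).and
        (ev_lt (c := 0) (x := 0) (by simpa using hρ)))
    obtain ⟨k, hk⟩ := track ov.1.isClosed g hG s (u := -r) (v := r) fun t ht => by
      obtain ⟨a1, a2⟩ := hr (y := t) (by simpa [Real.dist_eq] using abs_lt.2 ht)
      rw [sub_zero] at a2
      exact ⟨by simpa using a2, o t a2, a1⟩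
    have k0 := (hk 0 ⟨by linarith, r0⟩).2.2
    have y0 : (fY Ψ ((0 : ℝ) : ℂ)).re = η u := by simp [fY, e]
    rw [y0, (hη u hu).2, add_zero] at k0
    refine good_of s hρ ?_
    have cu : Tendsto (fun t : ℝ => u + t) (𝓝 0) (𝓝 u) :=
      Continuous.tendsto' (by fun_prop) _ _ (by simp)
    filter_upwards [Ioo_mem_nhds (neg_lt_zero.2 r0) r0,
      cu.eventually (isOpen_Ioo.eventually_mem hu)] with t a1 a2
    rw [vi _ a2 _ (hk t a1).1 (by linarith [(hk t a1).2.2])]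
    exact (hk t a1).2.1
  have zi : ∀ u ∈ Icc 0 (T / 2), fA Φ u = fB Φ u → u = 0 ∨ u = T / 2 := by
    intro u hu e
    rcases tri u hu with h | h | h
    · exact Or.inl h
    · exact Or.inr h
    · simp only [fA, fB, val u hu, dn] at e
      exact ((g.ne _ (hη u h).1).ne (Complex.ofReal_injective e)).elim
  have v0 : Φ ((0 : ℝ) : ℂ) = ((a hi : ℂ), (a hi : ℂ), (hi : ℂ)) := by
    simp only [val 0 (left_mem_Icc.2 T2.le), η0, dn, g.e2]
  have v1 : Φ (T / 2 : ℝ) = ((a lo : ℂ), (a lo : ℂ), (lo : ℂ)) := by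
    simp only [val _ (right_mem_Icc.2 T2.le), η1, dn, g.e1]
  refine ⟨T, Φ, ⟨T0, per, neg, ?_, ?_, continuous_iff_continuousAt.2 fun t => (loc t).1, ?_,
    fun t => (loc t).2, fun R => ?_, ?_⟩, ?_, fun q hq => ?_⟩
  · refine red T0 (fun u hu => ?_) (fun u h => ?_) fun u k h => by rwa [perz]
    · simp [val u hu, dn, cj]
    · rw [negr]
      exact congrArg sw h
  · refine red T0 (fun u hu => ⟨fun e => ?_, ?_⟩) (fun u h => ?_) fun u k h => ?_
    · rcases zi u hu e with h | h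
      · exact ⟨0, by simp [h]⟩
      · exact ⟨1, by simp [h]⟩
    · rintro ⟨k, e⟩
      have a1 : (0 : ℝ) ≤ k := nonneg_of_mul_nonneg_left (e ▸ hu.1) T2
      have a2 : (k : ℝ) ≤ 1 := le_of_mul_le_mul_right (by linarith [hu.2]) T2
      have a3 : k = 0 ∨ k = 1 := by
        have : (0 : ℤ) ≤ k := by exact_mod_cast a1
        have : k ≤ (1 : ℤ) := by exact_mod_cast a2
        omega
      rcases a3 with h | h <;> rw [h] at e
      · rw [Int.cast_zero, zero_mul] at e
        simp only [e, fA, fB, v0]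
      · rw [Int.cast_one, one_mul] at e
        simp only [e, fA, fB, v1]
    · simp only [fA, fB, negr, sw] at h ⊢
      rw [eq_comm, h]
      exact ⟨fun ⟨k, e⟩ => ⟨-k, by rw [e]; push_cast; ring⟩,
        fun ⟨k, e⟩ => ⟨-k, by push_cast; linarith⟩⟩
    · simp only [fA, fB, perz] at h ⊢
      rw [h]
      exact ⟨fun ⟨j, e⟩ => ⟨j + 2 * k, by rw [e]; push_cast; ring⟩,
        fun ⟨j, e⟩ => ⟨j - 2 * k, by push_cast; linarith⟩⟩
  · refine red T0 (fun u hu => ?_) (fun u h => ?_) fun u k h => by rwa [perz]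
    · rw [val u hu]
      exact ⟨ov.2.2.2 _ (g.mb _ (ηm u hu)), ov.2.2.2 _ (g.ma _ (ηm u hu)), Dz _ (ηm u hu)⟩
    · rw [negr]
      exact ⟨h.2.1, h.1, (d.Ds _ _ _).trans h.2.2⟩
  · have F : {u : ℝ | u ∈ Icc 0 (T / 2) ∧ ¬Good d Φ u}.Finite := by
      have io : ∀ u ∈ {u : ℝ | u ∈ Icc 0 (T / 2) ∧ ¬Good d Φ u}, u ∈ Ioo 0 (T / 2) := by
        intro u hu
        rcases tri u hu.1 with h | h | h
        · exact (hu.2 (h ▸ g0)).elim
        · exact (hu.2 (h ▸ g1)).elim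
        · exact h
      refine Finite.of_finite_image (f := fun u => ((η u : ℝ) : ℂ)) (gen.g2.subset ?_) ?_
      · rintro _ ⟨u, hu, rfl⟩
        by_contra hn
        exact hu.2 (gi u (io u hu) hn)
      · intro u hu v hv e
        have e' : η u = η v := Complex.ofReal_injective e
        have a1 := (hη u (io u hu)).2
        rw [e', (hη v (io v hv)).2] at a1
        linarith
    obtain ⟨N, hN⟩ := exists_nat_ge (R / T + 1)
    have hN' : R + T ≤ N * T := by
      have := mul_le_mul_of_nonneg_right hN T0.le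
      rwa [add_mul, div_mul_cancel₀ _ T0.ne', one_mul] at this
    refine ((F.image2 (fun u (k : ℤ) => u + k * T) (finite_Icc (-(N : ℤ)) N)).union
      (F.image2 (fun u (k : ℤ) => -u + k * T) (finite_Icc (-(N : ℤ)) N))).subset ?_
    rintro t ⟨a1, a2⟩
    obtain ⟨a3, a4⟩ := abs_le.1 a1
    have bd : ∀ k : ℤ, -(R + T) ≤ k * T → k * T ≤ R + T → k ∈ Icc (-(N : ℤ)) N := by
      intro k b1 b2
      have c1 : -(N : ℝ) ≤ k := le_of_mul_le_mul_right (by linarith) T0
      have c2 : (k : ℝ) ≤ N := le_of_mul_le_mul_right (by linarith) T0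
      exact ⟨by exact_mod_cast c1, by exact_mod_cast c2⟩
    obtain ⟨u, hu, k, e | e⟩ := dec T0 t
    · exact Or.inl ⟨u, ⟨hu, fun h => a2 (e ▸ gs u k h)⟩, k,
        bd k (by linarith [hu.2]) (by linarith [hu.1]), e.symm⟩
    · exact Or.inr ⟨u, ⟨hu, fun h => a2 (e ▸ gs _ k (good_neg neg h))⟩, k,
        bd k (by linarith [hu.1]) (by linarith [hu.2]), e.symm⟩
  · refine red T0 (fun u hu e => ?_) (fun u h e => ?_) fun u k h e => ?_
    · rcases zi u hu e with h | h <;> rw [h]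
      · exact ⟨g0, by simpa only [fA, fY, v0] using h2⟩
      · exact ⟨g1, by simpa only [fA, fY, v1] using h4⟩
    · simp only [fA, fB, fY, negr, sw] at h e ⊢
      exact ⟨good_neg neg (h e.symm).1, by rw [e]; exact (h e.symm).2⟩
    · simp only [fA, fB, fY, perz] at h e ⊢
      exact ⟨gs u k (h e).1, (h e).2⟩
  · refine red T0 (fun u hu => ?_) (fun u h => ?_) fun u k h => ?_
    · simp only [fA, fB, fY, val u hu, dn, Complex.ofReal_re]
      exact ⟨g.mb _ (ηm u hu), g.ma _ (ηm u hu)⟩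
    · simp only [fA, fB, fY, negr, sw] at h ⊢
      exact h.symm
    · simpa only [fA, fB, fY, perz] using h
  · have m := (g.mem q (ov.1.isClosed.frontier_subset hq)).1
    obtain ⟨u, hu, e⟩ : ∃ u ∈ Icc 0 (T / 2), η u = q.2 := by
      rcases m.1.eq_or_lt with h | h
      · exact ⟨_, right_mem_Icc.2 T2.le, η1.trans h⟩
      rcases m.2.eq_or_lt with h' | h'
      · exact ⟨_, left_mem_Icc.2 T2.le, η0.trans h'.symm⟩
      have a1 := rg q.2 ⟨h, h'⟩
      exact ⟨_, Ioo_subset_Icc_self a1, inj (hη _ a1).1 ⟨h, h'⟩ (by rw [(hη _ a1).2]; ring)⟩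
    rcases g.fr q hq with h | h
    · refine ⟨-u, ?_⟩
      simp only [fA, fY, negr, sw, val u hu, dn, Complex.ofReal_re, e, ← h]
    · refine ⟨u, ?_⟩
      simp only [fA, fY, val u hu, dn, Complex.ofReal_re, e, ← h]

end Pool.Agent.AO
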