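import Pool.Agent.Lib.AO.Blue3
import Pool.Agent.Lib.AO.B_UPB
import Pool.Agent.Lib.AO.B_FLOW
import Pool.Agent.Lib.AO.Cls23

/-! The exceptional real times are good. -/

set_option autoImplicit false

noncomputable section

namespace Pool.Agent.AO

open Set Metric Filter Topology ComplexConjugate Pool.Agent.Lib.AO

theorem upr_gap (S : Finset ℂ) (c : ℂ) :
    ∀ᶠ g : ℝ in 𝓝[>] 0, ∀ b' ∈ S, b' ≠ c → g ≤ ‖b' - c‖ := by
  refine (S.eventually_all).2 fun b' _ => ?_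
  by_cases h : b' = c
  · exact .of_forall fun _ a => (a h).elim
  · filter_upwards [Ioo_mem_nhdsGT (norm_pos_iff.2 (sub_ne_zero.2 h))] with x hx _ using hx.2.le

theorem upr_near {R κ g e : ℝ} {S : Finset ℂ} {c z : ℂ}
    (hg : ∀ b' ∈ S, b' ≠ c → g ≤ ‖b' - c‖) (h1 : e ≤ ‖z - c‖) (h2 : ‖z - c‖ ≤ g / 2)
    (h3 : ‖z - c‖ ≤ 1) (hR : ‖c‖ + 1 ≤ R) (he : 0 < e) (hi : |z.im| ≤ κ * e) :
    Two.Adm 0 R κ S z e := by
  obtain ⟨i1, i2⟩ := abs_le.1 hi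
  refine ⟨by linarith [norm_le_norm_sub_add z c], by linarith, by linarith, he, by linarith,
    fun b' hb' => ?_⟩
  by_cases h : b' = c
  · rwa [h]
  · have a := norm_sub_le_norm_sub_add_norm_sub b' z c
    rw [norm_sub_rev b' z] at a
    linarith [hg b' hb' h]

theorem upr_real {d : Dat} {R κ g : ℝ} {S : Finset ℂ} {D : Set ℂ} {Φ : ℂ → S3}
    (hS : Two.Sec d 0 R κ S D Φ) {c t : ℝ} (hg : ∀ b' ∈ S, b' ≠ (c : ℂ) → g ≤ ‖b' - c‖)
    (h1 : t ≠ c) (h2 : |t - c| ≤ g / 2) (h3 : |t - c| ≤ 1) (hR : |c| + 1 ≤ R) :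
    (t : ℂ) ∈ D ∧ Good d Φ t := by
  have n : ‖(t : ℂ) - c‖ = |t - c| := by
    rw [← Complex.ofReal_sub, Complex.norm_real, Real.norm_eq_abs]
  have p : 0 < |t - c| := abs_pos.2 (sub_ne_zero.2 h1)
  have p2 := mul_pos hS.kp p
  have a := hS.adm _ _ (upr_near (κ := κ) hg n.ge (n.le.trans h2) (n.le.trans h3)
    (by simpa using hR) p (by simpa using p2.le))
  exact ⟨a (mem_ball_self p2), _, p2, Φ, (st_SYM d _ Φ hS.sol).1 _ isOpen_ball a, fun _ _ => rfl⟩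

theorem upr_lim {d : Dat} {R κ : ℝ} {S : Finset ℂ} {D : Set ℂ} {Φ : ℂ → S3}
    (hS : Two.Sec d 0 R κ S D Φ) (ct : Continuous fun t : ℝ => Φ t) {c : ℝ} (hR : |c| + 1 ≤ R)
    {σ : S3} (hx : ∀ ε : ℝ, 0 < ε → ∃ δ : ℝ, 0 < δ ∧ Xp D Φ c σ ε δ) : σ = Φ c := by
  obtain ⟨g, hg, g0⟩ := ((upr_gap S c).and self_mem_nhdsWithin).exists
  have g0 : 0 < g := g0
  refine tendsto_nhds_unique (l := 𝓝[≠] c) ?_
    (ct.continuousAt.tendsto.mono_left nhdsWithin_le_nhds)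
  rw [Metric.tendsto_nhdsWithin_nhds]
  intro ε hε
  obtain ⟨δ, hδ, hX⟩ := hx (ε / 2) (by linarith)
  have hw : 0 < ‖σ.1 - σ.2.1‖ + ε / 2 := by positivity
  refine ⟨min (min δ (ε / (‖σ.1 - σ.2.1‖ + ε / 2))) (min (g / 2) 1), by positivity,
    fun t ht hd => ?_⟩
  rw [Real.dist_eq, lt_min_iff, lt_min_iff, lt_min_iff] at hd
  have n : ‖(t : ℂ) - c‖ = |t - c| := by
    rw [← Complex.ofReal_sub, Complex.norm_real, Real.norm_eq_abs]
  have m := (upr_real hS hg ht hd.2.1.le hd.2.2.le hR).1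
  obtain ⟨h1, h2, -⟩ := hX t m (n.trans_lt hd.1.1)
  have h3 := UPB_normY hX m (n.trans_lt hd.1.1)
  have h4 : (‖σ.1 - σ.2.1‖ + ε / 2) * ‖(t : ℂ) - c‖ < ε := by
    have := hd.1.2
    rw [lt_div_iff₀ hw] at this
    rw [n]
    linarith
  rw [Prod.dist_eq, Prod.dist_eq, max_lt_iff, max_lt_iff, dist_eq_norm, dist_eq_norm,
    dist_eq_norm]
  exact ⟨h1.trans_lt (by linarith), h2.trans_lt (by linarith), h3.trans_lt h4⟩

theorem upr_adm {S : Finset ℂ} {b z : ℂ} {R κ T c η ν r : ℝ} {m j : ℕ}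
    (hb : b.im = 0) (hR : ‖b‖ + 2 * T + 3 ≤ R) (hκ : 0 < κ) (hκ1 : κ ≤ 1) (hc : 0 < c)
    (hc1 : c ≤ 1) (hν : ν = κ * c / 100) (hr : 0 < r) (hr1 : r ≤ 1) (hη1 : η ≤ 1 / 4)
    (hq : |(2 * m + 1) * r - T| ≤ η * r) (hj2 : j ≤ 4 * m + 1)
    (hs : ∀ b' ∈ S, c * r / 2 ≤ ‖b + j * r - b'‖) (hz : ‖z - (b + j * r)‖ ≤ 3 * ν * r) :
    Two.Adm 0 R κ S z (c * r / 4) := by
  have hcr : 0 < c * r := mul_pos hc hr
  have hcr1 : c * r ≤ r := by nlinarith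
  have hn : 3 * ν * r = 3 / 100 * (κ * (c * r)) := by rw [hν]; ring
  have hk : κ * (c * r) ≤ c * r := by nlinarith
  have hk0 : 0 < κ * (c * r) := mul_pos hκ hcr
  have him : |z.im| ≤ 3 * ν * r := by
    refine le_trans (le_of_eq ?_) ((Complex.abs_im_le_norm _).trans hz)
    simp [hb]
  have him' := abs_le.1 him
  have hjr : (j : ℝ) ≤ 4 * m + 1 := by exact_mod_cast hj2
  refine ⟨?_, by linarith, by linarith, by linarith, by linarith, fun b' hb' => ?_⟩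
  · have h1 : ‖z‖ ≤ ‖z - (b + j * r)‖ + ‖b + j * r‖ := norm_le_norm_sub_add _ _
    have h2 : ‖b + j * r‖ ≤ ‖b‖ + j * r := by
      refine (norm_add_le _ _).trans (le_of_eq ?_)
      rw [norm_mul, Complex.norm_natCast, Complex.norm_real, Real.norm_eq_abs, abs_of_pos hr]
    have h3 := (abs_le.1 hq).2
    have h4 : (j : ℝ) * r ≤ (4 * m + 2) * r := mul_le_mul_of_nonneg_right (by linarith) hr.le
    have h5 : η * r ≤ 1 / 4 := by nlinarith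
    nlinarith
  · have h1 := hs b' hb'
    have h2 : ‖b + j * r - b'‖ ≤ ‖z - (b + j * r)‖ + ‖z - b'‖ := by
      have e : b + j * r - b' = -(z - (b + j * r)) + (z - b') := by ring
      rw [e]
      refine (norm_add_le _ _).trans (le_of_eq ?_)
      rw [norm_neg]
    linarith

/-- Points near `t + n q r` when `t` is near `b` but not too near. -/
theorem upr_turn {R κ g T ε η ν r b t x n : ℝ} {S : Finset ℂ} {z : ℂ}
    (hg : ∀ b' ∈ S, b' ≠ ((b + n * T : ℝ) : ℂ) → g ≤ ‖b' - ((b + n * T : ℝ) : ℂ)‖)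
    (n0 : 0 ≤ n) (n2 : n ≤ 2) (hT : 0 < T) (hR : |b| + 2 * T + 3 ≤ R) (hκ1 : κ ≤ 1)
    (hε : 0 < ε) (hη : 0 < η) (hηε : η ≤ κ * ε / 4) (hεν : ε ≤ ν) (hν : ν ≤ 1 / 100) (hr : 0 < r)
    (hr1 : r ≤ 1) (hrg : r ≤ g / 2) (hq : |x - T| ≤ η * r) (t1 : 3 * ε * r ≤ |t - b|)
    (t2 : |t - b| ≤ ν * r / 4) (hz : ‖z - ((t + n * x : ℝ) : ℂ)‖ ≤ 2 * η * r) :
    Two.Adk 0 R κ S z (ε * r) := by
  have her := mul_pos hε hr
  have hηr := mul_pos hη hr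
  have a1 : η * r ≤ κ * (ε * r) / 4 := by nlinarith
  have a2 : κ * (ε * r) ≤ ε * r := by nlinarith
  have a3 : ε * r ≤ ν * r := mul_le_mul_of_nonneg_right hεν hr.le
  have a4 : ν * r ≤ r / 100 := by nlinarith
  have b1 : ‖((n * (x - T) : ℝ) : ℂ)‖ ≤ 2 * (η * r) := by
    rw [Complex.norm_real, Real.norm_eq_abs, abs_mul, abs_of_nonneg n0]
    exact mul_le_mul n2 hq (abs_nonneg _) two_pos.le
  have b2 : ‖((t - b : ℝ) : ℂ)‖ = |t - b| := by rw [Complex.norm_real, Real.norm_eq_abs]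
  have b3 : ‖z - ((b + n * T : ℝ) : ℂ) - ((t - b : ℝ) : ℂ)‖ ≤ 4 * (η * r) := by
    rw [show z - ((b + n * T : ℝ) : ℂ) - ((t - b : ℝ) : ℂ) =
      z - ((t + n * x : ℝ) : ℂ) + ((n * (x - T) : ℝ) : ℂ) by push_cast; ring]
    linarith [norm_add_le (z - ((t + n * x : ℝ) : ℂ)) ((n * (x - T) : ℝ) : ℂ)]
  obtain ⟨c1, c2⟩ := abs_le.1 ((abs_norm_sub_norm_le _ _).trans b3)
  have c3 : |z.im| ≤ 2 * η * r := by simpa using (Complex.abs_im_le_norm _).trans hz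
  refine ⟨her, _, le_rfl, upr_near hg (by linarith) (by linarith) (by linarith) ?_ her
    (by linarith)⟩
  rw [Complex.norm_real, Real.norm_eq_abs]
  have c4 := abs_add_le b (n * T)
  rw [abs_of_nonneg (mul_nonneg n0 hT.le)] at c4
  nlinarith

theorem st_UPR (hCTX : Two.St_CTX) (hDIR : St_DIR) (hUPA : Two.St_UPA) (hLOW : St_LOWR)
    (hCLR : St_CLR) (hS0 : St_SOLVE0) : St_UPR := by
  intro d R κ T S D Φ b hS hP hcj hH hR hb0 hb1 hb2 hpx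
  have hκ := hS.kp
  have hκ1 := hS.k1
  have hT := hP.Tp
  have e1 : ((b + T : ℝ) : ℂ) = b + T := by push_cast; ring
  have e2 : ((b + 2 * T : ℝ) : ℂ) = b + 2 * T := by push_cast; ring
  have p1 : Φ ((b + T : ℝ) : ℂ) = Φ b := by rw [e1, hP.per]
  have p2 : Φ ((b + 2 * T : ℝ) : ℂ) = Φ b := by
    rw [← p1, ← hP.per (b + T)]
    congr 1
    push_cast
    ring
  have ab1 : |b + T| ≤ |b| + T := by simpa [abs_of_pos hT] using abs_add_le b T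
  have ab2 : |b + 2 * T| ≤ |b| + 2 * T := by
    simpa [abs_of_pos (mul_pos two_pos hT)] using abs_add_le b (2 * T)
  obtain ⟨σ, hw, hx0⟩ := hS.xp b hb0
  obtain ⟨σ1, -, hx1⟩ := hS.xp _ hb1
  obtain ⟨σ2, -, hx2⟩ := hS.xp _ hb2
  have s0 : σ = Φ b := upr_lim hS hP.ct (by linarith) hx0
  obtain rfl : σ = σ1 := by
    rw [s0, ← p1]
    exact (upr_lim hS hP.ct (by linarith) (by rwa [e1])).symm
  obtain rfl : σ = σ2 := by
    rw [s0, ← p2]
    exact (upr_lim hS hP.ct (by linarith) (by rwa [e2])).symm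
  have sA : fA Φ b = σ.1 := by rw [s0]; rfl
  have sY : fY Φ b = σ.2.2 := by rw [s0]; rfl
  have hO : d.p (σ.1, σ.2.2) = 0 := by rw [s0]; exact (hP.ons b).1
  rw [sA, sY] at hpx
  obtain ⟨g, ⟨g1, g2, g3⟩, g0⟩ := (((upr_gap S ((b + 0 * T : ℝ) : ℂ)).and
    ((upr_gap S ((b + 1 * T : ℝ) : ℂ)).and (upr_gap S ((b + 2 * T : ℝ) : ℂ)))).and
    self_mem_nhdsWithin).exists
  have g0 : 0 < g := g0
  have g4 : ∀ b' ∈ S, b' ≠ (b : ℂ) → g ≤ ‖b' - b‖ := by simpa using g1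
  have nb : ‖(b : ℂ)‖ = |b| := by rw [Complex.norm_real, Real.norm_eq_abs]
  have nt : ∀ t : ℝ, ‖(t : ℂ) - b‖ = |t - b| := fun t => by
    rw [← Complex.ofReal_sub, Complex.norm_real, Real.norm_eq_abs]
  obtain ⟨W, hW⟩ : ∃ W : ℝ, W = ‖σ.1 - σ.2.1‖ := ⟨_, rfl⟩
  have hW0 : 0 < W := by rw [hW]; exact norm_pos_iff.2 (sub_ne_zero.2 hw)
  have hWle : W ≤ ‖σ.1‖ + ‖σ.2.1‖ := by rw [hW]; exact norm_sub_le _ _
  obtain ⟨c, hc, hc1, hdir⟩ := hDIR (S.image fun b' => (b'.re - (b : ℂ).re) / T)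
  obtain ⟨ν, hν⟩ : ∃ ν : ℝ, ν = κ * c / 100 := ⟨_, rfl⟩
  have hκc : κ * c ≤ c := by nlinarith
  have hν0 : 0 < ν := by rw [hν]; positivity
  have hνc : ν ≤ c / 100 := by rw [hν]; linarith
  obtain ⟨ε, hε⟩ : ∃ ε : ℝ, ε = ν / 2000 := ⟨_, rfl⟩
  have hε0 : 0 < ε := by rw [hε]; positivity
  obtain ⟨η, hη⟩ : ∃ η : ℝ, η = κ * ε / 4 := ⟨_, rfl⟩
  have hη0 : 0 < η := by rw [hη]; positivity
  have hηε : η ≤ ε / 4 := by rw [hη]; nlinarith
  have hη1 : η ≤ 1 / 4 := by linarith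
  have hder : HasDerivAt (fun s => d.p (s, σ.2.2)) (d.px (σ.1, σ.2.2)) σ.1 := by
    have := d.dp (hasDerivAt_id' σ.1) (hasDerivAt_const σ.1 σ.2.2)
    simpa using this
  obtain ⟨e, δ, he0, he1, hδ, ξ, hξ, hξ'⟩ := hS0 ℂ d.p σ.1 _ σ.2.2 d.cp.contDiffAt hO hder hpx
    (η * W / 100) (by positivity)
  obtain ⟨δ0, hδ0, hX0⟩ := hx0 (e / 2) (by linarith)
  obtain ⟨δ1, hδ1, hX1⟩ := hx1 (e / 2) (by linarith)
  obtain ⟨δ2, hδ2, hX2⟩ := hx2 (e / 2) (by linarith)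
  obtain ⟨r1, hr1, hC⟩ := hCTX d 0 R κ S D Φ hS (T + 1) ε η hε0 hη0 hη.le hη1
  obtain ⟨N, hN⟩ : ∃ N : ℝ, N = ‖σ.1‖ + ‖σ.2.1‖ + e := ⟨_, rfl⟩
  have hN0 : 0 < N := by rw [hN]; positivity
  obtain ⟨r0, hr0, a1, a2, a3, a4, a5, a6, a7⟩ : ∃ r0 : ℝ, 0 < r0 ∧ r0 ≤ r1 ∧ r0 ≤ 1 ∧
      r0 ≤ g / 2 ∧ r0 ≤ δ0 / 5 ∧ r0 ≤ δ1 / 5 ∧ r0 ≤ δ2 / 5 ∧ r0 ≤ δ / (100 * N) := by
    refine ⟨min (min (min r1 1) (min (g / 2) (δ0 / 5)))
      (min (min (δ1 / 5) (δ2 / 5)) (δ / (100 * N))),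
      by positivity, ?_, ?_, ?_, ?_, ?_, ?_, ?_⟩ <;> simp
  obtain ⟨q0, hq0⟩ := hLOW d R κ T S D Φ b (4 * ε) ε η r0 hS hP hcj hH hε0 hη0 hη.le hη1 hr0
    fun r h1 h2 => hC r h1 (h2.trans_le a1)
  obtain ⟨m, hm, hdm⟩ := hdir (q0 + 2)
  have hadm : ∀ r : ℝ, 0 < r → r < r0 → |(2 * m + 1) * r - T| ≤ η * r →
      ∀ j : ℕ, 1 ≤ j → j ≤ 4 * m + 1 → j ≠ 2 * m + 1 → ∀ z : ℂ,
      ‖z - (b + j * r)‖ ≤ 3 * ν * r → Two.Adm 0 R κ S z (c * r / 4) := by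
    intro r hr hrr hq' j j1 j2 j3 z hz
    exact upr_adm (Complex.ofReal_im b) (by rwa [nb]) hκ hκ1 hc hc1 hν hr (by linarith) hη1 hq' j2
      (UPB_sep hT hc hc1 hr hη0 (by linarith) hq'
        (fun b' hb' => hdm _ (Finset.mem_image_of_mem _ hb')) j1 j2 j3) hz
  have tube : ∀ r : ℝ, 0 < r → r < r0 → |(2 * m + 1) * r - T| ≤ η * r → ∀ t : ℝ,
      3 * ε * r ≤ |t - b| → |t - b| ≤ ν * r / 4 → Two.Tube 0 R κ S ε η r t (2 * (2 * m + 1)) := by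
    intro r hr hrr hq' t t1 t2 j hj z hz
    have tn := fun (n : ℝ)
      (hg : ∀ b' ∈ S, b' ≠ ((b + n * T : ℝ) : ℂ) → g ≤ ‖b' - ((b + n * T : ℝ) : ℂ)‖)
      (n0 : 0 ≤ n) (n2 : n ≤ 2) => upr_turn (z := z) hg n0 n2 hT hR hκ1 hε0 hη0 hη.le
        (by linarith : ε ≤ ν) (by linarith) hr (by linarith) (by linarith) hq' t1 t2
    by_cases j0 : j = 0
    · exact tn 0 g1 le_rfl two_pos.le (by simpa [j0] using hz)
    by_cases j1 : j = 2 * m + 1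
    · exact tn 1 g2 one_pos.le one_le_two (by simpa [j1] using hz)
    by_cases j2 : j = 2 * (2 * m + 1)
    · exact tn 2 g3 two_pos.le le_rfl (by simpa [j2, mul_assoc] using hz)
    refine ⟨by positivity, c * r / 4, by nlinarith,
      hadm r hr hrr hq' j (by omega) (by omega) j1 z ?_⟩
    have n1 := norm_add_le (z - (t + j * r)) ((t : ℂ) - b)
    rw [nt, show z - (t + j * r) + ((t : ℂ) - b) = z - (b + j * r) by ring] at n1
    have n2 : η * r ≤ ν * r := mul_le_mul_of_nonneg_right (by linarith) hr.le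
    have n3 := mul_pos hν0 hr
    linarith
  obtain ⟨r, hr, hrr, hq, hlow⟩ := hq0 (2 * m + 1) (by omega) fun r h1 h2 h3 => by
    have n1 : |b + 4 * ε * r - b| = 4 * (ε * r) := by
      rw [add_sub_cancel_left, abs_of_pos (by positivity)]
      ring
    have n2 : ν * r = 2000 * (ε * r) := by rw [hε]; ring
    have n3 := mul_pos hε0 h1
    exact tube r h1 h2 (by exact_mod_cast h3) _ (by linarith) (by linarith)
  have hq' : |(2 * m + 1) * r - T| ≤ η * r := by exact_mod_cast hq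
  have hrδ : 100 * r * N < δ := by
    have := hrr.trans_le a7
    rw [lt_div_iff₀ (by positivity)] at this
    linarith
  have hball : ∀ j : ℕ, 1 ≤ j → j ≤ 4 * m + 1 → j ≠ 2 * m + 1 →
      ball ((b : ℂ) + j * r) (8 * ν * r) ⊆ D := by
    intro j j1 j2 j3
    refine (ball_subset_ball ?_).trans (hS.adm _ _ (hadm r hr hrr hq' j j1 j2 j3 _ ?_))
    · have : 0 < κ * c * r := by positivity
      rw [hν]
      nlinarith
    · rw [sub_self, norm_zero]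
      positivity
  have hun : ∀ x y : ℂ, y ∈ ball σ.2.2 δ → x ∈ ball σ.1 e → d.p (x, y) = 0 → x = ξ y := by
    intro x y h3 h1 h0
    have h4 := (hξ' _ h3).2.2 x h1
    rw [h0, norm_zero, mul_zero] at h4
    have h6 : ‖ξ y - x‖ ≤ 0 := le_of_mul_le_mul_left (by simpa using h4) (norm_pos_iff.2 hpx)
    exact (sub_eq_zero.1 (norm_le_zero_iff.1 h6)).symm
  have hAξ : ∀ (b' : ℂ) (δ' : ℝ), Xp D Φ b' σ (e / 2) δ' → 5 * r ≤ δ' → ∀ τ ∈ D,
      ‖τ - b'‖ < 5 * r → fA Φ τ = ξ (fY Φ τ) := by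
    intro b' δ' hX h5 τ hτ hl
    have h1 := (hX τ hτ (hl.trans_le h5)).1
    have h2 := UPB_normY hX hτ (hl.trans_le h5)
    refine hun _ _ ?_ (by rw [mem_ball, dist_eq_norm]; linarith) (hS.sol.pA τ hτ)
    rw [mem_ball, dist_eq_norm]
    have h4 : (‖σ.1 - σ.2.1‖ + e / 2) * ‖τ - b'‖ ≤ N * (5 * r) :=
      mul_le_mul (by linarith) hl.le (norm_nonneg _) hN0.le
    have h5 : 0 < r * N := mul_pos hr hN0
    linarith
  have hξe : ∀ y ∈ ball σ.2.2 δ, ‖ξ y - σ.1‖ ≤ e := fun y hy => by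
    have := (hξ' y hy).1
    rw [mem_ball, dist_eq_norm] at this
    exact this.le
  obtain ⟨Ψ, hΨ, hΨe, hΨc⟩ := hUPA d 0 R κ T S D Φ b σ ξ ε η ν r δ e m hS
    (hC r hr (hrr.trans_le a1)) hw hη0 hr (by linarith) (by omega) (by linarith) (by linarith)
    he0.le (by rw [← hW]; linarith) hq'
    (fun j j1 j2 j3 z hz =>
      ⟨by positivity, c * r / 4, by nlinarith, hadm r hr hrr hq' j j1 j2 j3 z hz⟩)
    (by simpa using hball 1 le_rfl (by omega) (by omega))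
    (by exact_mod_cast hball (2 * m + 2) (by omega) (by omega) (by omega))
    (UPB_mono hX0 (by linarith) (by linarith)) (UPB_mono hX1 (by linarith) (by linarith))
    (UPB_mono hX2 (by linarith) (by linarith)) hξ hξe (by rw [← hN]; exact hrδ)
    (hAξ _ _ hX1 (by linarith))
  rw [← hW, show W * ν * r / 2 = W * ν / 2 * r by ring] at hΨ hΨe
  have hWν : 0 < W * ν := mul_pos hW0 hν0
  have hηW : η * W ≤ W * ν / 8000 := by nlinarith
  obtain ⟨ζ, hζ, hζ'⟩ := C23.zeta (δ := 20 * η * W) hr (half_pos hWν) (by linarith) hΨ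
    fun c hc => (hΨe c hc).trans_eq (by ring)
  have hεr : 0 < ε * r := mul_pos hε0 hr
  have hεν : ν * r = 2000 * (ε * r) := by rw [hε]; ring
  have hνr : ν * r ≤ r / 100 := by nlinarith
  have hWr : 0 < W * (ν * r) := mul_pos hW0 (mul_pos hν0 hr)
  have hγ : W * ν / 2 * r = W * (ν * r) / 2 := by ring
  have heW : e ≤ W / 400 := by nlinarith
  have hγδ : W * ν / 2 * r / 8 ≤ δ := by
    have h1 : r * W ≤ r * N := mul_le_mul_of_nonneg_left (by linarith) hr.le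
    have h2 : 0 < r * N := mul_pos hr hN0
    have h3 : W * (ν * r) ≤ W * (r / 100) := mul_le_mul_of_nonneg_left hνr hW0.le
    linarith
  have re : ∀ t : ℝ, |t - b| < ν * r / 64 → t ≠ b → (t : ℂ) ∈ D ∧ Good d Φ t := fun t h1 h2 =>
    upr_real hS g4 h2 (by linarith) (by linarith) (by linarith)
  have hYt : ∀ t : ℝ, |t - b| < ν * r / 64 → t ≠ b → ‖fY Φ t - σ.2.2‖ ≤ W * (ν * r) / 32 := by
    intro t h1 h2
    have h9 := UPB_normY hX0 (re t h1 h2).1 (by rw [nt]; linarith)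
    rw [← hW, nt] at h9
    have h10 : (W + e / 2) * |t - b| ≤ (2 * W) * (ν * r / 64) :=
      mul_le_mul (by linarith) h1.le (abs_nonneg _) (by linarith)
    linarith
  refine hCLR d T Φ b (ν * r / 64) (3 * ε * r) (W * ν / 2 * r / 8) ξ ζ hP (by linarith)
    (by linarith) (fun t h1 h2 => (re t h1 h2).2) (by rw [sY]; exact hξ.mono (ball_subset_ball hγδ))
    (by rw [sY]; exact hζ) (fun t h1 => ?_) fun t h1 h2 => ?_
  · by_cases h2 : t = b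
    · rw [h2, sA, sY]
      exact ⟨mem_ball_self (by linarith), hun _ _ (mem_ball_self hδ) (mem_ball_self he0) hO⟩
    · refine ⟨?_, hAξ _ _ hX0 (by linarith) _ (re t h1 h2).1 (by rw [nt]; linarith)⟩
      rw [sY, mem_ball, dist_eq_norm]
      linarith [hYt t h1 h2]
  · have h3 : t ≠ b := by
      rintro rfl
      rw [sub_self, abs_zero] at h1
      linarith
    have tb := tube r hr hrr hq' t h1 (by linarith)
    have h4 := hYt t h2 h3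
    refine (hζ' _ (by rw [mem_ball, dist_eq_norm]; linarith)).2 _ ?_
      (hΨc t (by rw [nt]; linarith) tb (hlow t tb))
    have h5 := (hX0 t (re t h2 h3).1 (by rw [nt]; linarith)).2.1
    have h6 : ‖(r : ℂ) * (fB Φ t - σ.2.1)‖ ≤ r * (W * ν / 8000) := by
      rw [norm_mul, Complex.norm_real, Real.norm_eq_abs, abs_of_pos hr]
      exact mul_le_mul_of_nonneg_left (by nlinarith) hr.le
    rw [mem_ball, dist_eq_norm, show fY Φ t - r * fB Φ t - (σ.2.2 - r * σ.2.1) =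
      fY Φ t - σ.2.2 - r * (fB Φ t - σ.2.1) by ring]
    linarith [norm_sub_le (fY Φ t - σ.2.2) (r * (fB Φ t - σ.2.1))]

end Pool.Agent.AO
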