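import Pool.Agent.Lib.AO.Blue3
import Pool.Agent.Lib.AO.Sect75
import Pool.Agent.Lib.AO.Str62

set_option autoImplicit false

noncomputable section

namespace Pool.Agent.AO

open Set Metric Filter Topology ComplexConjugate

/-- A solution on the disc of radius `ρ` about the real time `c` whose trace is the flow. -/
def rsX (d : Dat) (Φ : ℂ → S3) (c ρ : ℝ) : Prop :=
  ∃ Ψ, Sol d (ball (c : ℂ) ρ) Ψ ∧ ∀ t : ℝ, |t - c| < ρ → Ψ t = Φ t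

theorem rs_norm (t c : ℝ) : ‖(t : ℂ) - c‖ = |t - c| := by
  rw [← Complex.ofReal_sub, Complex.norm_real, Real.norm_eq_abs]

theorem rs_mem {c ρ t : ℝ} : (t : ℂ) ∈ ball (c : ℂ) ρ ↔ |t - c| < ρ := by
  rw [mem_ball, dist_eq_norm, rs_norm]

theorem rs_mono (hS : St_SYM) {d : Dat} {Φ : ℂ → S3} {c c' ρ ρ' : ℝ} (h : rsX d Φ c ρ)
    (hs : ρ' + |c' - c| ≤ ρ) : rsX d Φ c' ρ' := by
  obtain ⟨Ψ, h1, h2⟩ := h
  have hsub : ball (c' : ℂ) ρ' ⊆ ball (c : ℂ) ρ :=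
    ball_subset_ball' (by rwa [dist_eq_norm, rs_norm])
  exact ⟨Ψ, (hS d _ Ψ h1).1 _ isOpen_ball hsub,
    fun t ht => h2 t (rs_mem.1 (hsub (rs_mem.2 ht)))⟩

theorem rs_an {Ψ : ℂ → S3} {c ρ t : ℝ} (h : DifferentiableOn ℂ Ψ (ball (c : ℂ) ρ))
    (ht : |t - c| < ρ) : AnalyticAt ℝ (fun s : ℝ => Ψ s) t :=
  ((h.analyticOnNhd isOpen_ball _ (rs_mem.2 ht)).restrictScalars (𝕜 := ℝ)).comp
    (Complex.ofRealCLM.analyticAt t)

theorem rs_good_an {d : Dat} {Φ : ℂ → S3} {t : ℝ} (h : Good d Φ t) :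
    AnalyticAt ℝ (fun s : ℝ => Φ s) t := by
  obtain ⟨ρ, hρ, Ψ, h1, h2⟩ := h
  refine (rs_an h1.df (by rwa [sub_self, abs_zero])).congr ?_
  filter_upwards [ball_mem_nhds t hρ] with s hs
  exact h2 s (by rwa [mem_ball, Real.dist_eq] at hs)

/-- Agreement near the centre spreads along the real diameter. -/
theorem rs_diam {d : Dat} {Φ Ψ : ℂ → S3} {c ρ ρ0 : ℝ}
    (hΨ : DifferentiableOn ℂ Ψ (ball (c : ℂ) ρ)) (hg : ∀ t : ℝ, |t - c| < ρ → Good d Φ t)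
    (h0 : 0 < ρ0) (he : ∀ t : ℝ, |t - c| < ρ0 → Ψ t = Φ t) (t : ℝ) (ht : |t - c| < ρ) :
    Ψ t = Φ t := by
  have hρ : 0 < ρ := (abs_nonneg _).trans_lt ht
  have m : ∀ {r s : ℝ}, s ∈ ball c r ↔ |s - c| < r := by
    intro r s
    rw [mem_ball, Real.dist_eq]
  have a1 : AnalyticOnNhd ℝ (fun s : ℝ => Ψ s) (ball c ρ) := fun s hs => rs_an hΨ (m.1 hs)
  have a2 : AnalyticOnNhd ℝ (fun s : ℝ => Φ s) (ball c ρ) := fun s hs =>
    rs_good_an (hg s (m.1 hs))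
  exact a1.eqOn_of_preconnected_of_eventuallyEq a2 (convex_ball c ρ).isPreconnected
    (mem_ball_self hρ) (eventually_of_mem (ball_mem_nhds c h0) fun s hs => he s (m.1 hs)) (m.2 ht)

/-- Identity theorem from the real diameter. -/
theorem rs_ident {f g : ℂ → S3} {c ρ : ℝ} (hf : DifferentiableOn ℂ f (ball (c : ℂ) ρ))
    (hg : DifferentiableOn ℂ g (ball (c : ℂ) ρ)) (he : ∀ t : ℝ, |t - c| < ρ → f t = g t) :
    EqOn f g (ball (c : ℂ) ρ) := by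
  intro z hz
  have hρ := pos_of_mem_ball hz
  refine (hf.analyticOnNhd isOpen_ball).eqOn_of_preconnected_of_frequently_eq
    (hg.analyticOnNhd isOpen_ball) (convex_ball _ _).isPreconnected (mem_ball_self hρ) ?_ hz
  have t1 : Tendsto (fun t : ℝ => (t : ℂ)) (𝓝[≠] c) (𝓝[≠] (c : ℂ)) := by
    refine tendsto_nhdsWithin_iff.2
      ⟨(Complex.continuous_ofReal.tendsto c).mono_left nhdsWithin_le_nhds, ?_⟩
    filter_upwards [self_mem_nhdsWithin] with t ht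
    exact fun e => ht (Complex.ofReal_injective e)
  refine t1.frequently (Eventually.frequently ?_)
  filter_upwards [mem_nhdsWithin_of_mem_nhds (ball_mem_nhds c hρ)] with t ht
  exact he t (by rwa [mem_ball, Real.dist_eq] at ht)

/-- Expansion of the real flow at a real time. -/
theorem rs_exp {d : Dat} {T : ℝ} {Φ : ℂ → S3} (hR : RF d T Φ) (b : ℝ) {ε : ℝ} (hε : 0 < ε) :
    ∃ δ : ℝ, 0 < δ ∧ ∀ t : ℝ, ‖(t : ℂ) - b‖ < δ → ‖fA Φ t - (Φ b).1‖ ≤ ε ∧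
      ‖fB Φ t - (Φ b).2.1‖ ≤ ε ∧
      ‖fY Φ t - (Φ b).2.2 - ((Φ b).1 - (Φ b).2.1) * (t - b)‖ ≤ 2 * ε * ‖(t : ℂ) - b‖ := by
  have h1 := Metric.tendsto_nhds.1 (hR.ct.tendsto b) ε hε
  have h2 := (hasDerivAt_iff_isLittleO.1 (hR.dY b)).bound (by positivity : 0 < 2 * ε)
  obtain ⟨δ, hδ, h⟩ := Metric.eventually_nhds_iff.1 (h1.and h2)
  refine ⟨δ, hδ, fun t ht => ?_⟩
  obtain ⟨a1, a2⟩ := h (y := t) (by rwa [Real.dist_eq, ← rs_norm])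
  rw [dist_eq_norm] at a1
  refine ⟨(norm_fst_le (Φ t - Φ b)).trans a1.le,
    ((norm_fst_le (Φ t - Φ b).2).trans (norm_snd_le (Φ t - Φ b))).trans a1.le, ?_⟩
  rw [Real.norm_eq_abs, ← rs_norm, Complex.real_smul, Complex.ofReal_sub, mul_comm] at a2
  exact a2

theorem rs_punct {d : Dat} {T : ℝ} {Φ : ℂ → S3} (hR : RF d T Φ) (b : ℝ) :
    ∃ δ : ℝ, 0 < δ ∧ ∀ t : ℝ, |t - b| < δ → t ≠ b → Good d Φ t := by
  have h1 : IsOpen ({c : ℝ | |c| ≤ |b| + 1 ∧ ¬Good d Φ c} \ {b})ᶜ :=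
    ((hR.fin _).subset sdiff_subset).isClosed.isOpen_compl
  obtain ⟨β, hβ, h⟩ := Metric.isOpen_iff.1 h1 b (fun h => h.2 rfl)
  refine ⟨min β 1, by positivity, fun t ht hne => ?_⟩
  rw [lt_min_iff] at ht
  by_contra hn
  refine h (a := t) (by rw [mem_ball, Real.dist_eq]; exact ht.1) ⟨⟨?_, hn⟩, hne⟩
  have := abs_sub_abs_le_abs_sub t b
  linarith [ht.2]

/-- Near a real time with distinct ends the flow extends to discs of radius proportional to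
the distance. -/
theorem rs_near (hM : St_MAXB) (hG : St_GRON) (hS : St_SYM) {d : Dat} {T : ℝ} {Φ : ℂ → S3}
    (hd : Gen d) (hR : RF d T Φ) (b : ℝ) (hw : (Φ b).1 ≠ (Φ b).2.1) :
    ∃ δ κ : ℝ, 0 < δ ∧ 0 < κ ∧ ∀ c : ℝ, |c - b| < δ → ∀ e : ℝ, 0 < e → e ≤ 1 →
      e ≤ ‖(c : ℂ) - b‖ → rsX d Φ c (κ * e) := by
  obtain ⟨δ0, hδ0, hgood⟩ := rs_punct hR b
  set σ := Φ b with hσ
  have hw0 : 0 < ‖σ.1 - σ.2.1‖ := norm_pos_iff.2 (sub_ne_zero.2 hw)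
  obtain ⟨β, hβ, hbad⟩ := sect_punct hd.g2 σ.2.2
  obtain ⟨M, hMp, hlip⟩ := sect_lip hG hd (‖σ.2.2‖ + β)
  obtain ⟨δ, hδ, hexp⟩ := rs_exp hR b (ε := ‖σ.1 - σ.2.1‖ / 4) (by positivity)
  rw [← hσ] at hexp
  set w := ‖σ.1 - σ.2.1‖ with hwdef
  refine ⟨min (δ0 / 2) (min δ (β / (2 * w))), min 1 (w / (4 * M)), by positivity, by positivity, ?_⟩
  intro c hcb e he he1 hec
  rw [lt_min_iff, lt_min_iff] at hcb
  obtain ⟨hc0, hc1, hc2⟩ := hcb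
  set κ := min 1 (w / (4 * M)) with hκ
  have hκp : 0 < κ := by positivity
  have hκ1 : κ ≤ 1 := min_le_left _ _
  have hκ2 : M * κ ≤ w / 4 := by
    have : κ ≤ w / (4 * M) := min_le_right _ _
    rw [le_div_iff₀ (by positivity)] at this
    linarith
  have hR0 : 0 < κ * e := mul_pos hκp he
  have hR1 : κ * e ≤ 1 := mul_le_one₀ hκ1 he.le he1
  have hg : ∀ t : ℝ, |t - c| < κ * e → Good d Φ t := by
    intro t ht
    have a1 : κ * e ≤ e := mul_le_of_le_one_left he.le hκ1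
    rw [rs_norm] at hec
    refine hgood t ?_ fun e0 => ?_
    · have := abs_sub_le t c b
      linarith
    · rw [e0, abs_sub_comm] at ht
      linarith
  rw [← rs_norm] at hc1 hc2
  obtain ⟨hA, hB, hY⟩ := hexp c hc1
  have hcβ : 2 * w * ‖(c : ℂ) - b‖ ≤ β := by
    have := hc2.le
    rw [le_div_iff₀ (by positivity)] at this
    linarith
  have hn : ‖(σ.1 - σ.2.1) * ((c : ℂ) - b)‖ = w * ‖(c : ℂ) - b‖ := norm_mul _ _
  have hwc : 0 < w * ‖(c : ℂ) - b‖ := mul_pos hw0 (he.trans_le hec)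
  have hup : ‖fY Φ c - σ.2.2‖ ≤ 3 / 2 * (w * ‖(c : ℂ) - b‖) := by
    have := norm_le_norm_add_norm_sub' (fY Φ c - σ.2.2) ((σ.1 - σ.2.1) * ((c : ℂ) - b))
    linarith
  have hlo : 1 / 2 * (w * ‖(c : ℂ) - b‖) ≤ ‖fY Φ c - σ.2.2‖ := by
    have := norm_le_norm_add_norm_sub (fY Φ c - σ.2.2) ((σ.1 - σ.2.1) * ((c : ℂ) - b))
    linarith
  have hYc : ‖fY Φ c‖ ≤ ‖σ.2.2‖ + β := by
    have := norm_le_norm_add_norm_sub' (fY Φ c) σ.2.2
    linarith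
  obtain ⟨ρ1, hρ1, Φ0, hs, h0⟩ := hg c (by rwa [sub_self, abs_zero])
  have hρ0 : 0 < min ρ1 (κ * e) := lt_min hρ1 hR0
  have ec : Φ0 c = Φ c := h0 c (by rwa [sub_self, abs_zero])
  have hnz : fA Φ0 c ≠ fB Φ0 c := by
    intro e0
    have := sect_w hA hB
    unfold fA fB at e0 this
    rw [ec] at e0
    rw [e0, sub_self, zero_sub, norm_neg] at this
    linarith
  have hcn : Continuous fun y : ℂ => ‖y - σ.2.2‖ := by fun_prop
  obtain ⟨Ψ, hΨ, heq⟩ := hM d Φ0 c (min ρ1 (κ * e)) (κ * e)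
    {y | 1 / 4 * (w * ‖(c : ℂ) - b‖) ≤ ‖y - σ.2.2‖ ∧ ‖y - σ.2.2‖ ≤ β} hd hρ0 (min_le_right _ _)
    ((hS d _ Φ0 hs).1 _ isOpen_ball (ball_subset_ball (min_le_left _ _)))
    ⟨c, mem_ball_self hρ0, hnz⟩
    ((isClosed_le continuous_const hcn).and (isClosed_le hcn continuous_const))
    (fun y hy x h1 h2 => hbad y (lt_of_lt_of_le (by positivity) hy.1) hy.2 ⟨x, h1, h2⟩)
    (fun ρ Ψ h1 h2 h3 h4 τ hτ => by
      have e0 : fY Ψ c = fY Φ c := by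
        unfold fY
        rw [h4 (mem_ball_self hρ0), ec]
      have h5 := hlip c ρ Ψ (h2.trans hR1) h3 (by rw [e0]; exact hYc) τ hτ
      rw [e0] at h5
      have h6 : ‖τ - c‖ ≤ κ * ‖(c : ℂ) - b‖ := by
        rw [mem_ball, dist_eq_norm] at hτ
        exact (hτ.le.trans h2).trans (mul_le_mul_of_nonneg_left hec hκp.le)
      have h7 : M * ‖τ - c‖ ≤ 1 / 4 * (w * ‖(c : ℂ) - b‖) := by
        have a1 := mul_le_mul_of_nonneg_left h6 hMp.le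
        have a2 := mul_le_mul_of_nonneg_right hκ2 (norm_nonneg ((c : ℂ) - b))
        linarith
      have h8 := norm_sub_le_norm_sub_add_norm_sub (fY Ψ τ) (fY Φ c) σ.2.2
      have h9 := norm_sub_le_norm_sub_add_norm_sub (fY Φ c) (fY Ψ τ) σ.2.2
      rw [norm_sub_rev (fY Φ c) (fY Ψ τ)] at h9
      exact ⟨by linarith, by linarith⟩)
  exact ⟨Ψ, hΨ, rs_diam hΨ.df hg hρ0 fun t ht =>
    (heq (rs_mem.2 ht)).trans (h0 t (ht.trans_le (min_le_left _ _)))⟩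

theorem rs_loc (hM : St_MAXB) (hG : St_GRON) (hS : St_SYM) {d : Dat} {T : ℝ} {Φ : ℂ → S3}
    (hd : Gen d) (hR : RF d T Φ) (x : ℝ) : ∃ δ κ : ℝ, 0 < δ ∧ 0 < κ ∧ ∀ c : ℝ, |c - x| < δ →
      ∀ e : ℝ, 0 < e → e ≤ 1 → (¬Good d Φ x → e ≤ ‖(c : ℂ) - x‖) → rsX d Φ c (κ * e) := by
  by_cases hE : Good d Φ x
  · obtain ⟨ρ, hρ, hX⟩ := hE
    refine ⟨ρ / 2, ρ / 2, by positivity, by positivity, fun c hcx e he he1 _ => ?_⟩
    refine rs_mono hS (c := x) (ρ := ρ) hX ?_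
    have := mul_le_of_le_one_right (by positivity : 0 ≤ ρ / 2) he1
    linarith
  · obtain ⟨δ, κ, hδ, hκ, h⟩ := rs_near hM hG hS hd hR x fun e => hE (hR.dg x e).1
    exact ⟨δ, κ, hδ, hκ, fun c hcx e he he1 h3 => h c hcx e he he1 (h3 hE)⟩

/-- A uniform constant on a compact window. -/
theorem rs_cov (hM : St_MAXB) (hG : St_GRON) (hS : St_SYM) {d : Dat} {T : ℝ} {Φ : ℂ → S3}
    (hd : Gen d) (hR : RF d T Φ) (R : ℝ) : ∃ k : ℝ, 0 < k ∧ k ≤ 1 / 2 ∧ ∀ c : ℝ, |c| ≤ R →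
      ∀ e : ℝ, 0 < e → e ≤ 1 → (∀ b : ℝ, |b| ≤ R → ¬Good d Φ b → e ≤ ‖(c : ℂ) - b‖) →
        rsX d Φ c (k * e) := by
  choose δ κ hδ hκ h using rs_loc hM hG hS hd hR
  obtain ⟨t, ht, hcov⟩ := (isCompact_closedBall (0 : ℝ) R).elim_nhds_subcover
    (fun x => ball x (δ x)) fun x _ => ball_mem_nhds x (hδ x)
  have hk := fun c => (Finset.le_fold_min (s := t) (f := κ) (b := (1 / 2 : ℝ)) (c := c))
  have hk1 := (hk _).1 le_rfl
  have hkp : 0 < t.fold min (1 / 2 : ℝ) κ :=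
    (Finset.lt_fold_min _).2 ⟨by norm_num, fun x _ => hκ x⟩
  refine ⟨t.fold min (1 / 2) κ, hkp, hk1.1, fun c hcR e he he1 hec => ?_⟩
  have := hcov (mem_closedBall_zero_iff.2 (show ‖c‖ ≤ R from hcR))
  simp only [mem_iUnion, mem_ball, Real.dist_eq, exists_prop] at this
  obtain ⟨x, hx, hcx⟩ := this
  refine rs_mono hS (h x c hcx e he he1 (hec x (mem_closedBall_zero_iff.1 (ht x hx)))) ?_
  rw [sub_self, abs_zero, add_zero]
  exact mul_le_mul_of_nonneg_right (hk1.2 x hx) he.le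

/-- Expansion on discs with real centres. -/
theorem rs_xp (hG : St_GRON) (hC : St_CLU) (hS : St_SYM) {d : Dat} {T : ℝ} {D : Set ℂ}
    {Ψ : ℂ → S3} (b : ℝ) (hd : Gen d) (hR : RF d T Ψ) (hD : Sol d D Ψ)
    (hcov : ∀ τ ∈ D, ∃ c ρ : ℝ, τ ∈ ball (c : ℂ) ρ ∧ ball (c : ℂ) ρ ⊆ D ∧ ρ ≤ 1 ∧
      2 * ρ ≤ ‖(c : ℂ) - b‖) {ε : ℝ} (hε : 0 < ε) : ∃ δ : ℝ, 0 < δ ∧ Xp D Ψ b (Ψ b) ε δ := by
  obtain ⟨δ1, hδ1, hexp⟩ := rs_exp hR b (ε := ε / 8) (by positivity)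
  generalize Ψ b = σ at hexp ⊢
  obtain ⟨δ2, hδ2, hclu⟩ := hC d hd σ.2.2 (ε / 8) (by positivity)
  obtain ⟨M, hMp, hlip⟩ := sect_lip hG hd (‖σ.2.2‖ + δ2)
  set N := ‖σ.1 - σ.2.1‖ + ε + M with hN
  have hNp : 0 < N := by positivity
  refine ⟨min δ1 (δ2 / N) / 2, by positivity, fun τ hτ hτb => ?_⟩
  obtain ⟨c0, ρ, hτc, hsub, hρ1, hρ2⟩ := hcov τ hτ
  have hexp' := hexp c0
  generalize (c0 : ℂ) = c at hτc hsub hρ2 hexp'
  generalize (b : ℂ) = b at hρ2 hexp' hτb ⊢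
  have hcc : c ∈ ball c ρ := mem_ball_self (pos_of_mem_ball hτc)
  have hin : ∀ u ∈ ball c ρ, 2 * ‖u - c‖ ≤ ‖c - b‖ := by
    intro u hu
    rw [mem_ball, dist_eq_norm] at hu
    linarith
  have hcb : ‖c - b‖ ≤ 2 * ‖τ - b‖ := by
    have t1 := norm_sub_le_norm_sub_add_norm_sub c τ b
    rw [norm_sub_rev c τ] at t1
    linarith [hin τ hτc]
  have hc1 : ‖c - b‖ < δ1 := by linarith [min_le_left δ1 (δ2 / N)]
  have hc2 : N * ‖c - b‖ < δ2 := by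
    have : ‖c - b‖ < δ2 / N := by linarith [min_le_right δ1 (δ2 / N)]
    rw [lt_div_iff₀ hNp] at this
    linarith
  obtain ⟨hA, hB, hY⟩ := hexp' hc1
  have hW : Sol d (ball c ρ) Ψ := (hS d D Ψ hD).1 _ isOpen_ball hsub
  have hn : ‖(σ.1 - σ.2.1) * (c - b)‖ = ‖σ.1 - σ.2.1‖ * ‖c - b‖ := norm_mul _ _
  have p1 : 0 ≤ ε * ‖c - b‖ := by positivity
  have p2 : 0 ≤ M * ‖c - b‖ := by positivity
  have hup : ‖fY Ψ c - σ.2.2‖ ≤ ‖σ.1 - σ.2.1‖ * ‖c - b‖ + ε * ‖c - b‖ := by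
    have := norm_le_norm_add_norm_sub' (fY Ψ c - σ.2.2) ((σ.1 - σ.2.1) * (c - b))
    linarith
  have hN' : N * ‖c - b‖ = ‖σ.1 - σ.2.1‖ * ‖c - b‖ + ε * ‖c - b‖ + M * ‖c - b‖ := by
    rw [hN]; ring
  have hYc : ‖fY Ψ c‖ ≤ ‖σ.2.2‖ + δ2 := by
    have := norm_le_norm_add_norm_sub' (fY Ψ c) σ.2.2
    linarith
  have hYu : ∀ u ∈ ball c ρ, ‖fY Ψ u - σ.2.2‖ < δ2 := by
    intro u hu
    have h1 := hlip c ρ Ψ hρ1 hW hYc u hu
    have h2 := mul_le_mul_of_nonneg_left (hin u hu) hMp.le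
    have h3 := norm_sub_le_norm_sub_add_norm_sub (fY Ψ u) (fY Ψ c) σ.2.2
    linarith
  have hco := hW.df.continuousOn
  have hAu : ∀ u ∈ ball c ρ, ‖fA Ψ u - σ.1‖ ≤ ε / 4 := by
    intro u hu
    have h1 := hclu (ball c ρ) (fA Ψ) (fY Ψ) (convex_ball c ρ).isPreconnected hco.fst
      (fun v hv => ⟨hW.pA v hv, hYu v hv⟩) u hu c hcc
    have h3 := norm_sub_le_norm_sub_add_norm_sub (fA Ψ u) (fA Ψ c) σ.1
    linarith
  have hBu : ∀ u ∈ ball c ρ, ‖fB Ψ u - σ.2.1‖ ≤ ε / 4 := by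
    intro u hu
    have h1 := hclu (ball c ρ) (fB Ψ) (fY Ψ) (convex_ball c ρ).isPreconnected hco.snd.fst
      (fun v hv => ⟨hW.pB v hv, hYu v hv⟩) u hu c hcc
    have h3 := norm_sub_le_norm_sub_add_norm_sub (fB Ψ u) (fB Ψ c) σ.2.1
    linarith
  refine ⟨by linarith [hAu τ hτc], by linarith [hBu τ hτc], ?_⟩
  have h1 := sect_mv (w := fun s => fA Ψ s - fB Ψ s) (convex_ball c ρ) hW.dY
    (fun u hu => sect_w (hAu u hu) (hBu u hu)) hτc hcc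
  have e : fY Ψ τ - σ.2.2 - (σ.1 - σ.2.1) * (τ - b) =
      (fY Ψ τ - fY Ψ c - (σ.1 - σ.2.1) * (τ - c)) +
        (fY Ψ c - σ.2.2 - (σ.1 - σ.2.1) * (c - b)) := by ring
  rw [e]
  have h2 := mul_le_mul_of_nonneg_left (hin τ hτc) hε.le
  have h3 := mul_le_mul_of_nonneg_left hcb hε.le
  refine (norm_add_le _ _).trans ?_
  linarith

/-- `RF` sees real times only. -/
theorem rs_congr {d : Dat} {T : ℝ} {Φ Ψ : ℂ → S3} (hR : RF d T Φ) (e : ∀ t : ℝ, Ψ t = Φ t) :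
    RF d T Ψ := by
  have g : ∀ c, Good d Ψ c ↔ Good d Φ c := fun c => by simp only [Good, e]
  refine ⟨hR.Tp, fun t => ?_, fun t => ?_, fun t => by rw [e, hR.re], fun t => ?_, ?_,
    fun t => by rw [e]; exact hR.ons t, fun t => ?_, fun R => ?_, fun t => ?_⟩
  · rw [← Complex.ofReal_add, e, e, Complex.ofReal_add, hR.per]
  · rw [← Complex.ofReal_neg, e, e, Complex.ofReal_neg, hR.neg]
  · simpa only [fA, fB, e] using hR.zer t
  · simpa only [e] using hR.ct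
  · simpa only [fA, fB, fY, e] using hR.dY t
  · simpa only [g] using hR.fin R
  · simpa only [fA, fB, fY, e, g] using hR.dg t

theorem rs_nz {d : Dat} {T : ℝ} {Φ : ℂ → S3} (hR : RF d T Φ) (c : ℝ) {ρ : ℝ} (hρ : 0 < ρ) :
    NZ (ball (c : ℂ) ρ) Φ := by
  by_contra hn
  have hz : ∀ t : ℝ, |t - c| < ρ → ∃ k : ℤ, t = k * (T / 2) := fun t ht =>
    (hR.zer t).1 (by
      by_contra h
      exact hn ⟨t, rs_mem.2 ht, h⟩)
  have hT := hR.Tp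
  have s0 : 0 < min (ρ / 2) (T / 4) := by positivity
  have s1 := min_le_left (ρ / 2) (T / 4)
  have s2 := min_le_right (ρ / 2) (T / 4)
  obtain ⟨k, hk⟩ := hz c (by rwa [sub_self, abs_zero])
  obtain ⟨l, hl⟩ := hz (c + min (ρ / 2) (T / 4)) (by
    rw [add_sub_cancel_left, abs_of_pos s0]
    linarith)
  have a1 : (k : ℝ) < l := lt_of_mul_lt_mul_right (a := T / 2) (by linarith) (by positivity)
  have a2 : (l : ℝ) < k + 1 := lt_of_mul_lt_mul_right (a := T / 2) (by linarith) (by positivity)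
  have b1 : k < l := by exact_mod_cast a1
  have b2 : l < k + 1 := by exact_mod_cast a2
  omega

theorem st_RSEC (hL : St_LIM) (hM : St_MAXB) (hG : St_GRON) (hC : St_CLU) (hS : St_SYM)
    (hRG : St_RGL) : St_RSEC := by
  classical
  intro d T R Φ hd hR
  obtain ⟨k, hk, hk2, hcov⟩ := rs_cov hM hG hS hd hR R
  obtain ⟨S, hSm⟩ : ∃ S : Finset ℂ, ∀ z, z ∈ S ↔ ∃ b : ℝ, (|b| ≤ R ∧ ¬Good d Φ b) ∧ (b : ℂ) = z :=
    ⟨(hR.fin R).toFinset.image Complex.ofReal, fun z => by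
      simp only [Finset.mem_image, Finite.mem_toFinset, mem_ofPred_eq]⟩
  have hm := fun (c e : ℝ) =>
    (Finset.le_fold_min (s := S) (f := fun b => ‖(c : ℂ) - b‖) (b := (1 : ℝ)) (c := e))
  set m : ℝ → ℝ := fun c => S.fold min 1 fun b => ‖(c : ℂ) - b‖ with hmdef
  have hm1 : ∀ c, m c ≤ 1 ∧ ∀ b ∈ S, m c ≤ ‖(c : ℂ) - b‖ := fun c => (hm c _).1 le_rfl
  have h0 : ∀ c : ℝ, ∃ Ψ : ℂ → S3, |c| ≤ R ∧ 0 < m c →
      Sol d (ball (c : ℂ) (k * m c)) Ψ ∧ ∀ t : ℝ, |t - c| < k * m c → Ψ t = Φ t := by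
    intro c
    by_cases hc : |c| ≤ R ∧ 0 < m c
    · obtain ⟨Ψ, h⟩ := hcov c hc.1 (m c) hc.2 (hm1 c).1
        fun b h1 h2 => (hm1 c).2 b ((hSm _).2 ⟨b, ⟨h1, h2⟩, rfl⟩)
      exact ⟨Ψ, fun _ => h⟩
    · exact ⟨Φ, fun h => absurd h hc⟩
  choose Ψ hΨ using h0
  obtain ⟨Ω, hΩ, hre⟩ := hRG {c | |c| ≤ R ∧ 0 < m c} Φ (fun c => k * m c) Ψ
    fun c hc => ⟨(hΨ c hc).1.df, (hΨ c hc).2⟩
  have hR' := rs_congr hR hre
  set D : Set ℂ := ⋃ c ∈ {c : ℝ | |c| ≤ R ∧ 0 < m c}, ball (c : ℂ) (k * m c) with hDdef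
  have hball : ∀ c : ℝ, |c| ≤ R ∧ 0 < m c → ball (c : ℂ) (k * m c) ⊆ D := fun c h =>
    subset_biUnion_of_mem (u := fun c : ℝ => ball (c : ℂ) (k * m c))
      (show c ∈ {c : ℝ | |c| ≤ R ∧ 0 < m c} from h)
  have hmem : ∀ τ ∈ D, ∃ c : ℝ, (|c| ≤ R ∧ 0 < m c) ∧ τ ∈ ball (c : ℂ) (k * m c) := by
    intro τ hτ
    simpa only [hDdef, mem_iUnion, exists_prop, mem_ofPred_eq] using hτ
  have hD : Sol d D Ω := R62.sol_local (isOpen_biUnion fun _ _ => isOpen_ball) fun z hz => by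
    obtain ⟨c, hc, hz⟩ := hmem z hz
    exact ⟨_, Ψ c, (hΨ c hc).1, hz, eventually_of_mem (isOpen_ball.mem_nhds hz) (hΩ c hc)⟩
  have hcj : ∀ (c ρ : ℝ), ∀ τ ∈ ball (c : ℂ) ρ, conj τ ∈ ball (c : ℂ) ρ := by
    intro c ρ τ hτ
    rw [mem_ball, dist_eq_norm] at hτ ⊢
    rwa [← Complex.conj_ofReal c, ← map_sub, Complex.norm_conj]
  refine ⟨k / 4, S, D, Ω, ⟨hD, le_rfl, by positivity, by linarith, fun b hb => ?_, ?_,
    fun b hb => ?_, fun τ hτ => ?_⟩, hre, fun τ hτ => ?_,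
    fun b h1 h2 => (hSm _).2 ⟨b, ⟨h1, h2⟩, rfl⟩⟩
  · obtain ⟨b, -, rfl⟩ := (hSm b).1 hb
    rw [Complex.ofReal_im, abs_zero]
  · rintro z e ⟨a1, a2, a3, a4, a5, a6⟩
    have hke2 : k * e ≤ 1 / 2 * e := mul_le_mul_of_nonneg_right hk2 a4.le
    have hzc : ‖z - z.re‖ ≤ k / 4 * e := by
      have e0 : z - z.re = z.im * Complex.I := by
        linear_combination -Complex.re_add_im z
      rw [e0, norm_mul, Complex.norm_I, mul_one, Complex.norm_real, Real.norm_eq_abs, abs_le]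
      constructor <;> linarith
    have h1 : e / 2 ≤ m z.re := (hm z.re _).2 ⟨by linarith, fun b hb => by
      have := norm_sub_le_norm_sub_add_norm_sub z z.re b
      linarith [a6 b hb]⟩
    refine (ball_subset_ball' ?_).trans
      (hball z.re ⟨(Complex.abs_re_le_norm z).trans a1, by linarith⟩)
    have h2 := mul_le_mul_of_nonneg_left h1 hk.le
    rw [dist_eq_norm]
    linarith
  · obtain ⟨b0, h1, rfl⟩ := (hSm b).1 hb
    refine ⟨Ω b0, fun e => h1.2 (hR.dg b0 ?_).1, fun ε hε => ?_⟩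
    · rwa [hre] at e
    refine rs_xp hG hC hS b0 hd hR' hD (fun τ hτ => ?_) hε
    obtain ⟨c, hc, hτ⟩ := hmem τ hτ
    have b1 := mul_le_mul_of_nonneg_right hk2 hc.2.le
    exact ⟨c, _, hτ, hball c hc, by linarith [(hm1 c).1], by linarith [(hm1 c).2 _ hb]⟩
  · obtain ⟨c, hc, hτ⟩ := hmem τ hτ
    exact sect_diag hL hS hd ((hS d D Ω hD).1 _ isOpen_ball (hball c hc))
      (convex_ball _ _).isPreconnected (rs_nz hR' c (pos_of_mem_ball hτ)) hτ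
  · obtain ⟨c, hc, hτ⟩ := hmem τ hτ
    refine ⟨hball c hc (hcj _ _ τ hτ), ?_⟩
    have s1 := (hS d D Ω hD).2.2.2.1
    have := rs_ident (f := Ω) (g := fun τ => cj (Ω (conj τ))) (hD.df.mono (hball c hc))
      (s1.df.mono fun u hu => hball c hc (hcj _ _ u hu))
      (fun t _ => by rw [Complex.conj_ofReal, hR'.re]) (hcj _ _ τ hτ)
    simpa only [Complex.conj_conj] using this

end Pool.Agent.AO
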