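import Pool.Agent.Lib.AO.Blue3
import Pool.Agent.Lib.AO.B_FAR

set_option autoImplicit false

noncomputable section

namespace Pool.Agent.AO.Two

open Set Metric Filter Topology

open FAR in
theorem st_FAR (hI : St_INT) (hS : St_SOLVE0) (hH : St_SCH) : St_FAR := by
  classical
  intro d h R κ S D Φ hs
  have hd : ∀ τ ∈ D, fA Φ τ = fB Φ τ → d.py (fA Φ τ, fY Φ τ) ≠ 0 :=
    fun τ hτ e => (hs.diag τ hτ e).2
  have hκ := hs.kp
  have hκ1 := hs.k1
  have hev : ∀ᶠ δ in 𝓝[>] (0 : ℝ), ∀ b ∈ S, ∃ σ : S3, σ.1 ≠ σ.2.1 ∧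
      Xp D Φ b σ (‖σ.1 - σ.2.1‖ / 16) (2 * δ) := by
    refine (S.eventually_all).2 fun b hb => ?_
    obtain ⟨σ, h1, h2⟩ := hs.xp b hb
    obtain ⟨δ, h3, h4⟩ := h2 (‖σ.1 - σ.2.1‖ / 16)
      (div_pos (norm_pos_iff.2 (sub_ne_zero.2 h1)) (by norm_num))
    filter_upwards [Ioo_mem_nhdsGT (half_pos h3)] with x hx
    exact ⟨σ, h1, fun τ hτ h5 => h4 τ hτ (by linarith [hx.2])⟩
  obtain ⟨δ, hX, hδ⟩ := (hev.and self_mem_nhdsWithin).exists
  have hδ : 0 < δ := hδ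
  let Q : Set ℂ := closedBall 0 R ∩ ({z | -(h + κ) ≤ z.im} ∩ {z | z.im ≤ h + κ} ∩
    ⋂ b ∈ S, ({z | δ ≤ ‖z - b‖} ∩ ({z | z.im ≤ h + κ * ‖z - b‖} ∩
      {z | -(h + κ * ‖z - b‖) ≤ z.im})))
  have hQ : IsCompact Q := (isCompact_closedBall 0 R).inter_right
    (((isClosed_le (by fun_prop) (by fun_prop)).inter
      (isClosed_le (by fun_prop) (by fun_prop))).inter
      (isClosed_biInter fun b _ => (isClosed_le (by fun_prop) (by fun_prop)).inter
        ((isClosed_le (by fun_prop) (by fun_prop)).inter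
          (isClosed_le (by fun_prop) (by fun_prop)))))
  have hQD : Q ⊆ D := by
    rintro z ⟨h1, ⟨h2, h3⟩, h4⟩
    simp only [mem_iInter, mem_inter_iff, mem_ofPred_eq] at h2 h3 h4
    obtain ⟨e, he, hmin⟩ := Finset.exists_min_image (insert 1 (S.image fun b => ‖z - b‖)) id
      (Finset.insert_nonempty _ _)
    have h5 : 0 < e ∧ z.im ≤ h + κ * e ∧ -(h + κ * e) ≤ z.im := by
      rcases Finset.mem_insert.1 he with rfl | he
      · exact ⟨one_pos, by linarith, by linarith⟩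
      · obtain ⟨b, hb, rfl⟩ := Finset.mem_image.1 he
        exact ⟨hδ.trans_le (h4 b hb).1, (h4 b hb).2⟩
    exact hs.adm z e ⟨by simpa using h1, h5.2.2, h5.2.1, h5.1, hmin 1 (Finset.mem_insert_self _ _),
      fun b hb => hmin _ (Finset.mem_insert_of_mem (Finset.mem_image_of_mem _ hb))⟩
      (mem_ball_self (mul_pos hκ h5.1))
  obtain ⟨C, hC, HC⟩ := F_cpt hI hS hH hs.sol hd hQ hQD
  refine ⟨max C (2400 / κ ^ 2), le_max_of_le_left hC, fun z e ha => ?_⟩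
  obtain ⟨a1, a2, a3, a4, a5, a6⟩ := id ha
  by_cases hn : ∀ b ∈ S, δ ≤ ‖z - b‖
  · refine (HC z ⟨by simpa using a1, ⟨?_, ?_⟩, ?_⟩).mono (by linarith) (le_max_left _ _) a4 a5
    · show -(h + κ) ≤ z.im
      nlinarith
    · show z.im ≤ h + κ
      nlinarith
    · simp only [mem_iInter, mem_inter_iff, mem_ofPred_eq]
      exact fun b hb => ⟨hn b hb, by nlinarith [a6 b hb], by nlinarith [a6 b hb]⟩
  push Not at hn
  obtain ⟨b, hb, hzb⟩ := hn
  obtain ⟨σ, h1, h2⟩ := hX b hb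
  have hD := hs.adm z e ha
  have hκe : 0 < κ * e := mul_pos hκ a4
  have hnear : ∀ τ ∈ ball z (κ * e), ‖τ - b‖ < 2 * δ := fun τ hτ => by
    rw [mem_ball, dist_eq_norm] at hτ
    have := norm_add_le (τ - z) (z - b)
    rw [sub_add_sub_cancel] at this
    nlinarith [a6 b hb]
  have hG := G_ne hI hs.sol hκe hD h1 (fun τ hτ => (h2 τ (hD hτ) (hnear τ hτ)).1)
    (fun τ hτ => (h2 τ (hD hτ) (hnear τ hτ)).2.1)
  have hF : F d Φ (2400 / κ ^ 2) z e := by
    refine hG.toF hH hs.sol hd (by positivity) ?_ ?_ (le_of_eq ?_)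
    · have : 3 * (e / (2400 / κ ^ 2)) = κ * (κ * e) / 800 := by field_simp; norm_num
      rw [this]; nlinarith
    · have e1 : (κ * e + 2 * (κ * e / 10)) / (κ * e / 10) ^ 2 = 120 * κ / κ ^ 2 / e := by
        field_simp; norm_num
      rw [e1]; gcongr; linarith
    · field_simp; norm_num
  exact hF.mono (by positivity) (le_max_right _ _) a4 le_rfl

end Pool.Agent.AO.Two
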