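import Pool.Agent.Lib.AO.Blue3
import Pool.Agent.Lib.AO.B_STEP

set_option autoImplicit false

noncomputable section

namespace Pool.Agent.AO.Two

open Set Metric Filter Topology

/-- Either the point is near `S`, or it is admissible at its true scale. -/
theorem step_scale {h R κ : ℝ} {S : Finset ℂ} {z : ℂ} {a s : ℝ} (hκ : 0 < κ)
    (hz : Adk h R κ S z a) (hs : s ≤ 1) :
    (∃ b ∈ S, ‖z - b‖ < s) ∨ ∃ e, s ≤ e ∧ Adm h R κ S z e ∧ (e = 1 ∨ ∃ b ∈ S, e = ‖z - b‖) := by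
  obtain ⟨-, e, -, h1, h2, h3, h4, h5, h6⟩ := hz
  by_cases hn : ∃ b ∈ S, ‖z - b‖ < s
  · exact Or.inl hn
  right
  push Not at hn
  by_cases h1' : ∀ b ∈ S, 1 ≤ ‖z - b‖
  · exact ⟨1, hs, ⟨h1, by nlinarith, by nlinarith, one_pos, le_rfl, h1'⟩, Or.inl rfl⟩
  push Not at h1'
  obtain ⟨b1, hb1, hb1'⟩ := h1'
  obtain ⟨b, hb, hmin⟩ := S.exists_min_image (fun b => ‖z - b‖) ⟨b1, hb1⟩
  have hle := h6 b hb
  have := hmin b1 hb1
  exact ⟨‖z - b‖, hn b hb, ⟨h1, by nlinarith, by nlinarith, by linarith, by linarith, hmin⟩,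
    Or.inr ⟨b, hb, rfl⟩⟩

/-- The conclusion of the far row for one constant. -/
def StepFar (d : Dat) (h R κ : ℝ) (S : Finset ℂ) (Φ : ℂ → S3) (C : ℝ) : Prop :=
  ∀ z e, Adm h R κ S z e → ∃ g : ℂ × ℂ → ℂ,
    DifferentiableOn ℂ g (ball z (e / C) ×ˢ ball 0 (e / C)) ∧
    ∀ τ ∈ ball z (e / C), ∀ r ∈ ball (0 : ℂ) (e / C), Rel d Φ τ (g (τ, r)) r ∧
      (∀ μ ∈ ball z (3 * (e / C)), Rel d Φ τ μ r → μ = g (τ, r)) ∧
      ‖g (τ, r) - τ - r‖ ≤ C * ‖r‖ ^ 2 / e ∧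
      ‖g (τ, r) - g (τ, -r) - 2 * r‖ ≤ C * ‖r‖ ^ 3 / e ^ 2

theorem step_far {d : Dat} {h R κ : ℝ} {S : Finset ℂ} {Φ : ℂ → S3} {C η K r e : ℝ} {τ : ℂ}
    (hF : StepFar d h R κ S Φ C) (hC : 1 ≤ C) (hη : 0 < η) (hη4 : η ≤ 1 / 4)
    (hK : 2 * C ≤ η * K) (hr : 0 < r) (he : K * r ≤ e) (hτ : Adm h R κ S τ e) :
    Stp d Φ η τ r (η * r / 2) := by
  have hnr : ‖(r : ℂ)‖ = r := by rw [Complex.norm_real, Real.norm_of_nonneg hr.le]
  have room := step_room hC hη hη4 hK hr he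
  obtain ⟨g, hg, hs⟩ := hF τ e hτ
  have he0 : 0 < e := hτ.2.2.2.1
  have m1 : τ ∈ ball τ (e / C) := mem_ball_self (by linarith)
  have m2 : (r : ℂ) ∈ ball (0 : ℂ) (e / C) := by
    rw [mem_ball_zero_iff, hnr]
    linarith
  have nh : ball τ (e / C) ×ˢ ball (0 : ℂ) (e / C) ∈ 𝓝 ((τ, r) : ℂ × ℂ) :=
    (isOpen_ball.prod isOpen_ball).mem_nhds ⟨m1, m2⟩
  have hηr : 0 < η * r := mul_pos hη hr
  refine step_local d Φ η r _ (3 * (e / C)) τ τ g hη hr (hg.differentiableAt nh) ?_ ?_ ?_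
    (by linarith)
  · filter_upwards [nh] with p hp
    exact ⟨(hs p.1 hp.1 p.2 hp.2).1, (hs p.1 hp.1 p.2 hp.2).2.1⟩
  · rw [add_sub_cancel_left, hnr]
    nlinarith
  · refine (hs τ m1 r m2).2.2.1.trans ?_
    rw [hnr, div_le_iff₀ he0]
    have h1 : 2 * C * r ≤ η * e := by nlinarith
    nlinarith

theorem step_near (hI : St_INT) {d : Dat} {h R κ : ℝ} {S : Finset ℂ} {D : Set ℂ} {Φ : ℂ → S3}
    (hS : Sec d h R κ S D Φ) {ε η M a : ℝ} (hε : 0 < ε) (hη : 0 < η) (hηκ : η ≤ κ * ε / 4)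
    (hη4 : η ≤ 1 / 4) (hM : 0 < M) (ha : 0 < a) (haη : a ≤ η / 2) {b : ℂ} (hb : b ∈ S) :
    ∀ᶠ r : ℝ in 𝓝[>] 0, ∀ τ : ℂ, Adk h R κ S τ (ε * r) → Adk h R κ S (τ + r) (ε * r) →
      ‖τ - b‖ ≤ M * r → Stp d Φ η τ r (a * r) := by
  obtain ⟨σ, hσ, hx⟩ := hS.xp b hb
  have hw : σ.1 - σ.2.1 ≠ 0 := sub_ne_zero.2 hσ
  have hw0 : 0 < ‖σ.1 - σ.2.1‖ := norm_pos_iff.2 hw
  have hκ := hS.kp
  set W := ‖σ.1 - σ.2.1‖ with hW
  set e := W * a / (2 * (2 * M + 8)) with hedef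
  have he0 : 0 < e := by positivity
  have hee : 2 * (2 * M + 8) * e = W * a := by
    rw [hedef]
    field_simp
  obtain ⟨δ, hδ, hX⟩ := hx e he0
  have hN : 0 < M + 1 + κ * ε := by positivity
  have ev : ∀ᶠ r : ℝ in 𝓝[>] 0, r ∈ Ioo 0 (δ / (M + 1 + κ * ε)) :=
    Ioo_mem_nhdsGT (div_pos hδ hN)
  filter_upwards [ev] with r hr τ h1 h2 h3
  obtain ⟨hr, hrδ⟩ := hr
  rw [lt_div_iff₀ hN] at hrδ
  have hnr : ‖(r : ℂ)‖ = r := by rw [Complex.norm_real, Real.norm_of_nonneg hr.le]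
  have hρ : 0 < κ * ε * r := by positivity
  have hτD : τ ∈ D := by
    obtain ⟨-, e1, -, hA⟩ := h1
    exact hS.adm τ e1 hA (mem_ball_self (mul_pos hκ hA.2.2.2.1))
  have hBD : ball (τ + r) (κ * ε * r) ⊆ D := by
    obtain ⟨-, e1, hle, hA⟩ := h2
    refine (ball_subset_ball ?_).trans (hS.adm _ e1 hA)
    rw [mul_assoc]
    exact mul_le_mul_of_nonneg_left hle hκ.le
  have hz0 : ‖τ + r - b‖ ≤ (M + 1) * r := by
    have : τ + r - b = (τ - b) + r := by ring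
    rw [this]
    have := norm_add_le (τ - b) (r : ℂ)
    rw [hnr] at this
    linarith
  have hBδ : ∀ z ∈ ball (τ + r) (κ * ε * r), ‖z - b‖ < δ := by
    intro z hz
    rw [mem_ball, dist_eq_norm] at hz
    have := norm_sub_le_norm_sub_add_norm_sub z (τ + r) b
    nlinarith
  have hτδ : ‖τ - b‖ < δ := by nlinarith
  have dA : DifferentiableOn ℂ (fA Φ) D := hS.sol.df.fst
  have dB : DifferentiableOn ℂ (fB Φ) D := hS.sol.df.snd.fst
  have dY : DifferentiableOn ℂ (fY Φ) D := hS.sol.df.snd.snd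
  have hMe : 0 < M * e := mul_pos hM he0
  have hWa : W * a ≤ W / 8 := by nlinarith
  have hWκ : W * a ≤ W * (κ * ε) / 8 := by nlinarith
  have he16 : 16 * e ≤ W * a := by nlinarith
  obtain ⟨hop, g, hg, hs⟩ := hI (fY Φ) (fA Φ) (τ + r) (σ.1 - σ.2.1) σ.1 (κ * ε * r) e hw hρ
    (dY.mono hBD) (dA.mono hBD) (fun z hz => by
      rw [(hS.sol.dY z (hBD hz)).deriv]
      obtain ⟨x1, x2, -⟩ := hX z (hBD hz) (hBδ z hz)
      have : fA Φ z - fB Φ z - (σ.1 - σ.2.1) = (fA Φ z - σ.1) - (fB Φ z - σ.2.1) := by ring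
      rw [this]
      have := norm_sub_le (fA Φ z - σ.1) (fB Φ z - σ.2.1)
      linarith) (fun z hz => (hX z (hBD hz) (hBδ z hz)).1)
  let P : ℂ × ℂ → ℂ × ℂ := fun p => (fY Φ p.1 - p.2 * fB Φ p.1, p.2)
  have hD : D ∈ 𝓝 τ := hS.sol.op.mem_nhds hτD
  have dP : DifferentiableAt ℂ P (τ, r) := by
    have y1 : DifferentiableAt ℂ (fun p : ℂ × ℂ => fY Φ p.1) (τ, r) :=
      DifferentiableAt.comp (g := fY Φ) (f := Prod.fst) ((τ, r) : ℂ × ℂ)
        (dY.differentiableAt hD) differentiableAt_fst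
    have y2 : DifferentiableAt ℂ (fun p : ℂ × ℂ => fB Φ p.1) (τ, r) :=
      DifferentiableAt.comp (g := fB Φ) (f := Prod.fst) ((τ, r) : ℂ × ℂ)
        (dB.differentiableAt hD) differentiableAt_fst
    exact (y1.sub (differentiableAt_snd.mul y2)).prodMk differentiableAt_snd
  have res : ‖fY Φ (τ + r) - r * fA Φ (τ + r) - (fY Φ τ - r * fB Φ τ)‖ ≤ W * a * r / 2 := by
    obtain ⟨x1, -, x3⟩ := hX (τ + r) (hBD (mem_ball_self hρ)) (hBδ _ (mem_ball_self hρ))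
    obtain ⟨-, y2, y3⟩ := hX τ hτD hτδ
    have e1 : fY Φ (τ + r) - r * fA Φ (τ + r) - (fY Φ τ - r * fB Φ τ) =
        ((fY Φ (τ + r) - σ.2.2 - (σ.1 - σ.2.1) * (τ + r - b)) -
          (fY Φ τ - σ.2.2 - (σ.1 - σ.2.1) * (τ - b))) -
          r * ((fA Φ (τ + r) - σ.1) - (fB Φ τ - σ.2.1)) := by ring
    rw [e1]
    refine (norm_sub_le _ _).trans ?_
    rw [norm_mul, hnr]
    have n1 := norm_sub_le (fY Φ (τ + r) - σ.2.2 - (σ.1 - σ.2.1) * (τ + r - b))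
      (fY Φ τ - σ.2.2 - (σ.1 - σ.2.1) * (τ - b))
    have n2 := norm_sub_le (fA Φ (τ + r) - σ.1) (fB Φ τ - σ.2.1)
    have n3 : e * ‖τ + r - b‖ ≤ e * ((M + 1) * r) := mul_le_mul_of_nonneg_left hz0 he0.le
    have n4 : e * ‖τ - b‖ ≤ e * (M * r) := mul_le_mul_of_nonneg_left h3 he0.le
    have n5 : r * ‖fA Φ (τ + r) - σ.1 - (fB Φ τ - σ.2.1)‖ ≤ r * (2 * e) :=
      mul_le_mul_of_nonneg_left (by linarith) hr.le
    have n6 : 0 < e * r := mul_pos he0 hr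
    have n7 : W * a * r = 2 * (2 * M + 8) * e * r := by rw [hee]
    nlinarith
  have hWr : 0 < W * (κ * ε * r) := mul_pos hw0 hρ
  have hWκr : W * a * r ≤ W * (κ * ε * r) / 8 := by nlinarith
  have hP0 : P (τ, r) ∈ intW (fY Φ) (fA Φ) (τ + r) (σ.1 - σ.2.1) (κ * ε * r) e := by
    refine ⟨?_, ?_⟩
    · change 16 * ‖(r : ℂ)‖ * e < W * (κ * ε * r)
      rw [hnr]
      nlinarith
    · change 4 * ‖fY Φ (τ + r) - r * fA Φ (τ + r) - (fY Φ τ - r * fB Φ τ)‖ < W * (κ * ε * r)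
      linarith
  have nW := hop.mem_nhds hP0
  have evP : ∀ᶠ p in 𝓝 ((τ, r) : ℂ × ℂ),
      P p ∈ intW (fY Φ) (fA Φ) (τ + r) (σ.1 - σ.2.1) (κ * ε * r) e := dP.continuousAt nW
  have evD : ∀ᶠ p in 𝓝 ((τ, r) : ℂ × ℂ), p.1 ∈ D ∧ ‖p.1 - b‖ < δ := by
    have o1 : D ∩ ball b δ ∈ 𝓝 τ :=
      inter_mem hD (isOpen_ball.mem_nhds (by rw [mem_ball, dist_eq_norm]; exact hτδ))
    have o2 : ∀ᶠ p in 𝓝 ((τ, r) : ℂ × ℂ), p.1 ∈ D ∩ ball b δ := continuousAt_fst o1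
    filter_upwards [o2] with p hp
    exact ⟨hp.1, by simpa only [mem_ball, dist_eq_norm] using hp.2⟩
  have hηr : 0 < η * r := mul_pos hη hr
  refine step_local d Φ η r (a * r) (κ * ε * r / 2) τ (τ + r) (fun p => g (P p)) hη hr
    ((hg.differentiableAt nW).comp ((τ, r) : ℂ × ℂ) dP) ?_ ?_ ?_ (by nlinarith)
  · filter_upwards [evP, evD] with p hp hq
    obtain ⟨g1, g2, g3⟩ := hs (P p) hp
    have g2' : fY Φ (g (P p)) - p.2 * fA Φ (g (P p)) = fY Φ p.1 - p.2 * fB Φ p.1 := g2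
    have g1' : g (P p) ∈ ball (τ + r) (κ * ε * r) := ball_subset_ball (by linarith) g1
    refine ⟨⟨by linear_combination g2', fun hab => ?_⟩, fun μ hμ hR => ?_⟩
    · exfalso
      have x1 := (hX _ (hBD g1') (hBδ _ g1')).1
      have x2 := (hX _ hq.1 hq.2).2.1
      have e1 : σ.1 - σ.2.1 = (fB Φ p.1 - σ.2.1) - (fA Φ (g (P p)) - σ.1) := by
        rw [hab]
        ring
      have n1 := norm_sub_le (fB Φ p.1 - σ.2.1) (fA Φ (g (P p)) - σ.1)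
      rw [← e1] at n1
      linarith
    · have g4 := g3 μ hμ
      have e1 : fY Φ μ - (P p).2 * fA Φ μ - (P p).1 = 0 := by
        change fY Φ μ - p.2 * fA Φ μ - (fY Φ p.1 - p.2 * fB Φ p.1) = 0
        linear_combination hR.1
      rw [e1, norm_zero, mul_zero] at g4
      have : ‖g (P p) - μ‖ ≤ 0 := by
        by_contra hh
        push Not at hh
        have := mul_pos hw0 hh
        linarith
      exact (sub_eq_zero.1 (norm_le_zero_iff.1 this)).symm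
  · rw [sub_self, norm_zero]
    nlinarith
  · have g4 := (hs _ hP0).2.2 (τ + r) (mem_ball_self (by linarith))
    have g5 : W * ‖g (P (τ, r)) - (τ + r)‖ ≤
        2 * ‖fY Φ (τ + r) - r * fA Φ (τ + r) - (fY Φ τ - r * fB Φ τ)‖ := g4
    rw [sub_sub]
    refine le_of_mul_le_mul_left ?_ hw0
    linarith

theorem step_one (hI : St_INT) {d : Dat} {h R κ : ℝ} {S : Finset ℂ} {D : Set ℂ} {Φ : ℂ → S3}
    (hS : Sec d h R κ S D Φ) {C ε η K a : ℝ} (hF : StepFar d h R κ S Φ C) (hC : 1 ≤ C)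
    (hε : 0 < ε) (hη : 0 < η) (hηκ : η ≤ κ * ε / 4) (hη4 : η ≤ 1 / 4) (hK : 2 * C ≤ η * K)
    (ha : 0 < a) (haη : a ≤ η / 2) :
    ∀ᶠ r : ℝ in 𝓝[>] 0, ∀ τ : ℂ, Adk h R κ S τ (ε * r) → Adk h R κ S (τ + r) (ε * r) →
      Stp d Φ η τ r (η * r / 2) ∧
        ∀ b ∈ S, ‖τ - b‖ ≤ (K + 2) * r → ‖th d Φ η (τ, r) - τ - r‖ ≤ a * r := by
  have hK0 : 0 < K := by
    by_contra hh
    push Not at hh
    nlinarith
  have e1 := (eventually_all_finset S).2 fun b hb =>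
    step_near hI hS (M := K + 2) hε hη hηκ hη4 (by linarith) ha haη hb
  have e2 : ∀ᶠ r : ℝ in 𝓝[>] 0, r ∈ Ioo 0 (1 / K) := Ioo_mem_nhdsGT (by positivity)
  filter_upwards [e1, e2] with r h1 h2 τ a1 a2
  obtain ⟨hr, hrK⟩ := h2
  rw [lt_div_iff₀ hK0] at hrK
  refine ⟨?_, fun b hb hn => (h1 b hb τ a1 a2 hn).est⟩
  rcases step_scale (s := K * r) hS.kp a1 (by linarith) with ⟨b, hb, hn⟩ | ⟨e, he, hA, -⟩
  · exact step_mono (h1 b hb τ a1 a2 (by nlinarith)) (by nlinarith)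
  · exact step_far hF hC hη hη4 hK hr he hA

theorem st_STEP (hF : St_FAR) (hI : St_INT) : St_STEP := by
  intro d h R κ S D Φ hS hS'
  obtain ⟨C1, hC1, F1⟩ := hF d h R κ S D Φ hS
  obtain ⟨C2, hC2, F2⟩ := hF d.flip h R κ S D (flp Φ) hS'
  refine ⟨max C1 C2, le_max_of_le_left hC1, fun ε η K hε hη hηκ hη4 hK => ?_⟩
  have k1 : 2 * C1 ≤ η * K := by linarith [le_max_left C1 C2]
  have k2 : 2 * C2 ≤ η * K := by linarith [le_max_right C1 C2]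
  have hC : 1 ≤ max C1 C2 := le_max_of_le_left hC1
  have hK0 : 0 < K := by
    by_contra hh
    push Not at hh
    nlinarith
  have ha : 0 < min (η / 2) (1 / (2 * K ^ 2)) := lt_min (by positivity) (by positivity)
  have e1 := step_one hI hS F1 hC1 hε hη hηκ hη4 k1 ha (min_le_left _ _)
  have e2 := step_one hI hS' F2 hC2 hε hη hηκ hη4 k2 ha (min_le_left _ _)
  have e3 : ∀ᶠ r : ℝ in 𝓝[>] 0, r ∈ Ioo 0 (1 / K) := Ioo_mem_nhdsGT (by positivity)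
  obtain ⟨r0, hr0, hsub⟩ := mem_nhdsGT_iff_exists_Ioo_subset.1 (e1.and (e2.and e3))
  refine ⟨r0, hr0, fun r hr hrr => ?_⟩
  obtain ⟨s1, s2, -, hrK⟩ := hsub ⟨hr, hrr⟩
  rw [lt_div_iff₀ hK0] at hrK
  refine ⟨fun τ a1 a2 => ⟨(s1 τ a1 a2).1, (s2 τ a1 a2).1⟩, fun τ a1 a2 a3 a4 => ?_⟩
  have hnr : ‖(r : ℂ)‖ = r := by rw [Complex.norm_real, Real.norm_of_nonneg hr.le]
  obtain ⟨t1, n1⟩ := s1 τ a1 a2
  obtain ⟨t2, n2⟩ := s2 _ a3 a4
  have r1 := t1.rel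
  have q1 := t1.est
  have r2 := t2.rel
  have q2 := t2.est
  unfold dbl
  clear s1 s2 t1 t2
  generalize th d Φ η (τ, r) = μ at *
  generalize th d.flip (flp Φ) η (μ, r) = τ' at *
  have hr3 : 0 < r ^ 3 := by positivity
  have hηr : η * r ≤ r / 4 := by nlinarith
  have hτμ : ‖τ - μ‖ ≤ 2 * r := by
    have x1 : τ - μ = -((μ - τ - r) + r) := by ring
    have x2 := norm_add_le (μ - τ - r) (r : ℂ)
    rw [x1, norm_neg]
    rw [hnr] at x2
    linarith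
  have hτμ' : ‖τ' - μ‖ ≤ 2 * r := by
    have x1 : τ' - μ = (τ' - μ - r) + r := by ring
    have x2 := norm_add_le (τ' - μ - r) (r : ℂ)
    rw [x1]
    rw [hnr] at x2
    linarith
  have term : ∀ b ∈ S, 1 / max (K * r) ‖μ - b‖ ^ 2 ≤ ∑ b ∈ S, 1 / max (K * r) ‖μ - b‖ ^ 2 :=
    fun b hb => Finset.single_le_sum (f := fun b => 1 / max (K * r) ‖μ - b‖ ^ 2)
      (fun i _ => by positivity) hb
  have sum0 : 0 ≤ ∑ b ∈ S, 1 / max (K * r) ‖μ - b‖ ^ 2 :=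
    Finset.sum_nonneg fun i _ => by positivity
  rcases step_scale (s := K * r) hS.kp a3 (by linarith) with ⟨b, hb, hn⟩ | ⟨e, he, hA, hee⟩
  · have y1 := n2 b hb (by nlinarith)
    have y2 := n1 b hb (by
      have := norm_sub_le_norm_sub_add_norm_sub τ μ b
      linarith)
    have y3 : min (η / 2) (1 / (2 * K ^ 2)) * r ≤ 1 / (2 * K ^ 2) * r :=
      mul_le_mul_of_nonneg_right (min_le_right _ _) hr.le
    have x1 : τ' - τ - 2 * r = (τ' - μ - r) + (μ - τ - r) := by ring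
    have x2 := norm_add_le (τ' - μ - r) (μ - τ - r)
    have x3 := term b hb
    rw [max_eq_left hn.le] at x3
    have x4 : r ^ 3 * (1 / (K * r) ^ 2) = 2 * (1 / (2 * K ^ 2) * r) := by
      field_simp
    rw [x1]
    generalize ∑ b ∈ S, 1 / max (K * r) ‖μ - b‖ ^ 2 = Z at *
    have x5 : r ^ 3 * (1 / (K * r) ^ 2) ≤ r ^ 3 * (1 + Z) :=
      mul_le_mul_of_nonneg_left (by linarith) hr3.le
    have x6 : 1 * (r ^ 3 * (1 + Z)) ≤ max C1 C2 * (r ^ 3 * (1 + Z)) :=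
      mul_le_mul_of_nonneg_right hC (by positivity)
    rw [mul_assoc]
    linarith
  · have room := step_room hC2 hη hη4 k2 hr he
    obtain ⟨g, -, hs⟩ := F2 μ e hA
    have he0 : 0 < e := hA.2.2.2.1
    have m1 : μ ∈ ball μ (e / C2) := mem_ball_self (by linarith)
    have m2 : (r : ℂ) ∈ ball (0 : ℂ) (e / C2) := by
      rw [mem_ball_zero_iff, hnr]
      linarith
    have m3 : (-r : ℂ) ∈ ball (0 : ℂ) (e / C2) := by
      rw [mem_ball_zero_iff, norm_neg, hnr]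
      linarith
    have u1 : τ' = g (μ, r) := (hs μ m1 r m2).2.1 τ'
      (by rw [mem_ball, dist_eq_norm]; linarith) r2
    have u2 : τ = g (μ, -r) := (hs μ m1 (-r) m3).2.1 τ
      (by rw [mem_ball, dist_eq_norm]; linarith)
      ((rel_flip d Φ τ μ (-r)).2 (by rw [neg_neg]; exact r1))
    have u3 := (hs μ m1 r m2).2.2.2
    rw [← u1, ← u2, hnr] at u3
    refine u3.trans ?_
    have x3 : 1 / e ^ 2 ≤ 1 + ∑ b ∈ S, 1 / max (K * r) ‖μ - b‖ ^ 2 := by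
      rcases hee with h1 | ⟨b, hb, h1⟩
      · rw [h1]
        norm_num at sum0 ⊢
        exact sum0
      · have := term b hb
        rw [← h1, max_eq_right he] at this
        linarith
    rw [div_eq_mul_one_div]
    exact mul_le_mul (mul_le_mul_of_nonneg_right (le_max_right _ _) hr3.le) x3 (by positivity)
      (by positivity)

end Pool.Agent.AO.Two
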