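import Pool.Agent.Lib.AO.Blue3
import Pool.Agent.Lib.AO.B_UPA

set_option autoImplicit false

noncomputable section

namespace Pool.Agent.AO.Two

open Set Metric Filter Topology ComplexConjugate

namespace UPT

open UPA hiding adkD one orb chain

theorem adkD {d : Dat} {h R κ : ℝ} {S : Finset ℂ} {D : Set ℂ} {Φ : ℂ → S3}
    (hS : Sec d h R κ S D Φ) {z : ℂ} {a : ℝ} (ha : Adk h R κ S z a) : z ∈ D := by
  obtain ⟨_, e, _, he⟩ := ha
  exact hS.adm z e he (mem_ball_self (mul_pos hS.kp he.2.2.2.1))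

section orbit

variable {d : Dat} {h R κ L ε η r a : ℝ} {S : Finset ℂ} {Φ : ℂ → S3} {b : ℂ} {P : ℕ → Prop}

theorem one (hC : Ctx d h R κ S Φ L ε η r)
    (hA : ∀ j : ℕ, P j → ∀ z : ℂ, ‖z - (b + j * r)‖ ≤ a → Adk h R κ S z (ε * r))
    {u : ℂ} {j : ℕ} (h0 : P j) (h1 : P (j + 1)) (hu : ‖u - (b + j * r)‖ ≤ a) :
    Stp d Φ η u r (η * r / 2) ∧ Stp d.flip (flp Φ) η u r (η * r / 2) := by
  refine hC.one u (hA j h0 u hu) (hA (j + 1) h1 _ ?_)
  have : u + r - (b + ((j + 1 : ℕ) : ℂ) * r) = u - (b + j * r) := by push_cast; ring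
  rwa [this]

theorem orb (hC : Ctx d h R κ S Φ L ε η r)
    (hA : ∀ j : ℕ, P j → ∀ z : ℂ, ‖z - (b + j * r)‖ ≤ a → Adk h R κ S z (ε * r))
    {u : ℂ} {j n : ℕ} (hn : n * r ≤ L) (h0 : ∀ i ≤ 2 * n, P (j + i))
    (hu : ‖u - (b + j * r)‖ + 2 * η * r ≤ a) :
    DifferentiableAt ℂ ((dbl d Φ η r)^[n]) u ∧
      ‖(dbl d Φ η r)^[n] u - (u + 2 * n * r)‖ ≤ η * r := by
  have hT : Tube h R κ S ε η r u (2 * n) := fun i hi z hz => by
    refine hA (j + i) (h0 i hi) z ?_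
    have := n2 (x := z - (b + ((j + i : ℕ) : ℂ) * r)) (v := u - (b + j * r))
      (by push_cast; ring) hz le_rfl
    linarith
  exact ⟨sl (hC.dif u n hn hT), hC.orb u n hn hT n le_rfl⟩

/-- The true chain inside a tube. -/
theorem chain (hC : Ctx d h R κ S Φ L ε η r) (hη : 0 < η) (hr : 0 < r) {τ : ℂ} {q : ℕ}
    (hq : q * r ≤ L) (hT : Tube h R κ S ε η r τ (2 * q)) {k : ℕ} (hk : k < q) {t μ : ℂ}
    (ht : t = (dbl d Φ η r)^[k] τ) (hμ : μ = th d Φ η (t, r)) :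
    ‖μ - (τ + (2 * k + 1) * r)‖ ≤ 2 * (η * r) ∧ Adk h R κ S μ (ε * r) ∧
    fY Φ μ - r * fA Φ μ = fY Φ t - r * fB Φ t ∧
    fY Φ μ + r * fA Φ μ = fY Φ (dbl d Φ η r t) + r * fB Φ (dbl d Φ η r t) := by
  have hβ : 0 < η * r := mul_pos hη hr
  have h0 : ‖t - (τ + ((2 * k : ℕ) : ℂ) * r)‖ ≤ η * r := by
    have := hC.orb τ q hq hT k hk.le
    rw [← ht] at this
    push_cast
    exact this
  have hA : ∀ j : ℕ, j ≤ 2 * q → ∀ z : ℂ, ‖z - (τ + j * r)‖ ≤ 2 * η * r →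
      Adk h R κ S z (ε * r) := hT
  have s1 := (one (P := fun j => j ≤ 2 * q) hC hA (u := t) (j := 2 * k) (by omega) (by omega)
    (by linarith)).1
  have e1 := s1.est
  rw [← hμ] at e1
  have h1 : ‖μ - (τ + ((2 * k + 1 : ℕ) : ℂ) * r)‖ ≤ η * r / 2 + η * r :=
    n2 (by push_cast; ring) e1 h0
  have s2 := (one (P := fun j => j ≤ 2 * q) hC hA (u := μ) (j := 2 * k + 1) (by omega) (by omega)
    (by linarith)).2
  refine ⟨?_, hA (2 * k + 1) (by omega) μ (by linarith), ?_, ?_⟩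
  · push_cast at h1
    linarith
  · have := s1.rel.1
    rw [← hμ] at this
    linear_combination this
  · have := ((rel_flip d Φ _ μ r).1 s2.rel).1
    have e2 : dbl d Φ η r t = th d.flip (flp Φ) η (μ, r) := by rw [hμ]; rfl
    rw [e2]
    linear_combination this

end orbit

end UPT

open UPT in
open UPA hiding adkD one orb chain in
theorem st_UPA (hI : St_INT) : St_UPA := by
  rintro d h R κ T S D Φ b ⟨a0, b0, y0⟩ ξ ε η ν r δ e m hS hC hw hη hr hr1 hm hην hν he heW hT hA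
    hD1 hD2 X0 X1 X2 hξ hξe hδ hAξ
  dsimp only at hw heW hξ hξe hδ ⊢
  obtain ⟨n, rfl⟩ : ∃ n, m = n + 1 := ⟨m - 1, by omega⟩
  have hW : 0 < ‖a0 - b0‖ := norm_pos_iff.2 (sub_ne_zero.2 hw)
  have hnr : ‖(r : ℂ)‖ = r := by simp [abs_of_pos hr]
  have hnr' : ‖-(r : ℂ)‖ = r := by rw [norm_neg, hnr]
  have hβ : 0 < η * r := mul_pos hη hr
  have hE0 : 0 ≤ e * r := mul_nonneg he hr.le
  have hE : 100 * (e * r) ≤ ‖a0 - b0‖ * (η * r) := by nlinarith
  have h20 : 20 * (η * r) ≤ ν * r := by nlinarith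
  have hα : ν * r ≤ r / 100 := by nlinarith
  have hWβ : 0 < ‖a0 - b0‖ * (η * r) := mul_pos hW hβ
  have hWα : 20 * (‖a0 - b0‖ * (η * r)) ≤ ‖a0 - b0‖ * (ν * r) := by nlinarith
  have hθ : ‖(2 * (n : ℂ) + 3) * r - T‖ ≤ η * r := by
    have : (2 * (n : ℂ) + 3) * r - T = (((2 * ((n + 1 : ℕ) : ℝ) + 1) * r - T : ℝ) : ℂ) := by
      push_cast; ring
    rw [this, Complex.norm_real]
    exact hT
  have hL : (2 * (n : ℝ) + 3) * r ≤ T + 1 := by
    have := (abs_le.1 hT).2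
    push_cast at this
    linarith
  have hnL : (n : ℝ) * r ≤ T + 1 := by
    have : 0 ≤ (n : ℝ) * r := by positivity
    linarith
  have hA' : ∀ j : ℕ, (1 ≤ j ∧ j ≤ 4 * n + 5 ∧ j ≠ 2 * n + 3) → ∀ z : ℂ,
      ‖z - (b + j * r)‖ ≤ 3 * ν * r → Adk h R κ S z (ε * r) :=
    fun j hj => hA j hj.1 (by omega) (by omega)
  have hb1 : ‖b + r - b‖ ≤ r := by simpa using hnr.le
  obtain ⟨G, hG⟩ := near hI hS.sol X0 hw (z0 := b + r) (ρ := 8 * ν * r) (by linarith) hD1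
    (by linarith) (by nlinarith) (Or.inl ⟨rfl, rfl⟩) (r : ℂ) (by rw [hnr]; linarith)
  obtain ⟨z0, hz0⟩ : ∃ z0 : ℂ, z0 = b + (2 * ((n + 1 : ℕ) : ℂ) + 2) * r := ⟨_, rfl⟩
  rw [← hz0] at hD2
  push_cast at hz0
  obtain ⟨F, hF⟩ := mid hI hS.sol X1 hw hη hr hην hν he heW (z0 := z0)
    (le_of_eq_of_le (congrArg _ (by rw [hz0]; ring)) hθ) hD2 hξ hξe hδ hAξ
  have x0 := (xp X0 hr he (hD1 (mem_ball_self (by linarith))) (by linarith) r hnr).1
  have k0 : ∀ c ∈ ball (y0 - r * b0) (‖a0 - b0‖ * ν * r / 2),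
      ‖fY Φ (b + r) - r * fA Φ (b + r) - c‖ ≤ 3 * (e * r) + ‖a0 - b0‖ * ν * r / 2 :=
    fun c hc => n2s (v := c - (y0 - r * b0)) (by ring) x0 (mem_ball_iff_norm.1 hc).le
  obtain ⟨F1, hF1⟩ : ∃ F1 : ℂ → ℂ,
    F1 = fun c => (dbl d Φ η r)^[n] (th d.flip (flp Φ) η (G c, r)) := ⟨_, rfl⟩
  obtain ⟨F3, hF3⟩ : ∃ F3 : ℂ → ℂ,
    F3 = fun t => th d Φ η ((dbl d Φ η r)^[n] t, r) := ⟨_, rfl⟩
  have key : ∀ c ∈ ball (y0 - r * b0) (‖a0 - b0‖ * ν * r / 2),
      DifferentiableAt ℂ (fun c => fY Φ (F3 (F (F1 c))) + r * fA Φ (F3 (F (F1 c)))) c ∧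
      ‖fY Φ (F3 (F (F1 c))) + r * fA Φ (F3 (F (F1 c))) - c - 2 * r * b0‖ ≤
        20 * η * r * ‖a0 - b0‖ ∧ F1 c ∈ D ∧ ‖F1 c + 2 * r - z0‖ ≤ ν * r + 2 * (η * r) := by
    intro c hc
    have k1 := k0 c hc
    obtain ⟨d1, m1, e1, u1⟩ := hG c (by linarith)
    have g1 : ‖G c - (b + r)‖ ≤ ν * r + η * r / 10 := by
      have := u1 (b + r) (mem_ball_self (by linarith))
      exact can hW (by linarith)
    have g1' : ‖G c - (b + ((1 : ℕ) : ℂ) * r)‖ ≤ ν * r + η * r / 10 := by simpa using g1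
    have gD : G c ∈ D := hD1 (ball_subset_ball (by linarith) m1)
    have s2 := (one hC hA' (u := G c) (j := 1) (by omega) (by omega)
      (g1'.trans (by linarith))).2
    have g2 : ‖th d.flip (flp Φ) η (G c, r) - (b + ((2 : ℕ) : ℂ) * r)‖ ≤
        η * r / 2 + (ν * r + η * r / 10) := n2 (by push_cast; ring) s2.est g1
    obtain ⟨d3, o3⟩ := orb hC hA' (j := 2) (n := n) hnL (fun i hi => by omega)
      ((add_le_add g2 le_rfl).trans (by linarith))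
    have dF1 : DifferentiableAt ℂ F1 c := by
      rw [hF1]
      exact DifferentiableAt.comp (g := (dbl d Φ η r)^[n]) c d3
        (DifferentiableAt.comp (g := fun v => th d.flip (flp Φ) η (v, r)) c (sl s2.dif) d1)
    have g3 : ‖F1 c - (G c + (2 * n + 1) * r)‖ ≤ η * r + η * r / 2 := by
      rw [hF1]
      exact n2 (by ring) o3 s2.est
    have g4 : ‖F1 c + 2 * r - z0‖ ≤ η * r + η * r / 2 + (ν * r + η * r / 10) :=
      n2 (by rw [hz0]; ring) g3 g1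
    have tD : F1 c ∈ D := adkD hS (hA' (2 * n + 2) (by omega) _
      (le_trans (le_of_eq_of_le (congrArg _ (by rw [hz0]; push_cast; ring)) g4) (by linarith)))
    obtain ⟨dF, g5, _⟩ := hF (F1 c) tD (by linarith)
    have g6 : ‖F (F1 c) - (b + ((2 * n + 4 : ℕ) : ℂ) * r)‖ ≤
        η * r / 2 + (η * r + η * r / 2 + (ν * r + η * r / 10)) :=
      n2 (by rw [hz0]; push_cast; ring) g5 g4
    obtain ⟨d7, o7⟩ := orb hC hA' (j := 2 * n + 4) (n := n) hnL (fun i hi => by omega)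
      ((add_le_add g6 le_rfl).trans (by linarith))
    have g7 : ‖(dbl d Φ η r)^[n] (F (F1 c)) - (b + ((4 * n + 4 : ℕ) : ℂ) * r)‖ ≤ η * r +
        (η * r / 2 + (η * r + η * r / 2 + (ν * r + η * r / 10))) :=
      n2 (by push_cast; ring) o7 g6
    have s8 := (one hC hA' (u := (dbl d Φ η r)^[n] (F (F1 c))) (j := 4 * n + 4) (by omega)
      (by omega) (g7.trans (by linarith))).1
    have dF3 : DifferentiableAt ℂ F3 (F (F1 c)) := by
      rw [hF3]
      exact DifferentiableAt.comp (g := fun v => th d Φ η (v, r)) _ (sl s8.dif) d7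
    have g8 : ‖F3 (F (F1 c)) - (F (F1 c) + (2 * n + 1) * r)‖ ≤ η * r / 2 + η * r := by
      rw [hF3]
      exact n2 (by ring) s8.est o7
    obtain ⟨μ, hμ⟩ : ∃ μ, μ = F3 (F (F1 c)) := ⟨_, rfl⟩
    rw [← hμ] at g8
    have g9 : ‖μ - (b + ((4 * n + 5 : ℕ) : ℂ) * r)‖ ≤ η * r / 2 + η * r +
        (η * r / 2 + (η * r + η * r / 2 + (ν * r + η * r / 10))) :=
      n2 (by push_cast; ring) g8 g6
    have μD : μ ∈ D := adkD hS (hA' (4 * n + 5) (by omega) _ (g9.trans (by linarith)))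
    have g10 : ‖μ - (b + 2 * T)‖ ≤ 2 * r :=
      (n2s (x := μ - (b + 2 * T)) (by push_cast; ring) (n2 rfl (n2 rfl g9 hθ) hθ) hnr.le).trans
        (by linarith)
    have x1 := (xp X2 hr he μD g10 (-(r : ℂ)) hnr').1
    have x2 := (xp X0 hr he gD
      ((n2 (x := G c - b) (by ring) g1 hnr.le).trans (by linarith)) r hnr).1
    have g11 : ‖μ - G c - 2 * T + 2 * r‖ ≤ 6 * (η * r) :=
      (n2 (x := μ - G c - 2 * T + 2 * r) (by ring)
        (n2 rfl (n2 rfl (n2 rfl g8 g5) g3) hθ) hθ).trans (by linarith)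
    refine ⟨?_, ?_, tD, by linarith⟩
    · have a1 : DifferentiableAt ℂ (fun c => F3 (F (F1 c))) c :=
        DifferentiableAt.comp (g := F3) c dF3 (DifferentiableAt.comp (g := F) c dF dF1)
      exact (DifferentiableAt.comp (g := fY Φ) c (hμ ▸ (dAt hS.sol μD).2.2) a1).add
        ((DifferentiableAt.comp (g := fA Φ) c (hμ ▸ (dAt hS.sol μD).1) a1).const_mul _)
    · rw [← hμ]
      have := n2s (x := fY Φ μ + r * fA Φ μ - c - 2 * r * b0) (by linear_combination e1)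
        (n2 rfl (nm (w := a0 - b0) g11) x1) x2
      linarith
  refine ⟨fun c => fY Φ (F3 (F (F1 c))) + r * fA Φ (F3 (F (F1 c))),
    fun c hc => (key c hc).1.differentiableWithinAt, fun c hc => (key c hc).2.1,
    fun τ hτ hTu hSL => ?_⟩
  have hq : ((2 * (n + 1) + 1 : ℕ) : ℝ) * r ≤ T + 1 := by push_cast; linarith
  have τD : τ ∈ D := adkD hS (hTu 0 (by omega) τ (by simp; positivity))
  have x1 := (xp X0 hr he τD (by linarith) r hnr).2
  obtain ⟨c, hc⟩ : ∃ c, c = fY Φ τ - r * fB Φ τ := ⟨_, rfl⟩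
  rw [← hc] at x1 ⊢
  have cB : c ∈ ball (y0 - r * b0) (‖a0 - b0‖ * ν * r / 2) := by
    rw [mem_ball, dist_eq_norm]
    have := n2 (x := c - (y0 - r * b0)) (by ring) x1 (nm (w := a0 - b0) hτ)
    linarith
  have k1 := k0 c cB
  obtain ⟨_, _, _, u1⟩ := hG c (by linarith)
  obtain ⟨c1, _, c2, _⟩ := chain hC hη hr hq hTu (k := 0) (by omega) (t := τ) rfl rfl
  have q1 : G c = th d Φ η (τ, r) := by
    refine zer hW (u1 _ ?_) (by rw [hc]; linear_combination c2)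
    rw [mem_ball, dist_eq_norm]
    have := n2 (x := th d Φ η (τ, r) - (b + r)) (by push_cast; ring) c1 hτ
    linarith
  have q2 : F1 c = (dbl d Φ η r)^[n + 1] τ := by
    rw [hF1]
    simp only [q1]
    rfl
  obtain ⟨c3, c4, c5, c6⟩ := chain hC hη hr hq hTu (k := n + 1) (by omega) q2 rfl
  have c7 := hC.orb τ _ hq hTu (n + 1 + 1) (by omega)
  rw [Function.iterate_succ_apply', ← q2] at c7
  have q3 : F (F1 c) = dbl d Φ η r (F1 c) := by
    refine (hF (F1 c) (key c cB).2.2.1 (key c cB).2.2.2).2.2 _ (adkD hS c4) _ ?_ ?_ c5 c6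
    · exact (n2 (x := th d Φ η (F1 c, r) - (b + T)) (by push_cast; ring)
        (n2 rfl c3 hτ) hθ).trans (by linarith)
    · exact (n2 (x := dbl d Φ η r (F1 c) - z0) (by rw [hz0]; push_cast; ring) c7 hτ).trans
        (by linarith)
  have q4 : (dbl d Φ η r)^[n] (F (F1 c)) = (dbl d Φ η r)^[2 * (n + 1)] τ := by
    rw [q3, q2, ← Function.iterate_succ_apply' (dbl d Φ η r), ← Function.iterate_add_apply]
    exact congrArg (fun k => (dbl d Φ η r)^[k] τ) (by omega)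
  obtain ⟨_, _, _, c8⟩ := chain hC hη hr hq hTu (k := 2 * (n + 1)) (by omega) q4 rfl
  rw [Function.iterate_succ_apply', ← q4] at hSL
  rw [hF3]
  simp only []
  rw [c8, hSL.1, hSL.2]

end Pool.Agent.AO.Two
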