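import Pool.Agent.Lib.AO.Blue3

set_option autoImplicit false

noncomputable section

namespace Pool.Agent.AO

open Set Metric Filter Topology ComplexConjugate

theorem top_small (A : ℝ) {B : ℝ} (hB : 0 < B) : ∀ᶠ s in 𝓝[>] (0 : ℝ), s * A < B := by
  have : Tendsto (fun s : ℝ => s * A) (𝓝 0) (𝓝 (0 * A)) :=
    (continuous_id.mul continuous_const).tendsto 0
  rw [zero_mul] at this
  exact (this.eventually_lt_const hB).filter_mono nhdsWithin_le_nhds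

theorem top_chd (C : Set (ℝ × ℝ)) {u : ℝ × ℝ} (hu : u ≠ 0) : ∃ σ : C → C, Chd C u σ := by
  have : ∀ x : C, ∃ z : C, (∃ t : ℝ, (z : ℝ × ℝ) = x + t • u) ∧
      (z = x → ∀ t : ℝ, (x : ℝ × ℝ) + t • u ∈ C → t = 0) := by
    intro x
    by_cases h : ∃ t : ℝ, t ≠ 0 ∧ (x : ℝ × ℝ) + t • u ∈ C
    · obtain ⟨t, t0, ht⟩ := h
      refine ⟨⟨_, ht⟩, ⟨t, rfl⟩, fun e => ?_⟩
      have e' : (x : ℝ × ℝ) + t • u = x := congrArg Subtype.val e
      exact absurd (add_eq_left.1 e') (smul_ne_zero t0 hu)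
    · refine ⟨x, ⟨0, by simp⟩, fun _ t ht => ?_⟩
      by_contra t0
      exact h ⟨t, t0, ht⟩
  choose σ hσ using this
  exact ⟨σ, hσ⟩

theorem top_px {d : Dat} {K : Set (ℝ × ℝ)} {lo hi : ℝ} {a β : ℝ → ℝ} (hO : OvZ d K)
    (hg : Geo K lo hi a β) {y0 : ℝ} (h0 : y0 ∈ Icc lo hi) (e : β y0 = a y0) :
    d.px (a y0, y0) = 0 := by
  have c : ContinuousOn (fun y : ℝ => d.D ((a y : ℂ), (β y : ℂ), (y : ℂ))) (Icc lo hi) :=
    d.cD.continuous.comp_continuousOn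
      ((Complex.continuous_ofReal.comp_continuousOn hg.ca).prodMk
        ((Complex.continuous_ofReal.comp_continuousOn hg.cb).prodMk
          Complex.continuous_ofReal.continuousOn))
  have z : EqOn (fun y : ℝ => d.D ((a y : ℂ), (β y : ℂ), (y : ℂ))) (fun _ => 0) (Ioo lo hi) := by
    intro y hy
    have h1 : d.p (a y, y) = 0 := hO.2.2.2 _ (hg.ma y (Ioo_subset_Icc_self hy))
    have h2 : d.p (β y, y) = 0 := hO.2.2.2 _ (hg.mb y (Ioo_subset_Icc_self hy))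
    have h3 := d.hD (a y) (β y) y
    rw [h1, h2, sub_self] at h3
    refine (mul_eq_zero.1 h3.symm).resolve_left (sub_ne_zero.2 ?_)
    exact_mod_cast (hg.ne y hy).ne'
  have := z.of_subset_closure c continuousOn_const Ioo_subset_Icc_self
    (by rw [closure_Ioo hg.lt.ne]) h0
  simpa only [e, d.Dd] using this

theorem top_cone {d : Dat} {K : Set (ℝ × ℝ)} {lo hi : ℝ} {a β : ℝ → ℝ} (hO : OvZ d K)
    (hg : Geo K lo hi a β) {y0 : ℝ} (h0 : y0 ∈ Icc lo hi) (e : β y0 = a y0) {C δ : ℝ}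
    (hδ : 0 < δ) (h : ∀ x z : ℂ, d.p (x, z) = 0 → ‖x - a y0‖ < δ → ‖z - y0‖ < δ →
      ‖x - a y0‖ ≤ C * ‖z - y0‖) : ∀ q ∈ K, |q.1 - a y0| ≤ C * |q.2 - y0| := by
  intro q hq
  have nr : ∀ s t : ℝ, ‖(s : ℂ) - t‖ = |s - t| := fun s t => by
    rw [← Complex.ofReal_sub, Complex.norm_real, Real.norm_eq_abs]
  have k0 : (a y0, y0) ∈ K := hO.1.isClosed.frontier_subset (hg.ma y0 h0)
  obtain ⟨δ1, p1, c1⟩ := Metric.continuousWithinAt_iff.1 (hg.ca y0 h0) δ hδ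
  obtain ⟨δ2, p2, c2⟩ := Metric.continuousWithinAt_iff.1 (hg.cb y0 h0) δ hδ
  obtain ⟨l, ⟨⟨l1, l2⟩, l3, l4⟩, l0⟩ := ((((top_small 1 one_pos).and
    (top_small |q.2 - y0| hδ)).and ((top_small |q.2 - y0| p1).and
      (top_small |q.2 - y0| p2))).and self_mem_nhdsWithin).exists
  have l0 : 0 < l := l0
  have m := hg.mem _ (hO.2.1.convex.add_smul_sub_mem k0 hq ⟨l0.le, by linarith⟩)
  simp only [Prod.fst_add, Prod.snd_add, Prod.smul_fst, Prod.smul_snd, Prod.fst_sub, Prod.snd_sub,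
    smul_eq_mul] at m
  have ey : |y0 + l * (q.2 - y0) - y0| = l * |q.2 - y0| := by
    rw [add_sub_cancel_left, abs_mul, abs_of_pos l0]
  generalize y0 + l * (q.2 - y0) = y at m ey
  have u1 := c1 m.1 (by rw [Real.dist_eq]; linarith)
  have u2 := c2 m.1 (by rw [Real.dist_eq]; linarith)
  rw [Real.dist_eq] at u1 u2
  rw [e] at u2
  have v1 := h _ _ (hO.2.2.2 _ (hg.ma y m.1)) (by rwa [nr]) (by rw [nr]; linarith)
  have v2 := h _ _ (hO.2.2.2 _ (hg.mb y m.1)) (by rwa [nr]) (by rw [nr]; linarith)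
  rw [nr, nr, ey] at v1 v2
  have w : |l * (q.1 - a y0)| ≤ C * (l * |q.2 - y0|) :=
    abs_le.2 ⟨by linarith [(abs_le.1 v2).1, m.2.1], by linarith [(abs_le.1 v1).2, m.2.2]⟩
  rw [abs_mul, abs_of_pos l0] at w
  exact le_of_mul_le_mul_left (by linarith) l0

theorem top_py {d : Dat} {K : Set (ℝ × ℝ)} {lo hi : ℝ} {a β : ℝ → ℝ} (hG : Gen d) (hO : OvZ d K)
    (hg : Geo K lo hi a β) (hK : HypK (frontier K) (1, 0) (0, 1)) {y0 : ℝ} (h0 : y0 ∈ Icc lo hi)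
    (e : β y0 = a y0) : d.py (a y0, y0) ≠ 0 := by
  intro hy
  obtain ⟨C, δ, hδ, hC⟩ := hG.g5 _ _ (hO.2.2.2 _ (hg.ma y0 h0)) (top_px hO hg h0 e) hy
  have cone := top_cone hO hg h0 e hδ hC
  obtain ⟨ρ, hρ, hK⟩ := hK
  obtain ⟨m, m1, m2⟩ := exists_between hg.lt
  obtain ⟨s, ⟨⟨s1, s2⟩, s3⟩, s0⟩ := ((((top_small 1 hρ).and (top_small C one_pos)).and
    (top_small (a hi - β m) (sub_pos.2 m2))).and self_mem_nhdsWithin).exists
  have s0 : 0 < s := s0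
  obtain ⟨σ₁, c1⟩ := top_chd (frontier K) (u := (1, 0) + s • (0, 1)) (by simp)
  obtain ⟨σ₂, c2⟩ := top_chd (frontier K) (u := (1, 0) - s • (0, 1)) (by simp)
  have fx : ∀ (z : frontier K) (t v : ℝ), |v| = s →
      (z : ℝ × ℝ) = (a y0, y0) + t • (1, v) → z = ⟨_, hg.ma y0 h0⟩ := by
    intro z t v hv hz
    have h1 := cone z (hO.1.isClosed.frontier_subset z.2)
    rw [hz] at h1
    simp only [Prod.fst_add, Prod.snd_add, Prod.smul_fst, Prod.smul_snd, smul_eq_mul, mul_one,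
      add_sub_cancel_left, abs_mul, hv] at h1
    have h2 : |t| = 0 := by
      by_contra h3
      have h4 : 0 < |t| := lt_of_le_of_ne (abs_nonneg t) (Ne.symm h3)
      nlinarith
    rw [abs_eq_zero.1 h2, zero_smul, add_zero] at hz
    exact Subtype.ext hz
  have f1 : σ₁ ⟨_, hg.ma y0 h0⟩ = ⟨_, hg.ma y0 h0⟩ := by
    obtain ⟨t, ht⟩ := (c1 ⟨_, hg.ma y0 h0⟩).1
    exact fx _ t s (abs_of_pos s0) (by simpa using ht)
  have f2 : σ₂ ⟨_, hg.ma y0 h0⟩ = ⟨_, hg.ma y0 h0⟩ := by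
    obtain ⟨t, ht⟩ := (c2 ⟨_, hg.ma y0 h0⟩).1
    exact fx _ t (-s) (by rw [abs_neg, abs_of_pos s0]) (by simpa using ht)
  have mI : m ∈ Icc lo hi := ⟨m1.le, m2.le⟩
  have all : σ₂ (σ₁ ⟨_, hg.mb m mI⟩) = ⟨_, hg.mb m mI⟩ :=
    hK s s0 (by linarith) σ₁ σ₂ c1 c2 1 ⟨_, hg.ma y0 h0⟩ (by simp [f1, f2]) _
  obtain ⟨t1, k1⟩ := (c1 ⟨_, hg.mb m mI⟩).1
  obtain ⟨t2, k2⟩ := (c2 (σ₁ ⟨_, hg.mb m mI⟩)).1
  rw [all, k1] at k2
  have j1 := congrArg Prod.fst k2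
  have j2 := congrArg Prod.snd k2
  simp at j1 j2
  have t0 : t1 = 0 := by
    have : t1 * s = 0 := by
      have : t2 = -t1 := by linarith
      rw [this] at j2
      linarith
    exact (mul_eq_zero.1 this).resolve_right s0.ne'
  rw [t0, zero_smul, add_zero] at k1
  have no := (c1 ⟨_, hg.mb m mI⟩).2 (Subtype.ext k1)
  have ne := hg.ne m ⟨m1, m2⟩
  have ct : ContinuousOn (fun y => y - m - s * (a y - β m)) (Icc m hi) :=
    (continuousOn_id.sub continuousOn_const).sub (continuousOn_const.mul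
      ((hg.ca.mono (Icc_subset_Icc_left m1.le)).sub continuousOn_const))
  obtain ⟨y, hy1, hy2⟩ := intermediate_value_Icc m2.le ct (a := m) (b := hi)
    (show (0 : ℝ) ∈ _ from ⟨by nlinarith, by linarith⟩)
  beta_reduce at hy2
  have := no (a y - β m) (by
    have h1 := hg.ma y ⟨m1.le.trans hy1.1, hy1.2⟩
    have h2 : ((β m, m) : ℝ × ℝ) + (a y - β m) • ((1, 0) + s • ((0, 1) : ℝ × ℝ)) = (a y, y) := by
      ext
      · simp
      · simp
        linarith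
    exact h2 ▸ h1)
  have ym : y = m := by rw [this] at hy2; linarith
  rw [ym] at this
  linarith

theorem st_TOP : St_TOP := by
  intro d K lo hi a β hG hO hg hK
  have h1 : hi ∈ Icc lo hi := right_mem_Icc.2 hg.lt.le
  have h2 : lo ∈ Icc lo hi := left_mem_Icc.2 hg.lt.le
  exact ⟨⟨top_px hO hg h1 hg.e2, top_py hG hO hg hK h1 hg.e2⟩, top_px hO hg h2 hg.e1,
    top_py hG hO hg hK h2 hg.e1⟩

end Pool.Agent.AO
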