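import Pool.Agent.Lib.AO.All
import Pool.Agent.Lib.AO.Core3
import Pool.Agent.Lib.AO.Alg66b
import Pool.Agent.Lib.AO.Top66
import Pool.Agent.Lib.AO.Geo75
import Pool.Agent.Lib.AO.Rsec75
import Pool.Agent.Lib.AO.R_RF
import Pool.Agent.Lib.AO.R_LINK
import Pool.Agent.Lib.AO.R_KIT
import Pool.Agent.Lib.AO.R_L2
import Pool.Agent.Lib.AO.R_LOWR
import Pool.Agent.Lib.AO.R_UPR
import Pool.Agent.Lib.AO.T_FAR
import Pool.Agent.Lib.AO.T_STEP
import Pool.Agent.Lib.AO.T_CTX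
import Pool.Agent.Lib.AO.T_UPA

set_option autoImplicit false

namespace Pool.Agent.AO

theorem all_MAXB3 : St_MAXB := st_MAXB all_LIM st_GLUE st_UNION st_EXT

theorem all_UPR : St_UPR :=
  st_UPR (Two.st_CTX (Two.st_STEP (Two.st_FAR st_INT st_SOLVE0 st_SCH) st_INT) st_SYM) st_DIR
    (Two.st_UPA st_INT) st_LOWR st_CLR st_SOLVE0

theorem all_CORE2 : St_CORE2 :=
  st_CORE2 st_GEO st_TOP st_RF st_LINK2 (st_RSEC all_LIM all_MAXB3 st_GRON st_CLU st_SYM st_RGL)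
    all_UPR st_PS (st_STRIP all_LIM st_GLUE st_UNION st_EXT) (st_ENT all_LIM st_UNI st_SYM)
    (st_SECT all_LIM all_MAXB3 st_GRON st_CLU st_GLUE st_EXT st_SYM) st_SYM
    (st_UPB2 (st_CTX (st_STEP (st_FAR st_INT st_SOLVE0 st_SCH) st_INT) st_SYM) st_LOW2 st_DIR
      (st_UPA st_INT) st_CLS st_SOLVE0)

theorem all_MAIN2 : St_MAIN2 := st_MAIN2 st_SQF st_ALG st_GA2 st_GT all_CORE2

end Pool.Agent.AO
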