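import Pool.Agent.Lib.AO.Blue2

set_option autoImplicit false

namespace Pool.Agent.AO

open Set MvPolynomial

theorem st_CHEV : St_CHEV := by
  intro n I hc
  classical
  set T := {t : ℂ | ∃ z : Fin n → ℂ, ∀ f ∈ I,
    eval (fun o : Option (Fin n) => o.elim t z) f = 0} with hT
  by_contra hinf
  have h1 : ∀ a : ↥Tᶜ, ∃ u : MvPolynomial (Option (Fin n)) ℂ, ∀ x : Option (Fin n) → ℂ,
      (∀ f ∈ I, eval x f = 0) → eval x u * (x none - a) = 1 := fun a => by
    have e : zeroLocus ℂ (Ideal.span (insert (X none - C a.1) I)) = ∅ := by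
      refine eq_empty_of_forall_notMem fun x hx => a.2 ⟨fun i => x (some i), fun f hf => ?_⟩
      have h2 : x none - a.1 = 0 := by
        simpa using hx _ (Ideal.subset_span (mem_insert _ _))
      have h3 : (fun o : Option (Fin n) => o.elim a.1 fun i => x (some i)) = x := by
        funext o
        cases o with
        | none => exact (sub_eq_zero.1 h2).symm
        | some i => rfl
      rw [h3]
      exact hx f (Ideal.subset_span (mem_insert_of_mem _ hf))
    have h4 := vanishingIdeal_zeroLocus_eq_radical (K := ℂ) (Ideal.span (insert (X none - C a.1) I))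
    rw [e, vanishingIdeal_empty, eq_comm, Ideal.radical_eq_top, Ideal.eq_top_iff_one,
      Ideal.mem_span_insert] at h4
    obtain ⟨u, z, hz, h5⟩ := h4
    refine ⟨u, fun x hx => ?_⟩
    have h6 : eval x z = 0 := (Ideal.span_le (I := RingHom.ker (eval x))).2 hx hz
    simpa [h6] using (congrArg (eval x) h5).symm
  choose u hu using h1
  have li : LinearIndependent ℂ u := linearIndependent_iff'.2 fun s c hs i hi => by
    have h2 : (∑ j ∈ s, Polynomial.C (c j) *
        ∏ k ∈ s.erase j, (Polynomial.X - Polynomial.C k.1) : Polynomial ℂ) = 0 := by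
      refine Polynomial.eq_zero_of_infinite_isRoot _ (Set.Infinite.mono ?_ hinf)
      rintro t ⟨z, hz⟩
      have h3 := congrArg (eval fun o : Option (Fin n) => o.elim t z) hs
      simp only [map_sum, smul_eval, map_zero] at h3
      simp only [mem_ofPred_eq, Polynomial.IsRoot, Polynomial.eval_finsetSum, Polynomial.eval_mul,
        Polynomial.eval_C, Polynomial.eval_prod, Polynomial.eval_sub, Polynomial.eval_X]
      rw [← mul_zero (∏ k ∈ s, (t - k.1)), ← h3, Finset.mul_sum]
      refine Finset.sum_congr rfl fun j hj => ?_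
      have h4 : _ * (t - j.1) = 1 := hu j _ hz
      rw [← Finset.mul_prod_erase s _ hj]
      linear_combination (-c j * ∏ k ∈ s.erase j, (t - k.1)) * h4
    have h3 := congrArg (Polynomial.eval i.1) h2
    simp only [Polynomial.eval_finsetSum, Polynomial.eval_mul, Polynomial.eval_C,
      Polynomial.eval_prod, Polynomial.eval_sub, Polynomial.eval_X, Polynomial.eval_zero] at h3
    rw [Finset.sum_eq_single_of_mem i hi fun j _ hj => mul_eq_zero_of_right _
      (Finset.prod_eq_zero (Finset.mem_erase.2 ⟨hj.symm, hi⟩) (sub_self _))] at h3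
    exact (mul_eq_zero.1 h3).resolve_right (Finset.prod_ne_zero_iff.2 fun k hk =>
      sub_ne_zero.2 fun e => (Finset.mem_erase.1 hk).1 (Subtype.ext e.symm))
  have h2 := li.cardinal_le_rank
  rw [rank_eq] at h2
  have h3 : Tᶜ.Countable := Cardinal.le_aleph0_iff_set_countable.1 (h2.trans Cardinal.mk_le_aleph0)
  have h4 := hc.union h3
  rw [union_compl_self] at h4
  exact not_countable_complex h4

end Pool.Agent.AO
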