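import Mathlib

/-! The sum of the errors along an orbit. -/

open Set Finset

namespace Pool.Agent.Lib.AO.S23

theorem arc {K : ℝ} (hK : 1 ≤ K) (t : ℝ) : ((max K (|t| - 1)) ^ 2)⁻¹ ≤
    5 * (Real.arctan ((t + 1) / K) / K - Real.arctan ((t - 1) / K) / K) := by
  have K0 : 0 < K := by linarith
  set M := max K (|t| - 1) with hM
  have M1 : K ≤ M := le_max_left _ _
  have M2 : |t| - 1 ≤ M := le_max_right _ _
  have hd : ∀ s : ℝ, HasDerivAt (fun s => Real.arctan (s / K) / K) (1 / (K ^ 2 + s ^ 2)) s := by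
    intro s
    have h := (((hasDerivAt_id s).div_const K).arctan).div_const K
    refine h.congr_deriv ?_
    simp only [id]
    field_simp
  have h := (convex_Icc (t - 1) (t + 1)).mul_sub_le_image_sub_of_le_deriv
    (f := fun s => Real.arctan (s / K) / K) (C := 1 / (10 * M ^ 2))
    (fun s _ => (hd s).continuousAt.continuousWithinAt)
    (fun s _ => (hd s).differentiableAt.differentiableWithinAt)
    (fun s hs => by
      have hs' := interior_subset hs
      rw [(hd s).deriv]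
      have h1 : |s| ≤ 3 * M := abs_le.2
        ⟨by linarith [hs'.1, neg_abs_le t], by linarith [hs'.2, le_abs_self t]⟩
      have h2 : s ^ 2 ≤ (3 * M) ^ 2 := sq_le_sq' (abs_le.1 h1).1 (abs_le.1 h1).2
      exact one_div_le_one_div_of_le (by positivity) (by nlinarith))
    (t - 1) ⟨le_rfl, by linarith⟩ (t + 1) ⟨by linarith, le_rfl⟩ (by linarith)
  have M0 : 0 < M := by linarith
  have e : (M ^ 2)⁻¹ = 5 * (1 / (10 * M ^ 2) * (t + 1 - (t - 1))) := by field_simp; ring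
  rw [e]
  linarith

/-- Points with spacing about `2 r` seen from one point. -/
theorem sum_bd {K r : ℝ} (hK : 1 ≤ K) (hr : 0 < r) (μ : ℕ → ℂ) (x b : ℂ) (n : ℕ)
    (h : ∀ k < n, ‖μ k - (x + 2 * k * r)‖ ≤ r) :
    ∑ k ∈ range n, ((max (K * r) ‖μ k - b‖) ^ 2)⁻¹ ≤ 16 / (K * r ^ 2) := by
  have K0 : 0 < K := by linarith
  set t := (x.re - b.re) / r with ht
  let G : ℕ → ℝ := fun k => Real.arctan ((t + 2 * k - 1) / K) / K
  have h1 : ∀ k ∈ range n, ((max (K * r) ‖μ k - b‖) ^ 2)⁻¹ ≤ 5 / r ^ 2 * (G (k + 1) - G k) := by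
    intro k hk
    have h2 := arc hK (t + 2 * k)
    have h3 : (|t + 2 * k| - 1) * r ≤ ‖μ k - b‖ := by
      have h4 := (Complex.abs_re_le_norm _).trans (h k (mem_range.1 hk))
      have h5 := Complex.abs_re_le_norm (μ k - b)
      have h6 : (t + 2 * k) * r = (μ k - b).re - (μ k - (x + 2 * k * r)).re := by
        simp [ht]
        field_simp
        ring
      have h7 := abs_sub ((μ k - b).re) ((μ k - (x + 2 * k * r)).re)
      rw [← h6, abs_mul, abs_of_pos hr] at h7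
      linarith
    have h8 : max K (|t + 2 * k| - 1) * r ≤ max (K * r) ‖μ k - b‖ := by
      rw [max_mul_of_nonneg _ _ hr.le]
      exact max_le_max le_rfl h3
    have h9 : 0 < max K (|t + 2 * k| - 1) := K0.trans_le (le_max_left _ _)
    have e : G (k + 1) = Real.arctan ((t + 2 * k + 1) / K) / K := by
      simp only [G]
      push_cast
      ring_nf
    calc ((max (K * r) ‖μ k - b‖) ^ 2)⁻¹ ≤ ((max K (|t + 2 * k| - 1) * r) ^ 2)⁻¹ := by gcongr
      _ = (r ^ 2)⁻¹ * ((max K (|t + 2 * k| - 1)) ^ 2)⁻¹ := by rw [mul_pow, mul_inv, mul_comm]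
      _ ≤ (r ^ 2)⁻¹ * (5 * (G (k + 1) - G k)) := by rw [e]; gcongr
      _ = _ := by ring
  refine (sum_le_sum h1).trans ?_
  rw [← mul_sum, sum_range_sub]
  have h2 : G n - G 0 ≤ 16 / 5 / K := by
    simp only [G]
    rw [← sub_div]
    gcongr
    linarith [Real.arctan_lt_pi_div_two ((t + 2 * (n : ℝ) - 1) / K),
      Real.neg_pi_div_two_lt_arctan ((t + 2 * ((0 : ℕ) : ℝ) - 1) / K), Real.pi_lt_d2]
  calc 5 / r ^ 2 * (G n - G 0) ≤ 5 / r ^ 2 * (16 / 5 / K) := by gcongr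
    _ = _ := by field_simp

/-- The orbit stays near the nominal points. -/
theorem orbit {K r η C : ℝ} (hK : 1 ≤ K) (hr : 0 < r) (hC : 0 ≤ C) (hη : η ≤ 1 / 2) (S : Finset ℂ)
    (τ μ : ℕ → ℂ) (q : ℕ) (hs : C * (q * r ^ 2 + 16 * S.card / K) ≤ η)
    (h : ∀ k < q, ‖τ k - (τ 0 + 2 * k * r)‖ ≤ η * r → ‖μ k - (τ k + r)‖ ≤ r / 2 ∧
      ‖τ (k + 1) - τ k - 2 * r‖ ≤ C * r ^ 3 * (1 + ∑ b ∈ S, ((max (K * r) ‖μ k - b‖) ^ 2)⁻¹)) :
    ∀ k ≤ q, ‖τ k - (τ 0 + 2 * k * r)‖ ≤ η * r := by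
  have K0 : 0 < K := by linarith
  intro k
  induction k using Nat.strong_induction_on with
  | _ k ih =>
    intro hk
    have h1 := fun j (hj : j < k) => h j (hj.trans_le hk) (ih j hj (hj.le.trans hk))
    have e : τ k - (τ 0 + 2 * k * r) = ∑ j ∈ range k, (τ (j + 1) - τ j - 2 * r) := by
      rw [sum_sub_distrib, sum_range_sub]
      simp
      ring
    have h2 : ∀ b ∈ S, ∑ j ∈ range k, ((max (K * r) ‖μ j - b‖) ^ 2)⁻¹ ≤ 16 / (K * r ^ 2) :=
      fun b _ => sum_bd hK hr μ (τ 0 + r) b k fun j hj => by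
        have h3 := norm_add_le (μ j - (τ j + r)) (τ j - (τ 0 + 2 * j * r))
        rw [show μ j - (τ j + r) + (τ j - (τ 0 + 2 * j * r)) = μ j - (τ 0 + r + 2 * j * r) by ring]
          at h3
        nlinarith [(h1 j hj).1, ih j hj (hj.le.trans hk)]
    have hkq : (k : ℝ) ≤ q := by exact_mod_cast hk
    calc ‖τ k - (τ 0 + 2 * k * r)‖ ≤ ∑ j ∈ range k, ‖τ (j + 1) - τ j - 2 * r‖ := by
          rw [e]; exact norm_sum_le _ _
      _ ≤ ∑ j ∈ range k, C * r ^ 3 * (1 + ∑ b ∈ S, ((max (K * r) ‖μ j - b‖) ^ 2)⁻¹) :=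
          sum_le_sum fun j hj => (h1 j (mem_range.1 hj)).2
      _ = C * r ^ 3 * (k + ∑ b ∈ S, ∑ j ∈ range k, ((max (K * r) ‖μ j - b‖) ^ 2)⁻¹) := by
          rw [← mul_sum, sum_add_distrib, sum_comm]
          simp
      _ ≤ C * r ^ 3 * (q + ∑ _b ∈ S, 16 / (K * r ^ 2)) := by
          gcongr with b hb
          exact h2 b hb
      _ = C * (q * r ^ 2 + 16 * S.card / K) * r := by
          rw [sum_const, nsmul_eq_mul]
          field_simp
      _ ≤ η * r := by gcongr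

end Pool.Agent.Lib.AO.S23
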