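import Pool.Agent.Lib.AO.Blue
import Pool.Agent.Lib.AO.Sum23

/-! Orbits of the double step. -/

set_option autoImplicit false

noncomputable section

namespace Pool.Agent.AO

open Set Metric Filter Topology ComplexConjugate

theorem ctx_flip (hY : St_SYM) {d : Dat} {h R κ : ℝ} {S : Finset ℂ} {D : Set ℂ} {Φ : ℂ → S3}
    (H : Sec d h R κ S D Φ) : Sec d.flip h R κ S D (flp Φ) where
  sol := (hY d D Φ H.sol).2.2.2.2
  hp := H.hp
  kp := H.kp
  k1 := H.k1
  im := H.im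
  adm := H.adm
  xp b hb := by
    obtain ⟨σ, s1, s2⟩ := H.xp b hb
    refine ⟨(-σ.2.1, -σ.1, σ.2.2), fun c => s1 (neg_inj.1 c).symm, fun ε hε => ?_⟩
    obtain ⟨δ, d0, hd⟩ := s2 ε hε
    refine ⟨δ, d0, fun τ hτ hb => ?_⟩
    obtain ⟨a1, a2, a3⟩ := hd τ hτ hb
    refine ⟨?_, ?_, ?_⟩
    · exact (show ‖-fB Φ τ - -σ.2.1‖ = _ by rw [neg_sub_neg, norm_sub_rev]).trans_le a2
    · exact (show ‖-fA Φ τ - -σ.1‖ = _ by rw [neg_sub_neg, norm_sub_rev]).trans_le a1
    · exact (show ‖fY Φ τ - σ.2.2 - (-σ.2.1 - -σ.1) * (τ - b)‖ = _ by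
        rw [neg_sub_neg]).trans_le a3
  diag τ hτ c := by
    have e : fA Φ τ = fB Φ τ := (neg_inj.1 c).symm
    obtain ⟨⟨a1, a2⟩, a3⟩ := H.diag τ hτ e
    refine ⟨⟨?_, ?_⟩, ?_⟩
    · simpa only [Dat.flip, flp, sw, neg_neg] using a2
    · simpa only [Dat.flip, flp, sw, neg_neg] using a1
    · rw [e] at a3
      simpa only [Dat.flip, flp, fA, fB, fY, neg_neg] using a3

theorem st_CTX (hS : St_STEP) (hY : St_SYM) : St_CTX := fun d h R κ S D Φ H L ε η e0 n0 n1 n2 => by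
  obtain ⟨C, C1, hC⟩ := hS d h R κ S D Φ H (ctx_flip hY H)
  have s0 : (0 : ℝ) ≤ S.card := Nat.cast_nonneg _
  obtain ⟨K, K1, K2, K3⟩ : ∃ K : ℝ, 1 ≤ K ∧ 2 * C ≤ η * K ∧ 32 * C * S.card ≤ η * K := by
    have e : η * ((2 * C + 32 * C * S.card) / η + 1) = 2 * C + 32 * C * S.card + η := by
      field_simp
    have p : 0 ≤ C * S.card := by positivity
    refine ⟨(2 * C + 32 * C * S.card) / η + 1, le_add_of_nonneg_left (by positivity), ?_, ?_⟩ <;>
      rw [e] <;> linarith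
  obtain ⟨r0, r00, h0⟩ := hC ε η K e0 n0 n1 n2 K2
  have L0 : 0 < 2 * C * (|L| + 1) := by positivity
  refine ⟨min r0 (η / (2 * C * (|L| + 1))), lt_min r00 (div_pos n0 L0), fun r rp hr => ?_⟩
  obtain ⟨r1, r2⟩ := lt_min_iff.1 hr
  obtain ⟨one, two⟩ := h0 r rp r1
  have nr : 0 < η * r := mul_pos n0 rp
  have adk : ∀ (τ : ℂ) (m k : ℕ) (t : ℂ), Tube h R κ S ε η r τ (2 * m) → k < m →
      ‖t - (τ + 2 * k * r)‖ ≤ η * r → Adk h R κ S t (ε * r) ∧ Adk h R κ S (t + r) (ε * r) ∧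
      ‖th d Φ η (t, r) - (t + r)‖ ≤ η * r / 2 ∧ Adk h R κ S (th d Φ η (t, r)) (ε * r) ∧
      Adk h R κ S (th d Φ η (t, r) + r) (ε * r) := fun τ m k t T hk ht => by
    have a1 := T (2 * k) (by omega) t (by push_cast; linarith)
    have a2 := T (2 * k + 1) (by omega) (t + r) (by
      rw [show t + r - (τ + ((2 * k + 1 : ℕ) : ℂ) * r) = t - (τ + 2 * k * r) by push_cast; ring]
      linarith)
    have a3 := (one t a1 a2).1.est
    have a4 := norm_add_le (th d Φ η (t, r) - t - r) (t - (τ + 2 * k * r))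
    refine ⟨a1, a2, by rwa [← sub_sub], T (2 * k + 1) (by omega) _ ?_, T (2 * k + 2) (by omega) _ ?_⟩
    · rw [show th d Φ η (t, r) - (τ + ((2 * k + 1 : ℕ) : ℂ) * r) =
        th d Φ η (t, r) - t - r + (t - (τ + 2 * k * r)) by push_cast; ring]
      linarith
    · rw [show th d Φ η (t, r) + r - (τ + ((2 * k + 2 : ℕ) : ℂ) * r) =
        th d Φ η (t, r) - t - r + (t - (τ + 2 * k * r)) by push_cast; ring]
      linarith
  have orb : ∀ (τ : ℂ) (m : ℕ), m * r ≤ L → Tube h R κ S ε η r τ (2 * m) → ∀ k ≤ m,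
      ‖(dbl d Φ η r)^[k] τ - (τ + 2 * k * r)‖ ≤ η * r := fun τ m hm T =>
    Lib.AO.S23.orbit K1 rp (by linarith : 0 ≤ C) (by linarith) S (fun k => (dbl d Φ η r)^[k] τ)
      (fun k => th d Φ η ((dbl d Φ η r)^[k] τ, r)) m (by
        rw [lt_div_iff₀ L0] at r2
        have b1 : C * (16 * S.card / K) ≤ η / 2 := by
          rw [← mul_div_assoc, div_le_iff₀ (by linarith)]
          linarith
        have b2 : m * r * (C * r) ≤ (|L| + 1) * (C * r) :=
          mul_le_mul_of_nonneg_right (by linarith [le_abs_self L]) (by positivity)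
        nlinarith) fun k hk ht => by
      obtain ⟨a1, a2, a3, a4, a5⟩ := adk τ m k _ T hk ht
      refine ⟨a3.trans (by nlinarith), ?_⟩
      simpa only [Function.iterate_succ_apply', one_div] using two _ a1 a2 a4 a5
  refine ⟨one, orb, fun τ m hm T => ?_⟩
  have : ∀ k ≤ m, DifferentiableAt ℂ (fun p : ℂ × ℂ => (dbl d Φ η p.2)^[k] p.1) (τ, r) := by
    intro k
    induction k with
    | zero => exact fun _ => differentiableAt_fst
    | succ k ih =>
      intro hk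
      obtain ⟨a1, a2, -, a4, a5⟩ := adk τ m k _ T hk (orb τ m hm T k (by omega))
      simp only [Function.iterate_succ_apply']
      exact DifferentiableAt.comp (g := th d.flip (flp Φ) η) (τ, (r : ℂ)) (one _ a4 a5).2.dif
        ((DifferentiableAt.comp (g := th d Φ η) (τ, (r : ℂ)) (one _ a1 a2).1.dif
          ((ih (by omega)).prodMk differentiableAt_snd)).prodMk differentiableAt_snd)
  exact this m le_rfl

end Pool.Agent.AO
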