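import Pool.Agent.Lib.AO.Defs

set_option autoImplicit false

noncomputable section

namespace Pool.Agent.AO

open Set Metric Filter Topology ComplexConjugate

/-! Generic complex analysis -/

def St_SOLVE : Prop :=
  ∀ (F : Type) [NormedAddCommGroup F] [NormedSpace ℂ F] (f : ℂ × F → ℂ) (z0 l : ℂ) (R : ℝ)
    (W : Set F), IsOpen W → l ≠ 0 → DifferentiableOn ℂ f (ball z0 R ×ˢ W) →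
    (∀ p ∈ W, ∀ z ∈ ball z0 R, ‖deriv (fun s => f (s, p)) z - l‖ ≤ ‖l‖ / 2) →
    (∀ p ∈ W, ‖f (z0, p)‖ < ‖l‖ * R / 2) →
    ∃ g : F → ℂ, DifferentiableOn ℂ g W ∧ ∀ p ∈ W, g p ∈ ball z0 R ∧ f (g p, p) = 0 ∧
      ∀ z ∈ ball z0 R, ‖l‖ * ‖g p - z‖ ≤ 2 * ‖f (z, p)‖

def St_SOLVE0 : Prop :=
  ∀ (F : Type) [NormedAddCommGroup F] [NormedSpace ℂ F] (f : ℂ × F → ℂ) (z0 l : ℂ) (p0 : F),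
    ContDiffAt ℂ 1 f (z0, p0) → f (z0, p0) = 0 → HasDerivAt (fun s => f (s, p0)) l z0 → l ≠ 0 →
    ∀ R0 : ℝ, 0 < R0 → ∃ R ρ : ℝ, 0 < R ∧ R ≤ R0 ∧ 0 < ρ ∧
    ∃ g : F → ℂ, DifferentiableOn ℂ g (ball p0 ρ) ∧ ∀ p ∈ ball p0 ρ, g p ∈ ball z0 R ∧
      f (g p, p) = 0 ∧ ∀ z ∈ ball z0 R, ‖l‖ * ‖g p - z‖ ≤ 2 * ‖f (z, p)‖

def St_SCH : Prop :=
  ∀ (φ : ℂ → ℂ) (ρ M : ℝ), DifferentiableOn ℂ φ (ball 0 ρ) →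
    (∀ r ∈ ball (0 : ℂ) ρ, ‖φ r - φ 0‖ ≤ M) → HasDerivAt φ 1 0 → ∀ r ∈ ball (0 : ℂ) ρ,
    ‖φ r - φ 0 - r‖ ≤ (M + ρ) * (‖r‖ / ρ) ^ 2 ∧
      ‖φ r - φ (-r) - 2 * r‖ ≤ 2 * (M + ρ) * (‖r‖ / ρ) ^ 3

/-- Parameters (intercept, slope) for which `Y - r A = c` is solved. -/
def intW (Y A : ℂ → ℂ) (z0 w0 : ℂ) (R e : ℝ) : Set (ℂ × ℂ) :=
  {p | 16 * ‖p.2‖ * e < ‖w0‖ * R ∧ 4 * ‖Y z0 - p.2 * A z0 - p.1‖ < ‖w0‖ * R}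

def St_INT : Prop :=
  ∀ (Y A : ℂ → ℂ) (z0 w0 a0 : ℂ) (R e : ℝ), w0 ≠ 0 → 0 < R → DifferentiableOn ℂ Y (ball z0 R) →
    DifferentiableOn ℂ A (ball z0 R) → (∀ z ∈ ball z0 R, ‖deriv Y z - w0‖ ≤ ‖w0‖ / 4) →
    (∀ z ∈ ball z0 R, ‖A z - a0‖ ≤ e) → IsOpen (intW Y A z0 w0 R e) ∧
    ∃ g : ℂ × ℂ → ℂ, DifferentiableOn ℂ g (intW Y A z0 w0 R e) ∧ ∀ p ∈ intW Y A z0 w0 R e,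
      g p ∈ ball z0 (R / 2) ∧ Y (g p) - p.2 * A (g p) = p.1 ∧
        ∀ z ∈ ball z0 (R / 2), ‖w0‖ * ‖g p - z‖ ≤ 2 * ‖Y z - p.2 * A z - p.1‖

def St_CLS : Prop :=
  ∀ (A B Y ξ Ψ : ℂ → ℂ) (τ1 y0 a0 b0 : ℂ) (r ρ γ e : ℝ), 0 < r → 0 < ρ → 0 < γ → a0 ≠ b0 →
    (∀ τ ∈ ball τ1 ρ, HasDerivAt Y (A τ - B τ) τ ∧ A τ = ξ (Y τ) ∧ ‖Y τ - y0‖ ≤ γ / 64 ∧
      r * ‖B τ - b0‖ ≤ γ / 64 ∧ Ψ (Y τ - r * B τ) = Y τ + r * B τ) →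
    DifferentiableOn ℂ ξ (ball y0 γ) → (∀ y ∈ ball y0 γ, ‖ξ y - a0‖ ≤ ‖a0 - b0‖ / 8) →
    DifferentiableOn ℂ Ψ (ball (y0 - r * b0) γ) →
    (∀ c ∈ ball (y0 - r * b0) γ, ‖Ψ c - c - 2 * r * b0‖ ≤ e) → e ≤ γ / 8 →
    e ≤ r * ‖a0 - b0‖ / 4 →
    ∃ Φ : ℂ → S3, DifferentiableOn ℂ Φ (ball τ1 (γ / (32 * ‖a0 - b0‖))) ∧
      ∀ τ ∈ ball τ1 ρ, τ ∈ ball τ1 (γ / (32 * ‖a0 - b0‖)) → Φ τ = (A τ, B τ, Y τ)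

def St_GLUE : Prop :=
  ∀ (U I : Set ℂ) (Φ : ℂ → S3) (ρ : ℂ → ℝ), IsOpen U → Convex ℝ U → U.Nonempty →
    DifferentiableOn ℂ Φ U → I ⊆ closure U →
    (∀ c ∈ I, ∃ Ψ : ℂ → S3, DifferentiableOn ℂ Ψ (ball c (ρ c)) ∧ EqOn Ψ Φ (ball c (ρ c) ∩ U)) →
    ∃ Ψ : ℂ → S3, DifferentiableOn ℂ Ψ (U ∪ ⋃ c ∈ I, ball c (ρ c)) ∧ EqOn Ψ Φ U ∧
      IsPreconnected (U ∪ ⋃ c ∈ I, ball c (ρ c))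

def St_UNION : Prop :=
  ∀ (ι : Type) (V : ι → Set ℂ) (Ψ : ι → ℂ → S3) (U0 : Set ℂ) (Φ : ℂ → S3), IsOpen U0 →
    U0.Nonempty → (∀ i, IsOpen (V i) ∧ Convex ℝ (V i) ∧ U0 ⊆ V i ∧
      DifferentiableOn ℂ (Ψ i) (V i) ∧ EqOn (Ψ i) Φ U0) →
    ∃ Ω : ℂ → S3, DifferentiableOn ℂ Ω (⋃ i, V i) ∧ ∀ i, EqOn Ω (Ψ i) (V i)

/-! The flow -/

def St_LOC : Prop :=
  ∀ (d : Dat) (σ0 : S3), Reg d σ0 → ∃ ρ : ℝ, 0 < ρ ∧ ∀ σ ∈ ball σ0 ρ, OnS d σ → ∀ c : ℂ,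
    ∃ Φ, Sol d (ball c ρ) Φ ∧ Φ c = σ

def St_UNI : Prop :=
  ∀ (d : Dat) (U : Set ℂ) (Φ Ψ : ℂ → S3) (c : ℂ), Sol d U Φ → Sol d U Ψ → IsPreconnected U →
    c ∈ U → Φ c = Ψ c → Reg d (Φ c) → EqOn Φ Ψ U

def St_EXT : Prop :=
  ∀ (d : Dat) (U U0 : Set ℂ) (Φ Ψ : ℂ → S3), Sol d U0 Φ → U0.Nonempty → U0 ⊆ U → IsOpen U →
    IsPreconnected U → DifferentiableOn ℂ Ψ U → EqOn Ψ Φ U0 → Sol d U Ψ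

def St_SYM : Prop :=
  ∀ (d : Dat) (U : Set ℂ) (Φ : ℂ → S3), Sol d U Φ →
    (∀ V, IsOpen V → V ⊆ U → Sol d V Φ) ∧
    (∀ c : ℂ, Sol d {τ | τ + c ∈ U} fun τ => Φ (τ + c)) ∧
    (∀ c : ℂ, Sol d {τ | c - τ ∈ U} fun τ => sw (Φ (c - τ))) ∧
    (Sol d {τ | conj τ ∈ U} fun τ => cj (Φ (conj τ))) ∧ Sol d.flip U (flp Φ)

def St_GRON : Prop :=
  ∀ d : Dat, Gen d → ∃ C : ℝ, 0 ≤ C ∧ ∀ (U : Set ℂ) (Φ : ℂ → S3), Sol d U Φ → Convex ℝ U →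
    ∀ τ ∈ U, ‖fA Φ τ‖ ≤ C * (1 + ‖fY Φ τ‖) ∧ ‖fB Φ τ‖ ≤ C * (1 + ‖fY Φ τ‖) ∧
      ∀ τ' ∈ U, 1 + ‖fY Φ τ‖ ≤ (1 + ‖fY Φ τ'‖) * Real.exp (2 * C * ‖τ - τ'‖)

def St_CLU : Prop :=
  ∀ d : Dat, Gen d → ∀ (y0 : ℂ) (ε : ℝ), 0 < ε → ∃ δ : ℝ, 0 < δ ∧ ∀ (W : Set ℂ) (X Y : ℂ → ℂ),
    IsPreconnected W → ContinuousOn X W →
    (∀ τ ∈ W, d.p (X τ, Y τ) = 0 ∧ ‖Y τ - y0‖ < δ) → ∀ τ ∈ W, ∀ τ' ∈ W, ‖X τ - X τ'‖ ≤ ε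

def St_LIM : Prop :=
  ∀ (d : Dat) (U : Set ℂ) (Φ : ℂ → S3), Gen d → Sol d U Φ → Convex ℝ U → NZ U Φ →
    ∀ b ∈ closure U, ∃ σ : S3, Tendsto Φ (𝓝[U] b) (𝓝 σ) ∧ OnS d σ ∧
      (σ.1 = σ.2.1 → Reg d σ ∧ d.py (σ.1, σ.2.2) ≠ 0) ∧ (Reg d σ → Ext U Φ b) ∧
      (d.px (σ.1, σ.2.2) ≠ 0 → d.px (σ.2.1, σ.2.2) ≠ 0 → Reg d σ)

def St_MAXB : Prop :=
  ∀ (d : Dat) (Φ : ℂ → S3) (c : ℂ) (ρ0 R : ℝ) (H : Set ℂ), Gen d → 0 < ρ0 → ρ0 ≤ R →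
    Sol d (ball c ρ0) Φ → NZ (ball c ρ0) Φ → IsClosed H →
    (∀ y ∈ H, ∀ x, d.p (x, y) = 0 → d.px (x, y) ≠ 0) →
    (∀ ρ Ψ, ρ0 ≤ ρ → ρ ≤ R → Sol d (ball c ρ) Ψ → EqOn Ψ Φ (ball c ρ0) →
      ∀ τ ∈ ball c ρ, fY Ψ τ ∈ H) →
    ∃ Ψ, Sol d (ball c R) Ψ ∧ EqOn Ψ Φ (ball c ρ0)

def St_STRIP : Prop :=
  ∀ (d : Dat) (h0 T : ℝ) (Φ0 : ℂ → S3), Gen d → 0 < h0 → PSol d (strip h0) T Φ0 →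
    (∃ Φ, PSol d univ T Φ ∧ ∀ t : ℝ, Φ t = Φ0 t) ∨
    ∃ (h : ℝ) (Φ : ℂ → S3) (b : ℂ) (σ : S3), 0 < h ∧ PSol d (strip h) T Φ ∧
      (∀ t : ℝ, Φ t = Φ0 t) ∧ b.im = h ∧ ¬Ext (strip h) Φ b ∧
      Tendsto Φ (𝓝[strip h] b) (𝓝 σ) ∧ OnS d σ ∧ d.px (σ.1, σ.2.2) ≠ 0

def St_SECT : Prop :=
  ∀ (d : Dat) (h T R : ℝ) (Φ : ℂ → S3), Gen d → 0 < h → PSol d (strip h) T Φ →
    ∃ (κ : ℝ) (S : Finset ℂ) (D : Set ℂ) (Ψ : ℂ → S3), Sec d h R κ S D Ψ ∧ strip h ⊆ D ∧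
      EqOn Ψ Φ (strip h) ∧ ∀ b : ℂ, |b.im| = h → ‖b‖ ≤ R → ¬Ext (strip h) Φ b → b ∈ S

def St_ENT : Prop :=
  ∀ (d : Dat) (T : ℝ) (Φ : ℂ → S3) (C : Set (ℝ × ℝ)), Gen d → PSol d univ T Φ → RealP C Φ → Ell C

/-! Real geometry -/

def St_CVX : Prop := ∀ (d : Dat) (K : Set (ℝ × ℝ)), Ov d K → CV d K

def St_REAL : Prop :=
  ∀ (d : Dat) (K : Set (ℝ × ℝ)), Gen d → CV d K →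
    ∃ (h0 T : ℝ) (Φ : ℂ → S3), 0 < h0 ∧ PSol d (strip h0) T Φ ∧ RealP (frontier K) Φ

def St_LINK : Prop :=
  ∀ (d : Dat) (K : Set (ℝ × ℝ)) (h T : ℝ) (Φ : ℂ → S3), CV d K → 0 < h →
    PSol d (strip h) T Φ → RealP (frontier K) Φ → HypK (frontier K) (1, 0) (0, 1) → Hyp d Φ

/-! Steps and orbits -/

def St_FAR : Prop :=
  ∀ (d : Dat) (h R κ : ℝ) (S : Finset ℂ) (D : Set ℂ) (Φ : ℂ → S3), Sec d h R κ S D Φ →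
    ∃ C : ℝ, 1 ≤ C ∧ ∀ z e, Adm h R κ S z e → ∃ g : ℂ × ℂ → ℂ,
      DifferentiableOn ℂ g (ball z (e / C) ×ˢ ball 0 (e / C)) ∧
      ∀ τ ∈ ball z (e / C), ∀ r ∈ ball (0 : ℂ) (e / C), Rel d Φ τ (g (τ, r)) r ∧
        (∀ μ ∈ ball z (3 * (e / C)), Rel d Φ τ μ r → μ = g (τ, r)) ∧
        ‖g (τ, r) - τ - r‖ ≤ C * ‖r‖ ^ 2 / e ∧
        ‖g (τ, r) - g (τ, -r) - 2 * r‖ ≤ C * ‖r‖ ^ 3 / e ^ 2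

def St_STEP : Prop :=
  ∀ (d : Dat) (h R κ : ℝ) (S : Finset ℂ) (D : Set ℂ) (Φ : ℂ → S3), Sec d h R κ S D Φ →
    Sec d.flip h R κ S D (flp Φ) → ∃ C : ℝ, 1 ≤ C ∧ ∀ ε η K : ℝ, 0 < ε → 0 < η →
      η ≤ κ * ε / 4 → η ≤ 1 / 4 → 2 * C ≤ η * K → ∃ r0 : ℝ, 0 < r0 ∧ ∀ r : ℝ, 0 < r → r < r0 →
      (∀ τ : ℂ, Adk h R κ S τ (ε * r) → Adk h R κ S (τ + r) (ε * r) →
        Stp d Φ η τ r (η * r / 2) ∧ Stp d.flip (flp Φ) η τ r (η * r / 2)) ∧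
      ∀ τ : ℂ, Adk h R κ S τ (ε * r) → Adk h R κ S (τ + r) (ε * r) →
        Adk h R κ S (th d Φ η (τ, r)) (ε * r) → Adk h R κ S (th d Φ η (τ, r) + r) (ε * r) →
        ‖dbl d Φ η r τ - τ - 2 * r‖ ≤
          C * r ^ 3 * (1 + ∑ b ∈ S, 1 / max (K * r) ‖th d Φ η (τ, r) - b‖ ^ 2)

def St_CTX : Prop :=
  ∀ (d : Dat) (h R κ : ℝ) (S : Finset ℂ) (D : Set ℂ) (Φ : ℂ → S3), Sec d h R κ S D Φ →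
    ∀ L ε η : ℝ, 0 < ε → 0 < η → η ≤ κ * ε / 4 → η ≤ 1 / 4 →
      ∃ r0 : ℝ, 0 < r0 ∧ ∀ r : ℝ, 0 < r → r < r0 → Ctx d h R κ S Φ L ε η r

def St_DIR : Prop :=
  ∀ Λ : Finset ℝ, ∃ c : ℝ, 0 < c ∧ c ≤ 1 ∧ ∀ M : ℕ, ∃ m : ℕ, M ≤ m ∧ ∀ l ∈ Λ,
    (∃ n : ℤ, l = n) ∨ ∀ n : ℤ, c ≤ |(2 * m + 1) * l - n|

def St_LOW : Prop :=
  ∀ (d : Dat) (h R κ T : ℝ) (S : Finset ℂ) (D : Set ℂ) (Φ : ℂ → S3) (x0 ε η r0 : ℝ),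
    Sec d h R κ S D Φ → PSol d (strip h) T Φ → strip h ⊆ D → Hyp d Φ →
    |x0| + h + 2 * T + 3 ≤ R → 0 < ε → 0 < η → η ≤ ε / 4 → η ≤ 1 / 4 → 0 < r0 →
    (∀ r : ℝ, 0 < r → r < r0 → Ctx d h R κ S Φ (T + 1) ε η r) →
    ∃ q0 : ℕ, ∀ q : ℕ, q0 ≤ q → ∃ r : ℝ, 0 < r ∧ r < r0 ∧ |q * r - T| ≤ η * r ∧
      ∀ τ : ℂ, |τ.re - x0| < η * r → -(η * r) < τ.im → τ.im < h - 2 * ε * r →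
        Tube h R κ S ε η r τ (2 * q) ∧ SameL Φ ((dbl d Φ η r)^[q] τ) τ

def St_UPA : Prop :=
  ∀ (d : Dat) (h R κ T : ℝ) (S : Finset ℂ) (D : Set ℂ) (Φ : ℂ → S3) (b : ℂ) (σ : S3)
    (ξ : ℂ → ℂ) (ε η ν r δ e : ℝ) (m : ℕ), Sec d h R κ S D Φ →
    Ctx d h R κ S Φ (T + 1) ε η r → σ.1 ≠ σ.2.1 → 0 < η → 0 < r → r ≤ 1 → 2 ≤ m →
    20 * η ≤ ν → ν ≤ 1 / 100 → 0 ≤ e → 100 * e ≤ η * ‖σ.1 - σ.2.1‖ →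
    |(2 * m + 1) * r - T| ≤ η * r →
    (∀ j : ℕ, 1 ≤ j → j ≤ 4 * m + 1 → j ≠ 2 * m + 1 → ∀ z : ℂ,
      ‖z - (b + j * r)‖ ≤ 3 * ν * r → Adk h R κ S z (ε * r)) →
    ball (b + r) (8 * ν * r) ⊆ D → ball (b + (2 * m + 2) * r) (8 * ν * r) ⊆ D →
    Xp D Φ b σ e (5 * r) → Xp D Φ (b + T) σ e (5 * r) → Xp D Φ (b + 2 * T) σ e (5 * r) →
    DifferentiableOn ℂ ξ (ball σ.2.2 δ) → (∀ y ∈ ball σ.2.2 δ, ‖ξ y - σ.1‖ ≤ e) →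
    100 * r * (‖σ.1‖ + ‖σ.2.1‖ + e) < δ →
    (∀ τ ∈ D, ‖τ - (b + T)‖ < 5 * r → fA Φ τ = ξ (fY Φ τ)) →
    ∃ Ψ : ℂ → ℂ, DifferentiableOn ℂ Ψ (ball (σ.2.2 - r * σ.2.1) (‖σ.1 - σ.2.1‖ * ν * r / 2)) ∧
      (∀ c ∈ ball (σ.2.2 - r * σ.2.1) (‖σ.1 - σ.2.1‖ * ν * r / 2),
        ‖Ψ c - c - 2 * r * σ.2.1‖ ≤ 20 * η * r * ‖σ.1 - σ.2.1‖) ∧
      ∀ τ : ℂ, ‖τ - b‖ ≤ ν * r / 4 → Tube h R κ S ε η r τ (2 * (2 * m + 1)) →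
        SameL Φ ((dbl d Φ η r)^[2 * m + 1] τ) τ →
        Ψ (fY Φ τ - r * fB Φ τ) = fY Φ τ + r * fB Φ τ

def St_UPB : Prop :=
  ∀ (d : Dat) (h R κ T : ℝ) (S : Finset ℂ) (D : Set ℂ) (Φ : ℂ → S3) (b : ℂ) (σ : S3),
    Sec d h R κ S D Φ → PSol d (strip h) T Φ → strip h ⊆ D → Hyp d Φ → b.im = h →
    ‖b‖ + h + 2 * T + 3 ≤ R → b ∈ S → b + T ∈ S → b + 2 * T ∈ S →
    Tendsto Φ (𝓝[strip h] b) (𝓝 σ) → OnS d σ → d.px (σ.1, σ.2.2) ≠ 0 → Ext (strip h) Φ b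

/-! Algebra -/

def St_ALG : Prop :=
  ∀ P : MvPolynomial (Fin 2) ℝ, ∃ d : Dat, ∀ x y, d.p (x, y) = ev P x y ∧
    d.px (x, y) = ev (MvPolynomial.pderiv 0 P) x y ∧
    d.py (x, y) = ev (MvPolynomial.pderiv 1 P) x y

def St_MIN : Prop :=
  ∀ (K : Set (ℝ × ℝ)) (P : MvPolynomial (Fin 2) ℝ), IsCompact K → Convex ℝ K →
    (interior K).Nonempty → Alg P (frontier K) → ∃ Q, Irreducible Q ∧ Alg Q (frontier K)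

/-- `d` is the data of `d0.p (x, t x + y)`. -/
def Shear (d0 d : Dat) (t : ℝ) : Prop := ∀ x y, d.p (x, y) = d0.p (x, t * x + y)

def St_GA : Prop :=
  ∀ (Q : MvPolynomial (Fin 2) ℝ) (d0 : Dat), Irreducible Q → (∀ x y, d0.p (x, y) = ev Q x y) →
    {q | d0.p q = 0 ∧ d0.px q = 0 ∧ d0.py q = 0}.Finite ∧
    ∃ N : Set ℝ, N.Finite ∧ ∀ t ∉ N, ∀ d, Shear d0 d t →
      (∃ C : ℝ, 0 ≤ C ∧ ∀ x y, d.p (x, y) = 0 → ‖x‖ ≤ C * (1 + ‖y‖)) ∧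
      (∀ y, {x | d.p (x, y) = 0}.Finite) ∧
      {y | ∃ x, d.p (x, y) = 0 ∧ d.px (x, y) = 0}.Finite ∧
      ∀ a y, d.p (a, y) = 0 → d.px (a, y) = 0 → d.py (a, y) = 0 → ∃ C δ : ℝ, 0 < δ ∧
        ∀ x z, d.p (x, z) = 0 → ‖x - a‖ < δ → ‖z - y‖ < δ → ‖x - a‖ ≤ C * ‖z - y‖

def St_GB : Prop :=
  ∀ d0 : Dat, {q | d0.p q = 0 ∧ d0.px q = 0 ∧ d0.py q = 0}.Finite →
    ∃ N : Set ℝ, N.Countable ∧ ∀ t ∉ N, ∀ d, Shear d0 d t →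
      (∀ a b y, d.p (a, y) = 0 → d.px (a, y) = 0 → d.p (b, y) = 0 → d.px (b, y) = 0 → a = b) ∧
      ∀ a y, d.p (a, y) = 0 → d.px (a, y) = 0 → d.py (a, y) ≠ 0 → d.E (a, a, y) ≠ 0

def St_GT : Prop :=
  ∀ (d d' : Dat) (n k : ℝ), k ≠ 0 → (∀ x y, d'.p (x, y) = d.p (x + n * y, k * y)) →
    Gen d → Gen d'

def St_CORE : Prop :=
  ∀ (d : Dat) (K : Set (ℝ × ℝ)), Gen d → Ov d K → HypK (frontier K) (1, 0) (0, 1) →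
    Ell (frontier K)

def St_MAIN : Prop :=
  ∀ (K : Set (ℝ × ℝ)) (P : MvPolynomial (Fin 2) ℝ) (U : Set ℝ), IsCompact K →
    StrictConvex ℝ K → (interior K).Nonempty → Alg P (frontier K) → ¬U.Countable →
    (∀ t ∈ U, ∃ n : ℝ × ℝ, n.2 - t * n.1 ≠ 0 ∧ HypK (frontier K) (1, t) n) → Ell (frontier K)

end Pool.Agent.AO
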