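import Pool.Agent.Lib.AO.Defs3

set_option autoImplicit false

noncomputable section

namespace Pool.Agent.AO

open Set Metric Filter Topology ComplexConjugate

namespace Two

/-! The texts of `Blue` for two-sided admissibility -/

def St_FAR : Prop :=
  ∀ (d : Dat) (h R κ : ℝ) (S : Finset ℂ) (D : Set ℂ) (Φ : ℂ → S3), Sec d h R κ S D Φ →
    ∃ C : ℝ, 1 ≤ C ∧ ∀ z e, Adm h R κ S z e → ∃ g : ℂ × ℂ → ℂ,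
      DifferentiableOn ℂ g (ball z (e / C) ×ˢ ball 0 (e / C)) ∧
      ∀ τ ∈ ball z (e / C), ∀ r ∈ ball (0 : ℂ) (e / C), Rel d Φ τ (g (τ, r)) r ∧
        (∀ μ ∈ ball z (3 * (e / C)), Rel d Φ τ μ r → μ = g (τ, r)) ∧
        ‖g (τ, r) - τ - r‖ ≤ C * ‖r‖ ^ 2 / e ∧
        ‖g (τ, r) - g (τ, -r) - 2 * r‖ ≤ C * ‖r‖ ^ 3 / e ^ 2

def St_STEP : Prop :=
  ∀ (d : Dat) (h R κ : ℝ) (S : Finset ℂ) (D : Set ℂ) (Φ : ℂ → S3), Sec d h R κ S D Φ →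
    Sec d.flip h R κ S D (flp Φ) → ∃ C : ℝ, 1 ≤ C ∧ ∀ ε η K : ℝ, 0 < ε → 0 < η →
      η ≤ κ * ε / 4 → η ≤ 1 / 4 → 2 * C ≤ η * K → ∃ r0 : ℝ, 0 < r0 ∧ ∀ r : ℝ, 0 < r → r < r0 →
      (∀ τ : ℂ, Adk h R κ S τ (ε * r) → Adk h R κ S (τ + r) (ε * r) →
        Stp d Φ η τ r (η * r / 2) ∧ Stp d.flip (flp Φ) η τ r (η * r / 2)) ∧
      ∀ τ : ℂ, Adk h R κ S τ (ε * r) → Adk h R κ S (τ + r) (ε * r) →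
        Adk h R κ S (th d Φ η (τ, r)) (ε * r) → Adk h R κ S (th d Φ η (τ, r) + r) (ε * r) →
        ‖dbl d Φ η r τ - τ - 2 * r‖ ≤
          C * r ^ 3 * (1 + ∑ b ∈ S, 1 / max (K * r) ‖th d Φ η (τ, r) - b‖ ^ 2)

def St_CTX : Prop :=
  ∀ (d : Dat) (h R κ : ℝ) (S : Finset ℂ) (D : Set ℂ) (Φ : ℂ → S3), Sec d h R κ S D Φ →
    ∀ L ε η : ℝ, 0 < ε → 0 < η → η ≤ κ * ε / 4 → η ≤ 1 / 4 →
      ∃ r0 : ℝ, 0 < r0 ∧ ∀ r : ℝ, 0 < r → r < r0 → Ctx d h R κ S Φ L ε η r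

def St_UPA : Prop :=
  ∀ (d : Dat) (h R κ T : ℝ) (S : Finset ℂ) (D : Set ℂ) (Φ : ℂ → S3) (b : ℂ) (σ : S3)
    (ξ : ℂ → ℂ) (ε η ν r δ e : ℝ) (m : ℕ), Sec d h R κ S D Φ →
    Ctx d h R κ S Φ (T + 1) ε η r → σ.1 ≠ σ.2.1 → 0 < η → 0 < r → r ≤ 1 → 2 ≤ m →
    20 * η ≤ ν → ν ≤ 1 / 100 → 0 ≤ e → 100 * e ≤ η * ‖σ.1 - σ.2.1‖ →
    |(2 * m + 1) * r - T| ≤ η * r →
    (∀ j : ℕ, 1 ≤ j → j ≤ 4 * m + 1 → j ≠ 2 * m + 1 → ∀ z : ℂ,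
      ‖z - (b + j * r)‖ ≤ 3 * ν * r → Adk h R κ S z (ε * r)) →
    ball (b + r) (8 * ν * r) ⊆ D → ball (b + (2 * m + 2) * r) (8 * ν * r) ⊆ D →
    Xp D Φ b σ e (5 * r) → Xp D Φ (b + T) σ e (5 * r) → Xp D Φ (b + 2 * T) σ e (5 * r) →
    DifferentiableOn ℂ ξ (ball σ.2.2 δ) → (∀ y ∈ ball σ.2.2 δ, ‖ξ y - σ.1‖ ≤ e) →
    100 * r * (‖σ.1‖ + ‖σ.2.1‖ + e) < δ →
    (∀ τ ∈ D, ‖τ - (b + T)‖ < 5 * r → fA Φ τ = ξ (fY Φ τ)) →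
    ∃ Ψ : ℂ → ℂ, DifferentiableOn ℂ Ψ (ball (σ.2.2 - r * σ.2.1) (‖σ.1 - σ.2.1‖ * ν * r / 2)) ∧
      (∀ c ∈ ball (σ.2.2 - r * σ.2.1) (‖σ.1 - σ.2.1‖ * ν * r / 2),
        ‖Ψ c - c - 2 * r * σ.2.1‖ ≤ 20 * η * r * ‖σ.1 - σ.2.1‖) ∧
      ∀ τ : ℂ, ‖τ - b‖ ≤ ν * r / 4 → Tube h R κ S ε η r τ (2 * (2 * m + 1)) →
        SameL Φ ((dbl d Φ η r)^[2 * m + 1] τ) τ →
        Ψ (fY Φ τ - r * fB Φ τ) = fY Φ τ + r * fB Φ τ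

end Two

/-! The strip rows for chains with short steps -/

def St_LOW2 : Prop :=
  ∀ (d : Dat) (h R κ T : ℝ) (S : Finset ℂ) (D : Set ℂ) (Φ : ℂ → S3) (x0 ε η r0 : ℝ),
    Sec d h R κ S D Φ → PSol d (strip h) T Φ → strip h ⊆ D → Hyp2 d Φ →
    |x0| + h + 2 * T + 3 ≤ R → 0 < ε → 0 < η → η ≤ ε / 4 → η ≤ 1 / 4 → 0 < r0 →
    (∀ r : ℝ, 0 < r → r < r0 → Ctx d h R κ S Φ (T + 1) ε η r) →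
    ∃ q0 : ℕ, ∀ q : ℕ, q0 ≤ q → ∃ r : ℝ, 0 < r ∧ r < r0 ∧ |q * r - T| ≤ η * r ∧
      ∀ τ : ℂ, |τ.re - x0| < η * r → -(η * r) < τ.im → τ.im < h - 2 * ε * r →
        Tube h R κ S ε η r τ (2 * q) ∧ SameL Φ ((dbl d Φ η r)^[q] τ) τ

def St_UPB2 : Prop :=
  ∀ (d : Dat) (h R κ T : ℝ) (S : Finset ℂ) (D : Set ℂ) (Φ : ℂ → S3) (b : ℂ) (σ : S3),
    Sec d h R κ S D Φ → PSol d (strip h) T Φ → strip h ⊆ D → Hyp2 d Φ → b.im = h →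
    ‖b‖ + h + 2 * T + 3 ≤ R → b ∈ S → b + T ∈ S → b + 2 * T ∈ S →
    Tendsto Φ (𝓝[strip h] b) (𝓝 σ) → OnS d σ → d.px (σ.1, σ.2.2) ≠ 0 → Ext (strip h) Φ b

/-! Real geometry and the real flow -/

def St_GEO : Prop :=
  ∀ K : Set (ℝ × ℝ), IsCompact K → StrictConvex ℝ K → (interior K).Nonempty →
    ∃ (lo hi : ℝ) (a β : ℝ → ℝ), Geo K lo hi a β

def St_TOP : Prop :=
  ∀ (d : Dat) (K : Set (ℝ × ℝ)) (lo hi : ℝ) (a β : ℝ → ℝ), Gen d → OvZ d K → Geo K lo hi a β →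
    HypK (frontier K) (1, 0) (0, 1) →
    (d.px (a hi, hi) = 0 ∧ d.py (a hi, hi) ≠ 0) ∧ d.px (a lo, lo) = 0 ∧ d.py (a lo, lo) ≠ 0

/-- Local solutions through real states with nonsingular ends stay on the curve. -/
def St_RLOC : Prop :=
  ∀ (d : Dat) (K : Set (ℝ × ℝ)) (x x' y : ℝ), OvZ d K → (x, y) ∈ frontier K →
    (x', y) ∈ frontier K → (d.px (x, y) ≠ 0 ∨ d.py (x, y) ≠ 0) →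
    (d.px (x', y) ≠ 0 ∨ d.py (x', y) ≠ 0) → Reg d (x, x', y) → d.D (x, x', y) = 0 →
    ∃ ρ : ℝ, 0 < ρ ∧ ∃ Ψ, Sol d (ball 0 ρ) Ψ ∧ Ψ 0 = ((x : ℂ), (x' : ℂ), (y : ℂ)) ∧
      ∀ t : ℝ, |t| < ρ → cj (Ψ t) = Ψ t ∧ ((fA Ψ t).re, (fY Ψ t).re) ∈ frontier K ∧
        ((fB Ψ t).re, (fY Ψ t).re) ∈ frontier K

def St_RF : Prop :=
  ∀ (d : Dat) (K : Set (ℝ × ℝ)) (lo hi : ℝ) (a β : ℝ → ℝ), Gen d → OvZ d K → Geo K lo hi a β →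
    d.px (a hi, hi) = 0 → d.py (a hi, hi) ≠ 0 → d.px (a lo, lo) = 0 → d.py (a lo, lo) ≠ 0 →
    ∃ (T : ℝ) (Φ : ℂ → S3), RF d T Φ ∧ RealP (frontier K) Φ

def St_LINK2 : Prop :=
  ∀ (d : Dat) (K : Set (ℝ × ℝ)) (T : ℝ) (Φ : ℂ → S3), OvZ d K → RF d T Φ →
    RealP (frontier K) Φ → HypK (frontier K) (1, 0) (0, 1) → Hyp2 d Φ

/-- Gluing of discs centred on the real axis. -/
def St_RGL : Prop :=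
  ∀ (I : Set ℝ) (Φ : ℂ → S3) (ρ : ℝ → ℝ) (Ψ : ℝ → ℂ → S3),
    (∀ c ∈ I, DifferentiableOn ℂ (Ψ c) (ball (c : ℂ) (ρ c)) ∧
      ∀ t : ℝ, |t - c| < ρ c → Ψ c t = Φ t) →
    ∃ Ω : ℂ → S3, (∀ c ∈ I, EqOn Ω (Ψ c) (ball (c : ℂ) (ρ c))) ∧ ∀ t : ℝ, Ω t = Φ t

def St_RSEC : Prop :=
  ∀ (d : Dat) (T R : ℝ) (Φ : ℂ → S3), Gen d → RF d T Φ →
    ∃ (κ : ℝ) (S : Finset ℂ) (D : Set ℂ) (Ψ : ℂ → S3), Two.Sec d 0 R κ S D Ψ ∧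
      (∀ t : ℝ, Ψ t = Φ t) ∧ (∀ τ ∈ D, conj τ ∈ D ∧ Ψ (conj τ) = cj (Ψ τ)) ∧
      ∀ b : ℝ, |b| ≤ R → ¬Good d Φ b → (b : ℂ) ∈ S

/-- A closed orbit of the prescribed length, and then all real orbits of that length close. -/
def St_LOWR : Prop :=
  ∀ (d : Dat) (R κ T : ℝ) (S : Finset ℂ) (D : Set ℂ) (Φ : ℂ → S3) (x0 s ε η r0 : ℝ),
    Two.Sec d 0 R κ S D Φ → RF d T Φ → (∀ τ ∈ D, conj τ ∈ D ∧ Φ (conj τ) = cj (Φ τ)) →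
    Hyp2 d Φ → 0 < ε → 0 < η → η ≤ κ * ε / 4 → η ≤ 1 / 4 → 0 < r0 →
    (∀ r : ℝ, 0 < r → r < r0 → Two.Ctx d 0 R κ S Φ (T + 1) ε η r) →
    ∃ q0 : ℕ, ∀ q : ℕ, q0 ≤ q →
      (∀ r : ℝ, 0 < r → r < r0 → |q * r - T| ≤ η * r →
        Two.Tube 0 R κ S ε η r ((x0 + s * r : ℝ) : ℂ) (2 * q)) →
      ∃ r : ℝ, 0 < r ∧ r < r0 ∧ |q * r - T| ≤ η * r ∧ ∀ t : ℝ,
        Two.Tube 0 R κ S ε η r t (2 * q) → SameL Φ ((dbl d Φ η r)^[q] t) t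

/-- Both ends are analytic functions of the height on both sides of `b`. -/
def St_CLR : Prop :=
  ∀ (d : Dat) (T : ℝ) (Φ : ℂ → S3) (b ρ s γ : ℝ) (ξ ζ : ℂ → ℂ), RF d T Φ → 0 < s → s < ρ →
    (∀ t : ℝ, |t - b| < ρ → t ≠ b → Good d Φ t) →
    DifferentiableOn ℂ ξ (ball (fY Φ b) γ) → DifferentiableOn ℂ ζ (ball (fY Φ b) γ) →
    (∀ t : ℝ, |t - b| < ρ → fY Φ t ∈ ball (fY Φ b) γ ∧ fA Φ t = ξ (fY Φ t)) →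
    (∀ t : ℝ, s ≤ |t - b| → |t - b| < ρ → fB Φ t = ζ (fY Φ t)) → Good d Φ b

def St_UPR : Prop :=
  ∀ (d : Dat) (R κ T : ℝ) (S : Finset ℂ) (D : Set ℂ) (Φ : ℂ → S3) (b : ℝ),
    Two.Sec d 0 R κ S D Φ → RF d T Φ → (∀ τ ∈ D, conj τ ∈ D ∧ Φ (conj τ) = cj (Φ τ)) →
    Hyp2 d Φ → |b| + 2 * T + 3 ≤ R → (b : ℂ) ∈ S → (b : ℂ) + T ∈ S → (b : ℂ) + 2 * T ∈ S →
    d.px (fA Φ b, fY Φ b) ≠ 0 → Good d Φ b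

def St_PS : Prop :=
  ∀ (d : Dat) (T : ℝ) (Φ : ℂ → S3), RF d T Φ → (∀ c : ℝ, Good d Φ c) →
    ∃ (h0 : ℝ) (Ψ : ℂ → S3), 0 < h0 ∧ PSol d (strip h0) T Ψ ∧ ∀ t : ℝ, Ψ t = Φ t

/-! Algebra and assembly -/

def St_SQF : Prop :=
  ∀ (C : Set (ℝ × ℝ)) (P : MvPolynomial (Fin 2) ℝ), P ≠ 0 →
    (∀ x ∈ C, MvPolynomial.eval ![x.1, x.2] P = 0) →
    ∃ Q : MvPolynomial (Fin 2) ℝ, Squarefree Q ∧ ∀ x ∈ C, MvPolynomial.eval ![x.1, x.2] Q = 0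

def St_GA2 : Prop :=
  ∀ (Q : MvPolynomial (Fin 2) ℝ) (d0 : Dat), Squarefree Q → (∀ x y, d0.p (x, y) = ev Q x y) →
    {q | d0.p q = 0 ∧ d0.px q = 0 ∧ d0.py q = 0}.Finite ∧
    ∃ N : Set ℝ, N.Finite ∧ ∀ t ∉ N, ∀ d, Shear d0 d t →
      (∃ C : ℝ, 0 ≤ C ∧ ∀ x y, d.p (x, y) = 0 → ‖x‖ ≤ C * (1 + ‖y‖)) ∧
      (∀ y, {x | d.p (x, y) = 0}.Finite) ∧
      {y | ∃ x, d.p (x, y) = 0 ∧ d.px (x, y) = 0}.Finite ∧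
      ∀ a y, d.p (a, y) = 0 → d.px (a, y) = 0 → d.py (a, y) = 0 → ∃ C δ : ℝ, 0 < δ ∧
        ∀ x z, d.p (x, z) = 0 → ‖x - a‖ < δ → ‖z - y‖ < δ → ‖x - a‖ ≤ C * ‖z - y‖

def St_CORE2 : Prop :=
  ∀ (d : Dat) (K : Set (ℝ × ℝ)), Gen d → OvZ d K → HypK (frontier K) (1, 0) (0, 1) →
    Ell (frontier K)

def St_MAIN2 : Prop :=
  ∀ (K : Set (ℝ × ℝ)) (P : MvPolynomial (Fin 2) ℝ) (U : Set ℝ), IsCompact K →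
    StrictConvex ℝ K → (interior K).Nonempty → P ≠ 0 →
    (∀ x ∈ frontier K, MvPolynomial.eval ![x.1, x.2] P = 0) → U.Infinite →
    (∀ t ∈ U, ∃ n : ℝ × ℝ, n.2 - t * n.1 ≠ 0 ∧ HypK (frontier K) (1, t) n) → Ell (frontier K)

end Pool.Agent.AO
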