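import Mathlib

set_option autoImplicit false

noncomputable section

namespace Pool.Agent.AO

open Set Metric Filter Topology ComplexConjugate

abbrev S3 := ℂ × ℂ × ℂ

/-- A polynomial `p (x, y)` with its first derivatives and divided differences. -/
structure Dat where
  p : ℂ × ℂ → ℂ
  px : ℂ × ℂ → ℂ
  py : ℂ × ℂ → ℂ
  D : S3 → ℂ
  E : S3 → ℂ
  Dy : S3 → ℂ
  J : S3 → ℂ
  cp : ContDiff ℂ 1 p
  cpx : ContDiff ℂ 1 px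
  cpy : ContDiff ℂ 1 py
  cD : ContDiff ℂ 1 D
  cE : ContDiff ℂ 1 E
  cJ : ContDiff ℂ 1 J
  fp : ∀ q, HasFDerivAt p
    (px q • ContinuousLinearMap.fst ℂ ℂ ℂ + py q • ContinuousLinearMap.snd ℂ ℂ ℂ) q
  dD : ∀ (A B Y : ℂ → ℂ) (A' B' Y' t : ℂ), HasDerivAt A A' t → HasDerivAt B B' t →
    HasDerivAt Y Y' t → HasDerivAt (fun s => D (A s, B s, Y s))
      (E (A t, B t, Y t) * A' + E (B t, A t, Y t) * B' + Dy (A t, B t, Y t) * Y') t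
  hD : ∀ a b y, p (a, y) - p (b, y) = (a - b) * D (a, b, y)
  hJ : ∀ a y z, p (a, y) - p (a, z) = (y - z) * J (a, y, z)
  Dd : ∀ a y, D (a, a, y) = px (a, y)
  Jd : ∀ a y, J (a, y, y) = py (a, y)
  Ds : ∀ a b y, D (a, b, y) = D (b, a, y)
  hE : ∀ a b y, px (a, y) = D (a, b, y) + (a - b) * E (a, b, y)
  hDy : ∀ a b y, py (a, y) - py (b, y) = (a - b) * Dy (a, b, y)
  jp : ∀ a y, p (conj a, conj y) = conj (p (a, y))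
  jpx : ∀ a y, px (conj a, conj y) = conj (px (a, y))
  jpy : ∀ a y, py (conj a, conj y) = conj (py (a, y))
  jD : ∀ a b y, D (conj a, conj b, conj y) = conj (D (a, b, y))
  jE : ∀ a b y, E (conj a, conj b, conj y) = conj (E (a, b, y))

theorem Dat.dp (d : Dat) {X Y : ℂ → ℂ} {X' Y' t : ℂ} (hX : HasDerivAt X X' t)
    (hY : HasDerivAt Y Y' t) : HasDerivAt (fun s => d.p (X s, Y s))
      (d.px (X t, Y t) * X' + d.py (X t, Y t) * Y') t := by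
  have := (d.fp (X t, Y t)).comp_hasDerivAt t (hX.prodMk hY)
  simpa [Function.comp_def] using this

/-- The data of `p (-x, y)`. -/
def Dat.flip (d : Dat) : Dat where
  p q := d.p (-q.1, q.2)
  px q := -d.px (-q.1, q.2)
  py q := d.py (-q.1, q.2)
  D σ := -d.D (-σ.1, -σ.2.1, σ.2.2)
  E σ := d.E (-σ.1, -σ.2.1, σ.2.2)
  Dy σ := -d.Dy (-σ.1, -σ.2.1, σ.2.2)
  J σ := d.J (-σ.1, σ.2.1, σ.2.2)
  cp := d.cp.comp (by fun_prop)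
  cpx := (d.cpx.comp (by fun_prop)).neg
  cpy := d.cpy.comp (by fun_prop)
  cD := (d.cD.comp (by fun_prop)).neg
  cE := d.cE.comp (by fun_prop)
  cJ := d.cJ.comp (by fun_prop)
  fp q := by
    have h := (d.fp (-q.1, q.2)).comp q
      ((hasFDerivAt_fst (𝕜 := ℂ) (p := q)).neg.prodMk (hasFDerivAt_snd (𝕜 := ℂ) (p := q)))
    refine h.congr_fderiv ?_
    ext <;> simp
  dD A B Y A' B' Y' t hA hB hY := by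
    refine (d.dD _ _ _ _ _ _ t hA.neg hB.neg hY).neg.congr_deriv ?_
    simp only [Pi.neg_apply]
    ring
  hD a b y := by rw [d.hD]; ring
  hJ a y z := d.hJ _ _ _
  Dd a y := by simp only [d.Dd]
  Jd a y := d.Jd _ _
  Ds a b y := by simp only [d.Ds (-a) (-b) y]
  hE a b y := by simp only []; rw [d.hE (-a) (-b) y]; ring
  hDy a b y := by rw [d.hDy]; ring
  jp a y := by simp only [← map_neg, d.jp]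
  jpx a y := by simp only [← map_neg, d.jpx]
  jpy a y := by simp only [← map_neg, d.jpy]
  jD a b y := by simp only [← map_neg, d.jD]
  jE a b y := by simp only [← map_neg, d.jE]

/-- General position of the horizontal direction. -/
structure Gen (d : Dat) : Prop where
  g1 : ∃ C : ℝ, 0 ≤ C ∧ ∀ x y, d.p (x, y) = 0 → ‖x‖ ≤ C * (1 + ‖y‖)
  fin : ∀ y, {x | d.p (x, y) = 0}.Finite
  g2 : {y | ∃ x, d.p (x, y) = 0 ∧ d.px (x, y) = 0}.Finite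
  g3 : ∀ a b y, d.p (a, y) = 0 → d.px (a, y) = 0 → d.p (b, y) = 0 → d.px (b, y) = 0 → a = b
  g4 : ∀ a y, d.p (a, y) = 0 → d.px (a, y) = 0 → d.py (a, y) ≠ 0 → d.E (a, a, y) ≠ 0
  g5 : ∀ a y, d.p (a, y) = 0 → d.px (a, y) = 0 → d.py (a, y) = 0 → ∃ C δ : ℝ, 0 < δ ∧
    ∀ x z, d.p (x, z) = 0 → ‖x - a‖ < δ → ‖z - y‖ < δ → ‖x - a‖ ≤ C * ‖z - y‖

def fA (Φ : ℂ → S3) (τ : ℂ) : ℂ := (Φ τ).1
def fB (Φ : ℂ → S3) (τ : ℂ) : ℂ := (Φ τ).2.1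
def fY (Φ : ℂ → S3) (τ : ℂ) : ℂ := (Φ τ).2.2
def sw (σ : S3) : S3 := (σ.2.1, σ.1, σ.2.2)
def cj (σ : S3) : S3 := (conj σ.1, conj σ.2.1, conj σ.2.2)
def flp (Φ : ℂ → S3) (τ : ℂ) : S3 := (-(Φ τ).2.1, -(Φ τ).1, (Φ τ).2.2)

structure Sol (d : Dat) (U : Set ℂ) (Φ : ℂ → S3) : Prop where
  op : IsOpen U
  df : DifferentiableOn ℂ Φ U
  pA : ∀ τ ∈ U, d.p (fA Φ τ, fY Φ τ) = 0
  pB : ∀ τ ∈ U, d.p (fB Φ τ, fY Φ τ) = 0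
  pD : ∀ τ ∈ U, d.D (Φ τ) = 0
  dY : ∀ τ ∈ U, HasDerivAt (fY Φ) (fA Φ τ - fB Φ τ) τ
  dA : ∀ τ ∈ U, d.E (Φ τ) * deriv (fA Φ) τ = -d.py (fA Φ τ, fY Φ τ)
  dB : ∀ τ ∈ U, d.E (sw (Φ τ)) * deriv (fB Φ) τ = d.py (fB Φ τ, fY Φ τ)

def Reg (d : Dat) (σ : S3) : Prop := d.E σ ≠ 0 ∧ d.E (sw σ) ≠ 0
def OnS (d : Dat) (σ : S3) : Prop :=
  d.p (σ.1, σ.2.2) = 0 ∧ d.p (σ.2.1, σ.2.2) = 0 ∧ d.D σ = 0
def Ext (U : Set ℂ) (Φ : ℂ → S3) (b : ℂ) : Prop :=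
  ∃ ρ : ℝ, 0 < ρ ∧ ∃ Ψ : ℂ → S3, DifferentiableOn ℂ Ψ (ball b ρ) ∧ EqOn Ψ Φ (ball b ρ ∩ U)
def NZ (U : Set ℂ) (Φ : ℂ → S3) : Prop := ∃ τ ∈ U, fA Φ τ ≠ fB Φ τ
def strip (h : ℝ) : Set ℂ := {τ | |τ.im| < h}

/-- The periodic solution, on a strip or on the whole plane. -/
structure PSol (d : Dat) (U : Set ℂ) (T : ℝ) (Φ : ℂ → S3) : Prop where
  sol : Sol d U Φ
  Tp : 0 < T
  per : ∀ τ ∈ U, Φ (τ + T) = Φ τ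
  neg : ∀ τ ∈ U, Φ (-τ) = sw (Φ τ)
  cnj : ∀ τ ∈ U, Φ (conj τ) = cj (Φ τ)
  zer : ∀ t : ℝ, fA Φ t = fB Φ t ↔ ∃ k : ℤ, t = k * (T / 2)

def RealP (C : Set (ℝ × ℝ)) (Φ : ℂ → S3) : Prop :=
  (∀ t : ℝ, ((fA Φ t).re, (fY Φ t).re) ∈ C ∧ ((fB Φ t).re, (fY Φ t).re) ∈ C) ∧
    ∀ q ∈ C, ∃ t : ℝ, q = ((fA Φ t).re, (fY Φ t).re)

def Ell (C : Set (ℝ × ℝ)) : Prop :=
  ∃ A : (ℝ × ℝ) ≃ᵃ[ℝ] (ℝ × ℝ), C = A '' {p : ℝ × ℝ | p.1 ^ 2 + p.2 ^ 2 = 1}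

def rc (q : ℝ × ℝ) : ℂ × ℂ := ((q.1 : ℂ), (q.2 : ℂ))

def Ov (d : Dat) (K : Set (ℝ × ℝ)) : Prop :=
  IsCompact K ∧ StrictConvex ℝ K ∧ (interior K).Nonempty ∧
    ∀ q ∈ frontier K, d.p (rc q) = 0 ∧ (d.px (rc q) ≠ 0 ∨ d.py (rc q) ≠ 0)

/-- The convex geometry used later. -/
structure CV (d : Dat) (K : Set (ℝ × ℝ)) : Prop where
  ov : Ov d K
  tr : ∀ q ∈ frontier K, ∀ v : ℝ × ℝ, v ≠ 0 → q + v ∈ K →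
    d.px (rc q) * v.1 + d.py (rc q) * v.2 ≠ 0
  op : ∀ q ∈ frontier K, ∀ᶠ q' in 𝓝 q, d.p (rc q') = 0 → q' ∈ frontier K
  two : ∀ q ∈ frontier K, ∀ (v : ℝ × ℝ) (s t : ℝ), v ≠ 0 → s ≠ 0 → t ≠ 0 →
    q + s • v ∈ frontier K → q + t • v ∈ frontier K → s = t
  top : ∃ q ∈ frontier K, (∀ q' ∈ K, q'.2 ≤ q.2) ∧ d.px (rc q) = 0
  ex : ∀ q ∈ frontier K, d.px (rc q) = 0 → (∀ q' ∈ K, q'.2 ≤ q.2) ∨ ∀ q' ∈ K, q.2 ≤ q'.2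

def Chd (C : Set (ℝ × ℝ)) (u : ℝ × ℝ) (σ : C → C) : Prop :=
  ∀ x : C, (∃ t : ℝ, (σ x : ℝ × ℝ) = x + t • u) ∧
    (σ x = x → ∀ t : ℝ, (x : ℝ × ℝ) + t • u ∈ C → t = 0)

def HypK (C : Set (ℝ × ℝ)) (u n : ℝ × ℝ) : Prop :=
  ∃ δ : ℝ, 0 < δ ∧ ∀ s : ℝ, 0 < s → s < δ → ∀ σ₁ σ₂ : C → C, Chd C (u + s • n) σ₁ →
    Chd C (u - s • n) σ₂ → ∀ (q : ℕ) (x : C), (σ₂ ∘ σ₁)^[q] x = x → ∀ y, (σ₂ ∘ σ₁)^[q] y = y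

/-- Chord of slope `r` from the left end at time `τ` to the right end at time `μ`. -/
def Rel (d : Dat) (Φ : ℂ → S3) (τ μ r : ℂ) : Prop :=
  fY Φ μ - fY Φ τ = r * (fA Φ μ - fB Φ τ) ∧
    (fA Φ μ = fB Φ τ → d.px (fB Φ τ, fY Φ τ) + r * d.py (fB Φ τ, fY Φ τ) = 0)

theorem rel_flip (d : Dat) (Φ : ℂ → S3) (τ μ r : ℂ) :
    Rel d.flip (flp Φ) μ τ r ↔ Rel d Φ τ μ (-r) := by
  simp only [Rel, Dat.flip, fA, fB, fY, flp, neg_neg, neg_inj]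
  constructor
  · rintro ⟨h1, h2⟩
    refine ⟨by linear_combination -h1, fun e => ?_⟩
    have e2 : (Φ μ).2.2 = (Φ τ).2.2 := by linear_combination -h1 - r * e
    have := h2 e.symm
    rw [e, e2] at this
    linear_combination -this
  · rintro ⟨h1, h2⟩
    refine ⟨by linear_combination -h1, fun e => ?_⟩
    have e2 : (Φ μ).2.2 = (Φ τ).2.2 := by linear_combination h1 + r * e
    have := h2 e.symm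
    rw [← e, e2]
    linear_combination -this

def SameL (Φ : ℂ → S3) (τ τ' : ℂ) : Prop := fB Φ τ = fB Φ τ' ∧ fY Φ τ = fY Φ τ'

def Chain (d : Dat) (Φ : ℂ → S3) (r : ℝ) (q : ℕ) (t t' : ℝ) : Prop :=
  ∃ τ μ : ℕ → ℝ, τ 0 = t ∧ τ q = t' ∧
    ∀ k < q, Rel d Φ (τ k) (μ k) r ∧ Rel d Φ (τ (k + 1)) (μ k) (-r)

def Hyp (d : Dat) (Φ : ℂ → S3) : Prop :=
  ∃ δ : ℝ, 0 < δ ∧ ∀ r : ℝ, 0 < r → r < δ → ∀ q : ℕ,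
    (∃ t t' : ℝ, Chain d Φ r q t t' ∧ SameL Φ t' t) →
      ∀ t t' : ℝ, Chain d Φ r q t t' → SameL Φ t' t

def Adm (h R κ : ℝ) (S : Finset ℂ) (z : ℂ) (e : ℝ) : Prop :=
  ‖z‖ ≤ R ∧ -h / 2 ≤ z.im ∧ z.im ≤ h + κ * e ∧ 0 < e ∧ e ≤ 1 ∧ ∀ b ∈ S, e ≤ ‖z - b‖

/-- Admissible at some scale at least `a`. -/
def Adk (h R κ : ℝ) (S : Finset ℂ) (z : ℂ) (a : ℝ) : Prop :=
  0 < a ∧ ∃ e, a ≤ e ∧ Adm h R κ S z e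

/-- Expansion at `b` with error `ε` on the part of `D` within `δ`. -/
def Xp (D : Set ℂ) (Φ : ℂ → S3) (b : ℂ) (σ : S3) (ε δ : ℝ) : Prop :=
  ∀ τ ∈ D, ‖τ - b‖ < δ → ‖fA Φ τ - σ.1‖ ≤ ε ∧ ‖fB Φ τ - σ.2.1‖ ≤ ε ∧
    ‖fY Φ τ - σ.2.2 - (σ.1 - σ.2.1) * (τ - b)‖ ≤ ε * ‖τ - b‖

structure Sec (d : Dat) (h R κ : ℝ) (S : Finset ℂ) (D : Set ℂ) (Φ : ℂ → S3) : Prop where
  sol : Sol d D Φ
  hp : 0 < h
  kp : 0 < κ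
  k1 : κ ≤ 1
  im : ∀ b ∈ S, |b.im| = h
  adm : ∀ z e, Adm h R κ S z e → ball z (κ * e) ⊆ D
  xp : ∀ b ∈ S, ∃ σ : S3, σ.1 ≠ σ.2.1 ∧ ∀ ε : ℝ, 0 < ε → ∃ δ : ℝ, 0 < δ ∧ Xp D Φ b σ ε δ
  diag : ∀ τ ∈ D, fA Φ τ = fB Φ τ → Reg d (Φ τ) ∧ d.py (fA Φ τ, fY Φ τ) ≠ 0

open Classical in
/-- The half step from time `p.1` with slope `p.2`. -/
def th (d : Dat) (Φ : ℂ → S3) (η : ℝ) (p : ℂ × ℂ) : ℂ :=
  if h : ∃ μ ∈ ball (p.1 + p.2) (η * ‖p.2‖), Rel d Φ p.1 μ p.2 then h.choose else 0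

def dbl (d : Dat) (Φ : ℂ → S3) (η : ℝ) (r τ : ℂ) : ℂ :=
  th d.flip (flp Φ) η (th d Φ η (τ, r), r)

structure Stp (d : Dat) (Φ : ℂ → S3) (η : ℝ) (τ : ℂ) (r a : ℝ) : Prop where
  rel : Rel d Φ τ (th d Φ η (τ, r)) r
  uni : ∀ μ ∈ ball (τ + r) (η * r), Rel d Φ τ μ r → μ = th d Φ η (τ, r)
  dif : DifferentiableAt ℂ (th d Φ η) (τ, r)
  est : ‖th d Φ η (τ, r) - τ - r‖ ≤ a

/-- All points near `τ + j r`, `j ≤ n`, are admissible. -/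
def Tube (h R κ : ℝ) (S : Finset ℂ) (ε η r : ℝ) (τ : ℂ) (n : ℕ) : Prop :=
  ∀ j ≤ n, ∀ z : ℂ, ‖z - (τ + j * r)‖ ≤ 2 * η * r → Adk h R κ S z (ε * r)

/-- Everything at step size `r`, for orbits of length at most `L`. -/
structure Ctx (d : Dat) (h R κ : ℝ) (S : Finset ℂ) (Φ : ℂ → S3) (L ε η r : ℝ) : Prop where
  one : ∀ τ : ℂ, Adk h R κ S τ (ε * r) → Adk h R κ S (τ + r) (ε * r) →
    Stp d Φ η τ r (η * r / 2) ∧ Stp d.flip (flp Φ) η τ r (η * r / 2)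
  orb : ∀ (τ : ℂ) (m : ℕ), m * r ≤ L → Tube h R κ S ε η r τ (2 * m) → ∀ k ≤ m,
    ‖(dbl d Φ η r)^[k] τ - (τ + 2 * k * r)‖ ≤ η * r
  dif : ∀ (τ : ℂ) (m : ℕ), m * r ≤ L → Tube h R κ S ε η r τ (2 * m) →
    DifferentiableAt ℂ (fun p : ℂ × ℂ => (dbl d Φ η p.2)^[m] p.1) (τ, r)

/-- Value of a real polynomial at a complex point. -/
def ev (P : MvPolynomial (Fin 2) ℝ) (x y : ℂ) : ℂ := MvPolynomial.aeval ![x, y] P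

def Alg (P : MvPolynomial (Fin 2) ℝ) (C : Set (ℝ × ℝ)) : Prop :=
  ∀ x ∈ C, MvPolynomial.eval ![x.1, x.2] P = 0 ∧
    ∃ i, MvPolynomial.eval ![x.1, x.2] (MvPolynomial.pderiv i P) ≠ 0

end Pool.Agent.AO
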