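import Pool.Agent.Lib.AO.Blue2

set_option autoImplicit false

noncomputable section

namespace Pool.Agent.AO

open Set Metric Filter Topology ComplexConjugate

/-- The boundary lies in the zero set; nothing on the gradient. -/
def OvZ (d : Dat) (K : Set (ℝ × ℝ)) : Prop :=
  IsCompact K ∧ StrictConvex ℝ K ∧ (interior K).Nonempty ∧ ∀ q ∈ frontier K, d.p (rc q) = 0

/-- Right and left end of the horizontal chords. -/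
structure Geo (K : Set (ℝ × ℝ)) (lo hi : ℝ) (a β : ℝ → ℝ) : Prop where
  lt : lo < hi
  ca : ContinuousOn a (Icc lo hi)
  cb : ContinuousOn β (Icc lo hi)
  ma : ∀ y ∈ Icc lo hi, (a y, y) ∈ frontier K
  mb : ∀ y ∈ Icc lo hi, (β y, y) ∈ frontier K
  ne : ∀ y ∈ Ioo lo hi, β y < a y
  e1 : β lo = a lo
  e2 : β hi = a hi
  mem : ∀ q ∈ K, q.2 ∈ Icc lo hi ∧ β q.2 ≤ q.1 ∧ q.1 ≤ a q.2
  fr : ∀ q ∈ frontier K, q.1 = a q.2 ∨ q.1 = β q.2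

/-- The real flow is the trace of a complex solution near the real time `c`. -/
def Good (d : Dat) (Φ : ℂ → S3) (c : ℝ) : Prop :=
  ∃ ρ : ℝ, 0 < ρ ∧ ∃ Ψ, Sol d (ball (c : ℂ) ρ) Ψ ∧ ∀ t : ℝ, |t - c| < ρ → Ψ t = Φ t

/-- The real flow; only real times matter. -/
structure RF (d : Dat) (T : ℝ) (Φ : ℂ → S3) : Prop where
  Tp : 0 < T
  per : ∀ t : ℝ, Φ (t + T) = Φ t
  neg : ∀ t : ℝ, Φ (-t) = sw (Φ t)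
  re : ∀ t : ℝ, cj (Φ t) = Φ t
  zer : ∀ t : ℝ, fA Φ t = fB Φ t ↔ ∃ k : ℤ, t = k * (T / 2)
  ct : Continuous fun t : ℝ => Φ t
  ons : ∀ t : ℝ, OnS d (Φ t)
  dY : ∀ t : ℝ, HasDerivAt (fun s : ℝ => fY Φ s) (fA Φ t - fB Φ t) t
  fin : ∀ R : ℝ, {c : ℝ | |c| ≤ R ∧ ¬Good d Φ c}.Finite
  dg : ∀ t : ℝ, fA Φ t = fB Φ t → Good d Φ t ∧ d.py (fA Φ t, fY Φ t) ≠ 0

/-- Chains with short steps. -/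
def Chain2 (d : Dat) (Φ : ℂ → S3) (r : ℝ) (q : ℕ) (t t' : ℝ) : Prop :=
  ∃ τ μ : ℕ → ℝ, τ 0 = t ∧ τ q = t' ∧ ∀ k < q, Rel d Φ (τ k) (μ k) r ∧
    Rel d Φ (τ (k + 1)) (μ k) (-r) ∧ |μ k - τ k| ≤ 2 * r ∧ |τ (k + 1) - μ k| ≤ 2 * r

def Hyp2 (d : Dat) (Φ : ℂ → S3) : Prop :=
  ∃ δ : ℝ, 0 < δ ∧ ∀ r : ℝ, 0 < r → r < δ → ∀ q : ℕ,
    (∃ t t' : ℝ, Chain2 d Φ r q t t' ∧ SameL Φ t' t) →
      ∀ t t' : ℝ, Chain2 d Φ r q t t' → SameL Φ t' t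

namespace Two

/-- Two-sided admissibility. -/
def Adm (h R κ : ℝ) (S : Finset ℂ) (z : ℂ) (e : ℝ) : Prop :=
  ‖z‖ ≤ R ∧ -(h + κ * e) ≤ z.im ∧ z.im ≤ h + κ * e ∧ 0 < e ∧ e ≤ 1 ∧ ∀ b ∈ S, e ≤ ‖z - b‖

def Adk (h R κ : ℝ) (S : Finset ℂ) (z : ℂ) (a : ℝ) : Prop :=
  0 < a ∧ ∃ e, a ≤ e ∧ Adm h R κ S z e

structure Sec (d : Dat) (h R κ : ℝ) (S : Finset ℂ) (D : Set ℂ) (Φ : ℂ → S3) : Prop where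
  sol : Sol d D Φ
  hp : 0 ≤ h
  kp : 0 < κ
  k1 : κ ≤ 1
  im : ∀ b ∈ S, |b.im| = h
  adm : ∀ z e, Adm h R κ S z e → ball z (κ * e) ⊆ D
  xp : ∀ b ∈ S, ∃ σ : S3, σ.1 ≠ σ.2.1 ∧ ∀ ε : ℝ, 0 < ε → ∃ δ : ℝ, 0 < δ ∧ Xp D Φ b σ ε δ
  diag : ∀ τ ∈ D, fA Φ τ = fB Φ τ → Reg d (Φ τ) ∧ d.py (fA Φ τ, fY Φ τ) ≠ 0

def Tube (h R κ : ℝ) (S : Finset ℂ) (ε η r : ℝ) (τ : ℂ) (n : ℕ) : Prop :=
  ∀ j ≤ n, ∀ z : ℂ, ‖z - (τ + j * r)‖ ≤ 2 * η * r → Adk h R κ S z (ε * r)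

structure Ctx (d : Dat) (h R κ : ℝ) (S : Finset ℂ) (Φ : ℂ → S3) (L ε η r : ℝ) : Prop where
  one : ∀ τ : ℂ, Adk h R κ S τ (ε * r) → Adk h R κ S (τ + r) (ε * r) →
    Stp d Φ η τ r (η * r / 2) ∧ Stp d.flip (flp Φ) η τ r (η * r / 2)
  orb : ∀ (τ : ℂ) (m : ℕ), m * r ≤ L → Tube h R κ S ε η r τ (2 * m) → ∀ k ≤ m,
    ‖(dbl d Φ η r)^[k] τ - (τ + 2 * k * r)‖ ≤ η * r
  dif : ∀ (τ : ℂ) (m : ℕ), m * r ≤ L → Tube h R κ S ε η r τ (2 * m) →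
    DifferentiableAt ℂ (fun p : ℂ × ℂ => (dbl d Φ η p.2)^[m] p.1) (τ, r)

end Two

end Pool.Agent.AO
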