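import Pool.Agent.Lib.AO.Blue

set_option autoImplicit false

noncomputable section

namespace Pool.Agent.AO

open Set Metric Filter Topology MvPolynomial

theorem out_ev_lin (Q : MvPolynomial (Fin 2) ℝ) (a b c e : ℝ) (x y : ℂ) :
    ev (aeval ![C a * X 0 + C b * X 1, C c * X 0 + C e * X 1] Q) x y =
      ev Q (a * x + b * y) (c * x + e * y) := by
  unfold ev
  rw [← AlgHom.comp_apply, comp_aeval]
  congr 2
  funext i
  fin_cases i <;> simp

theorem out_ev_real (Q : MvPolynomial (Fin 2) ℝ) (x y : ℝ) :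
    ev Q x y = (eval ![x, y] Q : ℝ) := by
  unfold ev
  have h : (![(x : ℂ), (y : ℂ)] : Fin 2 → ℂ) = fun i => Complex.ofRealAm (![x, y] i) := by
    funext i
    fin_cases i <;> simp
  rw [h, ← comp_aeval, AlgHom.comp_apply]
  simp [coe_aeval_eq_eval]

/-- The linear map with columns `(1, t)` and `n`. -/
def outL (t : ℝ) (n : ℝ × ℝ) (h : n.2 - t * n.1 ≠ 0) : (ℝ × ℝ) ≃L[ℝ] (ℝ × ℝ) :=
  LinearEquiv.toContinuousLinearEquiv
    { toFun := fun q => (q.1 + n.1 * q.2, t * q.1 + n.2 * q.2)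
      invFun := fun q => ((n.2 * q.1 - n.1 * q.2) / (n.2 - t * n.1),
        (q.2 - t * q.1) / (n.2 - t * n.1))
      map_add' := fun p q => by ext <;> simp <;> ring
      map_smul' := fun c q => by ext <;> simp <;> ring
      left_inv := fun q => by ext <;> simp only <;> rw [div_eq_iff h] <;> ring
      right_inv := fun q => by
        obtain ⟨k, hk⟩ : ∃ k, k * (n.2 - t * n.1) = 1 := ⟨_, inv_mul_cancel₀ h⟩
        have e : (n.2 - t * n.1)⁻¹ = k := (eq_inv_of_mul_eq_one_left hk).symm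
        ext <;> simp only [div_eq_mul_inv, e]
        · linear_combination q.1 * hk
        · linear_combination q.2 * hk }

theorem outL_apply (t : ℝ) (n : ℝ × ℝ) (h : n.2 - t * n.1 ≠ 0) (q : ℝ × ℝ) :
    outL t n h q = (q.1 + n.1 * q.2, t * q.1 + n.2 * q.2) := rfl

theorem out_chd (L : (ℝ × ℝ) ≃L[ℝ] (ℝ × ℝ)) {C C' : Set (ℝ × ℝ)} (e : C' ≃ C)
    (he : ∀ x, (e x : ℝ × ℝ) = L x) (hC : ∀ q, q ∈ C' ↔ L q ∈ C) {v : ℝ × ℝ} {σ : C' → C'}
    (h : Chd C' v σ) : Chd C (L v) (e ∘ σ ∘ e.symm) := by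
  intro x
  obtain ⟨x, rfl⟩ := e.surjective x
  obtain ⟨⟨t, ht⟩, h2⟩ := h x
  simp only [Function.comp_apply, Equiv.symm_apply_apply, he, e.apply_eq_iff_eq]
  refine ⟨⟨t, by rw [ht, map_add, map_smul]⟩, fun hx s hs => h2 hx s ?_⟩
  rw [hC, map_add, map_smul]
  exact hs

theorem out_hyp (L : (ℝ × ℝ) ≃L[ℝ] (ℝ × ℝ)) {C : Set (ℝ × ℝ)} {u n : ℝ × ℝ}
    (h : HypK C (L u) (L n)) : HypK (L ⁻¹' C) u n := by
  obtain ⟨δ, hδ, h⟩ := h
  refine ⟨δ, hδ, fun s s0 s1 σ₁ σ₂ c1 c2 q x hx y => ?_⟩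
  let e : (L ⁻¹' C) ≃ C := L.toEquiv.subtypeEquiv fun _ => Iff.rfl
  have k1 := out_chd L e (fun _ => rfl) (fun _ => Iff.rfl) c1
  have k2 := out_chd L e (fun _ => rfl) (fun _ => Iff.rfl) c2
  rw [map_add, map_smul] at k1
  rw [map_sub, map_smul] at k2
  have sc : Function.Semiconj e (σ₂ ∘ σ₁) ((e ∘ σ₂ ∘ e.symm) ∘ (e ∘ σ₁ ∘ e.symm)) := fun z => by
    simp
  have it := sc.iterate_right q
  have := h s s0 s1 _ _ k1 k2 q (e x) (by rw [← it x, hx]) (e y)
  rw [← it y] at this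
  exact e.injective this

theorem out_ell (L : (ℝ × ℝ) ≃L[ℝ] (ℝ × ℝ)) {C : Set (ℝ × ℝ)} (h : Ell (L ⁻¹' C)) : Ell C := by
  obtain ⟨A, hA⟩ := h
  refine ⟨A.trans L.toLinearEquiv.toAffineEquiv, ?_⟩
  rw [← image_preimage_eq C L.surjective, hA, image_image]
  rfl

theorem st_MAIN (hMIN : St_MIN) (hALG : St_ALG) (hGA : St_GA) (hGB : St_GB) (hGT : St_GT)
    (hCORE : St_CORE) : St_MAIN := by
  intro K P U hK hs hi hP hU h
  obtain ⟨Q, hQ, aQ⟩ := hMIN K P hK hs.convex hi hP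
  obtain ⟨d0, h0⟩ := hALG Q
  obtain ⟨hfin, N1, f1, g1⟩ := hGA Q d0 hQ fun x y => (h0 x y).1
  obtain ⟨N2, f2, g2⟩ := hGB d0 hfin
  obtain ⟨t, tU, tN⟩ : ∃ t ∈ U, t ∉ N1 ∪ N2 := by
    by_contra hc
    push Not at hc
    exact hU ((f1.countable.union f2).mono hc)
  obtain ⟨n, hn, hH⟩ := h t tU
  obtain ⟨d, hd⟩ := hALG (aeval ![C 1 * X 0 + C 0 * X 1, C t * X 0 + C 1 * X 1] Q)
  obtain ⟨d', hd'⟩ := hALG (aeval ![C 1 * X 0 + C n.1 * X 1, C t * X 0 + C n.2 * X 1] Q)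
  have sh : Shear d0 d t := fun x y => by
    rw [(hd x y).1, out_ev_lin, (h0 _ _).1]
    simp
  have e' : ∀ x y, d'.p (x, y) = d0.p (x + n.1 * y, t * x + n.2 * y) := fun x y => by
    rw [(hd' x y).1, out_ev_lin, (h0 _ _).1]
    simp
  obtain ⟨a1, a2, a3, a4⟩ := g1 t (fun x => tN (Or.inl x)) d sh
  obtain ⟨a5, a6⟩ := g2 t (fun x => tN (Or.inr x)) d sh
  have G' : Gen d' := hGT d d' n.1 (n.2 - t * n.1) hn (fun x y => by
    rw [e', sh]
    congr 2
    push_cast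
    ring) ⟨a1, a2, a3, a5, a6, a4⟩
  let L := outL t n hn
  have fr : frontier (L ⁻¹' K) = L ⁻¹' frontier K := (L.toHomeomorph.preimage_frontier K).symm
  have ov : Ov d' (L ⁻¹' K) := by
    refine ⟨L.toHomeomorph.isCompact_preimage.2 hK,
      hs.linear_preimage L.toLinearEquiv.toLinearMap L.continuous L.injective, ?_, ?_⟩
    · obtain ⟨z, hz⟩ := hi
      refine ⟨L.symm z, ?_⟩
      have : interior (L ⁻¹' K) = L ⁻¹' interior K := (L.toHomeomorph.preimage_interior K).symm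
      rw [this]
      simpa using hz
    · intro q hq
      rw [fr] at hq
      obtain ⟨z0, i, hi⟩ := aQ _ hq
      have c1 : (q.1 : ℂ) + n.1 * q.2 = ((L q).1 : ℝ) := by simp [L, outL_apply]
      have c2 : (t : ℂ) * q.1 + n.2 * q.2 = ((L q).2 : ℝ) := by simp [L, outL_apply]
      refine ⟨by rw [rc, e', c1, c2, (h0 _ _).1, out_ev_real, z0]; simp, ?_⟩
      by_contra hc
      push Not at hc
      have u1 := (d'.dp (hasDerivAt_id (q.1 : ℂ)) (hasDerivAt_const _ (q.2 : ℂ))).unique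
        ((d0.dp ((hasDerivAt_id (q.1 : ℂ)).add_const ((n.1 : ℂ) * q.2))
          (((hasDerivAt_id (q.1 : ℂ)).const_mul (t : ℂ)).add_const ((n.2 : ℂ) * q.2))).congr_of_eventuallyEq
            (Eventually.of_forall fun s => e' s q.2))
      have u2 := (d'.dp (hasDerivAt_const _ (q.1 : ℂ)) (hasDerivAt_id (q.2 : ℂ))).unique
        ((d0.dp (((hasDerivAt_id (q.2 : ℂ)).const_mul (n.1 : ℂ)).const_add (q.1 : ℂ))
          (((hasDerivAt_id (q.2 : ℂ)).const_mul (n.2 : ℂ)).const_add ((t : ℂ) * q.1))).congr_of_eventuallyEq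
            (Eventually.of_forall fun s => e' q.1 s))
      simp only [id, c1, c2] at u1 u2
      rw [show ((q.1 : ℂ), (q.2 : ℂ)) = rc q from rfl, hc.1, hc.2] at u1 u2
      have k0 : ((n.2 : ℂ) - t * n.1) ≠ 0 := by exact_mod_cast hn
      have y0 : d0.py (((L q).1 : ℝ), ((L q).2 : ℝ)) = 0 := by
        apply mul_left_cancel₀ k0
        linear_combination n.1 * u1 - u2
      have x0 : d0.px (((L q).1 : ℝ), ((L q).2 : ℝ)) = 0 := by
        linear_combination -u1 - t * y0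
      rw [(h0 _ _).2.2, out_ev_real] at y0
      rw [(h0 _ _).2.1, out_ev_real] at x0
      fin_cases i
      · exact hi (by exact_mod_cast x0)
      · exact hi (by exact_mod_cast y0)
  refine out_ell L ?_
  rw [← fr]
  refine hCORE d' _ G' ov ?_
  rw [fr]
  refine out_hyp L ?_
  have l1 : L (1, 0) = (1, t) := by simp [L, outL_apply]
  have l2 : L (0, 1) = n := by simp [L, outL_apply]
  rw [l1, l2]
  exact hH

end Pool.Agent.AO
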