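import Pool.Agent.Lib.AO.R_KIT
import Pool.Agent.Lib.AO.B_REAL
import Pool.Agent.Lib.AO.B_CVX

/-! The real flow, part one: local solutions, time function, caps. -/

set_option autoImplicit false

noncomputable section

namespace Pool.Agent.AO

open Set Metric Filter Topology ComplexConjugate Pool.Agent.Lib.AO R23

namespace RF23

theorem op {d : Dat} {K : Set (ℝ × ℝ)} (ov : OvZ d K) {q : ℝ × ℝ} (hq : q ∈ frontier K)
    (h : d.px (rc q) ≠ 0 ∨ d.py (rc q) ≠ 0) : ∀ᶠ z in 𝓝 q, d.p (rc z) = 0 → z ∈ frontier K := by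
  obtain ⟨hK, hs, hi, ho⟩ := ov
  obtain ⟨f', h1, h2⟩ := C62.strict d q
  have h3 : f' ≠ 0 := fun e => by
    have a := h2 (1, 0)
    have b := h2 (0, 1)
    rw [e] at a b
    simp only [zero_apply, mul_one, mul_zero, add_zero, zero_add] at a b
    rcases h with e | e
    · exact e (by rw [← C62.px_re, ← a]; simp)
    · exact e (by rw [← C62.py_re, ← b]; simp)
  filter_upwards [L62.front_of_zero hK.isClosed hs.convex hi h1 hq h3
    (.of_forall fun z hz => by rw [ho z hz, Complex.zero_re])] with z hz e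
  exact hz (by rw [e, Complex.zero_re])

theorem rloc : St_RLOC := by
  intro d K a b y ov h1 h2 n1 n2 hR hD
  obtain ⟨r, r0, H⟩ := st_LOC d _ hR
  obtain ⟨Φ, s, e⟩ := H _ (mem_ball_self r0) ⟨ov.2.2.2 _ h1, ov.2.2.2 _ h2, hD⟩ 0
  have s2 := (st_SYM d _ _ (st_SYM d _ _ s).2.2.2.1).1 (ball 0 r) isOpen_ball fun z hz => by
    simpa using hz
  have u := st_UNI d _ _ _ 0 s s2 (convex_ball _ _).isPreconnected (mem_ball_self r0)
    (by simp [e, cj]) (by rwa [e])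
  have c : ContinuousAt (fun t : ℝ => Φ t) 0 :=
    (s.df.differentiableAt (isOpen_ball.mem_nhds (by simpa using r0))).continuousAt.comp
      Complex.continuous_ofReal.continuousAt
  have c1 : Tendsto (fun t : ℝ => (((Φ t).1.re, (Φ t).2.2.re) : ℝ × ℝ)) (𝓝 0) (𝓝 (a, y)) := by
    have : ContinuousAt (fun t : ℝ => (((Φ t).1.re, (Φ t).2.2.re) : ℝ × ℝ)) 0 :=
      (show Continuous fun σ : S3 => ((σ.1.re, σ.2.2.re) : ℝ × ℝ) by fun_prop).continuousAt.comp c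
    simpa [ContinuousAt, e] using this
  have c2 : Tendsto (fun t : ℝ => (((Φ t).2.1.re, (Φ t).2.2.re) : ℝ × ℝ)) (𝓝 0) (𝓝 (b, y)) := by
    have : ContinuousAt (fun t : ℝ => (((Φ t).2.1.re, (Φ t).2.2.re) : ℝ × ℝ)) 0 :=
      (show Continuous fun σ : S3 => ((σ.2.1.re, σ.2.2.re) : ℝ × ℝ) by fun_prop).continuousAt.comp c
    simpa [ContinuousAt, e] using this
  have c3 : ∀ᶠ t : ℝ in 𝓝 0, (t : ℂ) ∈ ball (0 : ℂ) r :=
    Complex.continuous_ofReal.continuousAt.eventually_mem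
      (isOpen_ball.mem_nhds (by simpa using r0))
  obtain ⟨ρ, ρ0, hρ⟩ := Metric.eventually_nhds_iff.1
    ((c1.eventually (op ov h1 n1)).and ((c2.eventually (op ov h2 n2)).and c3))
  refine ⟨min r ρ, lt_min r0 ρ0, Φ,
    (st_SYM d _ _ s).1 _ isOpen_ball (ball_subset_ball (min_le_left _ _)), e, fun t ht => ?_⟩
  obtain ⟨t1, t2, t3⟩ := hρ (y := t) (by simpa using ht.trans_le (min_le_right _ _))
  have e1 := u t3
  simp only [Complex.conj_ofReal] at e1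
  have e2 := R62.re_of_cj e1
  refine ⟨e1.symm, t1 ?_, t2 ?_⟩
  · have := s.pA _ t3
    rw [fA, fY, e2] at this
    exact this
  · have := s.pB _ t3
    rw [fB, fY, e2] at this
    exact this

/-- The state on the way down. -/
def dn (a β : ℝ → ℝ) (y : ℝ) : S3 := ((β y : ℂ), (a y : ℂ), (y : ℂ))

/-- Real with both ends on the curve. -/
def On (K : Set (ℝ × ℝ)) (Ψ : ℂ → S3) (t : ℝ) : Prop :=
  cj (Ψ t) = Ψ t ∧ ((fA Ψ t).re, (fY Ψ t).re) ∈ frontier K ∧ ((fB Ψ t).re, (fY Ψ t).re) ∈ frontier K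

variable {d : Dat} {K : Set (ℝ × ℝ)} {lo hi : ℝ} {a β G : ℝ → ℝ}

theorem timeG (g : Geo K lo hi a β) :
    ∃ G : ℝ → ℝ, ∀ y ∈ Ioo lo hi, HasDerivAt G (-1 / (a y - β y)) y := by
  have c : ContinuousOn (fun y => -1 / (a y - β y)) (Ioo lo hi) :=
    continuousOn_const.div ((g.ca.sub g.cb).mono Ioo_subset_Icc_self)
      fun y hy => (sub_pos.2 (g.ne y hy)).ne'
  have m : (lo + hi) / 2 ∈ Ioo lo hi := ⟨by linarith [g.lt], by linarith [g.lt]⟩
  refine ⟨fun u => ∫ x in ((lo + hi) / 2)..u, -1 / (a x - β x), fun y hy => ?_⟩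
  exact intervalIntegral.integral_hasDerivAt_right
    (c.mono (ordConnected_Ioo.uIcc_subset m hy)).intervalIntegrable
    (c.stronglyMeasurableAtFilter isOpen_Ioo y hy) (c.continuousAt (isOpen_Ioo.mem_nhds hy))

theorem track1 (hc : IsClosed K) (g : Geo K lo hi a β)
    (hG : ∀ y ∈ Ioo lo hi, HasDerivAt G (-1 / (a y - β y)) y) {U : Set ℂ} {Ψ : ℂ → S3}
    (s : Sol d U Ψ) {t : ℝ} (ht : (t : ℂ) ∈ U) (o : On K Ψ t) (hw : (fA Ψ t - fB Ψ t).re < 0) :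
    (fY Ψ t).re ∈ Ioo lo hi ∧ Ψ t = dn a β (fY Ψ t).re ∧
      HasDerivAt (fun u : ℝ => G (fY Ψ u).re - u) 0 t := by
  obtain ⟨o1, o2, o3⟩ := o
  rw [Complex.sub_re, sub_neg] at hw
  obtain ⟨m1, m2, m3⟩ := g.mem _ (hc.frontier_subset o2)
  obtain ⟨-, m4, m5⟩ := g.mem _ (hc.frontier_subset o3)
  simp only at m1 m2 m3 m4 m5
  have eA : (fA Ψ t).re = β (fY Ψ t).re := (g.fr _ o2).resolve_left fun e => by
    simp only at e
    linarith
  have eB : (fB Ψ t).re = a (fY Ψ t).re := (g.fr _ o3).resolve_right fun e => by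
    simp only at e
    linarith
  have m6 : (fY Ψ t).re ∈ Ioo lo hi := by
    refine ⟨lt_of_le_of_ne m1.1 fun e => ?_, lt_of_le_of_ne m1.2 fun e => ?_⟩
    · rw [← e] at eA eB
      linarith [g.e1]
    · rw [e] at eA eB
      linarith [g.e2]
  refine ⟨m6, ?_, ?_⟩
  · rw [dn, ← eA, ← eB]
    exact R62.re_of_cj o1.symm
  · have h1 := (hG _ m6).comp t (s.dY t ht).real_of_complex
    refine (h1.sub (hasDerivAt_id t)).congr_deriv ?_
    have := (sub_pos.2 (g.ne _ m6)).ne'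
    rw [Complex.sub_re, eA, eB]
    field_simp
    ring

theorem track (hc : IsClosed K) (g : Geo K lo hi a β)
    (hG : ∀ y ∈ Ioo lo hi, HasDerivAt G (-1 / (a y - β y)) y) {U : Set ℂ} {Ψ : ℂ → S3}
    (s : Sol d U Ψ) {u v : ℝ}
    (h : ∀ t ∈ Ioo u v, (t : ℂ) ∈ U ∧ On K Ψ t ∧ (fA Ψ t - fB Ψ t).re < 0) :
    ∃ c : ℝ, ∀ t ∈ Ioo u v, (fY Ψ t).re ∈ Ioo lo hi ∧ Ψ t = dn a β (fY Ψ t).re ∧
      G (fY Ψ t).re = c + t := by
  have k := fun t ht => track1 hc g hG s (h t ht).1 (h t ht).2.1 (h t ht).2.2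
  obtain ⟨c, hc⟩ := isOpen_Ioo.exists_is_const_of_deriv_eq_zero (isPreconnected_Ioo (a := u) (b := v))
    (f := fun u : ℝ => G (fY Ψ u).re - u)
    (fun t ht => (k t ht).2.2.differentiableAt.differentiableWithinAt)
    fun t ht => (k t ht).2.2.deriv
  exact ⟨c, fun t ht => ⟨(k t ht).1, (k t ht).2.1, by linarith [hc t ht]⟩⟩

theorem cap0 (gen : Gen d) (ov : OvZ d K) {x y : ℝ} (hq : (x, y) ∈ frontier K)
    (h1 : d.px (x, y) = 0) (h2 : d.py (x, y) ≠ 0) :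
    ∃ ρ : ℝ, 0 < ρ ∧ ∃ Ψ, Sol d (ball 0 ρ) Ψ ∧ Ψ 0 = ((x : ℂ), (x : ℂ), (y : ℂ)) ∧
      (∀ t : ℝ, |t| < ρ → On K Ψ t ∧ Ψ (-t) = sw (Ψ t)) ∧
      ∃ α : ℝ, α ≠ 0 ∧ ∀ t ∈ Ioo 0 ρ, ∃ c : ℝ, 0 < α * (fA Ψ t - fB Ψ t).re ∧ 0 < α * c ∧
        (fY Ψ t).re = y + c := by
  have k3 : d.E (x, x, y) ≠ 0 := gen.g4 _ _ (ov.2.2.2 _ hq) h1 h2
  obtain ⟨r, r0, Ψ, s, e, o⟩ := rloc d K x x y ov hq hq (Or.inr h2) (Or.inr h2) ⟨k3, k3⟩
    (by rw [d.Dd, h1])
  have rg : Reg d (Ψ 0) := by rw [e]; exact ⟨k3, k3⟩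
  have s2 := (st_SYM d _ _ ((st_SYM d _ _ s).2.2.1 0)).1 (ball 0 r) isOpen_ball fun z hz => by
    simpa using hz
  have u := st_UNI d _ _ _ 0 s s2 (convex_ball _ _).isPreconnected (mem_ball_self r0)
    (by simp [e, sw]) rg
  have r1 : d.py (x, y) = conj (d.py (x, y)) := by simpa using d.jpy x y
  have r2 : d.E (x, x, y) = conj (d.E (x, x, y)) := by simpa using d.jE x x y
  have e1 : R62.acc d (x, x, y) = -2 * d.py (x, y) / d.E (x, x, y) := by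
    simp only [R62.acc, sw]
    ring
  have r3 : conj (R62.acc d (x, x, y)) = R62.acc d (x, x, y) := by
    rw [e1, map_div₀, map_mul, ← r1, ← r2, map_neg, map_ofNat]
  have ne : (R62.acc d (x, x, y)).re ≠ 0 := fun z => by
    have := Complex.conj_eq_iff_re.1 r3
    rw [z, e1] at this
    exact div_ne_zero (mul_ne_zero (by norm_num) h2) k3 (this.symm.trans Complex.ofReal_zero)
  have dw : HasDerivAt (fun t : ℝ => (fA Ψ t - fB Ψ t).re) (R62.acc d (x, x, y)).re 0 := by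
    have := R62.acc_deriv s (τ := ((0 : ℝ) : ℂ)) (by simpa using r0) (by simpa using rg)
    rw [Complex.ofReal_zero, e, ← Complex.ofReal_zero] at this
    exact this.real_of_complex
  generalize (R62.acc d (x, x, y)).re = α at ne dw
  have ev : ∀ᶠ t : ℝ in 𝓝[>] 0, 0 < α * (fA Ψ t - fB Ψ t).re := by
    have a1 := (dw.const_mul α).tendsto_slope_zero_right.eventually
      (lt_mem_nhds (mul_self_pos.2 ne |> half_lt_self))
    filter_upwards [a1, self_mem_nhdsWithin] with t a2 a3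
    have a4 : 0 < t⁻¹ := inv_pos.2 a3
    have a5 : fA Ψ ((0 : ℝ) : ℂ) - fB Ψ ((0 : ℝ) : ℂ) = 0 := by simp [fA, fB, e]
    rw [zero_add, a5, Complex.zero_re, mul_zero, sub_zero, smul_eq_mul] at a2
    exact (mul_pos_iff_of_pos_left a4).1 ((half_pos (mul_self_pos.2 ne)).trans a2)
  obtain ⟨ρ, ρ0, hρ⟩ := (nhdsGT_basis (0 : ℝ)).eventually_iff.1 ev
  have mem : ∀ t : ℝ, |t| < min r ρ → (t : ℂ) ∈ ball (0 : ℂ) r := fun t ht => by
    simpa using ht.trans_le (min_le_left _ _)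
  refine ⟨min r ρ, lt_min r0 ρ0, Ψ,
    (st_SYM d _ _ s).1 _ isOpen_ball (ball_subset_ball (min_le_left _ _)), e, fun t ht =>
      ⟨o t (ht.trans_le (min_le_left _ _)), ?_⟩, α, ne, fun t ht => ?_⟩
  · have := u (mem t ht)
    simp only [zero_sub] at this
    rw [this, str_swsw]
  · have dd : ∀ z ∈ Icc 0 t, HasDerivAt (fun z : ℝ => (fY Ψ z).re) (fA Ψ z - fB Ψ z).re z :=
      fun z hz => (s.dY z (mem z (by rw [abs_of_nonneg hz.1]; exact hz.2.trans_lt ht.2))).real_of_complex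
    obtain ⟨z, hz, ez⟩ := exists_hasDerivAt_eq_slope (fun z : ℝ => (fY Ψ z).re) _ ht.1
      (fun z hz => (dd z hz).continuousAt.continuousWithinAt) fun z hz => dd z (Ioo_subset_Icc_self hz)
    have l := ht.2.trans_le (min_le_right _ _)
    have a1 := hρ (x := z) ⟨hz.1, hz.2.trans l⟩
    have a2 : (fY Ψ ((0 : ℝ) : ℂ)).re = y := by simp [fY, e]
    refine ⟨(fA Ψ z - fB Ψ z).re * t, hρ ⟨ht.1, l⟩, by rw [← mul_assoc]; exact mul_pos a1 ht.1, ?_⟩
    rw [ez, a2, sub_zero, div_mul_cancel₀ _ ht.1.ne']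
    ring

/-- A cap: the solution through a tangent point, on the side where it goes down. -/
def Cap (d : Dat) (lo hi : ℝ) (a β G : ℝ → ℝ) (y c s : ℝ) : Prop :=
  ∃ ρ : ℝ, 0 < ρ ∧ ∃ Ψ, Sol d (ball 0 ρ) Ψ ∧ Ψ 0 = dn a β y ∧
    (∀ t : ℝ, |t| < ρ → Ψ (-t) = sw (Ψ t)) ∧ ∀ t ∈ Ioo 0 ρ,
      (fY Ψ (s * t : ℝ)).re ∈ Ioo lo hi ∧ Ψ (s * t : ℝ) = dn a β (fY Ψ (s * t : ℝ)).re ∧
        G (fY Ψ (s * t : ℝ)).re = c + s * t

theorem cap_hi (gen : Gen d) (ov : OvZ d K) (g : Geo K lo hi a β)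
    (hG : ∀ y ∈ Ioo lo hi, HasDerivAt G (-1 / (a y - β y)) y) (h1 : d.px (a hi, hi) = 0)
    (h2 : d.py (a hi, hi) ≠ 0) : ∃ c, Cap d lo hi a β G hi c 1 := by
  obtain ⟨ρ, ρ0, Ψ, s, e, o, α, -, h⟩ := cap0 gen ov (g.ma hi (right_mem_Icc.2 g.lt.le)) h1 h2
  have ab : ∀ t ∈ Ioo 0 ρ, |t| < ρ := fun t ht => by rw [abs_of_pos ht.1]; exact ht.2
  obtain ⟨c, hc⟩ := track ov.1.isClosed g hG s (u := 0) (v := ρ) fun t ht => by
    refine ⟨by simpa using ab t ht, (o t (ab t ht)).1, ?_⟩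
    obtain ⟨z, a1, a2, a3⟩ := h t ht
    have a4 := (g.mem _ (ov.1.isClosed.frontier_subset (o t (ab t ht)).1.2.1)).1.2
    simp only at a4
    by_contra hn
    push Not at hn
    have a5 : 0 < α := by
      by_contra h5
      push Not at h5
      nlinarith
    have a6 : 0 < z := (mul_pos_iff_of_pos_left a5).1 a2
    linarith
  exact ⟨c, ρ, ρ0, Ψ, s, by rw [e, dn, g.e2], fun t ht => (o t ht).2,
    fun t ht => by simpa only [one_mul] using hc t ht⟩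

theorem cap_lo (gen : Gen d) (ov : OvZ d K) (g : Geo K lo hi a β)
    (hG : ∀ y ∈ Ioo lo hi, HasDerivAt G (-1 / (a y - β y)) y) (h1 : d.px (a lo, lo) = 0)
    (h2 : d.py (a lo, lo) ≠ 0) : ∃ c, Cap d lo hi a β G lo c (-1) := by
  obtain ⟨ρ, ρ0, Ψ, s, e, o, α, -, h⟩ := cap0 gen ov (g.ma lo (left_mem_Icc.2 g.lt.le)) h1 h2
  have ab : ∀ t ∈ Ioo (-ρ) 0, |t| < ρ := fun t ht => abs_lt.2 ⟨ht.1, ht.2.trans ρ0⟩
  obtain ⟨c, hc⟩ := track ov.1.isClosed g hG s (u := -ρ) (v := 0) fun t ht => by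
    refine ⟨by simpa using ab t ht, (o t (ab t ht)).1, ?_⟩
    obtain ⟨z, a1, a2, a3⟩ := h (-t) ⟨by linarith [ht.2], by linarith [ht.1]⟩
    have a4 := (g.mem _ (ov.1.isClosed.frontier_subset (o t (ab t ht)).1.2.1)).1.1
    simp only [fA, fB, fY, Complex.ofReal_neg, (o t (ab t ht)).2, sw, Complex.sub_re] at a1 a3 a4 ⊢
    by_contra hn
    push Not at hn
    have a5 : α < 0 := by
      by_contra h5
      push Not at h5
      nlinarith
    have a6 : z < 0 := by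
      by_contra h6
      push Not at h6
      nlinarith
    linarith
  refine ⟨c, ρ, ρ0, Ψ, s, by rw [e, dn, g.e1], fun t ht => (o t ht).2, fun t ht => ?_⟩
  exact hc (-1 * t) ⟨by linarith [ht.2], by linarith [ht.1]⟩

end RF23

end Pool.Agent.AO
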