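import Pool.Agent.Lib.AO.Blue3
import Pool.Agent.Lib.AO.B_CVX
import Pool.Agent.Lib.AO.B_REAL

set_option autoImplicit false

noncomputable section

namespace Pool.Agent.AO

open Set Metric Filter Topology ComplexConjugate Pool.Agent.Lib.AO

namespace RL62

open C62

theorem grad (d : Dat) (q : ℝ × ℝ) (n : d.px (rc q) ≠ 0 ∨ d.py (rc q) ≠ 0) :
    ∃ f' : ℝ × ℝ →L[ℝ] ℝ, HasStrictFDerivAt (fun q : ℝ × ℝ => (d.p (rc q)).re) f' q ∧ f' ≠ 0 ∧
      ∀ v, f' v = (d.px (rc q)).re * v.1 + (d.py (rc q)).re * v.2 := by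
  obtain ⟨f', h1, h2⟩ := strict d q
  refine ⟨f', h1, fun h => ?_, h2⟩
  have a := h2 (1, 0)
  have b := h2 (0, 1)
  rw [h] at a b
  simp only [zero_apply, mul_one, mul_zero, add_zero, zero_add] at a b
  rcases n with e | e
  · exact e (by rw [← px_re, ← a]; simp)
  · exact e (by rw [← py_re, ← b]; simp)

theorem zf {d : Dat} {K : Set (ℝ × ℝ)} (ov : OvZ d K) (q : ℝ × ℝ) :
    ∀ᶠ z in 𝓝 q, z ∈ frontier K → (d.p (rc z)).re = 0 :=
  Eventually.of_forall fun z hz => by rw [ov.2.2.2 z hz, Complex.zero_re]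

/-- near a nonsingular point the frontier is open in the real zero set -/
theorem opn {d : Dat} {K : Set (ℝ × ℝ)} (ov : OvZ d K) {q : ℝ × ℝ} (hq : q ∈ frontier K)
    (n : d.px (rc q) ≠ 0 ∨ d.py (rc q) ≠ 0) :
    ∀ᶠ q' in 𝓝 q, d.p (rc q') = 0 → q' ∈ frontier K := by
  obtain ⟨f', h1, h2, _⟩ := grad d q n
  filter_upwards [L62.front_of_zero ov.1.isClosed ov.2.1.convex ov.2.2.1 h1 hq h2 (zf ov q)]
    with z hz e
  exact hz (by rw [e, Complex.zero_re])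

/-- the tangent at a nonsingular point meets `K` in that point only -/
theorem trv {d : Dat} {K : Set (ℝ × ℝ)} (ov : OvZ d K) {q : ℝ × ℝ} (hq : q ∈ frontier K)
    (n : d.px (rc q) ≠ 0 ∨ d.py (rc q) ≠ 0) {v : ℝ × ℝ} (hv : v ≠ 0) (hm : q + v ∈ K) :
    d.px (rc q) * v.1 + d.py (rc q) * v.2 ≠ 0 := by
  intro h
  obtain ⟨f', h1, h2, h3⟩ := grad d q n
  refine hv (L62.tangent ov.1.isClosed ov.2.1 h1 hq h2 (zf ov q) ?_ hm)
  rw [← cast62] at h
  rw [h3]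
  exact_mod_cast h

end RL62

open R62 RL62 in
theorem st_RLOC (hLOC : St_LOC) (hUNI : St_UNI) (hSYM : St_SYM) : St_RLOC := by
  intro d K a b y ov h1 h2 n1 n2 reg hD
  obtain ⟨r, r0, hr⟩ := hLOC d _ reg
  obtain ⟨Φ, s, e⟩ := hr _ (mem_ball_self r0) ⟨ov.2.2.2 _ h1, ov.2.2.2 _ h2, hD⟩ 0
  have s2 := (hSYM d _ _ (hSYM d _ _ s).2.2.2.1).1 (ball 0 r) isOpen_ball fun z hz => by
    simpa using hz
  have u := hUNI d _ _ _ 0 s s2 (convex_ball _ _).isPreconnected (mem_ball_self r0)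
    (by simp [e, cj]) (e ▸ reg)
  have c : ContinuousAt (fun t : ℝ => Φ t) 0 :=
    (s.df.differentiableAt (isOpen_ball.mem_nhds (by simpa using r0))).continuousAt.comp
      Complex.continuous_ofReal.continuousAt
  have c1 : Tendsto (fun t : ℝ => (((Φ t).1.re, (Φ t).2.2.re) : ℝ × ℝ)) (𝓝 0) (𝓝 (a, y)) := by
    have : ContinuousAt (fun t : ℝ => (((Φ t).1.re, (Φ t).2.2.re) : ℝ × ℝ)) 0 :=
      (show Continuous fun σ : S3 => ((σ.1.re, σ.2.2.re) : ℝ × ℝ) by fun_prop).continuousAt.comp c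
    simpa [ContinuousAt, e] using this
  have c2 : Tendsto (fun t : ℝ => (((Φ t).2.1.re, (Φ t).2.2.re) : ℝ × ℝ)) (𝓝 0) (𝓝 (b, y)) := by
    have : ContinuousAt (fun t : ℝ => (((Φ t).2.1.re, (Φ t).2.2.re) : ℝ × ℝ)) 0 :=
      (show Continuous fun σ : S3 => ((σ.2.1.re, σ.2.2.re) : ℝ × ℝ) by fun_prop).continuousAt.comp c
    simpa [ContinuousAt, e] using this
  have c3 : ∀ᶠ t : ℝ in 𝓝 0, (t : ℂ) ∈ ball (0 : ℂ) r :=
    Complex.continuous_ofReal.continuousAt.eventually_mem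
      (isOpen_ball.mem_nhds (by simpa using r0))
  have ev : ∀ᶠ t : ℝ in 𝓝 0, cj (Φ t) = Φ t ∧ ((fA Φ t).re, (fY Φ t).re) ∈ frontier K ∧
      ((fB Φ t).re, (fY Φ t).re) ∈ frontier K := by
    filter_upwards [c1.eventually (opn ov h1 n1), c2.eventually (opn ov h2 n2), c3] with t t1 t2 t3
    have e1 := u t3
    simp only [Complex.conj_ofReal] at e1
    have e2 := re_of_cj e1
    refine ⟨e1.symm, t1 ?_, t2 ?_⟩
    · have := s.pA _ t3
      rw [fA, fY, e2] at this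
      exact this
    · have := s.pB _ t3
      rw [fB, fY, e2] at this
      exact this
  obtain ⟨ρ, p, hρ⟩ := Metric.eventually_nhds_iff.1 ev
  refine ⟨min ρ r, lt_min p r0, Φ,
    (hSYM d _ _ s).1 _ isOpen_ball (ball_subset_ball (min_le_right _ _)), e, fun t ht => hρ ?_⟩
  simpa using ht.trans_le (min_le_left _ _)

end Pool.Agent.AO
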